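import Mathlib

/-!
# Basic plane geometry for MP_beb3fe_lc

Points of the plane are pairs of reals.  `orient p q r` is twice the signed area of the
triangle `p q r`.
-/

namespace SegGirth

/-- the plane -/
abbrev Pt : Type := ℝ × ℝ

/-- twice the signed area of the triangle `p q r` (positive for a left turn) -/
def orient (p q r : Pt) : ℝ := (q.1 - p.1) * (r.2 - p.2) - (q.2 - p.2) * (r.1 - p.1)

/-- two polygonal paths (lists of points) meet: a segment between consecutive points of the
first one intersects a segment between consecutive points of the second one -/
def Meets (A B : List Pt) : Prop :=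
  ∃ p q r s : Pt, [p, q] <:+: A ∧ [r, s] <:+: B ∧ (segment ℝ p q ∩ segment ℝ r s).Nonempty

lemma orient_self_left (p q : Pt) : orient p p q = 0 := by simp [orient]

lemma orient_self_right (p q : Pt) : orient p q q = 0 := by simp [orient]; ring

lemma orient_self_mid (p q : Pt) : orient p q p = 0 := by simp [orient]

lemma orient_rot (p q r : Pt) : orient q r p = orient p q r := by simp only [orient]; ring

lemma orient_swap (p q r : Pt) : orient q p r = - orient p q r := by simp only [orient]; ring

lemma orient_swap' (p q r : Pt) : orient p r q = - orient p q r := by simp only [orient]; ring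

/-- `orient` is affine in the last variable -/
lemma orient_lineMap (p q r s : Pt) (t : ℝ) :
    orient p q ((1 - t) • r + t • s) = (1 - t) * orient p q r + t * orient p q s := by
  simp only [orient, Prod.fst_add, Prod.snd_add, Prod.smul_fst, Prod.smul_snd, smul_eq_mul]
  ring

end SegGirth
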