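import Mathlib
import Pool.Agent.Lib.MP_beb3fe_lc.Basic

/-!
# `K_{3,3}` has no polygonal drawing in which independent edges are disjoint

Parity proof: crossing numbers modulo 2 of polygonal paths in general position.
-/

namespace SegGirth
namespace KK

open Finset

/-- sign bit -/
noncomputable def bit (x : ℝ) : Bool := decide (0 < x)

lemma bit_neg {x : ℝ} (h : x ≠ 0) : bit (-x) = !bit x := by
  unfold bit
  rcases lt_or_gt_of_ne h with h1 | h1
  · have h2 : ¬ 0 < x := not_lt.2 h1.le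
    have h3 : 0 < -x := by linarith
    simp [h2, h3]
  · have h3 : ¬ 0 < -x := by linarith
    simp [h1, h3]

lemma mul_pos_iff_bit {x y : ℝ} (hx : x ≠ 0) (hy : y ≠ 0) : 0 < x * y ↔ bit x = bit y := by
  unfold bit
  rcases lt_or_gt_of_ne hx with h1 | h1 <;> rcases lt_or_gt_of_ne hy with h2 | h2
  · simp [not_lt.2 h1.le, not_lt.2 h2.le, mul_pos_of_neg_of_neg h1 h2]
  · simp [not_lt.2 h1.le, h2, not_lt.2 (mul_neg_of_neg_of_pos h1 h2).le]
  · simp [not_lt.2 h2.le, h1, not_lt.2 (mul_neg_of_pos_of_neg h1 h2).le]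
  · simp [h1, h2, mul_pos h1 h2]

/-- three term relation -/
lemma gp {a b c d e f : ℝ} (ha : a ≠ 0) (hb : b ≠ 0) (hc : c ≠ 0) (hd : d ≠ 0) (he : e ≠ 0)
    (hf : f ≠ 0) (h : a * b + c * d + e * f = 0) :
    ((bit a == bit b) && (bit c == bit d) && (bit e == bit f)) = false ∧
      ((bit a != bit b) && (bit c != bit d) && (bit e != bit f)) = false := by
  have h1 := mul_pos_iff_bit ha hb
  have h2 := mul_pos_iff_bit hc hd
  have h3 := mul_pos_iff_bit he hf
  have n1 : a * b ≠ 0 := mul_ne_zero ha hb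
  have n2 : c * d ≠ 0 := mul_ne_zero hc hd
  have n3 : e * f ≠ 0 := mul_ne_zero he hf
  constructor
  · by_contra hcon
    simp only [Bool.not_eq_false, Bool.and_eq_true, beq_iff_eq] at hcon
    have p1 := h1.2 hcon.1.1
    have p2 := h2.2 hcon.1.2
    have p3 := h3.2 hcon.2
    linarith
  · by_contra hcon
    simp only [Bool.not_eq_false, Bool.and_eq_true, bne_iff_ne, ne_eq] at hcon
    have p1 : a * b < 0 := lt_of_le_of_ne (not_lt.1 fun h => hcon.1.1 (h1.1 h)) n1
    have p2 : c * d < 0 := lt_of_le_of_ne (not_lt.1 fun h => hcon.1.2 (h2.1 h)) n2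
    have p3 : e * f < 0 := lt_of_le_of_ne (not_lt.1 fun h => hcon.2 (h3.1 h)) n3
    linarith

/-- orientation bit -/
noncomputable def o (p q r : Pt) : Bool := bit (orient p q r)
/-- order bit of the abscissae -/
noncomputable def l (p q : Pt) : Bool := bit (q.1 - p.1)
/-- crossing bit -/
noncomputable def X (p q r s : Pt) : Bool := (o p q r ^^ o p q s) && (o r s p ^^ o r s q)
/-- the upward vertical ray from `x` crosses `rs` -/
noncomputable def V (x r s : Pt) : Bool := (l r x ^^ l s x) && (o r s x ^^ l r s)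
/-- `r` lies above the segment `xy` -/
noncomputable def S (x y r : Pt) : Bool := (l x r ^^ l y r) && !(o x y r ^^ l x y)

/-- general position of two segments -/
structure Good (x y r s : Pt) : Prop where
  A : orient x y r ≠ 0
  B : orient x y s ≠ 0
  C : orient r s x ≠ 0
  D : orient r s y ≠ 0
  xy : y.1 - x.1 ≠ 0
  xr : r.1 - x.1 ≠ 0
  xs : s.1 - x.1 ≠ 0
  yr : r.1 - y.1 ≠ 0
  ys : s.1 - y.1 ≠ 0
  rs : s.1 - r.1 ≠ 0

set_option maxRecDepth 100000 in
lemma bool_star : ∀ A B C D xy xr xs yr ys rs : Bool,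
    (((A == xs) && ((!B) == xr) && (xy == C)) = false ∧ ((A != xs) && ((!B) != xr) && (xy != C)) = false) →
    ((((!A) == ys) && (B == yr) && ((!xy) == D)) = false ∧
      (((!A) != ys) && (B != yr) && ((!xy) != D)) = false) →
    (((A == rs) && ((!C) == yr) && (D == xr)) = false ∧ ((A != rs) && ((!C) != yr) && (D != xr)) = false) →
    ((((!B) == rs) && (C == ys) && ((!D) == xs)) = false ∧
      (((!B) != rs) && (C != ys) && ((!D) != xs)) = false) →
    (((xy == rs) && ((!xr) == ys) && (xs == yr)) = false ∧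
      ((xy != rs) && ((!xr) != ys) && (xs != yr)) = false) →
    ((xy && yr && !xr) = false ∧ (!xy && !yr && xr) = false) →
    ((xy && ys && !xs) = false ∧ (!xy && !ys && xs) = false) →
    ((xr && rs && !xs) = false ∧ (!xr && !rs && xs) = false) →
    ((yr && rs && !ys) = false ∧ (!yr && !rs && ys) = false) →
    (((A ^^ B) && (C ^^ D)) ^^ ((((!xr) ^^ (!xs)) && (C ^^ rs)) ^^ (((!yr) ^^ (!ys)) && (D ^^ rs))))
      = (((xr ^^ yr) && !(A ^^ xy)) ^^ ((xs ^^ ys) && !(B ^^ xy))) := by
  decide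

lemma lin {a b c : ℝ} (h : a + b = c) :
    (bit a && bit b && !bit c) = false ∧ (!bit a && !bit b && bit c) = false := by
  unfold bit
  constructor
  · by_contra hcon
    simp only [Bool.not_eq_false, Bool.and_eq_true, Bool.not_eq_true', decide_eq_true_eq,
      decide_eq_false_iff_not] at hcon
    linarith [hcon.1.1, hcon.1.2, not_lt.1 hcon.2]
  · by_contra hcon
    simp only [Bool.not_eq_false, Bool.and_eq_true, Bool.not_eq_true', decide_eq_true_eq,
      decide_eq_false_iff_not] at hcon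
    linarith [not_lt.1 hcon.1.1, not_lt.1 hcon.1.2, hcon.2]

lemma l_swap {p q : Pt} (h : q.1 - p.1 ≠ 0) : l q p = !l p q := by
  unfold l
  rw [← bit_neg h]
  congr 1
  ring

/-- the crossing identity -/
theorem star {x y r s : Pt} (h : Good x y r s) :
    (X x y r s ^^ (V x r s ^^ V y r s)) = (S x y r ^^ S x y s) := by
  obtain ⟨hA, hB, hC, hD, hxy, hxr, hxs, hyr, hys, hrs⟩ := h
  have e1 := gp (a := orient x y r) (b := s.1 - x.1) (c := -orient x y s) (d := r.1 - x.1)
    (e := y.1 - x.1) (f := orient r s x) hA hxs (neg_ne_zero.2 hB) hxr hxy hC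
    (by simp only [orient]; ring)
  have e2 := gp (a := -orient x y r) (b := s.1 - y.1) (c := orient x y s) (d := r.1 - y.1)
    (e := -(y.1 - x.1)) (f := orient r s y) (neg_ne_zero.2 hA) hys hB hyr (neg_ne_zero.2 hxy) hD
    (by simp only [orient]; ring)
  have e3 := gp (a := orient x y r) (b := s.1 - r.1) (c := -orient r s x) (d := r.1 - y.1)
    (e := orient r s y) (f := r.1 - x.1) hA hrs (neg_ne_zero.2 hC) hyr hD hxr
    (by simp only [orient]; ring)
  have e4 := gp (a := -orient x y s) (b := s.1 - r.1) (c := orient r s x) (d := s.1 - y.1)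
    (e := -orient r s y) (f := s.1 - x.1) (neg_ne_zero.2 hB) hrs hC hys (neg_ne_zero.2 hD) hxs
    (by simp only [orient]; ring)
  have e5 := gp (a := y.1 - x.1) (b := s.1 - r.1) (c := -(r.1 - x.1)) (d := s.1 - y.1)
    (e := s.1 - x.1) (f := r.1 - y.1) hxy hrs (neg_ne_zero.2 hxr) hys hxs hyr (by ring)
  rw [bit_neg hB] at e1 e4
  rw [bit_neg hA, bit_neg hxy] at e2
  rw [bit_neg hC] at e3
  rw [bit_neg hD] at e4
  rw [bit_neg hxr] at e5
  have f1 := lin (a := y.1 - x.1) (b := r.1 - y.1) (c := r.1 - x.1) (by ring)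
  have f2 := lin (a := y.1 - x.1) (b := s.1 - y.1) (c := s.1 - x.1) (by ring)
  have f3 := lin (a := r.1 - x.1) (b := s.1 - r.1) (c := s.1 - x.1) (by ring)
  have f4 := lin (a := r.1 - y.1) (b := s.1 - r.1) (c := s.1 - y.1) (by ring)
  have key := bool_star _ _ _ _ _ _ _ _ _ _ e1 e2 e3 e4 e5 f1 f2 f3 f4
  unfold X V S
  rw [l_swap hxr, l_swap hxs, l_swap hyr, l_swap hys]
  unfold o l
  exact key

/-! ### Sums modulo 2 -/

/-- value in `ZMod 2` -/
def β (b : Bool) : ZMod 2 := if b then 1 else 0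

lemma β_xor (a b : Bool) : β (a ^^ b) = β a + β b := by
  cases a <;> cases b <;> decide

lemma two_zero (a : ZMod 2) : a + a = 0 := by
  revert a; decide

lemma tele (f : ℕ → ZMod 2) (n : ℕ) : ∑ k ∈ range n, (f k + f (k + 1)) = f 0 + f n := by
  induction n with
  | zero => simp [two_zero]
  | succ n ih =>
    rw [sum_range_succ, ih]
    have := two_zero (f n)
    linear_combination this

/-- crossing number of two polygonal paths -/
noncomputable def XX (n : ℕ) (f : ℕ → Pt) (m : ℕ) (g : ℕ → Pt) : ZMod 2 :=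
  ∑ k ∈ range n, ∑ j ∈ range m, β (X (f k) (f (k + 1)) (g j) (g (j + 1)))

/-- number of segments below a point -/
noncomputable def SS (n : ℕ) (f : ℕ → Pt) (r : Pt) : ZMod 2 :=
  ∑ k ∈ range n, β (S (f k) (f (k + 1)) r)

/-- number of segments above a point -/
noncomputable def VV (m : ℕ) (g : ℕ → Pt) (x : Pt) : ZMod 2 :=
  ∑ j ∈ range m, β (V x (g j) (g (j + 1)))

lemma X_symm (p q r s : Pt) : X p q r s = X r s p q := by
  unfold X; rw [Bool.and_comm]

lemma XX_symm (n : ℕ) (f : ℕ → Pt) (m : ℕ) (g : ℕ → Pt) : XX n f m g = XX m g n f := by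
  unfold XX
  rw [sum_comm]
  refine sum_congr rfl fun j _ => sum_congr rfl fun k _ => ?_
  rw [X_symm]

/-- two paths in general position -/
def GP (n : ℕ) (f : ℕ → Pt) (m : ℕ) (g : ℕ → Pt) : Prop :=
  ∀ k < n, ∀ j < m, Good (f k) (f (k + 1)) (g j) (g (j + 1))

lemma path_star {n : ℕ} {f : ℕ → Pt} {m : ℕ} {g : ℕ → Pt} (h : GP n f m g) :
    XX n f m g + (VV m g (f 0) + VV m g (f n)) = SS n f (g 0) + SS n f (g m) := by
  have h1 : ∀ k ∈ range n, ∀ j ∈ range m, β (X (f k) (f (k + 1)) (g j) (g (j + 1)))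
      + (β (V (f k) (g j) (g (j + 1))) + β (V (f (k + 1)) (g j) (g (j + 1))))
      = β (S (f k) (f (k + 1)) (g j)) + β (S (f k) (f (k + 1)) (g (j + 1))) := by
    intro k hk j hj
    rw [← β_xor, ← β_xor, ← β_xor, star (h k (mem_range.1 hk) j (mem_range.1 hj))]
  have h2 : ∑ k ∈ range n, ∑ j ∈ range m, (β (X (f k) (f (k + 1)) (g j) (g (j + 1)))
      + (β (V (f k) (g j) (g (j + 1))) + β (V (f (k + 1)) (g j) (g (j + 1)))))
      = ∑ k ∈ range n, ∑ j ∈ range m,
        (β (S (f k) (f (k + 1)) (g j)) + β (S (f k) (f (k + 1)) (g (j + 1)))) :=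
    sum_congr rfl fun k hk => sum_congr rfl fun j hj => h1 k hk j hj
  have h3 : ∑ k ∈ range n, ∑ j ∈ range m,
      (β (V (f k) (g j) (g (j + 1))) + β (V (f (k + 1)) (g j) (g (j + 1))))
      = VV m g (f 0) + VV m g (f n) := by
    rw [sum_comm]
    have : ∀ j ∈ range m, ∑ k ∈ range n,
        (β (V (f k) (g j) (g (j + 1))) + β (V (f (k + 1)) (g j) (g (j + 1))))
        = β (V (f 0) (g j) (g (j + 1))) + β (V (f n) (g j) (g (j + 1))) := fun j _ =>
      tele (fun k => β (V (f k) (g j) (g (j + 1)))) n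
    rw [sum_congr rfl this, sum_add_distrib]
    rfl
  have h4 : ∑ k ∈ range n, ∑ j ∈ range m,
        (β (S (f k) (f (k + 1)) (g j)) + β (S (f k) (f (k + 1)) (g (j + 1))))
      = SS n f (g 0) + SS n f (g m) := by
    have : ∀ k ∈ range n, ∑ j ∈ range m,
        (β (S (f k) (f (k + 1)) (g j)) + β (S (f k) (f (k + 1)) (g (j + 1))))
        = β (S (f k) (f (k + 1)) (g 0)) + β (S (f k) (f (k + 1)) (g m)) := fun k _ =>
      tele (fun j => β (S (f k) (f (k + 1)) (g j))) m
    rw [sum_congr rfl this, sum_add_distrib]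
    rfl
  rw [← h4, ← h2, ← h3]
  unfold XX
  rw [← sum_add_distrib]
  refine sum_congr rfl fun k _ => ?_
  rw [← sum_add_distrib]

/-- replacing a path by another one with the same end points -/
lemma replace_pair {n n' : ℕ} {f f' : ℕ → Pt} {m : ℕ} {g : ℕ → Pt} (h : GP n f m g)
    (h' : GP n' f' m g) (h0 : f 0 = f' 0) (hn : f n = f' n') :
    XX n f m g + XX n' f' m g = (SS n f (g 0) + SS n' f' (g 0)) + (SS n f (g m) + SS n' f' (g m)) := by
  have e1 := path_star h
  have e2 := path_star h'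
  rw [← h0, ← hn] at e2
  have t1 := two_zero (VV m g (f 0))
  have t2 := two_zero (VV m g (f n))
  linear_combination e1 + e2 - t1 - t2

/-- replacing a path does not change the crossing parity with a closed 4-cycle -/
lemma replace_cycle {n n' : ℕ} {f f' : ℕ → Pt} (h0 : f 0 = f' 0) (hn : f n = f' n')
    {m1 m2 m3 m4 : ℕ} {g1 g2 g3 g4 : ℕ → Pt}
    (G1 : GP n f m1 g1) (G1' : GP n' f' m1 g1) (G2 : GP n f m2 g2) (G2' : GP n' f' m2 g2)
    (G3 : GP n f m3 g3) (G3' : GP n' f' m3 g3) (G4 : GP n f m4 g4) (G4' : GP n' f' m4 g4)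
    (a1 : g1 0 = g2 0) (a2 : g3 0 = g4 0) (b1 : g1 m1 = g3 m3) (b2 : g2 m2 = g4 m4) :
    XX n f m1 g1 + XX n f m2 g2 + XX n f m3 g3 + XX n f m4 g4
      = XX n' f' m1 g1 + XX n' f' m2 g2 + XX n' f' m3 g3 + XX n' f' m4 g4 := by
  have e1 := replace_pair G1 G1' h0 hn
  have e2 := replace_pair G2 G2' h0 hn
  have e3 := replace_pair G3 G3' h0 hn
  have e4 := replace_pair G4 G4' h0 hn
  rw [a1] at e1
  rw [a2] at e3
  rw [b1] at e1
  rw [b2] at e2
  have t1 := two_zero (SS n f (g2 0) + SS n' f' (g2 0))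
  have t2 := two_zero (SS n f (g4 0) + SS n' f' (g4 0))
  have t3 := two_zero (SS n f (g3 m3) + SS n' f' (g3 m3))
  have t4 := two_zero (SS n f (g4 m4) + SS n' f' (g4 m4))
  have u1 := two_zero (XX n' f' m1 g1)
  have u2 := two_zero (XX n' f' m2 g2)
  have u3 := two_zero (XX n' f' m3 g3)
  have u4 := two_zero (XX n' f' m4 g4)
  linear_combination e1 + e2 + e3 + e4 + t1 + t2 + t3 + t4 - u1 - u2 - u3 - u4

/-! ### Four points -/

lemma o_rot (p q r : Pt) : o q r p = o p q r := by unfold o; rw [orient_rot]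

lemma o_swap {p q r : Pt} (h : orient p q r ≠ 0) : o q p r = !o p q r := by
  unfold o; rw [orient_swap, bit_neg h]

/-- the sum of the three crossing bits of four points -/
lemma four {a b c d : Pt} (h1 : orient b c d ≠ 0) (h2 : orient a c d ≠ 0) (h3 : orient a b d ≠ 0)
    (h4 : orient a b c ≠ 0) :
    β (X a c b d) + β (X a d b c) + β (X a b c d) =
      1 + β (o b c d) + β (o a c d) + β (o a b d) + β (o a b c) := by
  unfold X
  have r1 : o a c b = !o a b c := by
    have : o a c b = o c b a := (o_rot a c b).symm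
    rw [this]
    have h5 : orient b c a ≠ 0 := by rw [orient_rot]; exact h4
    rw [o_swap h5, o_rot]
  have r2 : o b d a = o a b d := o_rot a b d
  have r3 : o b d c = !o b c d := by
    have : o b d c = o d c b := (o_rot b d c).symm
    rw [this]
    have h5 : orient c d b ≠ 0 := by rw [orient_rot]; exact h1
    rw [o_swap h5, o_rot]
  have r4 : o a d b = !o a b d := by
    have : o a d b = o d b a := (o_rot a d b).symm
    rw [this]
    have h5 : orient b d a ≠ 0 := by rw [orient_rot]; exact h3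
    rw [o_swap h5, o_rot]
  have r5 : o a d c = !o a c d := by
    have : o a d c = o d c a := (o_rot a d c).symm
    rw [this]
    have h5 : orient c d a ≠ 0 := by rw [orient_rot]; exact h2
    rw [o_swap h5, o_rot]
  have r6 : o b c a = o a b c := o_rot a b c
  have r7 : o c d a = o a c d := o_rot a c d
  have r8 : o c d b = o b c d := o_rot b c d
  rw [r1, r2, r3, r4, r5, r6, r7, r8]
  generalize o a b c = D
  generalize o a b d = C
  generalize o a c d = B
  generalize o b c d = A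
  revert A B C D
  decide

lemma X_swap {p q r s : Pt} (h1 : orient p q r ≠ 0) (h2 : orient p q s ≠ 0) :
    X q p r s = X p q r s := by
  unfold X
  rw [o_swap h1, o_swap h2]
  generalize o p q r = a
  generalize o p q s = b
  generalize o r s p = c
  generalize o r s q = d
  revert a b c d
  decide

/-! ### Labelled points -/

/-- the first `M` points are in general position -/
structure GPos (R : ℕ → Pt) (M : ℕ) : Prop where
  ab : ∀ i < M, ∀ j < M, i ≠ j → (R j).1 - (R i).1 ≠ 0
  tri : ∀ i < M, ∀ j < M, ∀ k < M, i ≠ j → i ≠ k → j ≠ k → orient (R i) (R j) (R k) ≠ 0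

lemma GPos.good {R : ℕ → Pt} {M : ℕ} (h : GPos R M) {x y r s : ℕ} (hx : x < M) (hy : y < M)
    (hr : r < M) (hs : s < M) (xy : x ≠ y) (xr : x ≠ r) (xs : x ≠ s) (yr : y ≠ r) (ys : y ≠ s)
    (rs : r ≠ s) : Good (R x) (R y) (R r) (R s) :=
  ⟨h.tri x hx y hy r hr xy xr yr, h.tri x hx y hy s hs xy xs ys,
    h.tri r hr s hs x hx rs xr.symm xs.symm, h.tri r hr s hs y hy rs yr.symm ys.symm,
    h.ab x hx y hy xy, h.ab x hx r hr xr, h.ab x hx s hs xs, h.ab y hy r hr yr,
    h.ab y hy s hs ys, h.ab r hr s hs rs⟩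

/-- crossing of two straight edges `a i b j`, `a i' b j'` -/
noncomputable def E (R : ℕ → Pt) (i j i' j' : ℕ) : ZMod 2 := β (X (R i) (R j) (R i') (R j'))

/-- parity of the straight drawing of `K_{3,3}` -/
lemma straight {R : ℕ → Pt} (h : GPos R 6) :
    (E R 0 3 1 4 + E R 0 4 1 3) + (E R 0 3 1 5 + E R 0 5 1 3) + (E R 0 4 1 5 + E R 0 5 1 4)
    + ((E R 0 3 2 4 + E R 0 4 2 3) + (E R 0 3 2 5 + E R 0 5 2 3) + (E R 0 4 2 5 + E R 0 5 2 4))
    + ((E R 1 3 2 4 + E R 1 4 2 3) + (E R 1 3 2 5 + E R 1 5 2 3) + (E R 1 4 2 5 + E R 1 5 2 4))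
    = 1 := by
  have F : ∀ a b c d : ℕ, a < b → b < c → c < d → d < 6 →
      E R a c b d + E R a d b c + E R a b c d =
      1 + β (o (R b) (R c) (R d)) + β (o (R a) (R c) (R d)) + β (o (R a) (R b) (R d))
        + β (o (R a) (R b) (R c)) := by
    intro a b c d h1 h2 h3 h4
    exact four (h.tri _ (by omega) _ (by omega) _ (by omega) (by omega) (by omega) (by omega))
      (h.tri _ (by omega) _ (by omega) _ (by omega) (by omega) (by omega) (by omega))
      (h.tri _ (by omega) _ (by omega) _ (by omega) (by omega) (by omega) (by omega))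
      (h.tri _ (by omega) _ (by omega) _ (by omega) (by omega) (by omega) (by omega))
  -- the two triangles cross evenly
  set f : ℕ → ℕ := fun k => if k = 3 then 0 else k with hf
  set g : ℕ → ℕ := fun k => if k = 3 then 3 else 3 + k with hg
  have hGP : GP 3 (fun k => R (f k)) 3 (fun k => R (g k)) := by
    intro k hk j hj
    have hfk : f k < 3 ∧ f (k + 1) < 3 ∧ f k ≠ f (k + 1) := by
      simp only [hf]; split_ifs <;> omega
    have hgj : (3 ≤ g j ∧ g j < 6) ∧ (3 ≤ g (j + 1) ∧ g (j + 1) < 6) ∧ g j ≠ g (j + 1) := by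
      simp only [hg]; split_ifs <;> omega
    exact h.good (by omega) (by omega) (by omega) (by omega) (by omega) (by omega) (by omega)
      (by omega) (by omega) (by omega)
  have hps := path_star hGP
  have hf0 : f 0 = 0 := rfl
  have hf3 : f 3 = 0 := rfl
  have hg0 : g 0 = 3 := rfl
  have hg3 : g 3 = 3 := rfl
  simp only [hf0, hf3, hg0, hg3, two_zero, add_zero] at hps
  have hX : XX 3 (fun k => R (f k)) 3 (fun k => R (g k)) =
      (E R 0 1 3 4 + E R 0 1 4 5 + E R 0 1 5 3) + (E R 1 2 3 4 + E R 1 2 4 5 + E R 1 2 5 3)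
        + (E R 2 0 3 4 + E R 2 0 4 5 + E R 2 0 5 3) := by
    unfold XX
    simp only [sum_range_succ, sum_range_zero, zero_add]
    rfl
  have sw1 : ∀ i j k l : ℕ, i < 6 → j < 6 → k < 6 → l < 6 → i ≠ j → i ≠ k → i ≠ l → j ≠ k → j ≠ l →
      E R j i k l = E R i j k l := by
    intro i j k l hi hj hk hl h1 h2 h3 h4 h5
    unfold E
    rw [X_swap (h.tri _ hi _ hj _ hk h1 h2 h4) (h.tri _ hi _ hj _ hl h1 h3 h5)]
  have sw2 : ∀ i j k l : ℕ, E R i j k l = E R k l i j := by
    intro i j k l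
    unfold E
    rw [X_symm]
  have sw3 : ∀ i j k l : ℕ, i < 6 → j < 6 → k < 6 → l < 6 → k ≠ l → k ≠ i → k ≠ j → l ≠ i → l ≠ j →
      E R i j l k = E R i j k l := by
    intro i j k l hi hj hk hl h1 h2 h3 h4 h5
    rw [sw2 i j l k, sw1 k l i j hk hl hi hj h1 h2 h3 h4 h5, sw2 k l i j]
  rw [hX, sw3 0 1 3 5 (by omega) (by omega) (by omega) (by omega) (by omega) (by omega) (by omega)
      (by omega) (by omega),
    sw3 1 2 3 5 (by omega) (by omega) (by omega) (by omega) (by omega) (by omega) (by omega)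
      (by omega) (by omega),
    sw3 2 0 3 5 (by omega) (by omega) (by omega) (by omega) (by omega) (by omega) (by omega)
      (by omega) (by omega),
    sw1 0 2 3 4 (by omega) (by omega) (by omega) (by omega) (by omega) (by omega) (by omega)
      (by omega) (by omega),
    sw1 0 2 4 5 (by omega) (by omega) (by omega) (by omega) (by omega) (by omega) (by omega)
      (by omega) (by omega),
    sw1 0 2 3 5 (by omega) (by omega) (by omega) (by omega) (by omega) (by omega) (by omega)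
      (by omega) (by omega)] at hps
  have F1 := F 0 1 3 4 (by omega) (by omega) (by omega) (by omega)
  have F2 := F 0 1 3 5 (by omega) (by omega) (by omega) (by omega)
  have F3 := F 0 1 4 5 (by omega) (by omega) (by omega) (by omega)
  have F4 := F 0 2 3 4 (by omega) (by omega) (by omega) (by omega)
  have F5 := F 0 2 3 5 (by omega) (by omega) (by omega) (by omega)
  have F6 := F 0 2 4 5 (by omega) (by omega) (by omega) (by omega)
  have F7 := F 1 2 3 4 (by omega) (by omega) (by omega) (by omega)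
  have F8 := F 1 2 3 5 (by omega) (by omega) (by omega) (by omega)
  have F9 := F 1 2 4 5 (by omega) (by omega) (by omega) (by omega)
  linear_combination (norm := skip) F1 + F2 + F3 + F4 + F5 + F6 + F7 + F8 + F9 - hps
  ring_nf
  reduce_mod_char

/-! ### Labels of the vertices of the nine paths -/

/-- label of the `k`-th vertex of the path `i j` with `n` segments -/
def lab (n : ℕ) (i j k : ℕ) : ℕ := if k = 0 then i else if k = n then 3 + j else 6 + (9 * k + 3 * i + j)

/-- number of segments, straight version if `c` -/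
def nv (c : Bool) (n : ℕ) : ℕ := if c then 1 else n

lemma nv_pos (c : Bool) {n : ℕ} (hn : 1 ≤ n) : 1 ≤ nv c n := by
  unfold nv; split_ifs <;> omega

/-- crossing number of the paths `i j` and `i' j'` -/
noncomputable def Y (R : ℕ → Pt) (n : ℕ → ℕ → ℕ) (c : Bool) (i j : ℕ) (c' : Bool) (i' j' : ℕ) : ZMod 2 :=
  XX (nv c (n i j)) (fun k => R (lab (nv c (n i j)) i j k)) (nv c' (n i' j'))
    (fun k => R (lab (nv c' (n i' j')) i' j' k))

lemma Y_symm (R : ℕ → Pt) (n : ℕ → ℕ → ℕ) (c : Bool) (i j : ℕ) (c' : Bool) (i' j' : ℕ) :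
    Y R n c i j c' i' j' = Y R n c' i' j' c i j := by
  unfold Y; rw [XX_symm]

lemma Y_true (R : ℕ → Pt) (n : ℕ → ℕ → ℕ) (i j i' j' : ℕ) :
    Y R n true i j true i' j' = E R i (3 + j) i' (3 + j') := by
  unfold Y XX nv lab E
  simp

lemma lab_lt {n N i j k : ℕ} (hn : n ≤ N) (hi : i < 3) (hj : j < 3) (hk : k ≤ n) :
    lab n i j k < 6 + 9 * (N + 1) := by
  unfold lab; split_ifs <;> omega

lemma lab_ne {n n' i j i' j' k k' : ℕ} (hi : i < 3) (hj : j < 3) (hi' : i' < 3) (hj' : j' < 3)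
    (hii : i ≠ i') (hjj : j ≠ j') :
    lab n i j k ≠ lab n' i' j' k' := by
  unfold lab; split_ifs <;> omega

lemma lab_ne' {n i j k : ℕ} (hi : i < 3) (hj : j < 3) (hk : k < n) :
    lab n i j k ≠ lab n i j (k + 1) := by
  unfold lab
  rw [if_neg (Nat.succ_ne_zero k)]
  split_ifs <;> omega

lemma GPos.GP {R : ℕ → Pt} {N : ℕ} (h : GPos R (6 + 9 * (N + 1))) {n n' i j i' j' : ℕ}
    (hn : n ≤ N) (hn' : n' ≤ N) (hi : i < 3) (hj : j < 3) (hi' : i' < 3) (hj' : j' < 3)
    (hii : i ≠ i') (hjj : j ≠ j') :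
    GP n (fun k => R (lab n i j k)) n' (fun k => R (lab n' i' j' k)) := by
  intro k hk k' hk'
  exact h.good (lab_lt hn hi hj hk.le) (lab_lt hn hi hj hk) (lab_lt hn' hi' hj' hk'.le)
    (lab_lt hn' hi' hj' hk') (lab_ne' hi hj hk) (lab_ne hi hj hi' hj' hii hjj)
    (lab_ne hi hj hi' hj' hii hjj) (lab_ne hi hj hi' hj' hii hjj) (lab_ne hi hj hi' hj' hii hjj)
    (lab_ne' hi' hj' hk')

lemma nv_le (c : Bool) {n N : ℕ} (hn : 1 ≤ n) (hN : n ≤ N) : nv c n ≤ N := by
  unfold nv; split_ifs <;> omega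

lemma step {R : ℕ → Pt} {N : ℕ} (h : GPos R (6 + 9 * (N + 1))) {n : ℕ → ℕ → ℕ}
    (hn : ∀ i j, 1 ≤ n i j) (hN : ∀ i j, n i j ≤ N) (i i1 i2 j j1 j2 : ℕ)
    (hi : i < 3) (hi1 : i1 < 3) (hi2 : i2 < 3) (hj : j < 3) (hj1 : j1 < 3) (hj2 : j2 < 3)
    (h1 : i ≠ i1) (h2 : i ≠ i2) (h3 : j ≠ j1) (h4 : j ≠ j2) (c1 c2 c3 c4 : Bool) :
    Y R n false i j c1 i1 j1 + Y R n false i j c2 i1 j2 + Y R n false i j c3 i2 j1
      + Y R n false i j c4 i2 j2
    = Y R n true i j c1 i1 j1 + Y R n true i j c2 i1 j2 + Y R n true i j c3 i2 j1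
      + Y R n true i j c4 i2 j2 := by
  unfold Y
  have z : ∀ (c : Bool) (i j : ℕ), lab (nv c (n i j)) i j 0 = i := fun c i j => by simp [lab]
  have w : ∀ (c : Bool) (i j : ℕ), lab (nv c (n i j)) i j (nv c (n i j)) = 3 + j := fun c i j => by
    have := nv_pos c (hn i j)
    unfold lab
    rw [if_neg (by omega), if_pos rfl]
  have G : ∀ (c c' : Bool) (i' j' : ℕ), i' < 3 → j' < 3 → i ≠ i' → j ≠ j' →
      KK.GP (nv c (n i j)) (fun k => R (lab (nv c (n i j)) i j k)) (nv c' (n i' j'))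
        (fun k => R (lab (nv c' (n i' j')) i' j' k)) := fun c c' i' j' hi' hj' hii hjj =>
    h.GP (nv_le c (hn i j) (hN i j)) (nv_le c' (hn i' j') (hN i' j')) hi hj hi' hj' hii hjj
  apply replace_cycle
  · simp only [z]
  · simp only [w]
  · exact G _ _ _ _ hi1 hj1 h1 h3
  · exact G _ _ _ _ hi1 hj1 h1 h3
  · exact G _ _ _ _ hi1 hj2 h1 h4
  · exact G _ _ _ _ hi1 hj2 h1 h4
  · exact G _ _ _ _ hi2 hj1 h2 h3
  · exact G _ _ _ _ hi2 hj1 h2 h3
  · exact G _ _ _ _ hi2 hj2 h2 h4
  · exact G _ _ _ _ hi2 hj2 h2 h4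
  · simp only [z]
  · simp only [z]
  · simp only [w]
  · simp only [w]

/-- total crossing parity of the drawing, `c i j` telling which edges are straight -/
noncomputable def T (R : ℕ → Pt) (n : ℕ → ℕ → ℕ) (c : ℕ → ℕ → Bool) : ZMod 2 :=
    (Y R n (c 0 0) 0 0 (c 1 1) 1 1 + Y R n (c 0 1) 0 1 (c 1 0) 1 0)
    + (Y R n (c 0 0) 0 0 (c 1 2) 1 2 + Y R n (c 0 2) 0 2 (c 1 0) 1 0)
    + (Y R n (c 0 1) 0 1 (c 1 2) 1 2 + Y R n (c 0 2) 0 2 (c 1 1) 1 1)
    + ((Y R n (c 0 0) 0 0 (c 2 1) 2 1 + Y R n (c 0 1) 0 1 (c 2 0) 2 0)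
    + (Y R n (c 0 0) 0 0 (c 2 2) 2 2 + Y R n (c 0 2) 0 2 (c 2 0) 2 0)
    + (Y R n (c 0 1) 0 1 (c 2 2) 2 2 + Y R n (c 0 2) 0 2 (c 2 1) 2 1))
    + ((Y R n (c 1 0) 1 0 (c 2 1) 2 1 + Y R n (c 1 1) 1 1 (c 2 0) 2 0)
    + (Y R n (c 1 0) 1 0 (c 2 2) 2 2 + Y R n (c 1 2) 1 2 (c 2 0) 2 0)
    + (Y R n (c 1 1) 1 1 (c 2 2) 2 2 + Y R n (c 1 2) 1 2 (c 2 1) 2 1))

lemma T_step {R : ℕ → Pt} {N : ℕ} (h : GPos R (6 + 9 * (N + 1))) {n : ℕ → ℕ → ℕ}
    (hn : ∀ i j, 1 ≤ n i j) (hN : ∀ i j, n i j ≤ N) :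
    T R n (fun _ _ => false) = T R n (fun _ _ => true) := by
  have S : ∀ (i i1 i2 j j1 j2 : ℕ) (c1 c2 c3 c4 : Bool), i < 3 ∧ i1 < 3 ∧ i2 < 3 ∧ j < 3 ∧ j1 < 3 ∧
      j2 < 3 ∧ i ≠ i1 ∧ i ≠ i2 ∧ j ≠ j1 ∧ j ≠ j2 → _ := fun i i1 i2 j j1 j2 c1 c2 c3 c4 H =>
    step h hn hN i i1 i2 j j1 j2 H.1 H.2.1 H.2.2.1 H.2.2.2.1 H.2.2.2.2.1 H.2.2.2.2.2.1
      H.2.2.2.2.2.2.1 H.2.2.2.2.2.2.2.1 H.2.2.2.2.2.2.2.2.1 H.2.2.2.2.2.2.2.2.2 c1 c2 c3 c4
  -- first row
  have s00 := S 0 1 2 0 1 2 false false false false (by omega)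
  have s01 := S 0 1 2 1 0 2 false false false false (by omega)
  have s02 := S 0 1 2 2 0 1 false false false false (by omega)
  -- second row
  have s10 := S 1 0 2 0 1 2 true true false false (by omega)
  have s11 := S 1 0 2 1 0 2 true true false false (by omega)
  have s12 := S 1 0 2 2 0 1 true true false false (by omega)
  -- third row
  have s20 := S 2 0 1 0 1 2 true true true true (by omega)
  have s21 := S 2 0 1 1 0 2 true true true true (by omega)
  have s22 := S 2 0 1 2 0 1 true true true true (by omega)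
  rw [Y_symm R n false 1 0 true 0 1, Y_symm R n false 1 0 true 0 2,
    Y_symm R n true 1 0 true 0 1, Y_symm R n true 1 0 true 0 2] at s10
  rw [Y_symm R n false 1 1 true 0 0, Y_symm R n false 1 1 true 0 2,
    Y_symm R n true 1 1 true 0 0, Y_symm R n true 1 1 true 0 2] at s11
  rw [Y_symm R n false 1 2 true 0 0, Y_symm R n false 1 2 true 0 1,
    Y_symm R n true 1 2 true 0 0, Y_symm R n true 1 2 true 0 1] at s12
  rw [Y_symm R n false 2 0 true 0 1, Y_symm R n false 2 0 true 0 2,
    Y_symm R n true 2 0 true 0 1, Y_symm R n true 2 0 true 0 2,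
    Y_symm R n false 2 0 true 1 1, Y_symm R n false 2 0 true 1 2,
    Y_symm R n true 2 0 true 1 1, Y_symm R n true 2 0 true 1 2] at s20
  rw [Y_symm R n false 2 1 true 0 0, Y_symm R n false 2 1 true 0 2,
    Y_symm R n true 2 1 true 0 0, Y_symm R n true 2 1 true 0 2,
    Y_symm R n false 2 1 true 1 0, Y_symm R n false 2 1 true 1 2,
    Y_symm R n true 2 1 true 1 0, Y_symm R n true 2 1 true 1 2] at s21
  rw [Y_symm R n false 2 2 true 0 0, Y_symm R n false 2 2 true 0 1,
    Y_symm R n true 2 2 true 0 0, Y_symm R n true 2 2 true 0 1,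
    Y_symm R n false 2 2 true 1 0, Y_symm R n false 2 2 true 1 1,
    Y_symm R n true 2 2 true 1 0, Y_symm R n true 2 2 true 1 1] at s22
  unfold T
  linear_combination s00 + s01 + s02 + s10 + s11 + s12 + s20 + s21 + s22

/-- in general position two independent paths cross -/
theorem cross {R : ℕ → Pt} {N : ℕ} (h : GPos R (6 + 9 * (N + 1))) {n : ℕ → ℕ → ℕ}
    (hn : ∀ i j, 1 ≤ n i j) (hN : ∀ i j, n i j ≤ N)
    (H : ∀ i i' j j', i < 3 → i' < 3 → j < 3 → j' < 3 → i ≠ i' → j ≠ j' →
      ∀ k < n i j, ∀ k' < n i' j',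
        X (R (lab (n i j) i j k)) (R (lab (n i j) i j (k + 1))) (R (lab (n i' j') i' j' k'))
          (R (lab (n i' j') i' j' (k' + 1))) = false) : False := by
  have Z : ∀ i i' j j', i < 3 → i' < 3 → j < 3 → j' < 3 → i ≠ i' → j ≠ j' →
      Y R n false i j false i' j' = 0 := by
    intro i i' j j' hi hi' hj hj' hii hjj
    unfold Y XX
    refine Finset.sum_eq_zero fun k hk => Finset.sum_eq_zero fun k' hk' => ?_
    have := H i i' j j' hi hi' hj hj' hii hjj k (by simpa [nv] using hk) k' (by simpa [nv] using hk')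
    simp only [nv, Bool.false_eq_true, if_false]
    rw [this]
    rfl
  have hT := T_step h hn hN
  have h6 : GPos R 6 :=
    ⟨fun i hi j hj => h.ab i (by omega) j (by omega),
      fun i hi j hj k hk => h.tri i (by omega) j (by omega) k (by omega)⟩
  have hs := straight h6
  have e0 : T R n (fun _ _ => false) = 0 := by
    unfold T
    simp only [Z 0 1 0 1 (by omega) (by omega) (by omega) (by omega) (by omega) (by omega),
      Z 0 1 1 0 (by omega) (by omega) (by omega) (by omega) (by omega) (by omega),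
      Z 0 1 0 2 (by omega) (by omega) (by omega) (by omega) (by omega) (by omega),
      Z 0 1 2 0 (by omega) (by omega) (by omega) (by omega) (by omega) (by omega),
      Z 0 1 1 2 (by omega) (by omega) (by omega) (by omega) (by omega) (by omega),
      Z 0 1 2 1 (by omega) (by omega) (by omega) (by omega) (by omega) (by omega),
      Z 0 2 0 1 (by omega) (by omega) (by omega) (by omega) (by omega) (by omega),
      Z 0 2 1 0 (by omega) (by omega) (by omega) (by omega) (by omega) (by omega),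
      Z 0 2 0 2 (by omega) (by omega) (by omega) (by omega) (by omega) (by omega),
      Z 0 2 2 0 (by omega) (by omega) (by omega) (by omega) (by omega) (by omega),
      Z 0 2 1 2 (by omega) (by omega) (by omega) (by omega) (by omega) (by omega),
      Z 0 2 2 1 (by omega) (by omega) (by omega) (by omega) (by omega) (by omega),
      Z 1 2 0 1 (by omega) (by omega) (by omega) (by omega) (by omega) (by omega),
      Z 1 2 1 0 (by omega) (by omega) (by omega) (by omega) (by omega) (by omega),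
      Z 1 2 0 2 (by omega) (by omega) (by omega) (by omega) (by omega) (by omega),
      Z 1 2 2 0 (by omega) (by omega) (by omega) (by omega) (by omega) (by omega),
      Z 1 2 1 2 (by omega) (by omega) (by omega) (by omega) (by omega) (by omega),
      Z 1 2 2 1 (by omega) (by omega) (by omega) (by omega) (by omega) (by omega), add_zero]
  have e1 : T R n (fun _ _ => true) = 1 := by
    unfold T
    simp only [Y_true]
    exact hs
  rw [e0, e1] at hT
  exact absurd hT (by decide)

/-! ### Crossing bits and intersections -/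

lemma X_true {p q r s : Pt} (hpr : orient p q r ≠ 0) (hps : orient p q s ≠ 0)
    (hrp : orient r s p ≠ 0) (hrq : orient r s q ≠ 0) (h : X p q r s = true) :
    (segment ℝ p q ∩ segment ℝ r s).Nonempty := by
  unfold X o at h
  rw [Bool.and_eq_true] at h
  obtain ⟨h1, h2⟩ := h
  have k1 : orient p q r * orient p q s < 0 := by
    refine lt_of_le_of_ne (not_lt.1 fun h' => ?_) (mul_ne_zero hpr hps)
    rw [mul_pos_iff_bit hpr hps] at h'
    rw [h'] at h1
    simp at h1
  have k2 : orient r s p * orient r s q < 0 := by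
    refine lt_of_le_of_ne (not_lt.1 fun h' => ?_) (mul_ne_zero hrp hrq)
    rw [mul_pos_iff_bit hrp hrq] at h'
    rw [h'] at h2
    simp at h2
  have key : ∀ a b : ℝ, a * b < 0 → a - b ≠ 0 ∧ 0 ≤ a / (a - b) ∧ 0 ≤ 1 - a / (a - b) := by
    intro a b hab
    rcases mul_neg_iff.1 hab with ⟨ha, hb⟩ | ⟨ha, hb⟩
    · have hd : 0 < a - b := by linarith
      refine ⟨hd.ne', by positivity, ?_⟩
      rw [sub_nonneg, div_le_one hd]
      linarith
    · have hd : a - b < 0 := by linarith
      refine ⟨hd.ne, div_nonneg_of_nonpos ha.le hd.le, ?_⟩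
      rw [sub_nonneg, div_le_one_of_neg hd]
      linarith
  obtain ⟨d1, u0, u1⟩ := key _ _ k2
  obtain ⟨d2, v0, v1⟩ := key _ _ k1
  refine ⟨(1 - orient r s p / (orient r s p - orient r s q)) • p
    + (orient r s p / (orient r s p - orient r s q)) • q, ⟨_, _, u1, u0, by ring, rfl⟩,
    ⟨_, _, v1, v0, by ring, ?_⟩⟩
  have hdd : orient r s p - orient r s q = -(orient p q r - orient p q s) := by
    simp only [orient]; ring
  rw [hdd]
  ext
  · simp only [Prod.fst_add, Prod.smul_fst, smul_eq_mul]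
    field_simp
    simp only [orient]
    ring
  · simp only [Prod.snd_add, Prod.smul_snd, smul_eq_mul]
    field_simp
    simp only [orient]
    ring

/-! ### Perturbation -/

/-- the perturbed points -/
noncomputable def R (base : ℕ → Pt) (t : ℝ) (m : ℕ) : Pt :=
  ((base m).1 + t * m, (base m).2 + t * (m : ℝ) ^ 2)

open Filter Topology in
lemma ev_ne {A B C : ℝ} (h : B ≠ 0 ∨ C ≠ 0) : ∀ᶠ t : ℝ in 𝓝[>] 0, A + B * t + C * t ^ 2 ≠ 0 := by
  have hpos : ∀ᶠ t : ℝ in 𝓝[>] 0, 0 < t := eventually_mem_nhdsWithin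
  have hc : ∀ A' B' C' : ℝ, A' ≠ 0 → ∀ᶠ t : ℝ in 𝓝[>] 0, A' + B' * t + C' * t ^ 2 ≠ 0 := by
    intro A' B' C' hA
    have : Tendsto (fun t : ℝ => A' + B' * t + C' * t ^ 2) (𝓝[>] 0) (𝓝 (A' + B' * 0 + C' * 0 ^ 2)) :=
      (Continuous.tendsto (by fun_prop) 0).mono_left nhdsWithin_le_nhds
    exact this.eventually_ne (by simpa using hA)
  by_cases hA : A = 0
  · by_cases hB : B = 0
    · have hC : C ≠ 0 := by simpa [hB] using h
      filter_upwards [hpos] with t ht
      rw [hA, hB]
      simp only [zero_add, zero_mul]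
      positivity
    · filter_upwards [hpos, hc B C 0 hB] with t ht h2
      rw [hA]
      have : 0 + B * t + C * t ^ 2 = t * (B + C * t + 0 * t ^ 2) := by ring
      rw [this]
      exact mul_ne_zero ht.ne' h2
  · exact hc A B C hA

open Filter Topology in
lemma ev_GPos (base : ℕ → Pt) (M : ℕ) : ∀ᶠ t : ℝ in 𝓝[>] 0, GPos (R base t) M := by
  have h1 : ∀ᶠ t : ℝ in 𝓝[>] 0, ∀ i ∈ Finset.range M, ∀ j ∈ Finset.range M, i ≠ j →
      (R base t j).1 - (R base t i).1 ≠ 0 := by
    rw [Filter.eventually_all_finset]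
    intro i _
    rw [Filter.eventually_all_finset]
    intro j _
    rw [Filter.eventually_imp_distrib_left]
    intro hij
    have hB : (j : ℝ) - i ≠ 0 := sub_ne_zero.2 (by exact_mod_cast hij.symm)
    filter_upwards [ev_ne (A := (base j).1 - (base i).1) (C := 0) (Or.inl hB)] with t ht
    have : (R base t j).1 - (R base t i).1 =
        (base j).1 - (base i).1 + ((j : ℝ) - i) * t + 0 * t ^ 2 := by
      simp only [R]; ring
    rw [this]
    exact ht
  have h2 : ∀ᶠ t : ℝ in 𝓝[>] 0, ∀ i ∈ Finset.range M, ∀ j ∈ Finset.range M,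
      ∀ k ∈ Finset.range M, i ≠ j ∧ i ≠ k ∧ j ≠ k →
      orient (R base t i) (R base t j) (R base t k) ≠ 0 := by
    rw [Filter.eventually_all_finset]
    intro i _
    rw [Filter.eventually_all_finset]
    intro j _
    rw [Filter.eventually_all_finset]
    intro k _
    rw [Filter.eventually_imp_distrib_left]
    rintro ⟨hij, hik, hjk⟩
    have e1 : (j : ℝ) - i ≠ 0 := sub_ne_zero.2 (by exact_mod_cast hij.symm)
    have e2 : (k : ℝ) - i ≠ 0 := sub_ne_zero.2 (by exact_mod_cast hik.symm)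
    have e3 : (k : ℝ) - j ≠ 0 := sub_ne_zero.2 (by exact_mod_cast hjk.symm)
    have hC : ((j : ℝ) - i) * (k - i) * (k - j) ≠ 0 := mul_ne_zero (mul_ne_zero e1 e2) e3
    filter_upwards [ev_ne (A := orient (base i) (base j) (base k))
      (B := ((j : ℝ) - i) * ((base k).2 - (base i).2) + ((base j).1 - (base i).1) * ((k : ℝ) ^ 2 - i ^ 2)
        - (((j : ℝ) ^ 2 - i ^ 2) * ((base k).1 - (base i).1) + ((base j).2 - (base i).2) * (k - i)))
      (Or.inr hC)] with t ht
    have : orient (R base t i) (R base t j) (R base t k) = orient (base i) (base j) (base k) +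
      (((j : ℝ) - i) * ((base k).2 - (base i).2) + ((base j).1 - (base i).1) * ((k : ℝ) ^ 2 - i ^ 2)
        - (((j : ℝ) ^ 2 - i ^ 2) * ((base k).1 - (base i).1) + ((base j).2 - (base i).2) * (k - i))) * t
      + ((j : ℝ) - i) * (k - i) * (k - j) * t ^ 2 := by
      simp only [R, orient]; ring
    rw [this]
    exact ht
  filter_upwards [h1, h2] with t k1 k2
  exact ⟨fun i hi j hj => k1 i (Finset.mem_range.2 hi) j (Finset.mem_range.2 hj),
    fun i hi j hj k hk a b c => k2 i (Finset.mem_range.2 hi) j (Finset.mem_range.2 hj) k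
      (Finset.mem_range.2 hk) ⟨a, b, c⟩⟩

open Filter Topology in
lemma tendsto_R (base : ℕ → Pt) (m : ℕ) : Tendsto (fun t => R base t m) (𝓝[>] 0) (𝓝 (base m)) := by
  have hc : Continuous (fun t => R base t m) := by unfold R; fun_prop
  have := hc.tendsto 0
  have h0 : R base 0 m = base m := by ext <;> simp [R]
  rw [h0] at this
  exact this.mono_left nhdsWithin_le_nhds

open Filter Topology in
/-- disjoint segments stay disjoint -/
lemma ev_disj (base : ℕ → Pt) (p q r s : ℕ)
    (h : ¬ (segment ℝ (base p) (base q) ∩ segment ℝ (base r) (base s)).Nonempty) :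
    ∀ᶠ t : ℝ in 𝓝[>] 0,
      ¬ (segment ℝ (R base t p) (R base t q) ∩ segment ℝ (R base t r) (R base t s)).Nonempty := by
  have hd : Disjoint (segment ℝ (base p) (base q)) (segment ℝ (base r) (base s)) := by
    rw [Set.disjoint_iff_inter_eq_empty]
    exact Set.not_nonempty_iff_eq_empty.1 h
  have hcpt : ∀ x y : Pt, IsCompact (segment ℝ x y) := fun x y => by
    rw [← convexHull_pair]; exact (Set.toFinite _).isCompact_convexHull (𝕜 := ℝ)
  obtain ⟨f, u, v, h1, huv, h2⟩ := geometric_hahn_banach_compact_closed (convex_segment _ _)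
    (hcpt _ _) (convex_segment _ _) (hcpt _ _).isClosed hd
  have hf : ∀ m, Tendsto (fun t => f (R base t m)) (𝓝[>] 0) (𝓝 (f (base m))) := fun m =>
    (f.continuous.tendsto _).comp (tendsto_R base m)
  filter_upwards [(hf p).eventually_lt_const (h1 _ (left_mem_segment ℝ _ _)),
    (hf q).eventually_lt_const (h1 _ (right_mem_segment ℝ _ _)),
    (hf r).eventually_const_lt (h2 _ (left_mem_segment ℝ _ _)),
    (hf s).eventually_const_lt (h2 _ (right_mem_segment ℝ _ _))] with t k1 k2 k3 k4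
  rintro ⟨z, hz1, hz2⟩
  have c1 : Convex ℝ {x : Pt | f x < u} := by
    have := (convex_Iio u).linear_preimage (𝕜 := ℝ) f.toLinearMap
    exact this
  have c2 : Convex ℝ {x : Pt | v < f x} := by
    have := (convex_Ioi v).linear_preimage (𝕜 := ℝ) f.toLinearMap
    exact this
  have m1 : z ∈ {x : Pt | f x < u} := c1.segment_subset (by exact k1) (by exact k2) hz1
  have m2 : z ∈ {x : Pt | v < f x} := c2.segment_subset (by exact k3) (by exact k4) hz2
  have m1' : f z < u := m1
  have m2' : v < f z := m2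
  linarith

end KK

open KK in
/-- `K_{3,3}` has no polygonal drawing in which independent edges are disjoint. -/
theorem k33 (a b : Fin 3 → Pt) (L : Fin 3 → Fin 3 → List Pt)
    (hlen : ∀ i j, 2 ≤ (L i j).length)
    (hh : ∀ i j, (L i j).head? = some (a i)) (hl : ∀ i j, (L i j).getLast? = some (b j)) :
    ∃ i i' j j', i ≠ i' ∧ j ≠ j' ∧ Meets (L i j) (L i' j') := by
  by_contra hcon
  push Not at hcon
  -- indices in ℕ
  set ι : ℕ → Fin 3 := fun i => ⟨i % 3, Nat.mod_lt _ (by norm_num)⟩ with hι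
  have hιne : ∀ i i' : ℕ, i < 3 → i' < 3 → i ≠ i' → ι i ≠ ι i' := by
    intro i i' hi hi' hii h
    apply hii
    have := congrArg Fin.val h
    simp only [hι] at this
    rwa [Nat.mod_eq_of_lt hi, Nat.mod_eq_of_lt hi'] at this
  set n : ℕ → ℕ → ℕ := fun i j => (L (ι i) (ι j)).length - 1 with hn
  have hn1 : ∀ i j, 1 ≤ n i j := fun i j => by
    have := hlen (ι i) (ι j)
    simp only [hn]; omega
  obtain ⟨N, hN⟩ : ∃ N, ∀ i j, n i j ≤ N := by
    refine ⟨∑ i : Fin 3, ∑ j : Fin 3, (L i j).length, fun i j => ?_⟩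
    have h1 : (L (ι i) (ι j)).length ≤ ∑ j : Fin 3, (L (ι i) j).length :=
      Finset.single_le_sum (f := fun j => (L (ι i) j).length) (fun _ _ => Nat.zero_le _)
        (Finset.mem_univ (ι j))
    have h2 : ∑ j : Fin 3, (L (ι i) j).length ≤ ∑ i : Fin 3, ∑ j : Fin 3, (L i j).length :=
      Finset.single_le_sum (f := fun i => ∑ j : Fin 3, (L i j).length) (fun _ _ => Nat.zero_le _)
        (Finset.mem_univ (ι i))
    simp only [hn]
    omega
  set q : ℕ → ℕ → ℕ → Pt := fun i j k => (L (ι i) (ι j)).getD k 0 with hq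
  set base : ℕ → Pt := fun m => if m < 3 then a (ι m) else if m < 6 then b (ι (m - 3))
    else q ((m - 6) % 9 / 3) ((m - 6) % 3) ((m - 6) / 9) with hbase
  have hbq : ∀ i j k, i < 3 → j < 3 → k ≤ n i j → base (lab (n i j) i j k) = q i j k := by
    intro i j k hi hj hk
    unfold lab
    split_ifs with h1 h2
    · simp only [hbase, if_pos hi, h1, hq]
      have := hh (ι i) (ι j)
      rw [List.head?_eq_getElem?] at this
      rw [List.getD_eq_getElem?_getD, this]
      rfl
    · simp only [hbase]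
      rw [if_neg (by omega), if_pos (by omega)]
      have e : 3 + j - 3 = j := by omega
      rw [e, h2]
      simp only [hq, hn]
      have := hl (ι i) (ι j)
      rw [List.getLast?_eq_getElem?] at this
      rw [List.getD_eq_getElem?_getD, this]
      rfl
    · simp only [hbase]
      rw [if_neg (by omega), if_neg (by omega)]
      have e1 : (6 + (9 * k + 3 * i + j) - 6) % 9 / 3 = i := by omega
      have e2 : (6 + (9 * k + 3 * i + j) - 6) % 3 = j := by omega
      have e3 : (6 + (9 * k + 3 * i + j) - 6) / 9 = k := by omega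
      rw [e1, e2, e3]
  have hinf : ∀ i j k, k < n i j → [q i j k, q i j (k + 1)] <:+: L (ι i) (ι j) := by
    intro i j k hk
    have hk' : k + 1 < (L (ι i) (ι j)).length := by simp only [hn] at hk; omega
    refine ⟨(L (ι i) (ι j)).take k, (L (ι i) (ι j)).drop (k + 2), ?_⟩
    have e1 : q i j k = (L (ι i) (ι j))[k] := by
      simp only [hq]
      rw [List.getD_eq_getElem _ _ (by omega)]
    have e2 : q i j (k + 1) = (L (ι i) (ι j))[k + 1] := by
      simp only [hq]
      rw [List.getD_eq_getElem _ _ (by omega)]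
    rw [e1, e2, List.append_assoc]
    conv_rhs => rw [← List.take_append_drop k (L (ι i) (ι j))]
    congr 1
    rw [List.drop_eq_getElem_cons (by omega : k < (L (ι i) (ι j)).length),
      List.drop_eq_getElem_cons hk']
    rfl
  have hdis : ∀ i i' j j', i < 3 → i' < 3 → j < 3 → j' < 3 → i ≠ i' → j ≠ j' →
      ∀ k < n i j, ∀ k' < n i' j',
      ¬ (segment ℝ (base (lab (n i j) i j k)) (base (lab (n i j) i j (k + 1))) ∩
        segment ℝ (base (lab (n i' j') i' j' k')) (base (lab (n i' j') i' j' (k' + 1)))).Nonempty := by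
    intro i i' j j' hi hi' hj hj' hii hjj k hk k' hk' hne
    rw [hbq i j k hi hj hk.le, hbq i j (k + 1) hi hj hk, hbq i' j' k' hi' hj' hk'.le,
      hbq i' j' (k' + 1) hi' hj' hk'] at hne
    exact hcon (ι i) (ι i') (ι j) (ι j') (hιne i i' hi hi' hii) (hιne j j' hj hj' hjj)
      ⟨_, _, _, _, hinf i j k hk, hinf i' j' k' hk', hne⟩
  have hev : ∀ᶠ t : ℝ in nhdsWithin 0 (Set.Ioi 0), ∀ i ∈ Finset.range 3, ∀ i' ∈ Finset.range 3,
      ∀ j ∈ Finset.range 3, ∀ j' ∈ Finset.range 3,
      ∀ k ∈ Finset.range (n i j), ∀ k' ∈ Finset.range (n i' j'), i ≠ i' ∧ j ≠ j' →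
      ¬ (segment ℝ (R base t (lab (n i j) i j k)) (R base t (lab (n i j) i j (k + 1))) ∩
        segment ℝ (R base t (lab (n i' j') i' j' k'))
          (R base t (lab (n i' j') i' j' (k' + 1)))).Nonempty := by
    rw [Filter.eventually_all_finset]
    intro i hi
    rw [Filter.eventually_all_finset]
    intro i' hi'
    rw [Filter.eventually_all_finset]
    intro j hj
    rw [Filter.eventually_all_finset]
    intro j' hj'
    rw [Filter.eventually_all_finset]
    intro k hk
    rw [Filter.eventually_all_finset]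
    intro k' hk'
    rw [Filter.eventually_imp_distrib_left]
    rintro ⟨hii, hjj⟩
    exact ev_disj base _ _ _ _ (hdis i i' j j' (Finset.mem_range.1 hi) (Finset.mem_range.1 hi')
      (Finset.mem_range.1 hj) (Finset.mem_range.1 hj') hii hjj k (Finset.mem_range.1 hk) k'
      (Finset.mem_range.1 hk'))
  obtain ⟨t, hG, hD⟩ := ((ev_GPos base (6 + 9 * (N + 1))).and hev).exists
  refine cross hG hn1 hN ?_
  intro i i' j j' hi hi' hj hj' hii hjj k hk k' hk'
  by_contra hX
  rw [Bool.not_eq_false] at hX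
  have hg := (hG.GP (hN i j) (hN i' j') hi hj hi' hj' hii hjj) k hk k' hk'
  exact hD i (Finset.mem_range.2 hi) i' (Finset.mem_range.2 hi') j (Finset.mem_range.2 hj) j'
    (Finset.mem_range.2 hj') k (Finset.mem_range.2 hk) k' (Finset.mem_range.2 hk') ⟨hii, hjj⟩
    (X_true hg.A hg.B hg.C hg.D hX)

end SegGirth
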