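import Mathlib
import Pool.Agent.Lib.MP_beb3fe_lc.Basic
import Pool.Agent.Lib.MP_beb3fe_lc.K33

/-!
# Polygonal connections inside sets, perturbation of segments
-/

namespace SegGirth

open Filter Topology Set

/-- `Conn U x y`: there is a polygonal path from `x` to `y` inside `U` -/
inductive Conn (U : Set Pt) (x : Pt) : Pt → Prop
  | refl : x ∈ U → Conn U x x
  | step (y z : Pt) : Conn U x y → segment ℝ y z ⊆ U → Conn U x z

lemma Conn.left_mem {U : Set Pt} {x y : Pt} (h : Conn U x y) : x ∈ U := by
  induction h with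
  | refl hx => exact hx
  | step y z _ _ ih => exact ih

lemma Conn.right_mem {U : Set Pt} {x y : Pt} (h : Conn U x y) : y ∈ U := by
  induction h with
  | refl hx => exact hx
  | step y z _ hs _ => exact hs (right_mem_segment ℝ y z)

lemma Conn.mono {U V : Set Pt} (hUV : U ⊆ V) {x y : Pt} (h : Conn U x y) : Conn V x y := by
  induction h with
  | refl hx => exact Conn.refl (hUV hx)
  | step y z _ hs ih => exact Conn.step y z ih (hs.trans hUV)

lemma Conn.trans {U : Set Pt} {x y z : Pt} (h1 : Conn U x y) (h2 : Conn U y z) : Conn U x z := by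
  induction h2 with
  | refl _ => exact h1
  | step w z _ hs ih => exact Conn.step w z ih hs

lemma Conn.seg {U : Set Pt} {x y : Pt} (h : segment ℝ x y ⊆ U) : Conn U x y :=
  Conn.step x y (Conn.refl (h (left_mem_segment ℝ x y))) h

lemma Conn.symm {U : Set Pt} {x y : Pt} (h : Conn U x y) : Conn U y x := by
  induction h with
  | refl hx => exact Conn.refl hx
  | step y z _ hs ih =>
    have : Conn U z y := Conn.seg (by rw [segment_symm]; exact hs)
    exact this.trans ih

lemma Conn.of_convex {U : Set Pt} (hU : Convex ℝ U) {x y : Pt} (hx : x ∈ U) (hy : y ∈ U) :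
    Conn U x y := Conn.seg (hU.segment_subset hx hy)

/-- a polygonal connection yields a list -/
lemma Conn.list {U : Set Pt} {x y : Pt} (h : Conn U x y) :
    ∃ A : List Pt, 2 ≤ A.length ∧ A.head? = some x ∧ A.getLast? = some y ∧
      ∀ p q, [p, q] <:+: A → segment ℝ p q ⊆ U := by
  induction h with
  | refl hx =>
    refine ⟨[x, x], by simp, by simp, by simp, ?_⟩
    intro p q h
    have h' : [p, q] = [x, x] := h.eq_of_length (by simp)
    simp only [List.cons.injEq, and_true] at h'
    obtain ⟨rfl, rfl⟩ := h'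
    rw [segment_same]
    simpa using hx
  | step y z _ hs ih =>
    obtain ⟨A, h2, hh, hl, hA⟩ := ih
    refine ⟨A ++ [z], by simp; omega, ?_, by simp, ?_⟩
    · cases A with
      | nil => simp at h2
      | cons a t => simpa using hh
    · intro p q h
      obtain ⟨s, t, hst⟩ := h
      -- either `[p,q]` is inside `A` or it is the last pair
      rcases List.eq_nil_or_concat t with ht | ⟨t', b, ht⟩
      · subst ht
        simp only [List.append_nil] at hst
        have h1 : (s ++ [p]) ++ [q] = A ++ [z] := by simpa using hst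
        have h3 := List.append_inj' h1 rfl
        obtain ⟨h4, h5⟩ := h3
        simp only [List.cons.injEq, and_true] at h5
        subst h5
        rw [← h4] at hl
        simp only [List.getLast?_append, List.getLast?_singleton, Option.some_or,
          Option.some.injEq] at hl
        subst hl
        exact hs
      · subst ht
        have h1 : (s ++ [p, q] ++ t') ++ [b] = A ++ [z] := by simpa using hst
        have h3 := List.append_inj' h1 rfl
        exact hA p q ⟨s, t', h3.1⟩

/-- `K_{3,3}` cannot be drawn with pairwise disjoint independent edges (set version) -/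
theorem k33_sets (a b : Fin 3 → Pt) (U : Fin 3 → Fin 3 → Set Pt)
    (h : ∀ i j, Conn (U i j) (a i) (b j)) :
    ∃ i i' j j', i ≠ i' ∧ j ≠ j' ∧ (U i j ∩ U i' j').Nonempty := by
  choose A h2 hh hl hA using fun i j => (h i j).list
  obtain ⟨i, i', j, j', hi, hj, p, q, r, s, h1, h3, x, hx1, hx2⟩ := k33 a b A h2 hh hl
  exact ⟨i, i', j, j', hi, hj, x, hA i j p q h1 hx1, hA i' j' r s h3 hx2⟩

/-- disjointness of a segment from a closed set is stable under small perturbations -/
lemma eventually_disjoint {u v : Pt} {F : Set Pt} (hF : IsClosed F)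
    (h : Disjoint (segment ℝ u v) F) :
    ∀ᶠ z in 𝓝 (u, v), Disjoint (segment ℝ z.1 z.2) F := by
  have hc : IsCompact (segment ℝ u v) := by
    rw [← convexHull_pair]
    exact (Set.toFinite {u, v}).isCompact_convexHull ℝ
  obtain ⟨δ, hδ, hd⟩ := h.exists_thickenings hc hF
  have h1 : ∀ᶠ z in 𝓝 (u, v), dist z (u, v) < δ := by
    exact Metric.ball_mem_nhds _ hδ
  filter_upwards [h1] with z hz
  rw [Set.disjoint_left] at hd ⊢
  intro x hx hxF
  refine hd ?_ (Metric.self_subset_thickening hδ F hxF)
  obtain ⟨a, b, ha, hb, hab, rfl⟩ := hx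
  rw [Metric.mem_thickening_iff]
  refine ⟨a • u + b • v, ⟨a, b, ha, hb, hab, rfl⟩, ?_⟩
  have hz1 : dist z.1 u < δ := lt_of_le_of_lt (le_max_left _ _) hz
  have hz2 : dist z.2 v < δ := lt_of_le_of_lt (le_max_right _ _) hz
  calc dist (a • z.1 + b • z.2) (a • u + b • v)
      ≤ dist (a • z.1) (a • u) + dist (b • z.2) (b • v) := dist_add_add_le _ _ _ _
    _ = a * dist z.1 u + b * dist z.2 v := by
        rw [dist_smul₀, dist_smul₀, Real.norm_of_nonneg ha, Real.norm_of_nonneg hb]
    _ < δ := by
        rcases eq_or_lt_of_le ha with ha0 | ha0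
        · subst ha0
          have : b = 1 := by linarith
          subst this
          simpa using hz2
        · nlinarith [dist_nonneg (x := z.1) (y := u), dist_nonneg (x := z.2) (y := v)]

lemma orient_of_mem_segment {p q r s x : Pt} (hx : x ∈ segment ℝ r s) :
    ∃ t : ℝ, 0 ≤ t ∧ t ≤ 1 ∧ x = (1 - t) • r + t • s ∧
      orient p q x = (1 - t) * orient p q r + t * orient p q s := by
  obtain ⟨a, b, ha, hb, hab, rfl⟩ := hx
  refine ⟨b, hb, by linarith, ?_, ?_⟩
  · have : a = 1 - b := by linarith
    rw [this]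
  · have : a = 1 - b := by linarith
    rw [this, orient_lineMap]

lemma orient_eq_zero_of_mem {r s x : Pt} (hx : x ∈ segment ℝ r s) : orient r s x = 0 := by
  obtain ⟨t, _, _, _, h⟩ := orient_of_mem_segment (p := r) (q := s) hx
  rw [h, orient_self_mid, orient_self_right]; ring

lemma orient_pos_of_mem {p q r s x : Pt} (hx : x ∈ segment ℝ r s) (hr : 0 < orient p q r)
    (hs : 0 < orient p q s) : 0 < orient p q x := by
  obtain ⟨t, h0, h1, _, h⟩ := orient_of_mem_segment (p := p) (q := q) hx
  rw [h]
  rcases eq_or_lt_of_le h0 with h0' | h0'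
  · rw [← h0']; simpa using hr
  · nlinarith [mul_pos h0' hs, mul_nonneg (by linarith : (0:ℝ) ≤ 1 - t) hr.le]

lemma orient_neg_of_mem {p q r s x : Pt} (hx : x ∈ segment ℝ r s) (hr : orient p q r < 0)
    (hs : orient p q s < 0) : orient p q x < 0 := by
  obtain ⟨t, h0, h1, _, h⟩ := orient_of_mem_segment (p := p) (q := q) hx
  rw [h]
  rcases eq_or_lt_of_le h0 with h0' | h0'
  · rw [← h0']; simpa using hr
  · nlinarith [mul_pos_of_neg_of_neg (neg_neg_of_pos h0') hs,
      mul_nonneg (by linarith : (0:ℝ) ≤ 1 - t) (neg_pos.2 hr).le]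

/-- If all small perturbations of the segment `uv` meet the segment `rs`, then `u` and `v` are
strictly on different sides of the line `rs`. -/
lemma sides_of_eventually {u v r s : Pt}
    (h : ∀ᶠ z in 𝓝 (u, v), (segment ℝ z.1 z.2 ∩ segment ℝ r s).Nonempty) :
    orient r s u * orient r s v < 0 := by
  by_contra hcon
  push Not at hcon
  -- it is enough to find a direction
  suffices hs : ∃ ν : Pt, ∀ t : ℝ, 0 < t →
      ¬ (segment ℝ (u + t • ν) (v + t • ν) ∩ segment ℝ r s).Nonempty by
    obtain ⟨ν, hν⟩ := hs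
    have hc : Tendsto (fun t : ℝ => (u + t • ν, v + t • ν)) (𝓝[>] 0) (𝓝 (u, v)) := by
      have : Tendsto (fun t : ℝ => (u + t • ν, v + t • ν)) (𝓝 0) (𝓝 (u + (0:ℝ) • ν, v + (0:ℝ) • ν)) := by
        apply Continuous.tendsto
        fun_prop
      simp only [zero_smul, add_zero] at this
      exact this.mono_left nhdsWithin_le_nhds
    have h1 := hc.eventually h
    have h2 : ∀ᶠ t : ℝ in 𝓝[>] 0, 0 < t := eventually_mem_nhdsWithin
    obtain ⟨t, ht1, ht2⟩ := (h1.and h2).exists
    exact hν t ht2 ht1
  by_cases hrs : r = s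
  · subst hrs
    by_cases huv : u = v
    · subst huv
      by_cases hur : u = r
      · refine ⟨(1, 0), fun t ht hne => ?_⟩
        obtain ⟨x, hx1, hx2⟩ := hne
        rw [segment_same, Set.mem_singleton_iff] at hx1 hx2
        rw [hx2] at hx1
        have := congrArg Prod.fst hx1
        rw [hur] at this
        simp at this
        linarith
      · refine ⟨u - r, fun t ht hne => ?_⟩
        obtain ⟨x, hx1, hx2⟩ := hne
        rw [segment_same, Set.mem_singleton_iff] at hx1 hx2
        rw [hx2] at hx1
        have h3 : (1 + t) • (u - r) = 0 := by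
          rw [add_smul, one_smul]
          have : u - r + t • (u - r) = u + t • (u - r) - r := by abel
          rw [this, ← hx1]
          simp
        rcases smul_eq_zero.1 h3 with h4 | h4
        · linarith
        · exact hur (sub_eq_zero.1 h4)
    · -- shift orthogonally to `v - u`
      have hpos : 0 < (v.1 - u.1) ^ 2 + (v.2 - u.2) ^ 2 := by
        by_contra hle
        push Not at hle
        apply huv
        have h1 : v.1 - u.1 = 0 := by nlinarith [sq_nonneg (v.1 - u.1), sq_nonneg (v.2 - u.2)]
        have h2 : v.2 - u.2 = 0 := by nlinarith [sq_nonneg (v.1 - u.1), sq_nonneg (v.2 - u.2)]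
        exact Prod.ext (by linarith) (by linarith)
      have key : ∀ (τ t : ℝ), orient (u + t • (-(τ * (v.2 - u.2)), τ * (v.1 - u.1)))
          (v + t • (-(τ * (v.2 - u.2)), τ * (v.1 - u.1))) r
          = orient u v r - t * τ * ((v.1 - u.1) ^ 2 + (v.2 - u.2) ^ 2) := by
        intro τ t
        simp only [orient, Prod.fst_add, Prod.snd_add, Prod.smul_fst, Prod.smul_snd, smul_eq_mul]
        ring
      rcases le_total 0 (orient u v r) with ho | ho
      · refine ⟨(-((-1) * (v.2 - u.2)), (-1) * (v.1 - u.1)), fun t ht hne => ?_⟩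
        obtain ⟨x, hx1, hx2⟩ := hne
        rw [segment_same, Set.mem_singleton_iff] at hx2
        subst hx2
        have h1 := orient_eq_zero_of_mem hx1
        rw [key] at h1
        nlinarith [mul_pos ht hpos]
      · refine ⟨(-(1 * (v.2 - u.2)), 1 * (v.1 - u.1)), fun t ht hne => ?_⟩
        obtain ⟨x, hx1, hx2⟩ := hne
        rw [segment_same, Set.mem_singleton_iff] at hx2
        subst hx2
        have h1 := orient_eq_zero_of_mem hx1
        rw [key] at h1
        nlinarith [mul_pos ht hpos]
  · have hpos : 0 < (s.1 - r.1) ^ 2 + (s.2 - r.2) ^ 2 := by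
      by_contra hle
      push Not at hle
      apply hrs
      have h1 : s.1 - r.1 = 0 := by nlinarith [sq_nonneg (s.1 - r.1), sq_nonneg (s.2 - r.2)]
      have h2 : s.2 - r.2 = 0 := by nlinarith [sq_nonneg (s.1 - r.1), sq_nonneg (s.2 - r.2)]
      exact Prod.ext (by linarith) (by linarith)
    have key : ∀ (τ t : ℝ) (x : Pt), orient r s (x + t • (-(τ * (s.2 - r.2)), τ * (s.1 - r.1)))
        = orient r s x + t * τ * ((s.1 - r.1) ^ 2 + (s.2 - r.2) ^ 2) := by
      intro τ t x
      simp only [orient, Prod.fst_add, Prod.snd_add, Prod.smul_fst, Prod.smul_snd, smul_eq_mul]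
      ring
    rcases mul_nonneg_iff.1 hcon with ⟨ha, hb⟩ | ⟨ha, hb⟩
    · refine ⟨(-(1 * (s.2 - r.2)), 1 * (s.1 - r.1)), fun t ht hne => ?_⟩
      obtain ⟨x, hx1, hx2⟩ := hne
      have h1 := orient_eq_zero_of_mem hx2
      have h2 : 0 < orient r s (u + t • (-(1 * (s.2 - r.2)), 1 * (s.1 - r.1))) := by
        rw [key]; nlinarith [mul_pos ht hpos]
      have h3 : 0 < orient r s (v + t • (-(1 * (s.2 - r.2)), 1 * (s.1 - r.1))) := by
        rw [key]; nlinarith [mul_pos ht hpos]
      have := orient_pos_of_mem hx1 h2 h3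
      linarith
    · refine ⟨(-((-1) * (s.2 - r.2)), (-1) * (s.1 - r.1)), fun t ht hne => ?_⟩
      obtain ⟨x, hx1, hx2⟩ := hne
      have h1 := orient_eq_zero_of_mem hx2
      have h2 : orient r s (u + t • (-((-1) * (s.2 - r.2)), (-1) * (s.1 - r.1))) < 0 := by
        rw [key]; nlinarith [mul_pos ht hpos]
      have h3 : orient r s (v + t • (-((-1) * (s.2 - r.2)), (-1) * (s.1 - r.1))) < 0 := by
        rw [key]; nlinarith [mul_pos ht hpos]
      have := orient_neg_of_mem hx1 h2 h3
      linarith

end SegGirth
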