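import Mathlib
import Pool.Agent.Lib.MP_beb3fe_lc.Conn

/-!
# Chord systems, their graphs and their segment representations
-/

namespace SegGirth

open Filter Topology Set

/-- vertices of the graph: two poles, left wall, right wall, outer path, links of chords -/
inductive Vx (X : Type) where
  | T : Vx X
  | B : Vx X
  | wl : ℕ → Vx X
  | wr : ℕ → Vx X
  | om : ℕ → Vx X
  | ch : X → ℕ → Vx X
  deriving DecidableEq

/-- a chord system: chords are paths with `N` links; walls have `Q` links, the outer path has `W`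
links; chord `x` is attached to link `la x` of the left wall and to link `ra x` of the right wall;
`cross x y` : the chords cross, at link `pos x y` of `x` and link `pos y x` of `y`. -/
structure ChordSys where
  X : Type
  N : ℕ
  Q : ℕ
  W : ℕ
  la : X → ℕ
  ra : X → ℕ
  cross : X → X → Prop
  pos : X → X → ℕ

namespace ChordSys

variable (C : ChordSys)

/-- the admissible vertices -/
def Valid : Vx C.X → Prop
  | Vx.T => True
  | Vx.B => True
  | Vx.wl q => q < C.Q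
  | Vx.wr q => q < C.Q
  | Vx.om q => q < C.W
  | Vx.ch _ t => t < C.N

/-- frame vertices -/
def Frame : Vx C.X → Prop
  | Vx.ch _ _ => False
  | v => C.Valid v

/-- adjacency, one direction -/
def Adj0 : Vx C.X → Vx C.X → Prop
  | Vx.T, Vx.wl q => q = 0
  | Vx.T, Vx.wr q => q = 0
  | Vx.T, Vx.om q => q = 0
  | Vx.B, Vx.wl q => q + 1 = C.Q
  | Vx.B, Vx.wr q => q + 1 = C.Q
  | Vx.B, Vx.om q => q + 1 = C.W
  | Vx.wl q, Vx.wl q' => q' = q + 1
  | Vx.wr q, Vx.wr q' => q' = q + 1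
  | Vx.om q, Vx.om q' => q' = q + 1
  | Vx.ch x t, Vx.wl q => t = 0 ∧ q = C.la x
  | Vx.ch x t, Vx.wr q => t + 1 = C.N ∧ q = C.ra x
  | Vx.ch x t, Vx.ch y t' => (x = y ∧ t' = t + 1) ∨
      (x ≠ y ∧ C.cross x y ∧ t = C.pos x y ∧ t' = C.pos y x)
  | _, _ => False

/-- adjacency -/
def Adj (u v : Vx C.X) : Prop := C.Adj0 u v ∨ C.Adj0 v u

end ChordSys

/-- standing assumptions on a chord system -/
structure ChordSys.Good (C : ChordSys) : Prop where
  symm : ∀ x y, C.cross x y → C.cross y x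
  hW : 1 ≤ C.W
  hN : 3 ≤ C.N
  la1 : ∀ x, 1 ≤ C.la x
  la2 : ∀ x, C.la x + 2 ≤ C.Q
  ra1 : ∀ x, 1 ≤ C.ra x
  ra2 : ∀ x, C.ra x + 2 ≤ C.Q
  pos1 : ∀ x y, C.cross x y → 1 ≤ C.pos x y
  pos2 : ∀ x y, C.cross x y → C.pos x y + 2 ≤ C.N
  cross_ne : ∀ x y, C.cross x y → x ≠ y
  /-- inverted ranks for crossing chords -/
  inv : ∀ x y, C.cross x y → (C.la x + 1 < C.la y ∧ C.ra y + 1 < C.ra x) ∨
    (C.la y + 1 < C.la x ∧ C.ra x + 1 < C.ra y)

/-- a representation of the graph of a chord system by segments -/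
structure Rep (C : ChordSys) where
  p0 : Vx C.X → Pt
  p1 : Vx C.X → Pt
  inter : ∀ u v, C.Valid u → C.Valid v → u ≠ v →
    (C.Adj u v ↔ (segment ℝ (p0 u) (p1 u) ∩ segment ℝ (p0 v) (p1 v)).Nonempty)

namespace Rep

variable {C : ChordSys} (R : Rep C)

/-- the segment of a vertex -/
def S (v : Vx C.X) : Set Pt := segment ℝ (R.p0 v) (R.p1 v)

lemma convex_S (v : Vx C.X) : Convex ℝ (R.S v) := convex_segment _ _

lemma isClosed_S (v : Vx C.X) : IsClosed (R.S v) := by
  unfold S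
  rw [← convexHull_pair]
  exact (Set.toFinite {R.p0 v, R.p1 v}).isClosed_convexHull ℝ

lemma nonempty_inter {u v : Vx C.X} (hu : C.Valid u) (hv : C.Valid v) (hne : u ≠ v)
    (h : C.Adj u v) : (R.S u ∩ R.S v).Nonempty := (R.inter u v hu hv hne).1 h

lemma disjoint_of_not_adj {u v : Vx C.X} (hu : C.Valid u) (hv : C.Valid v) (hne : u ≠ v)
    (h : ¬ C.Adj u v) : Disjoint (R.S u) (R.S v) := by
  rw [Set.disjoint_iff_inter_eq_empty, ← Set.not_nonempty_iff_eq_empty]
  exact fun hh => h ((R.inter u v hu hv hne).2 hh)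

/-- union of consecutive segments -/
def Un (v : ℕ → Vx C.X) (i j : ℕ) : Set Pt := {x | ∃ t, i ≤ t ∧ t ≤ j ∧ x ∈ R.S (v t)}

lemma isClosed_Un (v : ℕ → Vx C.X) (i j : ℕ) : IsClosed (R.Un v i j) := by
  have : R.Un v i j = ⋃ t ∈ Finset.Icc i j, R.S (v t) := by
    ext x; simp [Un]; 
    constructor
    · rintro ⟨t, h1, h2, h3⟩; exact ⟨t, ⟨h1, h2⟩, h3⟩
    · rintro ⟨t, ⟨h1, h2⟩, h3⟩; exact ⟨t, h1, h2, h3⟩
  rw [this]
  exact isClosed_biUnion_finset (fun t _ => R.isClosed_S (v t))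

lemma conn_chain (v : ℕ → Vx C.X) (i j : ℕ) (hij : i ≤ j)
    (hval : ∀ t, i ≤ t → t ≤ j → C.Valid (v t))
    (hne : ∀ t, i ≤ t → t < j → v t ≠ v (t + 1))
    (hadj : ∀ t, i ≤ t → t < j → C.Adj (v t) (v (t + 1)))
    {a b : Pt} (ha : a ∈ R.S (v i)) (hb : b ∈ R.S (v j)) : Conn (R.Un v i j) a b := by
  induction j, hij using Nat.le_induction generalizing b with
  | base =>
    refine (Conn.of_convex (R.convex_S (v i)) ha hb).mono ?_
    intro x hx
    exact ⟨i, le_refl _, le_refl _, hx⟩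
  | succ j hij ih =>
    obtain ⟨c, hc1, hc2⟩ := R.nonempty_inter (hval j hij (by omega)) (hval (j+1) (by omega) le_rfl)
      (hne j hij (by omega)) (hadj j hij (by omega))
    have h1 := ih (fun t h1 h2 => hval t h1 (by omega)) (fun t h1 h2 => hne t h1 (by omega))
      (fun t h1 h2 => hadj t h1 (by omega)) hc1
    have h2 : Conn (R.S (v (j+1))) c b := Conn.of_convex (R.convex_S _) hc2 hb
    refine (h1.mono ?_).trans (h2.mono ?_)
    · rintro x ⟨t, h3, h4, h5⟩; exact ⟨t, h3, by omega, h5⟩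
    · intro x hx; exact ⟨j+1, by omega, le_rfl, hx⟩

/-- the set `U` avoids all frame segments except those in `E` -/
def Avoid (U : Set Pt) (E : Set (Vx C.X)) : Prop :=
  ∀ v, C.Frame v → v ∉ E → Disjoint U (R.S v)

lemma Avoid.mono {U V : Set Pt} {E F : Set (Vx C.X)} (h : R.Avoid V F) (hUV : U ⊆ V)
    (hEF : F ⊆ E) : R.Avoid U E :=
  fun v hv hvE => (h v hv (fun hF => hvE (hEF hF))).mono_left hUV

lemma Avoid.union {U V : Set Pt} {E : Set (Vx C.X)} (h1 : R.Avoid U E) (h2 : R.Avoid V E) :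
    R.Avoid (U ∪ V) E :=
  fun v hv hvE => Set.disjoint_union_left.2 ⟨h1 v hv hvE, h2 v hv hvE⟩

end Rep

end SegGirth
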