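import Mathlib
import Pool.Agent.Lib.MP_beb3fe_lc.Sys

/-!
# The concrete chord system attached to `n` and an order function `ord`
(`ord i j` = rank of the crossing with line `j` among all crossings on line `i`, `0 ≤ ord i j ≤ n-2`)
-/

namespace SegGirth

/-- spacing of anchors -/
def KK (k : ℕ) : ℕ := k + 3
/-- the chords of a group are numbered `0, …, HH` -/
def HH (k n : ℕ) : ℕ := KK k * (2 * n - 1)
/-- unit of codes -/
def MM (k n : ℕ) : ℕ := 2 * HH k n + 3
/-- spacing of special links -/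
def LL (k n : ℕ) : ℕ := HH k n + k + 20

/-- code of the rigid link -/
def rig (k n b : ℕ) : ℕ := (2 * b + 1) * MM k n

/-- number (`1, …, 2n-2`) of the anchor of a group of tube `i` for the group `g'` of tube `j`
(`false` = lower, `true` = upper) -/
def anc (ord : ℕ → ℕ → ℕ) (i j : ℕ) (g' : Bool) : ℕ :=
  2 * ord i j + (if decide (i < j) = g' then 1 else 2)

/-- offset of chord `b` at the rigid edge `y` -/
def off (k n y b : ℕ) : ℕ :=
  if b = y then 0 else if b < y then HH k n + 1 - b else HH k n + 1 + b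

/-- code of the place of chord `(i,g,b)` where it crosses the chord `(j,g',b')` -/
def code (k n : ℕ) (ord : ℕ → ℕ → ℕ) (i : ℕ) (g : Bool) (b j : ℕ) (g' : Bool) (b' : ℕ) : ℕ :=
  if i = j then
    if g = g' then
      if b' < b then (if b' + 1 = b then rig k n b else 2 * b * MM k n + b')
      else (if b' = b + 1 then rig k n b else 2 * b' * MM k n)
    else rig k n b
  else if b = KK k * anc ord i j g' then rig k n b
  else (2 * (KK k * anc ord i j g') + 1) * MM k n +
    (if decide (i < j) = g' then (2 * HH k n + 2) - off k n (KK k * anc ord j i g) b'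
      else off k n (KK k * anc ord j i g) b')

/-- left key inside a tube (position from above) -/
def lkey (H : ℕ) (g : Bool) (b : ℕ) : ℕ :=
  if b = 0 then (if g then H + 1 else H) else (if g then H - b else H + 1 + b)

/-- right key inside a tube (position from above) -/
def rkey (H : ℕ) (g : Bool) (b : ℕ) : ℕ :=
  if b = H then (if g then H + 1 else H) else (if g then b else 2 * H + 1 - b)

/-- left rank -/
def lrank (k n i : ℕ) (g : Bool) (b : ℕ) : ℕ := i * (2 * HH k n + 2) + lkey (HH k n) g b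

/-- right rank -/
def rrank (k n i : ℕ) (g : Bool) (b : ℕ) : ℕ :=
  (n - 1 - i) * (2 * HH k n + 2) + rkey (HH k n) g b

/-- the concrete chord system -/
def csys (k n : ℕ) (ord : ℕ → ℕ → ℕ) : ChordSys where
  X := Fin n × Bool × Fin (HH k n + 1)
  N := LL k n * ((2 * HH k n + 1) * MM k n + 3)
  Q := LL k n * (n * (2 * HH k n + 2) + 1)
  W := LL k n
  la x := LL k n * (lrank k n x.1 x.2.1 x.2.2 + 1)
  ra x := LL k n * (rrank k n x.1 x.2.1 x.2.2 + 1)
  cross x y :=
    (lrank k n x.1 x.2.1 x.2.2 < lrank k n y.1 y.2.1 y.2.2 ∧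
      rrank k n y.1 y.2.1 y.2.2 < rrank k n x.1 x.2.1 x.2.2) ∨
    (lrank k n y.1 y.2.1 y.2.2 < lrank k n x.1 x.2.1 x.2.2 ∧
      rrank k n x.1 x.2.1 x.2.2 < rrank k n y.1 y.2.1 y.2.2)
  pos x y := LL k n * (code k n ord x.1 x.2.1 x.2.2 y.1 y.2.1 y.2.2 + 1)

/-- well-formed order functions -/
structure OrdOK (n : ℕ) (ord : ℕ → ℕ → ℕ) : Prop where
  lt : ∀ i < n, ∀ j < n, i ≠ j → ord i j < n - 1
  inj : ∀ i < n, ∀ j < n, ∀ j' < n, i ≠ j → i ≠ j' → ord i j = ord i j' → j = j'

/-- the order function is realized by the lines `y = m i * x + b i` -/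
def RealOrd (n : ℕ) (ord : ℕ → ℕ → ℕ) : Prop :=
  ∃ m b : ℕ → ℝ, (∀ i j, i < j → j < n → m i < m j) ∧
    ∀ i < n, ∀ j < n, ∀ j' < n, i ≠ j → i ≠ j' → ord i j < ord i j' →
      (b j - b i) / (m i - m j) < (b j' - b i) / (m i - m j')

/-- the graph of a chord system -/
def ChordSys.graph (C : ChordSys) : SimpleGraph {v : Vx C.X // C.Valid v} where
  Adj u v := u ≠ v ∧ C.Adj u.1 v.1
  symm := ⟨fun _ _ h => ⟨h.1.symm, h.2.symm⟩⟩
  loopless := ⟨fun _ h => h.1 rfl⟩

end SegGirth
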