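import Mathlib
import Pool.Agent.Lib.MP_beb3fe_lc.Concrete

/-!
# Systems of piecewise affine curves that realize a chord system
-/

namespace SegGirth

/-- `f` is affine on every closed interval whose interior contains no point of `K` -/
def PAff (a b : ℝ) (K : Finset ℝ) (f : ℝ → ℝ) : Prop :=
  ∀ s t, a ≤ s → s < t → t ≤ b → (∀ κ ∈ K, ¬ (s < κ ∧ κ < t)) →
    ∃ m q, ∀ x ∈ Set.Icc s t, f x = m * x + q

/-- curves `F X` over `[-R,R]` crossing as prescribed by the chord system; `cd X Y` is the code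
of the crossing with `Y` on `X` -/
structure Curves (C : ChordSys) (L : ℕ) (cd : C.X → C.X → ℕ) where
  R : ℝ
  hR : 0 < R
  F : C.X → ℝ → ℝ
  kink : C.X → Finset ℝ
  kink_mem : ∀ X, ∀ κ ∈ kink X, -R < κ ∧ κ < R
  kink_card : ∀ X, (kink X).card + 3 ≤ L
  aff : ∀ X, PAff (-R) R (kink X) (F X)
  left : ∀ X Y, C.la X < C.la Y → F Y (-R) < F X (-R)
  right : ∀ X Y, C.ra X < C.ra Y → F Y R < F X R
  xc : C.X → C.X → ℝ
  xc_mem : ∀ X Y, C.cross X Y → -R < xc X Y ∧ xc X Y < R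
  xc_eq : ∀ X Y, C.cross X Y → F X (xc X Y) = F Y (xc X Y)
  uniq : ∀ X Y, X ≠ Y → ∀ x ∈ Set.Icc (-R) R, F X x = F Y x → C.cross X Y ∧ x = xc X Y
  order : ∀ X Y Z, C.cross X Y → C.cross X Z → cd X Y < cd X Z → xc X Y < xc X Z
  nokink : ∀ X Y Z, C.cross X Y → C.cross X Z → cd X Y = cd X Z →
    ∀ κ ∈ kink X, ¬ (xc X Y ≤ κ ∧ κ ≤ xc X Z)

/-- the code function of the concrete system -/
def ccode (k n : ℕ) (ord : ℕ → ℕ → ℕ) (x y : (csys k n ord).X) : ℕ :=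
  code k n ord x.1 x.2.1 x.2.2 y.1 y.2.1 y.2.2

end SegGirth
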