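import Mathlib
import Pool.Agent.Lib.MP_beb3fe_lc.Concrete

/-!
# The girth of the concrete graph
-/

namespace SegGirth
namespace Gir

/-- run lemma for periodic sequences -/
lemma run_seq {V : Type*} (P : V → V → Prop) (S : V → Prop) (n : ℕ) (u : ℕ → V) (hn : 3 ≤ n)
    (hper : ∀ t, u (t + n) = u t)
    (hS : ∀ t, ¬ P (u t) (u (t + 1)) → S (u t) ∧ S (u (t + 1)))
    (hrun : ∀ s r, 1 ≤ r → r < n → (∀ i, i < r → P (u (s + i)) (u (s + i + 1))) →
      S (u s) → S (u (s + r)) → False)
    (hcyc : ¬ ∀ t, P (u t) (u (t + 1))) : ∀ t, ¬ P (u t) (u (t + 1)) := by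
  classical
  intro i hPi
  push Not at hcyc
  obtain ⟨j, hj⟩ := hcyc
  have h3 : ∀ m k, u (k + n * m) = u k := by
    intro m
    induction m with
    | zero => intro k; simp
    | succ m ih =>
      intro k
      rw [show k + n * (m + 1) = (k + n * m) + n by ring, hper, ih]
  have hex : ∃ t, P (u (j + t)) (u (j + t + 1)) := by
    refine ⟨i + n * j - j, ?_⟩
    have h1 : j ≤ n * j := Nat.le_mul_of_pos_left _ (by omega)
    have h2 : j + (i + n * j - j) = i + n * j := by omega
    rw [h2, h3, show i + n * j + 1 = (i + 1) + n * j by ring, h3]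
    exact hPi
  set t := Nat.find hex with ht
  have htP : P (u (j + t)) (u (j + t + 1)) := Nat.find_spec hex
  have htmin : ∀ k < t, ¬ P (u (j + k)) (u (j + k + 1)) := fun k hk => Nat.find_min hex hk
  have ht1 : 1 ≤ t := by
    rcases Nat.eq_zero_or_pos t with h | h
    · rw [h] at htP
      exact absurd htP hj
    · exact h
  have htn : t < n := by
    by_contra hcon
    have h2 : u (j + (t - n)) = u (j + t) := by
      rw [← hper (j + (t - n)), show j + (t - n) + n = j + t by omega]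
    have h3 : u (j + (t - n) + 1) = u (j + t + 1) := by
      rw [← hper (j + (t - n) + 1), show j + (t - n) + 1 + n = j + t + 1 by omega]
    refine htmin (t - n) (by omega) ?_
    rw [h2, h3]
    exact htP
  have hex2 : ∃ r, ¬ P (u (j + t + r)) (u (j + t + r + 1)) := by
    refine ⟨n - t, ?_⟩
    have h1 : j + t + (n - t) = j + n := by omega
    rw [h1, hper, show j + n + 1 = j + 1 + n by ring, hper]
    exact hj
  set r := Nat.find hex2 with hr
  have hrP : ¬ P (u (j + t + r)) (u (j + t + r + 1)) := Nat.find_spec hex2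
  have hrmin : ∀ k < r, P (u (j + t + k)) (u (j + t + k + 1)) := fun k hk => by
    have := Nat.find_min hex2 hk
    simpa using this
  have hr1 : 1 ≤ r := by
    rcases Nat.eq_zero_or_pos r with h | h
    · rw [h] at hrP
      exact absurd htP hrP
    · exact h
  have hrn : r ≤ n - t := by
    by_contra hcon
    have := hrmin (n - t) (by omega)
    have h1 : j + t + (n - t) = j + n := by omega
    rw [h1, hper, show j + n + 1 = j + 1 + n by ring, hper] at this
    exact hj this
  refine hrun (j + t) r hr1 (by omega) (fun k hk => hrmin k hk) ?_ ?_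
  · have hk := htmin (t - 1) (by omega)
    have h1 : j + (t - 1) + 1 = j + t := by omega
    have := (hS (j + (t - 1)) hk).2
    rwa [h1] at this
  · exact (hS _ hrP).1

/-- a walk by steps ±1 that never backtracks is monotone -/
lemma mono_walk {A : Type*} [AddCommGroupWithOne A] (f : ℕ → A) (r : ℕ)
    (h1 : ∀ j, j < r → f (j + 1) = f j + 1 ∨ f (j + 1) = f j - 1)
    (h2 : ∀ j, j + 2 ≤ r → f (j + 2) ≠ f j) :
    (∀ j, j ≤ r → f j = f 0 + j) ∨ (∀ j, j ≤ r → f j = f 0 - j) := by
  rcases Nat.eq_zero_or_pos r with hr | hr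
  · left
    intro j hj
    have : j = 0 := by omega
    subst this; simp
  rcases h1 0 hr with h | h
  · left
    have key : ∀ j, j + 1 ≤ r → f (j + 1) = f j + 1 := by
      intro j
      induction j with
      | zero => intro _; exact h
      | succ j ih =>
        intro hj
        have e := ih (by omega)
        rcases h1 (j + 1) (by omega) with h3 | h3
        · exact h3
        · exfalso
          apply h2 j (by omega)
          rw [h3, e]; abel
    intro j hj
    induction j with
    | zero => simp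
    | succ j ih =>
      rw [key j hj, ih (by omega)]; push_cast; abel
  · right
    have key : ∀ j, j + 1 ≤ r → f (j + 1) = f j - 1 := by
      intro j
      induction j with
      | zero => intro _; exact h
      | succ j ih =>
        intro hj
        have e := ih (by omega)
        rcases h1 (j + 1) (by omega) with h3 | h3
        · exfalso
          apply h2 j (by omega)
          rw [h3, e]; abel
        · exact h3
    intro j hj
    induction j with
    | zero => simp
    | succ j ih =>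
      rw [key j hj, ih (by omega)]; push_cast; abel

section codes

variable {k n : ℕ} {ord : ℕ → ℕ → ℕ}

lemma anc_inj (h : OrdOK n ord) {i j j' : ℕ} {g g' : Bool} (hi : i < n) (hj : j < n) (hj' : j' < n)
    (hij : i ≠ j) (hij' : i ≠ j') (he : anc ord i j g = anc ord i j' g') : j = j' ∧ g = g' := by
  unfold anc at he
  have ho : ord i j = ord i j' := by
    split_ifs at he <;> omega
  have hjj := h.inj i hi j hj j' hj' hij hij' ho
  subst hjj
  refine ⟨rfl, ?_⟩
  by_cases h1 : decide (i < j) = g <;> by_cases h2 : decide (i < j) = g'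
  · rw [← h1, ← h2]
  · rw [if_pos h1, if_neg h2] at he; omega
  · rw [if_neg h1, if_pos h2] at he; omega
  · revert h1 h2
    cases decide (i < j) <;> cases g <;> cases g' <;> simp

lemma anc_pos (i j : ℕ) (g : Bool) : 1 ≤ anc ord i j g := by
  unfold anc; split_ifs <;> omega

lemma anc_le (h : OrdOK n ord) {i j : ℕ} {g : Bool} (hi : i < n) (hj : j < n) (hij : i ≠ j) :
    anc ord i j g ≤ 2 * n - 2 := by
  have := h.lt i hi j hj hij
  unfold anc; split_ifs <;> omega

lemma off_le {y b : ℕ} (hb : b ≤ HH k n) : off k n y b ≤ 2 * HH k n + 1 := by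
  unfold off; split_ifs <;> omega

lemma off_inj {y b b' : ℕ} (hy : y ≤ HH k n) (hb : b ≤ HH k n) (hb' : b' ≤ HH k n)
    (h : off k n y b = off k n y b') : b = b' := by
  unfold off at h
  split_ifs at h <;> omega

lemma divmod_eq {M q r q' r' : ℕ} (hr : r < M) (hr' : r' < M) (h : q * M + r = q' * M + r') :
    q = q' ∧ r = r' := by
  have hM : 0 < M := by omega
  have h1 : (q * M + r) / M = q := by
    rw [Nat.add_comm, Nat.add_mul_div_right _ _ hM, Nat.div_eq_of_lt hr, zero_add]
  have h2 : (q' * M + r') / M = q' := by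
    rw [Nat.add_comm, Nat.add_mul_div_right _ _ hM, Nat.div_eq_of_lt hr', zero_add]
  have hq : q = q' := by rw [← h1, ← h2, h]
  subst hq
  exact ⟨rfl, by omega⟩

/-- the shape of a code -/
lemma code_cases (k n : ℕ) (ord : ℕ → ℕ → ℕ) (i : ℕ) (g : Bool) (b j : ℕ) (g' : Bool) (b' : ℕ)
    (hne : ¬ (i = j ∧ g = g' ∧ b = b')) :
    (code k n ord i g b j g' b' = rig k n b ∧
      ((i = j ∧ g = g' ∧ (b' + 1 = b ∨ b' = b + 1)) ∨ (i = j ∧ g ≠ g') ∨
        (i ≠ j ∧ b = KK k * anc ord i j g'))) ∨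
    (i = j ∧ g = g' ∧ b' + 1 < b ∧ code k n ord i g b j g' b' = (2 * b) * MM k n + b') ∨
    (i = j ∧ g = g' ∧ b + 1 < b' ∧ code k n ord i g b j g' b' = (2 * b') * MM k n + 0) ∨
    (i ≠ j ∧ b ≠ KK k * anc ord i j g' ∧
      code k n ord i g b j g' b' = (2 * (KK k * anc ord i j g') + 1) * MM k n +
        (if decide (i < j) = g' then (2 * HH k n + 2) - off k n (KK k * anc ord j i g) b'
          else off k n (KK k * anc ord j i g) b')) := by
  unfold code
  by_cases hij : i = j
  · by_cases hg : g = g'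
    · by_cases hb : b' < b
      · by_cases hb1 : b' + 1 = b
        · left; simp [hij, hg, hb, hb1]
        · right; left; simp [hij, hg, hb, hb1]; omega
      · by_cases hb1 : b' = b + 1
        · left
          have : ¬ (b + 1 < b) := by omega
          simp [hij, hg, hb1, this]
        · right; right; left
          have : b ≠ b' := fun h => hne ⟨hij, hg, h⟩
          simp [hij, hg, hb, hb1]; omega
    · left; simp [hij, hg]
  · by_cases hb : b = KK k * anc ord i j g'
    · left
      rw [if_neg hij, if_pos hb]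
      exact ⟨rfl, Or.inr (Or.inr ⟨hij, hb⟩)⟩
    · right; right; right
      rw [if_neg hij, if_neg hb]
      exact ⟨hij, hb, rfl⟩

lemma KK_anc_le (h : OrdOK n ord) {i j : ℕ} {g : Bool} (hi : i < n) (hj : j < n) (hij : i ≠ j) :
    KK k * anc ord i j g + KK k ≤ HH k n := by
  have h1 := anc_le h (g := g) hi hj hij
  have hn : 2 ≤ n := by omega
  unfold HH
  calc KK k * anc ord i j g + KK k = KK k * (anc ord i j g + 1) := by ring
    _ ≤ KK k * (2 * n - 1) := Nat.mul_le_mul_left _ (by omega)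

lemma anc_rho_lt (h : OrdOK n ord) {i j : ℕ} {g g' : Bool} {b' : ℕ} (hb' : b' ≤ HH k n) :
    (if decide (i < j) = g' then (2 * HH k n + 2) - off k n (KK k * anc ord j i g) b'
      else off k n (KK k * anc ord j i g) b') < MM k n := by
  have := off_le (k := k) (n := n) (y := KK k * anc ord j i g) hb'
  unfold MM
  split_ifs <;> omega

/-- two different partners with the same code: the code is the rigid one -/
lemma code_rigid (h : OrdOK n ord) {i j j' : ℕ} {g g' g'' : Bool} {b b' b'' : ℕ}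
    (hi : i < n) (hj : j < n) (hj' : j' < n) (_hb : b ≤ HH k n) (hb' : b' ≤ HH k n)
    (hb'' : b'' ≤ HH k n)
    (hne : ¬ (i = j ∧ g = g' ∧ b = b')) (hne' : ¬ (i = j' ∧ g = g'' ∧ b = b''))
    (hne2 : ¬ (j = j' ∧ g' = g'' ∧ b' = b''))
    (he : code k n ord i g b j g' b' = code k n ord i g b j' g'' b'') :
    code k n ord i g b j g' b' = rig k n b := by
  have hMH : HH k n < MM k n := by unfold MM; omega
  rcases code_cases k n ord i g b j g' b' hne with ⟨h1, -⟩ | h1 | h1 | h1
  · exact h1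
  all_goals
    rcases code_cases k n ord i g b j' g'' b'' hne' with ⟨h2, -⟩ | h2 | h2 | h2
    · rw [he, h2]
  -- A
  · obtain ⟨e1, e2, e3, e4⟩ := h1
    obtain ⟨f1, f2, f3, f4⟩ := h2
    rw [e4, f4] at he
    obtain ⟨-, hr⟩ := divmod_eq (by omega) (by omega) he
    exact absurd ⟨e1.symm.trans f1, e2.symm.trans f2, hr⟩ hne2
  · obtain ⟨e1, e2, e3, e4⟩ := h1
    obtain ⟨f1, f2, f3, f4⟩ := h2
    rw [e4, f4] at he
    obtain ⟨hq, hr⟩ := divmod_eq (by omega) (by omega) he
    omega
  · obtain ⟨e1, e2, e3, e4⟩ := h1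
    obtain ⟨f1, f2, f3⟩ := h2
    rw [e4, f3] at he
    obtain ⟨hq, hr⟩ := divmod_eq (by omega) (anc_rho_lt h hb'') he
    omega
  -- A'
  · obtain ⟨e1, e2, e3, e4⟩ := h1
    obtain ⟨f1, f2, f3, f4⟩ := h2
    rw [e4, f4] at he
    obtain ⟨hq, hr⟩ := divmod_eq (by omega) (by omega) he
    omega
  · obtain ⟨e1, e2, e3, e4⟩ := h1
    obtain ⟨f1, f2, f3, f4⟩ := h2
    rw [e4, f4] at he
    obtain ⟨hq, hr⟩ := divmod_eq (by omega) (by omega) he
    exact absurd ⟨e1.symm.trans f1, e2.symm.trans f2, by omega⟩ hne2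
  · obtain ⟨e1, e2, e3, e4⟩ := h1
    obtain ⟨f1, f2, f3⟩ := h2
    rw [e4, f3] at he
    obtain ⟨hq, hr⟩ := divmod_eq (by omega) (anc_rho_lt h hb'') he
    omega
  -- C
  · obtain ⟨e1, e2, e3⟩ := h1
    obtain ⟨f1, f2, f3, f4⟩ := h2
    rw [e3, f4] at he
    obtain ⟨hq, hr⟩ := divmod_eq (anc_rho_lt h hb') (by omega) he
    omega
  · obtain ⟨e1, e2, e3⟩ := h1
    obtain ⟨f1, f2, f3, f4⟩ := h2
    rw [e3, f4] at he
    obtain ⟨hq, hr⟩ := divmod_eq (anc_rho_lt h hb') (by omega) he
    omega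
  · obtain ⟨e1, e2, e3⟩ := h1
    obtain ⟨f1, f2, f3⟩ := h2
    rw [e3, f3] at he
    obtain ⟨hq, hr⟩ := divmod_eq (anc_rho_lt h hb') (anc_rho_lt h hb'') he
    have hK : 0 < KK k := by unfold KK; omega
    have ha : anc ord i j g' = anc ord i j' g'' :=
      Nat.eq_of_mul_eq_mul_left hK (by omega)
    obtain ⟨hjj, hgg⟩ := anc_inj h hi hj hj' e1 f1 ha
    subst hjj; subst hgg
    have hy : KK k * anc ord j i g ≤ HH k n := by
      have := KK_anc_le (k := k) h (g := g) hj hi (Ne.symm e1)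
      omega
    have ho1 := off_le (k := k) (n := n) (y := KK k * anc ord j i g) hb'
    have ho2 := off_le (k := k) (n := n) (y := KK k * anc ord j i g) hb''
    have : off k n (KK k * anc ord j i g) b' = off k n (KK k * anc ord j i g) b'' := by
      split_ifs at hr
      · omega
      · exact hr
    exact absurd ⟨rfl, rfl, off_inj hy hb' hb'' this⟩ hne2

end codes

/-! ### First stage: path edges -/

variable {X : Type}

/-- path edges (walls, outer path, chords; the edges at the poles are not counted) -/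
def P1 : Vx X → Vx X → Prop
  | Vx.wl q, Vx.wl q' => q' = q + 1 ∨ q = q' + 1
  | Vx.wr q, Vx.wr q' => q' = q + 1 ∨ q = q' + 1
  | Vx.om q, Vx.om q' => q' = q + 1 ∨ q = q' + 1
  | Vx.ch x t, Vx.ch y t' => x = y ∧ (t' = t + 1 ∨ t = t' + 1)
  | _, _ => False

/-- position on the path -/
def pp : Vx X → ℕ
  | Vx.T => 0
  | Vx.B => 0
  | Vx.wl q => q
  | Vx.wr q => q
  | Vx.om q => q
  | Vx.ch _ t => t

/-- length of the path -/
def len (C : ChordSys) : Vx C.X → ℕ
  | Vx.T => 1
  | Vx.B => 1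
  | Vx.wl _ => C.Q
  | Vx.wr _ => C.Q
  | Vx.om _ => C.W
  | Vx.ch _ _ => C.N

lemma P1_pp {u v : Vx X} (h : P1 u v) : pp v = pp u + 1 ∨ pp u = pp v + 1 := by
  cases u <;> cases v <;> simp only [P1] at h <;> simp only [pp]
  · exact h
  · exact h
  · exact h
  · exact h.2

lemma P1_len (C : ChordSys) {u v : Vx C.X} (h : P1 u v) : len C u = len C v := by
  cases u <;> cases v <;> simp only [P1] at h <;> rfl

lemma P1_back {u v w : Vx X} (h : P1 u v) (h' : P1 v w) (hp : pp u = pp w) : u = w := by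
  cases u <;> cases v <;> simp only [P1] at h <;> cases w <;> simp only [P1] at h' <;>
    simp only [pp] at hp <;> try subst hp
  · rfl
  · rfl
  · rfl
  · rw [h.1, h'.1]

lemma valid_lt (C : ChordSys) {v : Vx C.X} (h : C.Valid v) : pp v < len C v := by
  cases v <;> simp only [pp, len] <;> first | exact h | omega

/-- special vertices of the first stage -/
def S1 (C : ChordSys) (L : ℕ) (v : Vx C.X) : Prop := L ∣ pp v ∨ pp v + 1 = len C v

lemma P1_symm {u v : Vx X} (h : P1 u v) : P1 v u := by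
  cases u <;> cases v <;> simp only [P1] at h ⊢
  · omega
  · omega
  · omega
  · exact ⟨h.1.symm, h.2.symm⟩

/-- non-path edges -/
def E2 (C : ChordSys) (u v : Vx C.X) : Prop := C.Adj u v ∧ ¬ P1 u v

lemma E2.symm {C : ChordSys} {u v : Vx C.X} (h : E2 C u v) : E2 C v u :=
  ⟨h.1.symm, fun h' => h.2 (P1_symm h')⟩

section concrete

variable {k n : ℕ} {ord : ℕ → ℕ → ℕ}

lemma adj0_S1 {u v : Vx (csys k n ord).X} (h : (csys k n ord).Adj0 u v) (hP : ¬ P1 u v) :
    S1 (csys k n ord) (LL k n) u ∧ S1 (csys k n ord) (LL k n) v := by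
  cases u <;> cases v <;> simp only [ChordSys.Adj0] at h <;> simp only [P1] at hP <;>
    simp only [S1, pp, len]
  · subst h; exact ⟨Or.inl (dvd_zero _), Or.inl (dvd_zero _)⟩
  · subst h; exact ⟨Or.inl (dvd_zero _), Or.inl (dvd_zero _)⟩
  · subst h; exact ⟨Or.inl (dvd_zero _), Or.inl (dvd_zero _)⟩
  · exact ⟨Or.inl (dvd_zero _), Or.inr h⟩
  · exact ⟨Or.inl (dvd_zero _), Or.inr h⟩
  · exact ⟨Or.inl (dvd_zero _), Or.inr h⟩
  · exact absurd (Or.inl h) hP
  · exact absurd (Or.inl h) hP
  · exact absurd (Or.inl h) hP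
  · obtain ⟨rfl, rfl⟩ := h
    exact ⟨Or.inl (dvd_zero _), Or.inl (Dvd.intro _ rfl)⟩
  · obtain ⟨h1, rfl⟩ := h
    exact ⟨Or.inr h1, Or.inl (Dvd.intro _ rfl)⟩
  · rcases h with ⟨h1, h2⟩ | ⟨h1, h2, rfl, rfl⟩
    · exact absurd ⟨h1, Or.inl h2⟩ hP
    · exact ⟨Or.inl (Dvd.intro _ rfl), Or.inl (Dvd.intro _ rfl)⟩

lemma E2_S1 {u v : Vx (csys k n ord).X} (h : E2 (csys k n ord) u v) :
    S1 (csys k n ord) (LL k n) u ∧ S1 (csys k n ord) (LL k n) v := by
  rcases h.1 with h1 | h1
  · exact adj0_S1 h1 h.2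
  · exact (adj0_S1 h1 (fun h' => h.2 (P1_symm h'))).symm

lemma dvd_len (v : Vx (csys k n ord).X) :
    LL k n ∣ len (csys k n ord) v ∨ len (csys k n ord) v = 1 := by
  cases v <;> simp only [len]
  · right; trivial
  · right; trivial
  · exact Or.inl (Dvd.intro _ rfl)
  · exact Or.inl (Dvd.intro _ rfl)
  · exact Or.inl (dvd_refl _)
  · exact Or.inl (Dvd.intro _ rfl)

end concrete

/-- cyclic sequences of vertices -/
structure Cyc (C : ChordSys) (r : ℕ) (u : ℕ → Vx C.X) : Prop where
  r3 : 3 ≤ r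
  per : ∀ t, u (t + r) = u t
  val : ∀ t, C.Valid (u t)
  adj : ∀ t, C.Adj (u t) (u (t + 1))
  inj : ∀ s a b, a < r → b < r → u (s + a) = u (s + b) → a = b

namespace Cyc

lemma ne2 {C : ChordSys} {r : ℕ} {u : ℕ → Vx C.X} (hc : Cyc C r u) (t : ℕ) :
    u (t + 2) ≠ u t := by
  intro h
  have := hc.inj t 2 0 (by have := hc.r3; omega) (by have := hc.r3; omega) (by simpa using h)
  omega

variable {k n : ℕ} {ord : ℕ → ℕ → ℕ} {r : ℕ} {u : ℕ → Vx (csys k n ord).X}

lemma no_P1 (hc : Cyc (csys k n ord) r u) (hr : r < k) : ∀ t, ¬ P1 (u t) (u (t + 1)) := by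
  have hr3 := hc.r3
  have hL : k + 20 ≤ LL k n := by unfold LL; omega
  have hmono : ∀ s m, (∀ i, i < m → P1 (u (s + i)) (u (s + i + 1))) →
      (pp (u (s + m)) : ℤ) = pp (u s) + m ∨ (pp (u (s + m)) : ℤ) = pp (u s) - m := by
    intro s m hP
    have := mono_walk (fun j => (pp (u (s + j)) : ℤ)) m ?_ ?_
    · rcases this with h | h
      · left; simpa using h m le_rfl
      · right; simpa using h m le_rfl
    · intro j hj
      rcases P1_pp (hP j hj) with h | h
      · left; rw [show s + (j + 1) = s + j + 1 by ring, h]; push_cast; ring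
      · right; rw [show s + (j + 1) = s + j + 1 by ring, h]; push_cast; ring
    · intro j hj h
      have h0 := hP j (by omega)
      have h1 := hP (j + 1) (by omega)
      rw [show s + (j + 1) = s + j + 1 by ring] at h1
      have h' : pp (u (s + (j + 2))) = pp (u (s + j)) := by exact_mod_cast h
      rw [show s + (j + 2) = s + j + 1 + 1 by ring] at h'
      exact hc.ne2 (s + j) (P1_back h0 h1 h'.symm).symm
  refine run_seq P1 (S1 (csys k n ord) (LL k n)) r u hr3 hc.per (fun t ht => E2_S1 ⟨hc.adj t, ht⟩)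
    ?_ ?_
  · intro s m hm1 hm2 hP hs1 hs2
    have hlen : ∀ i, i ≤ m → len (csys k n ord) (u (s + i)) = len (csys k n ord) (u s) := by
      intro i
      induction i with
      | zero => intro _; rfl
      | succ i ih =>
        intro hi
        rw [← ih (by omega)]
        exact (P1_len (csys k n ord) (hP i (by omega))).symm
    have h0 := valid_lt _ (hc.val s)
    have h1 := valid_lt _ (hc.val (s + m))
    rw [hlen m le_rfl] at h1
    unfold S1 at hs1 hs2
    rw [hlen m le_rfl] at hs2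
    have hd : LL k n ∣ len (csys k n ord) (u s) := by
      rcases dvd_len (u s) with h | h
      · exact h
      · rcases hmono s m hP with h' | h' <;> omega
    have hbig : ∀ d, 1 ≤ d → d < LL k n → ¬ LL k n ∣ d := fun d h1 h2 h3 =>
      absurd (Nat.le_of_dvd (by omega) h3) (by omega)
    rcases hmono s m hP with h' | h'
    · have h' : pp (u (s + m)) = pp (u s) + m := by exact_mod_cast h'
      rcases hs1 with a | a <;> rcases hs2 with b | b
      · rw [h'] at b
        exact hbig m hm1 (by omega) ((Nat.dvd_add_right a).1 b)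
      · rw [← b, h'] at hd
        rw [add_assoc] at hd
        exact hbig (m + 1) (by omega) (by omega) ((Nat.dvd_add_right a).1 hd)
      · omega
      · omega
    · have h' : pp (u s) = pp (u (s + m)) + m := by
        have : (pp (u s) : ℤ) = pp (u (s + m)) + m := by rw [h']; ring
        exact_mod_cast this
      rcases hs1 with a | a <;> rcases hs2 with b | b
      · rw [h'] at a
        exact hbig m hm1 (by omega) ((Nat.dvd_add_right b).1 a)
      · omega
      · rw [← a, h'] at hd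
        rw [add_assoc] at hd
        exact hbig (m + 1) (by omega) (by omega) ((Nat.dvd_add_right b).1 hd)
      · omega
  · intro hall
    have := hmono 0 r (fun i _ => by simpa using hall i)
    rw [hc.per 0] at this
    rcases this with h | h <;> omega

lemma e2 (hc : Cyc (csys k n ord) r u) (hr : r < k) (t : ℕ) :
    E2 (csys k n ord) (u t) (u (t + 1)) := ⟨hc.adj t, hc.no_P1 hr t⟩

/-- consecutive non-path edges at a wall vertex are impossible -/
lemma wl_nb {q : ℕ} {w : Vx (csys k n ord).X} (h : E2 (csys k n ord) (Vx.wl q) w) :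
    (w = Vx.T ∧ q = 0) ∨ (w = Vx.B ∧ q + 1 = (csys k n ord).Q) ∨
      ∃ x, w = Vx.ch x 0 ∧ q = (csys k n ord).la x := by
  obtain ⟨h1, h2⟩ := h
  cases w with
  | T => left; rcases h1 with h1 | h1 <;> simp only [ChordSys.Adj0] at h1; exact ⟨rfl, h1⟩
  | B => right; left; rcases h1 with h1 | h1 <;> simp only [ChordSys.Adj0] at h1; exact ⟨rfl, h1⟩
  | wl q' =>
    exfalso; apply h2; simp only [P1]
    rcases h1 with h1 | h1 <;> simp only [ChordSys.Adj0] at h1
    · exact Or.inl h1
    · exact Or.inr h1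
  | wr q' => rcases h1 with h1 | h1 <;> simp only [ChordSys.Adj0] at h1
  | om q' => rcases h1 with h1 | h1 <;> simp only [ChordSys.Adj0] at h1
  | ch x t =>
    right; right
    rcases h1 with h1 | h1 <;> simp only [ChordSys.Adj0] at h1
    obtain ⟨rfl, h3⟩ := h1
    exact ⟨x, rfl, h3⟩

lemma wr_nb {q : ℕ} {w : Vx (csys k n ord).X} (h : E2 (csys k n ord) (Vx.wr q) w) :
    (w = Vx.T ∧ q = 0) ∨ (w = Vx.B ∧ q + 1 = (csys k n ord).Q) ∨
      ∃ x, w = Vx.ch x ((csys k n ord).N - 1) ∧ q = (csys k n ord).ra x := by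
  obtain ⟨h1, h2⟩ := h
  cases w with
  | T => left; rcases h1 with h1 | h1 <;> simp only [ChordSys.Adj0] at h1; exact ⟨rfl, h1⟩
  | B => right; left; rcases h1 with h1 | h1 <;> simp only [ChordSys.Adj0] at h1; exact ⟨rfl, h1⟩
  | wr q' =>
    exfalso; apply h2; simp only [P1]
    rcases h1 with h1 | h1 <;> simp only [ChordSys.Adj0] at h1
    · exact Or.inl h1
    · exact Or.inr h1
  | wl q' => rcases h1 with h1 | h1 <;> simp only [ChordSys.Adj0] at h1
  | om q' => rcases h1 with h1 | h1 <;> simp only [ChordSys.Adj0] at h1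
  | ch x t =>
    right; right
    rcases h1 with h1 | h1 <;> simp only [ChordSys.Adj0] at h1
    obtain ⟨h3, h4⟩ := h1
    refine ⟨x, ?_, h4⟩
    rw [← h3]; rfl

lemma om_nb {q : ℕ} {w : Vx (csys k n ord).X} (h : E2 (csys k n ord) (Vx.om q) w) :
    (w = Vx.T ∧ q = 0) ∨ (w = Vx.B ∧ q + 1 = (csys k n ord).W) := by
  obtain ⟨h1, h2⟩ := h
  cases w with
  | T => left; rcases h1 with h1 | h1 <;> simp only [ChordSys.Adj0] at h1; exact ⟨rfl, h1⟩
  | B => right; rcases h1 with h1 | h1 <;> simp only [ChordSys.Adj0] at h1; exact ⟨rfl, h1⟩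
  | om q' =>
    exfalso; apply h2; simp only [P1]
    rcases h1 with h1 | h1 <;> simp only [ChordSys.Adj0] at h1
    · exact Or.inl h1
    · exact Or.inr h1
  | wl q' => rcases h1 with h1 | h1 <;> simp only [ChordSys.Adj0] at h1
  | wr q' => rcases h1 with h1 | h1 <;> simp only [ChordSys.Adj0] at h1
  | ch x t => rcases h1 with h1 | h1 <;> simp only [ChordSys.Adj0] at h1

lemma T_nb {w : Vx (csys k n ord).X} (h : E2 (csys k n ord) Vx.T w) :
    ∃ q, w = Vx.wl q ∨ w = Vx.wr q ∨ w = Vx.om q := by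
  obtain ⟨h1, h2⟩ := h
  cases w with
  | T => rcases h1 with h1 | h1 <;> simp only [ChordSys.Adj0] at h1
  | B => rcases h1 with h1 | h1 <;> simp only [ChordSys.Adj0] at h1
  | wl q' => exact ⟨q', Or.inl rfl⟩
  | wr q' => exact ⟨q', Or.inr (Or.inl rfl)⟩
  | om q' => exact ⟨q', Or.inr (Or.inr rfl)⟩
  | ch x t => rcases h1 with h1 | h1 <;> simp only [ChordSys.Adj0] at h1

lemma B_nb {w : Vx (csys k n ord).X} (h : E2 (csys k n ord) Vx.B w) :
    ∃ q, w = Vx.wl q ∨ w = Vx.wr q ∨ w = Vx.om q := by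
  obtain ⟨h1, h2⟩ := h
  cases w with
  | T => rcases h1 with h1 | h1 <;> simp only [ChordSys.Adj0] at h1
  | B => rcases h1 with h1 | h1 <;> simp only [ChordSys.Adj0] at h1
  | wl q' => exact ⟨q', Or.inl rfl⟩
  | wr q' => exact ⟨q', Or.inr (Or.inl rfl)⟩
  | om q' => exact ⟨q', Or.inr (Or.inr rfl)⟩
  | ch x t => rcases h1 with h1 | h1 <;> simp only [ChordSys.Adj0] at h1

lemma ch_nb {x y : (csys k n ord).X} {t t' : ℕ}
    (h : E2 (csys k n ord) (Vx.ch x t) (Vx.ch y t')) :
    x ≠ y ∧ (csys k n ord).cross x y ∧ t = (csys k n ord).pos x y ∧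
      t' = (csys k n ord).pos y x := by
  have hsy : ∀ x y, (csys k n ord).cross x y → (csys k n ord).cross y x := by
    intro x y h
    exact h.symm
  obtain ⟨h1, h2⟩ := h
  simp only [P1] at h2
  rcases h1 with h1 | h1 <;> simp only [ChordSys.Adj0] at h1 <;> rcases h1 with h1 | h1
  · exact absurd ⟨h1.1, Or.inl h1.2⟩ h2
  · exact h1
  · exact absurd ⟨h1.1.symm, Or.inr h1.2⟩ h2
  · exact ⟨fun h => h1.1 h.symm, hsy _ _ h1.2.1, h1.2.2.2, h1.2.2.1⟩

lemma lkey_false (H b : ℕ) : lkey H false b = if b = 0 then H else H + 1 + b := by simp [lkey]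

lemma lkey_true (H b : ℕ) : lkey H true b = if b = 0 then H + 1 else H - b := by simp [lkey]

lemma rkey_false (H b : ℕ) : rkey H false b = if b = H then H else 2 * H + 1 - b := by
  simp [rkey]

lemma rkey_true (H b : ℕ) : rkey H true b = if b = H then H + 1 else b := by simp [rkey]

lemma lkey_le (H : ℕ) (g : Bool) (b : ℕ) (hb : b ≤ H) : lkey H g b ≤ 2 * H + 1 := by
  cases g <;> simp only [lkey_false, lkey_true] <;> split_ifs <;> omega

lemma rkey_le (H : ℕ) (g : Bool) (b : ℕ) (hb : b ≤ H) : rkey H g b ≤ 2 * H + 1 := by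
  cases g <;> simp only [rkey_false, rkey_true] <;> split_ifs <;> omega

lemma lkey_inj {H : ℕ} {g g' : Bool} {b b' : ℕ} (hb : b ≤ H) (hb' : b' ≤ H)
    (h : lkey H g b = lkey H g' b') : g = g' ∧ b = b' := by
  cases g <;> cases g' <;> simp only [lkey_false, lkey_true] at h <;> split_ifs at h <;>
    first
      | (exfalso; omega)
      | (refine ⟨rfl, ?_⟩; omega)

lemma rkey_inj {H : ℕ} {g g' : Bool} {b b' : ℕ} (hb : b ≤ H) (hb' : b' ≤ H)
    (h : rkey H g b = rkey H g' b') : g = g' ∧ b = b' := by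
  cases g <;> cases g' <;> simp only [rkey_false, rkey_true] at h <;> split_ifs at h <;>
    first
      | (exfalso; omega)
      | (refine ⟨rfl, ?_⟩; omega)

lemma cross_tips {H : ℕ} {g g' : Bool} {b b' : ℕ} (hb : b ≤ H) (hb' : b' ≤ H)
    (hg : g ≠ g')
    (h : (lkey H g b < lkey H g' b' ∧ rkey H g' b' < rkey H g b) ∨
      (lkey H g' b' < lkey H g b ∧ rkey H g b < rkey H g' b')) :
    b = b' ∧ (b = 0 ∨ b = H) := by
  cases g <;> cases g' <;> simp only [ne_eq, not_true_eq_false] at hg <;>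
    simp only [lkey_false, lkey_true, rkey_false, rkey_true] at h <;> split_ifs at h <;> omega

/-- keys: a number `i * m + a` with `a < m` -/
lemma tube_eq {m i j a b : ℕ} (ha : a < m) (hb : b < m) (h : i * m + a = j * m + b) :
    i = j ∧ a = b := divmod_eq ha hb h

lemma la_inj {x y : (csys k n ord).X} (h : (csys k n ord).la x = (csys k n ord).la y) :
    x = y := by
  obtain ⟨i, g, b⟩ := x
  obtain ⟨j, g', b'⟩ := y
  have hL : 0 < LL k n := by unfold LL; omega
  have h1 : lrank k n i g b = lrank k n j g' b' := by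
    have := Nat.eq_of_mul_eq_mul_left hL h
    simpa using this
  unfold lrank at h1
  have hb := b.2
  have hb' := b'.2
  have e1 := lkey_le (HH k n) g b (by omega)
  have e2 := lkey_le (HH k n) g' b' (by omega)
  obtain ⟨h2, h3⟩ := tube_eq (by omega) (by omega) h1
  obtain ⟨h4, h5⟩ := lkey_inj (by omega) (by omega) h3
  have h6 := Fin.ext h2
  have h7 := Fin.ext h5
  subst h4 h6 h7
  rfl

lemma ra_inj {x y : (csys k n ord).X} (h : (csys k n ord).ra x = (csys k n ord).ra y) :
    x = y := by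
  obtain ⟨i, g, b⟩ := x
  obtain ⟨j, g', b'⟩ := y
  have hL : 0 < LL k n := by unfold LL; omega
  have h1 : rrank k n i g b = rrank k n j g' b' := by
    have := Nat.eq_of_mul_eq_mul_left hL h
    simpa using this
  unfold rrank at h1
  have hb := b.2
  have hb' := b'.2
  have e1 := rkey_le (HH k n) g b (by omega)
  have e2 := rkey_le (HH k n) g' b' (by omega)
  obtain ⟨h2, h3⟩ := tube_eq (by omega) (by omega) h1
  obtain ⟨h4, h5⟩ := rkey_inj (by omega) (by omega) h3
  have hi := i.2
  have hj := j.2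
  have h6 := Fin.ext (show (i : ℕ) = j by omega)
  have h7 := Fin.ext h5
  subst h4 h6 h7
  rfl

/-- every vertex of a short cycle without path edges is a chord link -/
lemma is_ch (hc : Cyc (csys k n ord) r u) (hr : r < k) (t : ℕ) : ∃ x s, u t = Vx.ch x s := by
  have hL : 20 ≤ LL k n := by unfold LL; omega
  have hnd : ∀ a, LL k n ∣ a → ¬ LL k n ∣ a + 1 := by
    intro a h1 h2
    have := (Nat.dvd_add_right h1).1 h2
    have := Nat.le_of_dvd (by omega) this
    omega
  have hla : ∀ x, LL k n ∣ (csys k n ord).la x ∧ 1 ≤ (csys k n ord).la x := fun x =>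
    ⟨Dvd.intro _ rfl, by
      change 1 ≤ LL k n * _
      exact Nat.mul_pos (by omega) (by omega)⟩
  have hra : ∀ x, LL k n ∣ (csys k n ord).ra x ∧ 1 ≤ (csys k n ord).ra x := fun x =>
    ⟨Dvd.intro _ rfl, by
      change 1 ≤ LL k n * _
      exact Nat.mul_pos (by omega) (by omega)⟩
  have hQ : LL k n ∣ (csys k n ord).Q := Dvd.intro _ rfl
  have hW : LL k n ∣ (csys k n ord).W := dvd_refl _
  -- no wall vertices
  have key : ∀ t, (∀ q, u (t + 1) ≠ Vx.wl q) ∧ (∀ q, u (t + 1) ≠ Vx.wr q) ∧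
      (∀ q, u (t + 1) ≠ Vx.om q) := by
    intro t
    have e1 := (hc.e2 hr t).symm
    have e2 := hc.e2 hr (t + 1)
    have hne := hc.ne2 t
    refine ⟨fun q hq => ?_, fun q hq => ?_, fun q hq => ?_⟩
    · rw [hq] at e1 e2
      rcases wl_nb e1 with ⟨a1, a2⟩ | ⟨a1, a2⟩ | ⟨x, a1, a2⟩ <;>
        rcases wl_nb e2 with ⟨b1, b2⟩ | ⟨b1, b2⟩ | ⟨y, b1, b2⟩
      · exact hne (b1.trans a1.symm)
      · rw [a2] at b2; rw [← b2] at hQ; exact hnd 0 (dvd_zero _) hQ
      · have := (hla y).2; omega
      · rw [b2] at a2; rw [← a2] at hQ; exact hnd 0 (dvd_zero _) hQ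
      · exact hne (b1.trans a1.symm)
      · rw [b2] at a2; rw [← a2] at hQ; exact hnd _ (hla y).1 hQ
      · have := (hla x).2; omega
      · rw [a2] at b2; rw [← b2] at hQ; exact hnd _ (hla x).1 hQ
      · have := la_inj (a2.symm.trans b2)
        subst this
        exact hne (b1.trans a1.symm)
    · rw [hq] at e1 e2
      rcases wr_nb e1 with ⟨a1, a2⟩ | ⟨a1, a2⟩ | ⟨x, a1, a2⟩ <;>
        rcases wr_nb e2 with ⟨b1, b2⟩ | ⟨b1, b2⟩ | ⟨y, b1, b2⟩
      · exact hne (b1.trans a1.symm)
      · rw [a2] at b2; rw [← b2] at hQ; exact hnd 0 (dvd_zero _) hQ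
      · have := (hra y).2; omega
      · rw [b2] at a2; rw [← a2] at hQ; exact hnd 0 (dvd_zero _) hQ
      · exact hne (b1.trans a1.symm)
      · rw [b2] at a2; rw [← a2] at hQ; exact hnd _ (hra y).1 hQ
      · have := (hra x).2; omega
      · rw [a2] at b2; rw [← b2] at hQ; exact hnd _ (hra x).1 hQ
      · have := ra_inj (a2.symm.trans b2)
        subst this
        exact hne (b1.trans a1.symm)
    · rw [hq] at e1 e2
      rcases om_nb e1 with ⟨a1, a2⟩ | ⟨a1, a2⟩ <;> rcases om_nb e2 with ⟨b1, b2⟩ | ⟨b1, b2⟩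
      · exact hne (b1.trans a1.symm)
      · rw [a2] at b2; rw [← b2] at hW; exact hnd 0 (dvd_zero _) hW
      · rw [b2] at a2; rw [← a2] at hW; exact hnd 0 (dvd_zero _) hW
      · exact hne (b1.trans a1.symm)
  have key' : ∀ t, (∀ q, u t ≠ Vx.wl q) ∧ (∀ q, u t ≠ Vx.wr q) ∧ (∀ q, u t ≠ Vx.om q) := by
    intro t
    have h3 := hc.r3
    rw [← hc.per t, show t + r = (t + (r - 1)) + 1 by omega]
    exact key _
  have e2 := hc.e2 hr t
  cases hut : u t with
  | T =>
    rw [hut] at e2
    obtain ⟨q, h | h | h⟩ := T_nb e2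
    · exact absurd h ((key' (t + 1)).1 q)
    · exact absurd h ((key' (t + 1)).2.1 q)
    · exact absurd h ((key' (t + 1)).2.2 q)
  | B =>
    rw [hut] at e2
    obtain ⟨q, h | h | h⟩ := B_nb e2
    · exact absurd h ((key' (t + 1)).1 q)
    · exact absurd h ((key' (t + 1)).2.1 q)
    · exact absurd h ((key' (t + 1)).2.2 q)
  | wl q => exact absurd hut ((key' t).1 q)
  | wr q => exact absurd hut ((key' t).2.1 q)
  | om q => exact absurd hut ((key' t).2.2 q)
  | ch x s => exact ⟨x, s, rfl⟩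

/-- rigid code: the three types of edges -/
lemma rig_cases {i : ℕ} {g : Bool} {b j : ℕ} {g' : Bool} {b' : ℕ} (h : OrdOK n ord)
    (hb : b ≤ HH k n) (hb' : b' ≤ HH k n)
    (hne : ¬ (i = j ∧ g = g' ∧ b = b')) (hc : code k n ord i g b j g' b' = rig k n b) :
    (i = j ∧ g = g' ∧ (b' + 1 = b ∨ b' = b + 1)) ∨ (i = j ∧ g ≠ g') ∨
        (i ≠ j ∧ b = KK k * anc ord i j g') := by
  have hMH : HH k n < MM k n := by unfold MM; omega
  rcases code_cases k n ord i g b j g' b' hne with ⟨-, h1⟩ | h1 | h1 | h1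
  · exact h1
  · exfalso
    obtain ⟨e1, e2, e3, e4⟩ := h1
    rw [e4] at hc
    obtain ⟨hq, hr⟩ := divmod_eq (q' := 2 * b + 1) (r' := 0) (by omega) (by omega)
      (hc.trans (by unfold rig; ring))
    omega
  · exfalso
    obtain ⟨e1, e2, e3, e4⟩ := h1
    rw [e4] at hc
    obtain ⟨hq, hr⟩ := divmod_eq (q' := 2 * b + 1) (r' := 0) (by omega) (by omega)
      (hc.trans (by unfold rig; ring))
    omega
  · exfalso
    obtain ⟨e1, e2, e3⟩ := h1
    rw [e3] at hc
    obtain ⟨hq, hr⟩ := divmod_eq (q' := 2 * b + 1) (r' := 0) (anc_rho_lt h hb') (by omega)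
      (hc.trans (by unfold rig; ring))
    omega

lemma cross_same {i : Fin n} {g g' : Bool} {b b' : Fin (HH k n + 1)} (hg : g ≠ g')
    (h : (csys k n ord).cross (i, g, b) (i, g', b')) :
    (b : ℕ) = b' ∧ ((b : ℕ) = 0 ∨ (b : ℕ) = HH k n) := by
  have h1 : (lrank k n i g b < lrank k n i g' b' ∧ rrank k n i g' b' < rrank k n i g b) ∨
    (lrank k n i g' b' < lrank k n i g b ∧ rrank k n i g b < rrank k n i g' b') := h
  unfold lrank rrank at h1
  exact cross_tips (by omega) (by omega) hg (by omega)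

/-- the data of a short cycle of rigid links -/
lemma rigid_data (h : OrdOK n ord) (hc : Cyc (csys k n ord) r u) (hr : r < k) :
    ∃ X : ℕ → (csys k n ord).X, (∀ t, u t = Vx.ch (X t) (LL k n * (rig k n (X t).2.2 + 1))) ∧
      (∀ t, X t ≠ X (t + 1)) ∧ (∀ t, (csys k n ord).cross (X t) (X (t + 1))) ∧
      (∀ t, code k n ord (X t).1 (X t).2.1 (X t).2.2 (X (t + 1)).1 (X (t + 1)).2.1
        (X (t + 1)).2.2 = rig k n (X t).2.2) ∧
      (∀ t, code k n ord (X (t + 1)).1 (X (t + 1)).2.1 (X (t + 1)).2.2 (X t).1 (X t).2.1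
        (X t).2.2 = rig k n (X (t + 1)).2.2) := by
  choose X s hX using fun t => hc.is_ch hr t
  have hL : 0 < LL k n := by unfold LL; omega
  have hr3 := hc.r3
  have hnb : ∀ t, X t ≠ X (t + 1) ∧ (csys k n ord).cross (X t) (X (t + 1)) ∧
      s t = (csys k n ord).pos (X t) (X (t + 1)) ∧
      s (t + 1) = (csys k n ord).pos (X (t + 1)) (X t) := by
    intro t
    have := hc.e2 hr t
    rw [hX t, hX (t + 1)] at this
    exact ch_nb this
  have hpos : ∀ x y, (csys k n ord).pos x y =
      LL k n * (code k n ord x.1 x.2.1 x.2.2 y.1 y.2.1 y.2.2 + 1) := fun x y => rfl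
  have hne' : ∀ x y : (csys k n ord).X, x ≠ y →
      ¬ ((x.1 : ℕ) = y.1 ∧ x.2.1 = y.2.1 ∧ (x.2.2 : ℕ) = y.2.2) := by
    rintro ⟨i, g, b⟩ ⟨j, g', b'⟩ hne ⟨h1, h2, h3⟩
    apply hne
    have h4 := Fin.ext h1
    have h5 := Fin.ext h3
    simp only at h2
    subst h4 h5 h2
    rfl
  have hX2 : ∀ t, X (t + 2) ≠ X t := by
    intro t he
    apply hc.ne2 t
    rw [hX (t + 2), hX t, he]
    have h1 := (hnb t)
    have h2 := (hnb (t + 1))
    have e1 : s (t + 2) = (csys k n ord).pos (X (t + 2)) (X (t + 1)) := h2.2.2.2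
    rw [e1, h1.2.2.1, he]
  have hcode : ∀ t, code k n ord (X (t + 1)).1 (X (t + 1)).2.1 (X (t + 1)).2.2
      (X t).1 (X t).2.1 (X t).2.2 = rig k n (X (t + 1)).2.2 := by
    intro t
    have h1 := hnb t
    have h2 := hnb (t + 1)
    have e := h1.2.2.2.symm.trans h2.2.2.1
    rw [hpos, hpos] at e
    have e' := Nat.eq_of_mul_eq_mul_left hL e
    refine code_rigid h (X (t + 1)).1.2 (X t).1.2 (X (t + 1 + 1)).1.2
      (Nat.lt_succ_iff.1 (X (t + 1)).2.2.2) (Nat.lt_succ_iff.1 (X t).2.2.2)
      (Nat.lt_succ_iff.1 (X (t + 1 + 1)).2.2.2) (hne' _ _ h1.1.symm) (hne' _ _ h2.1)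
      (hne' _ _ (hX2 t).symm) (Nat.add_right_cancel e')
  have hs : ∀ t, s (t + 1) = LL k n * (rig k n (X (t + 1)).2.2 + 1) := by
    intro t
    rw [(hnb t).2.2.2, hpos, hcode t]
  have hXper : ∀ t, X (t + r) = X t ∧ s (t + r) = s t := by
    intro t
    have := hc.per t
    rw [hX, hX t] at this
    injection this with h1 h2
    exact ⟨h1, h2⟩
  have hs' : ∀ t, s t = LL k n * (rig k n (X t).2.2 + 1) := by
    intro t
    rw [← (hXper t).2, ← (hXper t).1]
    rw [show t + r = (t + (r - 1)) + 1 by omega]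
    exact hs _
  refine ⟨X, fun t => ?_, fun t => (hnb t).1, fun t => (hnb t).2.1, fun t => ?_, hcode⟩
  · rw [hX t, hs' t]
  · have e := (hs' t).symm.trans (hnb t).2.2.1
    rw [hpos] at e
    exact (Nat.add_right_cancel (Nat.eq_of_mul_eq_mul_left hL e)).symm

/-- edges of the cycle of rigid links of one tube -/
def P2 (H : ℕ) (x y : ℕ × Bool × ℕ) : Prop :=
  x.1 = y.1 ∧ ((x.2.1 = y.2.1 ∧ (y.2.2 = x.2.2 + 1 ∨ x.2.2 = y.2.2 + 1)) ∨
    (x.2.1 ≠ y.2.1 ∧ x.2.2 = y.2.2 ∧ (x.2.2 = 0 ∨ x.2.2 = H)))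

/-- position on this cycle -/
def pi2 (H : ℕ) (x : ℕ × Bool × ℕ) : ZMod (2 * H + 2) :=
  if x.2.1 then ((2 * H + 1 - x.2.2 : ℕ) : ZMod (2 * H + 2)) else (x.2.2 : ZMod (2 * H + 2))

lemma cast_inj_of_lt {m a b : ℕ} (ha : a < m) (hb : b < m) (h : (a : ZMod m) = (b : ZMod m)) :
    a = b := by
  rw [ZMod.natCast_eq_natCast_iff'] at h
  rwa [Nat.mod_eq_of_lt ha, Nat.mod_eq_of_lt hb] at h

lemma pi2_inj {H : ℕ} {x y : ℕ × Bool × ℕ} (h1 : x.1 = y.1) (hx : x.2.2 ≤ H) (hy : y.2.2 ≤ H)
    (h : pi2 H x = pi2 H y) : x = y := by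
  obtain ⟨i, g, b⟩ := x
  obtain ⟨j, g', b'⟩ := y
  simp only at h1 hx hy
  subst h1
  unfold pi2 at h
  cases g <;> cases g' <;> simp only [if_true, Bool.false_eq_true, if_false] at h
  · rw [cast_inj_of_lt (by omega) (by omega) h]
  · have := cast_inj_of_lt (by omega) (by omega) h
    omega
  · have := cast_inj_of_lt (by omega) (by omega) h
    omega
  · have := cast_inj_of_lt (by omega) (by omega) h
    rw [show b = b' by omega]

lemma pi2_step {H : ℕ} {x y : ℕ × Bool × ℕ} (hx : x.2.2 ≤ H) (hy : y.2.2 ≤ H)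
    (h : P2 H x y) : pi2 H y = pi2 H x + 1 ∨ pi2 H y = pi2 H x - 1 := by
  obtain ⟨i, g, b⟩ := x
  obtain ⟨j, g', b'⟩ := y
  simp only at hx hy
  obtain ⟨-, h⟩ := h
  simp only at h
  have hz : ((2 * H + 1 : ℕ) : ZMod (2 * H + 2)) + 1 = 0 := by
    have := ZMod.natCast_self (2 * H + 2)
    push_cast at this ⊢
    linear_combination this
  rcases h with ⟨hg, h | h⟩ | ⟨hg, h, h2⟩
  · subst hg
    cases g
    · left
      unfold pi2
      simp only [Bool.false_eq_true, if_false]
      rw [h]; push_cast; ring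
    · right
      unfold pi2
      simp only [if_true]
      rw [eq_sub_iff_add_eq, ← Nat.cast_succ]
      congr 1; omega
  · subst hg
    cases g
    · right
      unfold pi2
      simp only [Bool.false_eq_true, if_false]
      rw [h]; push_cast; ring
    · left
      unfold pi2
      simp only [if_true]
      rw [← Nat.cast_succ]
      congr 1; omega
  · subst h
    cases g <;> cases g' <;> simp only [ne_eq, not_true_eq_false] at hg
    · rcases h2 with h2 | h2
      · right
        unfold pi2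
        simp only [if_true, Bool.false_eq_true, if_false]
        rw [eq_sub_iff_add_eq, h2]
        simpa using hz
      · left
        unfold pi2
        simp only [if_true, Bool.false_eq_true, if_false]
        rw [← Nat.cast_succ]
        congr 1; omega
    · rcases h2 with h2 | h2
      · left
        unfold pi2
        simp only [if_true, Bool.false_eq_true, if_false]
        rw [h2]
        simpa using hz.symm
      · right
        unfold pi2
        simp only [if_true, Bool.false_eq_true, if_false]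
        rw [eq_sub_iff_add_eq, ← Nat.cast_succ]
        congr 1; omega

/-- no short cycles -/
lemma not_short (h : OrdOK n ord) (hc : Cyc (csys k n ord) r u) : k ≤ r := by
  by_contra hcon
  have hr : r < k := by omega
  have hr3 := hc.r3
  obtain ⟨X, hX, hXne, hXc, hXr, hXl⟩ := hc.rigid_data h hr
  set Y : ℕ → ℕ × Bool × ℕ := fun t => ((X t).1, (X t).2.1, (X t).2.2) with hY
  have hXY : ∀ s t, Y s = Y t → X s = X t := by
    intro s t he
    have e1 := congrArg Prod.fst he
    have e2 := congrArg (fun z => z.2.1) he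
    have e3 := congrArg (fun z => z.2.2) he
    simp only [hY] at e1 e2 e3
    exact Prod.ext (Fin.ext e1) (Prod.ext e2 (Fin.ext e3))
  have hY2 : ∀ t, Y (t + 2) ≠ Y t := by
    intro t he
    apply hc.ne2 t
    rw [hX (t + 2), hX t, hXY _ _ he]
  have hYper : ∀ t, Y (t + r) = Y t := by
    intro t
    have := hc.per t
    rw [hX, hX t] at this
    injection this with h1 h2
    simp only [hY, h1]
  have hbH : ∀ t, (Y t).2.2 ≤ HH k n := fun t => Nat.lt_succ_iff.1 (X t).2.2.2
  have hY1 : ∀ t, ¬ ((Y t).1 = (Y (t + 1)).1 ∧ (Y t).2.1 = (Y (t + 1)).2.1 ∧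
      (Y t).2.2 = (Y (t + 1)).2.2) := by
    rintro t ⟨e1, e2, e3⟩
    exact hXne t (hXY _ _ (Prod.ext e1 (Prod.ext e2 e3)))
  -- classification of the steps
  have hstep : ∀ t, P2 (HH k n) (Y t) (Y (t + 1)) ∨ ((Y t).1 ≠ (Y (t + 1)).1 ∧
      (Y t).2.2 = KK k * anc ord (Y t).1 (Y (t + 1)).1 (Y (t + 1)).2.1 ∧
      (Y (t + 1)).2.2 = KK k * anc ord (Y (t + 1)).1 (Y t).1 (Y t).2.1) := by
    intro t
    rcases rig_cases h (hbH t) (hbH (t + 1)) (hY1 t) (hXr t) with h1 | h1 | h1
    · left; exact ⟨h1.1, Or.inl ⟨h1.2.1, by omega⟩⟩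
    · left
      refine ⟨h1.1, Or.inr ⟨h1.2, ?_⟩⟩
      have hcr := hXc t
      have e1 : (X t).1 = (X (t + 1)).1 := Fin.ext h1.1
      have hx : X t = ((X t).1, (X t).2.1, (X t).2.2) := rfl
      have hy : X (t + 1) = ((X t).1, (X (t + 1)).2.1, (X (t + 1)).2.2) := by rw [e1]; rfl
      rw [hx, hy] at hcr
      exact cross_same h1.2 hcr
    · right
      refine ⟨h1.1, h1.2, ?_⟩
      rcases rig_cases h (hbH (t + 1)) (hbH t) (fun he => hY1 t ⟨he.1.symm, he.2.1.symm, he.2.2.symm⟩)
        (hXl t) with h2 | h2 | h2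
      · exact absurd h2.1.symm h1.1
      · exact absurd h2.1.symm h1.1
      · exact h2.2
  set S2 : ℕ × Bool × ℕ → Prop := fun x => ∃ s, x.2.2 = KK k * s ∧ 1 ≤ s ∧
    KK k * s + KK k ≤ HH k n with hS2
  have hno := run_seq (P2 (HH k n)) S2 r Y hr3 hYper ?_ ?_ ?_
  · -- no P2 edges: contradiction
    rcases hstep 0 with h1 | ⟨a1, a2, a3⟩
    · exact hno 0 h1
    rcases hstep 1 with h2 | ⟨b1, b2, b3⟩
    · exact hno 1 h2
    simp only [zero_add] at a1 a2 a3 b1 b2 b3
    have hK : 0 < KK k := by unfold KK; omega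
    have ha : anc ord (Y 1).1 (Y 0).1 (Y 0).2.1 = anc ord (Y 1).1 (Y (1 + 1)).1 (Y (1 + 1)).2.1 :=
      Nat.eq_of_mul_eq_mul_left hK (a3.symm.trans b2)
    obtain ⟨e1, e2⟩ := anc_inj h (X 1).1.2 (X 0).1.2 (X (1 + 1)).1.2 (Ne.symm a1) b1 ha
    have e1' : (Y 0).1 = (Y (1 + 1)).1 := e1
    have e3 : (Y (1 + 1)).2.2 = (Y 0).2.2 := by
      rw [b3, a2, ← e1']
    exact hY2 0 (Prod.ext e1.symm (Prod.ext e2.symm e3))
  · -- hS
    intro t ht
    rcases hstep t with h1 | ⟨a1, a2, a3⟩
    · exact absurd h1 ht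
    · exact ⟨⟨_, a2, anc_pos _ _ _, KK_anc_le h (X t).1.2 (X (t + 1)).1.2 a1⟩,
        ⟨_, a3, anc_pos _ _ _, KK_anc_le h (X (t + 1)).1.2 (X t).1.2 (Ne.symm a1)⟩⟩
  · -- hrun
    intro s m hm1 hm2 hP ⟨σ, c1, c2, c3⟩ ⟨σ', d1, d2, d3⟩
    have hmK : m < KK k := by unfold KK; omega
    have hKσ : KK k ≤ KK k * σ := Nat.le_mul_of_pos_right _ c2
    have hstay : ∀ j, j ≤ m → (Y (s + j)).1 = (Y s).1 ∧ (Y (s + j)).2.1 = (Y s).2.1 ∧
        (Y (s + j)).2.2 ≤ KK k * σ + j ∧ KK k * σ ≤ (Y (s + j)).2.2 + j := by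
      intro j
      induction j with
      | zero => intro _; exact ⟨rfl, rfl, by rw [← c1]; exact le_rfl, by rw [← c1]; exact le_rfl⟩
      | succ j ih =>
        intro hj
        obtain ⟨i1, i2, i3, i4⟩ := ih (by omega)
        obtain ⟨p1, p2⟩ := hP j (by omega)
        rw [show s + (j + 1) = s + j + 1 by ring]
        rcases p2 with ⟨p2, p3⟩ | ⟨p2, p3, p4⟩
        · exact ⟨p1.symm.trans i1, p2.symm.trans i2, by omega, by omega⟩
        · exfalso
          rcases p4 with p4 | p4 <;> omega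
    have := mono_walk (fun j => ((Y (s + j)).2.2 : ℤ)) m ?_ ?_
    · have hdiv : KK k ∣ m := by
        rcases this with h1 | h1
        · have h2 := h1 m le_rfl
          have h3 : (Y (s + m)).2.2 = (Y s).2.2 + m := by
            have : ((Y (s + m)).2.2 : ℤ) = (Y s).2.2 + m := by simpa using h2
            exact_mod_cast this
          rw [c1, d1] at h3
          exact (Nat.dvd_add_right (Dvd.intro _ rfl)).1 (h3 ▸ Dvd.intro _ rfl)
        · have h2 := h1 m le_rfl
          have h3 : (Y s).2.2 = (Y (s + m)).2.2 + m := by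
            have : ((Y (s + m)).2.2 : ℤ) = (Y s).2.2 - m := by simpa using h2
            have : ((Y s).2.2 : ℤ) = (Y (s + m)).2.2 + m := by rw [this]; ring
            exact_mod_cast this
          rw [c1, d1] at h3
          exact (Nat.dvd_add_right (Dvd.intro _ rfl)).1 (h3 ▸ Dvd.intro _ rfl)
      exact absurd (Nat.le_of_dvd (by omega) hdiv) (by omega)
    · intro j hj
      have i0 := hstay j (by omega)
      obtain ⟨p1, p2⟩ := hP j hj
      have hgoal : (Y (s + (j + 1))).2.2 = (Y (s + j)).2.2 + 1 ∨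
          (Y (s + j)).2.2 = (Y (s + (j + 1))).2.2 + 1 := by
        rcases p2 with ⟨_, p3⟩ | ⟨p2, p3, p4⟩
        · exact p3
        · exfalso; rcases p4 with p4 | p4 <;> omega
      rcases hgoal with h1 | h1
      · left; rw [h1]; push_cast; ring
      · right; rw [h1]; push_cast; ring
    · intro j hj he
      have h1 := hstay j (by omega)
      have h2 := hstay (j + 2) hj
      have he' : (Y (s + (j + 2))).2.2 = (Y (s + j)).2.2 := by exact_mod_cast he
      exact hY2 (s + j) (Prod.ext (h2.1.trans h1.1.symm) (Prod.ext (h2.2.1.trans h1.2.1.symm) he'))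
  · -- hcyc
    intro hall
    have hn : 0 < n := lt_of_le_of_lt (Nat.zero_le _) (X 0).1.2
    have hH : KK k ≤ HH k n := by
      unfold HH
      exact Nat.le_mul_of_pos_right _ (by omega)
    have htube : ∀ t, (Y t).1 = (Y (t + 1)).1 := fun t => (hall t).1
    have := mono_walk (fun j => pi2 (HH k n) (Y j)) r
      (fun j _ => pi2_step (hbH j) (hbH (j + 1)) (hall j)) ?_
    · have h0 : ((r : ℕ) : ZMod (2 * HH k n + 2)) = 0 := by
        rcases this with h1 | h1
        · have h2 := h1 r le_rfl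
          have h3 : Y r = Y 0 := by simpa using hYper 0
          simp only [h3] at h2
          exact (left_eq_add.1 h2)
        · have h2 := h1 r le_rfl
          have h3 : Y r = Y 0 := by simpa using hYper 0
          simp only [h3] at h2
          exact (sub_eq_self.1 h2.symm)
      rw [ZMod.natCast_eq_zero_iff] at h0
      have := Nat.le_of_dvd (by omega) h0
      unfold KK at hH
      omega
    · intro j hj he
      apply hY2 j
      exact pi2_inj ((htube (j + 1)).symm.trans (htube j).symm) (hbH _) (hbH _) he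

end Cyc

end Gir

open Gir

theorem csys_girth (k n : ℕ) (ord : ℕ → ℕ → ℕ) (h : OrdOK n ord) :
    (k : ℕ∞) ≤ (csys k n ord).graph.egirth := by
  rw [SimpleGraph.le_egirth]
  intro v w hw
  have hn3 : 3 ≤ w.length := hw.three_le_length
  set r := w.length with hr
  have hinj : ∀ a b, a < r → b < r → w.getVert a = w.getVert b → a = b := by
    intro a b ha hb hab
    exact hw.getVert_injOn' (by simp only [Set.mem_ofPred_eq]; omega)
      (by simp only [Set.mem_ofPred_eq]; omega) hab
  set u : ℕ → {v : Vx (csys k n ord).X // (csys k n ord).Valid v} := fun t => w.getVert (t % r)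
    with hu
  have hper : ∀ t, u (t + r) = u t := by
    intro t
    simp [hu]
  have hadj : ∀ t, (csys k n ord).graph.Adj (u t) (u (t + 1)) := by
    intro t
    have hlt' : t % r < r := Nat.mod_lt _ (by omega)
    have h1 := w.adj_getVert_succ (i := t % r) hlt'
    have h2 : u (t + 1) = w.getVert (t % r + 1) := by
      simp only [hu]
      by_cases h : t % r + 1 < r
      · have : (t + 1) % r = t % r + 1 := by
          rw [Nat.add_mod, Nat.mod_eq_of_lt (show 1 < r by omega), Nat.mod_eq_of_lt h]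
        rw [this]
      · have h2 : t % r + 1 = r := by omega
        have : (t + 1) % r = 0 := by
          rw [Nat.add_mod, Nat.mod_eq_of_lt (show 1 < r by omega), h2, Nat.mod_self]
        rw [this, h2, w.getVert_zero, hr, w.getVert_length]
    rw [h2]
    exact h1
  have hinj' : ∀ s a b, a < r → b < r → u (s + a) = u (s + b) → a = b := by
    intro s a b ha hb hab
    have h := hinj _ _ (Nat.mod_lt _ (by omega)) (Nat.mod_lt _ (by omega)) hab
    have h2 : a ≡ b [MOD r] := Nat.ModEq.add_left_cancel' s h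
    rw [Nat.ModEq, Nat.mod_eq_of_lt ha, Nat.mod_eq_of_lt hb] at h2
    exact h2
  have hc : Cyc (csys k n ord) r (fun t => (u t).1) :=
    { r3 := hn3
      per := fun t => by simp only [hper t]
      val := fun t => (u t).2
      adj := fun t => (hadj t).2
      inj := fun s a b ha hb hab => hinj' s a b ha hb (Subtype.ext hab) }
  exact_mod_cast hc.not_short h

end SegGirth
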