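import Mathlib
import Pool.Agent.Lib.MP_beb3fe_lc.Concrete

/-!
# The parameters of the curves
-/

namespace SegGirth

/-- sign of a group: lower `+1`, upper `-1` -/
noncomputable def sg (g : Bool) : ℝ := if g then -1 else 1

/-- abscissa of the crossing of the lines `i` and `j` -/
noncomputable def xx (m b : ℕ → ℝ) (i j : ℕ) : ℝ := (b j - b i) / (m i - m j)

/-- parameters: `r` size, `γ` slope gap, `ε` thickness of the tubes, `τ i g` the contact abscissae of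
the edges of group `g` of tube `i`, at distance at least `g0` -/
structure CParams (k n : ℕ) (ord : ℕ → ℕ → ℕ) (m b : ℕ → ℝ) where
  r : ℝ
  γ : ℝ
  ε : ℝ
  g0 : ℝ
  τ : ℕ → Bool → ℕ → ℝ
  hr : 1 ≤ r
  hγ : 0 < γ
  hε : 0 < ε
  hg0 : 0 < g0
  slope : ∀ i j, i < j → j < n → γ ≤ m j - m i
  size : ∀ i < n, ∀ j < n, i ≠ j → |xx m b i j| + 1 ≤ r
  ε1 : 2 * (ε * (2 * r + (4 * r + 1) * (2 * HH k n + 2))) < γ
  ε2 : 2 * (ε * (12 * r ^ 2 + (4 * r + 1) * (2 * HH k n + 2))) < r * γ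
  ε3 : 8 * r * ε < γ
  τ0 : ∀ i < n, ∀ g, τ i g 0 = -r
  τH : ∀ i < n, ∀ g, τ i g (HH k n) = r
  τgap : ∀ i < n, ∀ g, ∀ t < HH k n, τ i g t + g0 ≤ τ i g (t + 1)
  anchor : ∀ i < n, ∀ j < n, i ≠ j → ∀ g g',
    τ i g (KK k * anc ord i j g') = τ j g' (KK k * anc ord j i g)
  zero : ∀ i < n, ∀ j < n, i ≠ j → ∀ g g',
    (m i - m j) * (τ i g (KK k * anc ord i j g') - xx m b i j) +
      ε * (sg g - sg g') * ((τ i g (KK k * anc ord i j g')) ^ 2 - 4 * r ^ 2) = 0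

end SegGirth
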