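import Mathlib
import Pool.Agent.Lib.MP_beb3fe_lc.ParamDef
import Pool.Agent.Lib.MP_beb3fe_lc.Girth

/-!
# Existence of the parameters
-/

namespace SegGirth
namespace Par

open Gir

lemma pos_lb {α : Type*} (S : Finset α) (f : α → ℝ) (h : ∀ a ∈ S, 0 < f a) :
    ∃ c : ℝ, 0 < c ∧ ∀ a ∈ S, c ≤ f a := by
  rcases S.eq_empty_or_nonempty with h0 | h0
  · subst h0; exact ⟨1, one_pos, by simp⟩
  · obtain ⟨a, ha, hmin⟩ := Finset.exists_min_image S f h0
    exact ⟨f a, h a ha, hmin⟩

lemma ub {α : Type*} (S : Finset α) (f : α → ℝ) : ∃ c : ℝ, 1 ≤ c ∧ ∀ a ∈ S, f a ≤ c := by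
  rcases S.eq_empty_or_nonempty with h0 | h0
  · subst h0; exact ⟨1, le_rfl, by simp⟩
  · obtain ⟨a, ha, hmax⟩ := Finset.exists_max_image S f h0
    exact ⟨max 1 (f a), le_max_left _ _, fun b hb => (hmax b hb).trans (le_max_right _ _)⟩

lemma anc_surj {n : ℕ} {ord : ℕ → ℕ → ℕ} (h : OrdOK n ord) {i s : ℕ} (hi : i < n)
    (h1 : 1 ≤ s) (h2 : s ≤ 2 * n - 2) :
    ∃ (j : ℕ) (g : Bool), j < n ∧ i ≠ j ∧ anc ord i j g = s := by
  classical
  have hq : (s - 1) / 2 < n - 1 := by omega
  obtain ⟨j, hj, hjq⟩ : ∃ j ∈ (Finset.range n).erase i, ord i j = (s - 1) / 2 := by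
    have hmaps : ∀ a ∈ (Finset.range n).erase i, ord i a ∈ Finset.range (n - 1) := by
      intro a ha
      rw [Finset.mem_erase, Finset.mem_range] at ha
      exact Finset.mem_range.2 (h.lt i hi a ha.2 (Ne.symm ha.1))
    have hinj : Set.InjOn (ord i) ((Finset.range n).erase i : Finset ℕ) := by
      intro a ha a' ha' he
      rw [Finset.mem_coe, Finset.mem_erase, Finset.mem_range] at ha ha'
      exact h.inj i hi a ha.2 a' ha'.2 (Ne.symm ha.1) (Ne.symm ha'.1) he
    have hcard : (Finset.range (n - 1)).card ≤ ((Finset.range n).erase i).card := by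
      rw [Finset.card_erase_of_mem (Finset.mem_range.2 hi)]; simp
    have := Finset.surjOn_of_injOn_of_card_le (ord i) hmaps hinj hcard
    obtain ⟨j, hj, hj'⟩ := this (Finset.mem_coe.2 (Finset.mem_range.2 hq))
    exact ⟨j, hj, hj'⟩
  rw [Finset.mem_erase, Finset.mem_range] at hj
  rcases Nat.even_or_odd' (s - 1) with ⟨c, hc | hc⟩
  · refine ⟨j, decide (i < j), hj.2, Ne.symm hj.1, ?_⟩
    unfold anc
    rw [if_pos rfl, hjq]; omega
  · refine ⟨j, !decide (i < j), hj.2, Ne.symm hj.1, ?_⟩
    unfold anc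
    rw [if_neg (by cases decide (i < j) <;> simp), hjq]; omega

lemma xx_symm (m b : ℕ → ℝ) (i j : ℕ) : xx m b i j = xx m b j i := by
  unfold xx
  rw [← neg_sub (b i) (b j), ← neg_sub (m j) (m i), neg_div_neg_eq]

lemma sg_abs (g g' : Bool) : |sg g - sg g'| ≤ 2 := by
  cases g <;> cases g' <;> simp [sg] <;> norm_num

/-- the function whose zero is sought -/
noncomputable def hh (ε r mi mj x0 : ℝ) (g g' : Bool) (x : ℝ) : ℝ :=
  (mi - mj) * (x - x0) + ε * (sg g - sg g') * (x ^ 2 - 4 * r ^ 2)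

lemma err_le {ε r x : ℝ} (hε : 0 < ε) (hx : |x| ≤ r) (g g' : Bool) :
    |ε * (sg g - sg g') * (x ^ 2 - 4 * r ^ 2)| ≤ 8 * r ^ 2 * ε := by
  have h0 : 0 ≤ r := (abs_nonneg x).trans hx
  have hx2 : x ^ 2 ≤ r ^ 2 := by
    rw [← sq_abs x]; exact pow_le_pow_left₀ (abs_nonneg _) hx 2
  have h1 : |x ^ 2 - 4 * r ^ 2| ≤ 4 * r ^ 2 := by
    rw [abs_le]; constructor <;> nlinarith [sq_nonneg x, sq_nonneg r]
  rw [abs_mul, abs_mul, abs_of_pos hε]
  calc ε * |sg g - sg g'| * |x ^ 2 - 4 * r ^ 2| ≤ ε * 2 * (4 * r ^ 2) := by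
        apply mul_le_mul _ h1 (abs_nonneg _) (by positivity)
        exact mul_le_mul_of_nonneg_left (sg_abs g g') hε.le
    _ = 8 * r ^ 2 * ε := by ring

lemma exists_zero {ε r mi mj x0 th γ : ℝ} (hε : 0 < ε) (hth : 0 < th)
    (hγ : γ ≤ mj - mi) (h0 : |x0| + th ≤ r) (hs : 8 * r ^ 2 * ε < γ * th) (g g' : Bool) :
    ∃ z, |z - x0| ≤ th ∧ hh ε r mi mj x0 g g' z = 0 := by
  have hab := abs_le.1 (show |x0| ≤ r - th by linarith)
  have hc : Continuous (hh ε r mi mj x0 g g') := by unfold hh; fun_prop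
  have e1 : |x0 - th| ≤ r := by rw [abs_le]; constructor <;> linarith
  have e2 : |x0 + th| ≤ r := by rw [abs_le]; constructor <;> linarith
  have f1 := abs_le.1 (err_le hε e1 g g')
  have f2 := abs_le.1 (err_le hε e2 g g')
  have g1 : 0 ≤ hh ε r mi mj x0 g g' (x0 - th) := by
    have : hh ε r mi mj x0 g g' (x0 - th) = (mj - mi) * th +
      ε * (sg g - sg g') * ((x0 - th) ^ 2 - 4 * r ^ 2) := by unfold hh; ring
    rw [this]
    have := mul_le_mul_of_nonneg_right hγ hth.le
    linarith [f1.1]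
  have g2 : hh ε r mi mj x0 g g' (x0 + th) ≤ 0 := by
    have : hh ε r mi mj x0 g g' (x0 + th) = - ((mj - mi) * th) +
      ε * (sg g - sg g') * ((x0 + th) ^ 2 - 4 * r ^ 2) := by unfold hh; ring
    rw [this]
    have := mul_le_mul_of_nonneg_right hγ hth.le
    linarith [f2.2]
  have := intermediate_value_Icc' (show x0 - th ≤ x0 + th by linarith) hc.continuousOn
  obtain ⟨z, hz, hz0⟩ := this ⟨g2, g1⟩
  refine ⟨z, ?_, hz0⟩
  rw [abs_le]; constructor <;> linarith [hz.1, hz.2]

/-- order inside a pair, increasing slope -/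
lemma pair_lt {ε r mi mj x0 γ x y : ℝ} (hε : 0 < ε) (hr : 0 < r) (hγ : γ ≤ mj - mi)
    (hs : 8 * r * ε < γ) (hx : |x| ≤ r) (hy : |y| ≤ r) (g : Bool)
    (h1 : hh ε r mi mj x0 g true x = 0) (h2 : hh ε r mi mj x0 g false y = 0) : x < y := by
  have hx2 : x ^ 2 ≤ r ^ 2 := by
    rw [← sq_abs x]; exact pow_le_pow_left₀ (abs_nonneg _) hx 2
  have a1 := abs_le.1 hx
  have a2 := abs_le.1 hy
  have h3 : hh ε r mi mj x0 g false x = - (2 * ε * (x ^ 2 - 4 * r ^ 2)) := by
    have : hh ε r mi mj x0 g false x = hh ε r mi mj x0 g true x -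
      2 * ε * (x ^ 2 - 4 * r ^ 2) := by unfold hh sg; simp; ring
    rw [this, h1]; ring
  have h4 : 0 < hh ε r mi mj x0 g false x := by
    rw [h3]
    have : 0 < 2 * ε * (4 * r ^ 2 - x ^ 2) := by
      apply mul_pos (by linarith); nlinarith
    linarith
  have h5 : hh ε r mi mj x0 g false y - hh ε r mi mj x0 g false x =
      (y - x) * ((mi - mj) + ε * (sg g - sg false) * (x + y)) := by unfold hh; ring
  have h6 : (mi - mj) + ε * (sg g - sg false) * (x + y) < 0 := by
    have h7 : |ε * (sg g - sg false) * (x + y)| ≤ ε * 2 * (2 * r) := by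
      rw [abs_mul, abs_mul, abs_of_pos hε]
      apply mul_le_mul _ _ (abs_nonneg _) (by positivity)
      · exact mul_le_mul_of_nonneg_left (sg_abs _ _) hε.le
      · rw [abs_le]; constructor <;> linarith
    have := (abs_le.1 h7).2
    nlinarith [mul_pos hε hr]
  rw [h2] at h5
  by_contra hcon
  push Not at hcon
  have : 0 ≤ (y - x) * ((mi - mj) + ε * (sg g - sg false) * (x + y)) :=
    mul_nonneg_of_nonpos_of_nonpos (by linarith) h6.le
  linarith

end Par

open Par Gir

theorem exists_params (k n : ℕ) (hn : 1 ≤ n) (ord : ℕ → ℕ → ℕ) (h : OrdOK n ord) (m b : ℕ → ℝ)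
    (hm : ∀ i j, i < j → j < n → m i < m j)
    (hx : ∀ i < n, ∀ j < n, ∀ j' < n, i ≠ j → i ≠ j' → ord i j < ord i j' →
      xx m b i j < xx m b i j') : Nonempty (CParams k n ord m b) := by
  classical
  -- slope gap
  obtain ⟨γ, hγ, hslope⟩ : ∃ γ : ℝ, 0 < γ ∧ ∀ i j, i < j → j < n → γ ≤ m j - m i := by
    obtain ⟨c, hc, hc2⟩ := pos_lb ((Finset.range n ×ˢ Finset.range n).filter (fun p => p.1 < p.2))
      (fun p => m p.2 - m p.1) (by
        intro p hp
        simp only [Finset.mem_filter, Finset.mem_product, Finset.mem_range] at hp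
        have := hm p.1 p.2 hp.2 hp.1.2
        linarith)
    refine ⟨c, hc, fun i j hij hj => ?_⟩
    exact hc2 (i, j) (by
      simp only [Finset.mem_filter, Finset.mem_product, Finset.mem_range]
      exact ⟨⟨by omega, hj⟩, hij⟩)
  -- size
  obtain ⟨r, hr, hsize⟩ : ∃ r : ℝ, 1 ≤ r ∧ ∀ i < n, ∀ j < n, |xx m b i j| + 1 ≤ r := by
    obtain ⟨c, hc, hc2⟩ := ub (Finset.range n ×ˢ Finset.range n) (fun p => |xx m b p.1 p.2| + 1)
    refine ⟨c, hc, fun i hi j hj => ?_⟩
    exact hc2 (i, j) (by simp [hi, hj])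
  -- gaps of the crossings
  have hxne : ∀ i < n, ∀ j < n, ∀ j' < n, i ≠ j → i ≠ j' → j ≠ j' → xx m b i j ≠ xx m b i j' := by
    intro i hi j hj j' hj' h1 h2 h3
    have h4 : ord i j ≠ ord i j' := fun he => h3 (h.inj i hi j hj j' hj' h1 h2 he)
    rcases Nat.lt_or_gt_of_ne h4 with h5 | h5
    · exact (hx i hi j hj j' hj' h1 h2 h5).ne
    · exact (hx i hi j' hj' j hj h2 h1 h5).ne'
  obtain ⟨th, hth, hth1, hgap⟩ : ∃ th : ℝ, 0 < th ∧ th ≤ 1 / 2 ∧ ∀ i < n, ∀ j < n, ∀ j' < n,
      i ≠ j → i ≠ j' → j ≠ j' → 3 * th ≤ |xx m b i j - xx m b i j'| := by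
    obtain ⟨c, hc, hc2⟩ := pos_lb
      ((Finset.range n ×ˢ Finset.range n ×ˢ Finset.range n).filter
        (fun p => p.1 ≠ p.2.1 ∧ p.1 ≠ p.2.2 ∧ p.2.1 ≠ p.2.2))
      (fun p => |xx m b p.1 p.2.1 - xx m b p.1 p.2.2|) (by
        intro p hp
        simp only [Finset.mem_filter, Finset.mem_product, Finset.mem_range] at hp
        apply abs_pos.2
        rw [sub_ne_zero]
        exact hxne _ hp.1.1 _ hp.1.2.1 _ hp.1.2.2 hp.2.1 hp.2.2.1 hp.2.2.2)
    refine ⟨min (c / 3) (1 / 2), lt_min (by linarith) (by norm_num), min_le_right _ _, ?_⟩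
    intro i hi j hj j' hj' h1 h2 h3
    have := hc2 (i, j, j') (by
      simp only [Finset.mem_filter, Finset.mem_product, Finset.mem_range]
      exact ⟨⟨hi, hj, hj'⟩, h1, h2, h3⟩)
    have h4 := min_le_left (c / 3) (1 / 2)
    simp only at this
    linarith
  have hr0 : 0 < r := by linarith
  -- epsilon
  set A : ℝ := 2 * r + (4 * r + 1) * (2 * HH k n + 2) with hA
  set B : ℝ := 12 * r ^ 2 + (4 * r + 1) * (2 * HH k n + 2) with hB
  have hA0 : 0 < A := by positivity
  have hB0 : 0 < B := by positivity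
  set D : ℝ := 8 * r ^ 2 + 8 * r + 2 * A + 2 * B with hD
  have hD0 : 0 < D := by positivity
  obtain ⟨ε, hε, hεD⟩ : ∃ ε : ℝ, 0 < ε ∧ ε * D < γ * th := by
    refine ⟨γ * th / (2 * D), by positivity, ?_⟩
    have : γ * th / (2 * D) * D = γ * th / 2 := by field_simp
    rw [this]
    have := mul_pos hγ hth
    linarith
  have hγth : γ * th ≤ γ := by nlinarith
  have e0 : 8 * r ^ 2 * ε < γ * th := by
    have : 8 * r ^ 2 * ε ≤ ε * D := by
      rw [hD]; nlinarith [mul_pos hε hA0, mul_pos hε hB0, mul_pos hε hr0]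
    linarith
  have e1 : 2 * (ε * A) < γ := by
    have : 2 * (ε * A) ≤ ε * D := by
      rw [hD]; nlinarith [mul_pos hε hA0, mul_pos hε hB0, mul_pos hε hr0, mul_pos hε (pow_pos hr0 2)]
    linarith
  have e2 : 2 * (ε * B) < r * γ := by
    have h1 : 2 * (ε * B) ≤ ε * D := by
      rw [hD]; nlinarith [mul_pos hε hA0, mul_pos hε hB0, mul_pos hε hr0, mul_pos hε (pow_pos hr0 2)]
    nlinarith
  have e3 : 8 * r * ε < γ := by
    have : 8 * r * ε ≤ ε * D := by
      rw [hD]; nlinarith [mul_pos hε hA0, mul_pos hε hB0, mul_pos hε hr0, mul_pos hε (pow_pos hr0 2)]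
    linarith
  -- zeros
  have hzero : ∀ i j, i < j → j < n → ∀ g g', ∃ z, |z - xx m b i j| ≤ th ∧
      hh ε r (m i) (m j) (xx m b i j) g g' z = 0 := by
    intro i j hij hj g g'
    have := hsize i (by omega) j hj
    exact exists_zero hε hth (hslope i j hij hj) (by linarith) e0 g g'
  choose! Z hZ1 hZ2 using hzero
  set ζ : ℕ → Bool → ℕ → Bool → ℝ := fun i g j g' => if i < j then Z i j g g' else Z j i g' g
    with hζ
  have hζsymm : ∀ i j, i ≠ j → ∀ g g', ζ i g j g' = ζ j g' i g := by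
    intro i j hij g g'
    simp only [hζ]
    rcases Nat.lt_or_gt_of_ne hij with h1 | h1
    · rw [if_pos h1, if_neg (by omega)]
    · rw [if_neg (by omega), if_pos h1]
  have hζ1 : ∀ i < n, ∀ j < n, i ≠ j → ∀ g g', |ζ i g j g' - xx m b i j| ≤ th := by
    intro i hi j hj hij g g'
    simp only [hζ]
    rcases Nat.lt_or_gt_of_ne hij with h1 | h1
    · rw [if_pos h1]; exact hZ1 i j h1 hj g g'
    · rw [if_neg (by omega), xx_symm]; exact hZ1 j i h1 hi g' g
  have hζ2 : ∀ i < n, ∀ j < n, i ≠ j → ∀ g g',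
      (m i - m j) * (ζ i g j g' - xx m b i j) +
        ε * (sg g - sg g') * ((ζ i g j g') ^ 2 - 4 * r ^ 2) = 0 := by
    intro i hi j hj hij g g'
    simp only [hζ]
    rcases Nat.lt_or_gt_of_ne hij with h1 | h1
    · rw [if_pos h1]; exact hZ2 i j h1 hj g g'
    · rw [if_neg (by omega), xx_symm]
      have := hZ2 j i h1 hi g' g
      unfold hh at this
      linear_combination -this
  have hζr : ∀ i < n, ∀ j < n, i ≠ j → ∀ g g', |ζ i g j g'| < r := by
    intro i hi j hj hij g g'
    have h1 := abs_le.1 (hζ1 i hi j hj hij g g')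
    have h2 := abs_le.1 (show |xx m b i j| ≤ r - 1 by linarith [hsize i hi j hj])
    rw [abs_lt]; constructor <;> linarith [h1.1, h1.2, h2.1, h2.2]
  have hpair : ∀ i < n, ∀ j < n, i ≠ j → ∀ g,
      ζ i g j (decide (i < j)) < ζ i g j (!decide (i < j)) := by
    intro i hi j hj hij g
    have r1 := (hζr i hi j hj hij g true).le
    have r2 := (hζr i hi j hj hij g false).le
    rcases Nat.lt_or_gt_of_ne hij with h1 | h1
    · rw [decide_eq_true h1]
      have z1 := hζ2 i hi j hj hij g true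
      have z2 := hζ2 i hi j hj hij g false
      exact pair_lt hε hr0 (hslope i j h1 hj) e3 r1 r2 g z1 z2
    · rw [decide_eq_false (by omega)]
      have z1 := hζ2 i hi j hj hij g true
      have z2 := hζ2 i hi j hj hij g false
      -- use the symmetric statement with signs changed
      have z1' : hh ε r (m j) (m i) (xx m b i j) (!g) true (ζ i g j false) = 0 := by
        unfold hh
        cases g <;> simp only [sg, Bool.not_false, Bool.not_true, if_true, Bool.false_eq_true,
          if_false] at z2 ⊢ <;> linear_combination -z2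
      have z2' : hh ε r (m j) (m i) (xx m b i j) (!g) false (ζ i g j true) = 0 := by
        unfold hh
        cases g <;> simp only [sg, Bool.not_false, Bool.not_true, if_true, Bool.false_eq_true,
          if_false] at z1 ⊢ <;> linear_combination -z1
      exact pair_lt hε hr0 (hslope j i h1 hi) e3 r2 r1 (!g) z1' z2'
  -- the increasing sequence
  have hsurj : ∀ i s, i < n → 1 ≤ s → s ≤ 2 * n - 2 →
      ∃ (j : ℕ) (g : Bool), j < n ∧ i ≠ j ∧ anc ord i j g = s := fun i s hi h1 h2 =>
    anc_surj h hi h1 h2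
  choose! J G hJ hJi hJG using hsurj
  set a : ℕ → Bool → ℕ → ℝ := fun i g s =>
    if s = 0 then -r else if 2 * n - 1 ≤ s then r else ζ i g (J i s) (G i s) with ha
  have ha0 : ∀ i g, a i g 0 = -r := fun i g => by simp [ha]
  have haN : ∀ i g, a i g (2 * n - 1) = r := fun i g => by
    simp only [ha]; rw [if_neg (by omega), if_pos le_rfl]
  have haanc : ∀ i < n, ∀ j < n, i ≠ j → ∀ g g', a i g (anc ord i j g') = ζ i g j g' := by
    intro i hi j hj hij g g'
    have h1 : 1 ≤ anc ord i j g' := anc_pos i j g'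
    have h2 : anc ord i j g' ≤ 2 * n - 2 := anc_le h hi hj hij
    simp only [ha]
    rw [if_neg (by omega), if_neg (by omega)]
    obtain ⟨h3, h4⟩ := anc_inj h hi (hJ i _ hi h1 h2) hj (hJi i _ hi h1 h2) hij (hJG i _ hi h1 h2)
    rw [h3, h4]
  have hmono : ∀ i < n, ∀ g s s', s < s' → s' ≤ 2 * n - 1 → a i g s < a i g s' := by
    intro i hi g s s' hss hs'
    by_cases hs0 : s = 0
    · subst hs0
      rw [ha0]
      by_cases hsN : s' = 2 * n - 1
      · rw [hsN, haN]; linarith
      · have h1 : 1 ≤ s' := by omega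
        have h2 : s' ≤ 2 * n - 2 := by omega
        rw [← hJG i s' hi h1 h2, haanc i hi _ (hJ i s' hi h1 h2) (hJi i s' hi h1 h2)]
        exact (abs_lt.1 (hζr i hi _ (hJ i s' hi h1 h2) (hJi i s' hi h1 h2) _ _)).1
    · have h1 : 1 ≤ s := by omega
      have h2 : s ≤ 2 * n - 2 := by omega
      have hj := hJ i s hi h1 h2
      have hji := hJi i s hi h1 h2
      have hjg := hJG i s hi h1 h2
      have e : a i g s = ζ i g (J i s) (G i s) := by
        conv_lhs => rw [← hjg]
        exact haanc i hi _ hj hji _ _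
      rw [e]
      by_cases hsN : s' = 2 * n - 1
      · rw [hsN, haN]
        exact (abs_lt.1 (hζr i hi _ hj hji _ _)).2
      · have h1' : 1 ≤ s' := by omega
        have h2' : s' ≤ 2 * n - 2 := by omega
        have hj' := hJ i s' hi h1' h2'
        have hji' := hJi i s' hi h1' h2'
        have hjg' := hJG i s' hi h1' h2'
        have e' : a i g s' = ζ i g (J i s') (G i s') := by
          conv_lhs => rw [← hjg']
          exact haanc i hi _ hj' hji' _ _
        rw [e']
        by_cases ho : ord i (J i s) = ord i (J i s')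
        · have hJJ := h.inj i hi _ hj _ hj' hji hji' ho
          rw [← hJJ] at hjg' ⊢
          have hlt : anc ord i (J i s) (G i s) < anc ord i (J i s) (G i s') := by
            rw [hjg, hjg']; exact hss
          unfold anc at hlt
          have c1 : decide (i < J i s) = G i s := by
            by_contra hcon
            rw [if_neg hcon] at hlt
            split_ifs at hlt <;> omega
          have c2 : ¬ decide (i < J i s) = G i s' := by
            intro hcon
            rw [if_pos hcon] at hlt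
            split_ifs at hlt <;> omega
          have c3 : G i s' = !decide (i < J i s) := by
            revert c2
            cases decide (i < J i s) <;> cases G i s' <;> simp
          rw [c3, ← c1]
          exact hpair i hi _ hj hji g
        · have hlt : ord i (J i s) < ord i (J i s') := by
            rw [← hjg, ← hjg'] at hss
            unfold anc at hss
            split_ifs at hss <;> omega
          have hne : J i s ≠ J i s' := fun he => ho (by rw [he])
          have g1 := hx i hi _ hj _ hj' hji hji' hlt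
          have g2 := hgap i hi _ hj _ hj' hji hji' hne
          rw [abs_of_neg (by linarith)] at g2
          have g3 := (abs_le.1 (hζ1 i hi _ hj hji g (G i s))).2
          have g4 := (abs_le.1 (hζ1 i hi _ hj' hji' g (G i s'))).1
          linarith
  -- interpolation
  have hK : 0 < KK k := by unfold KK; omega
  have hKr : (0 : ℝ) < KK k := by exact_mod_cast hK
  set τ : ℕ → Bool → ℕ → ℝ := fun i g t =>
    a i g (t / KK k) + (a i g (t / KK k + 1) - a i g (t / KK k)) * ((t % KK k : ℕ) : ℝ) / KK k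
    with hτ
  have hτK : ∀ i g s, τ i g (KK k * s) = a i g s := by
    intro i g s
    simp only [hτ]
    rw [Nat.mul_div_cancel_left _ hK, Nat.mul_mod_right]
    simp
  have hHH : HH k n = KK k * (2 * n - 1) := rfl
  have hτstep : ∀ i g t, τ i g (t + 1) - τ i g t =
      (a i g (t / KK k + 1) - a i g (t / KK k)) / KK k := by
    intro i g t
    have hdm := Nat.div_add_mod t (KK k)
    have hml := Nat.mod_lt t hK
    by_cases hlt : t % KK k + 1 < KK k
    · have h1 : (t + 1) / KK k = t / KK k := by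
        rw [show t + 1 = (t % KK k + 1) + KK k * (t / KK k) by omega,
          Nat.add_mul_div_left _ _ hK, Nat.div_eq_of_lt hlt, zero_add]
      have h2 : (t + 1) % KK k = t % KK k + 1 := by
        conv_lhs => rw [show t + 1 = (t % KK k + 1) + KK k * (t / KK k) by omega]
        rw [Nat.add_mul_mod_self_left, Nat.mod_eq_of_lt hlt]
      simp only [hτ]
      rw [h1, h2]
      push_cast
      field_simp
      ring
    · have h3 : t + 1 = KK k * (t / KK k + 1) := by
        rw [Nat.mul_add]; omega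
      have h4 : τ i g (t + 1) = a i g (t / KK k + 1) := by
        conv_lhs => rw [h3]
        exact hτK i g _
      rw [h4]
      simp only [hτ]
      have h5 : ((t % KK k : ℕ) : ℝ) = KK k - 1 := by
        have : t % KK k + 1 = KK k := by omega
        have h6 : ((t % KK k : ℕ) : ℝ) + 1 = KK k := by exact_mod_cast this
        linarith
      rw [h5]
      field_simp
      ring
  have hτpos : ∀ i < n, ∀ g, ∀ t < HH k n, 0 < τ i g (t + 1) - τ i g t := by
    intro i hi g t ht
    rw [hτstep]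
    apply div_pos _ hKr
    have h1 : t / KK k < 2 * n - 1 := by
      rw [Nat.div_lt_iff_lt_mul hK, Nat.mul_comm, ← hHH]; exact ht
    have := hmono i hi g (t / KK k) (t / KK k + 1) (by omega) (by omega)
    linarith
  obtain ⟨g0, hg0, hg0'⟩ : ∃ g0 : ℝ, 0 < g0 ∧ ∀ i < n, ∀ g, ∀ t < HH k n,
      g0 ≤ τ i g (t + 1) - τ i g t := by
    obtain ⟨c, hc, hc2⟩ := pos_lb
      (Finset.range n ×ˢ (Finset.univ : Finset Bool) ×ˢ Finset.range (HH k n))
      (fun p => τ p.1 p.2.1 (p.2.2 + 1) - τ p.1 p.2.1 p.2.2) (by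
        intro p hp
        simp only [Finset.mem_product, Finset.mem_range] at hp
        exact hτpos _ hp.1 _ _ hp.2.2)
    refine ⟨c, hc, fun i hi g t ht => ?_⟩
    exact hc2 (i, g, t) (by simp [hi, ht])
  exact ⟨{
    r := r
    γ := γ
    ε := ε
    g0 := g0
    τ := τ
    hr := hr
    hγ := hγ
    hε := hε
    hg0 := hg0
    slope := hslope
    size := fun i hi j hj _ => hsize i hi j hj
    ε1 := e1
    ε2 := e2
    ε3 := e3
    τ0 := fun i _ g => by have := hτK i g 0; rw [Nat.mul_zero, ha0] at this; exact this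
    τH := fun i _ g => by rw [hHH, hτK, haN]
    τgap := fun i hi g t ht => by have := hg0' i hi g t ht; linarith
    anchor := fun i hi j hj hij g g' => by
      rw [hτK, hτK, haanc i hi j hj hij, haanc j hj i hi (Ne.symm hij), hζsymm i j hij]
    zero := fun i hi j hj hij g g' => by
      rw [hτK, haanc i hi j hj hij]
      exact hζ2 i hi j hj hij g g' }⟩

end SegGirth
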