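import Mathlib
import Pool.Agent.Lib.MP_beb3fe_lc.CurveDef

/-!
# Piecewise affine functions with bounded slopes
-/

namespace SegGirth

open Set

/-- piecewise affine on `[a,b]` with kinks in `K` and slopes at most `Λ` in absolute value -/
def PAB (a b : ℝ) (K : Finset ℝ) (Λ : ℝ) (f : ℝ → ℝ) : Prop :=
  ∀ s t, a ≤ s → s < t → t ≤ b → (∀ κ ∈ K, ¬ (s < κ ∧ κ < t)) →
    ∃ m q, |m| ≤ Λ ∧ ∀ x ∈ Set.Icc s t, f x = m * x + q

namespace PAB

variable {a b Λ Λ' : ℝ} {K K' : Finset ℝ} {f g : ℝ → ℝ}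

lemma paff (h : PAB a b K Λ f) : PAff a b K f := by
  intro s t h1 h2 h3 h4
  obtain ⟨m, q, _, h5⟩ := h s t h1 h2 h3 h4
  exact ⟨m, q, h5⟩

lemma mono (h : PAB a b K Λ f) (hK : K ⊆ K') (hΛ : Λ ≤ Λ') : PAB a b K' Λ' f := by
  intro s t h1 h2 h3 h4
  obtain ⟨m, q, h5, h6⟩ := h s t h1 h2 h3 (fun κ hκ => h4 κ (hK hκ))
  exact ⟨m, q, h5.trans hΛ, h6⟩

lemma add [DecidableEq ℝ] (h : PAB a b K Λ f) (h' : PAB a b K' Λ' g) :
    PAB a b (K ∪ K') (Λ + Λ') (fun x => f x + g x) := by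
  intro s t h1 h2 h3 h4
  obtain ⟨m, q, h5, h6⟩ := h s t h1 h2 h3 (fun κ hκ => h4 κ (Finset.mem_union_left _ hκ))
  obtain ⟨m', q', h5', h6'⟩ := h' s t h1 h2 h3 (fun κ hκ => h4 κ (Finset.mem_union_right _ hκ))
  refine ⟨m + m', q + q', (abs_add_le _ _).trans (add_le_add h5 h5'), fun x hx => ?_⟩
  show f x + g x = _
  rw [h6 x hx, h6' x hx]; ring

lemma smul (h : PAB a b K Λ f) (c : ℝ) : PAB a b K (|c| * Λ) (fun x => c * f x) := by
  intro s t h1 h2 h3 h4
  obtain ⟨m, q, h5, h6⟩ := h s t h1 h2 h3 h4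
  refine ⟨c * m, c * q, ?_, fun x hx => ?_⟩
  · rw [abs_mul]; exact mul_le_mul_of_nonneg_left h5 (abs_nonneg _)
  · show c * f x = _
    rw [h6 x hx]; ring

lemma affine (a b m q : ℝ) : PAB a b ∅ |m| (fun x => m * x + q) :=
  fun _ _ _ _ _ _ => ⟨m, q, le_refl _, fun _ _ => rfl⟩

lemma zero (a b : ℝ) : PAB a b ∅ 0 (fun _ => (0 : ℝ)) :=
  fun _ _ _ _ _ _ => ⟨0, 0, by simp, fun _ _ => by simp⟩

lemma congr (h : PAB a b K Λ f) (he : ∀ x ∈ Set.Icc a b, g x = f x) : PAB a b K Λ g := by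
  intro s t h1 h2 h3 h4
  obtain ⟨m, q, h5, h6⟩ := h s t h1 h2 h3 h4
  exact ⟨m, q, h5, fun x hx => by rw [he x ⟨h1.trans hx.1, hx.2.trans h3⟩, h6 x hx]⟩

/-- a kink at which the function is affine can be removed -/
lemma remove [DecidableEq ℝ] {p η : ℝ} (h : PAB a b (insert p K) Λ f) (hη : 0 < η)
    (hp : ∃ m q, ∀ x ∈ Set.Icc (p - η) (p + η), f x = m * x + q) : PAB a b K Λ f := by
  intro s t h1 h2 h3 h4
  by_cases hpin : s < p ∧ p < t
  · obtain ⟨m, q, hmq⟩ := hp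
    obtain ⟨m1, q1, hm1, hf1⟩ := h s p h1 hpin.1 (by linarith) (by
      intro κ hκ hc
      rcases Finset.mem_insert.1 hκ with rfl | hκ
      · exact lt_irrefl _ hc.2
      · exact h4 κ hκ ⟨hc.1, hc.2.trans hpin.2⟩)
    obtain ⟨m2, q2, hm2, hf2⟩ := h p t (by linarith) hpin.2 h3 (by
      intro κ hκ hc
      rcases Finset.mem_insert.1 hκ with rfl | hκ
      · exact lt_irrefl _ hc.1
      · exact h4 κ hκ ⟨hpin.1.trans hc.1, hc.2⟩)
    -- identify the pieces
    have key : ∀ (μ ν μ' ν' x y : ℝ), x < y → μ * x + ν = μ' * x + ν' →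
        μ * y + ν = μ' * y + ν' → μ = μ' ∧ ν = ν' := by
      intro μ ν μ' ν' x y hxy e1 e2
      have h5 : (μ - μ') * (y - x) = 0 := by linarith
      rcases mul_eq_zero.1 h5 with h6 | h6
      · have h7 : μ = μ' := by linarith
        subst h7
        exact ⟨rfl, by linarith⟩
      · linarith
    have hx1 : max s (p - η) < p := max_lt hpin.1 (by linarith)
    have e1 := key m1 q1 m q (max s (p - η)) p hx1
      (by
        rw [← hf1 _ ⟨le_max_left _ _, hx1.le⟩, hmq _ ⟨le_max_right _ _, by linarith⟩])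
      (by
        rw [← hf1 p ⟨hpin.1.le, le_refl _⟩, hmq p ⟨by linarith, by linarith⟩])
    have hx2 : p < min t (p + η) := lt_min hpin.2 (by linarith)
    have e2 := key m2 q2 m q p (min t (p + η)) hx2
      (by
        rw [← hf2 p ⟨le_refl _, hpin.2.le⟩, hmq p ⟨by linarith, by linarith⟩])
      (by
        rw [← hf2 _ ⟨hx2.le, min_le_left _ _⟩, hmq _ ⟨by linarith, min_le_right _ _⟩])
    refine ⟨m, q, e1.1 ▸ hm1, fun x hx => ?_⟩
    rcases le_total x p with hxp | hxp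
    · rw [hf1 x ⟨hx.1, hxp⟩, e1.1, e1.2]
    · rw [hf2 x ⟨hxp, hx.2⟩, e2.1, e2.2]
  · refine h s t h1 h2 h3 ?_
    intro κ hκ
    rcases Finset.mem_insert.1 hκ with rfl | hκ
    · exact hpin
    · exact h4 κ hκ

/-- Lipschitz bound -/
lemma lip (h : PAB a b K Λ f) : ∀ s t, a ≤ s → s ≤ t → t ≤ b → |f t - f s| ≤ Λ * (t - s) := by
  classical
  suffices H : ∀ N : ℕ, ∀ s t, a ≤ s → s ≤ t → t ≤ b →
      (K.filter (fun κ => s < κ ∧ κ < t)).card ≤ N → |f t - f s| ≤ Λ * (t - s) from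
    fun s t h1 h2 h3 => H _ s t h1 h2 h3 (le_refl _)
  intro N
  induction N with
  | zero =>
    intro s t h1 h2 h3 h4
    rcases eq_or_lt_of_le h2 with h2 | h2
    · subst h2; simp
    have h5 : K.filter (fun κ => s < κ ∧ κ < t) = ∅ := Finset.card_eq_zero.1 (by omega)
    obtain ⟨m, q, hm, hf⟩ := h s t h1 h2 h3 (by
      intro κ hκ hc
      have : κ ∈ K.filter (fun κ => s < κ ∧ κ < t) := Finset.mem_filter.2 ⟨hκ, hc⟩
      rw [h5] at this
      simp at this)
    rw [hf t ⟨h2.le, le_refl _⟩, hf s ⟨le_refl _, h2.le⟩]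
    have : m * t + q - (m * s + q) = m * (t - s) := by ring
    rw [this, abs_mul, abs_of_pos (by linarith : 0 < t - s)]
    exact mul_le_mul_of_nonneg_right hm (by linarith)
  | succ N ih =>
    intro s t h1 h2 h3 h4
    by_cases h5 : (K.filter (fun κ => s < κ ∧ κ < t)).card ≤ N
    · exact ih s t h1 h2 h3 h5
    · have h6 : (K.filter (fun κ => s < κ ∧ κ < t)).Nonempty := by
        rw [← Finset.card_pos]; omega
      obtain ⟨κ, hκ⟩ := h6
      obtain ⟨hκK, hκ1, hκ2⟩ := Finset.mem_filter.1 hκ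
      have hlt : ∀ s' t', s ≤ s' → t' ≤ t → (t' = κ ∨ s' = κ) →
          (K.filter (fun x => s' < x ∧ x < t')).card ≤ N := by
        intro s' t' hs' ht' hor
        have hss : K.filter (fun x => s' < x ∧ x < t') ⊂ K.filter (fun κ => s < κ ∧ κ < t) := by
          rw [Finset.ssubset_iff_of_subset]
          · refine ⟨κ, hκ, ?_⟩
            intro hc
            obtain ⟨_, hc1, hc2⟩ := Finset.mem_filter.1 hc
            rcases hor with h | h
            · rw [h] at hc2; exact lt_irrefl _ hc2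
            · rw [h] at hc1; exact lt_irrefl _ hc1
          · intro x hx
            obtain ⟨hxK, hx1, hx2⟩ := Finset.mem_filter.1 hx
            exact Finset.mem_filter.2 ⟨hxK, by linarith, by linarith⟩
        have := Finset.card_lt_card hss
        omega
      have e1 := ih s κ h1 hκ1.le (by linarith) (hlt s κ (le_refl _) hκ2.le (Or.inl rfl))
      have e2 := ih κ t (by linarith) hκ2.le h3 (hlt κ t hκ1.le (le_refl _) (Or.inr rfl))
      calc |f t - f s| = |(f t - f κ) + (f κ - f s)| := by ring_nf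
        _ ≤ |f t - f κ| + |f κ - f s| := abs_add_le _ _
        _ ≤ Λ * (t - κ) + Λ * (κ - s) := add_le_add e2 e1
        _ = Λ * (t - s) := by ring

end PAB

end SegGirth
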