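import Mathlib
import Pool.Agent.Lib.MP_beb3fe_lc.PAffine

/-!
# The functions describing the chords of one group of a tube
-/

namespace SegGirth

open Set

/-- contact abscissae of a group -/
structure Grp (r : ℝ) (H : ℕ) (τ : ℕ → ℝ) (g0 ρ : ℝ) : Prop where
  hr : 1 ≤ r
  hH : 2 ≤ H
  hg0 : 0 < g0
  hρ : 0 < ρ
  hρ2 : 20 * ρ ≤ g0
  t0 : τ 0 = -r
  tH : τ H = r
  gap : ∀ t < H, τ t + g0 ≤ τ (t + 1)

/-- vertices of the polygon -/
noncomputable def nu (τ : ℕ → ℝ) (b : ℕ) : ℝ := (τ (b - 1) + τ b) / 2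

/-- tangent line at contact abscissa `b` -/
noncomputable def Tl (τ : ℕ → ℝ) (b : ℕ) (x : ℝ) : ℝ := 2 * τ b * x - τ b ^ 2

/-- maximum of the tangent lines -/
noncomputable def phi (H : ℕ) (τ : ℕ → ℝ) (x : ℝ) : ℝ :=
  (Finset.range (H + 1)).sup' ⟨0, by simp⟩ (fun b => Tl τ b x)

/-- clamp -/
noncomputable def cl (ρ t : ℝ) : ℝ := min (max t 0) ρ

/-- step function: slope `κ` on `[0,ρ]`, value `(4r+1) o ρ` from `2ρ` on -/
noncomputable def W (r ρ κ o t : ℝ) : ℝ := κ * cl ρ t + ((4 * r + 1) * o - κ) * cl ρ (t - ρ)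

/-- slope differences -/
noncomputable def kap (τ : ℕ → ℝ) (b : ℕ) : ℝ := 2 * (τ b - τ (b - 1))

/-- perturbation of chord `b` -/
noncomputable def del (r : ℝ) (H : ℕ) (τ : ℕ → ℝ) (ρ : ℝ) (b : ℕ) (x : ℝ) : ℝ :=
  (if b < H then W r ρ (kap τ (b + 1)) (H + 1 - b) (x - nu τ (b + 1)) else 0) +
    (if 0 < b then W r ρ (kap τ b) (H + 1 + b) (nu τ b - x) else 0)

/-- unperturbed boundary function -/
noncomputable def base (r : ℝ) (H : ℕ) (τ : ℕ → ℝ) (b : ℕ) (x : ℝ) : ℝ :=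
  if x < -(5 * r / 2) then (if b = 0 then 4 * r ^ 2 - Tl τ 0 x else Tl τ 0 x - 4 * r ^ 2)
  else if 5 * r / 2 < x then (if b = H then 4 * r ^ 2 - Tl τ H x else Tl τ H x - 4 * r ^ 2)
  else 4 * r ^ 2 - phi H τ x

/-- the function of chord `b` -/
noncomputable def uu (r : ℝ) (H : ℕ) (τ : ℕ → ℝ) (ρ : ℝ) (b : ℕ) (x : ℝ) : ℝ :=
  base r H τ b x + del r H τ ρ b x

/-! ### clamp and step function -/

lemma cl_of_nonpos {ρ t : ℝ} (hρ : 0 < ρ) (h : t ≤ 0) : cl ρ t = 0 := by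
  unfold cl; rw [max_eq_right h, min_eq_left hρ.le]

lemma cl_of_mem {ρ t : ℝ} (h0 : 0 ≤ t) (h : t ≤ ρ) : cl ρ t = t := by
  unfold cl; rw [max_eq_left h0, min_eq_left h]

lemma cl_of_ge {ρ t : ℝ} (hρ : 0 < ρ) (h : ρ ≤ t) : cl ρ t = ρ := by
  unfold cl; rw [max_eq_left (by linarith), min_eq_right h]

lemma W_nonpos {r ρ κ o t : ℝ} (hρ : 0 < ρ) (h : t ≤ 0) : W r ρ κ o t = 0 := by
  unfold W; rw [cl_of_nonpos hρ h, cl_of_nonpos hρ (by linarith)]; ring

lemma W_low {r ρ κ o t : ℝ} (hρ : 0 < ρ) (h0 : 0 ≤ t) (h : t ≤ ρ) : W r ρ κ o t = κ * t := by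
  unfold W; rw [cl_of_mem h0 h, cl_of_nonpos hρ (by linarith)]; ring

lemma W_mid {r ρ κ o t : ℝ} (hρ : 0 < ρ) (h0 : ρ ≤ t) (h : t ≤ 2 * ρ) :
    W r ρ κ o t = κ * ρ + ((4 * r + 1) * o - κ) * (t - ρ) := by
  unfold W; rw [cl_of_ge hρ h0, cl_of_mem (by linarith) (by linarith)]

lemma W_top {r ρ κ o t : ℝ} (hρ : 0 < ρ) (h : 2 * ρ ≤ t) :
    W r ρ κ o t = (4 * r + 1) * ρ * o := by
  unfold W; rw [cl_of_ge hρ (by linarith), cl_of_ge hρ (by linarith)]; ring

lemma W_nonneg {r ρ κ o t : ℝ} (hρ : 0 < ρ) (hκ : 0 ≤ κ) (ho : κ ≤ (4 * r + 1) * o) :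
    0 ≤ W r ρ κ o t := by
  have h1 : 0 ≤ cl ρ t := by unfold cl; exact le_min (le_max_right _ _) hρ.le
  have h2 : 0 ≤ cl ρ (t - ρ) := by unfold cl; exact le_min (le_max_right _ _) hρ.le
  unfold W
  have := mul_nonneg hκ h1
  have := mul_nonneg (sub_nonneg.2 ho) h2
  linarith

lemma W_le {r ρ κ o t : ℝ} (hκ : 0 ≤ κ) (ho : κ ≤ (4 * r + 1) * o) :
    W r ρ κ o t ≤ (4 * r + 1) * ρ * o := by
  have h1 : cl ρ t ≤ ρ := min_le_right _ _
  have h2 : cl ρ (t - ρ) ≤ ρ := min_le_right _ _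
  unfold W
  have := mul_le_mul_of_nonneg_left h1 hκ
  have := mul_le_mul_of_nonneg_left h2 (sub_nonneg.2 ho)
  linarith

lemma W_pos {r ρ κ o t : ℝ} (hρ : 0 < ρ) (hκ : 0 < κ) (ho : κ ≤ (4 * r + 1) * o) (ht : 0 < t) :
    0 < W r ρ κ o t := by
  have h1 : 0 < cl ρ t := by unfold cl; exact lt_min (lt_max_of_lt_left ht) hρ
  have h2 : 0 ≤ cl ρ (t - ρ) := by unfold cl; exact le_min (le_max_right _ _) hρ.le
  unfold W
  have := mul_pos hκ h1
  have := mul_nonneg (sub_nonneg.2 ho) h2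
  linarith

lemma pab_W_right (a b : ℝ) {r ρ κ o ν : ℝ} (hρ : 0 < ρ) (hκ : 0 ≤ κ)
    (ho : κ ≤ (4 * r + 1) * o) :
    PAB a b {ν, ν + ρ, ν + 2 * ρ} ((4 * r + 1) * o) (fun x => W r ρ κ o (x - ν)) := by
  intro s t _ hst _ hk
  have k1 := hk ν (by simp)
  have k2 := hk (ν + ρ) (by simp)
  have k3 := hk (ν + 2 * ρ) (by simp)
  by_cases h1 : t ≤ ν
  · refine ⟨0, 0, by rw [abs_zero]; linarith, fun x hx => ?_⟩
    show W r ρ κ o (x - ν) = _
    rw [W_nonpos hρ (by linarith [hx.2])]; ring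
  have h1' : ν ≤ s := by
    by_contra h; exact k1 ⟨by linarith, by linarith⟩
  by_cases h2 : t ≤ ν + ρ
  · refine ⟨κ, -κ * ν, by rw [abs_of_nonneg hκ]; exact ho, fun x hx => ?_⟩
    show W r ρ κ o (x - ν) = _
    rw [W_low hρ (by linarith [hx.1]) (by linarith [hx.2])]; ring
  have h2' : ν + ρ ≤ s := by
    by_contra h; exact k2 ⟨by linarith, by linarith⟩
  by_cases h3 : t ≤ ν + 2 * ρ
  · refine ⟨(4 * r + 1) * o - κ, κ * ρ - ((4 * r + 1) * o - κ) * (ν + ρ), ?_, fun x hx => ?_⟩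
    · rw [abs_of_nonneg (by linarith)]; linarith
    · show W r ρ κ o (x - ν) = _
      rw [W_mid hρ (by linarith [hx.1]) (by linarith [hx.2])]; ring
  have h3' : ν + 2 * ρ ≤ s := by
    by_contra h; exact k3 ⟨by linarith, by linarith⟩
  refine ⟨0, (4 * r + 1) * ρ * o, by rw [abs_zero]; linarith, fun x hx => ?_⟩
  show W r ρ κ o (x - ν) = _
  rw [W_top hρ (by linarith [hx.1])]; ring

lemma pab_W_left (a b : ℝ) {r ρ κ o ν : ℝ} (hρ : 0 < ρ) (hκ : 0 ≤ κ)
    (ho : κ ≤ (4 * r + 1) * o) :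
    PAB a b {ν, ν - ρ, ν - 2 * ρ} ((4 * r + 1) * o) (fun x => W r ρ κ o (ν - x)) := by
  intro s t _ hst _ hk
  have k1 := hk ν (by simp)
  have k2 := hk (ν - ρ) (by simp)
  have k3 := hk (ν - 2 * ρ) (by simp)
  by_cases h1 : ν ≤ s
  · refine ⟨0, 0, by rw [abs_zero]; linarith, fun x hx => ?_⟩
    show W r ρ κ o (ν - x) = _
    rw [W_nonpos hρ (by linarith [hx.1])]; ring
  have h1' : t ≤ ν := by
    by_contra h; exact k1 ⟨by linarith, by linarith⟩
  by_cases h2 : ν - ρ ≤ s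
  · refine ⟨-κ, κ * ν, by rw [abs_neg, abs_of_nonneg hκ]; exact ho, fun x hx => ?_⟩
    show W r ρ κ o (ν - x) = _
    rw [W_low hρ (by linarith [hx.2]) (by linarith [hx.1])]; ring
  have h2' : t ≤ ν - ρ := by
    by_contra h; exact k2 ⟨by linarith, by linarith⟩
  by_cases h3 : ν - 2 * ρ ≤ s
  · refine ⟨-((4 * r + 1) * o - κ), κ * ρ + ((4 * r + 1) * o - κ) * (ν - ρ), ?_, fun x hx => ?_⟩
    · rw [abs_neg, abs_of_nonneg (by linarith)]; linarith
    · show W r ρ κ o (ν - x) = _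
      rw [W_mid hρ (by linarith [hx.2]) (by linarith [hx.1])]; ring
  have h3' : t ≤ ν - 2 * ρ := by
    by_contra h; exact k3 ⟨by linarith, by linarith⟩
  refine ⟨0, (4 * r + 1) * ρ * o, by rw [abs_zero]; linarith, fun x hx => ?_⟩
  show W r ρ κ o (ν - x) = _
  rw [W_top hρ (by linarith [hx.2])]; ring

namespace Grp

variable {r : ℝ} {H : ℕ} {τ : ℕ → ℝ} {g0 ρ : ℝ}

/-! ### contact abscissae and vertices -/

lemma tau_lt (G : Grp r H τ g0 ρ) {b b' : ℕ} (h : b < b') (hb : b' ≤ H) :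
    τ b + g0 ≤ τ b' := by
  induction b', h using Nat.le_induction with
  | base => exact G.gap b (by omega)
  | succ b' hb' ih =>
    have := ih (by omega)
    have := G.gap b' (by omega)
    have := G.hg0
    linarith

lemma tau_le (G : Grp r H τ g0 ρ) {b b' : ℕ} (h : b ≤ b') (hb : b' ≤ H) : τ b ≤ τ b' := by
  rcases Nat.eq_or_lt_of_le h with h | h
  · rw [h]
  · have := G.tau_lt h hb
    have := G.hg0
    linarith

lemma tau_mem (G : Grp r H τ g0 ρ) {b : ℕ} (hb : b ≤ H) : -r ≤ τ b ∧ τ b ≤ r := by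
  constructor
  · rw [← G.t0]; exact G.tau_le (Nat.zero_le b) hb
  · rw [← G.tH]; exact G.tau_le hb (le_refl _)

lemma nu_succ (b : ℕ) : nu τ (b + 1) = (τ b + τ (b + 1)) / 2 := by
  simp [nu]

lemma nu_gap (G : Grp r H τ g0 ρ) {b b' : ℕ} (h1 : 1 ≤ b) (h : b < b') (hb : b' ≤ H) :
    nu τ b + g0 ≤ nu τ b' := by
  unfold nu
  have e1 : τ (b - 1) + g0 ≤ τ (b' - 1) := G.tau_lt (by omega) (by omega)
  have e2 := G.tau_lt h hb
  linarith

lemma nu_le_tau (G : Grp r H τ g0 ρ) {b : ℕ} (h1 : 1 ≤ b) (hb : b ≤ H) :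
    nu τ b + g0 / 2 ≤ τ b := by
  unfold nu
  have e1 : τ (b - 1) + g0 ≤ τ b := G.tau_lt (by omega) hb
  linarith

lemma tau_le_nu (G : Grp r H τ g0 ρ) {b : ℕ} (hb : b < H) :
    τ b + g0 / 2 ≤ nu τ (b + 1) := by
  rw [nu_succ]
  have := G.gap b hb
  linarith

lemma nu_mem (G : Grp r H τ g0 ρ) {b : ℕ} (h1 : 1 ≤ b) (hb : b ≤ H) :
    -r + g0 / 2 ≤ nu τ b ∧ nu τ b ≤ r - g0 / 2 := by
  have h0 := G.nu_le_tau h1 hb
  have h2 := (G.tau_mem hb).2
  obtain ⟨b', rfl⟩ : ∃ b', b = b' + 1 := ⟨b - 1, by omega⟩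
  have h3 := G.tau_le_nu (b := b') (by omega)
  have h4 := (G.tau_mem (b := b') (by omega)).1
  constructor <;> linarith

lemma g0_le (G : Grp r H τ g0 ρ) : g0 ≤ r := by
  have h1 := G.tau_lt (b := 0) (b' := 1) (by omega) (by have := G.hH; omega)
  have h2 := G.tau_lt (b := 1) (b' := H) (by have := G.hH; omega) (le_refl _)
  rw [G.t0] at h1
  rw [G.tH] at h2
  linarith

lemma kap_pos (G : Grp r H τ g0 ρ) {b : ℕ} (h1 : 1 ≤ b) (hb : b ≤ H) : 0 < kap τ b := by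
  unfold kap
  have e1 : τ (b - 1) + g0 ≤ τ b := G.tau_lt (by omega) hb
  have := G.hg0
  linarith

lemma kap_le (G : Grp r H τ g0 ρ) {b : ℕ} (hb : b ≤ H) : kap τ b ≤ 4 * r := by
  unfold kap
  have e1 := (G.tau_mem hb).2
  have e2 := (G.tau_mem (b := b - 1) (by omega)).1
  linarith

lemma kap_lt (G : Grp r H τ g0 ρ) {b : ℕ} (hb : b ≤ H) {o : ℝ} (ho : 1 ≤ o) :
    kap τ b < (4 * r + 1) * o := by
  have h1 := G.kap_le hb
  have hr := G.hr
  nlinarith

/-! ### tangent lines -/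

lemma Tl_sub (b : ℕ) (x : ℝ) (hb : 1 ≤ b) : Tl τ b x - Tl τ (b - 1) x =
    kap τ b * (x - nu τ b) := by
  unfold Tl kap nu; ring

lemma Tl_le (G : Grp r H τ g0 ρ) {b b' : ℕ} (hb : b ≤ H) (hb' : b' ≤ H) {x : ℝ}
    (h1 : b = 0 ∨ nu τ b ≤ x) (h2 : b = H ∨ x ≤ nu τ (b + 1)) : Tl τ b' x ≤ Tl τ b x := by
  have e : Tl τ b x - Tl τ b' x = (τ b - τ b') * (2 * x - τ b - τ b') := by unfold Tl; ring
  rcases lt_trichotomy b' b with h | h | h
  · have h3 : nu τ b ≤ x := by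
      rcases h1 with h1 | h1
      · omega
      · exact h1
    have h4 := G.tau_lt h hb
    have h5 : τ b' ≤ τ (b - 1) := G.tau_le (by omega) (by omega)
    have h6 := G.hg0
    unfold nu at h3
    have : 0 ≤ (τ b - τ b') * (2 * x - τ b - τ b') := mul_nonneg (by linarith) (by linarith)
    linarith
  · rw [h]
  · have h3 : x ≤ nu τ (b + 1) := by
      rcases h2 with h2 | h2
      · omega
      · exact h2
    have h4 := G.tau_lt h hb'
    have h5 : τ (b + 1) ≤ τ b' := G.tau_le (by omega) (by omega)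
    have h6 := G.hg0
    rw [nu_succ] at h3
    have : 0 ≤ (τ b - τ b') * (2 * x - τ b - τ b') :=
      mul_nonneg_of_nonpos_of_nonpos (by linarith) (by linarith)
    linarith

lemma phi_eq (G : Grp r H τ g0 ρ) {b : ℕ} (hb : b ≤ H) {x : ℝ}
    (h1 : b = 0 ∨ nu τ b ≤ x) (h2 : b = H ∨ x ≤ nu τ (b + 1)) : phi H τ x = Tl τ b x := by
  apply le_antisymm
  · refine Finset.sup'_le _ _ (fun b' hb' => ?_)
    rw [Finset.mem_range] at hb'
    exact G.Tl_le hb (by omega) h1 h2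
  · exact Finset.le_sup' (fun b => Tl τ b x) (by rw [Finset.mem_range]; omega)

/-- the interval containing `x` -/
lemma exists_idx (G : Grp r H τ g0 ρ) (x : ℝ) : ∃ b ≤ H, (b = 0 ∨ nu τ b ≤ x) ∧
    (b = H ∨ x < nu τ (b + 1)) := by
  classical
  have hne : ((Finset.range (H + 1)).filter (fun b => b = 0 ∨ nu τ b ≤ x)).Nonempty :=
    ⟨0, by simp⟩
  refine ⟨Finset.max' _ hne, ?_, ?_, ?_⟩
  · have := Finset.max'_mem _ hne
    rw [Finset.mem_filter, Finset.mem_range] at this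
    omega
  · have := Finset.max'_mem _ hne
    rw [Finset.mem_filter] at this
    exact this.2
  · by_contra hcon
    push Not at hcon
    obtain ⟨h1, h2⟩ := hcon
    have h3 := Finset.max'_mem _ hne
    rw [Finset.mem_filter, Finset.mem_range] at h3
    have h4 := Finset.le_max' ((Finset.range (H + 1)).filter (fun b => b = 0 ∨ nu τ b ≤ x))
      (Finset.max' _ hne + 1) (by
        rw [Finset.mem_filter, Finset.mem_range]
        exact ⟨by omega, Or.inr h2⟩)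
    omega

lemma phi_lt (G : Grp r H τ g0 ρ) {x : ℝ} (h1 : -(5 * r / 2) < x) (h2 : x < 5 * r / 2) :
    phi H τ x < 4 * r ^ 2 := by
  obtain ⟨b, hb, h3, h4⟩ := G.exists_idx x
  rw [G.phi_eq hb h3 (by rcases h4 with h4 | h4; exacts [Or.inl h4, Or.inr h4.le])]
  obtain ⟨h5, h6⟩ := G.tau_mem hb
  have hr := G.hr
  unfold Tl
  rcases le_total 0 (τ b) with h7 | h7
  · nlinarith [mul_nonneg h7 (by linarith : 0 ≤ 5 * r / 2 - x),
      mul_nonneg (by linarith : 0 ≤ r - τ b) (by linarith : 0 ≤ 4 * r - τ b)]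
  · nlinarith [mul_nonneg (neg_nonneg.2 h7) (by linarith : 0 ≤ 5 * r / 2 + x),
      mul_nonneg (by linarith : 0 ≤ r + τ b) (by linarith : 0 ≤ 4 * r + τ b)]

lemma T0_eq (G : Grp r H τ g0 ρ) (x : ℝ) : Tl τ 0 x = -(2 * r * x) - r ^ 2 := by
  unfold Tl; rw [G.t0]; ring

lemma TH_eq (G : Grp r H τ g0 ρ) (x : ℝ) : Tl τ H x = 2 * r * x - r ^ 2 := by
  unfold Tl; rw [G.tH]

lemma nu1_gt (G : Grp r H τ g0 ρ) {b : ℕ} (h1 : 1 ≤ b) (hb : b ≤ H) :
    -(5 * r / 2) < nu τ b - 2 * ρ ∧ nu τ b + 2 * ρ < 5 * r / 2 := by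
  have h := G.nu_mem h1 hb
  have := G.hr; have := G.hg0; have := G.hρ2; have := G.hρ
  constructor <;> linarith

/-! ### the unperturbed function -/

lemma base_mid {b : ℕ} {x : ℝ} (h1 : -(5 * r / 2) ≤ x) (h2 : x ≤ 5 * r / 2) :
    base r H τ b x = 4 * r ^ 2 - phi H τ x := by
  unfold base
  rw [if_neg (by linarith), if_neg (by linarith)]

lemma base_left (G : Grp r H τ g0 ρ) {b : ℕ} {x : ℝ} (h1 : x ≤ -(5 * r / 2)) :
    base r H τ b x = if b = 0 then 4 * r ^ 2 - Tl τ 0 x else Tl τ 0 x - 4 * r ^ 2 := by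
  have hr := G.hr
  have hH := G.hH
  rcases lt_or_eq_of_le h1 with h | h
  · unfold base
    rw [if_pos h]
  · have hn := (G.nu1_gt (b := 1) (by omega) (by omega)).1
    have hρ := G.hρ
    rw [base_mid (by linarith) (by linarith), G.phi_eq (b := 0) (by omega) (Or.inl rfl)
      (Or.inr (by rw [Nat.zero_add]; linarith))]
    have : Tl τ 0 x = 4 * r ^ 2 := by rw [G.T0_eq, h]; ring
    split_ifs
    · rfl
    · rw [this]

lemma base_right (G : Grp r H τ g0 ρ) {b : ℕ} {x : ℝ} (h1 : 5 * r / 2 ≤ x) :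
    base r H τ b x = if b = H then 4 * r ^ 2 - Tl τ H x else Tl τ H x - 4 * r ^ 2 := by
  have hr := G.hr
  have hH := G.hH
  rcases lt_or_eq_of_le h1 with h | h
  · unfold base
    rw [if_neg (by linarith), if_pos h]
  · have hn := (G.nu1_gt (b := H) (by omega) (by omega)).2
    have hρ := G.hρ
    rw [base_mid (by linarith) (by linarith), G.phi_eq (b := H) (by omega) (Or.inr (by linarith))
      (Or.inl rfl)]
    have : Tl τ H x = 4 * r ^ 2 := by rw [G.TH_eq, ← h]; ring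
    split_ifs
    · rfl
    · rw [this]

/-- kinks of the unperturbed function -/
noncomputable def kb (r : ℝ) (H : ℕ) (τ : ℕ → ℝ) (b : ℕ) : Finset ℝ :=
  (Finset.Icc 1 H).image (nu τ) ∪ ((if b = 0 then ∅ else {-(5 * r / 2)}) ∪
    (if b = H then ∅ else {5 * r / 2}))

lemma pab_base (G : Grp r H τ g0 ρ) (a a' : ℝ) (b : ℕ) :
    PAB a a' (kb r H τ b) (2 * r) (base r H τ b) := by
  intro s t _ hst _ hk
  have hr := G.hr
  have hH := G.hH
  have hρ := G.hρ
  have k1 : ∀ b', 1 ≤ b' → b' ≤ H → ¬ (s < nu τ b' ∧ nu τ b' < t) := by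
    intro b' h1 h2
    refine hk _ ?_
    unfold kb
    exact Finset.mem_union_left _ (Finset.mem_image_of_mem _ (Finset.mem_Icc.2 ⟨h1, h2⟩))
  have k2 : b ≠ 0 → ¬ (s < -(5 * r / 2) ∧ -(5 * r / 2) < t) := by
    intro h
    refine hk _ ?_
    unfold kb
    rw [if_neg h]
    exact Finset.mem_union_right _ (Finset.mem_union_left _ (Finset.mem_singleton_self _))
  have k3 : b ≠ H → ¬ (s < 5 * r / 2 ∧ 5 * r / 2 < t) := by
    intro h
    refine hk _ ?_
    unfold kb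
    rw [if_neg h]
    exact Finset.mem_union_right _ (Finset.mem_union_right _ (Finset.mem_singleton_self _))
  obtain ⟨b1, hb1, i1, i2⟩ := G.exists_idx s
  have i2' : b1 = H ∨ t ≤ nu τ (b1 + 1) := by
    rcases i2 with h | h
    · exact Or.inl h
    · by_cases hb1H : b1 = H
      · exact Or.inl hb1H
      · right
        by_contra hc
        exact k1 (b1 + 1) (by omega) (by omega) ⟨h, by linarith⟩
  have hphi : ∀ x ∈ Set.Icc s t, phi H τ x = Tl τ b1 x := by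
    intro x hx
    refine G.phi_eq hb1 ?_ ?_
    · rcases i1 with h | h
      · exact Or.inl h
      · exact Or.inr (h.trans hx.1)
    · rcases i2' with h | h
      · exact Or.inl h
      · exact Or.inr (hx.2.trans h)
  obtain ⟨t1, t2⟩ := G.tau_mem hb1
  have habs : |2 * τ b1| ≤ 2 * r := by rw [abs_le]; constructor <;> linarith
  have habs' : |(-2) * τ b1| ≤ 2 * r := by rw [abs_le]; constructor <;> linarith
  have hr2 : |2 * r| ≤ 2 * r := by rw [abs_of_pos (by linarith)]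
  have hr3 : |-2 * r| ≤ 2 * r := by rw [abs_le]; constructor <;> linarith
  -- left of -x_T the index is 0
  have hidx0 : s < -(5 * r / 2) → b1 = 0 := by
    intro h
    by_contra hb
    rcases i1 with h' | h'
    · exact hb h'
    · have := (G.nu1_gt (b := b1) (by omega) hb1).1
      linarith
  have hidxH : 5 * r / 2 < t → b1 = H := by
    intro h
    rcases i2' with h' | h'
    · exact h'
    · by_contra hb
      have := (G.nu1_gt (b := b1 + 1) (by omega) (by omega)).2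
      linarith
  by_cases hA : s < -(5 * r / 2)
  · have hb0 := hidx0 hA
    by_cases hB : t ≤ -(5 * r / 2)
    · by_cases hb : b = 0
      · refine ⟨2 * r, 4 * r ^ 2 + r ^ 2, hr2, fun x hx => ?_⟩
        rw [G.base_left (hx.2.trans hB), if_pos hb, G.T0_eq]; ring
      · refine ⟨-2 * r, - r ^ 2 - 4 * r ^ 2, hr3, fun x hx => ?_⟩
        rw [G.base_left (hx.2.trans hB), if_neg hb, G.T0_eq]; ring
    · have hb : b = 0 := by
        by_contra hb
        exact k2 hb ⟨hA, by linarith⟩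
      have htT : t ≤ 5 * r / 2 := by
        by_contra hc
        have := hidxH (by linarith)
        omega
      refine ⟨2 * r, 4 * r ^ 2 + r ^ 2, hr2, fun x hx => ?_⟩
      rcases le_total x (-(5 * r / 2)) with hx1 | hx1
      · rw [G.base_left hx1, if_pos hb, G.T0_eq]; ring
      · rw [base_mid hx1 (hx.2.trans htT), hphi x hx, hb0, G.T0_eq]; ring
  · push Not at hA
    by_cases hB : t ≤ 5 * r / 2
    · refine ⟨(-2) * τ b1, 4 * r ^ 2 + τ b1 ^ 2, habs', fun x hx => ?_⟩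
      rw [base_mid (hA.trans hx.1) (hx.2.trans hB), hphi x hx]
      unfold Tl; ring
    · push Not at hB
      have hbH := hidxH hB
      by_cases hC : s < 5 * r / 2
      · have hb : b = H := by
          by_contra hb
          exact k3 hb ⟨hC, hB⟩
        refine ⟨-2 * r, 4 * r ^ 2 + r ^ 2, hr3, fun x hx => ?_⟩
        rcases le_total x (5 * r / 2) with hx1 | hx1
        · rw [base_mid (hA.trans hx.1) hx1, hphi x hx, hbH, G.TH_eq]; ring
        · rw [G.base_right hx1, if_pos hb, G.TH_eq]; ring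
      · push Not at hC
        by_cases hb : b = H
        · refine ⟨-2 * r, 4 * r ^ 2 + r ^ 2, hr3, fun x hx => ?_⟩
          rw [G.base_right (hC.trans hx.1), if_pos hb, G.TH_eq]; ring
        · refine ⟨2 * r, - r ^ 2 - 4 * r ^ 2, hr2, fun x hx => ?_⟩
          rw [G.base_right (hC.trans hx.1), if_neg hb, G.TH_eq]; ring

/-- comparison of the unperturbed functions -/
lemma base_le (G : Grp r H τ g0 ρ) {b b' : ℕ} (hb : b < b') {x : ℝ} (hx : x ≤ 5 * r / 2) :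
    base r H τ b x ≤ base r H τ b' x := by
  have hr := G.hr
  rcases le_total x (-(5 * r / 2)) with h | h
  · rw [G.base_left h, G.base_left h, if_neg (show b' ≠ 0 by omega)]
    split_ifs
    · rw [G.T0_eq]; nlinarith
    · exact le_refl _
  · rw [base_mid h hx, base_mid h hx]

lemma base_ge (G : Grp r H τ g0 ρ) {b b' : ℕ} (hb : b < b') (hb' : b' ≤ H) {x : ℝ}
    (hx : -(5 * r / 2) ≤ x) : base r H τ b' x ≤ base r H τ b x := by
  have hr := G.hr
  rcases le_total x (5 * r / 2) with h | h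
  · rw [base_mid hx h, base_mid hx h]
  · rw [G.base_right h, G.base_right h, if_neg (show b ≠ H by omega)]
    split_ifs
    · rw [G.TH_eq]; nlinarith
    · exact le_refl _

lemma base_abs (G : Grp r H τ g0 ρ) {b : ℕ} {x : ℝ} (h1 : -(3 * r) ≤ x) (h2 : x ≤ 3 * r) :
    |base r H τ b x| ≤ 11 * r ^ 2 := by
  have hr := G.hr
  have key : ∀ b1 ≤ H, |4 * r ^ 2 - Tl τ b1 x| ≤ 11 * r ^ 2 := by
    intro b1 hb1
    obtain ⟨t1, t2⟩ := G.tau_mem hb1
    unfold Tl
    rw [abs_le]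
    constructor
    · nlinarith [mul_nonneg (by linarith : 0 ≤ r - τ b1) (by linarith : 0 ≤ r + τ b1),
        mul_nonneg (by linarith : 0 ≤ r - τ b1) (by linarith : 0 ≤ 3 * r + x),
        mul_nonneg (by linarith : 0 ≤ r + τ b1) (by linarith : 0 ≤ 3 * r - x)]
    · nlinarith [mul_nonneg (by linarith : 0 ≤ r - τ b1) (by linarith : 0 ≤ r + τ b1),
        mul_nonneg (by linarith : 0 ≤ r - τ b1) (by linarith : 0 ≤ 3 * r - x),
        mul_nonneg (by linarith : 0 ≤ r + τ b1) (by linarith : 0 ≤ 3 * r + x)]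
  have key' : ∀ b1 ≤ H, |Tl τ b1 x - 4 * r ^ 2| ≤ 11 * r ^ 2 := by
    intro b1 hb1
    rw [abs_sub_comm]; exact key b1 hb1
  unfold base
  split_ifs
  · exact key 0 (Nat.zero_le _)
  · exact key' 0 (Nat.zero_le _)
  · exact key H (le_refl _)
  · exact key' H (le_refl _)
  · obtain ⟨b1, hb1, i1, i2⟩ := G.exists_idx x
    rw [G.phi_eq hb1 i1 (by rcases i2 with i2 | i2; exacts [Or.inl i2, Or.inr i2.le])]
    exact key b1 hb1

end Grp

end SegGirth
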