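import Mathlib
import Pool.Agent.Lib.MP_beb3fe_lc.TubeFun

/-!
# The functions of the chords of one group: perturbation, comparison, kinks
-/

namespace SegGirth

open Set

namespace Grp

variable {r : ℝ} {H : ℕ} {τ : ℕ → ℝ} {g0 ρ : ℝ}

/-! ### the perturbation -/

lemma oR (_G : Grp r H τ g0 ρ) {b : ℕ} (hb : b ≤ H) : (1 : ℝ) ≤ H + 1 - b := by
  have : (b : ℝ) ≤ H := by exact_mod_cast hb
  linarith

lemma oL (_G : Grp r H τ g0 ρ) (b : ℕ) : (1 : ℝ) ≤ H + 1 + b := by
  have h1 : (0 : ℝ) ≤ b := Nat.cast_nonneg b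
  have h2 : (0 : ℝ) ≤ H := Nat.cast_nonneg H
  linarith

lemma del_right (G : Grp r H τ g0 ρ) {b : ℕ} (hb : b < H) {x : ℝ}
    (hx : nu τ (b + 1) + 2 * ρ ≤ x) : del r H τ ρ b x = (4 * r + 1) * ρ * (H + 1 - b) := by
  have hρ := G.hρ
  have hg := G.hg0
  unfold del
  rw [if_pos hb, W_top hρ (by linarith)]
  split_ifs with h0
  · have := G.nu_gap (b := b) (b' := b + 1) (by omega) (by omega) (by omega)
    rw [W_nonpos hρ (by linarith)]; ring
  · ring

lemma del_left (G : Grp r H τ g0 ρ) {b : ℕ} (h0 : 0 < b) (hb : b ≤ H) {x : ℝ}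
    (hx : x ≤ nu τ b - 2 * ρ) : del r H τ ρ b x = (4 * r + 1) * ρ * (H + 1 + b) := by
  have hρ := G.hρ
  have hg := G.hg0
  unfold del
  rw [if_pos h0, W_top (t := nu τ b - x) hρ (by linarith)]
  split_ifs with h1
  · have := G.nu_gap (b := b) (b' := b + 1) (by omega) (by omega) (by omega)
    rw [W_nonpos hρ (by linarith)]; ring
  · ring

/-- `x` is left of the edge `b`'s right end: only the left part acts -/
lemma del_eq_left (G : Grp r H τ g0 ρ) {b : ℕ} (h0 : 0 < b) {x : ℝ}
    (hx : b = H ∨ x ≤ nu τ (b + 1)) :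
    del r H τ ρ b x = W r ρ (kap τ b) (H + 1 + b) (nu τ b - x) := by
  have hρ := G.hρ
  unfold del
  rw [if_pos h0]
  split_ifs with h1
  · have : x ≤ nu τ (b + 1) := by
      rcases hx with hx | hx
      · omega
      · exact hx
    rw [W_nonpos hρ (by linarith)]; ring
  · ring

lemma del_eq_right (G : Grp r H τ g0 ρ) {b : ℕ} (hb : b < H) {x : ℝ}
    (hx : b = 0 ∨ nu τ b ≤ x) :
    del r H τ ρ b x = W r ρ (kap τ (b + 1)) (H + 1 - b) (x - nu τ (b + 1)) := by
  have hρ := G.hρ
  unfold del
  rw [if_pos hb]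
  split_ifs with h1
  · have : nu τ b ≤ x := by
      rcases hx with hx | hx
      · omega
      · exact hx
    rw [W_nonpos (t := nu τ b - x) hρ (by linarith)]; ring
  · ring

lemma del_zero (G : Grp r H τ g0 ρ) {b : ℕ} {x : ℝ}
    (h1 : b = 0 ∨ nu τ b ≤ x) (h2 : b = H ∨ x ≤ nu τ (b + 1)) : del r H τ ρ b x = 0 := by
  have hρ := G.hρ
  have e1 : (if b < H then W r ρ (kap τ (b + 1)) (H + 1 - b) (x - nu τ (b + 1)) else 0) = 0 := by
    split_ifs with h
    · have : x ≤ nu τ (b + 1) := by
        rcases h2 with h2 | h2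
        · omega
        · exact h2
      exact W_nonpos hρ (by linarith)
    · rfl
  have e2 : (if 0 < b then W r ρ (kap τ b) (H + 1 + b) (nu τ b - x) else 0) = 0 := by
    split_ifs with h
    · have : nu τ b ≤ x := by
        rcases h1 with h1 | h1
        · omega
        · exact h1
      exact W_nonpos hρ (by linarith)
    · rfl
  unfold del
  rw [e1, e2]; ring

lemma del_nonneg (G : Grp r H τ g0 ρ) {b : ℕ} (hb : b ≤ H) (x : ℝ) : 0 ≤ del r H τ ρ b x := by
  have hρ := G.hρ
  have e1 : 0 ≤ (if b < H then W r ρ (kap τ (b + 1)) (H + 1 - b) (x - nu τ (b + 1)) else 0) := by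
    split_ifs with h
    · exact W_nonneg hρ (G.kap_pos (by omega) (by omega)).le
        (G.kap_lt (by omega) (G.oR hb)).le
    · exact le_refl _
  have e2 : 0 ≤ (if 0 < b then W r ρ (kap τ b) (H + 1 + b) (nu τ b - x) else 0) := by
    split_ifs with h
    · exact W_nonneg hρ (G.kap_pos (by omega) (by omega)).le (G.kap_lt hb (G.oL b)).le
    · exact le_refl _
  unfold del
  linarith

/-- right of the left end of its edge the perturbation is at most its right value -/
lemma del_le_right (G : Grp r H τ g0 ρ) {b : ℕ} (hb : b ≤ H) {x : ℝ}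
    (h1 : b = 0 ∨ nu τ b ≤ x) : del r H τ ρ b x ≤ (4 * r + 1) * ρ * (H + 1 - b) := by
  have hρ := G.hρ
  have hr := G.hr
  by_cases h : b < H
  · rw [G.del_eq_right h h1]
    exact W_le (G.kap_pos (by omega) (by omega)).le (G.kap_lt (by omega) (G.oR hb)).le
  · rw [G.del_zero h1 (Or.inl (by omega))]
    have := G.oR hb
    positivity

lemma del_le_left (G : Grp r H τ g0 ρ) {b : ℕ} (hb : b ≤ H) {x : ℝ}
    (h1 : b = H ∨ x ≤ nu τ (b + 1)) : del r H τ ρ b x ≤ (4 * r + 1) * ρ * (H + 1 + b) := by
  have hρ := G.hρ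
  have hr := G.hr
  by_cases h : 0 < b
  · rw [G.del_eq_left h h1]
    exact W_le (G.kap_pos (by omega) (by omega)).le (G.kap_lt hb (G.oL b)).le
  · rw [G.del_zero (Or.inl (by omega)) h1]
    have := G.oL b
    positivity

lemma del_le (G : Grp r H τ g0 ρ) {b : ℕ} (hb : b ≤ H) (x : ℝ) :
    del r H τ ρ b x ≤ (4 * r + 1) * ρ * (H + 1 + b) := by
  have hρ := G.hρ
  have hr := G.hr
  by_cases h1 : b = H ∨ x ≤ nu τ (b + 1)
  · exact G.del_le_left hb h1
  · push Not at h1
    have h2 : b = 0 ∨ nu τ b ≤ x := by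
      by_cases h0 : b = 0
      · exact Or.inl h0
      · have := G.nu_gap (b := b) (b' := b + 1) (by omega) (by omega) (by omega)
        have := G.hg0
        exact Or.inr (by linarith)
    refine (G.del_le_right hb h2).trans ?_
    have : (0 : ℝ) ≤ b := Nat.cast_nonneg b
    have hh : 0 < (4 * r + 1) * ρ := by positivity
    nlinarith

lemma del_pos_right (G : Grp r H τ g0 ρ) {b : ℕ} (hb : b < H) {x : ℝ}
    (hx : nu τ (b + 1) < x) : 0 < del r H τ ρ b x := by
  have h2 : b = 0 ∨ nu τ b ≤ x := by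
    by_cases h0 : b = 0
    · exact Or.inl h0
    · have := G.nu_gap (b := b) (b' := b + 1) (by omega) (by omega) (by omega)
      have := G.hg0
      exact Or.inr (by linarith)
  rw [G.del_eq_right hb h2]
  exact W_pos G.hρ (G.kap_pos (by omega) (by omega)) (G.kap_lt (by omega) (G.oR hb.le)).le
    (by linarith)

lemma del_pos_left (G : Grp r H τ g0 ρ) {b : ℕ} (h0 : 0 < b) (hb : b ≤ H) {x : ℝ}
    (hx : x < nu τ b) : 0 < del r H τ ρ b x := by
  have h2 : b = H ∨ x ≤ nu τ (b + 1) := by
    by_cases h0 : b = H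
    · exact Or.inl h0
    · have := G.nu_gap (b := b) (b' := b + 1) (by omega) (by omega) (by omega)
      have := G.hg0
      exact Or.inr (by linarith)
  rw [G.del_eq_left h0 h2]
  exact W_pos G.hρ (G.kap_pos (by omega) (by omega)) (G.kap_lt hb (G.oL b)).le
    (by linarith)

/-- the abscissa where chords `b < b'` of a group cross -/
noncomputable def xs (r : ℝ) (H : ℕ) (τ : ℕ → ℝ) (ρ : ℝ) (b b' : ℕ) : ℝ :=
  if b' = b + 1 then nu τ b'
  else nu τ b' - ρ * (1 + ((4 * r + 1) * (H + 1 - b) - kap τ b') /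
    ((4 * r + 1) * (H + 1 + b') - kap τ b'))

lemma theta_mem (G : Grp r H τ g0 ρ) {b b' : ℕ} (h : b < b') (hb : b' ≤ H) :
    0 < ((4 * r + 1) * (H + 1 - b) - kap τ b') / ((4 * r + 1) * (H + 1 + b') - kap τ b') ∧
    ((4 * r + 1) * (H + 1 - b) - kap τ b') / ((4 * r + 1) * (H + 1 + b') - kap τ b') < 1 := by
  have h1 := G.kap_lt hb (G.oR (b := b) (by omega))
  have h2 := G.kap_lt hb (G.oL b')
  have hr := G.hr
  have e : (0 : ℝ) ≤ b := Nat.cast_nonneg b
  have e' : (1 : ℝ) ≤ b' := by exact_mod_cast (by omega : 1 ≤ b')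
  constructor
  · exact div_pos (by linarith) (by linarith)
  · rw [div_lt_one (by linarith)]
    nlinarith

lemma xs_mem (G : Grp r H τ g0 ρ) {b b' : ℕ} (h : b < b') (hb : b' ≤ H) (hne : b' ≠ b + 1) :
    nu τ b' - 2 * ρ < xs r H τ ρ b b' ∧ xs r H τ ρ b b' < nu τ b' - ρ := by
  obtain ⟨h1, h2⟩ := G.theta_mem h hb
  have hρ := G.hρ
  unfold xs
  rw [if_neg hne]
  constructor <;> nlinarith

/-- chords `b < b'`: the perturbations agree exactly at `xs` -/
lemma del_lt (G : Grp r H τ g0 ρ) {b b' : ℕ} (h : b < b') (hb : b' ≤ H) {x : ℝ}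
    (hx : x < xs r H τ ρ b b') : del r H τ ρ b x < del r H τ ρ b' x := by
  have hr := G.hr
  have hρ := G.hρ
  have hρ2 := G.hρ2
  have hg := G.hg0
  have hMρ : 0 < (4 * r + 1) * ρ := by positivity
  have hcast : (b : ℝ) + 1 ≤ b' := by exact_mod_cast h
  have hcH : (b' : ℝ) ≤ H := by exact_mod_cast hb
  have hb0 : (0 : ℝ) ≤ b := Nat.cast_nonneg b
  -- region where b' has full value
  have hfull : x ≤ nu τ b' - 2 * ρ → del r H τ ρ b x < del r H τ ρ b' x := by
    intro hx'
    rw [G.del_left (b := b') (by omega) hb hx']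
    refine lt_of_le_of_lt (G.del_le (b := b) (by omega) x) ?_
    nlinarith
  by_cases hne : b' = b + 1
  · have hx1 : x < nu τ b' := by
      unfold xs at hx
      rw [if_pos hne] at hx
      exact hx
    have hpos := G.del_pos_left (b := b') (by omega) hb hx1
    by_cases hx2 : x ≤ nu τ b' - 2 * ρ
    · exact hfull hx2
    · push Not at hx2
      rw [G.del_zero (b := b)]
      · exact hpos
      · by_cases hb0 : b = 0
        · exact Or.inl hb0
        · have := G.nu_gap (b := b) (b' := b') (by omega) (by omega) (by omega)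
          exact Or.inr (by linarith)
      · right
        rw [← hne]; exact hx1.le
  · obtain ⟨m1, m2⟩ := G.xs_mem h hb hne
    by_cases hx2 : x ≤ nu τ b' - 2 * ρ
    · exact hfull hx2
    · push Not at hx2
      have hgap := G.nu_gap (b := b + 1) (b' := b') (by omega) (by omega) (by omega)
      rw [G.del_right (b := b) (by omega) (by linarith)]
      have h2 : b' = H ∨ x ≤ nu τ (b' + 1) := by
        by_cases hbH : b' = H
        · exact Or.inl hbH
        · have := G.nu_gap (b := b') (b' := b' + 1) (by omega) (by omega) (by omega)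
          exact Or.inr (by linarith)
      rw [G.del_eq_left (b := b') (by omega) h2, W_mid hρ (by linarith) (by linarith)]
      have hden : 0 < (4 * r + 1) * (H + 1 + b') - kap τ b' := by
        have := G.kap_lt hb (G.oL b')
        linarith
      unfold xs at hx
      rw [if_neg hne] at hx
      set θ := ((4 * r + 1) * (H + 1 - b) - kap τ b') / ((4 * r + 1) * (H + 1 + b') - kap τ b')
        with hθ
      have hθ' : θ * ((4 * r + 1) * (H + 1 + b') - kap τ b') =
          (4 * r + 1) * (H + 1 - b) - kap τ b' := by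
        rw [hθ]; field_simp
      have h3 : ρ * θ < nu τ b' - x - ρ := by nlinarith
      have h4 := mul_lt_mul_of_pos_left h3 hden
      nlinarith

lemma del_gt (G : Grp r H τ g0 ρ) {b b' : ℕ} (h : b < b') (hb : b' ≤ H) {x : ℝ}
    (hx : xs r H τ ρ b b' < x) : del r H τ ρ b' x < del r H τ ρ b x := by
  have hr := G.hr
  have hρ := G.hρ
  have hρ2 := G.hρ2
  have hg := G.hg0
  have hMρ : 0 < (4 * r + 1) * ρ := by positivity
  have hcast : (b : ℝ) + 1 ≤ b' := by exact_mod_cast h
  have hcH : (b' : ℝ) ≤ H := by exact_mod_cast hb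
  have hb0 : (0 : ℝ) ≤ b := Nat.cast_nonneg b
  by_cases hne : b' = b + 1
  · have hx1 : nu τ b' < x := by
      unfold xs at hx
      rw [if_pos hne] at hx
      exact hx
    have hpos := G.del_pos_right (b := b) (by omega) (by rw [← hne]; exact hx1)
    by_cases hx2 : nu τ b' + 2 * ρ ≤ x
    · rw [G.del_right (b := b) (by omega) (by rw [← hne]; exact hx2)]
      refine lt_of_le_of_lt (G.del_le_right hb (Or.inr hx1.le)) ?_
      nlinarith
    · push Not at hx2
      rw [G.del_zero (b := b')]
      · exact hpos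
      · exact Or.inr hx1.le
      · by_cases hbH : b' = H
        · exact Or.inl hbH
        · have := G.nu_gap (b := b') (b' := b' + 1) (by omega) (by omega) (by omega)
          exact Or.inr (by linarith)
  · obtain ⟨m1, m2⟩ := G.xs_mem h hb hne
    have hgap := G.nu_gap (b := b + 1) (b' := b') (by omega) (by omega) (by omega)
    rw [G.del_right (b := b) (by omega) (by linarith)]
    by_cases hx3 : nu τ b' ≤ x
    · refine lt_of_le_of_lt (G.del_le_right hb (Or.inr hx3)) ?_
      nlinarith
    · push Not at hx3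
      have h2 : b' = H ∨ x ≤ nu τ (b' + 1) := by
        by_cases hbH : b' = H
        · exact Or.inl hbH
        · have := G.nu_gap (b := b') (b' := b' + 1) (by omega) (by omega) (by omega)
          exact Or.inr (by linarith)
      rw [G.del_eq_left (b := b') (by omega) h2]
      by_cases hx4 : nu τ b' - ρ ≤ x
      · rw [W_low hρ (by linarith) (by linarith)]
        have k1 := G.kap_le hb
        have k2 := G.kap_pos (b := b') (by omega) hb
        have k3 := G.oR (b := b) (by omega)
        have k4 : kap τ b' * (nu τ b' - x) ≤ 4 * r * ρ :=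
          mul_le_mul k1 (by linarith) (by linarith) (by linarith)
        nlinarith
      · push Not at hx4
        rw [W_mid hρ (by linarith) (by linarith)]
        have hden : 0 < (4 * r + 1) * (H + 1 + b') - kap τ b' := by
          have := G.kap_lt hb (G.oL b')
          linarith
        unfold xs at hx
        rw [if_neg hne] at hx
        set θ := ((4 * r + 1) * (H + 1 - b) - kap τ b') / ((4 * r + 1) * (H + 1 + b') - kap τ b')
          with hθ
        have hθ' : θ * ((4 * r + 1) * (H + 1 + b') - kap τ b') =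
            (4 * r + 1) * (H + 1 - b) - kap τ b' := by
          rw [hθ]; field_simp
        have h3 : nu τ b' - x - ρ < ρ * θ := by nlinarith
        have h4 := mul_lt_mul_of_pos_left h3 hden
        nlinarith

lemma del_eq (G : Grp r H τ g0 ρ) {b b' : ℕ} (h : b < b') (hb : b' ≤ H) :
    del r H τ ρ b (xs r H τ ρ b b') = del r H τ ρ b' (xs r H τ ρ b b') := by
  have hr := G.hr
  have hρ := G.hρ
  have hρ2 := G.hρ2
  have hg := G.hg0
  by_cases hne : b' = b + 1
  · have e : xs r H τ ρ b b' = nu τ b' := by unfold xs; rw [if_pos hne]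
    rw [e, G.del_zero (b := b), G.del_zero (b := b')]
    · exact Or.inr (le_refl _)
    · by_cases hbH : b' = H
      · exact Or.inl hbH
      · have := G.nu_gap (b := b') (b' := b' + 1) (by omega) (by omega) (by omega)
        exact Or.inr (by linarith)
    · by_cases hb0 : b = 0
      · exact Or.inl hb0
      · have := G.nu_gap (b := b) (b' := b') (by omega) (by omega) (by omega)
        exact Or.inr (by linarith)
    · right
      rw [hne]
  · obtain ⟨m1, m2⟩ := G.xs_mem h hb hne
    have hgap := G.nu_gap (b := b + 1) (b' := b') (by omega) (by omega) (by omega)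
    rw [G.del_right (b := b) (by omega) (by linarith)]
    have h2 : b' = H ∨ xs r H τ ρ b b' ≤ nu τ (b' + 1) := by
      by_cases hbH : b' = H
      · exact Or.inl hbH
      · have := G.nu_gap (b := b') (b' := b' + 1) (by omega) (by omega) (by omega)
        exact Or.inr (by linarith)
    rw [G.del_eq_left (b := b') (by omega) h2, W_mid hρ (by linarith) (by linarith)]
    have hden : (4 * r + 1) * (H + 1 + b') - kap τ b' ≠ 0 := by
      have := G.kap_lt hb (G.oL b')
      intro h0; linarith
    unfold xs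
    rw [if_neg hne]
    field_simp
    ring

/-- strict monotonicity of the crossing abscissae in the window of `b'` -/
lemma xs_lt (G : Grp r H τ g0 ρ) {b1 b2 b' : ℕ} (h : b1 < b2) (h2 : b2 + 1 < b') (hb : b' ≤ H) :
    xs r H τ ρ b1 b' < xs r H τ ρ b2 b' := by
  have hden : 0 < (4 * r + 1) * (H + 1 + b') - kap τ b' := by
    have := G.kap_lt hb (G.oL b')
    linarith
  have hr := G.hr
  have hρ := G.hρ
  have hcast : (b1 : ℝ) < b2 := by exact_mod_cast h
  unfold xs
  rw [if_neg (by omega), if_neg (by omega)]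
  have h3 : ((4 * r + 1) * (H + 1 - b2) - kap τ b') / ((4 * r + 1) * (H + 1 + b') - kap τ b') <
      ((4 * r + 1) * (H + 1 - b1) - kap τ b') / ((4 * r + 1) * (H + 1 + b') - kap τ b') := by
    apply div_lt_div_of_pos_right _ hden
    nlinarith
  nlinarith

/-! ### the function `u` -/

lemma xs_range (G : Grp r H τ g0 ρ) {b b' : ℕ} (h : b < b') (hb : b' ≤ H) :
    -(5 * r / 2) < xs r H τ ρ b b' ∧ xs r H τ ρ b b' < 5 * r / 2 := by
  have h1 := G.nu1_gt (b := b') (by omega) hb
  have hρ := G.hρ
  by_cases hne : b' = b + 1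
  · have e : xs r H τ ρ b b' = nu τ b' := by unfold xs; rw [if_pos hne]
    rw [e]
    constructor <;> linarith
  · obtain ⟨m1, m2⟩ := G.xs_mem h hb hne
    constructor <;> linarith

lemma uu_lt (G : Grp r H τ g0 ρ) {b b' : ℕ} (h : b < b') (hb : b' ≤ H) {x : ℝ}
    (hx : x < xs r H τ ρ b b') : uu r H τ ρ b x < uu r H τ ρ b' x := by
  have h1 := G.xs_range h hb
  have h2 := G.del_lt h hb hx
  have h3 := G.base_le h (x := x) (by linarith)
  unfold uu; linarith

lemma uu_gt (G : Grp r H τ g0 ρ) {b b' : ℕ} (h : b < b') (hb : b' ≤ H) {x : ℝ}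
    (hx : xs r H τ ρ b b' < x) : uu r H τ ρ b' x < uu r H τ ρ b x := by
  have h1 := G.xs_range h hb
  have h2 := G.del_gt h hb hx
  have h3 := G.base_ge h hb (x := x) (by linarith)
  unfold uu; linarith

lemma uu_eq (G : Grp r H τ g0 ρ) {b b' : ℕ} (h : b < b') (hb : b' ≤ H) :
    uu r H τ ρ b (xs r H τ ρ b b') = uu r H τ ρ b' (xs r H τ ρ b b') := by
  have h1 := G.xs_range h hb
  have h2 := G.del_eq h hb
  unfold uu
  rw [h2, base_mid h1.1.le h1.2.le, base_mid h1.1.le h1.2.le]

/-- value left of the tip -/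
lemma uu_left (G : Grp r H τ g0 ρ) {b : ℕ} (hb : b ≤ H) {x : ℝ} (hx : x ≤ -(5 * r / 2)) :
    uu r H τ ρ b x = if b = 0 then 4 * r ^ 2 - Tl τ 0 x
      else Tl τ 0 x - 4 * r ^ 2 + (4 * r + 1) * ρ * (H + 1 + b) := by
  have hH := G.hH
  unfold uu
  rw [G.base_left hx]
  split_ifs with h
  · subst h
    rw [G.del_zero (Or.inl rfl) (Or.inr ?_)]
    · ring
    · have := (G.nu1_gt (b := 0 + 1) (by omega) (by omega)).1
      have := G.hρ
      linarith
  · have := (G.nu1_gt (b := b) (by omega) (by omega)).1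
    rw [G.del_left (by omega) hb (by linarith)]

/-- value right of the tip -/
lemma uu_right (G : Grp r H τ g0 ρ) {b : ℕ} (hb : b ≤ H) {x : ℝ} (hx : 5 * r / 2 ≤ x) :
    uu r H τ ρ b x = if b = H then 4 * r ^ 2 - Tl τ H x
      else Tl τ H x - 4 * r ^ 2 + (4 * r + 1) * ρ * (H + 1 - b) := by
  have hH := G.hH
  unfold uu
  rw [G.base_right hx]
  split_ifs with h
  · subst h
    rw [G.del_zero (Or.inr ?_) (Or.inl rfl)]
    · ring
    · have := (G.nu1_gt (b := b) (by omega) (by omega)).2
      have := G.hρ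
      linarith
  · have := (G.nu1_gt (b := b + 1) (by omega) (by omega)).2
    rw [G.del_right (by omega) (by linarith)]

lemma uu_pos (G : Grp r H τ g0 ρ) {b : ℕ} (hb : b ≤ H) {x : ℝ} (h1 : -(5 * r / 2) < x)
    (h2 : x < 5 * r / 2) : 0 < uu r H τ ρ b x := by
  have h3 := G.phi_lt h1 h2
  have h4 := G.del_nonneg hb x
  unfold uu
  rw [base_mid h1.le h2.le]
  linarith

/-- the chord `b` is straight around its edge -/
lemma uu_mid (G : Grp r H τ g0 ρ) {b : ℕ} (hb : b ≤ H) {x : ℝ}
    (h1 : b = 0 ∨ nu τ b - ρ ≤ x) (h2 : b = H ∨ x ≤ nu τ (b + 1) + ρ) :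
    uu r H τ ρ b x = 4 * r ^ 2 - Tl τ b x := by
  have hr := G.hr
  have hρ := G.hρ
  have hρ2 := G.hρ2
  have hg := G.hg0
  have hH := G.hH
  by_cases hL : 0 < b ∧ x < nu τ b
  · obtain ⟨hb0, hxb⟩ := hL
    have h1' : nu τ b - ρ ≤ x := by
      rcases h1 with h1 | h1
      · omega
      · exact h1
    have r1 := G.nu1_gt (b := b) (by omega) hb
    have h2' : b = H ∨ x ≤ nu τ (b + 1) := by
      by_cases hbH : b = H
      · exact Or.inl hbH
      · have := G.nu_gap (b := b) (b' := b + 1) (by omega) (by omega) (by omega)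
        exact Or.inr (by linarith)
    unfold uu
    rw [base_mid (by linarith) (by linarith), G.del_eq_left hb0 h2',
      W_low hρ (by linarith) (by linarith),
      G.phi_eq (b := b - 1) (by omega) ?_ (Or.inr (by rw [show b - 1 + 1 = b by omega]; linarith))]
    · have := Tl_sub (τ := τ) b x (by omega)
      linarith
    · by_cases hb1 : b - 1 = 0
      · exact Or.inl hb1
      · have := G.nu_gap (b := b - 1) (b' := b) (by omega) (by omega) (by omega)
        exact Or.inr (by linarith)
  by_cases hR : b < H ∧ nu τ (b + 1) < x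
  · obtain ⟨hbH, hxb⟩ := hR
    have h2' : x ≤ nu τ (b + 1) + ρ := by
      rcases h2 with h2 | h2
      · omega
      · exact h2
    have r1 := G.nu1_gt (b := b + 1) (by omega) (by omega)
    have h1' : b = 0 ∨ nu τ b ≤ x := by
      by_cases hb0 : b = 0
      · exact Or.inl hb0
      · have := G.nu_gap (b := b) (b' := b + 1) (by omega) (by omega) (by omega)
        exact Or.inr (by linarith)
    unfold uu
    rw [base_mid (by linarith) (by linarith), G.del_eq_right hbH h1',
      W_low hρ (by linarith) (by linarith), G.phi_eq (b := b + 1) (by omega) (Or.inr hxb.le) ?_]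
    · have := Tl_sub (τ := τ) (b + 1) x (by omega)
      rw [show b + 1 - 1 = b by omega] at this
      linarith
    · by_cases hb1 : b + 1 = H
      · exact Or.inl hb1
      · have := G.nu_gap (b := b + 1) (b' := b + 1 + 1) (by omega) (by omega) (by omega)
        exact Or.inr (by linarith)
  · -- on the edge
    have i1 : b = 0 ∨ nu τ b ≤ x := by
      by_cases hb0 : b = 0
      · exact Or.inl hb0
      · right; by_contra hc; exact hL ⟨by omega, by linarith⟩
    have i2 : b = H ∨ x ≤ nu τ (b + 1) := by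
      by_cases hbH : b = H
      · exact Or.inl hbH
      · right; by_contra hc; exact hR ⟨by omega, by linarith⟩
    unfold uu
    rw [G.del_zero i1 i2, add_zero]
    rcases lt_or_ge x (-(5 * r / 2)) with hx | hx
    · have hb0 : b = 0 := by
        rcases i1 with i1 | i1
        · exact i1
        · by_contra hb0
          have := (G.nu1_gt (b := b) (by omega) hb).1
          linarith
      rw [G.base_left hx.le, if_pos hb0, hb0]
    · rcases lt_or_ge (5 * r / 2) x with hx' | hx'
      · have hbH : b = H := by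
          rcases i2 with i2 | i2
          · exact i2
          · by_contra hbH
            have := (G.nu1_gt (b := b + 1) (by omega) (by omega)).2
            linarith
        rw [G.base_right hx'.le, if_pos hbH, hbH]
      · rw [base_mid hx hx', G.phi_eq hb i1 i2]

/-- offsets at the contact abscissa `y` -/
noncomputable def offr (H y b : ℕ) : ℝ := if b = y then 0 else if b < y then H + 1 - b else H + 1 + b

lemma uu_anchor (G : Grp r H τ g0 ρ) {b y : ℕ} (hb : b ≤ H) (hy0 : 0 < y) (hy : y < H) {x : ℝ}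
    (h1 : τ y - g0 / 4 ≤ x) (h2 : x ≤ τ y + g0 / 4) :
    uu r H τ ρ b x = 4 * r ^ 2 - Tl τ y x + (4 * r + 1) * ρ * offr H y b := by
  have hr := G.hr
  have hρ := G.hρ
  have hρ2 := G.hρ2
  have hg := G.hg0
  have e1 := G.nu_le_tau (b := y) (by omega) hy.le
  have e2 := G.tau_le_nu (b := y) hy
  have r1 := G.nu1_gt (b := y) (by omega) hy.le
  have r2 := G.nu1_gt (b := y + 1) (by omega) (by omega)
  have hphi : phi H τ x = Tl τ y x :=
    G.phi_eq hy.le (Or.inr (by linarith)) (Or.inr (by linarith))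
  unfold uu
  rw [base_mid (by linarith) (by linarith), hphi]
  congr 1
  unfold offr
  rcases lt_trichotomy b y with h | h | h
  · rw [if_neg (by omega), if_pos h]
    have h3 : nu τ (b + 1) ≤ nu τ y := by
      rcases Nat.eq_or_lt_of_le (show b + 1 ≤ y by omega) with h4 | h4
      · rw [h4]
      · have := G.nu_gap (b := b + 1) (b' := y) (by omega) h4 hy.le
        linarith
    rw [G.del_right (by omega) (by linarith)]
  · rw [if_pos h, h, G.del_zero (Or.inr (by linarith)) (Or.inr (by linarith))]; ring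
  · rw [if_neg (by omega), if_neg (by omega)]
    have h3 : nu τ (y + 1) ≤ nu τ b := by
      rcases Nat.eq_or_lt_of_le (show y + 1 ≤ b by omega) with h4 | h4
      · rw [h4]
      · have := G.nu_gap (b := y + 1) (b' := b) (by omega) h4 hb
        linarith
    rw [G.del_left (by omega) hb (by linarith)]

/-- kinks of chord `b` -/
noncomputable def kk (r : ℝ) (H : ℕ) (τ : ℕ → ℝ) (ρ : ℝ) (b : ℕ) : Finset ℝ :=
  (((Finset.Icc 1 H).filter (fun t => t ≠ b ∧ t ≠ b + 1)).image (nu τ)) ∪
    (((if b = 0 then ∅ else {-(5 * r / 2)}) ∪ (if b = H then ∅ else {5 * r / 2})) ∪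
    ((if 0 < b then {nu τ b - ρ, nu τ b - 2 * ρ} else ∅) ∪
      (if b < H then {nu τ (b + 1) + ρ, nu τ (b + 1) + 2 * ρ} else ∅)))

lemma mem_kk {b : ℕ} {κ : ℝ} (h : κ ∈ kk r H τ ρ b) :
    (∃ t, 1 ≤ t ∧ t ≤ H ∧ t ≠ b ∧ t ≠ b + 1 ∧ κ = nu τ t) ∨ (b ≠ 0 ∧ κ = -(5 * r / 2)) ∨
    (b ≠ H ∧ κ = 5 * r / 2) ∨ (0 < b ∧ (κ = nu τ b - ρ ∨ κ = nu τ b - 2 * ρ)) ∨
    (b < H ∧ (κ = nu τ (b + 1) + ρ ∨ κ = nu τ (b + 1) + 2 * ρ)) := by
  unfold kk at h
  rw [Finset.mem_union, Finset.mem_union, Finset.mem_union, Finset.mem_union] at h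
  rcases h with h | (h | h) | (h | h)
  · obtain ⟨t, ht, rfl⟩ := Finset.mem_image.1 h
    obtain ⟨ht1, ht2⟩ := Finset.mem_filter.1 ht
    rw [Finset.mem_Icc] at ht1
    exact Or.inl ⟨t, ht1.1, ht1.2, ht2.1, ht2.2, rfl⟩
  · split_ifs at h with h0
    · simp at h
    · exact Or.inr (Or.inl ⟨h0, Finset.mem_singleton.1 h⟩)
  · split_ifs at h with h0
    · simp at h
    · exact Or.inr (Or.inr (Or.inl ⟨h0, Finset.mem_singleton.1 h⟩))
  · split_ifs at h with h0
    · rw [Finset.mem_insert, Finset.mem_singleton] at h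
      exact Or.inr (Or.inr (Or.inr (Or.inl ⟨h0, h⟩)))
    · simp at h
  · split_ifs at h with h0
    · rw [Finset.mem_insert, Finset.mem_singleton] at h
      exact Or.inr (Or.inr (Or.inr (Or.inr ⟨h0, h⟩)))
    · simp at h

lemma card_kk (r : ℝ) (H : ℕ) (τ : ℕ → ℝ) (ρ : ℝ) (b : ℕ) : (kk r H τ ρ b).card ≤ H + 6 := by
  unfold kk
  refine (Finset.card_union_le _ _).trans ?_
  have h1 : (((Finset.Icc 1 H).filter (fun t => t ≠ b ∧ t ≠ b + 1)).image (nu τ)).card ≤ H := by
    refine Finset.card_image_le.trans ((Finset.card_filter_le _ _).trans ?_)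
    rw [Nat.card_Icc]; omega
  have h2 : (if b = 0 then (∅ : Finset ℝ) else {-(5 * r / 2)}).card ≤ 1 := by
    split_ifs <;> simp
  have h3 : (if b = H then (∅ : Finset ℝ) else {5 * r / 2}).card ≤ 1 := by
    split_ifs <;> simp
  have h4 : (if 0 < b then ({nu τ b - ρ, nu τ b - 2 * ρ} : Finset ℝ) else ∅).card ≤ 2 := by
    split_ifs
    · exact Finset.card_le_two
    · simp
  have h5 : (if b < H then ({nu τ (b + 1) + ρ, nu τ (b + 1) + 2 * ρ} : Finset ℝ) else ∅).card ≤ 2 := by
    split_ifs
    · exact Finset.card_le_two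
    · simp
  have h6 := Finset.card_union_le ((if b = 0 then (∅ : Finset ℝ) else {-(5 * r / 2)}) ∪
    (if b = H then (∅ : Finset ℝ) else {5 * r / 2}))
    ((if 0 < b then ({nu τ b - ρ, nu τ b - 2 * ρ} : Finset ℝ) else ∅) ∪
      (if b < H then ({nu τ (b + 1) + ρ, nu τ (b + 1) + 2 * ρ} : Finset ℝ) else ∅))
  have h7 := Finset.card_union_le (if b = 0 then (∅ : Finset ℝ) else {-(5 * r / 2)})
    (if b = H then (∅ : Finset ℝ) else {5 * r / 2})
  have h8 := Finset.card_union_le
    (if 0 < b then ({nu τ b - ρ, nu τ b - 2 * ρ} : Finset ℝ) else ∅)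
    (if b < H then ({nu τ (b + 1) + ρ, nu τ (b + 1) + 2 * ρ} : Finset ℝ) else ∅)
  omega

lemma kk_range (G : Grp r H τ g0 ρ) {b : ℕ} (hb : b ≤ H) {κ : ℝ} (h : κ ∈ kk r H τ ρ b) :
    -(3 * r) < κ ∧ κ < 3 * r := by
  have hr := G.hr
  have hρ := G.hρ
  rcases mem_kk h with ⟨t, h1, h2, _, _, rfl⟩ | ⟨_, rfl⟩ | ⟨_, rfl⟩ | ⟨h0, h1⟩ | ⟨h0, h1⟩
  · have := G.nu1_gt h1 h2
    constructor <;> linarith
  · constructor <;> linarith
  · constructor <;> linarith
  · have := G.nu1_gt (b := b) (by omega) hb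
    rcases h1 with rfl | rfl <;> constructor <;> linarith
  · have := G.nu1_gt (b := b + 1) (by omega) (by omega)
    rcases h1 with rfl | rfl <;> constructor <;> linarith

/-- slope bound -/
noncomputable def Lam' (r : ℝ) (H : ℕ) : ℝ := 2 * r + (4 * r + 1) * (2 * H + 2)

theorem pab_uu (G : Grp r H τ g0 ρ) (a a' : ℝ) {b : ℕ} (hb : b ≤ H) :
    PAB a a' (kk r H τ ρ b) (Lam' r H) (uu r H τ ρ b) := by
  classical
  have hr := G.hr
  have hρ := G.hρ
  have hρ2 := G.hρ2
  have hg := G.hg0
  have hH := G.hH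
  have hbH : (b : ℝ) ≤ H := by exact_mod_cast hb
  have hb0 : (0 : ℝ) ≤ b := Nat.cast_nonneg b
  -- the two parts of the perturbation
  have p1 : PAB a a' (if b < H then {nu τ (b + 1), nu τ (b + 1) + ρ, nu τ (b + 1) + 2 * ρ} else ∅)
      ((4 * r + 1) * (H + 1 - b))
      (fun x => if b < H then W r ρ (kap τ (b + 1)) (H + 1 - b) (x - nu τ (b + 1)) else 0) := by
    split_ifs with h
    · exact pab_W_right a a' hρ (G.kap_pos (by omega) (by omega)).le
        (G.kap_lt (by omega) (G.oR hb)).le
    · refine (PAB.zero a a').mono (Finset.Subset.refl _) ?_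
      have := G.oR hb
      positivity
  have p2 : PAB a a' (if 0 < b then {nu τ b, nu τ b - ρ, nu τ b - 2 * ρ} else ∅)
      ((4 * r + 1) * (H + 1 + b))
      (fun x => if 0 < b then W r ρ (kap τ b) (H + 1 + b) (nu τ b - x) else 0) := by
    split_ifs with h
    · exact pab_W_left a a' hρ (G.kap_pos (by omega) (by omega)).le
        (G.kap_lt hb (G.oL b)).le
    · refine (PAB.zero a a').mono (Finset.Subset.refl _) ?_
      have := G.oL b
      positivity
  have p3 := (G.pab_base a a' b).add (p1.add p2)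
  have hfun : (fun x => base r H τ b x +
      ((if b < H then W r ρ (kap τ (b + 1)) (H + 1 - b) (x - nu τ (b + 1)) else 0) +
      (if 0 < b then W r ρ (kap τ b) (H + 1 + b) (nu τ b - x) else 0))) = uu r H τ ρ b := by
    funext x; rfl
  rw [hfun] at p3
  have hΛ : 2 * r + ((4 * r + 1) * (H + 1 - b) + (4 * r + 1) * (H + 1 + b)) = Lam' r H := by
    unfold Lam'; ring
  rw [hΛ] at p3
  -- affine around the two ends of the edge
  have aff : ∀ x, (b = 0 ∨ nu τ b - ρ ≤ x) → (b = H ∨ x ≤ nu τ (b + 1) + ρ) →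
      uu r H τ ρ b x = (-2 * τ b) * x + (4 * r ^ 2 + τ b ^ 2) := by
    intro x h1 h2
    rw [G.uu_mid hb h1 h2]; unfold Tl; ring
  -- add the two kinks, then remove them
  have hsub : ∀ κ, κ ∈ kb r H τ b ∪
      ((if b < H then {nu τ (b + 1), nu τ (b + 1) + ρ, nu τ (b + 1) + 2 * ρ} else ∅) ∪
      (if 0 < b then {nu τ b, nu τ b - ρ, nu τ b - 2 * ρ} else ∅)) →
      κ ∈ kk r H τ ρ b ∨ (0 < b ∧ κ = nu τ b) ∨ (b < H ∧ κ = nu τ (b + 1)) := by
    intro κ hκ
    rw [Finset.mem_union, Finset.mem_union] at hκ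
    rcases hκ with hκ | hκ | hκ
    · unfold kb at hκ
      rw [Finset.mem_union, Finset.mem_union] at hκ
      rcases hκ with hκ | hκ | hκ
      · obtain ⟨t, ht, rfl⟩ := Finset.mem_image.1 hκ
        rw [Finset.mem_Icc] at ht
        by_cases h1 : t = b
        · subst h1; exact Or.inr (Or.inl ⟨by omega, rfl⟩)
        · by_cases h2 : t = b + 1
          · subst h2; exact Or.inr (Or.inr ⟨by omega, rfl⟩)
          · left
            unfold kk
            exact Finset.mem_union_left _ (Finset.mem_image_of_mem _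
              (Finset.mem_filter.2 ⟨Finset.mem_Icc.2 ht, h1, h2⟩))
      · left; unfold kk
        exact Finset.mem_union_right _ (Finset.mem_union_left _ (Finset.mem_union_left _ hκ))
      · left; unfold kk
        exact Finset.mem_union_right _ (Finset.mem_union_left _ (Finset.mem_union_right _ hκ))
    · split_ifs at hκ with h
      · rw [Finset.mem_insert] at hκ
        rcases hκ with rfl | hκ
        · exact Or.inr (Or.inr ⟨h, rfl⟩)
        · left; unfold kk
          refine Finset.mem_union_right _ (Finset.mem_union_right _ (Finset.mem_union_right _ ?_))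
          rw [if_pos h]; exact hκ
      · simp at hκ
    · split_ifs at hκ with h
      · rw [Finset.mem_insert] at hκ
        rcases hκ with rfl | hκ
        · exact Or.inr (Or.inl ⟨h, rfl⟩)
        · left; unfold kk
          refine Finset.mem_union_right _ (Finset.mem_union_right _ (Finset.mem_union_left _ ?_))
          rw [if_pos h]; exact hκ
      · simp at hκ
  -- first remove the right end, then the left end
  have hR : PAB a a' (if 0 < b then insert (nu τ b) (kk r H τ ρ b) else kk r H τ ρ b)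
      (Lam' r H) (uu r H τ ρ b) := by
    by_cases h : b < H
    · refine PAB.remove (p := nu τ (b + 1)) (η := ρ) (p3.mono ?_ (le_refl _)) hρ ?_
      · intro κ hκ
        rw [Finset.mem_insert]
        rcases hsub κ hκ with h1 | ⟨h1, rfl⟩ | ⟨_, rfl⟩
        · right
          split_ifs
          · exact Finset.mem_insert_of_mem h1
          · exact h1
        · right
          rw [if_pos h1]
          exact Finset.mem_insert_self _ _
        · left; rfl
      · refine ⟨-2 * τ b, 4 * r ^ 2 + τ b ^ 2, fun x hx => aff x ?_ (Or.inr hx.2)⟩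
        by_cases h0 : b = 0
        · exact Or.inl h0
        · have := G.nu_gap (b := b) (b' := b + 1) (by omega) (by omega) (by omega)
          exact Or.inr (by linarith [hx.1])
    · refine p3.mono ?_ (le_refl _)
      intro κ hκ
      rcases hsub κ hκ with h1 | ⟨h1, rfl⟩ | ⟨h1, _⟩
      · split_ifs
        · exact Finset.mem_insert_of_mem h1
        · exact h1
      · rw [if_pos h1]
        exact Finset.mem_insert_self _ _
      · exact absurd h1 h
  by_cases h : 0 < b
  · rw [if_pos h] at hR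
    refine PAB.remove (p := nu τ b) (η := ρ) hR hρ ?_
    refine ⟨-2 * τ b, 4 * r ^ 2 + τ b ^ 2, fun x hx => aff x (Or.inr hx.1) ?_⟩
    by_cases h0 : b = H
    · exact Or.inl h0
    · have := G.nu_gap (b := b) (b' := b + 1) (by omega) (by omega) (by omega)
      exact Or.inr (by linarith [hx.2])
  · rw [if_neg h] at hR
    exact hR

lemma uu_abs (G : Grp r H τ g0 ρ) (hρ1 : ρ ≤ 1) {b : ℕ} (hb : b ≤ H) {x : ℝ}
    (h1 : -(3 * r) ≤ x) (h2 : x ≤ 3 * r) :
    |uu r H τ ρ b x| ≤ 11 * r ^ 2 + (4 * r + 1) * (2 * H + 2) := by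
  have e1 := G.base_abs (b := b) h1 h2
  have e2 := G.del_nonneg hb x
  have e3 := G.del_le hb x
  have hr := G.hr
  have hρ := G.hρ
  have hbH : (b : ℝ) ≤ H := by exact_mod_cast hb
  have hb0 : (0 : ℝ) ≤ b := Nat.cast_nonneg b
  have e4 : (4 * r + 1) * ρ * (H + 1 + b) ≤ (4 * r + 1) * (2 * H + 2) := by
    have : ρ * (H + 1 + b) ≤ 1 * (2 * H + 2) := mul_le_mul hρ1 (by linarith) (by linarith) (by norm_num)
    nlinarith
  unfold uu
  calc |base r H τ b x + del r H τ ρ b x| ≤ |base r H τ b x| + |del r H τ ρ b x| := abs_add_le _ _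
    _ ≤ 11 * r ^ 2 + (4 * r + 1) * (2 * H + 2) := by
      rw [abs_of_nonneg e2]; linarith

end Grp

end SegGirth
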