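import Mathlib
import Pool.Agent.Lib.MP_beb3fe_lc.TubeFun2
import Pool.Agent.Lib.MP_beb3fe_lc.ParamDef
import Pool.Agent.Lib.MP_beb3fe_lc.Params
import Pool.Agent.Lib.MP_beb3fe_lc.Girth

/-!
# Existence of the curves
-/

namespace SegGirth

open Set

/-- parameters including the smallest scale `ρ` -/
structure Dat (k n : ℕ) (ord : ℕ → ℕ → ℕ) (m q : ℕ → ℝ) where
  P : CParams k n ord m q
  hn : 1 ≤ n
  ρ : ℝ
  hρ : 0 < ρ
  hρ1 : ρ ≤ 1
  hρ2 : 20 * ρ ≤ P.g0
  hρ3 : 16 * (P.ε * (4 * P.r + 1) * (4 * HH k n + 2) * ρ) ≤ P.g0 * P.γ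

namespace Dat

variable {k n : ℕ} {ord : ℕ → ℕ → ℕ} {m q : ℕ → ℝ}

lemma HH_ge (D : Dat k n ord m q) : 3 ≤ HH k n := by
  have := D.hn
  unfold HH KK
  calc 3 = 3 * 1 := by ring
    _ ≤ (k + 3) * (2 * n - 1) := Nat.mul_le_mul (by omega) (by omega)

lemma grp (D : Dat k n ord m q) {i : ℕ} (hi : i < n) (g : Bool) :
    Grp D.P.r (HH k n) (D.P.τ i g) D.P.g0 D.ρ :=
  ⟨D.P.hr, by have := D.HH_ge; omega, D.P.hg0, D.hρ, D.hρ2, D.P.τ0 i hi g, D.P.τH i hi g,
    D.P.τgap i hi g⟩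

/-- the function of chord `(i,g,c)` -/
noncomputable def F (D : Dat k n ord m q) (i : ℕ) (g : Bool) (c : ℕ) (x : ℝ) : ℝ :=
  m i * x + q i - sg g * (D.P.ε * uu D.P.r (HH k n) (D.P.τ i g) D.ρ c x)

/-- the coefficient of the difference at an anchor -/
noncomputable def Sg (D : Dat k n ord m q) (i : ℕ) (g : Bool) (j : ℕ) (g' : Bool) : ℝ :=
  (m i - m j) + 2 * D.P.τ i g (KK k * anc ord i j g') * D.P.ε * (sg g - sg g')

/-- abscissa of the crossing of two chords -/
noncomputable def xc (D : Dat k n ord m q) (i : ℕ) (g : Bool) (c j : ℕ) (g' : Bool) (c' : ℕ) :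
    ℝ :=
  if i = j then
    if g = g' then
      (if c < c' then Grp.xs D.P.r (HH k n) (D.P.τ i g) D.ρ c c'
        else Grp.xs D.P.r (HH k n) (D.P.τ i g) D.ρ c' c)
    else (if c = 0 then -(5 * D.P.r / 2) else 5 * D.P.r / 2)
  else D.P.τ i g (KK k * anc ord i j g') +
    D.P.ε * (4 * D.P.r + 1) * D.ρ * (sg g * Grp.offr (HH k n) (KK k * anc ord i j g') c -
      sg g' * Grp.offr (HH k n) (KK k * anc ord j i g) c') / D.Sg i g j g'

lemma sg_abs (g : Bool) : |sg g| = 1 := by cases g <;> simp [sg]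

lemma sg_mem (g : Bool) : sg g = 1 ∨ sg g = -1 := by cases g <;> simp [sg]

lemma offr_nonneg {H y c : ℕ} (hc : c ≤ H) : 0 ≤ Grp.offr H y c := by
  have h1 : (c : ℝ) ≤ H := by exact_mod_cast hc
  have h2 : (0 : ℝ) ≤ c := Nat.cast_nonneg c
  unfold Grp.offr
  split_ifs <;> linarith

lemma offr_le {H y c : ℕ} (hc : c ≤ H) : Grp.offr H y c ≤ 2 * H + 1 := by
  have h1 : (c : ℝ) ≤ H := by exact_mod_cast hc
  have h2 : (0 : ℝ) ≤ c := Nat.cast_nonneg c
  unfold Grp.offr
  split_ifs <;> linarith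

lemma offr_eq {y c : ℕ} (hc : c ≤ HH k n) : Grp.offr (HH k n) y c = (off k n y c : ℝ) := by
  unfold Grp.offr off
  split_ifs with h1 h2
  · simp
  · rw [Nat.cast_sub (by omega)]; push_cast; ring
  · push_cast; ring

/-- crossing chords of one group -/
lemma same_eq (D : Dat k n ord m q) {i : ℕ} (hi : i < n) (g : Bool) {c c' : ℕ} (h : c < c')
    (hc : c' ≤ HH k n) {x : ℝ} : D.F i g c x = D.F i g c' x ↔
      x = Grp.xs D.P.r (HH k n) (D.P.τ i g) D.ρ c c' := by
  have G := D.grp hi g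
  have hε := D.P.hε
  have key : D.F i g c x = D.F i g c' x ↔
      uu D.P.r (HH k n) (D.P.τ i g) D.ρ c x = uu D.P.r (HH k n) (D.P.τ i g) D.ρ c' x := by
    unfold F
    constructor
    · intro h
      have h1 : sg g * D.P.ε * (uu D.P.r (HH k n) (D.P.τ i g) D.ρ c x -
          uu D.P.r (HH k n) (D.P.τ i g) D.ρ c' x) = 0 := by linarith
      have h2 : sg g * D.P.ε ≠ 0 := by
        rcases sg_mem g with h | h <;> rw [h] <;> simp [hε.ne']
      rcases mul_eq_zero.1 h1 with h3 | h3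
      · exact absurd h3 h2
      · linarith
    · intro h; rw [h]
  rw [key]
  constructor
  · intro he
    rcases lt_trichotomy x (Grp.xs D.P.r (HH k n) (D.P.τ i g) D.ρ c c') with h1 | h1 | h1
    · have := G.uu_lt h hc h1; linarith
    · exact h1
    · have := G.uu_gt h hc h1; linarith
  · rintro rfl
    exact G.uu_eq h hc

/-- chords of the two groups of one tube -/
lemma opp_zero (D : Dat k n ord m q) {i : ℕ} (hi : i < n) {c c' : ℕ} (hc : c ≤ HH k n)
    (hc' : c' ≤ HH k n) {x : ℝ}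
    (h : uu D.P.r (HH k n) (D.P.τ i false) D.ρ c x +
      uu D.P.r (HH k n) (D.P.τ i true) D.ρ c' x = 0) :
    (c = 0 ∧ c' = 0 ∧ x = -(5 * D.P.r / 2)) ∨ (c = HH k n ∧ c' = HH k n ∧ x = 5 * D.P.r / 2) := by
  have G := D.grp hi false
  have G' := D.grp hi true
  have hr := D.P.hr
  have hρ := D.hρ
  have c0 : (0 : ℝ) ≤ c := Nat.cast_nonneg c
  have c0' : (0 : ℝ) ≤ c' := Nat.cast_nonneg c'
  have cH : (c : ℝ) ≤ HH k n := by exact_mod_cast hc
  have cH' : (c' : ℝ) ≤ HH k n := by exact_mod_cast hc'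
  have hM : 0 < (4 * D.P.r + 1) * D.ρ := by positivity
  rcases le_or_gt x (-(5 * D.P.r / 2)) with hx | hx
  · rw [G.uu_left hc hx, G'.uu_left hc' hx, G.T0_eq, G'.T0_eq] at h
    have hT : 4 * D.P.r ^ 2 ≤ -(2 * D.P.r * x) - D.P.r ^ 2 := by nlinarith
    have p1 : 0 < (4 * D.P.r + 1) * D.ρ * ((HH k n : ℝ) + 1 + c) := by positivity
    have p2 : 0 < (4 * D.P.r + 1) * D.ρ * ((HH k n : ℝ) + 1 + c') := by positivity
    split_ifs at h with h1 h2 h2
    · left
      refine ⟨h1, h2, ?_⟩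
      have h3 : 2 * D.P.r * (x + 5 * D.P.r / 2) = 0 := by linarith
      rcases mul_eq_zero.1 h3 with h4 | h4
      · linarith
      · linarith
    · linarith
    · linarith
    · linarith
  · rcases lt_or_ge x (5 * D.P.r / 2) with hx' | hx'
    · have := G.uu_pos hc hx hx'
      have := G'.uu_pos hc' hx hx'
      linarith
    · rw [G.uu_right hc hx', G'.uu_right hc' hx', G.TH_eq, G'.TH_eq] at h
      have hT : 4 * D.P.r ^ 2 ≤ 2 * D.P.r * x - D.P.r ^ 2 := by nlinarith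
      have p1 : 0 < (4 * D.P.r + 1) * D.ρ * ((HH k n : ℝ) + 1 - c) :=
        mul_pos hM (by linarith)
      have p2 : 0 < (4 * D.P.r + 1) * D.ρ * ((HH k n : ℝ) + 1 - c') :=
        mul_pos hM (by linarith)
      split_ifs at h with h1 h2 h2
      · right
        refine ⟨h1, h2, ?_⟩
        have h3 : 2 * D.P.r * (x - 5 * D.P.r / 2) = 0 := by linarith
        rcases mul_eq_zero.1 h3 with h4 | h4
        · linarith
        · linarith
      · linarith
      · linarith
      · linarith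

lemma opp_eq (D : Dat k n ord m q) {i : ℕ} (hi : i < n) {g g' : Bool} (hg : g ≠ g') {c c' : ℕ}
    (hc : c ≤ HH k n) (hc' : c' ≤ HH k n) {x : ℝ} (h : D.F i g c x = D.F i g' c' x) :
    (c = 0 ∧ c' = 0 ∧ x = -(5 * D.P.r / 2)) ∨ (c = HH k n ∧ c' = HH k n ∧ x = 5 * D.P.r / 2) := by
  have hε := D.P.hε
  cases g
  · cases g'
    · exact absurd rfl hg
    · refine D.opp_zero hi hc hc' ?_
      unfold F at h
      simp only [sg, if_true, Bool.false_eq_true, if_false] at h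
      have h1 : D.P.ε * (uu D.P.r (HH k n) (D.P.τ i false) D.ρ c x +
        uu D.P.r (HH k n) (D.P.τ i true) D.ρ c' x) = 0 := by linarith
      rcases mul_eq_zero.1 h1 with h2 | h2
      · exact absurd h2 hε.ne'
      · exact h2
  · cases g'
    · have h0 := D.opp_zero hi hc' hc (x := x) (by
        unfold F at h
        simp only [sg, if_true, Bool.false_eq_true, if_false] at h
        have h1 : D.P.ε * (uu D.P.r (HH k n) (D.P.τ i false) D.ρ c' x +
          uu D.P.r (HH k n) (D.P.τ i true) D.ρ c x) = 0 := by linarith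
        rcases mul_eq_zero.1 h1 with h2 | h2
        · exact absurd h2 hε.ne'
        · exact h2)
      rcases h0 with ⟨h1, h2, h3⟩ | ⟨h1, h2, h3⟩
      · exact Or.inl ⟨h2, h1, h3⟩
      · exact Or.inr ⟨h2, h1, h3⟩
    · exact absurd rfl hg

lemma tipL_eq (D : Dat k n ord m q) {i : ℕ} (hi : i < n) (g : Bool) :
    D.F i g 0 (-(5 * D.P.r / 2)) = m i * (-(5 * D.P.r / 2)) + q i := by
  have G := D.grp hi g
  unfold F
  rw [G.uu_left (Nat.zero_le _) (le_refl _), if_pos rfl, G.T0_eq]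
  ring

lemma tipR_eq (D : Dat k n ord m q) {i : ℕ} (hi : i < n) (g : Bool) :
    D.F i g (HH k n) (5 * D.P.r / 2) = m i * (5 * D.P.r / 2) + q i := by
  have G := D.grp hi g
  unfold F
  rw [G.uu_right (le_refl _) (le_refl _), if_pos rfl, G.TH_eq]
  ring

/-! ### different tubes -/

lemma anchor_pos (_D : Dat k n ord m q) (h : OrdOK n ord) {i j : ℕ} (hi : i < n) (hj : j < n)
    (hij : i ≠ j) (g : Bool) : 0 < KK k * anc ord i j g ∧ KK k * anc ord i j g < HH k n := by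
  have h1 := Gir.KK_anc_le (k := k) h (g := g) hi hj hij
  have h2 := Gir.anc_pos (ord := ord) i j g
  have h3 : 0 < KK k := by unfold KK; omega
  exact ⟨Nat.mul_pos h3 (by omega), by omega⟩

lemma zeta_mem (D : Dat k n ord m q) (h : OrdOK n ord) {i j : ℕ} (hi : i < n) (hj : j < n)
    (hij : i ≠ j) (g g' : Bool) : |D.P.τ i g (KK k * anc ord i j g')| ≤ D.P.r := by
  have G := D.grp hi g
  have := G.tau_mem (b := KK k * anc ord i j g') (D.anchor_pos h hi hj hij g').2.le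
  rw [abs_le]; exact this

lemma Sg_anti (D : Dat k n ord m q) {i j : ℕ} (hi : i < n) (hj : j < n)
    (hij : i ≠ j) (g g' : Bool) : D.Sg j g' i g = - D.Sg i g j g' := by
  unfold Sg
  rw [D.P.anchor i hi j hj hij g g']; ring

lemma Sg_lt (D : Dat k n ord m q) (h : OrdOK n ord) {i j : ℕ} (hij : i < j) (hj : j < n)
    (g g' : Bool) : D.Sg i g j g' ≤ -(D.P.γ / 2) := by
  have h1 := D.P.slope i j hij hj
  have h2 := D.zeta_mem h (show i < n by omega) hj (by omega) g g'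
  have h3 := D.P.ε3
  have hε := D.P.hε
  have hr := D.P.hr
  unfold Sg
  set ζ := D.P.τ i g (KK k * anc ord i j g')
  rw [abs_le] at h2
  have e1 : |ζ * (sg g - sg g')| ≤ 2 * D.P.r := by
    rw [abs_mul]
    have a1 : |ζ| ≤ D.P.r := abs_le.2 h2
    have a2 : |sg g - sg g'| ≤ 2 := Par.sg_abs g g'
    calc |ζ| * |sg g - sg g'| ≤ D.P.r * 2 :=
          mul_le_mul a1 a2 (abs_nonneg _) (by linarith)
      _ = 2 * D.P.r := by ring
  have e2 := (abs_le.1 e1).2
  have e3 : D.P.ε * (ζ * (sg g - sg g')) ≤ D.P.ε * (2 * D.P.r) :=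
    mul_le_mul_of_nonneg_left e2 hε.le
  have e4 : 2 * ζ * D.P.ε * (sg g - sg g') = 2 * (D.P.ε * (ζ * (sg g - sg g'))) := by ring
  rw [e4]
  linarith

lemma Sg_gt (D : Dat k n ord m q) (h : OrdOK n ord) {i j : ℕ} (hij : j < i) (hi : i < n)
    (g g' : Bool) : D.P.γ / 2 ≤ D.Sg i g j g' := by
  have h1 := D.Sg_lt h hij hi g' g
  rw [D.Sg_anti hi (show j < n by omega) (by omega) g g'] at h1
  linarith

lemma Sg_abs (D : Dat k n ord m q) (h : OrdOK n ord) {i j : ℕ} (hi : i < n) (hj : j < n)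
    (hij : i ≠ j) (g g' : Bool) : D.P.γ / 2 ≤ |D.Sg i g j g'| := by
  rcases Nat.lt_or_ge i j with h1 | h1
  · have := D.Sg_lt h h1 hj g g'
    have := neg_le_abs (D.Sg i g j g')
    linarith
  · have := D.Sg_gt h (show j < i by omega) hi g g'
    exact this.trans (le_abs_self _)

/-- the difference of two chords near the anchor -/
lemma diff_near (D : Dat k n ord m q) (h : OrdOK n ord) {i j : ℕ} (hi : i < n) (hj : j < n)
    (hij : i ≠ j) (g g' : Bool) {c c' : ℕ} (hc : c ≤ HH k n) (hc' : c' ≤ HH k n) {x : ℝ}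
    (h1 : D.P.τ i g (KK k * anc ord i j g') - D.P.g0 / 4 ≤ x)
    (h2 : x ≤ D.P.τ i g (KK k * anc ord i j g') + D.P.g0 / 4) :
    D.F i g c x - D.F j g' c' x =
      D.Sg i g j g' * (x - D.P.τ i g (KK k * anc ord i j g')) -
        D.P.ε * (4 * D.P.r + 1) * D.ρ * (sg g * Grp.offr (HH k n) (KK k * anc ord i j g') c -
      sg g' * Grp.offr (HH k n) (KK k * anc ord j i g) c') := by
  have G := D.grp hi g
  have G' := D.grp hj g'
  have ha := D.P.anchor i hi j hj hij g g'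
  have hz := D.P.zero i hi j hj hij g g'
  obtain ⟨y0, y1⟩ := D.anchor_pos h hi hj hij g'
  obtain ⟨y0', y1'⟩ := D.anchor_pos h hj hi (Ne.symm hij) g
  have hne : m i - m j ≠ 0 := by
    have hγ := D.P.hγ
    rcases Nat.lt_or_ge i j with h | h
    · have := D.P.slope i j h hj; intro h0; linarith
    · have := D.P.slope j i (by omega) hi; intro h0; linarith
  have hx : (m i - m j) * xx m q i j = q j - q i := by unfold xx; field_simp
  unfold F
  rw [G.uu_anchor hc y0 y1 h1 h2, G'.uu_anchor hc' y0' y1' (by rw [← ha]; exact h1)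
    (by rw [← ha]; exact h2)]
  unfold Tl Sg
  rw [← ha]
  set ζ := D.P.τ i g (KK k * anc ord i j g')
  linear_combination hz + hx

lemma xc_diff (D : Dat k n ord m q) {i j : ℕ} (hij : i ≠ j) (g g' : Bool) (c c' : ℕ) :
    D.xc i g c j g' c' = D.P.τ i g (KK k * anc ord i j g') +
    D.P.ε * (4 * D.P.r + 1) * D.ρ * (sg g * Grp.offr (HH k n) (KK k * anc ord i j g') c -
      sg g' * Grp.offr (HH k n) (KK k * anc ord j i g) c') / D.Sg i g j g' := by
  unfold xc
  rw [if_neg hij]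

lemma xc_near (D : Dat k n ord m q) (h : OrdOK n ord) {i j : ℕ} (hi : i < n) (hj : j < n)
    (hij : i ≠ j) (g g' : Bool) {c c' : ℕ} (hc : c ≤ HH k n) (hc' : c' ≤ HH k n) :
    |D.xc i g c j g' c' - D.P.τ i g (KK k * anc ord i j g')| ≤ D.P.g0 / 8 := by
  rw [D.xc_diff hij]
  rw [add_sub_cancel_left, abs_div]
  have hS := D.Sg_abs h hi hj hij g g'
  have hγ := D.P.hγ
  have hε := D.P.hε
  have hr := D.P.hr
  have hρ := D.hρ
  have hρ3 := D.hρ3
  have hg := D.P.hg0
  have hSpos : 0 < |D.Sg i g j g'| := by linarith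
  rw [div_le_iff₀ hSpos]
  have e1 : |sg g * Grp.offr (HH k n) (KK k * anc ord i j g') c -
      sg g' * Grp.offr (HH k n) (KK k * anc ord j i g) c'| ≤ 4 * HH k n + 2 := by
    refine (abs_sub _ _).trans ?_
    rw [abs_mul, abs_mul, sg_abs, sg_abs, one_mul, one_mul, abs_of_nonneg (offr_nonneg hc),
      abs_of_nonneg (offr_nonneg hc')]
    have := offr_le (y := KK k * anc ord i j g') hc
    have := offr_le (y := KK k * anc ord j i g) hc'
    linarith
  have e0 : 0 ≤ D.P.ε * (4 * D.P.r + 1) * D.ρ := by positivity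
  rw [abs_mul, abs_of_nonneg e0]
  have e2 := mul_le_mul_of_nonneg_left e1 e0
  have e3 : D.P.g0 / 8 * (D.P.γ / 2) ≤ D.P.g0 / 8 * |D.Sg i g j g'| :=
    mul_le_mul_of_nonneg_left hS (by linarith)
  have e4 : D.P.ε * (4 * D.P.r + 1) * D.ρ * (4 * (HH k n : ℝ) + 2) =
    D.P.ε * (4 * D.P.r + 1) * (4 * HH k n + 2) * D.ρ := by ring
  rw [e4] at e2
  linarith

lemma xc_eq_diff (D : Dat k n ord m q) (h : OrdOK n ord) {i j : ℕ} (hi : i < n) (hj : j < n)
    (hij : i ≠ j) (g g' : Bool) {c c' : ℕ} (hc : c ≤ HH k n) (hc' : c' ≤ HH k n) :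
    D.F i g c (D.xc i g c j g' c') = D.F j g' c' (D.xc i g c j g' c') := by
  have hn := D.xc_near h hi hj hij g g' hc hc'
  have hg := D.P.hg0
  rw [abs_le] at hn
  have hd := D.diff_near h hi hj hij g g' hc hc' (x := D.xc i g c j g' c') (by linarith)
    (by linarith)
  have hS := D.Sg_abs h hi hj hij g g'
  have hγ := D.P.hγ
  have hSne : D.Sg i g j g' ≠ 0 := by
    intro h0; rw [h0, abs_zero] at hS; linarith
  have e : D.Sg i g j g' * (D.xc i g c j g' c' - D.P.τ i g (KK k * anc ord i j g')) =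
      D.P.ε * (4 * D.P.r + 1) * D.ρ * (sg g * Grp.offr (HH k n) (KK k * anc ord i j g') c -
      sg g' * Grp.offr (HH k n) (KK k * anc ord j i g) c') := by
    rw [D.xc_diff hij, add_sub_cancel_left]
    field_simp
  rw [e, sub_self] at hd
  linarith

/-- Lipschitz bound for the perturbation terms -/
lemma F_lip (D : Dat k n ord m q) {i : ℕ} (hi : i < n) (g : Bool) {c : ℕ} (hc : c ≤ HH k n)
    {s t : ℝ} (hs : -(3 * D.P.r) ≤ s) (hst : s ≤ t) (ht : t ≤ 3 * D.P.r) :
    |(D.F i g c t - D.F i g c s) - m i * (t - s)| ≤ D.P.ε * Grp.Lam' D.P.r (HH k n) * (t - s) := by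
  have G := D.grp hi g
  have hl := (G.pab_uu (-(3 * D.P.r)) (3 * D.P.r) hc).lip s t hs hst ht
  have hε := D.P.hε
  have e : (D.F i g c t - D.F i g c s) - m i * (t - s) =
      -(sg g * D.P.ε) * (uu D.P.r (HH k n) (D.P.τ i g) D.ρ c t -
        uu D.P.r (HH k n) (D.P.τ i g) D.ρ c s) := by unfold F; ring
  rw [e, abs_mul, abs_neg, abs_mul, sg_abs, one_mul, abs_of_pos hε, mul_assoc]
  exact mul_le_mul_of_nonneg_left hl hε.le

lemma diff_anti (D : Dat k n ord m q) {i j : ℕ} (hij : i < j) (hj : j < n) (g g' : Bool)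
    {c c' : ℕ} (hc : c ≤ HH k n) (hc' : c' ≤ HH k n) {s t : ℝ} (hs : -(3 * D.P.r) ≤ s)
    (hst : s < t) (ht : t ≤ 3 * D.P.r) :
    D.F i g c t - D.F j g' c' t < D.F i g c s - D.F j g' c' s := by
  have h1 := D.F_lip (show i < n by omega) g hc hs hst.le ht
  have h2 := D.F_lip hj g' hc' hs hst.le ht
  have h3 := D.P.slope i j hij hj
  have h4 := D.P.ε1
  rw [abs_le] at h1 h2
  have h5 : 2 * (D.P.ε * Grp.Lam' D.P.r (HH k n)) < D.P.γ := by
    unfold Grp.Lam'; exact h4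
  have h6 : 2 * (D.P.ε * Grp.Lam' D.P.r (HH k n)) * (t - s) < (m j - m i) * (t - s) :=
    mul_lt_mul_of_pos_right (by linarith) (by linarith)
  nlinarith [h1.2, h2.1]

lemma diff_unique (D : Dat k n ord m q) {i j : ℕ} (hij : i < j) (hj : j < n) (g g' : Bool)
    {c c' : ℕ} (hc : c ≤ HH k n) (hc' : c' ≤ HH k n) {s t : ℝ} (hs : -(3 * D.P.r) ≤ s)
    (hs' : s ≤ 3 * D.P.r) (ht : -(3 * D.P.r) ≤ t) (ht' : t ≤ 3 * D.P.r)
    (e1 : D.F i g c s = D.F j g' c' s) (e2 : D.F i g c t = D.F j g' c' t) : s = t := by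
  rcases lt_trichotomy s t with h | h | h
  · have := D.diff_anti hij hj g g' hc hc' hs h ht'
    linarith
  · exact h
  · have := D.diff_anti hij hj g g' hc hc' ht h hs'
    linarith

/-! ### crossing relation -/

lemma cross_iff_rank (x y : (csys k n ord).X) : (csys k n ord).cross x y ↔
    (lrank k n x.1 x.2.1 x.2.2 < lrank k n y.1 y.2.1 y.2.2 ∧
      rrank k n y.1 y.2.1 y.2.2 < rrank k n x.1 x.2.1 x.2.2) ∨
    (lrank k n y.1 y.2.1 y.2.2 < lrank k n x.1 x.2.1 x.2.2 ∧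
      rrank k n x.1 x.2.1 x.2.2 < rrank k n y.1 y.2.1 y.2.2) := Iff.rfl

lemma lrank_diff {i j : ℕ} (hij : i < j) (g g' : Bool) {c : ℕ} (c' : ℕ) (hc : c ≤ HH k n) :
    lrank k n i g c < lrank k n j g' c' := by
  unfold lrank
  have h1 : (i + 1) * (2 * HH k n + 2) ≤ j * (2 * HH k n + 2) := Nat.mul_le_mul_right _ hij
  have h2 : (i + 1) * (2 * HH k n + 2) = i * (2 * HH k n + 2) + (2 * HH k n + 2) := by ring
  have h3 : lkey (HH k n) g c ≤ 2 * HH k n + 1 := by unfold lkey; split_ifs <;> omega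
  omega

lemma rrank_diff {i j : ℕ} (hij : i < j) (hj : j < n) (g g' : Bool) (c : ℕ) {c' : ℕ}
    (hc' : c' ≤ HH k n) : rrank k n j g' c' < rrank k n i g c := by
  unfold rrank
  have h1 : (n - 1 - j + 1) * (2 * HH k n + 2) ≤ (n - 1 - i) * (2 * HH k n + 2) :=
    Nat.mul_le_mul_right _ (by omega)
  have h2 : (n - 1 - j + 1) * (2 * HH k n + 2) =
    (n - 1 - j) * (2 * HH k n + 2) + (2 * HH k n + 2) := by ring
  have h3 : rkey (HH k n) g' c' ≤ 2 * HH k n + 1 := by unfold rkey; split_ifs <;> omega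
  omega

lemma cross_diff' (x y : (csys k n ord).X) (hxy : (x.1 : ℕ) ≠ y.1) :
    (csys k n ord).cross x y := by
  rw [cross_iff_rank]
  have hx := x.2.2.isLt
  have hy := y.2.2.isLt
  have hx1 := x.1.isLt
  have hy1 := y.1.isLt
  rcases Nat.lt_or_ge (x.1 : ℕ) y.1 with h | h
  · left
    exact ⟨lrank_diff h _ _ _ (by omega), rrank_diff h (by omega) _ _ _ (by omega)⟩
  · right
    have h' : (y.1 : ℕ) < x.1 := by omega
    exact ⟨lrank_diff h' _ _ _ (by omega), rrank_diff h' (by omega) _ _ _ (by omega)⟩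

lemma cross_same' (x y : (csys k n ord).X) (h1 : (x.1 : ℕ) = y.1) (h2 : x.2.1 = y.2.1)
    (h3 : (x.2.2 : ℕ) ≠ y.2.2) : (csys k n ord).cross x y := by
  rw [cross_iff_rank]
  have hx := x.2.2.isLt
  have hy := y.2.2.isLt
  unfold lrank rrank lkey rkey
  rw [h1, h2]
  generalize (y.1 : ℕ) * (2 * HH k n + 2) = A
  generalize (n - 1 - (y.1 : ℕ)) * (2 * HH k n + 2) = B
  cases y.2.1
  · simp only [Bool.false_eq_true, if_false]
    split_ifs <;> omega
  · simp only [if_true]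
    split_ifs <;> omega

lemma cross_opp' (hH : 1 ≤ HH k n) (x y : (csys k n ord).X) (h1 : (x.1 : ℕ) = y.1)
    (h2 : x.2.1 ≠ y.2.1) :
    (csys k n ord).cross x y ↔ (((x.2.2 : ℕ) = 0 ∧ (y.2.2 : ℕ) = 0) ∨
      ((x.2.2 : ℕ) = HH k n ∧ (y.2.2 : ℕ) = HH k n)) := by
  rw [cross_iff_rank]
  have hx := x.2.2.isLt
  have hy := y.2.2.isLt
  unfold lrank rrank lkey rkey
  rw [h1]
  generalize (y.1 : ℕ) * (2 * HH k n + 2) = A
  generalize (n - 1 - (y.1 : ℕ)) * (2 * HH k n + 2) = B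
  revert h2
  cases x.2.1 <;> cases y.2.1 <;> intro h2
  · exact absurd rfl h2
  · simp only [Bool.false_eq_true, if_false, if_true]
    split_ifs <;> omega
  · simp only [Bool.false_eq_true, if_false, if_true]
    split_ifs <;> omega
  · exact absurd rfl h2

/-! ### orders at the walls -/

lemma F_left (D : Dat k n ord m q) {i : ℕ} (hi : i < n) (g : Bool) {c : ℕ} (hc : c ≤ HH k n) :
    D.F i g c (-(3 * D.P.r)) = m i * (-(3 * D.P.r)) + q i - sg g * (D.P.ε *
      (if c = 0 then - D.P.r ^ 2 else D.P.r ^ 2 + (4 * D.P.r + 1) * D.ρ * (HH k n + 1 + c))) := by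
  have G := D.grp hi g
  have hr := D.P.hr
  unfold F
  rw [G.uu_left hc (by linarith), G.T0_eq]
  congr 3
  split_ifs <;> ring

lemma F_right (D : Dat k n ord m q) {i : ℕ} (hi : i < n) (g : Bool) {c : ℕ} (hc : c ≤ HH k n) :
    D.F i g c (3 * D.P.r) = m i * (3 * D.P.r) + q i - sg g * (D.P.ε *
      (if c = HH k n then - D.P.r ^ 2
        else D.P.r ^ 2 + (4 * D.P.r + 1) * D.ρ * (HH k n + 1 - c))) := by
  have G := D.grp hi g
  have hr := D.P.hr
  unfold F
  rw [G.uu_right hc (by linarith), G.TH_eq]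
  congr 3
  split_ifs <;> ring

/-- different tubes at the left wall and at the right wall -/
lemma wall_diff (D : Dat k n ord m q) {i j : ℕ} (hij : i < j) (hj : j < n) (g g' : Bool)
    {c c' : ℕ} (hc : c ≤ HH k n) (hc' : c' ≤ HH k n) :
    D.F j g' c' (-(3 * D.P.r)) < D.F i g c (-(3 * D.P.r)) ∧
      D.F i g c (3 * D.P.r) < D.F j g' c' (3 * D.P.r) := by
  have G := D.grp (show i < n by omega) g
  have G' := D.grp hj g'
  have hr := D.P.hr
  have hγ := D.P.hγ
  have hε := D.P.hε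
  have h3 := D.P.slope i j hij hj
  have h4 := D.P.size i (by omega) j hj (by omega)
  have h5 := D.P.ε2
  have hne : m i - m j ≠ 0 := by intro h0; linarith
  have hx : (m i - m j) * xx m q i j = q j - q i := by unfold xx; field_simp
  have hxx := abs_le.1 (show |xx m q i j| ≤ D.P.r - 1 by linarith)
  have key : ∀ (i : ℕ) (g : Bool) (c : ℕ), i < n → c ≤ HH k n → ∀ x, -(3 * D.P.r) ≤ x →
      x ≤ 3 * D.P.r → |sg g * (D.P.ε * uu D.P.r (HH k n) (D.P.τ i g) D.ρ c x)| ≤
        D.P.ε * (12 * D.P.r ^ 2 + (4 * D.P.r + 1) * (2 * HH k n + 2)) := by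
    intro i g c hi hc x h1 h2
    rw [abs_mul, sg_abs, one_mul, abs_mul, abs_of_pos hε]
    refine mul_le_mul_of_nonneg_left ?_ hε.le
    have := (D.grp hi g).uu_abs D.hρ1 hc h1 h2
    nlinarith [sq_nonneg D.P.r]
  have k1 := abs_le.1 (key i g c (by omega) hc (-(3 * D.P.r)) (by linarith) (by linarith))
  have k2 := abs_le.1 (key j g' c' hj hc' (-(3 * D.P.r)) (by linarith) (by linarith))
  have k3 := abs_le.1 (key i g c (by omega) hc (3 * D.P.r) (by linarith) (by linarith))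
  have k4 := abs_le.1 (key j g' c' hj hc' (3 * D.P.r) (by linarith) (by linarith))
  have m1 : D.P.γ * (2 * D.P.r) ≤ (m j - m i) * (xx m q i j + 3 * D.P.r) :=
    mul_le_mul h3 (by linarith) (by linarith) (by linarith)
  have m2 : D.P.γ * (2 * D.P.r) ≤ (m j - m i) * (3 * D.P.r - xx m q i j) :=
    mul_le_mul h3 (by linarith) (by linarith) (by linarith)
  unfold F
  constructor
  · nlinarith [k1.1, k1.2, k2.1, k2.2]
  · nlinarith [k3.1, k3.2, k4.1, k4.2]

lemma left_same (D : Dat k n ord m q) {i : ℕ} (hi : i < n) (g g' : Bool) {c c' : ℕ}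
    (hc : c ≤ HH k n) (hc' : c' ≤ HH k n) (h : lkey (HH k n) g c < lkey (HH k n) g' c') :
    D.F i g' c' (-(3 * D.P.r)) < D.F i g c (-(3 * D.P.r)) := by
  rw [D.F_left hi g hc, D.F_left hi g' hc']
  have hr := D.P.hr
  have hε := D.P.hε
  have hρ := D.hρ
  have hM : 0 < (4 * D.P.r + 1) * D.ρ := by positivity
  have c0 : (0 : ℝ) ≤ c := Nat.cast_nonneg c
  have c0' : (0 : ℝ) ≤ c' := Nat.cast_nonneg c'
  have p1 : 0 < (4 * D.P.r + 1) * D.ρ * ((HH k n : ℝ) + 1 + c) := by positivity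
  have p2 : 0 < (4 * D.P.r + 1) * D.ρ * ((HH k n : ℝ) + 1 + c') := by positivity
  have hr2 : 0 < D.P.r ^ 2 := by positivity
  have cmp : ∀ a a' : ℕ, a < a' → (4 * D.P.r + 1) * D.ρ * ((HH k n : ℝ) + 1 + a) <
      (4 * D.P.r + 1) * D.ρ * ((HH k n : ℝ) + 1 + a') := by
    intro a a' haa
    have : (a : ℝ) < a' := by exact_mod_cast haa
    exact mul_lt_mul_of_pos_left (by linarith) hM
  have fin : ∀ u u' : ℝ, u < u' → m i * (-(3 * D.P.r)) + q i - D.P.ε * u' <
      m i * (-(3 * D.P.r)) + q i - D.P.ε * u := by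
    intro u u' huu
    have := mul_lt_mul_of_pos_left huu hε
    linarith
  unfold lkey at h
  have e : ∀ (g : Bool) (v : ℝ), m i * (-(3 * D.P.r)) + q i - sg g * (D.P.ε * v) =
      m i * (-(3 * D.P.r)) + q i - D.P.ε * (sg g * v) := by intro g v; ring
  rw [e, e]
  apply fin
  cases g <;> cases g' <;> simp only [sg, Bool.false_eq_true, if_false, if_true] at h ⊢ <;>
    split_ifs at h ⊢ <;> first | omega | linarith | (have := cmp c c' (by omega); linarith) |
      (have := cmp c' c (by omega); linarith)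

lemma right_same (D : Dat k n ord m q) {i : ℕ} (hi : i < n) (g g' : Bool) {c c' : ℕ}
    (hc : c ≤ HH k n) (hc' : c' ≤ HH k n) (h : rkey (HH k n) g c < rkey (HH k n) g' c') :
    D.F i g' c' (3 * D.P.r) < D.F i g c (3 * D.P.r) := by
  rw [D.F_right hi g hc, D.F_right hi g' hc']
  have hr := D.P.hr
  have hε := D.P.hε
  have hρ := D.hρ
  have hM : 0 < (4 * D.P.r + 1) * D.ρ := by positivity
  have cH : (c : ℝ) ≤ HH k n := by exact_mod_cast hc
  have cH' : (c' : ℝ) ≤ HH k n := by exact_mod_cast hc'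
  have p1 : 0 < (4 * D.P.r + 1) * D.ρ * ((HH k n : ℝ) + 1 - c) := mul_pos hM (by linarith)
  have p2 : 0 < (4 * D.P.r + 1) * D.ρ * ((HH k n : ℝ) + 1 - c') := mul_pos hM (by linarith)
  have hr2 : 0 < D.P.r ^ 2 := by positivity
  have cmp : ∀ a a' : ℕ, a < a' → (4 * D.P.r + 1) * D.ρ * ((HH k n : ℝ) + 1 - a') <
      (4 * D.P.r + 1) * D.ρ * ((HH k n : ℝ) + 1 - a) := by
    intro a a' haa
    have : (a : ℝ) < a' := by exact_mod_cast haa
    exact mul_lt_mul_of_pos_left (by linarith) hM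
  have fin : ∀ u u' : ℝ, u < u' → m i * (3 * D.P.r) + q i - D.P.ε * u' <
      m i * (3 * D.P.r) + q i - D.P.ε * u := by
    intro u u' huu
    have := mul_lt_mul_of_pos_left huu hε
    linarith
  unfold rkey at h
  have e : ∀ (g : Bool) (v : ℝ), m i * (3 * D.P.r) + q i - sg g * (D.P.ε * v) =
      m i * (3 * D.P.r) + q i - D.P.ε * (sg g * v) := by intro g v; ring
  rw [e, e]
  apply fin
  cases g <;> cases g' <;> simp only [sg, Bool.false_eq_true, if_false, if_true] at h ⊢ <;>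
    split_ifs at h ⊢ <;> first | omega | linarith | (have := cmp c c' (by omega); linarith) |
      (have := cmp c' c (by omega); linarith)

end Dat

end SegGirth
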