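import Mathlib
import Pool.Agent.Lib.MP_beb3fe_lc.TubeFun2

/-!
# Zones of abscissae on a chord
-/

namespace SegGirth

open Set

namespace Grp

variable {r : ℝ} {H : ℕ} {τ : ℕ → ℝ} {g0 ρ : ℝ}

/-- the abscissa `x` is in zone `q` of chord `b` -/
def Zone (H : ℕ) (τ : ℕ → ℝ) (g0 ρ : ℝ) (b q : ℕ) (x : ℝ) : Prop :=
  (q = 2 * b + 1 ∧ (b = 0 ∨ nu τ b ≤ x) ∧ (b = H ∨ x ≤ nu τ (b + 1))) ∨
  (∃ t, q = 2 * t ∧ 1 ≤ t ∧ t ≤ H ∧ t ≠ b + 1 ∧ nu τ t - 2 * ρ < x ∧ x < nu τ t - ρ) ∨
  (∃ t, q = 2 * t + 1 ∧ 1 ≤ t ∧ t < H ∧ t ≠ b ∧ nu τ t + g0 / 4 < x ∧ x < nu τ (t + 1) - g0 / 4)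

lemma nu_mono (G : Grp r H τ g0 ρ) {b b' : ℕ} (h1 : 1 ≤ b) (h : b ≤ b') (hb : b' ≤ H) :
    nu τ b ≤ nu τ b' := by
  rcases Nat.eq_or_lt_of_le h with h | h
  · rw [h]
  · have := G.nu_gap h1 h hb
    have := G.hg0
    linarith

lemma zone_lt (G : Grp r H τ g0 ρ) {b q q' : ℕ} {x x' : ℝ} (hb : b ≤ H) (h : q < q')
    (z : Zone H τ g0 ρ b q x) (z' : Zone H τ g0 ρ b q' x') : x < x' := by
  have hρ := G.hρ
  have hρ2 := G.hρ2
  have hg := G.hg0
  rcases z with ⟨rfl, z1, z2⟩ | ⟨t, rfl, t1, t2, t3, z1, z2⟩ | ⟨t, rfl, t1, t2, t3, z1, z2⟩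
  · rcases z' with ⟨h', _, _⟩ | ⟨s, rfl, s1, s2, s3, w1, w2⟩ | ⟨s, rfl, s1, s2, s3, w1, w2⟩
    · omega
    · have hx : x ≤ nu τ (b + 1) := by
        rcases z2 with z2 | z2
        · omega
        · exact z2
      have := G.nu_gap (b := b + 1) (b' := s) (by omega) (by omega) s2
      linarith
    · have hx : x ≤ nu τ (b + 1) := by
        rcases z2 with z2 | z2
        · omega
        · exact z2
      have := G.nu_mono (b := b + 1) (b' := s) (by omega) (by omega) (by omega)
      linarith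
  · rcases z' with ⟨rfl, w1, w2⟩ | ⟨s, rfl, s1, s2, s3, w1, w2⟩ | ⟨s, rfl, s1, s2, s3, w1, w2⟩
    · have hx : nu τ b ≤ x' := by
        rcases w1 with w1 | w1
        · omega
        · exact w1
      have := G.nu_mono (b := t) (b' := b) (by omega) (by omega) (by omega)
      linarith
    · have := G.nu_gap (b := t) (b' := s) (by omega) (by omega) s2
      linarith
    · have := G.nu_mono (b := t) (b' := s) (by omega) (by omega) (by omega)
      linarith
  · rcases z' with ⟨rfl, w1, w2⟩ | ⟨s, rfl, s1, s2, s3, w1, w2⟩ | ⟨s, rfl, s1, s2, s3, w1, w2⟩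
    · have hx : nu τ b ≤ x' := by
        rcases w1 with w1 | w1
        · omega
        · exact w1
      have := G.nu_mono (b := t + 1) (b' := b) (by omega) (by omega) (by omega)
      linarith
    · have := G.nu_mono (b := t + 1) (b' := s) (by omega) (by omega) (by omega)
      linarith
    · have := G.nu_mono (b := t + 1) (b' := s) (by omega) (by omega) (by omega)
      linarith

lemma zone_kink (G : Grp r H τ g0 ρ) {b q : ℕ} {x x' κ : ℝ} (hb : b ≤ H)
    (z : Zone H τ g0 ρ b q x) (z' : Zone H τ g0 ρ b q x') (hκ : κ ∈ kk r H τ ρ b) :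
    ¬ (x ≤ κ ∧ κ ≤ x') := by
  have hρ := G.hρ
  have hρ2 := G.hρ2
  have hg := G.hg0
  rintro ⟨k1, k2⟩
  rcases z with ⟨rfl, z1, z2⟩ | ⟨t, rfl, t1, t2, t3, z1, z2⟩ | ⟨t, rfl, t1, t2, t3, z1, z2⟩
  · have z' : (b = 0 ∨ nu τ b ≤ x') ∧ (b = H ∨ x' ≤ nu τ (b + 1)) := by
      rcases z' with ⟨_, w1, w2⟩ | ⟨s, h', _⟩ | ⟨s, h', _, _, h2, _⟩
      · exact ⟨w1, w2⟩
      · omega
      · omega
    have L : b = 0 ∨ nu τ b ≤ κ := by
      rcases z1 with z1 | z1
      · exact Or.inl z1
      · exact Or.inr (by linarith)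
    have U : b = H ∨ κ ≤ nu τ (b + 1) := by
      rcases z'.2 with z2 | z2
      · exact Or.inl z2
      · exact Or.inr (by linarith)
    rcases mem_kk hκ with ⟨s, h1, h2, h3, h4, rfl⟩ | ⟨h0, rfl⟩ | ⟨h0, rfl⟩ | ⟨h0, h1⟩ | ⟨h0, h1⟩
    · rcases Nat.lt_or_ge s b with hs | hs
      · rcases L with L | L
        · omega
        · have := G.nu_gap h1 hs hb
          linarith
      · rcases U with U | U
        · omega
        · have := G.nu_gap (b := b + 1) (b' := s) (by omega) (by omega) h2
          linarith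
    · rcases L with L | L
      · exact h0 L
      · have := (G.nu1_gt (b := b) (by omega) hb).1
        linarith
    · rcases U with U | U
      · exact h0 U
      · have := (G.nu1_gt (b := b + 1) (by omega) (by omega)).2
        linarith
    · rcases L with L | L
      · omega
      · rcases h1 with rfl | rfl <;> linarith
    · rcases U with U | U
      · omega
      · rcases h1 with rfl | rfl <;> linarith
  · have z' : nu τ t - 2 * ρ < x' ∧ x' < nu τ t - ρ := by
      rcases z' with ⟨h', w1, w2⟩ | ⟨s, h', _, _, _, w1, w2⟩ | ⟨s, h', _, _, h2, _⟩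
      · omega
      · have : s = t := by omega
        subst this
        exact ⟨w1, w2⟩
      · omega
    have L : nu τ t - 2 * ρ < κ := by linarith
    have U : κ < nu τ t - ρ := by linarith [z'.2]
    rcases mem_kk hκ with ⟨s, h1, h2, h3, h4, rfl⟩ | ⟨h0, rfl⟩ | ⟨h0, rfl⟩ | ⟨h0, h1⟩ | ⟨h0, h1⟩
    · rcases Nat.lt_or_ge s t with hs | hs
      · have := G.nu_gap h1 hs t2
        linarith
      · have := G.nu_mono t1 hs h2
        linarith
    · have := (G.nu1_gt t1 t2).1
      linarith
    · have := (G.nu1_gt t1 t2).2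
      linarith
    · rcases lt_trichotomy b t with hs | hs | hs
      · have := G.nu_gap (b := b) (b' := t) (by omega) hs t2
        rcases h1 with rfl | rfl <;> linarith
      · subst hs
        rcases h1 with rfl | rfl <;> linarith
      · have := G.nu_gap (b := t) (b' := b) (by omega) hs hb
        rcases h1 with rfl | rfl <;> linarith
    · rcases lt_trichotomy (b + 1) t with hs | hs | hs
      · have := G.nu_gap (b := b + 1) (b' := t) (by omega) hs t2
        rcases h1 with rfl | rfl <;> linarith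
      · exact t3 hs.symm
      · have := G.nu_gap (b := t) (b' := b + 1) (by omega) hs (by omega)
        rcases h1 with rfl | rfl <;> linarith
  · have z' : nu τ t + g0 / 4 < x' ∧ x' < nu τ (t + 1) - g0 / 4 := by
      rcases z' with ⟨h', w1, w2⟩ | ⟨s, h', _, _, _, w1, w2⟩ | ⟨s, h', _, _, h2, w1, w2⟩
      · omega
      · omega
      · have : s = t := by omega
        subst this
        exact ⟨w1, w2⟩
    have L : nu τ t + g0 / 4 < κ := by linarith
    have U : κ < nu τ (t + 1) - g0 / 4 := by linarith [z'.2]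
    rcases mem_kk hκ with ⟨s, h1, h2, h3, h4, rfl⟩ | ⟨h0, rfl⟩ | ⟨h0, rfl⟩ | ⟨h0, h1⟩ | ⟨h0, h1⟩
    · rcases Nat.lt_or_ge t s with hs | hs
      · have := G.nu_mono (b := t + 1) (b' := s) (by omega) hs h2
        linarith
      · have := G.nu_mono h1 hs (by omega)
        linarith
    · have := (G.nu1_gt t1 t2.le).1
      linarith
    · have := (G.nu1_gt (b := t + 1) (by omega) (by omega)).2
      linarith
    · rcases lt_trichotomy b t with hs | hs | hs
      · have := G.nu_gap (b := b) (b' := t) (by omega) hs t2.le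
        rcases h1 with rfl | rfl <;> linarith
      · exact t3 hs.symm
      · have := G.nu_mono (b := t + 1) (b' := b) (by omega) hs hb
        rcases h1 with rfl | rfl <;> linarith
    · rcases lt_trichotomy b t with hs | hs | hs
      · have := G.nu_mono (b := b + 1) (b' := t) (by omega) hs t2.le
        rcases h1 with rfl | rfl <;> linarith
      · exact t3 hs.symm
      · have := G.nu_gap (b := t + 1) (b' := b + 1) (by omega) (by omega) (by omega)
        rcases h1 with rfl | rfl <;> linarith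

end Grp

end SegGirth
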