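import Mathlib
import Pool.Agent.Lib.MP_beb3fe_lc.CurvesExist
import Pool.Agent.Lib.MP_beb3fe_lc.Zone
import Pool.Agent.Lib.MP_beb3fe_lc.CurveDef

/-!
# Existence of the curves, second part
-/

namespace SegGirth

open Set

/-- crossing of two chords in terms of their parameters -/
def Cr (H i : ℕ) (g : Bool) (c j : ℕ) (g' : Bool) (c' : ℕ) : Prop :=
  i ≠ j ∨ (i = j ∧ g = g' ∧ c ≠ c') ∨ (i = j ∧ g ≠ g' ∧ ((c = 0 ∧ c' = 0) ∨ (c = H ∧ c' = H)))

lemma Cr.symm {H i : ℕ} {g : Bool} {c j : ℕ} {g' : Bool} {c' : ℕ} (h : Cr H i g c j g' c') :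
    Cr H j g' c' i g c := by
  rcases h with h | ⟨h1, h2, h3⟩ | ⟨h1, h2, h3⟩
  · exact Or.inl (Ne.symm h)
  · exact Or.inr (Or.inl ⟨h1.symm, h2.symm, Ne.symm h3⟩)
  · refine Or.inr (Or.inr ⟨h1.symm, Ne.symm h2, ?_⟩)
    rcases h3 with ⟨a, b⟩ | ⟨a, b⟩
    · exact Or.inl ⟨b, a⟩
    · exact Or.inr ⟨b, a⟩

lemma cross_iff_Cr {k n : ℕ} {ord : ℕ → ℕ → ℕ} (hH : 1 ≤ HH k n) (x y : (csys k n ord).X) :
    (csys k n ord).cross x y ↔ Cr (HH k n) x.1 x.2.1 x.2.2 y.1 y.2.1 y.2.2 := by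
  unfold Cr
  by_cases h1 : (x.1 : ℕ) = y.1
  · by_cases h2 : x.2.1 = y.2.1
    · by_cases h3 : (x.2.2 : ℕ) = y.2.2
      · rw [Dat.cross_iff_rank, h1, h2, h3]
        constructor
        · rintro (⟨h, _⟩ | ⟨h, _⟩) <;> omega
        · rintro (h | ⟨_, _, h⟩ | ⟨_, h, _⟩)
          · exact absurd rfl h
          · exact absurd rfl h
          · exact absurd rfl h
      · exact ⟨fun _ => Or.inr (Or.inl ⟨h1, h2, h3⟩), fun _ => Dat.cross_same' x y h1 h2 h3⟩
    · rw [Dat.cross_opp' hH x y h1 h2]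
      constructor
      · intro h; exact Or.inr (Or.inr ⟨h1, h2, h⟩)
      · rintro (h | ⟨_, h, _⟩ | ⟨_, _, h⟩)
        · exact absurd h1 h
        · exact absurd h h2
        · exact h
  · exact ⟨fun _ => Or.inl h1, fun _ => Dat.cross_diff' x y h1⟩

namespace Dat

variable {k n : ℕ} {ord : ℕ → ℕ → ℕ} {m q : ℕ → ℝ}

lemma xc_same (D : Dat k n ord m q) (i : ℕ) (g : Bool) (c c' : ℕ) : D.xc i g c i g c' =
    if c < c' then Grp.xs D.P.r (HH k n) (D.P.τ i g) D.ρ c c'
        else Grp.xs D.P.r (HH k n) (D.P.τ i g) D.ρ c' c := by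
  unfold xc; rw [if_pos rfl, if_pos rfl]

lemma xc_opp (D : Dat k n ord m q) (i : ℕ) {g g' : Bool} (hg : g ≠ g') (c c' : ℕ) :
    D.xc i g c i g' c' = if c = 0 then -(5 * D.P.r / 2) else 5 * D.P.r / 2 := by
  unfold xc; rw [if_pos rfl, if_neg hg]

lemma xc_symm (D : Dat k n ord m q) {i j : ℕ} (hi : i < n) (hj : j < n) {g g' : Bool} {c c' : ℕ}
    (h : Cr (HH k n) i g c j g' c') : D.xc j g' c' i g c = D.xc i g c j g' c' := by
  rcases h with h | ⟨rfl, rfl, h⟩ | ⟨rfl, h2, h3⟩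
  · rw [D.xc_diff h, D.xc_diff (Ne.symm h), ← D.P.anchor i hi j hj h g g', D.Sg_anti hi hj h,
      div_neg]
    ring
  · rw [D.xc_same, D.xc_same]
    rcases Nat.lt_or_ge c c' with h1 | h1
    · rw [if_neg (by omega), if_pos h1]
    · rw [if_pos (by omega), if_neg (by omega)]
  · have hH := D.HH_ge
    rw [D.xc_opp _ h2, D.xc_opp _ (Ne.symm h2)]
    rcases h3 with ⟨a, b⟩ | ⟨a, b⟩
    · rw [if_pos b, if_pos a]
    · rw [if_neg (by omega), if_neg (by omega)]

lemma F_xc (D : Dat k n ord m q) (ho : OrdOK n ord) {i j : ℕ} (hi : i < n) (hj : j < n)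
    {g g' : Bool} {c c' : ℕ} (hc : c ≤ HH k n) (hc' : c' ≤ HH k n)
    (h : Cr (HH k n) i g c j g' c') :
    D.F i g c (D.xc i g c j g' c') = D.F j g' c' (D.xc i g c j g' c') := by
  have hH := D.HH_ge
  rcases h with h | ⟨rfl, rfl, h⟩ | ⟨rfl, h2, h3⟩
  · exact D.xc_eq_diff ho hi hj h g g' hc hc'
  · rw [D.xc_same]
    rcases Nat.lt_or_ge c c' with h1 | h1
    · rw [if_pos h1]
      exact (D.same_eq hi g h1 hc').2 rfl
    · rw [if_neg (by omega)]
      exact ((D.same_eq hi g (show c' < c by omega) hc).2 rfl).symm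
  · rw [D.xc_opp _ h2]
    rcases h3 with ⟨rfl, rfl⟩ | ⟨rfl, rfl⟩
    · rw [if_pos rfl, D.tipL_eq hi, D.tipL_eq hi]
    · rw [if_neg (by omega), D.tipR_eq hi, D.tipR_eq hi]

lemma xc_range (D : Dat k n ord m q) (ho : OrdOK n ord) {i j : ℕ} (hi : i < n) (hj : j < n)
    {g g' : Bool} {c c' : ℕ} (hc : c ≤ HH k n) (hc' : c' ≤ HH k n)
    (h : Cr (HH k n) i g c j g' c') :
    -(3 * D.P.r) < D.xc i g c j g' c' ∧ D.xc i g c j g' c' < 3 * D.P.r := by
  have hr := D.P.hr
  have G := D.grp hi g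
  rcases h with h | ⟨rfl, rfl, h⟩ | ⟨rfl, h2, h3⟩
  · have h1 := abs_le.1 (D.xc_near ho hi hj h g g' hc hc')
    have h2 := abs_le.1 (D.zeta_mem ho hi hj h g g')
    have h3 := G.g0_le
    have h4 := D.P.hg0
    constructor <;> linarith [h1.1, h1.2, h2.1, h2.2]
  · rw [D.xc_same]
    split_ifs with h1
    · have := G.xs_range h1 hc'
      constructor <;> linarith [this.1, this.2]
    · have := G.xs_range (show c' < c by omega) hc
      constructor <;> linarith [this.1, this.2]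
  · rw [D.xc_opp _ h2]
    split_ifs <;> constructor <;> linarith

lemma F_uniq (D : Dat k n ord m q) (ho : OrdOK n ord) {i j : ℕ} (hi : i < n) (hj : j < n)
    {g g' : Bool} {c c' : ℕ} (hc : c ≤ HH k n) (hc' : c' ≤ HH k n)
    (hne : ¬ (i = j ∧ g = g' ∧ c = c')) {x : ℝ} (h1 : -(3 * D.P.r) ≤ x) (h2 : x ≤ 3 * D.P.r)
    (he : D.F i g c x = D.F j g' c' x) :
    Cr (HH k n) i g c j g' c' ∧ x = D.xc i g c j g' c' := by
  have hH := D.HH_ge
  by_cases hij : i = j
  · subst hij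
    by_cases hg : g = g'
    · subst hg
      have hcc : c ≠ c' := fun h => hne ⟨rfl, rfl, h⟩
      refine ⟨Or.inr (Or.inl ⟨rfl, rfl, hcc⟩), ?_⟩
      rw [D.xc_same]
      rcases Nat.lt_or_ge c c' with h | h
      · rw [if_pos h]
        exact (D.same_eq hi g h hc').1 he
      · rw [if_neg (by omega)]
        exact (D.same_eq hi g (show c' < c by omega) hc).1 he.symm
    · rcases D.opp_eq hi hg hc hc' he with ⟨a, b, e⟩ | ⟨a, b, e⟩
      · refine ⟨Or.inr (Or.inr ⟨rfl, hg, Or.inl ⟨a, b⟩⟩), ?_⟩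
        rw [D.xc_opp _ hg, if_pos a, e]
      · refine ⟨Or.inr (Or.inr ⟨rfl, hg, Or.inr ⟨a, b⟩⟩), ?_⟩
        rw [D.xc_opp _ hg, if_neg (by omega), e]
  · have hcr : Cr (HH k n) i g c j g' c' := Or.inl hij
    refine ⟨hcr, ?_⟩
    have hx := D.xc_range ho hi hj hc hc' hcr
    have hF := D.F_xc ho hi hj hc hc' hcr
    rcases Nat.lt_or_ge i j with h | h
    · exact D.diff_unique h hj g g' hc hc' h1 h2 hx.1.le hx.2.le he hF
    · exact D.diff_unique (show j < i by omega) hi g' g hc' hc h1 h2 hx.1.le hx.2.le he.symm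
        hF.symm

/-! ### places on a chord -/

/-- sub-code of a crossing with a chord of a different tube -/
def sub (k n : ℕ) (ord : ℕ → ℕ → ℕ) (i : ℕ) (g : Bool) (j : ℕ) (g' : Bool) (c' : ℕ) : ℕ :=
  if decide (i < j) = g' then (2 * HH k n + 2) - off k n (KK k * anc ord j i g) c'
    else off k n (KK k * anc ord j i g) c'

/-- the abscissa `x` is at a place with code `(q', s)` on chord `(i,g,b)` -/
def Pl (D : Dat k n ord m q) (i : ℕ) (g : Bool) (b q' s : ℕ) (x : ℝ) : Prop :=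
  (q' = 2 * b + 1 ∧ s = 0 ∧ (b = 0 ∨ nu (D.P.τ i g) b ≤ x) ∧
    (b = HH k n ∨ x ≤ nu (D.P.τ i g) (b + 1))) ∨
  (∃ b1, b1 + 1 < b ∧ q' = 2 * b ∧ s = b1 ∧
    x = Grp.xs D.P.r (HH k n) (D.P.τ i g) D.ρ b1 b) ∨
  (∃ t, b + 1 < t ∧ t ≤ HH k n ∧ q' = 2 * t ∧ s = 0 ∧
    x = Grp.xs D.P.r (HH k n) (D.P.τ i g) D.ρ b t) ∨
  (∃ j g' c', j < n ∧ i ≠ j ∧ c' ≤ HH k n ∧ b ≠ KK k * anc ord i j g' ∧
    q' = 2 * (KK k * anc ord i j g') + 1 ∧ s = sub k n ord i g j g' c' ∧
    x = D.xc i g b j g' c')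

lemma exists_place (D : Dat k n ord m q) (ho : OrdOK n ord) {i j : ℕ} (hi : i < n) (hj : j < n)
    {g g' : Bool} {c c' : ℕ} (hc : c ≤ HH k n) (hc' : c' ≤ HH k n)
    (h : Cr (HH k n) i g c j g' c') : ∃ q' s, code k n ord i g c j g' c' = q' * MM k n + s ∧
      s < MM k n ∧ D.Pl i g c q' s (D.xc i g c j g' c') := by
  have hH := D.HH_ge
  have G := D.grp hi g
  have hr := D.P.hr
  have hρ := D.hρ
  have hρ2 := D.hρ2
  have hg0 := D.P.hg0
  have hne : ¬ (i = j ∧ g = g' ∧ c = c') := by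
    rintro ⟨rfl, rfl, rfl⟩
    rcases h with h | ⟨_, _, h⟩ | ⟨_, h, _⟩
    · exact h rfl
    · exact h rfl
    · exact h rfl
  rcases Gir.code_cases k n ord i g c j g' c' hne with ⟨e, h1⟩ | ⟨rfl, rfl, h1, e⟩ |
    ⟨rfl, rfl, h1, e⟩ | ⟨h1, h2, e⟩
  · refine ⟨2 * c + 1, 0, e, by unfold MM; omega, Or.inl ⟨rfl, rfl, ?_⟩⟩
    rcases h1 with ⟨rfl, rfl, h1⟩ | ⟨rfl, h1⟩ | ⟨h1, h2⟩
    · rw [D.xc_same]
      rcases h1 with h1 | h1
      · rw [if_neg (by omega)]
        have e1 : Grp.xs D.P.r (HH k n) (D.P.τ i g) D.ρ c' c = nu (D.P.τ i g) c := by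
          unfold Grp.xs; rw [if_pos h1.symm]
        rw [e1]
        refine ⟨Or.inr (le_refl _), ?_⟩
        by_cases hcH : c = HH k n
        · exact Or.inl hcH
        · exact Or.inr (G.nu_mono (by omega) (by omega) (by omega))
      · rw [if_pos (by omega)]
        have e1 : Grp.xs D.P.r (HH k n) (D.P.τ i g) D.ρ c c' = nu (D.P.τ i g) (c + 1) := by
          unfold Grp.xs; rw [if_pos h1, h1]
        rw [e1]
        refine ⟨?_, Or.inr (le_refl _)⟩
        by_cases hc0 : c = 0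
        · exact Or.inl hc0
        · exact Or.inr (G.nu_mono (by omega) (by omega) (by omega))
    · have h3 : (c = 0 ∧ c' = 0) ∨ (c = HH k n ∧ c' = HH k n) := by
        rcases h with h | ⟨_, h, _⟩ | ⟨_, _, h⟩
        · exact absurd rfl h
        · exact absurd h h1
        · exact h
      rw [D.xc_opp _ h1]
      rcases h3 with ⟨rfl, _⟩ | ⟨rfl, _⟩
      · rw [if_pos rfl]
        refine ⟨Or.inl rfl, Or.inr ?_⟩
        have := (G.nu1_gt (b := 0 + 1) (by omega) (by omega)).1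
        linarith
      · rw [if_neg (by omega)]
        refine ⟨Or.inr ?_, Or.inl rfl⟩
        have := (G.nu1_gt (b := HH k n) (by omega) (by omega)).2
        linarith
    · have h3 := abs_le.1 (D.xc_near ho hi hj h1 g g' hc hc')
      rw [← h2] at h3
      obtain ⟨y0, y1⟩ := D.anchor_pos ho hi hj h1 g'
      rw [← h2] at y0 y1
      have h4 := G.nu_le_tau (b := c) (by omega) (by omega)
      have h5 := G.tau_le_nu (b := c) y1
      exact ⟨Or.inr (by linarith [h3.1]), Or.inr (by linarith [h3.2])⟩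
  · refine ⟨2 * c, c', e, by unfold MM; omega, Or.inr (Or.inl ⟨c', h1, rfl, rfl, ?_⟩)⟩
    rw [D.xc_same, if_neg (by omega)]
  · refine ⟨2 * c', 0, e, by unfold MM; omega, Or.inr (Or.inr (Or.inl ⟨c', h1, hc', rfl, rfl, ?_⟩))⟩
    rw [D.xc_same, if_pos (by omega)]
  · refine ⟨2 * (KK k * anc ord i j g') + 1, sub k n ord i g j g' c', e, ?_,
      Or.inr (Or.inr (Or.inr ⟨j, g', c', hj, h1, hc', h2, rfl, rfl, rfl⟩))⟩
    have h3 := Gir.off_le (y := KK k * anc ord j i g) hc'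
    unfold sub MM
    split_ifs <;> omega

lemma Pl.zone {D : Dat k n ord m q} (ho : OrdOK n ord) {i : ℕ} (hi : i < n) {g : Bool} {b q' s : ℕ}
    (hb : b ≤ HH k n) {x : ℝ} (h : D.Pl i g b q' s x) :
    Grp.Zone (HH k n) (D.P.τ i g) D.P.g0 D.ρ b q' x := by
  have G := D.grp hi g
  have hρ := D.hρ
  have hρ2 := D.hρ2
  have hg0 := D.P.hg0
  rcases h with ⟨e, _, h1, h2⟩ | ⟨b1, h1, e, _, rfl⟩ | ⟨t, h1, h2, e, _, rfl⟩ |
    ⟨j, g', c', hj, hij, hc', hb', e, _, rfl⟩
  · exact Or.inl ⟨e, h1, h2⟩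
  · have := G.xs_mem (b := b1) (b' := b) (by omega) hb (by omega)
    exact Or.inr (Or.inl ⟨b, e, by omega, hb, by omega, this.1, this.2⟩)
  · have := G.xs_mem (b := b) (b' := t) (by omega) h2 (by omega)
    exact Or.inr (Or.inl ⟨t, e, by omega, h2, by omega, this.1, this.2⟩)
  · have h3 := abs_le.1 (D.xc_near ho hi hj hij g g' hb hc')
    obtain ⟨y0, y1⟩ := D.anchor_pos ho hi hj hij g'
    have h4 := G.nu_le_tau (b := KK k * anc ord i j g') (by omega) y1.le
    have h5 := G.tau_le_nu y1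
    exact Or.inr (Or.inr ⟨KK k * anc ord i j g', e, by omega, y1, Ne.symm hb',
      by linarith [h3.1], by linarith [h3.2]⟩)

lemma Pl.lt {D : Dat k n ord m q} (ho : OrdOK n ord) {i : ℕ} (hi : i < n) {g : Bool}
    {b q' s s' : ℕ} (hb : b ≤ HH k n) {x x' : ℝ} (h : D.Pl i g b q' s x)
    (h' : D.Pl i g b q' s' x') (hs : s < s') : x < x' := by
  have G := D.grp hi g
  have hρ := D.hρ
  have hρ2 := D.hρ2
  have hg0 := D.P.hg0
  rcases h with ⟨e, e', _, _⟩ | ⟨b1, h1, e, rfl, rfl⟩ | ⟨t, h1, h2, e, e', rfl⟩ |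
    ⟨j, g', c', hj, hij, hc', hb', e, rfl, rfl⟩
  · rcases h' with ⟨_, f', _, _⟩ | ⟨b2, k1, f, rfl, rfl⟩ | ⟨t, k1, k2, f, f', rfl⟩ |
      ⟨j2, g2, c2, hj2, hij2, hc2, hb2, f, rfl, rfl⟩
    · omega
    · omega
    · omega
    · omega
  · rcases h' with ⟨_, f', _, _⟩ | ⟨b2, k1, f, rfl, rfl⟩ | ⟨t, k1, k2, f, f', rfl⟩ |
      ⟨j2, g2, c2, hj2, hij2, hc2, hb2, f, rfl, rfl⟩
    · omega
    · exact G.xs_lt hs k1 hb
    · omega
    · omega
  · rcases h' with ⟨_, f', _, _⟩ | ⟨b2, k1, f, rfl, rfl⟩ | ⟨t, k1, k2, f, f', rfl⟩ |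
      ⟨j2, g2, c2, hj2, hij2, hc2, hb2, f, rfl, rfl⟩
    · omega
    · omega
    · omega
    · omega
  · rcases h' with ⟨_, f', _, _⟩ | ⟨b2, k1, f, rfl, rfl⟩ | ⟨t, k1, k2, f, f', rfl⟩ |
      ⟨j2, g2, c2, hj2, hij2, hc2, hb2, f, rfl, rfl⟩
    · omega
    · omega
    · omega
    · have hK : 0 < KK k := by unfold KK; omega
      have ea : anc ord i j g' = anc ord i j2 g2 := by
        have : KK k * anc ord i j g' = KK k * anc ord i j2 g2 := by omega
        exact Nat.eq_of_mul_eq_mul_left hK this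
      obtain ⟨rfl, rfl⟩ := Gir.anc_inj ho hi hj hj2 hij hij2 ea
      have o1 := Gir.off_le (y := KK k * anc ord j i g) hc'
      have o2 := Gir.off_le (y := KK k * anc ord j i g) hc2
      rw [D.xc_diff hij, D.xc_diff hij, offr_eq hb, offr_eq hc', offr_eq hc2]
      unfold sub at hs
      have hγ := D.P.hγ
      have hε := D.P.hε
      have hr := D.P.hr
      have hM : 0 < D.P.ε * (4 * D.P.r + 1) * D.ρ := by positivity
      generalize (off k n (KK k * anc ord i j g') b : ℝ) = o at *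
      generalize off k n (KK k * anc ord j i g) c' = a1 at *
      generalize off k n (KK k * anc ord j i g) c2 = a2 at *
      have key : D.P.ε * (4 * D.P.r + 1) * D.ρ * (sg g * o - sg g' * (a1 : ℝ)) / D.Sg i g j g' <
          D.P.ε * (4 * D.P.r + 1) * D.ρ * (sg g * o - sg g' * (a2 : ℝ)) / D.Sg i g j g' := by
        rcases Nat.lt_or_ge i j with hlt | hge
        · have hS := D.Sg_lt ho hlt hj g g'
          have hS0 : D.Sg i g j g' < 0 := by linarith
          rw [div_lt_div_right_of_neg hS0]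
          apply mul_lt_mul_of_pos_left _ hM
          rw [decide_eq_true hlt] at hs
          cases g'
          · simp only [Bool.true_eq_false, if_false] at hs
            have : (a1 : ℝ) < a2 := by exact_mod_cast hs
            simp only [sg, Bool.false_eq_true, if_false]
            linarith
          · simp only [if_true] at hs
            have : (a2 : ℝ) < a1 := by exact_mod_cast (show a2 < a1 by omega)
            simp only [sg, if_true]
            linarith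
        · have hS := D.Sg_gt ho (show j < i by omega) hi g g'
          have hS0 : 0 < D.Sg i g j g' := by linarith
          apply div_lt_div_of_pos_right _ hS0
          apply mul_lt_mul_of_pos_left _ hM
          rw [decide_eq_false (by omega)] at hs
          cases g'
          · simp only [if_true] at hs
            have : (a2 : ℝ) < a1 := by exact_mod_cast (show a2 < a1 by omega)
            simp only [sg, Bool.false_eq_true, if_false]
            linarith
          · simp only [Bool.false_eq_true, if_false] at hs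
            have : (a1 : ℝ) < a2 := by exact_mod_cast hs
            simp only [sg, if_true]
            linarith
      linarith

lemma pair_lt {M a b c d : ℕ} (hb : b < M) (hd : d < M) (h : a * M + b < c * M + d) :
    a < c ∨ (a = c ∧ b < d) := by
  rcases lt_trichotomy a c with h1 | h1 | h1
  · exact Or.inl h1
  · subst h1; exact Or.inr ⟨rfl, by omega⟩
  · exfalso
    have h2 : (c + 1) * M ≤ a * M := Nat.mul_le_mul_right _ h1
    have h3 : (c + 1) * M = c * M + M := by ring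
    omega

end Dat

open Dat in
theorem curves_exist_pos {k n : ℕ} {ord : ℕ → ℕ → ℕ} (h : OrdOK n ord) {m q : ℕ → ℝ}
    (D : Dat k n ord m q) : Nonempty (Curves (csys k n ord) (LL k n) (ccode k n ord)) := by
  have hH := D.HH_ge
  have hr := D.P.hr
  have hX1 : ∀ X : (csys k n ord).X, (X.1 : ℕ) < n := fun X => X.1.isLt
  have hX2 : ∀ X : (csys k n ord).X, (X.2.2 : ℕ) ≤ HH k n := fun X => by
    have := X.2.2.isLt
    omega
  have hL : 0 < LL k n := by unfold LL; omega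
  have hcr : ∀ X Y : (csys k n ord).X, (csys k n ord).cross X Y →
      Cr (HH k n) X.1 X.2.1 X.2.2 Y.1 Y.2.1 Y.2.2 := fun X Y => (cross_iff_Cr (by omega) X Y).1
  exact ⟨{
    R := 3 * D.P.r
    hR := by linarith
    F := fun X => D.F X.1 X.2.1 X.2.2
    kink := fun X => Grp.kk D.P.r (HH k n) (D.P.τ X.1 X.2.1) D.ρ X.2.2
    kink_mem := fun X κ hκ => (D.grp (hX1 X) X.2.1).kk_range (hX2 X) hκ
    kink_card := fun X => by
      have := Grp.card_kk D.P.r (HH k n) (D.P.τ X.1 X.2.1) D.ρ X.2.2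
      unfold LL
      omega
    aff := fun X => by
      intro s t h1 h2 h3 h4
      obtain ⟨a, b, _, h6⟩ := (D.grp (hX1 X) X.2.1).pab_uu (-(3 * D.P.r)) (3 * D.P.r) (hX2 X)
        s t h1 h2 h3 h4
      refine ⟨m X.1 - sg X.2.1 * (D.P.ε * a), q X.1 - sg X.2.1 * (D.P.ε * b), fun x hx => ?_⟩
      unfold Dat.F
      rw [h6 x hx]; ring
    left := fun X Y hXY => by
      have h1 : lrank k n X.1 X.2.1 X.2.2 < lrank k n Y.1 Y.2.1 Y.2.2 := by
        have h2 : LL k n * (lrank k n X.1 X.2.1 X.2.2 + 1) <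
          LL k n * (lrank k n Y.1 Y.2.1 Y.2.2 + 1) := hXY
        have := Nat.lt_of_mul_lt_mul_left h2
        omega
      rcases lt_trichotomy (X.1 : ℕ) Y.1 with h2 | h2 | h2
      · exact (D.wall_diff h2 (hX1 Y) X.2.1 Y.2.1 (hX2 X) (hX2 Y)).1
      · have h3 : lkey (HH k n) X.2.1 X.2.2 < lkey (HH k n) Y.2.1 Y.2.2 := by
          unfold lrank at h1
          rw [h2] at h1
          omega
        have h4 := D.left_same (hX1 X) X.2.1 Y.2.1 (hX2 X) (hX2 Y) h3
        show D.F Y.1 Y.2.1 Y.2.2 _ < D.F X.1 X.2.1 X.2.2 _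
        rw [← h2]; exact h4
      · have := lrank_diff h2 Y.2.1 X.2.1 X.2.2 (hX2 Y)
        omega
    right := fun X Y hXY => by
      have h1 : rrank k n X.1 X.2.1 X.2.2 < rrank k n Y.1 Y.2.1 Y.2.2 := by
        have h2 : LL k n * (rrank k n X.1 X.2.1 X.2.2 + 1) <
          LL k n * (rrank k n Y.1 Y.2.1 Y.2.2 + 1) := hXY
        have := Nat.lt_of_mul_lt_mul_left h2
        omega
      rcases lt_trichotomy (X.1 : ℕ) Y.1 with h2 | h2 | h2
      · have := rrank_diff h2 (hX1 Y) X.2.1 Y.2.1 X.2.2 (hX2 Y)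
        omega
      · have h3 : rkey (HH k n) X.2.1 X.2.2 < rkey (HH k n) Y.2.1 Y.2.2 := by
          unfold rrank at h1
          rw [h2] at h1
          omega
        have h4 := D.right_same (hX1 X) X.2.1 Y.2.1 (hX2 X) (hX2 Y) h3
        show D.F Y.1 Y.2.1 Y.2.2 _ < D.F X.1 X.2.1 X.2.2 _
        rw [← h2]; exact h4
      · exact (D.wall_diff h2 (hX1 X) Y.2.1 X.2.1 (hX2 Y) (hX2 X)).2
    xc := fun X Y => D.xc X.1 X.2.1 X.2.2 Y.1 Y.2.1 Y.2.2
    xc_mem := fun X Y hXY => D.xc_range h (hX1 X) (hX1 Y) (hX2 X) (hX2 Y) (hcr X Y hXY)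
    xc_eq := fun X Y hXY => D.F_xc h (hX1 X) (hX1 Y) (hX2 X) (hX2 Y) (hcr X Y hXY)
    uniq := fun X Y hne x hx he => by
      have h1 : ¬ ((X.1 : ℕ) = Y.1 ∧ X.2.1 = Y.2.1 ∧ (X.2.2 : ℕ) = Y.2.2) := by
        rintro ⟨a, b, c⟩
        exact hne (Prod.ext (Fin.ext a) (Prod.ext b (Fin.ext c)))
      obtain ⟨h2, h3⟩ := D.F_uniq h (hX1 X) (hX1 Y) (hX2 X) (hX2 Y) h1 hx.1 hx.2 he
      exact ⟨(cross_iff_Cr (by omega) X Y).2 h2, h3⟩
    order := fun X Y Z hXY hXZ hlt => by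
      obtain ⟨q1, s1, e1, l1, p1⟩ := D.exists_place h (hX1 X) (hX1 Y) (hX2 X) (hX2 Y) (hcr X Y hXY)
      obtain ⟨q2, s2, e2, l2, p2⟩ := D.exists_place h (hX1 X) (hX1 Z) (hX2 X) (hX2 Z) (hcr X Z hXZ)
      have hlt' : q1 * MM k n + s1 < q2 * MM k n + s2 := by
        rw [← e1, ← e2]; exact hlt
      rcases pair_lt l1 l2 hlt' with h3 | ⟨rfl, h3⟩
      · exact (D.grp (hX1 X) X.2.1).zone_lt (hX2 X) h3 (p1.zone h (hX1 X) (hX2 X))
          (p2.zone h (hX1 X) (hX2 X))
      · exact p1.lt h (hX1 X) (hX2 X) p2 h3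
    nokink := fun X Y Z hXY hXZ heq κ hκ => by
      obtain ⟨q1, s1, e1, l1, p1⟩ := D.exists_place h (hX1 X) (hX1 Y) (hX2 X) (hX2 Y) (hcr X Y hXY)
      obtain ⟨q2, s2, e2, l2, p2⟩ := D.exists_place h (hX1 X) (hX1 Z) (hX2 X) (hX2 Z) (hcr X Z hXZ)
      have heq' : q1 * MM k n + s1 = q2 * MM k n + s2 := by
        rw [← e1, ← e2]; exact heq
      have h3 : q1 = q2 := (Gir.divmod_eq l1 l2 heq').1
      subst h3
      exact (D.grp (hX1 X) X.2.1).zone_kink (hX2 X) (p1.zone h (hX1 X) (hX2 X))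
        (p2.zone h (hX1 X) (hX2 X)) hκ }⟩

theorem curves_exist (k n : ℕ) (ord : ℕ → ℕ → ℕ) (h : OrdOK n ord) (hr : RealOrd n ord) :
    Nonempty (Curves (csys k n ord) (LL k n) (ccode k n ord)) := by
  rcases Nat.eq_zero_or_pos n with hn | hn
  · subst hn
    have hE : ∀ X : (csys k 0 ord).X, False := fun X => X.1.elim0
    exact ⟨{
      R := 1
      hR := one_pos
      F := fun _ _ => 0
      kink := fun _ => ∅
      kink_mem := fun X => (hE X).elim
      kink_card := fun X => (hE X).elim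
      aff := fun X => (hE X).elim
      left := fun X => (hE X).elim
      right := fun X => (hE X).elim
      xc := fun _ _ => 0
      xc_mem := fun X => (hE X).elim
      xc_eq := fun X => (hE X).elim
      uniq := fun X => (hE X).elim
      order := fun X => (hE X).elim
      nokink := fun X => (hE X).elim }⟩
  · obtain ⟨m, q, hm, hx⟩ := hr
    obtain ⟨P⟩ := exists_params k n hn ord h m q hm hx
    have hg := P.hg0
    have hγ := P.hγ
    have hε := P.hε
    have hr := P.hr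
    have hA : 0 < 16 * (P.ε * (4 * P.r + 1) * (4 * HH k n + 2)) := by positivity
    set A := 16 * (P.ε * (4 * P.r + 1) * (4 * HH k n + 2)) with hAdef
    refine curves_exist_pos h (⟨P, hn, min 1 (min (P.g0 / 20) (P.g0 * P.γ / A)), ?_, ?_, ?_, ?_⟩ :
      Dat k n ord m q)
    · exact lt_min one_pos (lt_min (by linarith) (by positivity))
    · exact min_le_left _ _
    · have : min 1 (min (P.g0 / 20) (P.g0 * P.γ / A)) ≤ P.g0 / 20 :=
        (min_le_right _ _).trans (min_le_left _ _)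
      linarith
    · have h1 : min 1 (min (P.g0 / 20) (P.g0 * P.γ / A)) ≤ P.g0 * P.γ / A :=
        (min_le_right _ _).trans (min_le_right _ _)
      rw [le_div_iff₀ hA] at h1
      have h2 : 16 * (P.ε * (4 * P.r + 1) * (4 * (HH k n : ℝ) + 2) *
          min 1 (min (P.g0 / 20) (P.g0 * P.γ / A))) =
          min 1 (min (P.g0 / 20) (P.g0 * P.γ / A)) * A := by
        rw [hAdef]; ring
      rw [h2]
      exact h1

end SegGirth
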