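import Mathlib
import Pool.Agent.Lib.MP_beb3fe_lc.Girth

/-!
# The concrete chord system is good
-/

namespace SegGirth

open Gir Gir.Cyc

lemma lrank_lt (k n : ℕ) (i : Fin n) (g : Bool) (b : Fin (HH k n + 1)) :
    lrank k n i g b < n * (2 * HH k n + 2) := by
  have h1 := lkey_le (HH k n) g b (Nat.lt_succ_iff.1 b.2)
  have h2 : ((i : ℕ) + 1) * (2 * HH k n + 2) ≤ n * (2 * HH k n + 2) :=
    Nat.mul_le_mul_right _ i.2
  unfold lrank
  have h3 : ((i : ℕ) + 1) * (2 * HH k n + 2) = i * (2 * HH k n + 2) + (2 * HH k n + 2) := by ring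
  omega

lemma rrank_lt (k n : ℕ) (i : Fin n) (g : Bool) (b : Fin (HH k n + 1)) :
    rrank k n i g b < n * (2 * HH k n + 2) := by
  have h1 := rkey_le (HH k n) g b (Nat.lt_succ_iff.1 b.2)
  have h2 : ((n - 1 - (i : ℕ)) + 1) * (2 * HH k n + 2) ≤ n * (2 * HH k n + 2) :=
    Nat.mul_le_mul_right _ (by have := i.2; omega)
  unfold rrank
  have h3 : ((n - 1 - (i : ℕ)) + 1) * (2 * HH k n + 2) =
    (n - 1 - (i : ℕ)) * (2 * HH k n + 2) + (2 * HH k n + 2) := by ring
  omega

lemma code_le {k n : ℕ} {ord : ℕ → ℕ → ℕ} (h : OrdOK n ord) {i : ℕ} {g : Bool} {b j : ℕ}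
    {g' : Bool} {b' : ℕ} (hi : i < n) (hj : j < n) (hb : b ≤ HH k n) (hb' : b' ≤ HH k n)
    (hne : ¬ (i = j ∧ g = g' ∧ b = b')) :
    code k n ord i g b j g' b' ≤ (2 * HH k n + 1) * MM k n := by
  have hMH : HH k n < MM k n := by unfold MM; omega
  rcases code_cases k n ord i g b j g' b' hne with ⟨h1, -⟩ | h1 | h1 | h1
  · rw [h1]; unfold rig; exact Nat.mul_le_mul_right _ (by omega)
  · rw [h1.2.2.2]
    have : 2 * b * MM k n ≤ 2 * HH k n * MM k n := Nat.mul_le_mul_right _ (by omega)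
    have h3 : (2 * HH k n + 1) * MM k n = 2 * HH k n * MM k n + MM k n := by ring
    omega
  · rw [h1.2.2.2]
    have : 2 * b' * MM k n ≤ 2 * HH k n * MM k n := Nat.mul_le_mul_right _ (by omega)
    have h3 : (2 * HH k n + 1) * MM k n = 2 * HH k n * MM k n + MM k n := by ring
    omega
  · rw [h1.2.2]
    have h2 := anc_rho_lt (k := k) (i := i) (j := j) (g := g) (g' := g') h hb'
    have h3 := KK_anc_le (k := k) h (g := g') hi hj h1.1
    have hK : 1 ≤ KK k := by unfold KK; omega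
    have h4 : (2 * (KK k * anc ord i j g') + 1) * MM k n + MM k n ≤
        (2 * HH k n + 1) * MM k n := by
      have : (2 * (KK k * anc ord i j g') + 1) * MM k n + MM k n =
        (2 * (KK k * anc ord i j g') + 2) * MM k n := by ring
      rw [this]
      exact Nat.mul_le_mul_right _ (by omega)
    omega

theorem csys_good (k n : ℕ) (ord : ℕ → ℕ → ℕ) (h : OrdOK n ord) : (csys k n ord).Good := by
  have hL : 20 ≤ LL k n := by unfold LL; omega
  have hstep : ∀ a b, a < b → LL k n * (a + 1) + 1 < LL k n * (b + 1) := by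
    intro a b hab
    have h1 : LL k n * (a + 1 + 1) ≤ LL k n * (b + 1) := Nat.mul_le_mul_left _ (by omega)
    have h2 : LL k n * (a + 1 + 1) = LL k n * (a + 1) + LL k n := by ring
    omega
  have hbig : ∀ a b, a ≤ b → LL k n * a + 2 ≤ LL k n * (b + 1) := by
    intro a b hab
    have h1 : LL k n * a ≤ LL k n * b := Nat.mul_le_mul_left _ hab
    have h2 : LL k n * (b + 1) = LL k n * b + LL k n := by ring
    omega
  have hone : ∀ a, 1 ≤ LL k n * (a + 1) := fun a => Nat.mul_pos (by omega) (by omega)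
  have hne : ∀ x y, (csys k n ord).cross x y → x ≠ y := by
    intro x y hc he
    subst he
    rcases hc with hc | hc
    · exact lt_irrefl _ hc.1
    · exact lt_irrefl _ hc.1
  exact
  { symm := fun x y hc => hc.symm
    hW := by change 1 ≤ LL k n; omega
    hN := by
      change 3 ≤ LL k n * ((2 * HH k n + 1) * MM k n + 3)
      have h1 : LL k n * 1 ≤ LL k n * ((2 * HH k n + 1) * MM k n + 3) :=
        Nat.mul_le_mul_left _ (by omega)
      omega
    la1 := fun x => hone _
    la2 := fun x => hbig _ _ (lrank_lt k n x.1 x.2.1 x.2.2)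
    ra1 := fun x => hone _
    ra2 := fun x => hbig _ _ (rrank_lt k n x.1 x.2.1 x.2.2)
    pos1 := fun x y _ => hone _
    pos2 := by
      intro x y hc
      have hxy := hne x y hc
      have hne' : ¬ ((x.1 : ℕ) = y.1 ∧ x.2.1 = y.2.1 ∧ (x.2.2 : ℕ) = y.2.2) := by
        rintro ⟨h1, h2, h3⟩
        exact hxy (Prod.ext (Fin.ext h1) (Prod.ext h2 (Fin.ext h3)))
      have h1 := code_le (k := k) h x.1.2 y.1.2 (Nat.lt_succ_iff.1 x.2.2.2)
        (Nat.lt_succ_iff.1 y.2.2.2) hne'
      change LL k n * (_ + 1) + 2 ≤ LL k n * ((2 * HH k n + 1) * MM k n + 3)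
      exact hbig _ _ (by omega)
    cross_ne := hne
    inv := by
      intro x y hc
      rcases hc with hc | hc
      · left; exact ⟨hstep _ _ hc.1, hstep _ _ hc.2⟩
      · right; exact ⟨hstep _ _ hc.1, hstep _ _ hc.2⟩ }

end SegGirth
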