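import Mathlib
import Pool.Agent.Lib.MP_beb3fe_lc.Concrete

/-!
# Definitions for the final statement
-/

namespace SegGirth

/-- the graph coded by a number of vertices and a list of edges -/
def graphOf (g : ℕ × List (ℕ × ℕ)) : SimpleGraph (Fin g.1) where
  Adj u v := u ≠ v ∧ (((u : ℕ), (v : ℕ)) ∈ g.2 ∨ ((v : ℕ), (u : ℕ)) ∈ g.2)
  symm := ⟨fun _ _ h => ⟨h.1.symm, h.2.symm⟩⟩
  loopless := ⟨fun _ h => h.1 rfl⟩

/-- segment intersection graphs -/
def IsSegGraph {V : Type} (G : SimpleGraph V) : Prop :=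
  ∃ p q : V → ℝ × ℝ, (∀ u, p u ≠ q u) ∧
    ∀ u v, u ≠ v → (G.Adj u v ↔ (segment ℝ (p u) (q u) ∩ segment ℝ (p v) (q v)).Nonempty)

/-- SIMPLE STRETCHABILITY in terms of local sequences: `σ = [σ_0, …, σ_{n-1}]`; are there `n` lines
`y = m i * x + b i` with increasing slopes such that `σ_i` lists the other lines in the order in
which line `i` meets them from left to right, no two of them at the same point? -/
def Stretchable (σ : List (List ℕ)) : Prop :=
  ∃ m b : ℕ → ℝ, (∀ i j, i < j → j < σ.length → m i < m j) ∧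
    ∀ i < σ.length, (∀ j, j ∈ σ.getD i [] ↔ (j < σ.length ∧ j ≠ i)) ∧
      (σ.getD i []).Pairwise (fun j j' => (b j - b i) / (m i - m j) < (b j' - b i) / (m i - m j'))

/-- the order function of a list of sequences -/
def ordOf (σ : List (List ℕ)) (i j : ℕ) : ℕ := (σ.getD i []).idxOf j

/-- every sequence is a permutation of the other indices -/
def ValidSeq (σ : List (List ℕ)) : Prop :=
  ∀ i < σ.length, (σ.getD i []).Nodup ∧ ∀ j, j ∈ σ.getD i [] ↔ (j < σ.length ∧ j ≠ i)

end SegGirth
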