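import Mathlib
import Pool.Agent.Lib.MP_beb3fe_lc.Final
import Pool.Agent.Lib.PolyTime
import Pool.Agent.Lib.PolyTime.Lists

/-!
# The polynomial time map from lists of local sequences to (codes of) graphs
-/

namespace SegGirth

open Pool.Agent.Lib.PolyTime

/-! ### Valid sequences -/

theorem length_of_valid {σ : List (List ℕ)} (h : ValidSeq σ) {i : ℕ} (hi : i < σ.length) :
    (σ.getD i []).length = σ.length - 1 := by
  obtain ⟨h1, h2⟩ := h i hi
  have h3 : (σ.getD i []).toFinset = (Finset.range σ.length).erase i := by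
    ext j
    rw [List.mem_toFinset, h2, Finset.mem_erase, Finset.mem_range]
    tauto
  rw [← List.toFinset_card_of_nodup h1, h3, Finset.card_erase_of_mem (Finset.mem_range.mpr hi),
    Finset.card_range]

theorem ordOK_of_valid (σ : List (List ℕ)) (h : ValidSeq σ) : OrdOK σ.length (ordOf σ) := by
  refine ⟨?_, ?_⟩
  · intro i hi j hj hij
    have h1 := length_of_valid h hi
    rw [← h1]
    exact List.idxOf_lt_length_of_mem (((h i hi).2 j).mpr ⟨hj, hij.symm⟩)
  · intro i hi j hj j' _ hij _ hord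
    have h1 : j ∈ σ.getD i [] := ((h i hi).2 j).mpr ⟨hj, hij.symm⟩
    exact (List.idxOf_inj h1).mp hord

theorem stretchable_iff (σ : List (List ℕ)) :
    Stretchable σ ↔ ValidSeq σ ∧ RealOrd σ.length (ordOf σ) := by
  constructor
  · rintro ⟨m, b, hm, h⟩
    have hv : ValidSeq σ := by
      intro i hi
      refine ⟨?_, (h i hi).1⟩
      exact (h i hi).2.imp (fun {a c} hac hEq => by subst hEq; exact lt_irrefl _ hac)
    refine ⟨hv, m, b, hm, ?_⟩
    intro i hi j hj j' hj' hij hij' hord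
    have hp := List.pairwise_iff_getElem.mp (h i hi).2
    have h1 : j ∈ σ.getD i [] := ((h i hi).1 j).mpr ⟨hj, hij.symm⟩
    have h2 : j' ∈ σ.getD i [] := ((h i hi).1 j').mpr ⟨hj', hij'.symm⟩
    have h3 := hp _ _ (List.idxOf_lt_length_of_mem h1) (List.idxOf_lt_length_of_mem h2) hord
    rwa [List.getElem_idxOf, List.getElem_idxOf] at h3
  · rintro ⟨hv, m, b, hm, h⟩
    refine ⟨m, b, hm, fun i hi => ⟨(hv i hi).2, ?_⟩⟩
    rw [List.pairwise_iff_getElem]
    intro p q hp hq hpq
    have h1 := ((hv i hi).2 _).mp (List.getElem_mem hp)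
    have h2 := ((hv i hi).2 _).mp (List.getElem_mem hq)
    refine h i hi _ h1.1 _ h2.1 h1.2.symm h2.2.symm ?_
    unfold ordOf
    rw [(hv i hi).1.idxOf_getElem, (hv i hi).1.idxOf_getElem]
    exact hpq

/-- boolean test of `ValidSeq` -/
def validB (σ : List (List ℕ)) : Bool :=
  (List.range σ.length).all fun i =>
    ((σ.getD i []).all fun j => decide (j < σ.length) && !(decide (j = i))) &&
    ((List.range σ.length).all fun j => decide (j = i) ||
      (σ.getD i []).any fun l => decide (l = j)) &&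
    decide ((σ.getD i []).length = σ.length - 1)

theorem validB_iff (σ : List (List ℕ)) : validB σ = true ↔ ValidSeq σ := by
  unfold validB
  rw [List.all_eq_true]
  simp only [List.mem_range, Bool.and_eq_true, List.all_eq_true, Bool.or_eq_true,
    decide_eq_true_eq, Bool.not_eq_true', decide_eq_false_iff_not, List.any_eq_true]
  constructor
  · intro h i hi
    obtain ⟨⟨h1, h2⟩, h3⟩ := h i hi
    have h4 : ∀ j, j ∈ σ.getD i [] ↔ (j < σ.length ∧ j ≠ i) := by
      intro j
      refine ⟨fun hj => h1 j hj, fun hj => ?_⟩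
      rcases h2 j hj.1 with h5 | ⟨l, h5, h6⟩
      · exact absurd h5 hj.2
      · rwa [← h6]
    refine ⟨?_, h4⟩
    have h5 : (σ.getD i []).toFinset = (Finset.range σ.length).erase i := by
      ext j
      rw [List.mem_toFinset, h4, Finset.mem_erase, Finset.mem_range]
      tauto
    have h6 : (σ.getD i []).toFinset.card = (σ.getD i []).length := by
      rw [h5, Finset.card_erase_of_mem (Finset.mem_range.mpr hi), Finset.card_range, h3]
    rw [List.card_toFinset] at h6
    have h7 : (σ.getD i []).dedup = σ.getD i [] :=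
      (List.dedup_sublist _).eq_of_length h6
    rw [← h7]
    exact List.nodup_dedup _
  · intro h i hi
    obtain ⟨h1, h2⟩ := h i hi
    refine ⟨⟨fun j hj => (h2 j).mp hj, fun j hj => ?_⟩, length_of_valid h hi⟩
    by_cases hji : j = i
    · exact Or.inl hji
    · exact Or.inr ⟨j, (h2 j).mpr ⟨hj, hji⟩, rfl⟩

/-! ### Codes of vertices -/

/-- number of links of a chord -/
def NN (k n : ℕ) : ℕ := LL k n * ((2 * HH k n + 1) * MM k n + 3)
/-- number of links of a wall -/
def QQ (k n : ℕ) : ℕ := LL k n * (n * (2 * HH k n + 2) + 1)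
/-- number of frame vertices -/
def FF (k n : ℕ) : ℕ := 2 + 2 * QQ k n + LL k n
/-- number of vertices -/
def VV (k n : ℕ) : ℕ := FF k n + 2 * n * (HH k n + 1) * NN k n

/-- tuples `(kind, i, g, b, t)` -/
abbrev Tup : Type := ℕ × ℕ × Bool × ℕ × ℕ

/-- tuple of a vertex -/
def tup {k n : ℕ} {ord : ℕ → ℕ → ℕ} : Vx (csys k n ord).X → Tup
  | Vx.T => (0, 0, false, 0, 0)
  | Vx.B => (1, 0, false, 0, 0)
  | Vx.wl q => (2, 0, false, 0, q)
  | Vx.wr q => (3, 0, false, 0, q)
  | Vx.om q => (4, 0, false, 0, q)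
  | Vx.ch x t => (5, x.1, x.2.1, x.2.2, t)

/-- number of a tuple -/
def num (k n : ℕ) (u : Tup) : ℕ :=
  if u.1 = 0 then 0 else if u.1 = 1 then 1 else if u.1 = 2 then 2 + u.2.2.2.2
  else if u.1 = 3 then 2 + QQ k n + u.2.2.2.2
  else if u.1 = 4 then 2 + 2 * QQ k n + u.2.2.2.2
  else FF k n + (((2 * u.2.1 + (if u.2.2.1 = true then 1 else 0)) * (HH k n + 1) + u.2.2.2.1) *
    NN k n + u.2.2.2.2)

/-- tuple of a number -/
def dec (k n a : ℕ) : Tup :=
  if a = 0 then (0, 0, false, 0, 0) else if a = 1 then (1, 0, false, 0, 0)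
  else if a < 2 + QQ k n then (2, 0, false, 0, a - 2)
  else if a < 2 + 2 * QQ k n then (3, 0, false, 0, a - (2 + QQ k n))
  else if a < FF k n then (4, 0, false, 0, a - (2 + 2 * QQ k n))
  else (5, (a - FF k n) / NN k n / (HH k n + 1) / 2,
    decide ((a - FF k n) / NN k n / (HH k n + 1) % 2 = 1),
    (a - FF k n) / NN k n % (HH k n + 1), (a - FF k n) % NN k n)

theorem LL_pos (k n : ℕ) : 0 < LL k n := by unfold LL; omega

theorem NN_pos (k n : ℕ) : 0 < NN k n := Nat.mul_pos (LL_pos k n) (by omega)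

theorem num_T {k n : ℕ} {ord : ℕ → ℕ → ℕ} : num k n (tup (Vx.T : Vx (csys k n ord).X)) = 0 := rfl

theorem num_B {k n : ℕ} {ord : ℕ → ℕ → ℕ} : num k n (tup (Vx.B : Vx (csys k n ord).X)) = 1 := rfl

theorem num_wl {k n : ℕ} {ord : ℕ → ℕ → ℕ} (q : ℕ) :
    num k n (tup (Vx.wl q : Vx (csys k n ord).X)) = 2 + q := rfl

theorem num_wr {k n : ℕ} {ord : ℕ → ℕ → ℕ} (q : ℕ) :
    num k n (tup (Vx.wr q : Vx (csys k n ord).X)) = 2 + QQ k n + q := rfl

theorem num_om {k n : ℕ} {ord : ℕ → ℕ → ℕ} (q : ℕ) :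
    num k n (tup (Vx.om q : Vx (csys k n ord).X)) = 2 + 2 * QQ k n + q := rfl

theorem num_ch {k n : ℕ} {ord : ℕ → ℕ → ℕ} (x : (csys k n ord).X) (t : ℕ) :
    num k n (tup (Vx.ch x t : Vx (csys k n ord).X)) = FF k n +
      (((2 * (x.1 : ℕ) + (if x.2.1 = true then 1 else 0)) * (HH k n + 1) + (x.2.2 : ℕ)) *
        NN k n + t) := rfl

theorem dec_num {k n : ℕ} {ord : ℕ → ℕ → ℕ} {v : Vx (csys k n ord).X}
    (hv : (csys k n ord).Valid v) : dec k n (num k n (tup v)) = tup v := by
  cases v with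
  | T => rfl
  | B => rfl
  | wl q =>
    have hq : q < QQ k n := hv
    rw [num_wl, dec, if_neg (by omega), if_neg (by omega), if_pos (by omega)]
    have : 2 + q - 2 = q := by omega
    rw [this]; rfl
  | wr q =>
    have hq : q < QQ k n := hv
    rw [num_wr, dec, if_neg (by omega), if_neg (by omega), if_neg (by omega), if_pos (by omega)]
    have : 2 + QQ k n + q - (2 + QQ k n) = q := by omega
    rw [this]; rfl
  | om q =>
    have hq : q < LL k n := hv
    rw [num_om, dec, if_neg (by omega), if_neg (by omega), if_neg (by omega), if_neg (by omega),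
      if_pos (by unfold FF; omega)]
    have : 2 + 2 * QQ k n + q - (2 + 2 * QQ k n) = q := by omega
    rw [this]; rfl
  | ch x t =>
    have ht : t < NN k n := hv
    obtain ⟨i, g, b⟩ := x
    have hF : 2 ≤ FF k n := by unfold FF; omega
    have hF2 : 2 + 2 * QQ k n ≤ FF k n := by unfold FF; omega
    have hN := NN_pos k n
    have hb : (b : ℕ) < HH k n + 1 := b.2
    rw [num_ch]
    simp only
    generalize hc : (2 * (i : ℕ) + (if g = true then 1 else 0)) * (HH k n + 1) + (b : ℕ) = c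
    rw [dec, if_neg (by omega), if_neg (by omega), if_neg (by omega), if_neg (by omega),
      if_neg (by omega), Nat.add_sub_cancel_left]
    have h1 : (c * NN k n + t) / NN k n = c := by
      rw [add_comm, Nat.add_mul_div_right _ _ hN, Nat.div_eq_of_lt ht, zero_add]
    have h2 : (c * NN k n + t) % NN k n = t := by
      rw [add_comm, Nat.add_mul_mod_self_right, Nat.mod_eq_of_lt ht]
    have h3 : c / (HH k n + 1) = 2 * (i : ℕ) + (if g = true then 1 else 0) := by
      rw [← hc, add_comm, Nat.add_mul_div_right _ _ (by omega), Nat.div_eq_of_lt hb, zero_add]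
    have h4 : c % (HH k n + 1) = b := by
      rw [← hc, add_comm, Nat.add_mul_mod_self_right, Nat.mod_eq_of_lt hb]
    rw [h1, h2, h3, h4]
    refine Prod.ext rfl (Prod.ext ?_ (Prod.ext ?_ (Prod.ext rfl rfl)))
    · show (2 * (i : ℕ) + (if g = true then 1 else 0)) / 2 = (i : ℕ)
      split_ifs <;> omega
    · show decide ((2 * (i : ℕ) + (if g = true then 1 else 0)) % 2 = 1) = g
      cases g
      · simp
      · simp

theorem num_lt {k n : ℕ} {ord : ℕ → ℕ → ℕ} {v : Vx (csys k n ord).X}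
    (hv : (csys k n ord).Valid v) : num k n (tup v) < VV k n := by
  have hV : FF k n ≤ VV k n := by unfold VV; omega
  have hL := LL_pos k n
  cases v with
  | T => rw [num_T]; unfold FF at hV; omega
  | B => rw [num_B]; unfold FF at hV; omega
  | wl q =>
    have hq : q < QQ k n := hv
    rw [num_wl]; unfold FF at hV; omega
  | wr q =>
    have hq : q < QQ k n := hv
    rw [num_wr]; unfold FF at hV; omega
  | om q =>
    have hq : q < LL k n := hv
    rw [num_om]; unfold FF at hV; omega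
  | ch x t =>
    have ht : t < NN k n := hv
    obtain ⟨i, g, b⟩ := x
    have hb : (b : ℕ) < HH k n + 1 := b.2
    have hi : (i : ℕ) < n := i.2
    rw [num_ch]
    have h1 : 2 * (i : ℕ) + (if g = true then 1 else 0) + 1 ≤ 2 * n := by
      split_ifs <;> omega
    have h2 : (2 * (i : ℕ) + (if g = true then 1 else 0)) * (HH k n + 1) + (b : ℕ) + 1 ≤
        2 * n * (HH k n + 1) := by
      calc _ ≤ (2 * (i : ℕ) + (if g = true then 1 else 0)) * (HH k n + 1) + (HH k n + 1) := by
            omega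
        _ = (2 * (i : ℕ) + (if g = true then 1 else 0) + 1) * (HH k n + 1) := by ring
        _ ≤ _ := Nat.mul_le_mul_right _ h1
    have h3 : ((2 * (i : ℕ) + (if g = true then 1 else 0)) * (HH k n + 1) + (b : ℕ)) * NN k n + t
        < 2 * n * (HH k n + 1) * NN k n := by
      calc _ < ((2 * (i : ℕ) + (if g = true then 1 else 0)) * (HH k n + 1) + (b : ℕ)) * NN k n +
            NN k n := by omega
        _ = ((2 * (i : ℕ) + (if g = true then 1 else 0)) * (HH k n + 1) + (b : ℕ) + 1) *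
            NN k n := by ring
        _ ≤ _ := Nat.mul_le_mul_right _ h2
    unfold VV
    exact Nat.add_lt_add_left h3 _

theorem tup_injective {k n : ℕ} {ord : ℕ → ℕ → ℕ} :
    Function.Injective (tup : Vx (csys k n ord).X → Tup) := by
  intro u v h
  cases u <;> cases v <;> simp only [tup, Prod.mk.injEq] at h <;> simp_all
  rename_i x t y s
  obtain ⟨h1, h2, h3, -⟩ := h
  exact Prod.ext (Fin.ext h1) (Prod.ext h2 (Fin.ext h3))

theorem exists_num {k n : ℕ} (ord : ℕ → ℕ → ℕ) {a : ℕ} (ha : a < VV k n) :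
    ∃ v : Vx (csys k n ord).X, (csys k n ord).Valid v ∧ num k n (tup v) = a := by
  by_cases h0 : a = 0
  · exact ⟨Vx.T, trivial, h0.symm⟩
  by_cases h1 : a = 1
  · exact ⟨Vx.B, trivial, h1.symm⟩
  by_cases h2 : a < 2 + QQ k n
  · refine ⟨Vx.wl (a - 2), show a - 2 < QQ k n by omega, ?_⟩
    rw [num_wl]
    omega
  by_cases h3 : a < 2 + 2 * QQ k n
  · refine ⟨Vx.wr (a - (2 + QQ k n)), show a - (2 + QQ k n) < QQ k n by omega, ?_⟩
    rw [num_wr]
    omega
  by_cases h4 : a < FF k n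
  · refine ⟨Vx.om (a - (2 + 2 * QQ k n)), show a - (2 + 2 * QQ k n) < LL k n by
      unfold FF at h4; omega, ?_⟩
    rw [num_om]
    omega
  have hN := NN_pos k n
  set r := a - FF k n with hr
  have hrV : r < 2 * n * (HH k n + 1) * NN k n := by unfold VV at ha; omega
  have hc : r / NN k n < 2 * n * (HH k n + 1) := (Nat.div_lt_iff_lt_mul hN).mpr hrV
  have he : r / NN k n / (HH k n + 1) < 2 * n := (Nat.div_lt_iff_lt_mul (by omega)).mpr hc
  have hi : r / NN k n / (HH k n + 1) / 2 < n := by omega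
  have hb : r / NN k n % (HH k n + 1) < HH k n + 1 := Nat.mod_lt _ (by omega)
  refine ⟨Vx.ch (⟨_, hi⟩, decide (r / NN k n / (HH k n + 1) % 2 = 1), ⟨_, hb⟩) (r % NN k n),
    show r % NN k n < NN k n from Nat.mod_lt _ hN, ?_⟩
  rw [num_ch]
  simp only [decide_eq_true_eq]
  have h5 : 2 * (r / NN k n / (HH k n + 1) / 2) +
      (if r / NN k n / (HH k n + 1) % 2 = 1 then 1 else 0) = r / NN k n / (HH k n + 1) := by
    split_ifs <;> omega
  rw [h5]
  have h6 : r / NN k n / (HH k n + 1) * (HH k n + 1) + r / NN k n % (HH k n + 1) = r / NN k n :=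
    Nat.div_add_mod' _ _
  rw [h6, Nat.div_add_mod' r (NN k n)]
  omega

/-! ### Adjacency on tuples -/

/-- boolean adjacency (one direction) on tuples -/
def adjB (k n : ℕ) (ord : ℕ → ℕ → ℕ) (u v : Tup) : Bool :=
  (decide (u.1 = 0) && (decide (v.1 = 2) || decide (v.1 = 3) || decide (v.1 = 4)) &&
    decide (v.2.2.2.2 = 0)) ||
  (decide (u.1 = 1) && (decide (v.1 = 2) || decide (v.1 = 3)) &&
    decide (v.2.2.2.2 + 1 = QQ k n)) ||
  (decide (u.1 = 1) && decide (v.1 = 4) && decide (v.2.2.2.2 + 1 = LL k n)) ||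
  (decide (u.1 = v.1) && (decide (u.1 = 2) || decide (u.1 = 3) || decide (u.1 = 4)) &&
    decide (v.2.2.2.2 = u.2.2.2.2 + 1)) ||
  (decide (u.1 = 5) && decide (v.1 = 2) && decide (u.2.2.2.2 = 0) &&
    decide (v.2.2.2.2 = LL k n * (lrank k n u.2.1 u.2.2.1 u.2.2.2.1 + 1))) ||
  (decide (u.1 = 5) && decide (v.1 = 3) && decide (u.2.2.2.2 + 1 = NN k n) &&
    decide (v.2.2.2.2 = LL k n * (rrank k n u.2.1 u.2.2.1 u.2.2.2.1 + 1))) ||
  (decide (u.1 = 5) && decide (v.1 = 5) &&
    (((decide (u.2.1 = v.2.1) && decide (u.2.2.1 = v.2.2.1) && decide (u.2.2.2.1 = v.2.2.2.1)) &&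
      decide (v.2.2.2.2 = u.2.2.2.2 + 1)) ||
    (!(decide (u.2.1 = v.2.1) && decide (u.2.2.1 = v.2.2.1) && decide (u.2.2.2.1 = v.2.2.2.1)) &&
      ((decide (lrank k n u.2.1 u.2.2.1 u.2.2.2.1 < lrank k n v.2.1 v.2.2.1 v.2.2.2.1) &&
        decide (rrank k n v.2.1 v.2.2.1 v.2.2.2.1 < rrank k n u.2.1 u.2.2.1 u.2.2.2.1)) ||
      (decide (lrank k n v.2.1 v.2.2.1 v.2.2.2.1 < lrank k n u.2.1 u.2.2.1 u.2.2.2.1) &&
        decide (rrank k n u.2.1 u.2.2.1 u.2.2.2.1 < rrank k n v.2.1 v.2.2.1 v.2.2.2.1))) &&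
      decide (u.2.2.2.2 = LL k n * (code k n ord u.2.1 u.2.2.1 u.2.2.2.1
        v.2.1 v.2.2.1 v.2.2.2.1 + 1)) &&
      decide (v.2.2.2.2 = LL k n * (code k n ord v.2.1 v.2.2.1 v.2.2.2.1
        u.2.1 u.2.2.1 u.2.2.2.1 + 1)))))

theorem adjB_iff {k n : ℕ} {ord : ℕ → ℕ → ℕ} (u v : Vx (csys k n ord).X) :
    adjB k n ord (tup u) (tup v) = true ↔ (csys k n ord).Adj0 u v := by
  cases u <;> cases v <;>
    simp only [adjB, tup, ChordSys.Adj0, Bool.or_eq_true, Bool.and_eq_true, decide_eq_true_eq,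
      Bool.not_eq_true', Bool.and_eq_false_iff, decide_eq_false_iff_not,
      reduceCtorEq, false_and, and_false, or_false, false_or, true_and, and_true,
      Nat.reduceEqDiff, OfNat.ofNat_ne_zero, OfNat.ofNat_ne_one, OfNat.zero_ne_ofNat,
      OfNat.one_ne_ofNat, zero_ne_one, one_ne_zero, or_true, or_self, and_self]
  · exact Iff.rfl
  · exact Iff.rfl
  · exact Iff.rfl
  · exact Iff.rfl
  · exact Iff.rfl
  · rename_i x t y t'
    have hxy : x = y ↔ ((x.1 : ℕ) = (y.1 : ℕ) ∧ x.2.1 = y.2.1) ∧ (x.2.2 : ℕ) = (y.2.2 : ℕ) := by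
      constructor
      · rintro rfl
        exact ⟨⟨rfl, rfl⟩, rfl⟩
      · rintro ⟨⟨h1, h2⟩, h3⟩
        exact Prod.ext (Fin.ext h1) (Prod.ext h2 (Fin.ext h3))
    have hxy' : x ≠ y ↔ ((¬ (x.1 : ℕ) = (y.1 : ℕ) ∨ ¬ x.2.1 = y.2.1) ∨
        ¬ (x.2.2 : ℕ) = (y.2.2 : ℕ)) := by
      rw [Ne, hxy]
      tauto
    rw [← hxy, ← hxy', and_assoc, and_assoc]
    exact Iff.rfl

/-! ### The graph -/

/-- code of the graph -/
def segCode (k n : ℕ) (ord : ℕ → ℕ → ℕ) : ℕ × List (ℕ × ℕ) :=
  (VV k n, (List.range (VV k n)).flatMap fun a =>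
    ((List.range (VV k n)).filter fun b => adjB k n ord (dec k n a) (dec k n b)).map
      fun b => (a, b))

theorem mem_segCode {k n : ℕ} {ord : ℕ → ℕ → ℕ} {a b : ℕ} :
    (a, b) ∈ (segCode k n ord).2 ↔ a < VV k n ∧ b < VV k n ∧
      adjB k n ord (dec k n a) (dec k n b) = true := by
  unfold segCode
  simp only [List.mem_flatMap, List.mem_range, List.mem_map, List.mem_filter, Prod.mk.injEq]
  constructor
  · rintro ⟨a', ha', b', ⟨hb', hadj⟩, rfl, rfl⟩
    exact ⟨ha', hb', hadj⟩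
  · rintro ⟨ha, hb, hadj⟩
    exact ⟨a, ha, b, ⟨hb, hadj⟩, rfl, rfl⟩

theorem segCode_iso (k n : ℕ) (ord : ℕ → ℕ → ℕ) :
    Nonempty (graphOf (segCode k n ord) ≃g (csys k n ord).graph) := by
  have hinj : Function.Injective (fun v : {v : Vx (csys k n ord).X // (csys k n ord).Valid v} =>
      (⟨num k n (tup v.1), num_lt v.2⟩ : Fin (segCode k n ord).1)) := by
    intro u v h
    have h1 : num k n (tup u.1) = num k n (tup v.1) := congrArg Fin.val h
    have h2 := congrArg (dec k n) h1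
    rw [dec_num u.2, dec_num v.2] at h2
    exact Subtype.ext (tup_injective h2)
  have hsurj : Function.Surjective (fun v : {v : Vx (csys k n ord).X // (csys k n ord).Valid v} =>
      (⟨num k n (tup v.1), num_lt v.2⟩ : Fin (segCode k n ord).1)) := by
    intro a
    obtain ⟨v, hv, hva⟩ := exists_num ord (show (a : ℕ) < VV k n from a.2)
    exact ⟨⟨v, hv⟩, Fin.ext hva⟩
  let e := Equiv.ofBijective _ ⟨hinj, hsurj⟩
  refine ⟨RelIso.symm ⟨e, ?_⟩⟩
  intro u v
  show (graphOf (segCode k n ord)).Adj (e u) (e v) ↔ (csys k n ord).graph.Adj u v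
  have hu : ((e u : Fin _) : ℕ) = num k n (tup u.1) := rfl
  have hv : ((e v : Fin _) : ℕ) = num k n (tup v.1) := rfl
  show (e u ≠ e v ∧ (((e u : ℕ), (e v : ℕ)) ∈ (segCode k n ord).2 ∨
    ((e v : ℕ), (e u : ℕ)) ∈ (segCode k n ord).2)) ↔ (u ≠ v ∧ (csys k n ord).Adj u.1 v.1)
  rw [mem_segCode, mem_segCode, hu, hv, dec_num u.2, dec_num v.2, adjB_iff, adjB_iff,
    e.injective.ne_iff]
  have h1 := num_lt u.2
  have h2 := num_lt v.2
  unfold ChordSys.Adj
  tauto

/-! ### Polynomial time computability -/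

section PTlemmas

variable {α : Type} [Enc α]

theorem PT_div {f g : α → ℕ} (hf : PT f) (hg : PT g) : PT (fun a => f a / g a) := by
  have h1 : PT (fun a => ((List.range (f a)).filter
      (fun j => decide ((j + 1) * g a ≤ f a))).length) := by
    refine PT.length (PT.filter (f := fun a => List.range (f a))
      (p := fun a j => decide ((j + 1) * g a ≤ f a)) (PT.range hf) ?_)
    exact PT.le (PT.mul (PT.succ PT.snd) (hg.comp PT.fst)) (hf.comp PT.fst)
  have h2 := PT.ite (c := fun a => g a = 0) (PT.eq hg (PT.const 0)) (PT.const 0) h1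
  refine h2.congr (fun a => ?_)
  by_cases hg0 : g a = 0
  · rw [if_pos hg0, hg0, Nat.div_zero]
  · rw [if_neg hg0]
    have hpos : 0 < g a := Nat.pos_of_ne_zero hg0
    have h3 : ((List.range (f a)).filter (fun j => decide ((j + 1) * g a ≤ f a))).length =
        ((Finset.range (f a)).filter (fun j => (j + 1) * g a ≤ f a)).card := rfl
    have h4 : (Finset.range (f a)).filter (fun j => (j + 1) * g a ≤ f a) =
        Finset.range (f a / g a) := by
      ext j
      rw [Finset.mem_filter, Finset.mem_range, Finset.mem_range, Nat.lt_iff_add_one_le (m := j),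
        Nat.lt_iff_add_one_le (m := j), Nat.le_div_iff_mul_le hpos]
      constructor
      · exact fun h => h.2
      · intro h
        exact ⟨(Nat.le_mul_of_pos_right _ hpos).trans h, h⟩
    rw [h3, h4, Finset.card_range]

theorem PT_mod {f g : α → ℕ} (hf : PT f) (hg : PT g) : PT (fun a => f a % g a) := by
  refine (PT.sub hf (PT.mul hg (PT_div hf hg))).congr (fun a => ?_)
  have := Nat.div_add_mod (f a) (g a)
  omega

theorem PT_getD' {β : Type} [Enc β] {f : α → List β} {i : α → ℕ} (hf : PT f) (hi : PT i) (b : β) :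
    PT (fun a => (f a).getD (i a) b) := by
  refine (PT.optCases (f := fun a => (f a)[i a]?) (g := fun _ => b) (h := fun _ c => c)
    (PT.getElem? hi hf) (PT.const b) PT.snd).congr (fun a => ?_)
  rw [List.getD_eq_getElem?_getD]
  cases (f a)[i a]? <;> rfl

theorem PT_ordOf {σ : α → List (List ℕ)} {i j : α → ℕ} (hσ : PT σ) (hi : PT i) (hj : PT j) :
    PT (fun a => ordOf (σ a) (i a) (j a)) :=
  PT.idxOf (PT_getD' hσ hi []) hj

theorem PT_HH (k : ℕ) {n : α → ℕ} (hn : PT n) : PT (fun a => HH k (n a)) :=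
  PT.mulConst (PT.sub (PT.mulConst hn 2) (PT.const 1)) (KK k)

theorem PT_MM (k : ℕ) {n : α → ℕ} (hn : PT n) : PT (fun a => MM k (n a)) :=
  PT.addConst (PT.mulConst (PT_HH k hn) 2) 3

theorem PT_LL (k : ℕ) {n : α → ℕ} (hn : PT n) : PT (fun a => LL k (n a)) :=
  PT.addConst (PT.addConst (PT_HH k hn) k) 20

theorem PT_NN (k : ℕ) {n : α → ℕ} (hn : PT n) : PT (fun a => NN k (n a)) :=
  PT.mul (PT_LL k hn) (PT.addConst (PT.mul (PT.addConst (PT.mulConst (PT_HH k hn) 2) 1)
    (PT_MM k hn)) 3)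

theorem PT_QQ (k : ℕ) {n : α → ℕ} (hn : PT n) : PT (fun a => QQ k (n a)) :=
  PT.mul (PT_LL k hn) (PT.addConst (PT.mul hn (PT.addConst (PT.mulConst (PT_HH k hn) 2) 2)) 1)

theorem PT_FF (k : ℕ) {n : α → ℕ} (hn : PT n) : PT (fun a => FF k (n a)) :=
  PT.add (PT.add (PT.const 2) (PT.mulConst (PT_QQ k hn) 2)) (PT_LL k hn)

theorem PT_VV (k : ℕ) {n : α → ℕ} (hn : PT n) : PT (fun a => VV k (n a)) :=
  PT.add (PT_FF k hn) (PT.mul (PT.mul (PT.mulConst hn 2) (PT.addConst (PT_HH k hn) 1))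
    (PT_NN k hn))

theorem PT_rig (k : ℕ) {n b : α → ℕ} (hn : PT n) (hb : PT b) : PT (fun a => rig k (n a) (b a)) :=
  PT.mul (PT.addConst (PT.mulConst hb 2) 1) (PT_MM k hn)

theorem PT_anc {σ : α → List (List ℕ)} {i j : α → ℕ} {g : α → Bool} (hσ : PT σ) (hi : PT i)
    (hj : PT j) (hg : PT g) : PT (fun a => anc (ordOf (σ a)) (i a) (j a) (g a)) := by
  unfold anc
  exact PT.add (PT.mulConst (PT_ordOf hσ hi hj) 2)
    (PT.ite (c := fun a => decide (i a < j a) = g a) (PT.eq (PT.lt hi hj) hg)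
      (PT.const 1) (PT.const 2))

theorem PT_off (k : ℕ) {n y b : α → ℕ} (hn : PT n) (hy : PT y) (hb : PT b) :
    PT (fun a => off k (n a) (y a) (b a)) := by
  unfold off
  exact PT.ite (c := fun a => b a = y a) (PT.eq hb hy) (PT.const 0)
    (PT.ite (c := fun a => b a < y a) (PT.lt hb hy)
      (PT.sub (PT.addConst (PT_HH k hn) 1) hb) (PT.add (PT.addConst (PT_HH k hn) 1) hb))

theorem PT_code (k : ℕ) {n : α → ℕ} {σ : α → List (List ℕ)} {i j b b' : α → ℕ}
    {g g' : α → Bool} (hn : PT n) (hσ : PT σ) (hi : PT i) (hg : PT g) (hb : PT b) (hj : PT j)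
    (hg' : PT g') (hb' : PT b') :
    PT (fun a => code k (n a) (ordOf (σ a)) (i a) (g a) (b a) (j a) (g' a) (b' a)) := by
  have hM := PT_MM k hn
  have hr := PT_rig k hn hb
  have ha := PT.mulConst (PT_anc hσ hi hj hg') (KK k)
  have ha' := PT_off k hn (PT.mulConst (PT_anc hσ hj hi hg) (KK k)) hb'
  unfold code
  exact PT.ite (c := fun a => i a = j a) (PT.eq hi hj)
    (PT.ite (c := fun a => g a = g' a) (PT.eq hg hg')
      (PT.ite (c := fun a => b' a < b a) (PT.lt hb' hb)
        (PT.ite (c := fun a => b' a + 1 = b a) (PT.eq (PT.addConst hb' 1) hb) hr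
          (PT.add (PT.mul (PT.mulConst hb 2) hM) hb'))
        (PT.ite (c := fun a => b' a = b a + 1) (PT.eq hb' (PT.addConst hb 1)) hr
          (PT.mul (PT.mulConst hb' 2) hM)))
      hr)
    (PT.ite (c := fun a => b a = KK k * anc (ordOf (σ a)) (i a) (j a) (g' a)) (PT.eq hb ha) hr
      (PT.add (PT.mul (PT.addConst (PT.mulConst ha 2) 1) hM)
        (PT.ite (c := fun a => decide (i a < j a) = g' a) (PT.eq (PT.lt hi hj) hg')
          (PT.sub (PT.addConst (PT.mulConst (PT_HH k hn) 2) 2) ha') ha')))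

theorem PT_lkey {H b : α → ℕ} {g : α → Bool} (hH : PT H) (hg : PT g) (hb : PT b) :
    PT (fun a => lkey (H a) (g a) (b a)) := by
  unfold lkey
  exact PT.ite (c := fun a => b a = 0) (PT.eq hb (PT.const 0))
    (PT.cond hg (PT.addConst hH 1) hH)
    (PT.cond hg (PT.sub hH hb) (PT.add (PT.addConst hH 1) hb))

theorem PT_rkey {H b : α → ℕ} {g : α → Bool} (hH : PT H) (hg : PT g) (hb : PT b) :
    PT (fun a => rkey (H a) (g a) (b a)) := by
  unfold rkey
  exact PT.ite (c := fun a => b a = H a) (PT.eq hb hH)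
    (PT.cond hg (PT.addConst hH 1) hH)
    (PT.cond hg hb (PT.sub (PT.addConst (PT.mulConst hH 2) 1) hb))

theorem PT_lrank (k : ℕ) {n i b : α → ℕ} {g : α → Bool} (hn : PT n) (hi : PT i) (hg : PT g)
    (hb : PT b) : PT (fun a => lrank k (n a) (i a) (g a) (b a)) :=
  PT.add (PT.mul hi (PT.addConst (PT.mulConst (PT_HH k hn) 2) 2)) (PT_lkey (PT_HH k hn) hg hb)

theorem PT_rrank (k : ℕ) {n i b : α → ℕ} {g : α → Bool} (hn : PT n) (hi : PT i) (hg : PT g)
    (hb : PT b) : PT (fun a => rrank k (n a) (i a) (g a) (b a)) :=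
  PT.add (PT.mul (PT.sub (PT.sub hn (PT.const 1)) hi)
    (PT.addConst (PT.mulConst (PT_HH k hn) 2) 2)) (PT_rkey (PT_HH k hn) hg hb)

theorem PT_dec (k : ℕ) {n c : α → ℕ} (hn : PT n) (hc : PT c) :
    PT (fun a => dec k (n a) (c a)) := by
  have hF := PT_FF k hn
  have hQ := PT_QQ k hn
  have hN := PT_NN k hn
  have hH := PT.addConst (PT_HH k hn) 1
  have hr := PT.sub hc hF
  unfold dec
  exact PT.ite (c := fun a => c a = 0) (PT.eq hc (PT.const 0)) (PT.const _)
    (PT.ite (c := fun a => c a = 1) (PT.eq hc (PT.const 1)) (PT.const _)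
    (PT.ite (c := fun a => c a < 2 + QQ k (n a)) (PT.lt hc (PT.add (PT.const 2) hQ))
      (PT.pair (PT.const 2) (PT.pair (PT.const 0) (PT.pair (PT.const false) (PT.pair (PT.const 0)
        (PT.sub hc (PT.const 2))))))
    (PT.ite (c := fun a => c a < 2 + 2 * QQ k (n a))
      (PT.lt hc (PT.add (PT.const 2) (PT.mulConst hQ 2)))
      (PT.pair (PT.const 3) (PT.pair (PT.const 0) (PT.pair (PT.const false) (PT.pair (PT.const 0)
        (PT.sub hc (PT.add (PT.const 2) hQ))))))
    (PT.ite (c := fun a => c a < FF k (n a)) (PT.lt hc hF)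
      (PT.pair (PT.const 4) (PT.pair (PT.const 0) (PT.pair (PT.const false) (PT.pair (PT.const 0)
        (PT.sub hc (PT.add (PT.const 2) (PT.mulConst hQ 2)))))))
      (PT.pair (PT.const 5) (PT.pair (PT_div (PT_div (PT_div hr hN) hH) (PT.const 2))
        (PT.pair (PT.eq (PT_mod (PT_div (PT_div hr hN) hH) (PT.const 2)) (PT.const 1))
          (PT.pair (PT_mod (PT_div hr hN) hH) (PT_mod hr hN)))))))))

theorem PT_adjB (k : ℕ) {n : α → ℕ} {σ : α → List (List ℕ)} {u v : α → Tup} (hn : PT n)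
    (hσ : PT σ) (hu : PT u) (hv : PT v) : PT (fun a => adjB k (n a) (ordOf (σ a)) (u a) (v a)) := by
  have hQ := PT_QQ k hn
  have hL := PT_LL k hn
  have hN := PT_NN k hn
  have u1 : PT (fun a => (u a).1) := hu.fst'
  have v1 : PT (fun a => (v a).1) := hv.fst'
  have ui : PT (fun a => (u a).2.1) := hu.snd'.fst'
  have vi : PT (fun a => (v a).2.1) := hv.snd'.fst'
  have ug : PT (fun a => (u a).2.2.1) := hu.snd'.snd'.fst'
  have vg : PT (fun a => (v a).2.2.1) := hv.snd'.snd'.fst'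
  have ub : PT (fun a => (u a).2.2.2.1) := hu.snd'.snd'.snd'.fst'
  have vb : PT (fun a => (v a).2.2.2.1) := hv.snd'.snd'.snd'.fst'
  have ut : PT (fun a => (u a).2.2.2.2) := hu.snd'.snd'.snd'.snd'
  have vt : PT (fun a => (v a).2.2.2.2) := hv.snd'.snd'.snd'.snd'
  have u5 := PT.eq u1 (PT.const 5)
  have v5 := PT.eq v1 (PT.const 5)
  have ul := PT_lrank k hn ui ug ub
  have ur := PT_rrank k hn ui ug ub
  have vl := PT_lrank k hn vi vg vb
  have vr := PT_rrank k hn vi vg vb
  have hsame := PT.and (PT.and (PT.eq ui vi) (PT.eq ug vg)) (PT.eq ub vb)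
  have cuv := PT_code k hn hσ ui ug ub vi vg vb
  have cvu := PT_code k hn hσ vi vg vb ui ug ub
  unfold adjB
  refine PT.or (PT.or (PT.or (PT.or (PT.or (PT.or ?_ ?_) ?_) ?_) ?_) ?_) ?_
  · exact PT.and (PT.and (PT.eq u1 (PT.const 0)) (PT.or (PT.or (PT.eq v1 (PT.const 2))
      (PT.eq v1 (PT.const 3))) (PT.eq v1 (PT.const 4)))) (PT.eq vt (PT.const 0))
  · exact PT.and (PT.and (PT.eq u1 (PT.const 1)) (PT.or (PT.eq v1 (PT.const 2))
      (PT.eq v1 (PT.const 3)))) (PT.eq (PT.addConst vt 1) hQ)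
  · exact PT.and (PT.and (PT.eq u1 (PT.const 1)) (PT.eq v1 (PT.const 4)))
      (PT.eq (PT.addConst vt 1) hL)
  · exact PT.and (PT.and (PT.eq u1 v1) (PT.or (PT.or (PT.eq u1 (PT.const 2))
      (PT.eq u1 (PT.const 3))) (PT.eq u1 (PT.const 4)))) (PT.eq vt (PT.addConst ut 1))
  · exact PT.and (PT.and (PT.and u5 (PT.eq v1 (PT.const 2))) (PT.eq ut (PT.const 0)))
      (PT.eq vt (PT.mul hL (PT.addConst ul 1)))
  · exact PT.and (PT.and (PT.and u5 (PT.eq v1 (PT.const 3))) (PT.eq (PT.addConst ut 1) hN))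
      (PT.eq vt (PT.mul hL (PT.addConst ur 1)))
  · exact PT.and (PT.and u5 v5) (PT.or (PT.and hsame (PT.eq vt (PT.addConst ut 1)))
      (PT.and (PT.and (PT.and (PT.not hsame)
        (PT.or (PT.and (PT.lt ul vl) (PT.lt vr ur)) (PT.and (PT.lt vl ul) (PT.lt ur vr))))
        (PT.eq ut (PT.mul hL (PT.addConst cuv 1)))) (PT.eq vt (PT.mul hL (PT.addConst cvu 1)))))

theorem PT_validB {σ : α → List (List ℕ)} (hσ : PT σ) : PT (fun a => validB (σ a)) := by
  unfold validB
  refine PT.all (f := fun a => List.range (σ a).length) (p := fun a i =>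
    (((σ a).getD i []).all fun j => decide (j < (σ a).length) && !(decide (j = i))) &&
    ((List.range (σ a).length).all fun j => decide (j = i) ||
      ((σ a).getD i []).any fun l => decide (l = j)) &&
    decide (((σ a).getD i []).length = (σ a).length - 1)) (PT.range (PT.length hσ)) ?_
  have hs : PT (fun x : α × ℕ => (σ x.1)) := hσ.comp PT.fst
  have hl := PT.length hs
  have hg : PT (fun x : α × ℕ => (σ x.1).getD x.2 []) := PT_getD' hs PT.snd []
  refine PT.and (PT.and ?_ ?_) ?_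
  · refine PT.all (f := fun x : α × ℕ => (σ x.1).getD x.2 []) (p := fun x j =>
      decide (j < (σ x.1).length) && !(decide (j = x.2))) hg ?_
    exact PT.and (PT.lt PT.snd (hl.comp PT.fst)) (PT.not (PT.eq PT.snd PT.fst.snd'))
  · refine PT.all (f := fun x : α × ℕ => List.range (σ x.1).length) (p := fun x j =>
      decide (j = x.2) || ((σ x.1).getD x.2 []).any fun l => decide (l = j)) (PT.range hl) ?_
    refine PT.or (PT.eq PT.snd PT.fst.snd') ?_
    refine PT.any (f := fun y : (α × ℕ) × ℕ => (σ y.1.1).getD y.1.2 []) (p := fun y l =>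
      decide (l = y.2)) (hg.comp PT.fst) ?_
    exact PT.eq PT.snd PT.fst.snd'
  · exact PT.eq (PT.length hg) (PT.sub hl (PT.const 1))

theorem PT_segCode (k : ℕ) {σ : α → List (List ℕ)} (hσ : PT σ) :
    PT (fun a => segCode k (σ a).length (ordOf (σ a))) := by
  have hn := PT.length hσ
  have hV := PT_VV k hn
  unfold segCode
  refine PT.pair hV ?_
  refine PT.flatMap (f := fun a => List.range (VV k (σ a).length)) (g := fun a c =>
    ((List.range (VV k (σ a).length)).filter fun b => adjB k (σ a).length (ordOf (σ a))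
      (dec k (σ a).length c) (dec k (σ a).length b)).map fun b => (c, b)) (PT.range hV) ?_
  have hs : PT (fun x : α × ℕ => (σ x.1)) := hσ.comp PT.fst
  have hn1 := PT.length hs
  refine PT.map (f := fun x : α × ℕ => (List.range (VV k (σ x.1).length)).filter fun b =>
    adjB k (σ x.1).length (ordOf (σ x.1)) (dec k (σ x.1).length x.2) (dec k (σ x.1).length b))
    (g := fun x b => (x.2, b)) ?_ ?_
  · refine PT.filter (f := fun x : α × ℕ => List.range (VV k (σ x.1).length)) (p := fun x b =>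
      adjB k (σ x.1).length (ordOf (σ x.1)) (dec k (σ x.1).length x.2) (dec k (σ x.1).length b))
      (PT.range (PT_VV k hn1)) ?_
    have hs2 : PT (fun y : (α × ℕ) × ℕ => (σ y.1.1)) := hs.comp PT.fst
    have hn2 := PT.length hs2
    exact PT_adjB k hn2 hs2 (PT_dec k hn2 PT.fst.snd') (PT_dec k hn2 PT.snd)
  · exact PT.pair PT.fst.snd' PT.snd

end PTlemmas

theorem exists_segMap (k : ℕ) (bad : ℕ × List (ℕ × ℕ)) :
    ∃ f : List (List ℕ) → ℕ × List (ℕ × ℕ), PT f ∧
      (∀ σ, ValidSeq σ → Nonempty (graphOf (f σ) ≃g (csys k σ.length (ordOf σ)).graph)) ∧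
      ∀ σ, ¬ ValidSeq σ → f σ = bad := by
  refine ⟨fun σ => if validB σ = true then segCode k σ.length (ordOf σ) else bad,
    PT.cond (PT_validB PT.id) (PT_segCode k PT.id) (PT.const bad), ?_, ?_⟩
  · intro σ hσ
    have h : validB σ = true := (validB_iff σ).mpr hσ
    show Nonempty (graphOf (if validB σ = true then segCode k σ.length (ordOf σ) else bad) ≃g _)
    rw [if_pos h]
    exact segCode_iso k _ _
  · intro σ hσ
    exact if_neg (fun h => hσ ((validB_iff σ).mp h))

end SegGirth
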