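import Mathlib
import Pool.Agent.Lib.MP_beb3fe_lc.Basic

namespace SegGirth

/-- Filling lemma: between `a` and `b` one can choose exactly `M - 1` strictly increasing
intermediate points containing a given finite set. -/
theorem fill (a b : ℝ) (hab : a < b) (S : Finset ℝ) (hS : ∀ x ∈ S, a < x ∧ x < b) (M : ℕ)
    (hM : S.card < M) :
    ∃ f : ℕ → ℝ, f 0 = a ∧ f M = b ∧ (∀ i j, i < j → j ≤ M → f i < f j) ∧
      ∀ x ∈ S, ∃ i, i ≤ M ∧ f i = x := by
  classical
  have hinf : (Set.Ioo a b \ (S : Set ℝ)).Infinite :=
    (Set.Ioo_infinite hab).sdiff S.finite_toSet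
  obtain ⟨t, hts, htc⟩ := hinf.exists_subset_card_eq (M - 1 - S.card)
  have hdisj : Disjoint S t := by
    rw [Finset.disjoint_left]
    intro x hx hxt
    exact (hts hxt).2 hx
  set T : Finset ℝ := S ∪ t with hT
  have hTc : T.card = M - 1 := by
    rw [hT, Finset.card_union_of_disjoint hdisj, htc]
    omega
  have hTI : ∀ x ∈ T, a < x ∧ x < b := by
    intro x hx
    rw [hT, Finset.mem_union] at hx
    rcases hx with hx | hx
    · exact hS x hx
    · exact (hts hx).1
  have hbT : b ∉ T := fun h => lt_irrefl _ (hTI b h).2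
  have haT : a ∉ insert b T := by
    intro h
    rcases Finset.mem_insert.mp h with h | h
    · exact absurd h hab.ne
    · exact lt_irrefl _ (hTI a h).1
  set U : Finset ℝ := insert a (insert b T) with hU
  have hUc : U.card = M + 1 := by
    rw [hU, Finset.card_insert_of_notMem haT, Finset.card_insert_of_notMem hbT, hTc]
    omega
  have hmin : ∀ x ∈ U, a ≤ x := by
    intro x hx
    rcases Finset.mem_insert.mp hx with h | h
    · exact h.ge
    · rcases Finset.mem_insert.mp h with h | h
      · exact h ▸ hab.le
      · exact (hTI x h).1.le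
  have hmax : ∀ x ∈ U, x ≤ b := by
    intro x hx
    rcases Finset.mem_insert.mp hx with h | h
    · exact h ▸ hab.le
    · rcases Finset.mem_insert.mp h with h | h
      · exact h.le
      · exact (hTI x h).2.le
  have haU : a ∈ U := Finset.mem_insert_self _ _
  have hbU : b ∈ U := Finset.mem_insert_of_mem (Finset.mem_insert_self _ _)
  let e := U.orderEmbOfFin hUc
  have hmem : ∀ i, e i ∈ U := fun i => Finset.orderEmbOfFin_mem U hUc i
  have hsurj : ∀ x ∈ U, ∃ i, e i = x := by
    intro x hx
    have : x ∈ Set.range e := by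
      rw [Finset.range_orderEmbOfFin]
      exact hx
    exact this
  refine ⟨fun i => if h : i < M + 1 then e ⟨i, h⟩ else b, ?_, ?_, ?_, ?_⟩
  · have h0 : (0 : ℕ) < M + 1 := by omega
    simp only [h0, dif_pos]
    apply le_antisymm
    · obtain ⟨i, hi⟩ := hsurj a haU
      rw [← hi]
      exact e.monotone (Fin.mk_le_of_le_val (Nat.zero_le _))
    · exact hmin _ (hmem _)
  · have h0 : M < M + 1 := by omega
    simp only [h0, dif_pos]
    apply le_antisymm
    · exact hmax _ (hmem _)
    · obtain ⟨i, hi⟩ := hsurj b hbU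
      rw [← hi]
      apply e.monotone
      rw [Fin.le_def]
      have := i.2
      simp only
      omega
  · intro i j hij hj
    have h1 : i < M + 1 := by omega
    have h2 : j < M + 1 := by omega
    simp only [h1, h2, dif_pos]
    exact e.strictMono (by rw [Fin.lt_def]; exact hij)
  · intro x hx
    have hxU : x ∈ U := by
      rw [hU, hT]
      simp [hx]
    obtain ⟨i, hi⟩ := hsurj x hxU
    refine ⟨i, by omega, ?_⟩
    simp only [i.2, dif_pos]
    exact hi

end SegGirth
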