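import Mathlib
import Pool.Agent.Lib.MP_beb3fe_lc.CurveDef
import Pool.Agent.Lib.MP_beb3fe_lc.Fill

/-!
# Breakpoints of a chord
-/

namespace SegGirth
namespace RepC

open Set Filter Topology

/-- a point slightly to the left of `α` -/
lemma exists_left {S : Set ℝ} (hS : S.Finite) (α : ℝ) : ∃ a < α, ∀ x ∈ S, x < α → x < a := by
  have h : ∀ᶠ a in 𝓝[<] α, ∀ x ∈ S, x < α → x < a := by
    rw [Filter.eventually_all_finite hS]
    intro x _
    by_cases hx : x < α
    · filter_upwards [Ioo_mem_nhdsLT hx] with a ha _ using ha.1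
    · exact Eventually.of_forall (fun a h => absurd h hx)
  have h2 : ∀ᶠ a in 𝓝[<] α, a < α := eventually_mem_nhdsWithin
  obtain ⟨a, ha1, ha2⟩ := (h.and h2).exists
  exact ⟨a, ha2, ha1⟩

/-- a point slightly to the right of `α` -/
lemma exists_right {S : Set ℝ} (hS : S.Finite) (α : ℝ) : ∃ a, α < a ∧ ∀ x ∈ S, α < x → a < x := by
  have h : ∀ᶠ a in 𝓝[>] α, ∀ x ∈ S, α < x → a < x := by
    rw [Filter.eventually_all_finite hS]
    intro x _
    by_cases hx : α < x
    · filter_upwards [Ioo_mem_nhdsGT hx] with a ha _ using ha.2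
    · exact Eventually.of_forall (fun a h => absurd h hx)
  have h2 : ∀ᶠ a in 𝓝[>] α, α < a := eventually_mem_nhdsWithin
  obtain ⟨a, ha1, ha2⟩ := (h.and h2).exists
  exact ⟨a, ha2, ha1⟩

theorem breakpoints_aux {ι : Type*} [Finite ι] (p : ι → ℝ) (c : ι → ℕ) (a b : ℝ) (hab : a < b)
    (K : Finset ℝ) (hK : ∀ κ ∈ K, a < κ ∧ κ < b) (L : ℕ) (hKL : K.card + 3 ≤ L)
    (hp : ∀ i, a < p i ∧ p i < b) (hord : ∀ i j, c i < c j → p i < p j)
    (hnk : ∀ i j, c i = c j → ∀ κ ∈ K, ¬ (p i ≤ κ ∧ κ ≤ p j)) (m : ℕ) :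
    ∃ (j : ℕ) (s : ℝ) (f : ℕ → ℝ), j ≤ L * m + 1 ∧ f 0 = a ∧ f j = s ∧
      (∀ i i', i < i' → i' ≤ j → f i < f i') ∧ (∀ κ ∈ K, κ ≤ s → ∃ i, i ≤ j ∧ f i = κ) ∧
      (∀ i, c i < m → L * (c i + 1) + 1 ≤ j ∧ f (L * (c i + 1)) < p i ∧
        p i < f (L * (c i + 1) + 1)) ∧
      (∀ i, m ≤ c i → s < p i) ∧ s < b := by
  induction m with
  | zero =>
    refine ⟨0, a, fun _ => a, by omega, rfl, rfl, ?_, ?_, ?_, ?_, hab⟩
    · intro i i' h1 h2; omega
    · intro κ hκ h; exact absurd (hK κ hκ).1 (not_lt.2 h)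
    · intro i hi; omega
    · intro i _; exact (hp i).1
  | succ m ih =>
    obtain ⟨j, s, f, hj, hf0, hfj, hfm, hfK, hfc, hfr, hsb⟩ := ih
    by_cases hex : ∃ i, c i = m
    · obtain ⟨i2, hi2⟩ := hex
      have hfin : ({i | c i = m} : Set ι).Finite := Set.toFinite _
      obtain ⟨i0, hi0, hmin⟩ := Set.exists_min_image {i | c i = m} p hfin ⟨i2, hi2⟩
      obtain ⟨i1, hi1, hmax⟩ := Set.exists_max_image {i | c i = m} p hfin ⟨i2, hi2⟩
      simp only [Set.mem_ofPred_eq] at hi0 hi1 hmin hmax
      obtain ⟨a', ha', haS⟩ := exists_left (S := insert s (K : Set ℝ))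
        ((K.finite_toSet).insert s) (p i0)
      obtain ⟨b', hb', hbS⟩ := exists_right (S := insert b ((K : Set ℝ) ∪ Set.range p))
        (((K.finite_toSet).union (Set.finite_range p)).insert b) (p i1)
      have hsp : s < p i0 := hfr i0 (by omega)
      have hsa : s < a' := haS s (by simp) hsp
      have hKa : ∀ κ ∈ K, κ < p i0 → κ < a' := fun κ hκ h => haS κ (by simp [hκ]) h
      have hb'b : b' < b := hbS b (by simp) (hp i1).2
      have hKb : ∀ κ ∈ K, p i1 < κ → b' < κ := fun κ hκ h => hbS κ (by simp [hκ]) h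
      have hpb : ∀ i, p i1 < p i → b' < p i := fun i h => hbS (p i) (by simp) h
      have h01 : p i0 ≤ p i1 := hmin i1 hi1
      have hLm : L * (m + 1) = L * m + L := by ring
      set M' := L * (m + 1) - j with hM'
      have hM'2 : K.card < M' := by omega
      obtain ⟨g, hg0, hgM, hgm, hgS⟩ := fill s a' hsa (K.filter (fun κ => s < κ ∧ κ < a'))
        (fun x hx => (Finset.mem_filter.1 hx).2) M'
        (lt_of_le_of_lt (Finset.card_filter_le _ _) hM'2)
      have hMj : M' + j = L * (m + 1) := by omega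
      refine ⟨L * (m + 1) + 1, b',
        fun i => if i ≤ j then f i else if i ≤ L * (m + 1) then g (i - j) else b',
        le_rfl, ?_, ?_, ?_, ?_, ?_, ?_, hb'b⟩
      · simp [hf0]
      · have h1 : ¬ (L * (m + 1) + 1 ≤ j) := by omega
        have h2 : ¬ (L * (m + 1) + 1 ≤ L * (m + 1)) := by omega
        simp only [h1, h2, if_false]
      · intro i i' h1 h2
        have ha'b' : a' < b' := lt_of_lt_of_le ha' (h01.trans hb'.le)
        have hgle : ∀ i, i ≤ M' → g i ≤ a' := by
          intro i hi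
          rcases Nat.lt_or_ge i M' with h | h
          · rw [← hgM]; exact (hgm i M' h le_rfl).le
          · rw [show i = M' by omega, hgM]
        have hgpos : ∀ i, 0 < i → i ≤ M' → s < g i := by
          intro i hi hi'
          rw [← hg0]; exact hgm 0 i hi hi'
        have hfle : ∀ i, i ≤ j → f i ≤ s := by
          intro i hi
          rcases Nat.lt_or_ge i j with h | h
          · rw [← hfj]; exact (hfm i j h le_rfl).le
          · rw [show i = j by omega, hfj]
        by_cases c1 : i' ≤ j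
        · have c2 : i ≤ j := by omega
          simp only [c1, c2, if_true]
          exact hfm i i' h1 c1
        · by_cases c2 : i ≤ j
          · simp only [c1, c2, if_true, if_false]
            by_cases c3 : i' ≤ L * (m + 1)
            · simp only [c3, if_true]
              exact lt_of_le_of_lt (hfle i c2) (hgpos _ (by omega) (by omega))
            · simp only [c3, if_false]
              exact lt_of_le_of_lt (hfle i c2) (hsa.trans ha'b')
          · simp only [c1, c2, if_false]
            have c4 : i ≤ L * (m + 1) := by omega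
            simp only [c4, if_true]
            by_cases c3 : i' ≤ L * (m + 1)
            · simp only [c3, if_true]
              exact hgm _ _ (by omega) (by omega)
            · simp only [c3, if_false]
              exact lt_of_le_of_lt (hgle _ (by omega)) ha'b'
      · intro κ hκ hκb
        rcases le_or_gt κ s with h | h
        · obtain ⟨i, hi, hfi⟩ := hfK κ hκ h
          exact ⟨i, by omega, by simp [hi, hfi]⟩
        · rcases lt_or_ge κ (p i0) with h2 | h2
          · obtain ⟨i, hi, hgi⟩ := hgS κ (Finset.mem_filter.2 ⟨hκ, h, hKa κ hκ h2⟩)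
            have hi0' : i ≠ 0 := by
              rintro rfl
              rw [hg0] at hgi
              exact absurd hgi h.ne
            refine ⟨i + j, by omega, ?_⟩
            have c1 : ¬ (i + j ≤ j) := by omega
            have c2 : i + j ≤ L * (m + 1) := by omega
            simp only [c1, c2, if_true, if_false, Nat.add_sub_cancel, hgi]
          · exfalso
            rcases le_or_gt κ (p i1) with h3 | h3
            · exact hnk i0 i1 (by omega) κ hκ ⟨h2, h3⟩
            · exact absurd (hKb κ hκ h3) (not_lt.2 hκb)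
      · intro i hi
        rcases Nat.lt_or_ge (c i) m with h | h
        · obtain ⟨h1, h2, h3⟩ := hfc i h
          have c1 : L * (c i + 1) ≤ j := by omega
          refine ⟨by omega, ?_, ?_⟩
          · simp only [c1, if_true, h2]
          · simp only [h1, if_true, h3]
        · have hci : c i = m := by omega
          rw [hci]
          have c1 : ¬ (L * (m + 1) ≤ j) := by omega
          have c2 : ¬ (L * (m + 1) + 1 ≤ j) := by omega
          have c3 : ¬ (L * (m + 1) + 1 ≤ L * (m + 1)) := by omega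
          refine ⟨le_rfl, ?_, ?_⟩
          · simp only [c1, if_false, le_refl, if_true]
            rw [show L * (m + 1) - j = M' from rfl, hgM]
            exact lt_of_lt_of_le ha' (hmin i hci)
          · simp only [c2, c3, if_false]
            exact lt_of_le_of_lt (hmax i hci) hb'
      · intro i hi
        exact hpb i (hord i1 i (by omega))
    · refine ⟨j, s, f, by nlinarith, hf0, hfj, hfm, hfK, ?_, ?_, hsb⟩
      · intro i hi
        refine hfc i ?_
        rcases Nat.lt_or_ge (c i) m with h | h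
        · exact h
        · exact absurd ⟨i, by omega⟩ hex
      · intro i hi
        exact hfr i (by omega)

theorem breakpoints {ι : Type*} [Finite ι] (p : ι → ℝ) (c : ι → ℕ) (a b : ℝ) (hab : a < b)
    (K : Finset ℝ) (hK : ∀ κ ∈ K, a < κ ∧ κ < b) (L N : ℕ) (hKL : K.card + 3 ≤ L)
    (hp : ∀ i, a < p i ∧ p i < b) (hord : ∀ i j, c i < c j → p i < p j)
    (hnk : ∀ i j, c i = c j → ∀ κ ∈ K, ¬ (p i ≤ κ ∧ κ ≤ p j))
    (hN : ∀ i, L * (c i + 3) ≤ N) (hN' : L * 3 ≤ N) :
    ∃ f : ℕ → ℝ, f 0 = a ∧ f N = b ∧ (∀ i j, i < j → j ≤ N → f i < f j) ∧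
      (∀ κ ∈ K, ∃ i, i ≤ N ∧ f i = κ) ∧
      ∀ i, f (L * (c i + 1)) < p i ∧ p i < f (L * (c i + 1) + 1) := by
  obtain ⟨m, hm1, hm2⟩ : ∃ m, (∀ i, c i < m) ∧ L * m + 2 * L ≤ N := by
    by_cases hne : Nonempty ι
    · obtain ⟨i, hi⟩ := Finite.exists_max c
      refine ⟨c i + 1, fun k => Nat.lt_succ_of_le (hi k), ?_⟩
      have := hN i
      nlinarith
    · exact ⟨0, fun i => absurd ⟨i⟩ hne, by omega⟩
  obtain ⟨j, s, f, hj, hf0, hfj, hfm, hfK, hfc, hfr, hsb⟩ :=
    breakpoints_aux p c a b hab K hK L hKL hp hord hnk m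
  set M' := N - j with hM'
  have hM'2 : K.card < M' := by omega
  obtain ⟨g, hg0, hgM, hgm, hgS⟩ := fill s b hsb (K.filter (fun κ => s < κ ∧ κ < b))
    (fun x hx => (Finset.mem_filter.1 hx).2) M'
    (lt_of_le_of_lt (Finset.card_filter_le _ _) hM'2)
  have hfle : ∀ i, i ≤ j → f i ≤ s := by
    intro i hi
    rcases Nat.lt_or_ge i j with h | h
    · rw [← hfj]; exact (hfm i j h le_rfl).le
    · rw [show i = j by omega, hfj]
  have hgpos : ∀ i, 0 < i → i ≤ M' → s < g i := by
    intro i hi hi'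
    rw [← hg0]; exact hgm 0 i hi hi'
  refine ⟨fun i => if i ≤ j then f i else g (i - j), by simp [hf0], ?_, ?_, ?_, ?_⟩
  · have h1 : ¬ (N ≤ j) := by omega
    simp only [h1, if_false]
    rw [show N - j = M' from rfl, hgM]
  · intro i i' h1 h2
    by_cases c1 : i' ≤ j
    · have c2 : i ≤ j := by omega
      simp only [c1, c2, if_true]
      exact hfm i i' h1 c1
    · by_cases c2 : i ≤ j
      · simp only [c1, c2, if_true, if_false]
        exact lt_of_le_of_lt (hfle i c2) (hgpos _ (by omega) (by omega))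
      · simp only [c1, c2, if_false]
        exact hgm _ _ (by omega) (by omega)
  · intro κ hκ
    rcases le_or_gt κ s with h | h
    · obtain ⟨i, hi, hfi⟩ := hfK κ hκ h
      exact ⟨i, by omega, by simp [hi, hfi]⟩
    · obtain ⟨i, hi, hgi⟩ := hgS κ (Finset.mem_filter.2 ⟨hκ, h, (hK κ hκ).2⟩)
      have hi0' : i ≠ 0 := by
        rintro rfl
        rw [hg0] at hgi
        exact absurd hgi h.ne
      refine ⟨i + j, by omega, ?_⟩
      have c1 : ¬ (i + j ≤ j) := by omega
      simp only [c1, if_false, Nat.add_sub_cancel, hgi]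
  · intro i
    obtain ⟨h1, h2, h3⟩ := hfc i (hm1 i)
    have c1 : L * (c i + 1) ≤ j := by omega
    simp only [c1, h1, if_true]
    exact ⟨h2, h3⟩

/-- wall breakpoints -/
theorem wallpoints {ι : Type*} [Finite ι] (p : ι → ℝ) (c : ι → ℕ) (a b : ℝ) (hab : a < b)
    (Q : ℕ) (hp : ∀ i, a < p i ∧ p i < b) (_ : ∀ i j, c i = c j → i = j)
    (hord : ∀ i j, c i < c j → p i < p j) (h1 : ∀ i, 1 ≤ c i) (h2 : ∀ i, c i + 2 ≤ Q)
    (hQ : 1 ≤ Q) :
    ∃ f : ℕ → ℝ, f 0 = a ∧ f Q = b ∧ (∀ i j, i < j → j ≤ Q → f i < f j) ∧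
      ∀ i, f (c i) < p i ∧ p i < f (c i + 1) := by
  classical
  have := Fintype.ofFinite ι
  -- lower and upper envelopes
  set S : ℕ → Finset ℝ := fun q => insert a ((Finset.univ.filter (fun i => c i < q)).image p)
  set T : ℕ → Finset ℝ := fun q => insert b ((Finset.univ.filter (fun i => q ≤ c i)).image p)
  have hSne : ∀ q, (S q).Nonempty := fun q => ⟨a, Finset.mem_insert_self _ _⟩
  have hTne : ∀ q, (T q).Nonempty := fun q => ⟨b, Finset.mem_insert_self _ _⟩
  set A : ℕ → ℝ := fun q => (S q).max' (hSne q)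
  set B : ℕ → ℝ := fun q => (T q).min' (hTne q)
  have hSm : ∀ q x, x ∈ S q ↔ x = a ∨ ∃ i, c i < q ∧ p i = x := by
    intro q x; simp [S]
  have hTm : ∀ q x, x ∈ T q ↔ x = b ∨ ∃ i, q ≤ c i ∧ p i = x := by
    intro q x; simp [T]
  have hAB : ∀ q, A q < B q := by
    intro q
    have hA := (hSm q _).1 ((S q).max'_mem (hSne q))
    have hB := (hTm q _).1 ((T q).min'_mem (hTne q))
    change A q = a ∨ ∃ i, c i < q ∧ p i = A q at hA
    change B q = b ∨ ∃ i, q ≤ c i ∧ p i = B q at hB
    rcases hA with hA | ⟨i, hi, hA⟩ <;> rcases hB with hB | ⟨i', hi', hB⟩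
    · rw [hA, hB]; exact hab
    · rw [hA, ← hB]; exact (hp i').1
    · rw [← hA, hB]; exact (hp i).2
    · rw [← hA, ← hB]; exact hord i i' (by omega)
  have hAmono : ∀ q q', q ≤ q' → A q ≤ A q' := by
    intro q q' h
    apply Finset.max'_subset
    intro x hx
    rw [hSm] at hx ⊢
    rcases hx with hx | ⟨i, hi, hx⟩
    · exact Or.inl hx
    · exact Or.inr ⟨i, by omega, hx⟩
  have hBmono : ∀ q q', q ≤ q' → B q ≤ B q' := by
    intro q q' h
    apply Finset.min'_subset
    intro x hx
    rw [hTm] at hx ⊢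
    rcases hx with hx | ⟨i, hi, hx⟩
    · exact Or.inl hx
    · exact Or.inr ⟨i, by omega, hx⟩
  have hAa : ∀ q, a ≤ A q := fun q => Finset.le_max' _ _ (Finset.mem_insert_self _ _)
  have hBb : ∀ q, B q ≤ b := fun q => Finset.min'_le _ _ (Finset.mem_insert_self _ _)
  set w : ℕ → ℝ := fun q => ((q : ℝ) + 1) / (Q + 2) with hw
  have hQ0 : (0:ℝ) < Q + 2 := by positivity
  have hw0 : ∀ q, 0 < w q := fun q => by simp only [hw]; positivity
  have hw1 : ∀ q, q ≤ Q → w q < 1 := by
    intro q hq
    simp only [hw]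
    rw [div_lt_one hQ0]
    have : (q : ℝ) ≤ Q := by exact_mod_cast hq
    linarith
  have hwm : ∀ q q', q < q' → w q < w q' := by
    intro q q' h
    simp only [hw]
    apply div_lt_div_of_pos_right _ hQ0
    have : (q : ℝ) < q' := by exact_mod_cast h
    linarith
  set g : ℕ → ℝ := fun q => A q * (1 - w q) + B q * w q with hg
  have hgm : ∀ q q', q < q' → q' ≤ Q → g q < g q' := by
    intro q q' h h'
    simp only [hg]
    have e1 := hAmono q q' h.le
    have e2 := hBmono q q' h.le
    have e3 := hwm q q' h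
    have e4 := hw1 q' h'
    have e5 := hw0 q'
    have e6 := hAB q
    nlinarith [mul_le_mul_of_nonneg_right e1 (show 0 ≤ 1 - w q' by linarith),
      mul_le_mul_of_nonneg_right e2 e5.le, mul_pos (show 0 < w q' - w q by linarith)
        (show 0 < B q - A q by linarith)]
  have hgA : ∀ q, q ≤ Q → A q < g q := by
    intro q hq
    simp only [hg]
    nlinarith [mul_pos (hw0 q) (show 0 < B q - A q by linarith [hAB q])]
  have hgB : ∀ q, q ≤ Q → g q < B q := by
    intro q hq
    simp only [hg]
    nlinarith [mul_pos (show 0 < 1 - w q by linarith [hw1 q hq])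
      (show 0 < B q - A q by linarith [hAB q])]
  refine ⟨fun q => if q = 0 then a else if q = Q then b else g q, by simp, ?_, ?_, ?_⟩
  · have : Q ≠ 0 := by omega
    simp [this]
  · intro i j hij hj
    have hj0 : j ≠ 0 := by omega
    have hiQ : i ≠ Q := by omega
    simp only [hj0, hiQ, if_false]
    by_cases hi0 : i = 0
    · simp only [hi0, if_true]
      by_cases hjQ : j = Q
      · simp only [hjQ, if_true]; exact hab
      · simp only [hjQ, if_false]
        exact lt_of_le_of_lt (hAa j) (hgA j hj)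
    · simp only [hi0, if_false]
      by_cases hjQ : j = Q
      · simp only [hjQ, if_true]
        exact lt_of_lt_of_le (hgB i (by omega)) (hBb i)
      · simp only [hjQ, if_false]
        exact hgm i j hij hj
  · intro i
    have e1 := h1 i
    have e2 := h2 i
    have n1 : c i ≠ 0 := by omega
    have n2 : c i ≠ Q := by omega
    have n3 : c i + 1 ≠ 0 := by omega
    have n4 : c i + 1 ≠ Q := by omega
    simp only [n1, n2, n3, n4, if_false]
    constructor
    · refine lt_of_lt_of_le (hgB (c i) (by omega)) ?_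
      exact Finset.min'_le _ _ ((hTm _ _).2 (Or.inr ⟨i, le_rfl, rfl⟩))
    · refine lt_of_le_of_lt ?_ (hgA (c i + 1) (by omega))
      exact Finset.le_max' _ _ ((hSm _ _).2 (Or.inr ⟨i, by omega, rfl⟩))

end RepC
end SegGirth
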