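import Mathlib
import Pool.Agent.Lib.MP_beb3fe_lc.Breakpoints

/-!
# Curves give a segment representation
-/

namespace SegGirth
namespace RepC

open Set

lemma mem_seg_vert {x0 y0 y1 : ℝ} (h : y1 ≤ y0) (z : Pt) :
    z ∈ segment ℝ ((x0, y0) : Pt) ((x0, y1) : Pt) ↔ z.1 = x0 ∧ y1 ≤ z.2 ∧ z.2 ≤ y0 := by
  rw [← Prod.image_mk_segment_right, segment_symm, segment_eq_Icc h]
  constructor
  · rintro ⟨y, hy, rfl⟩
    exact ⟨rfl, hy.1, hy.2⟩
  · rintro ⟨h1, h2, h3⟩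
    exact ⟨z.2, ⟨h2, h3⟩, by rw [← h1]⟩

lemma mem_seg_hor {x0 x1 y0 : ℝ} (h : x0 ≤ x1) (z : Pt) :
    z ∈ segment ℝ ((x0, y0) : Pt) ((x1, y0) : Pt) ↔ z.2 = y0 ∧ x0 ≤ z.1 ∧ z.1 ≤ x1 := by
  rw [← Prod.image_mk_segment_left, segment_eq_Icc h]
  constructor
  · rintro ⟨y, hy, rfl⟩
    exact ⟨rfl, hy.1, hy.2⟩
  · rintro ⟨h1, h2, h3⟩
    exact ⟨z.1, ⟨h2, h3⟩, by rw [← h1]⟩

lemma mem_seg_graph {s t m q : ℝ} (h : s < t) (z : Pt) :
    z ∈ segment ℝ ((s, m * s + q) : Pt) ((t, m * t + q) : Pt) ↔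
      s ≤ z.1 ∧ z.1 ≤ t ∧ z.2 = m * z.1 + q := by
  constructor
  · rintro ⟨a, b, ha, hb, hab, rfl⟩
    simp only [Prod.smul_mk, smul_eq_mul, Prod.mk_add_mk]
    have hb' : b = 1 - a := by linarith
    subst hb'
    refine ⟨by nlinarith, by nlinarith, by ring⟩
  · rintro ⟨h1, h2, h3⟩
    have hts : 0 < t - s := by linarith
    refine ⟨(t - z.1) / (t - s), (z.1 - s) / (t - s), div_nonneg (by linarith) hts.le,
      div_nonneg (by linarith) hts.le, by field_simp; ring, ?_⟩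
    ext
    · simp only [Prod.smul_mk, smul_eq_mul, Prod.mk_add_mk]
      field_simp; ring
    · simp only [Prod.smul_mk, smul_eq_mul, Prod.mk_add_mk]
      rw [h3]
      field_simp; ring

/-- strictly increasing on `[0,N]` -/
def SM (f : ℕ → ℝ) (N : ℕ) : Prop := ∀ i j, i < j → j ≤ N → f i < f j

lemma SM.le {f : ℕ → ℝ} {N : ℕ} (h : SM f N) {i j : ℕ} (hij : i ≤ j) (hj : j ≤ N) :
    f i ≤ f j := by
  rcases Nat.lt_or_ge i j with h1 | h1
  · exact (h i j h1 hj).le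
  · rw [show i = j by omega]

lemma SM.idx {f : ℕ → ℝ} {N : ℕ} (h : SM f N) {i j : ℕ} (hi : i ≤ N) (hf : f i ≤ f j) :
    i ≤ j := by
  by_contra hcon
  exact absurd (h j i (by omega) hi) (not_lt.2 hf)

lemma SM.chain {f : ℕ → ℝ} {N : ℕ} (h : SM f N) {t t' : ℕ} (ht : t < N) (ht' : t' < N)
    (hne : t ≠ t') :
    (∃ ξ, (f t ≤ ξ ∧ ξ ≤ f (t + 1)) ∧ (f t' ≤ ξ ∧ ξ ≤ f (t' + 1))) ↔ t' = t + 1 ∨ t = t' + 1 := by
  constructor
  · rintro ⟨ξ, ⟨h1, h2⟩, h3, h4⟩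
    have e1 := h.idx (by omega) (h1.trans h4)
    have e2 := h.idx (by omega) (h3.trans h2)
    omega
  · rintro (rfl | rfl)
    · exact ⟨f (t + 1), ⟨h.le (by omega) (by omega), le_rfl⟩, le_rfl, h.le (by omega) (by omega)⟩
    · exact ⟨f (t' + 1), ⟨le_rfl, h.le (by omega) (by omega)⟩, h.le (by omega) (by omega), le_rfl⟩

lemma SM.open_eq {f : ℕ → ℝ} {N : ℕ} (h : SM f N) {t p : ℕ} {ξ : ℝ} (ht : t < N) (hp : p < N)
    (h1 : f p < ξ) (h2 : ξ < f (p + 1)) (h3 : f t ≤ ξ) (h4 : ξ ≤ f (t + 1)) : t = p := by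
  have e1 : p < t + 1 := by
    by_contra hcon
    exact absurd (h.le (show t + 1 ≤ p by omega) (by omega)) (not_le.2 (lt_of_lt_of_le h1 h4))
  have e2 : t < p + 1 := by
    by_contra hcon
    exact absurd (h.le (show p + 1 ≤ t by omega) (by omega)) (not_le.2 (lt_of_le_of_lt h3 h2))
  omega

/-- all data of the representation -/
structure RData (C : ChordSys) where
  R : ℝ
  top : ℝ
  bot : ℝ
  hR : 0 < R
  F : C.X → ℝ → ℝ
  τ : C.X → ℕ → ℝ
  τ0 : ∀ x, τ x 0 = -R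
  τN : ∀ x, τ x C.N = R
  τm : ∀ x, SM (τ x) C.N
  aff : ∀ x i, i < C.N → ∃ m q, ∀ ξ ∈ Icc (τ x i) (τ x (i + 1)), F x ξ = m * ξ + q
  hl : ℕ → ℝ
  hr : ℕ → ℝ
  ho : ℕ → ℝ
  hl0 : 1 ≤ C.Q → hl 0 = top
  hlQ : 1 ≤ C.Q → hl C.Q = bot
  hlm : SM (fun i => - hl i) C.Q
  hr0 : 1 ≤ C.Q → hr 0 = top
  hrQ : 1 ≤ C.Q → hr C.Q = bot
  hrm : SM (fun i => - hr i) C.Q
  ho0 : ho 0 = top
  hoW : ho C.W = bot
  hom : SM (fun i => - ho i) C.W
  hlx : ∀ x, hl (C.la x + 1) < F x (-R) ∧ F x (-R) < hl (C.la x)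
  hrx : ∀ x, hr (C.ra x + 1) < F x R ∧ F x R < hr (C.ra x)
  Fb : ∀ x i, i ≤ C.N → bot < F x (τ x i) ∧ F x (τ x i) < top
  xc : C.X → C.X → ℝ
  xc_eq : ∀ x y, C.cross x y → F x (xc x y) = F y (xc x y)
  xc1 : ∀ x y, C.cross x y → τ x (C.pos x y) < xc x y ∧ xc x y < τ x (C.pos x y + 1)
  xc2 : ∀ x y, C.cross x y → τ y (C.pos y x) < xc x y ∧ xc x y < τ y (C.pos y x + 1)
  uniq : ∀ x y, x ≠ y → ∀ ξ ∈ Icc (-R) R, F x ξ = F y ξ → C.cross x y ∧ ξ = xc x y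

namespace RData

variable {C : ChordSys} (D : RData C)

def p0 : Vx C.X → Pt
  | Vx.T => (-D.R, D.top)
  | Vx.B => (-D.R, D.bot)
  | Vx.wl q => (-D.R, D.hl q)
  | Vx.wr q => (D.R, D.hr q)
  | Vx.om q => (D.R + 1, D.ho q)
  | Vx.ch x t => (D.τ x t, D.F x (D.τ x t))

def p1 : Vx C.X → Pt
  | Vx.T => (D.R + 1, D.top)
  | Vx.B => (D.R + 1, D.bot)
  | Vx.wl q => (-D.R, D.hl (q + 1))
  | Vx.wr q => (D.R, D.hr (q + 1))
  | Vx.om q => (D.R + 1, D.ho (q + 1))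
  | Vx.ch x t => (D.τ x (t + 1), D.F x (D.τ x (t + 1)))

/-- explicit description of the segments -/
def Mem (z : Pt) : Vx C.X → Prop
  | Vx.T => z.2 = D.top ∧ -D.R ≤ z.1 ∧ z.1 ≤ D.R + 1
  | Vx.B => z.2 = D.bot ∧ -D.R ≤ z.1 ∧ z.1 ≤ D.R + 1
  | Vx.wl q => z.1 = -D.R ∧ D.hl (q + 1) ≤ z.2 ∧ z.2 ≤ D.hl q
  | Vx.wr q => z.1 = D.R ∧ D.hr (q + 1) ≤ z.2 ∧ z.2 ≤ D.hr q
  | Vx.om q => z.1 = D.R + 1 ∧ D.ho (q + 1) ≤ z.2 ∧ z.2 ≤ D.ho q
  | Vx.ch x t => D.τ x t ≤ z.1 ∧ z.1 ≤ D.τ x (t + 1) ∧ z.2 = D.F x z.1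

lemma mem_iff (z : Pt) (v : Vx C.X) (hv : C.Valid v) :
    z ∈ segment ℝ (D.p0 v) (D.p1 v) ↔ D.Mem z v := by
  have hR := D.hR
  cases v with
  | T => exact mem_seg_hor (by linarith) z
  | B => exact mem_seg_hor (by linarith) z
  | wl q =>
    have : q < C.Q := hv
    have h := D.hlm q (q + 1) (by omega) (by omega)
    exact mem_seg_vert (by linarith) z
  | wr q =>
    have : q < C.Q := hv
    have h := D.hrm q (q + 1) (by omega) (by omega)
    exact mem_seg_vert (by linarith) z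
  | om q =>
    have : q < C.W := hv
    have h := D.hom q (q + 1) (by omega) (by omega)
    exact mem_seg_vert (by linarith) z
  | ch x t =>
    have ht : t < C.N := hv
    have h := D.τm x t (t + 1) (by omega) (by omega)
    obtain ⟨m, q, hmq⟩ := D.aff x t ht
    have e1 := hmq _ (left_mem_Icc.2 h.le)
    have e2 := hmq _ (right_mem_Icc.2 h.le)
    have := mem_seg_graph (m := m) (q := q) h z
    simp only [p0, p1, Mem]
    rw [e1, e2, this]
    constructor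
    · rintro ⟨h1, h2, h3⟩
      exact ⟨h1, h2, by rw [h3, hmq z.1 ⟨h1, h2⟩]⟩
    · rintro ⟨h1, h2, h3⟩
      exact ⟨h1, h2, by rw [h3, hmq z.1 ⟨h1, h2⟩]⟩

/-- the two segments meet -/
def Mt (u v : Vx C.X) : Prop := ∃ z : Pt, D.Mem z u ∧ D.Mem z v

lemma Mt.symm {u v : Vx C.X} (h : D.Mt u v) : D.Mt v u := by
  obtain ⟨z, h1, h2⟩ := h
  exact ⟨z, h2, h1⟩

lemma ch_range (z : Pt) (x : C.X) (t : ℕ) (ht : t < C.N) (h : D.Mem z (Vx.ch x t)) :
    -D.R ≤ z.1 ∧ z.1 ≤ D.R ∧ D.bot < z.2 ∧ z.2 < D.top := by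
  obtain ⟨h1, h2, h3⟩ := h
  have e0 := (D.τm x).le (Nat.zero_le t) (by omega)
  have e1 := (D.τm x).le (show t + 1 ≤ C.N by omega) le_rfl
  rw [D.τ0] at e0
  rw [D.τN] at e1
  refine ⟨e0.trans h1, h2.trans e1, ?_⟩
  obtain ⟨m, q, hmq⟩ := D.aff x t ht
  have hlt := D.τm x t (t + 1) (by omega) (by omega)
  have f1 := hmq _ (left_mem_Icc.2 hlt.le)
  have f2 := hmq _ (right_mem_Icc.2 hlt.le)
  have f3 := hmq z.1 ⟨h1, h2⟩
  have g1 := D.Fb x t (by omega)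
  have g2 := D.Fb x (t + 1) (by omega)
  rw [h3, f3]
  rw [f1] at g1
  rw [f2] at g2
  constructor
  · rcases le_total 0 m with hm | hm <;> nlinarith
  · rcases le_total 0 m with hm | hm <;> nlinarith

lemma top_bot (hW : 1 ≤ C.W) : D.bot < D.top := by
  have := D.hom 0 C.W (by omega) le_rfl
  simp only [D.ho0, D.hoW] at this
  linarith

lemma T_wall (h : ℕ → ℝ) (Q : ℕ) (h0 : h 0 = D.top) (hm : SM (fun i => - h i) Q) (q : ℕ)
    (hq : q < Q) (x0 : ℝ) (hx1 : -D.R ≤ x0) (hx2 : x0 ≤ D.R + 1) :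
    (∃ z : Pt, (z.2 = D.top ∧ -D.R ≤ z.1 ∧ z.1 ≤ D.R + 1) ∧
      (z.1 = x0 ∧ h (q + 1) ≤ z.2 ∧ z.2 ≤ h q)) ↔ q = 0 := by
  constructor
  · rintro ⟨z, ⟨h1, _, _⟩, _, _, h4⟩
    rw [h1, ← h0] at h4
    have := hm.idx (i := q) (j := 0) (by omega) (by simpa using h4)
    omega
  · rintro rfl
    have h2 : - h 0 < - h 1 := hm 0 1 (by omega) (by omega)
    exact ⟨(x0, D.top), ⟨rfl, hx1, hx2⟩, rfl, by simp only [zero_add]; linarith, h0.ge⟩

lemma B_wall (h : ℕ → ℝ) (Q : ℕ) (hQ : h Q = D.bot) (hm : SM (fun i => - h i) Q) (q : ℕ)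
    (hq : q < Q) (x0 : ℝ) (hx1 : -D.R ≤ x0) (hx2 : x0 ≤ D.R + 1) :
    (∃ z : Pt, (z.2 = D.bot ∧ -D.R ≤ z.1 ∧ z.1 ≤ D.R + 1) ∧
      (z.1 = x0 ∧ h (q + 1) ≤ z.2 ∧ z.2 ≤ h q)) ↔ q + 1 = Q := by
  constructor
  · rintro ⟨z, ⟨h1, _, _⟩, _, h3, _⟩
    rw [h1, ← hQ] at h3
    have := hm.idx (i := Q) (j := q + 1) le_rfl (by simpa using h3)
    omega
  · intro hq1
    have := hm q (q + 1) (by omega) (by omega)
    simp only at this
    rw [hq1, hQ] at this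
    exact ⟨(x0, D.bot), ⟨rfl, hx1, hx2⟩, rfl, by rw [hq1, hQ], by linarith⟩

lemma wall_wall (h : ℕ → ℝ) (Q : ℕ) (hm : SM (fun i => - h i) Q) (q q' : ℕ)
    (hq : q < Q) (hq' : q' < Q) (hne : q ≠ q') (x0 : ℝ) :
    (∃ z : Pt, (z.1 = x0 ∧ h (q + 1) ≤ z.2 ∧ z.2 ≤ h q) ∧
      (z.1 = x0 ∧ h (q' + 1) ≤ z.2 ∧ z.2 ≤ h q')) ↔ q' = q + 1 ∨ q = q' + 1 := by
  rw [← hm.chain hq hq' hne]
  constructor
  · rintro ⟨z, ⟨_, h1, h2⟩, _, h3, h4⟩
    exact ⟨-z.2, ⟨by simpa using h2, by simpa using h1⟩, by simpa using h4, by simpa using h3⟩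
  · rintro ⟨ξ, ⟨h1, h2⟩, h3, h4⟩
    exact ⟨(x0, -ξ), ⟨rfl, by simp only; linarith, by simp only; linarith⟩, rfl,
      by simp only; linarith, by simp only; linarith⟩

lemma ch_wall (h : ℕ → ℝ) (Q : ℕ) (hm : SM (fun i => - h i) Q) (q : ℕ) (hq : q < Q)
    (y0 : ℝ) (a : ℕ) (ha : a < Q) (h1 : h (a + 1) < y0) (h2 : y0 < h a) :
    (h (q + 1) ≤ y0 ∧ y0 ≤ h q) ↔ q = a := by
  constructor
  · rintro ⟨h3, h4⟩
    exact hm.open_eq (ξ := -y0) hq ha (by simpa using h2) (by simpa using h1)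
      (by simpa using h4) (by simpa using h3)
  · rintro rfl
    exact ⟨h1.le, h2.le⟩

/-- main case analysis -/
lemma adj_iff (hG : C.Good) (u v : Vx C.X) (hu : C.Valid u) (hv : C.Valid v) (hne : u ≠ v) :
    C.Adj u v ↔ D.Mt u v := by
  have hR := D.hR
  have htb := D.top_bot hG.hW
  have hla : ∀ x, C.la x < C.Q := fun x => by have := hG.la2 x; omega
  have hra : ∀ x, C.ra x < C.Q := fun x => by have := hG.ra2 x; omega
  -- a list of all unordered pairs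
  have hTwl : ∀ q, q < C.Q → (D.Mt Vx.T (Vx.wl q) ↔ q = 0) := fun q hq =>
    D.T_wall D.hl C.Q (D.hl0 (by omega)) D.hlm q hq _ le_rfl (by linarith)
  have hTwr : ∀ q, q < C.Q → (D.Mt Vx.T (Vx.wr q) ↔ q = 0) := fun q hq =>
    D.T_wall D.hr C.Q (D.hr0 (by omega)) D.hrm q hq _ (by linarith) (by linarith)
  have hTom : ∀ q, q < C.W → (D.Mt Vx.T (Vx.om q) ↔ q = 0) := fun q hq =>
    D.T_wall D.ho C.W D.ho0 D.hom q hq _ (by linarith) le_rfl
  have hBwl : ∀ q, q < C.Q → (D.Mt Vx.B (Vx.wl q) ↔ q + 1 = C.Q) := fun q hq =>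
    D.B_wall D.hl C.Q (D.hlQ (by omega)) D.hlm q hq _ le_rfl (by linarith)
  have hBwr : ∀ q, q < C.Q → (D.Mt Vx.B (Vx.wr q) ↔ q + 1 = C.Q) := fun q hq =>
    D.B_wall D.hr C.Q (D.hrQ (by omega)) D.hrm q hq _ (by linarith) (by linarith)
  have hBom : ∀ q, q < C.W → (D.Mt Vx.B (Vx.om q) ↔ q + 1 = C.W) := fun q hq =>
    D.B_wall D.ho C.W D.hoW D.hom q hq _ (by linarith) le_rfl
  have hwlwl : ∀ q q', q < C.Q → q' < C.Q → q ≠ q' →
      (D.Mt (Vx.wl q) (Vx.wl q') ↔ q' = q + 1 ∨ q = q' + 1) := fun q q' h1 h2 h3 =>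
    wall_wall D.hl C.Q D.hlm q q' h1 h2 h3 _
  have hwrwr : ∀ q q', q < C.Q → q' < C.Q → q ≠ q' →
      (D.Mt (Vx.wr q) (Vx.wr q') ↔ q' = q + 1 ∨ q = q' + 1) := fun q q' h1 h2 h3 =>
    wall_wall D.hr C.Q D.hrm q q' h1 h2 h3 _
  have homom : ∀ q q', q < C.W → q' < C.W → q ≠ q' →
      (D.Mt (Vx.om q) (Vx.om q') ↔ q' = q + 1 ∨ q = q' + 1) := fun q q' h1 h2 h3 =>
    wall_wall D.ho C.W D.hom q q' h1 h2 h3 _
  have hTB : ¬ D.Mt (Vx.T : Vx C.X) Vx.B := by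
    rintro ⟨z, ⟨h1, _⟩, h2, _⟩
    rw [h1] at h2; linarith
  have hwlwr : ∀ q q', ¬ D.Mt (Vx.wl q : Vx C.X) (Vx.wr q') := by
    rintro q q' ⟨z, ⟨h1, _⟩, h2, _⟩
    rw [h1] at h2; linarith
  have hwlom : ∀ q q', ¬ D.Mt (Vx.wl q : Vx C.X) (Vx.om q') := by
    rintro q q' ⟨z, ⟨h1, _⟩, h2, _⟩
    rw [h1] at h2; linarith
  have hwrom : ∀ q q', ¬ D.Mt (Vx.wr q : Vx C.X) (Vx.om q') := by
    rintro q q' ⟨z, ⟨h1, _⟩, h2, _⟩
    rw [h1] at h2; linarith
  have hchT : ∀ x t, t < C.N → ¬ D.Mt (Vx.ch x t) Vx.T := by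
    rintro x t ht ⟨z, h1, h2, _⟩
    have := D.ch_range z x t ht h1
    linarith
  have hchB : ∀ x t, t < C.N → ¬ D.Mt (Vx.ch x t) Vx.B := by
    rintro x t ht ⟨z, h1, h2, _⟩
    have := D.ch_range z x t ht h1
    linarith
  have hchom : ∀ x t q, t < C.N → ¬ D.Mt (Vx.ch x t) (Vx.om q) := by
    rintro x t q ht ⟨z, h1, h2, _⟩
    have := D.ch_range z x t ht h1
    linarith
  have hchwl : ∀ x t q, t < C.N → q < C.Q →
      (D.Mt (Vx.ch x t) (Vx.wl q) ↔ t = 0 ∧ q = C.la x) := by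
    intro x t q ht hq
    have key := ch_wall D.hl C.Q D.hlm q hq (D.F x (-D.R)) (C.la x) (hla x) (D.hlx x).1
      (D.hlx x).2
    constructor
    · rintro ⟨z, ⟨h1, h2, h3⟩, h4, h5, h6⟩
      rw [h4] at h1 h3
      have ht0 : t = 0 := by
        have := (D.τm x).idx (i := t) (j := 0) (by omega) (by rw [D.τ0]; exact h1)
        omega
      refine ⟨ht0, key.1 ?_⟩
      rw [← h3]; exact ⟨h5, h6⟩
    · rintro ⟨rfl, hq'⟩
      have hk := key.2 hq'
      have hlt := D.τm x 0 1 (by omega) (by have := hG.hN; omega)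
      refine ⟨(-D.R, D.F x (-D.R)), ⟨(D.τ0 x).le, ?_, rfl⟩, rfl, hk.1, hk.2⟩
      rw [D.τ0] at hlt
      exact hlt.le
  have hchwr : ∀ x t q, t < C.N → q < C.Q →
      (D.Mt (Vx.ch x t) (Vx.wr q) ↔ t + 1 = C.N ∧ q = C.ra x) := by
    intro x t q ht hq
    have key := ch_wall D.hr C.Q D.hrm q hq (D.F x D.R) (C.ra x) (hra x) (D.hrx x).1
      (D.hrx x).2
    constructor
    · rintro ⟨z, ⟨h1, h2, h3⟩, h4, h5, h6⟩
      rw [h4] at h2 h3
      have ht0 : t + 1 = C.N := by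
        have := (D.τm x).idx (i := C.N) (j := t + 1) le_rfl (by rw [D.τN]; exact h2)
        omega
      refine ⟨ht0, key.1 ?_⟩
      rw [← h3]; exact ⟨h5, h6⟩
    · rintro ⟨hN, hq'⟩
      have hk := key.2 hq'
      have hlt := D.τm x t (t + 1) (by omega) (by omega)
      rw [hN, D.τN] at hlt
      refine ⟨(D.R, D.F x D.R), ⟨hlt.le, ?_, rfl⟩, rfl, hk.1, hk.2⟩
      rw [hN, D.τN]
  have hchch : ∀ x t y t', t < C.N → t' < C.N → Vx.ch x t ≠ Vx.ch y t' →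
      (D.Mt (Vx.ch x t) (Vx.ch y t') ↔ (x = y ∧ (t' = t + 1 ∨ t = t' + 1)) ∨
        (x ≠ y ∧ C.cross x y ∧ t = C.pos x y ∧ t' = C.pos y x)) := by
    intro x t y t' ht ht' hne
    by_cases hxy : x = y
    · subst hxy
      have htt : t ≠ t' := fun h => hne (by rw [h])
      simp only [true_and, ne_eq, not_true_eq_false, false_and, or_false]
      rw [← (D.τm x).chain ht ht' htt]
      constructor
      · rintro ⟨z, ⟨h1, h2, _⟩, h3, h4, _⟩
        exact ⟨z.1, ⟨h1, h2⟩, h3, h4⟩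
      · rintro ⟨ξ, ⟨h1, h2⟩, h3, h4⟩
        exact ⟨(ξ, D.F x ξ), ⟨h1, h2, rfl⟩, h3, h4, rfl⟩
    · simp only [hxy, false_and, ne_eq, not_false_eq_true, true_and, false_or]
      constructor
      · rintro ⟨z, hz1, hz2⟩
        have hr := D.ch_range z x t ht hz1
        obtain ⟨h1, h2, h3⟩ := hz1
        obtain ⟨h4, h5, h6⟩ := hz2
        obtain ⟨hc, hz⟩ := D.uniq x y hxy z.1 ⟨hr.1, hr.2.1⟩ (h3.symm.trans h6)
        have p1 := hG.pos2 x y hc
        have p2 := hG.pos2 y x (hG.symm x y hc)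
        have a1 := D.xc1 x y hc
        have a2 := D.xc2 x y hc
        rw [← hz] at a1 a2
        exact ⟨hc, (D.τm x).open_eq ht (by omega) a1.1 a1.2 h1 h2,
          (D.τm y).open_eq ht' (by omega) a2.1 a2.2 h4 h5⟩
      · rintro ⟨hc, rfl, rfl⟩
        have a1 := D.xc1 x y hc
        have a2 := D.xc2 x y hc
        exact ⟨(D.xc x y, D.F x (D.xc x y)), ⟨a1.1.le, a1.2.le, rfl⟩, a2.1.le, a2.2.le,
          D.xc_eq x y hc⟩
  have hsym : ∀ u v : Vx C.X, D.Mt u v ↔ D.Mt v u := fun u v => ⟨fun h => h.symm, fun h => h.symm⟩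
  cases u with
  | T =>
    cases v with
    | T => exact absurd rfl hne
    | B => simp [ChordSys.Adj, ChordSys.Adj0, hTB]
    | wl q => simp [ChordSys.Adj, ChordSys.Adj0, hTwl q hv]
    | wr q => simp [ChordSys.Adj, ChordSys.Adj0, hTwr q hv]
    | om q => simp [ChordSys.Adj, ChordSys.Adj0, hTom q hv]
    | ch x t => rw [hsym]; simp [ChordSys.Adj, ChordSys.Adj0, hchT x t hv]
  | B =>
    cases v with
    | T => rw [hsym]; simp [ChordSys.Adj, ChordSys.Adj0, hTB]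
    | B => exact absurd rfl hne
    | wl q => simp [ChordSys.Adj, ChordSys.Adj0, hBwl q hv]
    | wr q => simp [ChordSys.Adj, ChordSys.Adj0, hBwr q hv]
    | om q => simp [ChordSys.Adj, ChordSys.Adj0, hBom q hv]
    | ch x t => rw [hsym]; simp [ChordSys.Adj, ChordSys.Adj0, hchB x t hv]
  | wl q =>
    cases v with
    | T => rw [hsym]; simp [ChordSys.Adj, ChordSys.Adj0, hTwl q hu]
    | B => rw [hsym]; simp [ChordSys.Adj, ChordSys.Adj0, hBwl q hu]
    | wl q' =>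
      have : q ≠ q' := fun h => hne (by rw [h])
      simp [ChordSys.Adj, ChordSys.Adj0, hwlwl q q' hu hv this]
    | wr q' => simp [ChordSys.Adj, ChordSys.Adj0, hwlwr q q']
    | om q' => simp [ChordSys.Adj, ChordSys.Adj0, hwlom q q']
    | ch x t => rw [hsym]; simp [ChordSys.Adj, ChordSys.Adj0, hchwl x t q hv hu]
  | wr q =>
    cases v with
    | T => rw [hsym]; simp [ChordSys.Adj, ChordSys.Adj0, hTwr q hu]
    | B => rw [hsym]; simp [ChordSys.Adj, ChordSys.Adj0, hBwr q hu]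
    | wl q' => rw [hsym]; simp [ChordSys.Adj, ChordSys.Adj0, hwlwr q' q]
    | wr q' =>
      have : q ≠ q' := fun h => hne (by rw [h])
      simp [ChordSys.Adj, ChordSys.Adj0, hwrwr q q' hu hv this]
    | om q' => simp [ChordSys.Adj, ChordSys.Adj0, hwrom q q']
    | ch x t => rw [hsym]; simp [ChordSys.Adj, ChordSys.Adj0, hchwr x t q hv hu]
  | om q =>
    cases v with
    | T => rw [hsym]; simp [ChordSys.Adj, ChordSys.Adj0, hTom q hu]
    | B => rw [hsym]; simp [ChordSys.Adj, ChordSys.Adj0, hBom q hu]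
    | wl q' => rw [hsym]; simp [ChordSys.Adj, ChordSys.Adj0, hwlom q' q]
    | wr q' => rw [hsym]; simp [ChordSys.Adj, ChordSys.Adj0, hwrom q' q]
    | om q' =>
      have : q ≠ q' := fun h => hne (by rw [h])
      simp [ChordSys.Adj, ChordSys.Adj0, homom q q' hu hv this]
    | ch x t => rw [hsym]; simp [ChordSys.Adj, ChordSys.Adj0, hchom x t q hv]
  | ch x t =>
    cases v with
    | T => simp [ChordSys.Adj, ChordSys.Adj0, hchT x t hu]
    | B => simp [ChordSys.Adj, ChordSys.Adj0, hchB x t hu]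
    | wl q => simp [ChordSys.Adj, ChordSys.Adj0, hchwl x t q hu hv]
    | wr q => simp [ChordSys.Adj, ChordSys.Adj0, hchwr x t q hu hv]
    | om q => simp [ChordSys.Adj, ChordSys.Adj0, hchom x t q hu]
    | ch y t' =>
      rw [hchch x t y t' hu hv hne]
      simp only [ChordSys.Adj, ChordSys.Adj0]
      constructor
      · rintro ((⟨h1, h2⟩ | ⟨h1, h2, h3, h4⟩) | (⟨h1, h2⟩ | ⟨h1, h2, h3, h4⟩))
        · exact Or.inl ⟨h1, Or.inl h2⟩
        · exact Or.inr ⟨h1, h2, h3, h4⟩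
        · exact Or.inl ⟨h1.symm, Or.inr h2⟩
        · exact Or.inr ⟨fun h => h1 h.symm, hG.symm _ _ h2, h4, h3⟩
      · rintro (⟨h1, h2 | h2⟩ | ⟨h1, h2, h3, h4⟩)
        · exact Or.inl (Or.inl ⟨h1, h2⟩)
        · exact Or.inr (Or.inl ⟨h1.symm, h2⟩)
        · exact Or.inl (Or.inr ⟨h1, h2, h3, h4⟩)

/-- the representation -/
def rep (hG : C.Good) : Rep C where
  p0 := D.p0
  p1 := D.p1
  inter u v hu hv hne := by
    rw [D.adj_iff hG u v hu hv hne]
    constructor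
    · rintro ⟨z, h1, h2⟩
      exact ⟨z, (D.mem_iff z u hu).2 h1, (D.mem_iff z v hv).2 h2⟩
    · rintro ⟨z, h1, h2⟩
      exact ⟨z, (D.mem_iff z u hu).1 h1, (D.mem_iff z v hv).1 h2⟩

lemma rep_ne (hG : C.Good) (v : Vx C.X) (hv : C.Valid v) : (D.rep hG).p0 v ≠ (D.rep hG).p1 v := by
  have hR := D.hR
  change D.p0 v ≠ D.p1 v
  cases v with
  | T => intro h; have := congrArg Prod.fst h; simp only [p0, p1] at this; linarith
  | B => intro h; have := congrArg Prod.fst h; simp only [p0, p1] at this; linarith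
  | wl q =>
    have hq : q < C.Q := hv
    have := D.hlm q (q + 1) (by omega) (by omega)
    intro h; have := congrArg Prod.snd h; simp only [p0, p1] at *; linarith
  | wr q =>
    have hq : q < C.Q := hv
    have := D.hrm q (q + 1) (by omega) (by omega)
    intro h; have := congrArg Prod.snd h; simp only [p0, p1] at *; linarith
  | om q =>
    have hq : q < C.W := hv
    have := D.hom q (q + 1) (by omega) (by omega)
    intro h; have := congrArg Prod.snd h; simp only [p0, p1] at *; linarith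
  | ch x t =>
    have ht : t < C.N := hv
    have := D.τm x t (t + 1) (by omega) (by omega)
    intro h; have := congrArg Prod.fst h; simp only [p0, p1] at *; linarith

end RData

end RepC

open RepC Set

theorem rep_of_curves (C : ChordSys) (hC : C.Good) [Finite C.X] (L : ℕ) (cd : C.X → C.X → ℕ)
    (hla : ∀ x y, C.la x = C.la y → x = y) (hra : ∀ x y, C.ra x = C.ra y → x = y)
    (hpos : ∀ x y, C.cross x y → C.pos x y = L * (cd x y + 1))
    (hN : ∀ x y, C.cross x y → L * (cd x y + 3) ≤ C.N) (hN' : L * 3 ≤ C.N)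
    (K : Curves C L cd) : ∃ R : Rep C, ∀ v, C.Valid v → R.p0 v ≠ R.p1 v := by
  have hR := K.hR
  -- breakpoints of the chords
  have hbp : ∀ x : C.X, ∃ f : ℕ → ℝ, f 0 = -K.R ∧ f C.N = K.R ∧
      (∀ i j, i < j → j ≤ C.N → f i < f j) ∧ (∀ κ ∈ K.kink x, ∃ i, i ≤ C.N ∧ f i = κ) ∧
      ∀ y : {y // C.cross x y}, f (L * (cd x y + 1)) < K.xc x y ∧
        K.xc x y < f (L * (cd x y + 1) + 1) := by
    intro x
    exact breakpoints (fun y : {y // C.cross x y} => K.xc x y) (fun y => cd x y) (-K.R) K.R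
      (by linarith) (K.kink x) (K.kink_mem x) L C.N (K.kink_card x)
      (fun y => K.xc_mem x y y.2) (fun y z h => K.order x y z y.2 z.2 h)
      (fun y z h => K.nokink x y z y.2 z.2 h) (fun y => hN x y y.2) hN'
  choose τ τ0 τN τm τK τx using hbp
  -- top and bottom
  obtain ⟨top, htop⟩ : ∃ top : ℝ, ∀ x i, i ≤ C.N → K.F x (τ x i) < top := by
    have hfin : (Set.range (fun p : C.X × Fin (C.N + 1) => K.F p.1 (τ p.1 p.2))).Finite :=
      Set.finite_range _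
    obtain ⟨M, hM⟩ := hfin.bddAbove
    refine ⟨M + 1, fun x i hi => ?_⟩
    have := hM ⟨(x, ⟨i, by omega⟩), rfl⟩
    simp only at this
    linarith
  obtain ⟨bot0, hbot0⟩ : ∃ bot : ℝ, ∀ x i, i ≤ C.N → bot < K.F x (τ x i) := by
    have hfin : (Set.range (fun p : C.X × Fin (C.N + 1) => K.F p.1 (τ p.1 p.2))).Finite :=
      Set.finite_range _
    obtain ⟨M, hM⟩ := hfin.bddBelow
    refine ⟨M - 1, fun x i hi => ?_⟩
    have := hM ⟨(x, ⟨i, by omega⟩), rfl⟩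
    simp only at this
    linarith
  set bot := min bot0 (top - 1) with hbotdef
  have hbt : bot < top := by
    have := min_le_right bot0 (top - 1)
    linarith
  have hbot : ∀ x i, i ≤ C.N → bot < K.F x (τ x i) := fun x i hi =>
    lt_of_le_of_lt (min_le_left _ _) (hbot0 x i hi)
  have hfl : ∀ x, bot < K.F x (-K.R) ∧ K.F x (-K.R) < top := by
    intro x
    have h1 := hbot x 0 (Nat.zero_le _)
    have h2 := htop x 0 (Nat.zero_le _)
    rw [τ0] at h1 h2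
    exact ⟨h1, h2⟩
  have hfr : ∀ x, bot < K.F x K.R ∧ K.F x K.R < top := by
    intro x
    have h1 := hbot x C.N le_rfl
    have h2 := htop x C.N le_rfl
    rw [τN] at h1 h2
    exact ⟨h1, h2⟩
  -- walls
  have hwall : ∀ (c : C.X → ℕ) (p : C.X → ℝ), (∀ x, -top < p x ∧ p x < -bot) →
      (∀ x y, c x = c y → x = y) → (∀ x y, c x < c y → p x < p y) → (∀ x, 1 ≤ c x) →
      (∀ x, c x + 2 ≤ C.Q) → ∃ f : ℕ → ℝ, (1 ≤ C.Q → f 0 = -top) ∧ (1 ≤ C.Q → f C.Q = -bot) ∧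
        (∀ i j, i < j → j ≤ C.Q → f i < f j) ∧ ∀ i, f (c i) < p i ∧ p i < f (c i + 1) := by
    intro c p h1 h2 h3 h4 h5
    by_cases hQ1 : 1 ≤ C.Q
    · obtain ⟨f, f0, fQ, fm, fx⟩ := wallpoints p c (-top) (-bot) (by linarith) C.Q h1 h2 h3 h4 h5 hQ1
      exact ⟨f, fun _ => f0, fun _ => fQ, fm, fx⟩
    · refine ⟨fun _ => 0, fun h => absurd h hQ1, fun h => absurd h hQ1, fun i j h1 h2 => ?_,
        fun x => ?_⟩
      · omega
      · have := h5 x; omega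
  obtain ⟨hl, hl0, hlQ, hlm, hlx⟩ := hwall C.la (fun x => - K.F x (-K.R))
    (fun x => ⟨by linarith [(hfl x).2], by linarith [(hfl x).1]⟩) hla
    (fun x y h => by have := K.left x y h; linarith) hC.la1 hC.la2
  obtain ⟨hr, hr0, hrQ, hrm, hrx⟩ := hwall C.ra (fun x => - K.F x K.R)
    (fun x => ⟨by linarith [(hfr x).2], by linarith [(hfr x).1]⟩) hra
    (fun x y h => by have := K.right x y h; linarith) hC.ra1 hC.ra2
  obtain ⟨ho, ho0, hoW, hom, -⟩ := wallpoints (ι := PEmpty.{1}) (fun x => x.elim) (fun x => x.elim)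
    (-top) (-bot) (by linarith) C.W (fun x => x.elim) (fun x => x.elim) (fun x => x.elim)
    (fun x => x.elim) (fun x => x.elim) hC.hW
  have hxcs : ∀ x y, C.cross x y → K.xc x y = K.xc y x := by
    intro x y h
    have h2 := hC.symm x y h
    have h3 := K.xc_mem y x h2
    exact (K.uniq x y (hC.cross_ne x y h) (K.xc y x) ⟨h3.1.le, h3.2.le⟩
      (K.xc_eq y x h2).symm).2.symm
  let D : RData C :=
    { R := K.R
      top := top
      bot := bot
      hR := hR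
      F := K.F
      τ := τ
      τ0 := τ0
      τN := τN
      τm := τm
      aff := by
        intro x i hi
        have h0 := SM.le (f := τ x) (τm x) (Nat.zero_le i) (by omega)
        have h1 := SM.le (f := τ x) (τm x) (show i + 1 ≤ C.N by omega) le_rfl
        rw [τ0] at h0
        rw [τN] at h1
        refine K.aff x (τ x i) (τ x (i + 1)) h0 (τm x i (i + 1) (by omega) (by omega)) h1 ?_
        rintro κ hκ ⟨h2, h3⟩
        obtain ⟨j, hj, rfl⟩ := τK x κ hκ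
        have e1 : ¬ j ≤ i := fun h => absurd (SM.le (f := τ x) (τm x) h (by omega)) (not_le.2 h2)
        have e2 : ¬ i + 1 ≤ j := fun h => absurd (SM.le (f := τ x) (τm x) h hj) (not_le.2 h3)
        omega
      hl := fun i => - hl i
      hr := fun i => - hr i
      ho := fun i => - ho i
      hl0 := fun h => by rw [hl0 h]; ring
      hlQ := fun h => by rw [hlQ h]; ring
      hlm := by intro i j h1 h2; simpa using hlm i j h1 h2
      hr0 := fun h => by rw [hr0 h]; ring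
      hrQ := fun h => by rw [hrQ h]; ring
      hrm := by intro i j h1 h2; simpa using hrm i j h1 h2
      ho0 := by rw [ho0]; ring
      hoW := by rw [hoW]; ring
      hom := by intro i j h1 h2; simpa using hom i j h1 h2
      hlx := fun x => ⟨by linarith [(hlx x).2], by linarith [(hlx x).1]⟩
      hrx := fun x => ⟨by linarith [(hrx x).2], by linarith [(hrx x).1]⟩
      Fb := fun x i hi => ⟨hbot x i hi, htop x i hi⟩
      xc := K.xc
      xc_eq := K.xc_eq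
      xc1 := by
        intro x y h
        rw [hpos x y h]
        exact τx x ⟨y, h⟩
      xc2 := by
        intro x y h
        have h2 := hC.symm x y h
        rw [hpos y x h2, hxcs x y h]
        exact τx y ⟨x, h2⟩
      uniq := K.uniq }
  exact ⟨D.rep hC, D.rep_ne hC⟩

end SegGirth
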