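import Mathlib
import Pool.Agent.Lib.MP_beb3fe_lc.Sys

/-!
# Wall-to-wall paths with inverted ranks meet
-/

namespace SegGirth

open Filter Topology Set

theorem k33_unrolled {a0 a1 a2 b0 b1 b2 : Pt} {U00 U01 U02 U10 U11 U12 U20 U21 U22 : Set Pt}
    (h00 : Conn U00 a0 b0) (h01 : Conn U01 a0 b1) (h02 : Conn U02 a0 b2)
    (h10 : Conn U10 a1 b0) (h11 : Conn U11 a1 b1) (h12 : Conn U12 a1 b2)
    (h20 : Conn U20 a2 b0) (h21 : Conn U21 a2 b1) (h22 : Conn U22 a2 b2)
    (d0011 : Disjoint U00 U11) (d0012 : Disjoint U00 U12) (d0021 : Disjoint U00 U21)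
    (d0022 : Disjoint U00 U22) (d0110 : Disjoint U01 U10) (d0112 : Disjoint U01 U12)
    (d0120 : Disjoint U01 U20) (d0122 : Disjoint U01 U22) (d0210 : Disjoint U02 U10)
    (d0211 : Disjoint U02 U11) (d0220 : Disjoint U02 U20) (d0221 : Disjoint U02 U21)
    (d1021 : Disjoint U10 U21) (d1022 : Disjoint U10 U22) (d1120 : Disjoint U11 U20)
    (d1122 : Disjoint U11 U22) (d1220 : Disjoint U12 U20) (d1221 : Disjoint U12 U21) : False := by
  let U : Fin 3 → Fin 3 → Set Pt := ![![U00, U01, U02], ![U10, U11, U12], ![U20, U21, U22]]
  have hU : ∀ i j, Conn (U i j) ((![a0, a1, a2] : Fin 3 → Pt) i) ((![b0, b1, b2] : Fin 3 → Pt) j) := by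
    intro i j
    fin_cases i <;> fin_cases j
    · exact h00
    · exact h01
    · exact h02
    · exact h10
    · exact h11
    · exact h12
    · exact h20
    · exact h21
    · exact h22
  obtain ⟨i, i', j, j', hi, hj, x, hx, hx'⟩ := k33_sets _ _ U hU
  have q0 : ∀ {X Y : Set Pt}, Disjoint X Y → x ∈ X → x ∈ Y → False :=
    fun h h1 h2 => Set.disjoint_left.1 h h1 h2
  fin_cases i <;> fin_cases i' <;> first
    | exact absurd rfl hi
    | (fin_cases j <;> fin_cases j' <;> first
        | exact absurd rfl hj
        | exact q0 d0011 hx hx' | exact q0 d0012 hx hx' | exact q0 d0021 hx hx'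
        | exact q0 d0022 hx hx' | exact q0 d0110 hx hx' | exact q0 d0112 hx hx'
        | exact q0 d0120 hx hx' | exact q0 d0122 hx hx' | exact q0 d0210 hx hx'
        | exact q0 d0211 hx hx' | exact q0 d0220 hx hx' | exact q0 d0221 hx hx'
        | exact q0 d1021 hx hx' | exact q0 d1022 hx hx' | exact q0 d1120 hx hx'
        | exact q0 d1122 hx hx' | exact q0 d1220 hx hx' | exact q0 d1221 hx hx'
        | exact q0 d0011 hx' hx | exact q0 d0012 hx' hx | exact q0 d0021 hx' hx
        | exact q0 d0022 hx' hx | exact q0 d0110 hx' hx | exact q0 d0112 hx' hx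
        | exact q0 d0120 hx' hx | exact q0 d0122 hx' hx | exact q0 d0210 hx' hx
        | exact q0 d0211 hx' hx | exact q0 d0220 hx' hx | exact q0 d0221 hx' hx
        | exact q0 d1021 hx' hx | exact q0 d1022 hx' hx | exact q0 d1120 hx' hx
        | exact q0 d1122 hx' hx | exact q0 d1220 hx' hx | exact q0 d1221 hx' hx)

namespace Rep

variable {C : ChordSys} (R : Rep C)

/-- union of the segments of a set of vertices -/
def US (E : Vx C.X → Prop) : Set Pt := {x | ∃ v, E v ∧ x ∈ R.S v}

lemma disj_US {E F : Vx C.X → Prop}
    (h : ∀ u v, E u → F v → C.Valid u ∧ C.Valid v ∧ u ≠ v ∧ ¬ C.Adj u v) :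
    Disjoint (R.US E) (R.US F) := by
  rw [Set.disjoint_left]
  rintro x ⟨u, hu, hxu⟩ ⟨v, hv, hxv⟩
  obtain ⟨h1, h2, h3, h4⟩ := h u v hu hv
  exact Set.disjoint_left.1 (R.disjoint_of_not_adj h1 h2 h3 h4) hxu hxv

lemma disj_US_of_avoid {U : Set Pt} {E : Set (Vx C.X)} {F : Vx C.X → Prop} (h : R.Avoid U E)
    (hF : ∀ v, F v → C.Frame v ∧ v ∉ E) : Disjoint U (R.US F) := by
  rw [Set.disjoint_left]
  rintro x hx ⟨v, hv, hxv⟩
  obtain ⟨h1, h2⟩ := hF v hv
  exact Set.disjoint_left.1 (h v h1 h2) hx hxv

/-- a part of the frame: `t` = contains `T`, `b` = contains `B`, `o` = contains the outer path,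
left wall links in `[l1, l2]`, right wall links in `[r1, r2]` -/
def FP (C : ChordSys) (t b o : Prop) (l1 l2 r1 r2 : ℕ) : Vx C.X → Prop
  | Vx.T => t
  | Vx.B => b
  | Vx.om q => o ∧ q < C.W
  | Vx.wl q => l1 ≤ q ∧ q ≤ l2
  | Vx.wr q => r1 ≤ q ∧ q ≤ r2
  | Vx.ch _ _ => False

lemma FP_frame {t b o : Prop} {l1 l2 r1 r2 : ℕ} (hl : l1 ≤ l2 → l2 < C.Q) (hr : r1 ≤ r2 → r2 < C.Q)
    (v : Vx C.X) (hv : FP C t b o l1 l2 r1 r2 v) : C.Frame v := by
  cases v <;> simp only [FP, ChordSys.Frame, ChordSys.Valid] at * <;> first | trivial | omega

lemma disj_FP {t b o t' b' o' : Prop} {l1 l2 r1 r2 l1' l2' r1' r2' : ℕ}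
    (hl : l1 ≤ l2 → l2 < C.Q) (hr : r1 ≤ r2 → r2 < C.Q)
    (hl' : l1' ≤ l2' → l2' < C.Q) (hr' : r1' ≤ r2' → r2' < C.Q)
    (ht : ¬ (t ∧ t')) (hb : ¬ (b ∧ b')) (ho : ¬ (o ∧ o'))
    (hto : ¬ (t ∧ o')) (hot : ¬ (o ∧ t')) (hbo : ¬ (b ∧ o')) (hob : ¬ (o ∧ b'))
    (htl : t → l1' ≤ l2' → 1 ≤ l1') (htr : t → r1' ≤ r2' → 1 ≤ r1')
    (htl' : t' → l1 ≤ l2 → 1 ≤ l1) (htr' : t' → r1 ≤ r2 → 1 ≤ r1)
    (hbl : b → l1' ≤ l2' → l2' + 2 ≤ C.Q) (hbr : b → r1' ≤ r2' → r2' + 2 ≤ C.Q)
    (hbl' : b' → l1 ≤ l2 → l2 + 2 ≤ C.Q) (hbr' : b' → r1 ≤ r2 → r2 + 2 ≤ C.Q)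
    (hll : l1 ≤ l2 → l1' ≤ l2' → l2 + 1 < l1' ∨ l2' + 1 < l1)
    (hrr : r1 ≤ r2 → r1' ≤ r2' → r2 + 1 < r1' ∨ r2' + 1 < r1) :
    Disjoint (R.US (FP C t b o l1 l2 r1 r2)) (R.US (FP C t' b' o' l1' l2' r1' r2')) := by
  apply R.disj_US
  intro u v hu hv
  have nadj : ∀ {u v : Vx C.X}, ¬ C.Adj0 u v → ¬ C.Adj0 v u → ¬ C.Adj u v :=
    fun h1 h2 h => h.elim h1 h2
  cases u with
  | T =>
    cases v with
    | T => exact absurd ⟨hu, hv⟩ ht
    | B => exact ⟨trivial, trivial, by simp, nadj (by simp [ChordSys.Adj0]) (by simp [ChordSys.Adj0])⟩
    | om q => exact absurd ⟨hu, hv.1⟩ hto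
    | wl q =>
      have h1 := htl hu (hv.1.trans hv.2)
      have h2 := hl' (hv.1.trans hv.2)
      obtain ⟨h3, h4⟩ := hv
      refine ⟨trivial, ?_, by simp, nadj ?_ (by simp [ChordSys.Adj0])⟩
      · show q < C.Q; omega
      · simp only [ChordSys.Adj0]; omega
    | wr q =>
      have h1 := htr hu (hv.1.trans hv.2)
      have h2 := hr' (hv.1.trans hv.2)
      obtain ⟨h3, h4⟩ := hv
      refine ⟨trivial, ?_, by simp, nadj ?_ (by simp [ChordSys.Adj0])⟩
      · show q < C.Q; omega
      · simp only [ChordSys.Adj0]; omega
    | ch x s => exact hv.elim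
  | B =>
    cases v with
    | B => exact absurd ⟨hu, hv⟩ hb
    | T => exact ⟨trivial, trivial, by simp, nadj (by simp [ChordSys.Adj0]) (by simp [ChordSys.Adj0])⟩
    | om q => exact absurd ⟨hu, hv.1⟩ hbo
    | wl q =>
      have h1 := hbl hu (hv.1.trans hv.2)
      have h2 := hl' (hv.1.trans hv.2)
      obtain ⟨h3, h4⟩ := hv
      refine ⟨trivial, ?_, by simp, nadj ?_ (by simp [ChordSys.Adj0])⟩
      · show q < C.Q; omega
      · simp only [ChordSys.Adj0]; omega
    | wr q =>
      have h1 := hbr hu (hv.1.trans hv.2)
      have h2 := hr' (hv.1.trans hv.2)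
      obtain ⟨h3, h4⟩ := hv
      refine ⟨trivial, ?_, by simp, nadj ?_ (by simp [ChordSys.Adj0])⟩
      · show q < C.Q; omega
      · simp only [ChordSys.Adj0]; omega
    | ch x s => exact hv.elim
  | om q =>
    cases v with
    | T => exact absurd ⟨hu.1, hv⟩ hot
    | B => exact absurd ⟨hu.1, hv⟩ hob
    | om q' => exact absurd ⟨hu.1, hv.1⟩ ho
    | wl q' =>
      have h2 := hl' (hv.1.trans hv.2)
      obtain ⟨h3, h4⟩ := hv
      refine ⟨hu.2, ?_, by simp, nadj (by simp [ChordSys.Adj0]) (by simp [ChordSys.Adj0])⟩
      show q' < C.Q; omega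
    | wr q' =>
      have h2 := hr' (hv.1.trans hv.2)
      obtain ⟨h3, h4⟩ := hv
      refine ⟨hu.2, ?_, by simp, nadj (by simp [ChordSys.Adj0]) (by simp [ChordSys.Adj0])⟩
      show q' < C.Q; omega
    | ch x s => exact hv.elim
  | wl q =>
    have k1 := hu.1.trans hu.2
    have k2 := hl k1
    obtain ⟨k3, k4⟩ := hu
    have k5 : C.Valid (Vx.wl q : Vx C.X) := by show q < C.Q; omega
    cases v with
    | T =>
      have h1 := htl' hv k1
      refine ⟨k5, trivial, by simp, nadj (by simp [ChordSys.Adj0]) ?_⟩
      simp only [ChordSys.Adj0]; omega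
    | B =>
      have h1 := hbl' hv k1
      refine ⟨k5, trivial, by simp, nadj (by simp [ChordSys.Adj0]) ?_⟩
      simp only [ChordSys.Adj0]; omega
    | om q' =>
      exact ⟨k5, hv.2, by simp, nadj (by simp [ChordSys.Adj0]) (by simp [ChordSys.Adj0])⟩
    | wl q' =>
      have h0 := hll k1 (hv.1.trans hv.2)
      have h2 := hl' (hv.1.trans hv.2)
      obtain ⟨h3, h4⟩ := hv
      refine ⟨k5, ?_, ?_, nadj ?_ ?_⟩
      · show q' < C.Q; omega
      · simp only [ne_eq, Vx.wl.injEq]; omega
      · simp only [ChordSys.Adj0]; omega
      · simp only [ChordSys.Adj0]; omega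
    | wr q' =>
      have h2 := hr' (hv.1.trans hv.2)
      obtain ⟨h3, h4⟩ := hv
      refine ⟨k5, ?_, by simp, nadj (by simp [ChordSys.Adj0]) (by simp [ChordSys.Adj0])⟩
      show q' < C.Q; omega
    | ch x s => exact hv.elim
  | wr q =>
    have k1 := hu.1.trans hu.2
    have k2 := hr k1
    obtain ⟨k3, k4⟩ := hu
    have k5 : C.Valid (Vx.wr q : Vx C.X) := by show q < C.Q; omega
    cases v with
    | T =>
      have h1 := htr' hv k1
      refine ⟨k5, trivial, by simp, nadj (by simp [ChordSys.Adj0]) ?_⟩
      simp only [ChordSys.Adj0]; omega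
    | B =>
      have h1 := hbr' hv k1
      refine ⟨k5, trivial, by simp, nadj (by simp [ChordSys.Adj0]) ?_⟩
      simp only [ChordSys.Adj0]; omega
    | om q' =>
      exact ⟨k5, hv.2, by simp, nadj (by simp [ChordSys.Adj0]) (by simp [ChordSys.Adj0])⟩
    | wl q' =>
      have h2 := hl' (hv.1.trans hv.2)
      obtain ⟨h3, h4⟩ := hv
      refine ⟨k5, ?_, by simp, nadj (by simp [ChordSys.Adj0]) (by simp [ChordSys.Adj0])⟩
      show q' < C.Q; omega
    | wr q' =>
      have h0 := hrr k1 (hv.1.trans hv.2)
      have h2 := hr' (hv.1.trans hv.2)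
      obtain ⟨h3, h4⟩ := hv
      refine ⟨k5, ?_, ?_, nadj ?_ ?_⟩
      · show q' < C.Q; omega
      · simp only [ne_eq, Vx.wr.injEq]; omega
      · simp only [ChordSys.Adj0]; omega
      · simp only [ChordSys.Adj0]; omega
    | ch x s => exact hv.elim
  | ch x s => exact hu.elim

/-- Two wall-to-wall paths with inverted ranks meet. -/
theorem inter0 (hG : C.Good) {A A' : Set Pt} {a b a' b' : Pt} {l r l' r' : ℕ}
    (hA : Conn A a b) (ha : a ∈ R.S (Vx.wl l)) (hb : b ∈ R.S (Vx.wr r))
    (hAv : R.Avoid A {Vx.wl l, Vx.wr r})
    (hA' : Conn A' a' b') (ha' : a' ∈ R.S (Vx.wl l')) (hb' : b' ∈ R.S (Vx.wr r'))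
    (hAv' : R.Avoid A' {Vx.wl l', Vx.wr r'})
    (h1 : 1 ≤ l) (h2 : l + 1 < l') (h3 : l' + 2 ≤ C.Q)
    (h4 : 1 ≤ r') (h5 : r' + 1 < r) (h6 : r + 2 ≤ C.Q) : (A ∩ A').Nonempty := by
  have hW := hG.hW
  have vT : C.Valid (Vx.T : Vx C.X) := trivial
  have vB : C.Valid (Vx.B : Vx C.X) := trivial
  obtain ⟨tp, htp1, htp2⟩ := R.nonempty_inter (u := Vx.T) (v := Vx.wl 0) vT
    (show 0 < C.Q by omega) (by simp) (Or.inl rfl)
  obtain ⟨tr, htr1, htr2⟩ := R.nonempty_inter (u := Vx.T) (v := Vx.wr 0) vT
    (show 0 < C.Q by omega) (by simp) (Or.inl rfl)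
  obtain ⟨tq, htq1, htq2⟩ := R.nonempty_inter (u := Vx.T) (v := Vx.om 0) vT
    (show 0 < C.W by omega) (by simp) (Or.inl rfl)
  obtain ⟨bp, hbp1, hbp2⟩ := R.nonempty_inter (u := Vx.B) (v := Vx.wl (C.Q - 1)) vB
    (show C.Q - 1 < C.Q by omega) (by simp) (Or.inl (show C.Q - 1 + 1 = C.Q by omega))
  obtain ⟨br, hbr1, hbr2⟩ := R.nonempty_inter (u := Vx.B) (v := Vx.wr (C.Q - 1)) vB
    (show C.Q - 1 < C.Q by omega) (by simp) (Or.inl (show C.Q - 1 + 1 = C.Q by omega))
  obtain ⟨bo, hbo1, hbo2⟩ := R.nonempty_inter (u := Vx.B) (v := Vx.om (C.W - 1)) vB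
    (show C.W - 1 < C.W by omega) (by simp) (Or.inl (show C.W - 1 + 1 = C.W by omega))
  -- wall pieces
  have cl : ∀ i j (x y : Pt), i ≤ j → j < C.Q → x ∈ R.S (Vx.wl i) → y ∈ R.S (Vx.wl j) →
      Conn (R.Un Vx.wl i j) x y := by
    intro i j x y hij hj hx hy
    exact R.conn_chain Vx.wl i j hij (fun t _ ht => show t < C.Q by omega)
      (fun t _ _ => by simp) (fun t _ _ => Or.inl rfl) hx hy
  have cr : ∀ i j (x y : Pt), i ≤ j → j < C.Q → x ∈ R.S (Vx.wr i) → y ∈ R.S (Vx.wr j) →
      Conn (R.Un Vx.wr i j) x y := by
    intro i j x y hij hj hx hy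
    exact R.conn_chain Vx.wr i j hij (fun t _ ht => show t < C.Q by omega)
      (fun t _ _ => by simp) (fun t _ _ => Or.inl rfl) hx hy
  have co : Conn (R.Un Vx.om 0 (C.W - 1)) tq bo := by
    exact R.conn_chain Vx.om 0 (C.W - 1) (by omega) (fun t _ ht => show t < C.W by omega)
      (fun t _ _ => by simp) (fun t _ _ => Or.inl rfl) htq2 hbo2
  -- the nine sets
  have g00 : Conn (R.US (FP C True False False 1 0 0 r')) tp b' := by
    have e1 : Conn (R.S Vx.T) tp tr := Conn.of_convex (R.convex_S _) htp1 htr1
    refine (e1.mono ?_).trans ((cr 0 r' tr b' (by omega) (by omega) htr2 hb').mono ?_)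
    · exact fun x hx => ⟨Vx.T, trivial, hx⟩
    · rintro x ⟨t, ht1, ht2, hx⟩; exact ⟨Vx.wr t, ⟨ht1, ht2⟩, hx⟩
  have g01 : Conn (R.US (FP C True True True 1 0 1 0)) tp bp := by
    have e1 : Conn (R.S Vx.T) tp tq := Conn.of_convex (R.convex_S _) htp1 htq1
    have e2 : Conn (R.S Vx.B) bo bp := Conn.of_convex (R.convex_S _) hbo1 hbp1
    refine ((e1.mono ?_).trans (co.mono ?_)).trans (e2.mono ?_)
    · exact fun x hx => ⟨Vx.T, trivial, hx⟩
    · rintro x ⟨t, ht1, ht2, hx⟩; exact ⟨Vx.om t, ⟨trivial, by omega⟩, hx⟩
    · exact fun x hx => ⟨Vx.B, trivial, hx⟩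
  have g02 : Conn (R.US (FP C False False False 0 l 1 0)) tp a := by
    refine (cl 0 l tp a (by omega) (by omega) htp2 ha).mono ?_
    rintro x ⟨t, ht1, ht2, hx⟩; exact ⟨Vx.wl t, ⟨ht1, ht2⟩, hx⟩
  have g10 : Conn (R.US (FP C False False False 1 0 r' r)) b b' := by
    refine ((cr r' r b' b (by omega) (by omega) hb' hb).mono ?_).symm
    rintro x ⟨t, ht1, ht2, hx⟩; exact ⟨Vx.wr t, ⟨ht1, ht2⟩, hx⟩
  have g11 : Conn (R.US (FP C False True False 1 0 r (C.Q - 1))) b bp := by
    have e2 : Conn (R.S Vx.B) br bp := Conn.of_convex (R.convex_S _) hbr1 hbp1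
    refine ((cr r (C.Q - 1) b br (by omega) (by omega) hb hbr2).mono ?_).trans (e2.mono ?_)
    · rintro x ⟨t, ht1, ht2, hx⟩; exact ⟨Vx.wr t, ⟨ht1, ht2⟩, hx⟩
    · exact fun x hx => ⟨Vx.B, trivial, hx⟩
  have g21 : Conn (R.US (FP C False False False l' (C.Q - 1) 1 0)) a' bp := by
    refine (cl l' (C.Q - 1) a' bp (by omega) (by omega) ha' hbp2).mono ?_
    rintro x ⟨t, ht1, ht2, hx⟩; exact ⟨Vx.wl t, ⟨ht1, ht2⟩, hx⟩
  have g22 : Conn (R.US (FP C False False False l l' 1 0)) a' a := by
    refine ((cl l l' a a' (by omega) (by omega) ha ha').mono ?_).symm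
    rintro x ⟨t, ht1, ht2, hx⟩; exact ⟨Vx.wl t, ⟨ht1, ht2⟩, hx⟩
  -- disjointness with the two given paths
  have dA : ∀ (t b0 o : Prop) (l1 l2 r1 r2 : ℕ), (l1 ≤ l2 → l2 < C.Q) → (r1 ≤ r2 → r2 < C.Q) →
      (l1 ≤ l2 → l2 < l ∨ l < l1) → (r1 ≤ r2 → r2 < r ∨ r < r1) →
      Disjoint A (R.US (FP C t b0 o l1 l2 r1 r2)) := by
    intro t b0 o l1 l2 r1 r2 e1 e2 e3 e4
    refine R.disj_US_of_avoid hAv (fun v hv => ⟨FP_frame e1 e2 v hv, ?_⟩)
    simp only [Set.mem_insert_iff, Set.mem_singleton_iff]
    rintro (rfl | rfl)
    · have := e3 (hv.1.trans hv.2); have := hv.1; have := hv.2; omega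
    · have := e4 (hv.1.trans hv.2); have := hv.1; have := hv.2; omega
  have dA' : ∀ (t b0 o : Prop) (l1 l2 r1 r2 : ℕ), (l1 ≤ l2 → l2 < C.Q) → (r1 ≤ r2 → r2 < C.Q) →
      (l1 ≤ l2 → l2 < l' ∨ l' < l1) → (r1 ≤ r2 → r2 < r' ∨ r' < r1) →
      Disjoint A' (R.US (FP C t b0 o l1 l2 r1 r2)) := by
    intro t b0 o l1 l2 r1 r2 e1 e2 e3 e4
    refine R.disj_US_of_avoid hAv' (fun v hv => ⟨FP_frame e1 e2 v hv, ?_⟩)
    simp only [Set.mem_insert_iff, Set.mem_singleton_iff]
    rintro (rfl | rfl)
    · have := e3 (hv.1.trans hv.2); have := hv.1; have := hv.2; omega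
    · have := e4 (hv.1.trans hv.2); have := hv.1; have := hv.2; omega
  by_contra hcon
  have hdis : Disjoint A A' := by
    rw [Set.disjoint_iff_inter_eq_empty, ← Set.not_nonempty_iff_eq_empty]; exact hcon
  refine k33_unrolled g00 g01 g02 g10 g11 hA.symm hA' g21 g22 ?_ ?_ ?_ ?_ ?_ ?_ ?_ ?_ ?_ ?_ ?_ ?_
    ?_ ?_ ?_ ?_ ?_ ?_
  · exact R.disj_FP (by intros; first | omega | contradiction) (by intros; first | omega | contradiction) (by intros; first | omega | contradiction) (by intros; first | omega | contradiction) (by simp) (by simp) (by simp)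
      (by simp) (by simp) (by simp) (by simp) (by intros; first | omega | contradiction) (by intros; first | omega | contradiction) (by intros; first | omega | contradiction) (by intros; first | omega | contradiction)
      (by intros; first | omega | contradiction) (by intros; first | omega | contradiction) (by intros; first | omega | contradiction) (by intros; first | omega | contradiction) (by intros; first | omega | contradiction) (by intros; first | omega | contradiction)
  · exact (dA _ _ _ _ _ _ _ (by intros; first | omega | contradiction) (by intros; first | omega | contradiction) (by intros; first | omega | contradiction) (by intros; first | omega | contradiction)).symm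
  · exact R.disj_FP (by intros; first | omega | contradiction) (by intros; first | omega | contradiction) (by intros; first | omega | contradiction) (by intros; first | omega | contradiction) (by simp) (by simp) (by simp)
      (by simp) (by simp) (by simp) (by simp) (by intros; first | omega | contradiction) (by intros; first | omega | contradiction) (by intros; first | omega | contradiction) (by intros; first | omega | contradiction)
      (by intros; first | omega | contradiction) (by intros; first | omega | contradiction) (by intros; first | omega | contradiction) (by intros; first | omega | contradiction) (by intros; first | omega | contradiction) (by intros; first | omega | contradiction)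
  · exact R.disj_FP (by intros; first | omega | contradiction) (by intros; first | omega | contradiction) (by intros; first | omega | contradiction) (by intros; first | omega | contradiction) (by simp) (by simp) (by simp)
      (by simp) (by simp) (by simp) (by simp) (by intros; first | omega | contradiction) (by intros; first | omega | contradiction) (by intros; first | omega | contradiction) (by intros; first | omega | contradiction)
      (by intros; first | omega | contradiction) (by intros; first | omega | contradiction) (by intros; first | omega | contradiction) (by intros; first | omega | contradiction) (by intros; first | omega | contradiction) (by intros; first | omega | contradiction)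
  · exact R.disj_FP (by intros; first | omega | contradiction) (by intros; first | omega | contradiction) (by intros; first | omega | contradiction) (by intros; first | omega | contradiction) (by simp) (by simp) (by simp)
      (by simp) (by simp) (by simp) (by simp) (by intros; first | omega | contradiction) (by intros; first | omega | contradiction) (by intros; first | omega | contradiction) (by intros; first | omega | contradiction)
      (by intros; first | omega | contradiction) (by intros; first | omega | contradiction) (by intros; first | omega | contradiction) (by intros; first | omega | contradiction) (by intros; first | omega | contradiction) (by intros; first | omega | contradiction)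
  · exact (dA _ _ _ _ _ _ _ (by intros; first | omega | contradiction) (by intros; first | omega | contradiction) (by intros; first | omega | contradiction) (by intros; first | omega | contradiction)).symm
  · exact (dA' _ _ _ _ _ _ _ (by intros; first | omega | contradiction) (by intros; first | omega | contradiction) (by intros; first | omega | contradiction) (by intros; first | omega | contradiction)).symm
  · exact R.disj_FP (by intros; first | omega | contradiction) (by intros; first | omega | contradiction) (by intros; first | omega | contradiction) (by intros; first | omega | contradiction) (by simp) (by simp) (by simp)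
      (by simp) (by simp) (by simp) (by simp) (by intros; first | omega | contradiction) (by intros; first | omega | contradiction) (by intros; first | omega | contradiction) (by intros; first | omega | contradiction)
      (by intros; first | omega | contradiction) (by intros; first | omega | contradiction) (by intros; first | omega | contradiction) (by intros; first | omega | contradiction) (by intros; first | omega | contradiction) (by intros; first | omega | contradiction)
  · exact R.disj_FP (by intros; first | omega | contradiction) (by intros; first | omega | contradiction) (by intros; first | omega | contradiction) (by intros; first | omega | contradiction) (by simp) (by simp) (by simp)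
      (by simp) (by simp) (by simp) (by simp) (by intros; first | omega | contradiction) (by intros; first | omega | contradiction) (by intros; first | omega | contradiction) (by intros; first | omega | contradiction)
      (by intros; first | omega | contradiction) (by intros; first | omega | contradiction) (by intros; first | omega | contradiction) (by intros; first | omega | contradiction) (by intros; first | omega | contradiction) (by intros; first | omega | contradiction)
  · exact R.disj_FP (by intros; first | omega | contradiction) (by intros; first | omega | contradiction) (by intros; first | omega | contradiction) (by intros; first | omega | contradiction) (by simp) (by simp) (by simp)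
      (by simp) (by simp) (by simp) (by simp) (by intros; first | omega | contradiction) (by intros; first | omega | contradiction) (by intros; first | omega | contradiction) (by intros; first | omega | contradiction)
      (by intros; first | omega | contradiction) (by intros; first | omega | contradiction) (by intros; first | omega | contradiction) (by intros; first | omega | contradiction) (by intros; first | omega | contradiction) (by intros; first | omega | contradiction)
  · exact (dA' _ _ _ _ _ _ _ (by intros; first | omega | contradiction) (by intros; first | omega | contradiction) (by intros; first | omega | contradiction) (by intros; first | omega | contradiction)).symm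
  · exact R.disj_FP (by intros; first | omega | contradiction) (by intros; first | omega | contradiction) (by intros; first | omega | contradiction) (by intros; first | omega | contradiction) (by simp) (by simp) (by simp)
      (by simp) (by simp) (by simp) (by simp) (by intros; first | omega | contradiction) (by intros; first | omega | contradiction) (by intros; first | omega | contradiction) (by intros; first | omega | contradiction)
      (by intros; first | omega | contradiction) (by intros; first | omega | contradiction) (by intros; first | omega | contradiction) (by intros; first | omega | contradiction) (by intros; first | omega | contradiction) (by intros; first | omega | contradiction)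
  · exact R.disj_FP (by intros; first | omega | contradiction) (by intros; first | omega | contradiction) (by intros; first | omega | contradiction) (by intros; first | omega | contradiction) (by simp) (by simp) (by simp)
      (by simp) (by simp) (by simp) (by simp) (by intros; first | omega | contradiction) (by intros; first | omega | contradiction) (by intros; first | omega | contradiction) (by intros; first | omega | contradiction)
      (by intros; first | omega | contradiction) (by intros; first | omega | contradiction) (by intros; first | omega | contradiction) (by intros; first | omega | contradiction) (by intros; first | omega | contradiction) (by intros; first | omega | contradiction)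
  · exact R.disj_FP (by intros; first | omega | contradiction) (by intros; first | omega | contradiction) (by intros; first | omega | contradiction) (by intros; first | omega | contradiction) (by simp) (by simp) (by simp)
      (by simp) (by simp) (by simp) (by simp) (by intros; first | omega | contradiction) (by intros; first | omega | contradiction) (by intros; first | omega | contradiction) (by intros; first | omega | contradiction)
      (by intros; first | omega | contradiction) (by intros; first | omega | contradiction) (by intros; first | omega | contradiction) (by intros; first | omega | contradiction) (by intros; first | omega | contradiction) (by intros; first | omega | contradiction)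
  · exact (dA' _ _ _ _ _ _ _ (by intros; first | omega | contradiction) (by intros; first | omega | contradiction) (by intros; first | omega | contradiction) (by intros; first | omega | contradiction)).symm
  · exact R.disj_FP (by intros; first | omega | contradiction) (by intros; first | omega | contradiction) (by intros; first | omega | contradiction) (by intros; first | omega | contradiction) (by simp) (by simp) (by simp)
      (by simp) (by simp) (by simp) (by simp) (by intros; first | omega | contradiction) (by intros; first | omega | contradiction) (by intros; first | omega | contradiction) (by intros; first | omega | contradiction)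
      (by intros; first | omega | contradiction) (by intros; first | omega | contradiction) (by intros; first | omega | contradiction) (by intros; first | omega | contradiction) (by intros; first | omega | contradiction) (by intros; first | omega | contradiction)
  · exact hdis
  · exact dA _ _ _ _ _ _ _ (by intros; first | omega | contradiction) (by intros; first | omega | contradiction) (by intros; first | omega | contradiction) (by intros; first | omega | contradiction)

end Rep

end SegGirth
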