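import Mathlib
import Pool.Agent.Lib.MP_beb3fe_lc.Inter

/-!
# Half paths, the crossing principle and its perturbed version
-/

namespace SegGirth

open Filter Topology Set

lemma isClosed_seg (p q : Pt) : IsClosed (segment ℝ p q) := by
  rw [← convexHull_pair]
  exact (Set.toFinite {p, q}).isClosed_convexHull ℝ

/-- a point of `uv` and its parameter -/
lemma mem_seg_iff {u v x : Pt} : x ∈ segment ℝ u v ↔
    ∃ t : ℝ, 0 ≤ t ∧ t ≤ 1 ∧ x = (1 - t) • u + t • v := by
  constructor
  · intro h
    obtain ⟨t, h0, h1, h2, _⟩ := orient_of_mem_segment (p := u) (q := v) h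
    exact ⟨t, h0, h1, h2⟩
  · rintro ⟨t, h0, h1, rfl⟩
    exact ⟨1 - t, t, by linarith, h0, by ring, rfl⟩

/-- proper crossing of two segments -/
def Proper (u v r s : Pt) : Prop :=
  orient r s u * orient r s v < 0 ∧ orient u v r * orient u v s < 0

lemma Proper.symm {u v r s : Pt} (h : Proper u v r s) : Proper r s u v := ⟨h.2, h.1⟩

lemma Proper.flip {u v r s : Pt} (h : Proper u v r s) : Proper v u r s := by
  refine ⟨by rw [mul_comm]; exact h.1, ?_⟩
  rw [orient_swap u v r, orient_swap u v s, neg_mul_neg]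
  exact h.2

/-- parameter of the crossing point of `uv` with the line `rs` -/
noncomputable def par (u v r s : Pt) : ℝ := orient r s u / (orient r s u - orient r s v)

lemma Proper.par_mem {u v r s : Pt} (h : Proper u v r s) : 0 < par u v r s ∧ par u v r s < 1 := by
  have h1 := h.1
  unfold par
  rcases mul_neg_iff.1 h1 with ⟨ha, hb⟩ | ⟨ha, hb⟩
  · exact ⟨div_pos ha (by linarith), by rw [div_lt_one (by linarith)]; linarith⟩
  · exact ⟨div_pos_of_neg_of_neg ha (by linarith), by
      rw [div_lt_one_of_neg (by linarith)]; linarith⟩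

/-- the crossing point -/
noncomputable def cpt (u v r s : Pt) : Pt := (1 - par u v r s) • u + par u v r s • v

lemma Proper.cpt_mem_left {u v r s : Pt} (h : Proper u v r s) : cpt u v r s ∈ segment ℝ u v :=
  mem_seg_iff.2 ⟨_, h.par_mem.1.le, h.par_mem.2.le, rfl⟩

lemma Proper.orient_cpt {u v r s : Pt} (h : Proper u v r s) : orient r s (cpt u v r s) = 0 := by
  have h1 := h.1
  have hne : orient r s u - orient r s v ≠ 0 := by
    intro h0
    have : orient r s u = orient r s v := by linarith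
    rw [this] at h1
    nlinarith [mul_self_nonneg (orient r s v)]
  unfold cpt
  rw [orient_lineMap]
  unfold par
  field_simp
  ring

/-- two segments crossing properly have exactly one common point -/
lemma Proper.eq_of_orient {u v r s x : Pt} (h : Proper u v r s) {t : ℝ}
    (hx : x = (1 - t) • u + t • v) (h0 : orient r s x = 0) : t = par u v r s := by
  have h1 := h.1
  rw [hx, orient_lineMap] at h0
  have hne : orient r s u - orient r s v ≠ 0 := by
    intro h0'
    have : orient r s u = orient r s v := by linarith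
    rw [this] at h1
    nlinarith [mul_self_nonneg (orient r s v)]
  unfold par
  rw [eq_div_iff hne]
  linarith

lemma Proper.unique {u v r s x : Pt} (h : Proper u v r s) (h1 : x ∈ segment ℝ u v)
    (h2 : x ∈ segment ℝ r s) : x = cpt u v r s := by
  obtain ⟨t, _, _, hx⟩ := mem_seg_iff.1 h1
  have := h.eq_of_orient hx (orient_eq_zero_of_mem h2)
  rw [hx, this]
  rfl

lemma Proper.cpt_mem_right {u v r s : Pt} (h : Proper u v r s) : cpt u v r s ∈ segment ℝ r s := by
  -- the crossing point of `rs` with the line `uv`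
  have h' := h.symm
  have e1 := h'.cpt_mem_left
  suffices cpt u v r s = cpt r s u v by rw [this]; exact e1
  have hpos1 : orient r s u - orient r s v ≠ 0 := by
    intro h0
    have : orient r s u = orient r s v := by linarith
    have h1 := h.1
    rw [this] at h1
    nlinarith [mul_self_nonneg (orient r s v)]
  have hpos2 : orient u v r - orient u v s ≠ 0 := by
    intro h0
    have : orient u v r = orient u v s := by linarith
    have h1 := h.2
    rw [this] at h1
    nlinarith [mul_self_nonneg (orient u v s)]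
  have hrel : orient r s u - orient r s v = - (orient u v r - orient u v s) := by
    simp only [orient]; ring
  unfold cpt par
  rw [hrel]
  have hne2 : -(orient u v r - orient u v s) ≠ 0 := neg_ne_zero.2 hpos2
  ext
  · simp only [Prod.fst_add, Prod.smul_fst, smul_eq_mul]
    field_simp
    simp only [orient]
    ring
  · simp only [Prod.snd_add, Prod.smul_snd, smul_eq_mul]
    field_simp
    simp only [orient]
    ring

lemma cpt_symm {u v r s : Pt} (h : Proper u v r s) : cpt u v r s = cpt r s u v :=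
  h.symm.unique h.cpt_mem_right h.cpt_mem_left

namespace Rep

variable {C : ChordSys} (R : Rep C)

/-- the union of all frame segments -/
def FrameSet : Set Pt := R.S Vx.T ∪ R.S Vx.B ∪ R.Un Vx.wl 0 (C.Q - 1) ∪ R.Un Vx.wr 0 (C.Q - 1) ∪
  R.Un Vx.om 0 (C.W - 1)

lemma isClosed_FrameSet : IsClosed R.FrameSet :=
  ((((R.isClosed_S _).union (R.isClosed_S _)).union (R.isClosed_Un _ _ _)).union
    (R.isClosed_Un _ _ _)).union (R.isClosed_Un _ _ _)

lemma subset_FrameSet {v : Vx C.X} (hv : C.Frame v) : R.S v ⊆ R.FrameSet := by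
  intro x hx
  cases v with
  | T => exact Or.inl (Or.inl (Or.inl (Or.inl hx)))
  | B => exact Or.inl (Or.inl (Or.inl (Or.inr hx)))
  | wl q => 
    have : q < C.Q := hv
    exact Or.inl (Or.inl (Or.inr ⟨q, by omega, by omega, hx⟩))
  | wr q => 
    have : q < C.Q := hv
    exact Or.inl (Or.inr ⟨q, by omega, by omega, hx⟩)
  | om q => 
    have : q < C.W := hv
    exact Or.inr ⟨q, by omega, by omega, hx⟩
  | ch x t => exact absurd hv (by simp [ChordSys.Frame])

lemma avoid_of_disjoint {U : Set Pt} {E : Set (Vx C.X)} (h : Disjoint U R.FrameSet) :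
    R.Avoid U E := fun _ hv _ => h.mono_right (R.subset_FrameSet hv)

/-- left half path -/
structure LP (l : ℕ) (U : Set Pt) (p : Pt) : Prop where
  conn : ∃ a ∈ R.S (Vx.wl l), Conn U a p
  avoid : R.Avoid U {Vx.wl l}
  closed : IsClosed U

/-- right half path -/
structure RP (r : ℕ) (U : Set Pt) (p : Pt) : Prop where
  conn : ∃ b ∈ R.S (Vx.wr r), Conn U p b
  avoid : R.Avoid U {Vx.wr r}
  closed : IsClosed U

variable {R}

lemma LP.mem {l : ℕ} {U : Set Pt} {p : Pt} (h : R.LP l U p) : p ∈ U := by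
  obtain ⟨a, _, hc⟩ := h.conn
  exact hc.right_mem

lemma RP.mem {l : ℕ} {U : Set Pt} {p : Pt} (h : R.RP l U p) : p ∈ U := by
  obtain ⟨a, _, hc⟩ := h.conn
  exact hc.left_mem

lemma LP.extend {l : ℕ} {U W : Set Pt} {p q : Pt} (h : R.LP l U p) (hc : Conn W p q)
    (hW : IsClosed W) (hd : Disjoint W R.FrameSet) : R.LP l (U ∪ W) q := by
  obtain ⟨a, ha, hca⟩ := h.conn
  refine ⟨⟨a, ha, (hca.mono subset_union_left).trans (hc.mono subset_union_right)⟩, ?_,
    h.closed.union hW⟩
  exact R.avoid_of_disjoint hd |>.union (R := R) (U := W) (V := U) (h.avoid) |>.mono (R := R)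
    (by rw [union_comm]) (subset_refl _)

lemma RP.extend {r : ℕ} {U W : Set Pt} {p q : Pt} (h : R.RP r U p) (hc : Conn W q p)
    (hW : IsClosed W) (hd : Disjoint W R.FrameSet) : R.RP r (W ∪ U) q := by
  obtain ⟨b, hb, hcb⟩ := h.conn
  refine ⟨⟨b, hb, (hc.mono subset_union_left).trans (hcb.mono subset_union_right)⟩, ?_,
    hW.union h.closed⟩
  exact (R.avoid_of_disjoint hd).union (R := R) h.avoid

lemma LP.seg {l : ℕ} {U : Set Pt} {p q : Pt} (h : R.LP l U p)
    (hd : Disjoint (segment ℝ p q) R.FrameSet) : R.LP l (U ∪ segment ℝ p q) q :=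
  h.extend (Conn.seg (subset_refl _)) (isClosed_seg _ _) hd

lemma RP.seg {r : ℕ} {U : Set Pt} {p q : Pt} (h : R.RP r U p)
    (hd : Disjoint (segment ℝ q p) R.FrameSet) : R.RP r (segment ℝ q p ∪ U) q :=
  h.extend (Conn.seg (subset_refl _)) (isClosed_seg _ _) hd

end Rep

/-- inverted attachments -/
def ChordSys.Inv (C : ChordSys) (l r l' r' : ℕ) : Prop :=
  (1 ≤ l ∧ l + 2 ≤ C.Q ∧ 1 ≤ r ∧ r + 2 ≤ C.Q ∧ 1 ≤ l' ∧ l' + 2 ≤ C.Q ∧ 1 ≤ r' ∧ r' + 2 ≤ C.Q) ∧
    ((l + 1 < l' ∧ r' + 1 < r) ∨ (l' + 1 < l ∧ r + 1 < r'))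

lemma ChordSys.Inv.symm {C : ChordSys} {l r l' r' : ℕ} (h : C.Inv l r l' r') :
    C.Inv l' r' l r := by
  unfold ChordSys.Inv at *
  omega

namespace Rep

variable {C : ChordSys} {R : Rep C}

/-- **Crossing principle.** -/
theorem meet (hG : C.Good) {l r l' r' : ℕ} (hI : C.Inv l r l' r') {U V U' V' : Set Pt}
    {p p' : Pt} (hL : R.LP l U p) (hR : R.RP r V p) (hL' : R.LP l' U' p') (hR' : R.RP r' V' p') :
    ((U ∪ V) ∩ (U' ∪ V')).Nonempty := by
  obtain ⟨a, ha, hca⟩ := hL.conn
  obtain ⟨b, hb, hcb⟩ := hR.conn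
  obtain ⟨a', ha', hca'⟩ := hL'.conn
  obtain ⟨b', hb', hcb'⟩ := hR'.conn
  have hA : Conn (U ∪ V) a b := (hca.mono subset_union_left).trans (hcb.mono subset_union_right)
  have hA' : Conn (U' ∪ V') a' b' :=
    (hca'.mono subset_union_left).trans (hcb'.mono subset_union_right)
  have hAv : R.Avoid (U ∪ V) {Vx.wl l, Vx.wr r} :=
    Avoid.union (R := R) (hL.avoid.mono (R := R) (subset_refl _) (by simp))
      (hR.avoid.mono (R := R) (subset_refl _) (by simp))
  have hAv' : R.Avoid (U' ∪ V') {Vx.wl l', Vx.wr r'} :=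
    Avoid.union (R := R) (hL'.avoid.mono (R := R) (subset_refl _) (by simp))
      (hR'.avoid.mono (R := R) (subset_refl _) (by simp))
  obtain ⟨⟨h1, h2, h3, h4, h5, h6, h7, h8⟩, h9⟩ := hI
  rcases h9 with ⟨h10, h11⟩ | ⟨h10, h11⟩
  · exact R.inter0 hG hA ha hb hAv hA' ha' hb' hAv' h1 h10 h6 h7 h11 h4
  · rw [inter_comm]
    exact R.inter0 hG hA' ha' hb' hAv' hA ha hb hAv h5 h10 h2 h3 h11 h8

/-- Perturbed crossing principle: one half of proper crossing. -/
theorem pert0 (hG : C.Good) {l r l' r' : ℕ} (hI : C.Inv l r l' r') {U V U' V' : Set Pt}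
    {u v s t : Pt} (hL : R.LP l U u) (hR : R.RP r V v) (hL' : R.LP l' U' s) (hR' : R.RP r' V' t)
    (hs : Disjoint (segment ℝ u v) R.FrameSet) (hs' : Disjoint (segment ℝ s t) R.FrameSet)
    (h1 : Disjoint (U ∪ V) (U' ∪ V')) (h2 : Disjoint (U ∪ V) (segment ℝ s t))
    (h3 : Disjoint (segment ℝ u v) (U' ∪ V')) :
    orient s t u * orient s t v < 0 := by
  apply sides_of_eventually
  have hcl : IsClosed (U' ∪ V') := hL'.closed.union hR'.closed
  have hcl2 : IsClosed (U' ∪ V' ∪ segment ℝ s t) := hcl.union (isClosed_seg _ _)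
  have hu : Disjoint (segment ℝ u u) (U' ∪ V' ∪ segment ℝ s t) := by
    rw [segment_same, Set.disjoint_singleton_left]
    rintro (h | h)
    · exact Set.disjoint_left.1 h1 (Or.inl hL.mem) h
    · exact Set.disjoint_left.1 h2 (Or.inl hL.mem) h
  have hv : Disjoint (segment ℝ v v) (U' ∪ V' ∪ segment ℝ s t) := by
    rw [segment_same, Set.disjoint_singleton_left]
    rintro (h | h)
    · exact Set.disjoint_left.1 h1 (Or.inr hR.mem) h
    · exact Set.disjoint_left.1 h2 (Or.inr hR.mem) h
  have hfu : Disjoint (segment ℝ u u) R.FrameSet := by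
    rw [segment_same, Set.disjoint_singleton_left]
    exact fun h => Set.disjoint_left.1 hs (left_mem_segment ℝ u v) h
  have hfv : Disjoint (segment ℝ v v) R.FrameSet := by
    rw [segment_same, Set.disjoint_singleton_left]
    exact fun h => Set.disjoint_left.1 hs (right_mem_segment ℝ u v) h
  have c1 : Tendsto (fun z : Pt × Pt => (u, z.1)) (𝓝 (u, v)) (𝓝 (u, u)) := by
    have : Continuous (fun z : Pt × Pt => (u, z.1)) := by fun_prop
    exact this.tendsto (u, v)
  have c2 : Tendsto (fun z : Pt × Pt => (z.2, v)) (𝓝 (u, v)) (𝓝 (v, v)) := by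
    have : Continuous (fun z : Pt × Pt => (z.2, v)) := by fun_prop
    exact this.tendsto (u, v)
  have e1 := c1.eventually (eventually_disjoint hcl2 hu)
  have e2 := c2.eventually (eventually_disjoint hcl2 hv)
  have e3 := c1.eventually (eventually_disjoint R.isClosed_FrameSet hfu)
  have e4 := c2.eventually (eventually_disjoint R.isClosed_FrameSet hfv)
  have e5 := eventually_disjoint hcl h3
  have e6 := eventually_disjoint R.isClosed_FrameSet hs
  filter_upwards [e1, e2, e3, e4, e5, e6] with z h1' h2' h3' h4' h5' h6'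
  have hLz := (hL.seg h3').seg h6'
  have hRz := hR.seg h4'
  have hLs := hL'.seg hs'
  have := meet hG hI hLz hRz hLs hR'
  obtain ⟨x, hx1, hx2⟩ := this
  have hx2' : x ∈ U' ∪ V' ∪ segment ℝ s t := by
    rcases hx2 with (h | h) | h
    · exact Or.inl (Or.inl h)
    · exact Or.inr h
    · exact Or.inl (Or.inr h)
  rcases hx1 with ((hx1 | hx1) | hx1) | (hx1 | hx1)
  · rcases hx2' with h | h
    · exact absurd h (Set.disjoint_left.1 h1 (Or.inl hx1))
    · exact absurd h (Set.disjoint_left.1 h2 (Or.inl hx1))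
  · exact absurd hx2' (Set.disjoint_left.1 h1' hx1)
  · rcases hx2' with h | h
    · exact absurd h (Set.disjoint_left.1 h5' hx1)
    · exact ⟨x, hx1, h⟩
  · exact absurd hx2' (Set.disjoint_left.1 h2' hx1)
  · rcases hx2' with h | h
    · exact absurd h (Set.disjoint_left.1 h1 (Or.inr hx1))
    · exact absurd h (Set.disjoint_left.1 h2 (Or.inr hx1))

/-- **Perturbed crossing principle.** -/
theorem proper_of_paths (hG : C.Good) {l r l' r' : ℕ} (hI : C.Inv l r l' r')
    {U V U' V' : Set Pt} {u v s t : Pt} (hL : R.LP l U u) (hR : R.RP r V v)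
    (hL' : R.LP l' U' s) (hR' : R.RP r' V' t)
    (hs : Disjoint (segment ℝ u v) R.FrameSet) (hs' : Disjoint (segment ℝ s t) R.FrameSet)
    (h1 : Disjoint (U ∪ V) (U' ∪ V')) (h2 : Disjoint (U ∪ V) (segment ℝ s t))
    (h3 : Disjoint (segment ℝ u v) (U' ∪ V')) : Proper u v s t :=
  ⟨pert0 hG hI hL hR hL' hR' hs hs' h1 h2 h3,
    pert0 hG hI.symm hL' hR' hL hR hs' hs h1.symm h3.symm h2.symm⟩

end Rep

end SegGirth
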