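import Mathlib
import Pool.Agent.Lib.MP_beb3fe_lc.Paths

/-!
# Chords of a representation: proper crossings, orders and signs
-/

namespace SegGirth

open Filter Topology Set

namespace Rep

variable {C : ChordSys} (R : Rep C)

/-- links `i, …, j` of the chord `x` -/
def CU (x : C.X) (i j : ℕ) : Set Pt := R.Un (Vx.ch x) i j

lemma isClosed_CU (x : C.X) (i j : ℕ) : IsClosed (R.CU x i j) := R.isClosed_Un _ _ _

lemma subset_CU (x : C.X) {i j t : ℕ} (h1 : i ≤ t) (h2 : t ≤ j) :
    R.S (Vx.ch x t) ⊆ R.CU x i j := fun _ hp => ⟨t, h1, h2, hp⟩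

lemma CU_mono (x : C.X) {i j i' j' : ℕ} (h1 : i' ≤ i) (h2 : j ≤ j') :
    R.CU x i j ⊆ R.CU x i' j' := by
  rintro p ⟨t, h3, h4, h5⟩
  exact ⟨t, by omega, by omega, h5⟩

lemma disj_ch (hG : C.Good) {x y : C.X} {t t' : ℕ} (ht : t < C.N) (ht' : t' < C.N) (hne : x ≠ y)
    (h : C.cross x y → ¬ (t = C.pos x y ∧ t' = C.pos y x)) :
    Disjoint (R.S (Vx.ch x t)) (R.S (Vx.ch y t')) := by
  refine R.disjoint_of_not_adj (show t < C.N from ht) (show t' < C.N from ht') ?_ ?_
  · intro he
    injection he with h1 h2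
    exact hne h1
  · rintro (h1 | h1)
    · rcases h1 with ⟨h2, _⟩ | ⟨_, h3, h4, h5⟩
      · exact hne h2
      · exact h h3 ⟨h4, h5⟩
    · rcases h1 with ⟨h2, _⟩ | ⟨_, h3, h4, h5⟩
      · exact hne h2.symm
      · exact h (hG.symm _ _ h3) ⟨h5, h4⟩

lemma disj_ch_self {x : C.X} {t t' : ℕ} (ht' : t' < C.N) (h : t + 1 < t') :
    Disjoint (R.S (Vx.ch x t)) (R.S (Vx.ch x t')) := by
  refine R.disjoint_of_not_adj (show t < C.N by omega) (show t' < C.N from ht') ?_ ?_
  · intro he
    injection he with h1 h2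
    omega
  · rintro (h1 | h1)
    · rcases h1 with ⟨_, h3⟩ | ⟨h2, _⟩
      · omega
      · exact h2 rfl
    · rcases h1 with ⟨_, h3⟩ | ⟨h2, _⟩
      · omega
      · exact h2 rfl

lemma disj_CU (hG : C.Good) {x y : C.X} (hne : x ≠ y) {i j i' j' : ℕ} (hj : j < C.N)
    (hj' : j' < C.N)
    (h : C.cross x y → ¬ ((i ≤ C.pos x y ∧ C.pos x y ≤ j) ∧ (i' ≤ C.pos y x ∧ C.pos y x ≤ j'))) :
    Disjoint (R.CU x i j) (R.CU y i' j') := by
  rw [Set.disjoint_left]
  rintro p ⟨t, h1, h2, h3⟩ ⟨t', h1', h2', h3'⟩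
  refine Set.disjoint_left.1 (R.disj_ch hG (t := t) (t' := t') (by omega) (by omega) hne ?_) h3 h3'
  rintro hc ⟨rfl, rfl⟩
  exact h hc ⟨⟨h1, h2⟩, ⟨h1', h2'⟩⟩

lemma disj_CU_self {x : C.X} {i j i' j' : ℕ} (h : j + 1 < i') (hj' : j' < C.N) :
    Disjoint (R.CU x i j) (R.CU x i' j') := by
  rw [Set.disjoint_left]
  rintro p ⟨t, h1, h2, h3⟩ ⟨t', h1', h2', h3'⟩
  exact Set.disjoint_left.1 (R.disj_ch_self (x := x) (t := t) (t' := t') (by omega) (by omega))
    h3 h3'

/-- a link of a chord meets only its own attachment in the frame -/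
lemma ch_avoid {x : C.X} {t : ℕ} (ht : t < C.N) {v : Vx C.X} (hv : C.Frame v)
    (h1 : v = Vx.wl (C.la x) → t ≠ 0) (h2 : v = Vx.wr (C.ra x) → t + 1 ≠ C.N) :
    Disjoint (R.S (Vx.ch x t)) (R.S v) := by
  have hvt : C.Valid (Vx.ch x t) := ht
  cases v with
  | T =>
    refine R.disjoint_of_not_adj (u := Vx.ch x t) (v := Vx.T) hvt trivial (by simp) ?_
    rintro (h | h) <;> exact h
  | B =>
    refine R.disjoint_of_not_adj (u := Vx.ch x t) (v := Vx.B) hvt trivial (by simp) ?_
    rintro (h | h) <;> exact h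
  | wl q =>
    refine R.disjoint_of_not_adj (u := Vx.ch x t) (v := Vx.wl q) hvt hv (by simp) ?_
    rintro (h | h)
    · obtain ⟨h3, h4⟩ := h
      exact h1 (by rw [h4]) h3
    · exact h
  | wr q =>
    refine R.disjoint_of_not_adj (u := Vx.ch x t) (v := Vx.wr q) hvt hv (by simp) ?_
    rintro (h | h)
    · obtain ⟨h3, h4⟩ := h
      exact h2 (by rw [h4]) h3
    · exact h
  | om q =>
    refine R.disjoint_of_not_adj (u := Vx.ch x t) (v := Vx.om q) hvt hv (by simp) ?_
    rintro (h | h) <;> exact h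
  | ch y t' => exact absurd hv (by simp [ChordSys.Frame])

/-- the frame set is the union of the frame segments -/
lemma mem_FrameSet (hG : C.Good) (hQ : 1 ≤ C.Q) {p : Pt} (hp : p ∈ R.FrameSet) :
    ∃ v, C.Frame v ∧ p ∈ R.S v := by
  have hW := hG.hW
  rcases hp with (((hp | hp) | ⟨t, h1, h2, hp⟩) | ⟨t, h1, h2, hp⟩) | ⟨t, h1, h2, hp⟩
  · exact ⟨Vx.T, trivial, hp⟩
  · exact ⟨Vx.B, trivial, hp⟩
  · exact ⟨Vx.wl t, show t < C.Q by omega, hp⟩
  · exact ⟨Vx.wr t, show t < C.Q by omega, hp⟩
  · exact ⟨Vx.om t, show t < C.W by omega, hp⟩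

lemma ch_frame (hG : C.Good) {x : C.X} {t : ℕ} (h1 : 1 ≤ t) (h2 : t + 2 ≤ C.N) :
    Disjoint (R.S (Vx.ch x t)) R.FrameSet := by
  rw [Set.disjoint_left]
  intro p hp hpF
  have := hG.la2 x
  obtain ⟨v, hv, hpv⟩ := R.mem_FrameSet hG (by omega) hpF
  exact Set.disjoint_left.1 (R.ch_avoid (x := x) (t := t) (by omega) hv (fun _ => by omega)
    (fun _ => by omega)) hp hpv

lemma CU_frame (hG : C.Good) {x : C.X} {i j : ℕ} (h1 : 1 ≤ i) (h2 : j + 2 ≤ C.N) :
    Disjoint (R.CU x i j) R.FrameSet := by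
  rw [Set.disjoint_left]
  rintro p ⟨t, h3, h4, h5⟩ hpF
  exact Set.disjoint_left.1 (R.ch_frame hG (x := x) (t := t) (by omega) (by omega)) h5 hpF

lemma CU_avoid_left {x : C.X} {j : ℕ} (h2 : j + 2 ≤ C.N) :
    R.Avoid (R.CU x 0 j) {Vx.wl (C.la x)} := by
  intro v hv hvE
  rw [Set.disjoint_left]
  rintro p ⟨t, h3, h4, h5⟩ hpF
  exact Set.disjoint_left.1 (R.ch_avoid (x := x) (t := t) (by omega) hv
    (fun h => absurd (by simpa using h) hvE) (fun _ => by omega)) h5 hpF

lemma CU_avoid_right {x : C.X} {i : ℕ} (h1 : 1 ≤ i) (hN : 1 ≤ C.N) :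
    R.Avoid (R.CU x i (C.N - 1)) {Vx.wr (C.ra x)} := by
  intro v hv hvE
  rw [Set.disjoint_left]
  rintro p ⟨t, h3, h4, h5⟩ hpF
  exact Set.disjoint_left.1 (R.ch_avoid (x := x) (t := t) (by omega) hv (fun _ => by omega)
    (fun h => absurd (by simpa using h) hvE)) h5 hpF

lemma conn_CU {x : C.X} {i j : ℕ} (hij : i ≤ j) (hj : j < C.N) {a b : Pt}
    (ha : a ∈ R.S (Vx.ch x i)) (hb : b ∈ R.S (Vx.ch x j)) : Conn (R.CU x i j) a b := by
  refine R.conn_chain (Vx.ch x) i j hij (fun t _ h => show t < C.N by omega) (fun t _ _ => by simp)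
    (fun t _ _ => Or.inl (Or.inl ⟨rfl, rfl⟩)) ha hb

lemma lp (hG : C.Good) {x : C.X} {t : ℕ} (h : t + 2 ≤ C.N) {p : Pt}
    (hp : p ∈ R.S (Vx.ch x t)) : R.LP (C.la x) (R.CU x 0 t) p := by
  have hq := hG.la2 x
  obtain ⟨a, ha1, ha2⟩ := R.nonempty_inter (u := Vx.ch x 0) (v := Vx.wl (C.la x))
    (show 0 < C.N by omega) (show C.la x < C.Q by omega) (by simp) (Or.inl ⟨rfl, rfl⟩)
  exact ⟨⟨a, ha2, R.conn_CU (by omega) (by omega) ha1 hp⟩, R.CU_avoid_left h,
    R.isClosed_CU _ _ _⟩

lemma rp (hG : C.Good) {x : C.X} {t : ℕ} (h1 : 1 ≤ t) (h : t < C.N) {p : Pt}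
    (hp : p ∈ R.S (Vx.ch x t)) : R.RP (C.ra x) (R.CU x t (C.N - 1)) p := by
  have hq := hG.ra2 x
  obtain ⟨a, ha1, ha2⟩ := R.nonempty_inter (u := Vx.ch x (C.N - 1)) (v := Vx.wr (C.ra x))
    (show C.N - 1 < C.N by omega) (show C.ra x < C.Q by omega) (by simp)
    (Or.inl ⟨show C.N - 1 + 1 = C.N by omega, rfl⟩)
  exact ⟨⟨a, ha2, R.conn_CU (by omega) (by omega) hp ha1⟩, R.CU_avoid_right h1 (by omega),
    R.isClosed_CU _ _ _⟩

/-- `u` and `v` are node points of link `p` of chord `x` -/
structure Node (x : C.X) (p : ℕ) (u v : Pt) : Prop where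
  hp1 : 1 ≤ p
  hp2 : p + 2 ≤ C.N
  u1 : u ∈ R.S (Vx.ch x (p - 1))
  u2 : u ∈ R.S (Vx.ch x p)
  v1 : v ∈ R.S (Vx.ch x p)
  v2 : v ∈ R.S (Vx.ch x (p + 1))

lemma exists_node (x : C.X) {p : ℕ} (h1 : 1 ≤ p) (h2 : p + 2 ≤ C.N) : ∃ u v, R.Node x p u v := by
  obtain ⟨u, hu1, hu2⟩ := R.nonempty_inter (u := Vx.ch x (p - 1)) (v := Vx.ch x p)
    (show p - 1 < C.N by omega) (show p < C.N by omega) (by simp; omega)
    (Or.inl (Or.inl ⟨rfl, by omega⟩))
  obtain ⟨v, hv1, hv2⟩ := R.nonempty_inter (u := Vx.ch x p) (v := Vx.ch x (p + 1))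
    (show p < C.N by omega) (show p + 1 < C.N by omega) (by simp)
    (Or.inl (Or.inl ⟨rfl, rfl⟩))
  exact ⟨u, v, h1, h2, hu1, hu2, hv1, hv2⟩

variable {R}

lemma Node.seg_subset {x : C.X} {p : ℕ} {u v : Pt} (h : R.Node x p u v) :
    segment ℝ u v ⊆ R.S (Vx.ch x p) := (R.convex_S _).segment_subset h.u2 h.v1

lemma Node.lp (hG : C.Good) {x : C.X} {p : ℕ} {u v : Pt} (h : R.Node x p u v) :
    R.LP (C.la x) (R.CU x 0 (p - 1)) u := by
  have := h.hp2; have := h.hp1
  exact R.lp hG (by omega) h.u1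

lemma Node.rp (hG : C.Good) {x : C.X} {p : ℕ} {u v : Pt} (h : R.Node x p u v) :
    R.RP (C.ra x) (R.CU x (p + 1) (C.N - 1)) v := by
  have := h.hp2; have := h.hp1
  exact R.rp hG (by omega) (by omega) h.v2

lemma Node.frame (hG : C.Good) {x : C.X} {p : ℕ} {u v : Pt} (h : R.Node x p u v) :
    Disjoint (segment ℝ u v) R.FrameSet :=
  (R.ch_frame hG h.hp1 h.hp2).mono_left h.seg_subset

lemma _root_.SegGirth.ChordSys.Good.Inv (hG : C.Good) {x y : C.X} (h : C.cross x y) :
    C.Inv (C.la x) (C.ra x) (C.la y) (C.ra y) :=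
  ⟨⟨hG.la1 _, hG.la2 _, hG.ra1 _, hG.ra2 _, hG.la1 _, hG.la2 _, hG.ra1 _, hG.ra2 _⟩, hG.inv x y h⟩

/-- crossing chords cross properly -/
theorem pc (hG : C.Good) {x y : C.X} (h : C.cross x y) {u v r t : Pt}
    (hx : R.Node x (C.pos x y) u v) (hy : R.Node y (C.pos y x) r t) : Proper u v r t := by
  have hne := hG.cross_ne _ _ h
  have h1 := hx.hp1; have h2 := hx.hp2; have h3 := hy.hp1; have h4 := hy.hp2
  refine proper_of_paths hG (hG.Inv h) (hx.lp hG) (hx.rp hG) (hy.lp hG) (hy.rp hG) (hx.frame hG)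
    (hy.frame hG) ?_ ?_ ?_
  · rw [Set.disjoint_union_left, Set.disjoint_union_right, Set.disjoint_union_right]
    refine ⟨⟨?_, ?_⟩, ⟨?_, ?_⟩⟩ <;>
      exact R.disj_CU hG hne (by omega) (by omega) (fun _ => by omega)
  · rw [Set.disjoint_union_left]
    refine ⟨?_, ?_⟩ <;>
    · refine Disjoint.mono_right (hy.seg_subset.trans (R.subset_CU y (le_refl _) (le_refl _))) ?_
      exact R.disj_CU hG hne (by omega) (by omega) (fun _ => by omega)
  · rw [Set.disjoint_union_right]
    refine ⟨?_, ?_⟩ <;>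
    · refine Disjoint.mono_left (hx.seg_subset.trans (R.subset_CU x (le_refl _) (le_refl _))) ?_
      exact R.disj_CU hG hne (by omega) (by omega) (fun _ => by omega)

end Rep

/-- sub-segments -/
lemma seg_left_iff {u v x y : Pt} {s : ℝ} (hs0 : 0 ≤ s) (hs1 : s ≤ 1)
    (hx : x = (1 - s) • u + s • v) (hy : y ∈ segment ℝ u x) :
    ∃ t, 0 ≤ t ∧ t ≤ s ∧ y = (1 - t) • u + t • v := by
  obtain ⟨θ, h0, h1, rfl⟩ := mem_seg_iff.1 hy
  refine ⟨θ * s, by positivity, by nlinarith, ?_⟩
  rw [hx]
  module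

lemma seg_mid {u v x y z : Pt} {s t : ℝ} (hs0 : 0 ≤ s) (hs1 : s ≤ 1) (ht0 : 0 ≤ t) (ht1 : t ≤ 1)
    (hx : x = (1 - s) • u + s • v) (hy : y = (1 - t) • u + t • v) (hz : z ∈ segment ℝ x y) :
    ∃ w, min s t ≤ w ∧ w ≤ max s t ∧ z = (1 - w) • u + w • v := by
  obtain ⟨θ, h0, h1, rfl⟩ := mem_seg_iff.1 hz
  refine ⟨(1 - θ) * s + θ * t, ?_, ?_, ?_⟩
  · nlinarith [min_le_left s t, min_le_right s t]
  · nlinarith [le_max_left s t, le_max_right s t]
  · rw [hx, hy]
    module

namespace Rep

variable {C : ChordSys} {R : Rep C}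

/-- **Order lemma.** -/
theorem ord1 (hG : C.Good) {x y z : C.X} (hxy : C.cross x y) (hxz : C.cross x z)
    (hp : C.pos x y = C.pos x z) (hyz : y ≠ z)
    (hcond : C.cross z y → C.pos z y < C.pos z x)
    (hI : C.Inv (C.la x) (C.ra z) (C.la y) (C.ra y)) {u v r t r' t' : Pt}
    (hx : R.Node x (C.pos x y) u v) (hy : R.Node y (C.pos y x) r t)
    (hz : R.Node z (C.pos z x) r' t') : par u v r t < par u v r' t' := by
  have hxne := hG.cross_ne _ _ hxy
  have hxne' := hG.cross_ne _ _ hxz
  have Py := pc hG hxy hx hy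
  have hx' : R.Node x (C.pos x z) u v := hp ▸ hx
  have Pz := pc hG hxz hx' hz
  by_contra hle
  push Not at hle
  have h1 := hx.hp1; have h2 := hx.hp2; have h3 := hy.hp1; have h4 := hy.hp2
  have h5 := hz.hp1; have h6 := hz.hp2
  have m1 : cpt u v r' t' ∈ segment ℝ u v := Pz.cpt_mem_left
  have m2 : cpt u v r' t' ∈ segment ℝ r' t' := Pz.cpt_mem_right
  have sub1 : segment ℝ u (cpt u v r' t') ⊆ R.S (Vx.ch x (C.pos x y)) :=
    (R.convex_S _).segment_subset hx.u2 (hx.seg_subset m1)
  have sub2 : segment ℝ (cpt u v r' t') t' ⊆ R.S (Vx.ch z (C.pos z x)) :=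
    (R.convex_S _).segment_subset (hz.seg_subset m2) hz.v1
  -- links of z from `pos z x` on are disjoint from y
  have dzy : ∀ i' j', j' < C.N →
      Disjoint (R.CU z (C.pos z x) (C.N - 1)) (R.CU y i' j') := by
    intro i' j' hj'
    refine R.disj_CU hG (Ne.symm hyz) (by omega) hj' (fun hc => ?_)
    have := hcond hc
    omega
  have dxy : ∀ i j, j < C.pos x y → Disjoint (R.CU x i j) (R.CU y 0 (C.N - 1)) := by
    intro i j hj
    exact R.disj_CU hG hxne (by omega) (by omega) (fun _ => by omega)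
  have hz1 : R.RP (C.ra z) (segment ℝ (cpt u v r' t') t' ∪
      R.CU z (C.pos z x + 1) (C.N - 1)) (cpt u v r' t') :=
    (hz.rp hG).seg ((R.ch_frame hG h5 h6).mono_left sub2)
  have hx1 : R.LP (C.la x) (R.CU x 0 (C.pos x y - 1) ∪ segment ℝ u (cpt u v r' t'))
      (cpt u v r' t') := (hx.lp hG).seg ((R.ch_frame hG h1 h2).mono_left sub1)
  have hy1 := (hy.lp hG).seg (hy.frame hG)
  obtain ⟨w, hw1, hw2⟩ := meet hG hI hx1 hz1 hy1 (hy.rp hG)
  -- everything of y
  have hw2' : w ∈ R.CU y 0 (C.N - 1) := by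
    rcases hw2 with (h | h) | h
    · exact R.CU_mono y (by omega) (by omega) h
    · exact R.subset_CU y (Nat.zero_le _) (by omega) (hy.seg_subset h)
    · exact R.CU_mono y (by omega) (by omega) h
  rcases hw1 with (hw1 | hw1) | (hw1 | hw1)
  · exact Set.disjoint_left.1 (dxy _ _ (by omega)) hw1 hw2'
  · -- on the segment
    rcases hw2 with (h | h) | h
    · refine Set.disjoint_left.1 (R.disj_CU hG hxne (i := C.pos x y) (j := C.pos x y)
        (i' := 0) (j' := C.pos y x - 1) (by omega) (by omega) (fun _ => by omega))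
        (R.subset_CU x (le_refl _) (le_refl _) (sub1 hw1)) h
    · have hxi : segment ℝ u (cpt u v r' t') ⊆ segment ℝ u v :=
        (convex_segment u v).segment_subset (left_mem_segment ℝ u v) m1
      obtain ⟨τ, hτ0, hτ1, hτ⟩ := seg_left_iff (u := u) (v := v) Pz.par_mem.1.le
        Pz.par_mem.2.le (rfl : cpt u v r' t' = _) hw1
      have h8 := Py.eq_of_orient hτ (orient_eq_zero_of_mem h)
      have h9 : par u v r t = par u v r' t' := by linarith
      have h10 : cpt u v r t = cpt u v r' t' := by unfold cpt; rw [h9]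
      have h11 : cpt u v r t ∈ R.CU z (C.pos z x) (C.N - 1) := by
        rw [h10]; exact R.subset_CU z (le_refl _) (by omega) (hz.seg_subset m2)
      exact Set.disjoint_left.1 (dzy 0 (C.N - 1) (by omega)) h11
        (R.subset_CU y (Nat.zero_le _) (by omega) (hy.seg_subset Py.cpt_mem_right))
    · refine Set.disjoint_left.1 (R.disj_CU hG hxne (i := C.pos x y) (j := C.pos x y)
        (i' := C.pos y x + 1) (j' := C.N - 1) (by omega) (by omega) (fun _ => by omega))
        (R.subset_CU x (le_refl _) (le_refl _) (sub1 hw1)) h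
  · exact Set.disjoint_left.1 (dzy _ _ (by omega))
      (R.subset_CU z (le_refl _) (by omega) (sub2 hw1)) hw2'
  · exact Set.disjoint_left.1 (dzy _ _ (by omega))
      (R.CU_mono z (by omega) (le_refl _) hw1) hw2'

/-- the whole chord `x` through the node points of link `p` -/
def Whole (R : Rep C) (x : C.X) (p : ℕ) (u v : Pt) : Set Pt :=
  R.CU x 0 (p - 1) ∪ segment ℝ u v ∪ R.CU x (p + 1) (C.N - 1)

/-- **Detour lemma**: two chords `y, z` crossing the same link of `x`; half links of `y` and `z` on the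
same side of `x` can be connected along `x` without meeting `x`. -/
theorem detour (hG : C.Good) {x y z : C.X} (hxy : C.cross x y) (hxz : C.cross x z)
    (hp : C.pos x y = C.pos x z) {u v r t r' t' a b : Pt}
    (hx : R.Node x (C.pos x y) u v) (hy : R.Node y (C.pos y x) r t)
    (hz : R.Node z (C.pos z x) r' t') (ha : a = r ∨ a = t) (hb : b = r' ∨ b = t')
    (hab : 0 < orient u v a * orient u v b) :
    ∃ W, IsClosed W ∧ Conn W a b ∧ Disjoint W R.FrameSet ∧
      Disjoint W (R.Whole x (C.pos x y) u v) := by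
  have hxne := hG.cross_ne _ _ hxy
  have hxne' := hG.cross_ne _ _ hxz
  have Py := pc hG hxy hx hy
  have hx' : R.Node x (C.pos x z) u v := hp ▸ hx
  have Pz := pc hG hxz hx' hz
  have h1 := hx.hp1; have h2 := hx.hp2; have h3 := hy.hp1; have h4 := hy.hp2
  have h5 := hz.hp1; have h6 := hz.hp2
  set K : Set Pt := R.CU x 0 (C.pos x y - 1) ∪ R.CU x (C.pos x y + 1) (C.N - 1) with hK
  have hKc : IsClosed K := (R.isClosed_CU _ _ _).union (R.isClosed_CU _ _ _)
  set ξ := cpt u v r t with hξ
  set ξ' := cpt u v r' t' with hξ'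
  have mξ : ξ ∈ segment ℝ u v := Py.cpt_mem_left
  have mξ' : ξ' ∈ segment ℝ u v := Pz.cpt_mem_left
  have nξ : ξ ∈ segment ℝ r t := Py.cpt_mem_right
  have nξ' : ξ' ∈ segment ℝ r' t' := Pz.cpt_mem_right
  have hsub : segment ℝ ξ ξ' ⊆ R.S (Vx.ch x (C.pos x y)) :=
    ((convex_segment u v).segment_subset mξ mξ').trans hx.seg_subset
  -- the segment between the crossing points avoids the other links of x
  have hd1 : Disjoint (segment ℝ ξ ξ') K := by
    rw [Set.disjoint_left]
    intro w hw hwK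
    obtain ⟨τ, hτ0, hτ1, hτ⟩ := seg_mid Py.par_mem.1.le Py.par_mem.2.le Pz.par_mem.1.le
      Pz.par_mem.2.le (rfl : cpt u v r t = _) (rfl : cpt u v r' t' = _) hw
    have hwx := hsub hw
    have fy : ∀ s : ℝ, orient r t ((1 - s) • u + s • v) =
        (s - par u v r t) * (orient r t v - orient r t u) := by
      intro s
      have h0 : orient r t ((1 - par u v r t) • u + par u v r t • v) = 0 := Py.orient_cpt
      rw [orient_lineMap] at h0 ⊢
      linear_combination h0
    have fz : ∀ s : ℝ, orient r' t' ((1 - s) • u + s • v) =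
        (s - par u v r' t') * (orient r' t' v - orient r' t' u) := by
      intro s
      have h0 : orient r' t' ((1 - par u v r' t') • u + par u v r' t' • v) = 0 := Pz.orient_cpt
      rw [orient_lineMap] at h0 ⊢
      linear_combination h0
    have ey0 : orient r t u = (0 - par u v r t) * (orient r t v - orient r t u) := by
      have := fy 0; simpa using this
    have ey1 : orient r t v = (1 - par u v r t) * (orient r t v - orient r t u) := by
      have := fy 1; simpa using this
    have ez0 : orient r' t' u = (0 - par u v r' t') * (orient r' t' v - orient r' t' u) := by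
      have := fz 0; simpa using this
    have ez1 : orient r' t' v = (1 - par u v r' t') * (orient r' t' v - orient r' t' u) := by
      have := fz 1; simpa using this
    have fyw := fy τ
    have fzw := fz τ
    rw [← hτ] at fyw fzw
    have py := Py.par_mem
    have pz := Pz.par_mem
    rcases hwK with ⟨q, hq1, hq2, hq⟩ | ⟨q, hq1, hq2, hq⟩
    · by_cases hqe : q = C.pos x y - 1
      · subst hqe
        have hn : R.Node x (C.pos x y) w v := ⟨h1, h2, hq, hwx, hx.v1, hx.v2⟩
        have hn' : R.Node x (C.pos x z) w v := hp ▸ hn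
        have q1 := (pc hG hxy hn hy).1
        have q2 := (pc hG hxz hn' hz).1
        have k1 : orient r t w * orient r t v = ((τ - par u v r t) *
          (orient r t v - orient r t u)) * ((1 - par u v r t) * (orient r t v - orient r t u)) :=
          congrArg₂ (· * ·) fyw ey1
        have k2 : orient r' t' w * orient r' t' v = ((τ - par u v r' t') *
          (orient r' t' v - orient r' t' u)) *
          ((1 - par u v r' t') * (orient r' t' v - orient r' t' u)) :=
          congrArg₂ (· * ·) fzw ez1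
        rw [k1] at q1
        rw [k2] at q2
        rcases le_total (par u v r t) τ with h | h
        · have : 0 ≤ (τ - par u v r t) * (1 - par u v r t) :=
            mul_nonneg (by linarith) (by linarith)
          nlinarith [mul_nonneg this (mul_self_nonneg (orient r t v - orient r t u))]
        · have h' : par u v r' t' ≤ τ := by
            rcases min_le_iff.1 hτ0 with h8 | h8
            · have : τ = par u v r t := le_antisymm h h8
              rw [this] at q1
              simp at q1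
            · exact h8
          have : 0 ≤ (τ - par u v r' t') * (1 - par u v r' t') :=
            mul_nonneg (by linarith) (by linarith)
          nlinarith [mul_nonneg this (mul_self_nonneg (orient r' t' v - orient r' t' u))]
      · exact Set.disjoint_left.1 (R.disj_ch_self (x := x) (t := q) (t' := C.pos x y) (by omega)
          (by omega)) hq hwx
    · by_cases hqe : q = C.pos x y + 1
      · subst hqe
        have hn : R.Node x (C.pos x y) u w := ⟨h1, h2, hx.u1, hx.u2, hwx, hq⟩
        have hn' : R.Node x (C.pos x z) u w := hp ▸ hn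
        have q1 := (pc hG hxy hn hy).1
        have q2 := (pc hG hxz hn' hz).1
        rw [mul_comm] at q1 q2
        have k1 : orient r t w * orient r t u = ((τ - par u v r t) *
          (orient r t v - orient r t u)) * ((0 - par u v r t) * (orient r t v - orient r t u)) :=
          congrArg₂ (· * ·) fyw ey0
        have k2 : orient r' t' w * orient r' t' u = ((τ - par u v r' t') *
          (orient r' t' v - orient r' t' u)) *
          ((0 - par u v r' t') * (orient r' t' v - orient r' t' u)) :=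
          congrArg₂ (· * ·) fzw ez0
        rw [k1] at q1
        rw [k2] at q2
        rcases le_total τ (par u v r t) with h | h
        · have : 0 ≤ (par u v r t - τ) * (par u v r t) :=
            mul_nonneg (by linarith) (by linarith)
          nlinarith [mul_nonneg this (mul_self_nonneg (orient r t v - orient r t u))]
        · have h' : τ ≤ par u v r' t' := by
            rcases le_max_iff.1 hτ1 with h8 | h8
            · have : τ = par u v r t := le_antisymm h8 h
              rw [this] at q1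
              simp at q1
            · exact h8
          have : 0 ≤ (par u v r' t' - τ) * (par u v r' t') :=
            mul_nonneg (by linarith) (by linarith)
          nlinarith [mul_nonneg this (mul_self_nonneg (orient r' t' v - orient r' t' u))]
      · exact Set.disjoint_left.1 (R.disj_ch_self (x := x) (t := C.pos x y) (t' := q) (by omega)
          (by omega)) hwx hq
  have hd2 : Disjoint (segment ℝ ξ ξ') R.FrameSet := (R.ch_frame hG h1 h2).mono_left hsub
  -- approach
  have hc : Tendsto (fun s : ℝ => ((1 - s) • ξ + s • a, (1 - s) • ξ' + s • b)) (𝓝[>] 0)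
      (𝓝 (ξ, ξ')) := by
    have h0 : Tendsto (fun s : ℝ => ((1 - s) • ξ + s • a, (1 - s) • ξ' + s • b)) (𝓝 0)
        (𝓝 ((1 - (0:ℝ)) • ξ + (0:ℝ) • a, (1 - (0:ℝ)) • ξ' + (0:ℝ) • b)) := by
      apply Continuous.tendsto
      fun_prop
    simp only [sub_zero, one_smul, zero_smul, add_zero] at h0
    exact h0.mono_left nhdsWithin_le_nhds
  have e1 := hc.eventually (eventually_disjoint hKc hd1)
  have e2 := hc.eventually (eventually_disjoint R.isClosed_FrameSet hd2)
  have e3 : ∀ᶠ s : ℝ in 𝓝[>] 0, 0 < s := eventually_mem_nhdsWithin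
  have e4 : ∀ᶠ s : ℝ in 𝓝[>] 0, s < 1 := by
    have : ∀ᶠ s : ℝ in 𝓝 0, s < 1 := gt_mem_nhds (by norm_num)
    exact this.filter_mono nhdsWithin_le_nhds
  obtain ⟨s, s1, s2, s3, s4⟩ := (e1.and (e2.and (e3.and e4))).exists
  set p := (1 - s) • ξ + s • a with hpdef
  set q := (1 - s) • ξ' + s • b with hqdef
  simp only at s1 s2
  have ma : a ∈ R.S (Vx.ch y (C.pos y x)) := by
    rcases ha with rfl | rfl
    · exact hy.u2
    · exact hy.v1
  have mb : b ∈ R.S (Vx.ch z (C.pos z x)) := by
    rcases hb with rfl | rfl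
    · exact hz.u2
    · exact hz.v1
  have mp : p ∈ R.S (Vx.ch y (C.pos y x)) :=
    (R.convex_S _).segment_subset (hy.seg_subset nξ) ma (mem_seg_iff.2 ⟨s, s3.le, s4.le, rfl⟩)
  have mq : q ∈ R.S (Vx.ch z (C.pos z x)) :=
    (R.convex_S _).segment_subset (hz.seg_subset nξ') mb (mem_seg_iff.2 ⟨s, s3.le, s4.le, rfl⟩)
  have sub1 : segment ℝ a p ⊆ R.S (Vx.ch y (C.pos y x)) := (R.convex_S _).segment_subset ma mp
  have sub2 : segment ℝ q b ⊆ R.S (Vx.ch z (C.pos z x)) := (R.convex_S _).segment_subset mq mb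
  have oξ : orient u v ξ = 0 := orient_eq_zero_of_mem mξ
  have oξ' : orient u v ξ' = 0 := orient_eq_zero_of_mem mξ'
  have op : orient u v p = s * orient u v a := by
    rw [hpdef, orient_lineMap, oξ]; ring
  have oq : orient u v q = s * orient u v b := by
    rw [hqdef, orient_lineMap, oξ']; ring
  -- the detour is strictly on one side of the line uv
  have hside : ∀ w, w ∈ segment ℝ a p ∪ segment ℝ p q ∪ segment ℝ q b → orient u v w ≠ 0 := by
    intro w hw
    rcases mul_pos_iff.1 hab with ⟨h8, h9⟩ | ⟨h8, h9⟩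
    · have op' : 0 < orient u v p := by rw [op]; positivity
      have oq' : 0 < orient u v q := by rw [oq]; positivity
      rcases hw with (hw | hw) | hw
      · exact (orient_pos_of_mem hw h8 op').ne'
      · exact (orient_pos_of_mem hw op' oq').ne'
      · exact (orient_pos_of_mem hw oq' h9).ne'
    · have op' : orient u v p < 0 := by rw [op]; exact mul_neg_of_pos_of_neg s3 h8
      have oq' : orient u v q < 0 := by rw [oq]; exact mul_neg_of_pos_of_neg s3 h9
      rcases hw with (hw | hw) | hw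
      · exact (orient_neg_of_mem hw h8 op').ne
      · exact (orient_neg_of_mem hw op' oq').ne
      · exact (orient_neg_of_mem hw oq' h9).ne
  refine ⟨segment ℝ a p ∪ segment ℝ p q ∪ segment ℝ q b,
    ((isClosed_seg _ _).union (isClosed_seg _ _)).union (isClosed_seg _ _), ?_, ?_, ?_⟩
  · refine ((Conn.seg (U := segment ℝ a p) (subset_refl _)).mono ?_).trans
      (((Conn.seg (U := segment ℝ p q) (subset_refl _)).mono ?_).trans
      ((Conn.seg (U := segment ℝ q b) (subset_refl _)).mono ?_))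
    · exact fun w hw => Or.inl (Or.inl hw)
    · exact fun w hw => Or.inl (Or.inr hw)
    · exact fun w hw => Or.inr hw
  · rw [Set.disjoint_union_left, Set.disjoint_union_left]
    exact ⟨⟨(R.ch_frame hG h3 h4).mono_left sub1, s2⟩, (R.ch_frame hG h5 h6).mono_left sub2⟩
  · have dy : Disjoint (R.S (Vx.ch y (C.pos y x))) K := by
      rw [hK, Set.disjoint_union_right]
      constructor <;>
      · refine Disjoint.mono_left (R.subset_CU y (le_refl _) (le_refl _)) ?_
        exact R.disj_CU hG (Ne.symm hxne) (by omega) (by omega) (fun _ => by omega)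
    have dz : Disjoint (R.S (Vx.ch z (C.pos z x))) K := by
      rw [hK, Set.disjoint_union_right]
      constructor <;>
      · refine Disjoint.mono_left (R.subset_CU z (le_refl _) (le_refl _)) ?_
        exact R.disj_CU hG (Ne.symm hxne') (by omega) (by omega) (fun _ => by omega)
    rw [Set.disjoint_left]
    intro w hw hwx
    have hwx' : w ∈ K ∨ w ∈ segment ℝ u v := by
      rcases hwx with (h | h) | h
      · exact Or.inl (Or.inl h)
      · exact Or.inr h
      · exact Or.inl (Or.inr h)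
    rcases hwx' with h | h
    · rcases hw with (hw | hw) | hw
      · exact Set.disjoint_left.1 dy (sub1 hw) h
      · exact Set.disjoint_left.1 s1 hw h
      · exact Set.disjoint_left.1 dz (sub2 hw) h
    · exact hside w hw (orient_eq_zero_of_mem h)

end Rep

end SegGirth
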