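import Mathlib
import Pool.Agent.Lib.MP_beb3fe_lc.Concrete
import Pool.Agent.Lib.MP_beb3fe_lc.Paths

/-!
# The combinatorial facts on the concrete chord system that are used for soundness
-/

namespace SegGirth

/-- `k` is smaller than both or larger than both of `i, j` -/
def Ext (k i j : ℕ) : Prop := (k < i ∧ k < j) ∨ (i < k ∧ j < k)

/-- `n` tubes: tube `i` consists of the chords `c i g b` (`g = false` lower, `g = true` upper group,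
`0 ≤ b ≤ H`); `rho b` is the index of the rigid link of `c i g b`; `K` is the spacing of anchors. -/
structure Tubes (C : ChordSys) (n H K : ℕ) (ord : ℕ → ℕ → ℕ) where
  c : ℕ → Bool → ℕ → C.X
  rho : ℕ → ℕ
  hK : 1 ≤ K
  hH : K * (2 * n - 2) < H
  hH2 : 2 ≤ H
  ordlt : ∀ i < n, ∀ j < n, i ≠ j → ord i j < n - 1
  rho1 : ∀ b ≤ H, 1 ≤ rho b
  rho2 : ∀ b ≤ H, rho b + 2 ≤ C.N
  inj : ∀ i < n, ∀ j < n, ∀ g g' b b', b ≤ H → b' ≤ H → c i g b = c j g' b' →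
    i = j ∧ g = g' ∧ b = b'
  -- neighbours in a tube
  nb_cross : ∀ i < n, ∀ g, ∀ b < H, C.cross (c i g b) (c i g (b + 1))
  nb_pos : ∀ i < n, ∀ g, ∀ b < H, C.pos (c i g b) (c i g (b + 1)) = rho b ∧
    C.pos (c i g (b + 1)) (c i g b) = rho (b + 1)
  tipL_cross : ∀ i < n, ∀ g, C.cross (c i g 0) (c i (!g) 0)
  tipL_pos : ∀ i < n, ∀ g, C.pos (c i g 0) (c i (!g) 0) = rho 0
  tipR_cross : ∀ i < n, ∀ g, C.cross (c i g H) (c i (!g) H)
  tipR_pos : ∀ i < n, ∀ g, C.pos (c i g H) (c i (!g) H) = rho H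
  -- rigid links of non-neighbours in a tube do not meet
  nonadj_same : ∀ i < n, ∀ g b b', b + 1 < b' → b' ≤ H →
    C.pos (c i g b) (c i g b') ≠ rho b
  nonadj_opp : ∀ i < n, ∀ g, ∀ b ≤ H, ∀ b' ≤ H, ¬ (b = 0 ∧ b' = 0) → ¬ (b = H ∧ b' = H) →
    ¬ C.cross (c i g b) (c i (!g) b')
  mixed : ∀ i < n, ∀ g b, b + 2 ≤ H → C.cross (c i g b) (c i g (b + 2)) ∧
    C.pos (c i g b) (c i g (b + 1)) < C.pos (c i g b) (c i g (b + 2)) ∧
    C.pos (c i g (b + 2)) (c i g b) < C.pos (c i g (b + 2)) (c i g (b + 1))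
  -- inverted attachments inside a tube
  invA : ∀ i < n, ∀ g b, b + 2 ≤ H → C.Inv (C.la (c i g (b + 1))) (C.ra (c i g (b + 2)))
    (C.la (c i g b)) (C.ra (c i g b))
  inv0 : ∀ i < n, ∀ g, C.Inv (C.la (c i g 0)) (C.ra (c i g 1))
    (C.la (c i (!g) 0)) (C.ra (c i (!g) 0))
  invH : ∀ i < n, ∀ g, C.Inv (C.la (c i g H)) (C.ra (c i (!g) H))
    (C.la (c i g (H - 1))) (C.ra (c i g (H - 1)))
  same0 : ∀ i < n, ∀ g, C.Inv (C.la (c i (!g) 0)) (C.ra (c i g 1))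
    (C.la (c i g 0)) (C.ra (c i g 0))
  sameH : ∀ i < n, ∀ g, C.Inv (C.la (c i g (H - 1))) (C.ra (c i (!g) H))
    (C.la (c i g H)) (C.ra (c i g H))
  -- the first and the last chord
  start_own : ∀ i < n, ∀ g b, b ≤ H → b ≠ 0 → rho 0 ≤ C.pos (c i g 0) (c i g b)
  start_diff : ∀ i < n, ∀ j < n, i ≠ j → ∀ g g' b, b ≤ H → rho 0 < C.pos (c i g 0) (c j g' b)
  end_own : ∀ i < n, ∀ g b, b < H → C.pos (c i g H) (c i g b) ≤ rho H
  end_diff : ∀ i < n, ∀ j < n, i ≠ j → ∀ g g' b, b ≤ H → C.pos (c i g H) (c j g' b) < rho H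
  -- different tubes
  cross_diff : ∀ i < n, ∀ j < n, i ≠ j → ∀ g g' b b', b ≤ H → b' ≤ H →
    C.cross (c i g b) (c j g' b')
  rigid_diff : ∀ i < n, ∀ j < n, i ≠ j → ∀ g g' b b', b ≤ H → b' ≤ H →
    C.pos (c i g b) (c j g' b') = rho b →
    b = K * (2 * ord i j + 1) ∨ b = K * (2 * ord i j + 2)
  inv_diff : ∀ i < n, ∀ j < n, ∀ k < n, Ext k i j → ∀ g1 g2 g3 g4 b1 b2 b3 b4,
    b1 ≤ H → b2 ≤ H → b3 ≤ H → b4 ≤ H →
    C.Inv (C.la (c i g1 b1)) (C.ra (c j g2 b2)) (C.la (c k g3 b3)) (C.ra (c k g4 b4))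

end SegGirth
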