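import Mathlib
import Pool.Agent.Lib.MP_beb3fe_lc.Tubes

/-!
# The abstract situation for the last step of soundness

`K i` is the (convex) region of tube `i`, `pL i`, `pR i` its tips, `LS i`, `RS i` the left and the right
string; `Hit i w` : `w` lies on the boundary polygon of `K i`.
-/

namespace SegGirth

structure Lam {C : ChordSys} (R : Rep C) (n : ℕ) (ord : ℕ → ℕ → ℕ) where
  K : ℕ → Set Pt
  pL : ℕ → Pt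
  pR : ℕ → Pt
  LS : ℕ → Set Pt
  RS : ℕ → Set Pt
  l0 : ℕ → ℕ
  r0 : ℕ → ℕ
  Hit : ℕ → Pt → Prop
  hLS : ∀ i < n, R.LP (l0 i) (LS i) (pL i)
  hRS : ∀ i < n, R.RP (r0 i) (RS i) (pR i)
  conv : ∀ i < n, Convex ℝ (K i)
  frame : ∀ i < n, Disjoint (K i) R.FrameSet
  pL_mem : ∀ i < n, pL i ∈ K i
  pR_mem : ∀ i < n, pR i ∈ K i
  out : ∀ i < n, ∀ j < n, i ≠ j → Disjoint (LS i ∪ RS i) (K j)
  dd : ∀ i < n, ∀ j < n, i ≠ j → Disjoint (LS i ∪ RS i) (LS j ∪ RS j)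
  own : ∀ i < n, ∀ x ∈ K i, x ∈ LS i ∪ RS i → x = pL i ∨ x = pR i
  inv : ∀ i < n, ∀ j < n, ∀ k < n, Ext k i j → C.Inv (l0 i) (r0 j) (l0 k) (r0 k)
  exit : ∀ i < n, ∀ x ∈ K i, ∀ y, y ∉ K i → ∃ w ∈ segment ℝ x y, Hit i w
  chainL : ∀ i < n, ∀ j < n, ∀ k < n, i ≠ j → i ≠ k → ord i j < ord i k → ∀ w, Hit i w →
    w ∈ K j → w ∉ K k ∧ ∃ l U, R.LP l U w ∧ Disjoint U (K k ∪ (LS k ∪ RS k)) ∧
      (Ext k i j → C.Inv l (r0 j) (l0 k) (r0 k))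
  chainR : ∀ i < n, ∀ j < n, ∀ k < n, i ≠ j → i ≠ k → ord i j < ord i k → ∀ w, Hit i w →
    w ∈ K k → w ∉ K j ∧ ∃ r V, R.RP r V w ∧ Disjoint V (K j ∪ (LS j ∪ RS j)) ∧
      (Ext j i k → C.Inv (l0 k) r (l0 j) (r0 j))

end SegGirth
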