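import Mathlib
import Pool.Agent.Lib.MP_beb3fe_lc.LamDef
import Pool.Agent.Lib.MP_beb3fe_lc.Chords

/-!
# The order of the crossings on the middle segments
-/

namespace SegGirth

open Filter Topology Set

lemma Ext.symm' {k i j : ℕ} (h : Ext k i j) : Ext k j i := by
  unfold Ext at *; omega

namespace Lam

variable {C : ChordSys} {R : Rep C} {n : ℕ} {ord : ℕ → ℕ → ℕ}

/-- middle segments -/
def M (Λ : Lam R n ord) (i : ℕ) : Set Pt := segment ℝ (Λ.pL i) (Λ.pR i)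

lemma M_subset (Λ : Lam R n ord) {i : ℕ} (hi : i < n) : Λ.M i ⊆ Λ.K i :=
  (Λ.conv i hi).segment_subset (Λ.pL_mem i hi) (Λ.pR_mem i hi)

lemma M_frame (Λ : Lam R n ord) {i : ℕ} (hi : i < n) : Disjoint (Λ.M i) R.FrameSet :=
  (Λ.frame i hi).mono_left (Λ.M_subset hi)

theorem proper (hG : C.Good) (Λ : Lam R n ord) : ∀ i < n, ∀ j < n, i ≠ j →
    Proper (Λ.pL i) (Λ.pR i) (Λ.pL j) (Λ.pR j) := by
  intro i hi j hj hij
  refine Rep.proper_of_paths hG (Λ.inv i hi i hi j hj (by unfold Ext; omega)) (Λ.hLS i hi)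
    (Λ.hRS i hi) (Λ.hLS j hj) (Λ.hRS j hj) (Λ.M_frame hi) (Λ.M_frame hj) (Λ.dd i hi j hj hij)
    ((Λ.out i hi j hj hij).mono_right (Λ.M_subset hj))
    (((Λ.out j hj i hi (Ne.symm hij)).symm).mono_left (Λ.M_subset hi))

/-- parameter of the crossing with `j` on the middle segment of `i` -/
noncomputable def p (Λ : Lam R n ord) (i j : ℕ) : ℝ :=
  par (Λ.pL i) (Λ.pR i) (Λ.pL j) (Λ.pR j)

/-- the crossing point -/
noncomputable def z (Λ : Lam R n ord) (i j : ℕ) : Pt :=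
  cpt (Λ.pL i) (Λ.pR i) (Λ.pL j) (Λ.pR j)

lemma z_eq (Λ : Lam R n ord) (i j : ℕ) :
    Λ.z i j = (1 - Λ.p i j) • Λ.pL i + Λ.p i j • Λ.pR i := rfl

lemma z_symm (hG : C.Good) (Λ : Lam R n ord) {i j : ℕ} (hi : i < n) (hj : j < n) (hij : i ≠ j) :
    Λ.z i j = Λ.z j i := cpt_symm (Λ.proper hG i hi j hj hij)

lemma p_mem (hG : C.Good) (Λ : Lam R n ord) {i j : ℕ} (hi : i < n) (hj : j < n) (hij : i ≠ j) :
    0 < Λ.p i j ∧ Λ.p i j < 1 := (Λ.proper hG i hi j hj hij).par_mem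

lemma z_mem (hG : C.Good) (Λ : Lam R n ord) {i j : ℕ} (hi : i < n) (hj : j < n) (hij : i ≠ j) :
    Λ.z i j ∈ Λ.M i := (Λ.proper hG i hi j hj hij).cpt_mem_left

lemma z_mem' (hG : C.Good) (Λ : Lam R n ord) {i j : ℕ} (hi : i < n) (hj : j < n) (hij : i ≠ j) :
    Λ.z i j ∈ Λ.M j := (Λ.proper hG i hi j hj hij).cpt_mem_right

lemma inter (hG : C.Good) (Λ : Lam R n ord) {i j : ℕ} (hi : i < n) (hj : j < n) (hij : i ≠ j)
    {x : Pt} (h1 : x ∈ Λ.M i) (h2 : x ∈ Λ.M j) : x = Λ.z i j :=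
  (Λ.proper hG i hi j hj hij).unique h1 h2

lemma ne (hG : C.Good) (Λ : Lam R n ord) {i j : ℕ} (hi : i < n) (hj : j < n) (hij : i ≠ j) :
    Λ.pL i ≠ Λ.pR i := by
  intro h
  have := (Λ.proper hG i hi j hj hij).1
  rw [h] at this
  nlinarith [mul_self_nonneg (orient (Λ.pL j) (Λ.pR j) (Λ.pR i))]

lemma par_inj {u v : Pt} (huv : u ≠ v) {s t : ℝ}
    (h : (1 - s) • u + s • v = (1 - t) • u + t • v) : s = t := by
  by_contra hst
  apply huv
  have h1 := congrArg Prod.fst h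
  have h2 := congrArg Prod.snd h
  simp only [Prod.fst_add, Prod.snd_add, Prod.smul_fst, Prod.smul_snd, smul_eq_mul] at h1 h2
  have h3 : (s - t) * (v.1 - u.1) = 0 := by linarith
  have h4 : (s - t) * (v.2 - u.2) = 0 := by linarith
  have h5 : s - t ≠ 0 := sub_ne_zero.2 hst
  have h6 : v.1 - u.1 = 0 := by
    rcases mul_eq_zero.1 h3 with h | h
    · exact absurd h h5
    · exact h
  have h7 : v.2 - u.2 = 0 := by
    rcases mul_eq_zero.1 h4 with h | h
    · exact absurd h h5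
    · exact h
  exact Prod.ext (by linarith) (by linarith)

/-- initial part of a middle segment -/
lemma init_avoid (hG : C.Good) (Λ : Lam R n ord) {j k : ℕ} (hj : j < n) (hk : k < n)
    (hjk : j ≠ k) {w : Pt} {s : ℝ} (h0 : 0 ≤ s) (h1 : s ≤ 1)
    (hw : w = (1 - s) • Λ.pL j + s • Λ.pR j) (hs : s < Λ.p j k) :
    Disjoint (segment ℝ (Λ.pL j) w) (Λ.M k) := by
  rw [Set.disjoint_left]
  intro x hx hxk
  obtain ⟨t, ht0, ht1, ht⟩ := seg_left_iff h0 h1 hw hx
  have hxj : x ∈ Λ.M j := mem_seg_iff.2 ⟨t, ht0, by linarith, ht⟩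
  have := Λ.inter hG hj hk hjk hxj hxk
  rw [z_eq, ht] at this
  have := par_inj (Λ.ne hG hj hk hjk) this
  linarith

/-- final part of a middle segment -/
lemma final_avoid (hG : C.Good) (Λ : Lam R n ord) {j k : ℕ} (hj : j < n) (hk : k < n)
    (hjk : j ≠ k) {w : Pt} {s : ℝ} (h0 : 0 ≤ s) (h1 : s ≤ 1)
    (hw : w = (1 - s) • Λ.pL j + s • Λ.pR j) (hs : Λ.p j k < s) :
    Disjoint (segment ℝ w (Λ.pR j)) (Λ.M k) := by
  rw [Set.disjoint_left]
  intro x hx hxk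
  obtain ⟨t, ht0, ht1, ht⟩ := seg_mid (s := s) (t := 1) h0 h1 zero_le_one (le_refl (1:ℝ)) hw
    (show Λ.pR j = (1 - (1:ℝ)) • Λ.pL j + (1:ℝ) • Λ.pR j by simp) hx
  rw [min_eq_left h1] at ht0
  rw [max_eq_right h1] at ht1
  have hxj : x ∈ Λ.M j := mem_seg_iff.2 ⟨t, by linarith, ht1, ht⟩
  have := Λ.inter hG hj hk hjk hxj hxk
  rw [z_eq, ht] at this
  have := par_inj (Λ.ne hG hj hk hjk) this
  linarith

/-- the path of `k` meets every path inverted to it -/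
lemma meetK (hG : C.Good) (Λ : Lam R n ord) {k : ℕ} (hk : k < n) {l r : ℕ} {U V : Set Pt}
    {w : Pt} (hL : R.LP l U w) (hR : R.RP r V w) (hI : C.Inv l r (Λ.l0 k) (Λ.r0 k))
    (h1 : Disjoint U (Λ.M k ∪ (Λ.LS k ∪ Λ.RS k))) (h2 : Disjoint V (Λ.M k ∪ (Λ.LS k ∪ Λ.RS k))) :
    False := by
  obtain ⟨x, hx1, hx2⟩ := Rep.meet hG hI hL hR ((Λ.hLS k hk).seg (Λ.M_frame hk)) (Λ.hRS k hk)
  have hx2' : x ∈ Λ.M k ∪ (Λ.LS k ∪ Λ.RS k) := by
    rcases hx2 with (h | h) | h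
    · exact Or.inr (Or.inl h)
    · exact Or.inl h
    · exact Or.inr (Or.inr h)
  rcases hx1 with h | h
  · exact Set.disjoint_left.1 h1 h hx2'
  · exact Set.disjoint_left.1 h2 h hx2'

lemma sub_frame (Λ : Lam R n ord) {i : ℕ} (hi : i < n) {s : Set Pt} (hs : s ⊆ Λ.M i) :
    Disjoint s R.FrameSet := (Λ.M_frame hi).mono_left hs

/-- a part of the middle segment of `j` avoids the strings of `k` -/
lemma part_strings (Λ : Lam R n ord) {j k : ℕ} (hj : j < n) (hk : k < n) (hjk : j ≠ k)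
    {s : Set Pt} (hs : s ⊆ Λ.M j) : Disjoint s (Λ.LS k ∪ Λ.RS k) :=
  ((Λ.out k hk j hj (Ne.symm hjk)).symm).mono_left (hs.trans (Λ.M_subset hj))

lemma str_all (Λ : Lam R n ord) {j k : ℕ} (hj : j < n) (hk : k < n) (hjk : j ≠ k)
    {s : Set Pt} (hs : s ⊆ Λ.LS j ∪ Λ.RS j) : Disjoint s (Λ.M k ∪ (Λ.LS k ∪ Λ.RS k)) := by
  rw [Set.disjoint_union_right]
  exact ⟨(Λ.out j hj k hk hjk).mono hs (Λ.M_subset hk), (Λ.dd j hj k hk hjk).mono_left hs⟩

/-- (S1) -/
lemma s1 (hG : C.Good) (Λ : Lam R n ord) {i j k : ℕ} (hi : i < n) (hj : j < n) (hk : k < n)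
    (hij : i ≠ j) (hik : i ≠ k) (hjk : j ≠ k) (ho : ord i j < ord i k) (hE : Ext k i j) :
    Λ.p j i < Λ.p j k := by
  by_contra hle
  push Not at hle
  have hzi : Λ.z i j ∈ Λ.K i := Λ.M_subset hi (Λ.z_mem hG hi hj hij)
  have hpR : Λ.pR j ∉ Λ.K i := by
    intro h
    exact Set.disjoint_left.1 (Λ.out j hj i hi (Ne.symm hij)) (Or.inr (Λ.hRS j hj).mem) h
  obtain ⟨w, hw, hit⟩ := Λ.exit i hi _ hzi _ hpR
  have pm := Λ.p_mem hG hj hi (Ne.symm hij)
  obtain ⟨s, hs0, hs1, hs⟩ := seg_mid (s := Λ.p j i) (t := 1) pm.1.le pm.2.le zero_le_one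
    (le_refl (1:ℝ)) (by rw [← z_eq]; exact Λ.z_symm hG hi hj hij)
    (show Λ.pR j = (1 - (1:ℝ)) • Λ.pL j + (1:ℝ) • Λ.pR j by simp) hw
  rw [min_eq_left pm.2.le] at hs0
  rw [max_eq_right pm.2.le] at hs1
  have hwM : w ∈ Λ.M j := mem_seg_iff.2 ⟨s, by linarith, hs1, hs⟩
  obtain ⟨hwk, l, U, hL, hdU, hI⟩ := Λ.chainL i hi j hj k hk hij hik ho w hit (Λ.M_subset hj hwM)
  have hlt : Λ.p j k < s := by
    rcases lt_or_eq_of_le (hle.trans hs0) with h | h
    · exact h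
    · exfalso
      apply hwk
      rw [hs, ← h, ← z_eq]
      exact Λ.M_subset hk (Λ.z_mem' hG hj hk hjk)
  have hsub : segment ℝ w (Λ.pR j) ⊆ Λ.M j :=
    (convex_segment _ _).segment_subset hwM (right_mem_segment ℝ _ _)
  have hV := (Λ.hRS j hj).seg (Λ.sub_frame hj hsub)
  refine Λ.meetK hG hk hL hV (hI hE) (hdU.mono_right ?_) ?_
  · exact Set.union_subset_union_left _ (Λ.M_subset hk)
  · rw [Set.disjoint_union_left]
    refine ⟨?_, Λ.str_all hj hk hjk Set.subset_union_right⟩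
    rw [Set.disjoint_union_right]
    exact ⟨Λ.final_avoid hG hj hk hjk (by linarith) hs1 hs hlt, Λ.part_strings hj hk hjk hsub⟩

/-- (S2) -/
lemma s2 (hG : C.Good) (Λ : Lam R n ord) {i j k : ℕ} (hi : i < n) (hj : j < n) (hk : k < n)
    (hij : i ≠ j) (hik : i ≠ k) (hjk : j ≠ k) (ho : ord i j < ord i k) (hE : Ext j i k) :
    Λ.p k j < Λ.p k i := by
  by_contra hle
  push Not at hle
  have hzi : Λ.z i k ∈ Λ.K i := Λ.M_subset hi (Λ.z_mem hG hi hk hik)
  have hpL : Λ.pL k ∉ Λ.K i := by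
    intro h
    exact Set.disjoint_left.1 (Λ.out k hk i hi (Ne.symm hik)) (Or.inl (Λ.hLS k hk).mem) h
  obtain ⟨w, hw, hit⟩ := Λ.exit i hi _ hzi _ hpL
  have pm := Λ.p_mem hG hk hi (Ne.symm hik)
  rw [segment_symm] at hw
  obtain ⟨s, hs0, hs1, hs⟩ := seg_left_iff pm.1.le pm.2.le
    (show Λ.z i k = _ by rw [Λ.z_symm hG hi hk hik]; exact Λ.z_eq k i) hw
  have hwM : w ∈ Λ.M k := mem_seg_iff.2 ⟨s, hs0, by linarith, hs⟩
  obtain ⟨hwj, r, V, hR, hdV, hI⟩ := Λ.chainR i hi j hj k hk hij hik ho w hit (Λ.M_subset hk hwM)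
  have hlt : s < Λ.p k j := by
    rcases lt_or_eq_of_le (hs1.trans hle) with h | h
    · exact h
    · exfalso
      apply hwj
      rw [hs, h, ← z_eq]
      exact Λ.M_subset hj (Λ.z_mem' hG hk hj (Ne.symm hjk))
  have hsub : segment ℝ (Λ.pL k) w ⊆ Λ.M k :=
    (convex_segment _ _).segment_subset (left_mem_segment ℝ _ _) hwM
  have hU := (Λ.hLS k hk).seg (Λ.sub_frame hk hsub)
  refine Λ.meetK hG hj hU hR (hI hE) ?_ (hdV.mono_right ?_)
  · rw [Set.disjoint_union_left]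
    refine ⟨Λ.str_all hk hj (Ne.symm hjk) Set.subset_union_left, ?_⟩
    rw [Set.disjoint_union_right]
    exact ⟨Λ.init_avoid hG hk hj (Ne.symm hjk) hs0 (by linarith) hs hlt,
      Λ.part_strings hk hj (Ne.symm hjk) hsub⟩
  · exact Set.union_subset_union_left _ (Λ.M_subset hj)

/-- no triple points -/
lemma no_triple (hG : C.Good) (Λ : Lam R n ord) {i j k : ℕ} (hi : i < n) (hj : j < n)
    (hk : k < n) (hij : i ≠ j) (hik : i ≠ k) (hjk : j ≠ k) (h : Λ.p i j = Λ.p i k) :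
    Λ.p j i = Λ.p j k ∧ Λ.p k j = Λ.p k i := by
  have e : Λ.z i j = Λ.z i k := by rw [z_eq, z_eq, h]
  have m1 : Λ.z i j ∈ Λ.M j := Λ.z_mem' hG hi hj hij
  have m2 : Λ.z i j ∈ Λ.M k := by rw [e]; exact Λ.z_mem' hG hi hk hik
  constructor
  · have e1 := Λ.inter hG hj hk hjk m1 m2
    rw [Λ.z_symm hG hi hj hij, z_eq, z_eq] at e1
    exact par_inj (Λ.ne hG hj hk hjk) e1
  · have e1 := Λ.inter hG hk hj (Ne.symm hjk) m2 m1
    rw [e, Λ.z_symm hG hi hk hik, z_eq, z_eq] at e1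
    exact (par_inj (Λ.ne hG hk hj (Ne.symm hjk)) e1).symm

theorem order (hG : C.Good) (Λ : Lam R n ord) : ∀ i < n, ∀ j < n, ∀ k < n, i ≠ j → i ≠ k →
    ord i j < ord i k → par (Λ.pL i) (Λ.pR i) (Λ.pL j) (Λ.pR j) <
      par (Λ.pL i) (Λ.pR i) (Λ.pL k) (Λ.pR k) := by
  intro i hi j hj k hk hij hik ho
  have hjk : j ≠ k := by rintro rfl; exact lt_irrefl _ ho
  change Λ.p i j < Λ.p i k
  have hcase : Ext k i j ∨ Ext j i k := by unfold Ext; omega
  rcases hcase with hE | hE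
  · have h1 := Λ.s1 hG hi hj hk hij hik hjk ho hE
    rcases lt_trichotomy (Λ.p i j) (Λ.p i k) with h | h | h
    · exact h
    · exfalso
      have := (Λ.no_triple hG hi hj hk hij hik hjk h).1
      linarith
    · exfalso
      -- A = LS j ∪ [pL j, z ij], then [z ij, pR i] ∪ RS i
      have pj := Λ.p_mem hG hj hi (Ne.symm hij)
      have pi := Λ.p_mem hG hi hj hij
      have hs1 : segment ℝ (Λ.pL j) (Λ.z j i) ⊆ Λ.M j :=
        (convex_segment _ _).segment_subset (left_mem_segment ℝ _ _)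
          (Λ.z_mem hG hj hi (Ne.symm hij))
      have hs2 : segment ℝ (Λ.z i j) (Λ.pR i) ⊆ Λ.M i :=
        (convex_segment _ _).segment_subset (Λ.z_mem hG hi hj hij) (right_mem_segment ℝ _ _)
      have hU := (Λ.hLS j hj).seg (Λ.sub_frame hj hs1)
      have hV := (Λ.hRS i hi).seg (Λ.sub_frame hi hs2)
      rw [Λ.z_symm hG hj hi (Ne.symm hij)] at hU
      refine Λ.meetK hG hk hU hV (Λ.inv j hj i hi k hk hE.symm') ?_ ?_
      · rw [Set.disjoint_union_left]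
        refine ⟨Λ.str_all hj hk hjk Set.subset_union_left, ?_⟩
        rw [Set.disjoint_union_right, ← Λ.z_symm hG hj hi (Ne.symm hij)]
        exact ⟨Λ.init_avoid hG hj hk hjk pj.1.le pj.2.le (Λ.z_eq j i) h1,
          Λ.part_strings hj hk hjk hs1⟩
      · rw [Set.disjoint_union_left]
        refine ⟨?_, Λ.str_all hi hk hik Set.subset_union_right⟩
        rw [Set.disjoint_union_right]
        exact ⟨Λ.final_avoid hG hi hk hik pi.1.le pi.2.le (Λ.z_eq i j) h,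
          Λ.part_strings hi hk hik hs2⟩
  · have h1 := Λ.s2 hG hi hj hk hij hik hjk ho hE
    rcases lt_trichotomy (Λ.p i j) (Λ.p i k) with h | h | h
    · exact h
    · exfalso
      have := (Λ.no_triple hG hi hj hk hij hik hjk h).2
      linarith
    · exfalso
      -- A = LS i ∪ [pL i, z ik], then [z ik, pR k] ∪ RS k
      have pk := Λ.p_mem hG hk hi (Ne.symm hik)
      have pi := Λ.p_mem hG hi hk hik
      have hs1 : segment ℝ (Λ.pL i) (Λ.z i k) ⊆ Λ.M i :=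
        (convex_segment _ _).segment_subset (left_mem_segment ℝ _ _) (Λ.z_mem hG hi hk hik)
      have hs2 : segment ℝ (Λ.z k i) (Λ.pR k) ⊆ Λ.M k :=
        (convex_segment _ _).segment_subset (Λ.z_mem hG hk hi (Ne.symm hik))
          (right_mem_segment ℝ _ _)
      have hU := (Λ.hLS i hi).seg (Λ.sub_frame hi hs1)
      have hV := (Λ.hRS k hk).seg (Λ.sub_frame hk hs2)
      rw [Λ.z_symm hG hi hk hik] at hU
      refine Λ.meetK hG hj hU hV (Λ.inv i hi k hk j hj hE) ?_ ?_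
      · rw [Set.disjoint_union_left]
        refine ⟨Λ.str_all hi hj hij Set.subset_union_left, ?_⟩
        rw [Set.disjoint_union_right, ← Λ.z_symm hG hi hk hik]
        exact ⟨Λ.init_avoid hG hi hj hij pi.1.le pi.2.le (Λ.z_eq i k) h,
          Λ.part_strings hi hj hij hs1⟩
      · rw [Set.disjoint_union_left]
        refine ⟨?_, Λ.str_all hk hj (Ne.symm hjk) Set.subset_union_right⟩
        rw [Set.disjoint_union_right]
        exact ⟨Λ.final_avoid hG hk hj (Ne.symm hjk) pk.1.le pk.2.le (Λ.z_eq k i) h1,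
          Λ.part_strings hk hj (Ne.symm hjk) hs2⟩

theorem sign (hG : C.Good) (Λ : Lam R n ord) : ∀ i < n, ∀ j < n, ∀ k < n, j ≠ k → Ext i j k →
    0 < orient (Λ.pL i) (Λ.pR i) (Λ.pL j) * orient (Λ.pL i) (Λ.pR i) (Λ.pL k) := by
  intro i hi j hj k hk hjk hE
  have hij : i ≠ j := by unfold Ext at hE; omega
  have hik : i ≠ k := by unfold Ext at hE; omega
  have Pj := (Λ.proper hG i hi j hj hij).2
  have Pk := (Λ.proper hG i hi k hk hik).2
  by_contra hle
  push Not at hle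
  set oj := orient (Λ.pL i) (Λ.pR i) (Λ.pL j) with hoj
  set ok := orient (Λ.pL i) (Λ.pR i) (Λ.pL k) with hok
  set ok' := orient (Λ.pL i) (Λ.pR i) (Λ.pR k) with hok'
  have hab : 0 < oj * ok' := by
    have hr : oj ≠ 0 := fun h => by rw [h] at Pj; simp at Pj
    have hr' : ok ≠ 0 := fun h => by rw [h] at Pk; simp at Pk
    rcases lt_or_gt_of_ne hr with h | h
    · have h7 : 0 < ok := by
        rcases lt_or_gt_of_ne hr' with h' | h'
        · nlinarith [mul_pos_of_neg_of_neg h h']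
        · exact h'
      have h8 : ok' < 0 := by
        by_contra h8; push Not at h8; nlinarith [mul_nonneg h7.le h8]
      exact mul_pos_of_neg_of_neg h h8
    · have h7 : ok < 0 := by
        rcases lt_or_gt_of_ne hr' with h' | h'
        · exact h'
        · nlinarith [mul_pos h h']
      have h8 : 0 < ok' := by
        by_contra h8; push Not at h8; nlinarith [mul_nonneg_of_nonpos_of_nonpos h7.le h8]
      exact mul_pos h h8
  -- the segment between the two crossing points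
  have pj := Λ.p_mem hG hi hj hij
  have pk := Λ.p_mem hG hi hk hik
  have hzj := Λ.z_mem hG hi hj hij
  have hzk := Λ.z_mem hG hi hk hik
  have hsub : segment ℝ (Λ.z i j) (Λ.z i k) ⊆ Λ.M i :=
    (convex_segment _ _).segment_subset hzj hzk
  have hcl : IsClosed (Λ.LS i ∪ Λ.RS i) := (Λ.hLS i hi).closed.union (Λ.hRS i hi).closed
  have hd1 : Disjoint (segment ℝ (Λ.z i j) (Λ.z i k)) (Λ.LS i ∪ Λ.RS i) := by
    rw [Set.disjoint_left]
    intro x hx hxs
    obtain ⟨t, ht0, ht1, ht⟩ := seg_mid pj.1.le pj.2.le pk.1.le pk.2.le (Λ.z_eq i j) (Λ.z_eq i k) hx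
    have h0 : 0 < t := lt_of_lt_of_le (lt_min pj.1 pk.1) ht0
    have h1 : t < 1 := lt_of_le_of_lt ht1 (max_lt pj.2 pk.2)
    have hne := Λ.ne hG hi hj hij
    rcases Λ.own i hi x (Λ.M_subset hi (hsub hx)) hxs with h | h
    · rw [ht] at h
      have : (1 - t) • Λ.pL i + t • Λ.pR i = (1 - (0:ℝ)) • Λ.pL i + (0:ℝ) • Λ.pR i := by
        rw [h]; simp
      have := par_inj hne this
      linarith
    · rw [ht] at h
      have : (1 - t) • Λ.pL i + t • Λ.pR i = (1 - (1:ℝ)) • Λ.pL i + (1:ℝ) • Λ.pR i := by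
        rw [h]; simp
      have := par_inj hne this
      linarith
  have hd2 : Disjoint (segment ℝ (Λ.z i j) (Λ.z i k)) R.FrameSet := Λ.sub_frame hi hsub
  have hc : Tendsto (fun s : ℝ => ((1 - s) • Λ.z i j + s • Λ.pL j,
      (1 - s) • Λ.z i k + s • Λ.pR k)) (𝓝[>] 0) (𝓝 (Λ.z i j, Λ.z i k)) := by
    have h0 : Tendsto (fun s : ℝ => ((1 - s) • Λ.z i j + s • Λ.pL j,
        (1 - s) • Λ.z i k + s • Λ.pR k)) (𝓝 0)
        (𝓝 ((1 - (0:ℝ)) • Λ.z i j + (0:ℝ) • Λ.pL j, (1 - (0:ℝ)) • Λ.z i k + (0:ℝ) • Λ.pR k)) := by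
      apply Continuous.tendsto
      fun_prop
    simp only [sub_zero, one_smul, zero_smul, add_zero] at h0
    exact h0.mono_left nhdsWithin_le_nhds
  have e1 := hc.eventually (eventually_disjoint hcl hd1)
  have e2 := hc.eventually (eventually_disjoint R.isClosed_FrameSet hd2)
  have e3 : ∀ᶠ s : ℝ in 𝓝[>] 0, 0 < s := eventually_mem_nhdsWithin
  have e4 : ∀ᶠ s : ℝ in 𝓝[>] 0, s < 1 := by
    have : ∀ᶠ s : ℝ in 𝓝 0, s < 1 := gt_mem_nhds (by norm_num)
    exact this.filter_mono nhdsWithin_le_nhds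
  obtain ⟨s, s1, s2, s3, s4⟩ := (e1.and (e2.and (e3.and e4))).exists
  set a := (1 - s) • Λ.z i j + s • Λ.pL j with ha
  set b := (1 - s) • Λ.z i k + s • Λ.pR k with hb
  simp only at s1 s2
  have ma : a ∈ Λ.M j := (convex_segment _ _).segment_subset (Λ.z_mem' hG hi hj hij)
    (left_mem_segment ℝ _ _) (mem_seg_iff.2 ⟨s, s3.le, s4.le, rfl⟩)
  have mb : b ∈ Λ.M k := (convex_segment _ _).segment_subset (Λ.z_mem' hG hi hk hik)
    (right_mem_segment ℝ _ _) (mem_seg_iff.2 ⟨s, s3.le, s4.le, rfl⟩)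
  have sub1 : segment ℝ (Λ.pL j) a ⊆ Λ.M j :=
    (convex_segment _ _).segment_subset (left_mem_segment ℝ _ _) ma
  have sub2 : segment ℝ b (Λ.pR k) ⊆ Λ.M k :=
    (convex_segment _ _).segment_subset mb (right_mem_segment ℝ _ _)
  have o1 : orient (Λ.pL i) (Λ.pR i) (Λ.z i j) = 0 := orient_eq_zero_of_mem hzj
  have o2 : orient (Λ.pL i) (Λ.pR i) (Λ.z i k) = 0 := orient_eq_zero_of_mem hzk
  have oa : orient (Λ.pL i) (Λ.pR i) a = s * oj := by rw [ha, orient_lineMap, o1]; ring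
  have ob : orient (Λ.pL i) (Λ.pR i) b = s * ok' := by rw [hb, orient_lineMap, o2]; ring
  have hside : ∀ w, w ∈ segment ℝ (Λ.pL j) a ∪ segment ℝ a b ∪ segment ℝ b (Λ.pR k) →
      orient (Λ.pL i) (Λ.pR i) w ≠ 0 := by
    intro w hw
    rcases mul_pos_iff.1 hab with ⟨h8, h9⟩ | ⟨h8, h9⟩
    · have op' : 0 < orient (Λ.pL i) (Λ.pR i) a := by rw [oa]; positivity
      have oq' : 0 < orient (Λ.pL i) (Λ.pR i) b := by rw [ob]; positivity
      rcases hw with (hw | hw) | hw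
      · exact (orient_pos_of_mem hw h8 op').ne'
      · exact (orient_pos_of_mem hw op' oq').ne'
      · exact (orient_pos_of_mem hw oq' h9).ne'
    · have op' : orient (Λ.pL i) (Λ.pR i) a < 0 := by rw [oa]; exact mul_neg_of_pos_of_neg s3 h8
      have oq' : orient (Λ.pL i) (Λ.pR i) b < 0 := by rw [ob]; exact mul_neg_of_pos_of_neg s3 h9
      rcases hw with (hw | hw) | hw
      · exact (orient_neg_of_mem hw h8 op').ne
      · exact (orient_neg_of_mem hw op' oq').ne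
      · exact (orient_neg_of_mem hw oq' h9).ne
  have hsM : ∀ w, w ∈ segment ℝ (Λ.pL j) a ∪ segment ℝ a b ∪ segment ℝ b (Λ.pR k) → w ∉ Λ.M i :=
    fun w hw hwM => hside w hw (orient_eq_zero_of_mem hwM)
  have hU := ((Λ.hLS j hj).seg (Λ.sub_frame hj sub1)).seg s2
  have hV := (Λ.hRS k hk).seg (Λ.sub_frame hk sub2)
  refine Λ.meetK hG hi hU hV (Λ.inv j hj k hk i hi hE) ?_ ?_
  · rw [Set.disjoint_union_left, Set.disjoint_union_left]
    refine ⟨⟨Λ.str_all hj hi (Ne.symm hij) Set.subset_union_left, ?_⟩, ?_⟩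
    · rw [Set.disjoint_union_right]
      exact ⟨Set.disjoint_left.2 fun w hw => hsM w (Or.inl (Or.inl hw)),
        Λ.part_strings hj hi (Ne.symm hij) sub1⟩
    · rw [Set.disjoint_union_right]
      exact ⟨Set.disjoint_left.2 fun w hw => hsM w (Or.inl (Or.inr hw)), s1⟩
  · rw [Set.disjoint_union_left]
    refine ⟨?_, Λ.str_all hk hi (Ne.symm hik) Set.subset_union_right⟩
    rw [Set.disjoint_union_right]
    exact ⟨Set.disjoint_left.2 fun w hw => hsM w (Or.inr hw),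
      Λ.part_strings hk hi (Ne.symm hik) sub2⟩

end Lam

end SegGirth
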