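import Mathlib
import Pool.Agent.Lib.MP_beb3fe_lc.Tubes

/-!
# From crossing segments to lines with increasing slopes
-/

namespace SegGirth

open Set

/-- cross product -/
def crs (v w : Pt) : ℝ := v.1 * w.2 - v.2 * w.1

lemma cpt_right {u v r s : Pt} (h : Proper u v r s) :
    (1 - par u v r s) • u + par u v r s • v = (1 - par r s u v) • r + par r s u v • s := by
  have h1 := h.symm
  have e : cpt u v r s = cpt r s u v := cpt_symm h
  exact e

/-- the side of the starting point of the other segment -/
lemma orient_start {u v r s : Pt} (h : Proper u v r s) :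
    orient u v r = - (par r s u v * crs (v - u) (s - r)) := by
  have e := cpt_right h
  have e1 := congrArg Prod.fst e
  have e2 := congrArg Prod.snd e
  simp only [Prod.fst_add, Prod.snd_add, Prod.smul_fst, Prod.smul_snd, smul_eq_mul] at e1 e2
  simp only [orient, crs, Prod.fst_sub, Prod.snd_sub]
  linear_combination (-(v.2 - u.2)) * (-e1) + (v.1 - u.1) * (-e2)

lemma crs_ne {u v r s : Pt} (h : Proper u v r s) : crs (v - u) (s - r) ≠ 0 := by
  intro h0
  have h1 := orient_start h
  rw [h0, mul_zero, neg_zero] at h1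
  have h2 := h.2
  rw [h1, zero_mul] at h2
  exact lt_irrefl _ h2

theorem realOrd_of_segments (n : ℕ) (hn : 3 ≤ n) (ord : ℕ → ℕ → ℕ) (a b : ℕ → Pt)
    (hP : ∀ i < n, ∀ j < n, i ≠ j → Proper (a i) (b i) (a j) (b j))
    (hord : ∀ i < n, ∀ j < n, ∀ k < n, i ≠ j → i ≠ k → ord i j < ord i k →
      par (a i) (b i) (a j) (b j) < par (a i) (b i) (a k) (b k))
    (hs : ∀ i < n, ∀ j < n, ∀ k < n, j ≠ k → Ext i j k →
      0 < orient (a i) (b i) (a j) * orient (a i) (b i) (a k)) : RealOrd n ord := by
  set d : ℕ → Pt := fun i => b i - a i with hd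
  set D : ℕ → ℕ → ℝ := fun i j => crs (d i) (d j) with hD
  have hDanti : ∀ i j, D i j = - D j i := by intro i j; simp only [hD, crs]; ring
  have hDne : ∀ i < n, ∀ j < n, i ≠ j → D i j ≠ 0 := fun i hi j hj hij => crs_ne (hP i hi j hj hij)
  -- same sign for the pairs at an extreme index
  have hE : ∀ i < n, ∀ j < n, ∀ k < n, j ≠ k → Ext i j k → 0 < D i j * D i k := by
    intro i hi j hj k hk hjk hEx
    have hij : i ≠ j := by unfold Ext at hEx; omega
    have hik : i ≠ k := by unfold Ext at hEx; omega
    have h1 := hs i hi j hj k hk hjk hEx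
    rw [orient_start (hP i hi j hj hij), orient_start (hP i hi k hk hik), neg_mul_neg] at h1
    have p1 := ((hP i hi j hj hij).symm.par_mem).1
    have p2 := ((hP i hi k hk hik).symm.par_mem).1
    have h2 : par (a j) (b j) (a i) (b i) * crs (b i - a i) (b j - a j) *
        (par (a k) (b k) (a i) (b i) * crs (b i - a i) (b k - a k)) =
        (par (a j) (b j) (a i) (b i) * par (a k) (b k) (a i) (b i)) * (D i j * D i k) := by
      simp only [hD, hd]; ring
    rw [h2] at h1
    exact (mul_pos_iff_of_pos_left (mul_pos p1 p2)).1 h1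
  -- all pairs have one sign
  obtain ⟨σ, hσ, hσD⟩ : ∃ σ : ℝ, (σ = 1 ∨ σ = -1) ∧ ∀ i j, i < j → j < n → 0 < σ * D i j := by
    obtain ⟨σ, hσ, h01⟩ : ∃ σ : ℝ, (σ = 1 ∨ σ = -1) ∧ 0 < σ * D 0 1 := by
      rcases lt_or_gt_of_ne (hDne 0 (by omega) 1 (by omega) (by omega)) with h | h
      · exact ⟨-1, Or.inr rfl, by linarith⟩
      · exact ⟨1, Or.inl rfl, by linarith⟩
    have hkeep : ∀ x y : ℝ, 0 < x * y → 0 < σ * x → 0 < σ * y := by
      intro x y hxy hx
      rcases hσ with rfl | rfl
      · rw [one_mul] at *
        exact (mul_pos_iff_of_pos_left hx).1 hxy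
      · have hx' : x < 0 := by linarith
        have : y < 0 := by
          by_contra hy
          push Not at hy
          nlinarith [mul_nonneg (neg_pos.2 hx').le hy]
        linarith
    have h0 : ∀ k, 1 ≤ k → k < n → 0 < σ * D 0 k := by
      intro k hk1 hk
      rcases Nat.lt_or_ge 1 k with h | h
      · exact hkeep _ _ (hE 0 (by omega) 1 (by omega) k hk (by omega) (by unfold Ext; omega)) h01
      · obtain rfl : k = 1 := by omega
        exact h01
    refine ⟨σ, hσ, fun i j hij hj => ?_⟩
    rcases Nat.eq_zero_or_pos i with h | h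
    · subst h; exact h0 j (by omega) hj
    · have h1 := hE j hj 0 (by omega) i (by omega) (by omega) (by unfold Ext; omega)
      rw [hDanti j 0, hDanti j i, neg_mul_neg] at h1
      exact hkeep _ _ h1 (h0 j (by omega) hj)
  -- the linear map
  set w : Pt := d 0 - d (n - 1) with hw
  set f : Pt → ℝ := fun v => σ * crs w v with hf
  set g : Pt → ℝ := fun v => -(w.1 * v.1 + w.2 * v.2) with hg
  have hfpos : ∀ j < n, 0 < f (d j) := by
    intro j hj
    have e : f (d j) = σ * D 0 j + σ * D j (n - 1) := by
      simp only [hf, hD, hw, crs, Prod.fst_sub, Prod.snd_sub]; ring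
    rw [e]
    have hself : ∀ i, D i i = 0 := by intro i; simp only [hD, crs]; ring
    rcases Nat.eq_zero_or_pos j with h | h
    · subst h
      rw [hself, mul_zero, zero_add]
      exact hσD 0 (n - 1) (by omega) (by omega)
    · rcases Nat.lt_or_ge j (n - 1) with h' | h'
      · exact add_pos (hσD 0 j h hj) (hσD j (n - 1) h' (by omega))
      · obtain rfl : j = n - 1 := by omega
        rw [hself, mul_zero, add_zero]
        exact hσD 0 (n - 1) h (by omega)
  have hw0 : 0 < w.1 ^ 2 + w.2 ^ 2 := by
    by_contra hcon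
    have e1 : w.1 = 0 := by nlinarith [sq_nonneg w.1, sq_nonneg w.2]
    have e2 : w.2 = 0 := by nlinarith [sq_nonneg w.1, sq_nonneg w.2]
    have := hfpos 0 (by omega)
    simp only [hf, crs, e1, e2] at this
    simp at this
  have hdet : ∀ i j, f (d i) * g (d j) - g (d i) * f (d j) =
      (w.1 ^ 2 + w.2 ^ 2) * (σ * D i j) := by
    intro i j
    simp only [hf, hg, hD, crs]; ring
  have hfadd : ∀ (t : ℝ) (p q : Pt), f ((1 - t) • p + t • q) = f p + t * f (q - p) := by
    intro t p q
    simp only [hf, crs, Prod.fst_add, Prod.snd_add, Prod.smul_fst, Prod.smul_snd, smul_eq_mul,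
      Prod.fst_sub, Prod.snd_sub]; ring
  have hgadd : ∀ (t : ℝ) (p q : Pt), g ((1 - t) • p + t • q) = g p + t * g (q - p) := by
    intro t p q
    simp only [hg, Prod.fst_add, Prod.snd_add, Prod.smul_fst, Prod.smul_snd, smul_eq_mul,
      Prod.fst_sub, Prod.snd_sub]; ring
  have hslope : ∀ i j, i < j → j < n → g (d i) / f (d i) < g (d j) / f (d j) := by
    intro i j hij hj
    have h1 := hfpos i (by omega)
    have h2 := hfpos j hj
    rw [div_lt_div_iff₀ h1 h2]
    have h3 := hdet i j
    have h4 := mul_pos hw0 (hσD i j hij hj)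
    nlinarith
  -- abscissa of the crossing
  have habs : ∀ i < n, ∀ j < n, i ≠ j →
      ((g (a j) - g (d j) / f (d j) * f (a j)) - (g (a i) - g (d i) / f (d i) * f (a i))) /
        (g (d i) / f (d i) - g (d j) / f (d j)) =
      f (a i) + par (a i) (b i) (a j) (b j) * f (d i) := by
    intro i hi j hj hij
    have h1 := hfpos i hi
    have h2 := hfpos j hj
    have hne : g (d i) / f (d i) - g (d j) / f (d j) ≠ 0 := by
      rcases Nat.lt_or_ge i j with h | h
      · have := hslope i j h hj; intro h0; linarith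
      · have := hslope j i (by omega) hi; intro h0; linarith
    rw [div_eq_iff hne]
    have e := cpt_right (hP i hi j hj hij)
    have ef := congrArg f e
    have eg := congrArg g e
    rw [hfadd, hfadd] at ef
    rw [hgadd, hgadd] at eg
    have ef' : f (a i) + par (a i) (b i) (a j) (b j) * f (d i) =
      f (a j) + par (a j) (b j) (a i) (b i) * f (d j) := ef
    have eg' : g (a i) + par (a i) (b i) (a j) (b j) * g (d i) =
      g (a j) + par (a j) (b j) (a i) (b i) * g (d j) := eg
    have k1 : (f (a i) + par (a i) (b i) (a j) (b j) * f (d i)) * (g (d i) / f (d i)) =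
        f (a i) * (g (d i) / f (d i)) + par (a i) (b i) (a j) (b j) * g (d i) := by
      field_simp
    have k2 : (f (a j) + par (a j) (b j) (a i) (b i) * f (d j)) * (g (d j) / f (d j)) =
        f (a j) * (g (d j) / f (d j)) + par (a j) (b j) (a i) (b i) * g (d j) := by
      field_simp
    rw [mul_sub, k1, ef', k2]
    linarith
  refine ⟨fun i => g (d i) / f (d i), fun i => g (a i) - g (d i) / f (d i) * f (a i),
    fun i j hij hj => hslope i j hij hj, ?_⟩
  intro i hi j hj k hk hij hik ho
  rw [habs i hi j hj hij, habs i hi k hk hik]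
  have h1 := hord i hi j hj k hk hij hik ho
  have h2 := hfpos i hi
  have := mul_lt_mul_of_pos_right h1 h2
  linarith

end SegGirth
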