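import Mathlib
import Pool.Agent.Lib.MP_beb3fe_lc.Basic

/-!
# A simple closed polygon all of whose turns are left turns is convex

Start at the lexicographically lowest vertex `p 0`.  By induction every vertex lies strictly to
the left of all earlier edges (`later_left`): otherwise the last edge leaves the convex region to
the left of the previous edges, and it leaves it through one of them.  Then the closing edge shows
that `p 0` lies to the left of all edges, and moving along the edges this is inherited by all
vertices.
-/

namespace SegGirth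

/-- first exit time of a family of affine functions, positive at time `0`, one of which is
nonpositive at time `1` -/
lemma exit_time (C : Finset ℕ) (f g : ℕ → ℝ) (hf : ∀ c ∈ C, 0 < f c) (hg : ∃ c ∈ C, g c ≤ 0) :
    ∃ s : ℝ, 0 < s ∧ s ≤ 1 ∧ (∃ c ∈ C, (1 - s) * f c + s * g c = 0) ∧
      ∀ c ∈ C, 0 ≤ (1 - s) * f c + s * g c := by
  classical
  obtain ⟨c0, hc0, hg0⟩ := hg
  have hne : (C.filter (fun c => g c ≤ 0)).Nonempty := ⟨c0, by simp [hc0, hg0]⟩
  obtain ⟨c, hc, hmin⟩ := Finset.exists_min_image _ (fun c => f c / (f c - g c)) hne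
  rw [Finset.mem_filter] at hc
  have hfc := hf c hc.1
  have hden : 0 < f c - g c := by linarith [hc.2]
  refine ⟨f c / (f c - g c), by positivity, ?_, ⟨c, hc.1, ?_⟩, ?_⟩
  · rw [div_le_one hden]
    linarith [hc.2]
  · field_simp
    ring
  · intro c' hc'
    have hfc' := hf c' hc'
    have hs0 : 0 < f c / (f c - g c) := by positivity
    have hs1 : f c / (f c - g c) ≤ 1 := by
      rw [div_le_one hden]
      linarith [hc.2]
    by_cases h : g c' ≤ 0
    · have hden' : 0 < f c' - g c' := by linarith
      have h1 := hmin c' (by simp [hc', h])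
      rw [le_div_iff₀ hden'] at h1
      linarith
    · push Not at h
      have h1 : 0 ≤ (1 - f c / (f c - g c)) * f c' :=
        mul_nonneg (by linarith) hfc'.le
      have h2 : 0 ≤ f c / (f c - g c) * g c' := mul_nonneg hs0.le h.le
      linarith

/-- a point of the line `b c` that lies weakly to the left of the neighbouring edges `a b` and
`c d` of a left turning path lies on the edge `b c` -/
lemma tight_mem (a b c d x : Pt) (h1 : 0 < orient a b c) (h2 : 0 < orient b c d)
    (h0 : orient b c x = 0) (ha : 0 ≤ orient a b x) (hd : 0 ≤ orient c d x) :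
    x ∈ segment ℝ b c := by
  have hne : 0 < (c.1 - b.1) ^ 2 + (c.2 - b.2) ^ 2 := by
    by_contra hcon
    have e1 : c.1 - b.1 = 0 := by nlinarith [sq_nonneg (c.1 - b.1), sq_nonneg (c.2 - b.2)]
    have e2 : c.2 - b.2 = 0 := by nlinarith [sq_nonneg (c.1 - b.1), sq_nonneg (c.2 - b.2)]
    simp only [orient, e1, e2] at h2
    simp at h2
  set n := (c.1 - b.1) ^ 2 + (c.2 - b.2) ^ 2 with hn
  set t := ((x.1 - b.1) * (c.1 - b.1) + (x.2 - b.2) * (c.2 - b.2)) / n with ht
  have htn : t * n = (x.1 - b.1) * (c.1 - b.1) + (x.2 - b.2) * (c.2 - b.2) := by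
    rw [ht]
    field_simp
  have h0' : (c.1 - b.1) * (x.2 - b.2) - (c.2 - b.2) * (x.1 - b.1) = 0 := h0
  have hx1 : x.1 = (1 - t) * b.1 + t * c.1 := by
    have : n * (x.1 - ((1 - t) * b.1 + t * c.1)) = 0 := by
      rw [hn] at htn ⊢
      linear_combination (- (c.2 - b.2)) * h0' - (c.1 - b.1) * htn
    rcases mul_eq_zero.mp this with h | h
    · exact absurd h hne.ne'
    · linarith
  have hx2 : x.2 = (1 - t) * b.2 + t * c.2 := by
    have : n * (x.2 - ((1 - t) * b.2 + t * c.2)) = 0 := by
      rw [hn] at htn ⊢
      linear_combination (c.1 - b.1) * h0' - (c.2 - b.2) * htn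
    rcases mul_eq_zero.mp this with h | h
    · exact absurd h hne.ne'
    · linarith
  have hx : x = (1 - t) • b + t • c := by
    ext
    · simpa using hx1
    · simpa using hx2
  have ht0 : 0 ≤ t := by
    rw [hx, orient_lineMap, orient_self_right] at ha
    by_contra hcon
    push Not at hcon
    nlinarith
  have ht1 : t ≤ 1 := by
    rw [hx, orient_lineMap, orient_self_mid] at hd
    have : orient c d b = orient b c d := by simp only [orient]; ring
    rw [this] at hd
    by_contra hcon
    push Not at hcon
    nlinarith
  exact ⟨1 - t, t, by linarith, ht0, by ring, hx.symm⟩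

/-- lexicographic order: `q` is not lower than `p` -/
def LexLe (p q : Pt) : Prop := p.2 < q.2 ∨ (p.2 = q.2 ∧ p.1 ≤ q.1)

lemma LexLe.lineMap {p q r : Pt} (hq : LexLe p q) (hr : LexLe p r) {s : ℝ} (h0 : 0 ≤ s)
    (h1 : s ≤ 1) : LexLe p ((1 - s) • q + s • r) := by
  simp only [LexLe, Prod.fst_add, Prod.snd_add, Prod.smul_fst, Prod.smul_snd, smul_eq_mul] at *
  have h1' : 0 ≤ 1 - s := by linarith
  rcases h1'.eq_or_lt with hs1 | hs1
  · have : s = 1 := by linarith
    subst this
    simpa using hr
  rcases h0.eq_or_lt with hs0 | hs0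
  · subst hs0
    simpa using hq
  rcases hq with hq | ⟨hq, hq'⟩
  · left
    have : p.2 ≤ r.2 := by
      rcases hr with hr | hr
      · exact hr.le
      · exact hr.1.le
    nlinarith
  · rcases hr with hr | ⟨hr, hr'⟩
    · left
      nlinarith
    · right
      constructor
      · rw [← hq, ← hr]; ring
      · nlinarith

lemma exists_lexMin (m : ℕ) (hm : 0 < m) (p : ℕ → Pt) : ∃ k < m, ∀ l < m, LexLe (p k) (p l) := by
  classical
  obtain ⟨k1, hk1, hmin1⟩ := Finset.exists_min_image (Finset.range m) (fun l => (p l).2)
    ⟨0, by simpa using hm⟩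
  have hne : ((Finset.range m).filter (fun l => (p l).2 = (p k1).2)).Nonempty :=
    ⟨k1, by simp [Finset.mem_range.mp hk1]⟩
  obtain ⟨k, hk, hmin⟩ := Finset.exists_min_image _ (fun l => (p l).1) hne
  rw [Finset.mem_filter, Finset.mem_range] at hk
  refine ⟨k, hk.1, fun l hl => ?_⟩
  have h1 := hmin1 l (Finset.mem_range.mpr hl)
  rcases h1.eq_or_lt with h | h
  · right
    refine ⟨by rw [hk.2, h], hmin l ?_⟩
    simp [hl, h]
  · left
    rw [hk.2]
    exact h

section

variable (m : ℕ) (hm : 3 ≤ m) (p : ℕ → Pt) (hper : ∀ l, p (l + m) = p l)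
  (hturn : ∀ l, 0 < orient (p l) (p (l + 1)) (p (l + 2)))
  (hsimple : ∀ a d, 2 ≤ d → d + 2 ≤ m →
    Disjoint (segment ℝ (p a) (p (a + 1))) (segment ℝ (p (a + d)) (p (a + d + 1))))

include hm hturn hsimple in
/-- every vertex is strictly to the left of the earlier edges -/
lemma later_left (hlex : ∀ l, LexLe (p 0) (p l)) :
    ∀ k, k + 1 ≤ m → ∀ c, c + 2 ≤ k → 0 < orient (p c) (p (c + 1)) (p k) := by
  intro k
  induction k with
  | zero => intro _ c hc; omega
  | succ k ih =>
    intro hk c hc
    have ih := ih (by omega)
    rcases Nat.lt_or_ge (c + 1) k with hck | hck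
    swap
    · have : k = c + 1 := by omega
      subst this
      exact hturn c
    by_contra hcon
    push Not at hcon
    obtain ⟨s, hs0, hs1, ⟨e, he, htight⟩, hall⟩ := exit_time (Finset.range (k - 1))
      (fun c => orient (p c) (p (c + 1)) (p k)) (fun c => orient (p c) (p (c + 1)) (p (k + 1)))
      (fun c hc => ih c (by rw [Finset.mem_range] at hc; omega))
      ⟨c, by rw [Finset.mem_range]; omega, hcon⟩
    rw [Finset.mem_range] at he
    simp only [← orient_lineMap] at htight hall
    set x : Pt := (1 - s) • p k + s • p (k + 1) with hx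
    have hxk : x ∈ segment ℝ (p k) (p (k + 1)) :=
      ⟨1 - s, s, by linarith, hs0.le, by ring, rfl⟩
    have hall' : ∀ c, c < k → 0 ≤ orient (p c) (p (c + 1)) x := by
      intro c hc
      rcases Nat.lt_or_ge c (k - 1) with h | h
      · exact hall c (by rwa [Finset.mem_range])
      · obtain rfl : c = k - 1 := by omega
        have h1 : k - 1 + 1 = k := by omega
        rw [h1, hx, orient_lineMap, orient_self_right]
        have h2 := hturn (k - 1)
        rw [show k - 1 + 2 = k + 1 by omega, h1] at h2
        have : 0 ≤ s * orient (p (k - 1)) (p k) (p (k + 1)) := mul_nonneg hs0.le h2.le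
        linarith
    have hxe : x ∈ segment ℝ (p e) (p (e + 1)) := by
      rcases Nat.eq_zero_or_pos e with h0 | h0
      · subst h0
        -- the first edge: use that `p 0` is the lowest vertex
        have hxlex : LexLe (p 0) x := (hlex k).lineMap (hlex (k + 1)) hs0.le hs1
        have h1 := hall' 1 (by omega)
        have ht := hturn 0
        simp only [Nat.zero_add] at htight ht ⊢
        -- an artificial previous vertex
        by_cases hcase : (p 1).2 = (p 0).2
        · -- horizontal edge
          have hp1 : (p 0).1 < (p 1).1 := by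
            rcases hlex 1 with h | h
            · exact absurd hcase h.ne'
            · refine lt_of_le_of_ne h.2 fun h3 => ?_
              have : p 0 = p 1 := Prod.ext h3 hcase.symm
              rw [this] at ht
              simp [orient] at ht
          refine tight_mem ((p 0).1, (p 0).2 + 1) (p 0) (p 1) (p 2) x ?_ ht htight ?_ h1
          · simp only [orient]
            rw [hcase]
            nlinarith
          · have hx2 : x.2 = (p 0).2 := by
              simp only [orient] at htight
              rw [hcase] at htight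
              have : ((p 1).1 - (p 0).1) * (x.2 - (p 0).2) = 0 := by linarith
              rcases mul_eq_zero.mp this with h | h
              · linarith
              · linarith
            have hx1 : (p 0).1 ≤ x.1 := by
              rcases hxlex with h | h
              · exact absurd hx2 h.ne'
              · exact h.2
            simp only [orient]
            nlinarith
        · have hp1 : (p 0).2 < (p 1).2 := by
            rcases hlex 1 with h | h
            · exact h
            · exact absurd h.1.symm hcase
          refine tight_mem ((p 0).1 - 1, (p 0).2) (p 0) (p 1) (p 2) x ?_ ht htight ?_ h1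
          · simp only [orient]
            nlinarith
          · have hx2 : (p 0).2 ≤ x.2 := by
              rcases hxlex with h | h
              · exact h.le
              · exact h.1.le
            simp only [orient]
            nlinarith
      · have h1 := hall' (e - 1) (by omega)
        have h2 := hall' (e + 1) (by omega)
        have h3 := hturn (e - 1)
        have h4 := hturn e
        rw [show e - 1 + 1 = e by omega] at h1 h3
        rw [show e - 1 + 2 = e + 1 by omega] at h3
        exact tight_mem (p (e - 1)) (p e) (p (e + 1)) (p (e + 2)) x h3 h4 htight h1 h2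
    have hd := hsimple e (k - e) (by omega) (by omega)
    rw [show e + (k - e) = k by omega] at hd
    exact Set.disjoint_left.mp hd hxe hxk

include hm hper hturn hsimple in
/-- the lowest vertex is strictly to the left of all edges not incident with it -/
lemma lowest_left (hlex : ∀ l, LexLe (p 0) (p l)) :
    ∀ d, 1 ≤ d → d + 2 ≤ m → 0 < orient (p d) (p (d + 1)) (p 0) := by
  intro d hd1 hd2
  have hA := later_left m hm p hturn hsimple hlex
  have hp0 : p m = p 0 := by simpa using hper 0
  have hlast : 0 < orient (p (m - 2)) (p (m - 1)) (p 0) := by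
    have h := hturn (m - 2)
    rw [show m - 2 + 1 = m - 1 by omega, show m - 2 + 2 = m by omega, hp0] at h
    exact h
  rcases Nat.lt_or_ge d (m - 2) with hd | hd
  swap
  · obtain rfl : d = m - 2 := by omega
    rw [show m - 2 + 1 = m - 1 by omega]
    exact hlast
  by_contra hcon
  push Not at hcon
  obtain ⟨s, hs0, hs1, ⟨e, he, htight⟩, hall⟩ := exit_time (Finset.Icc 1 (m - 3))
    (fun c => orient (p c) (p (c + 1)) (p (m - 1))) (fun c => orient (p c) (p (c + 1)) (p 0))
    (fun c hc => hA (m - 1) (by omega) c (by rw [Finset.mem_Icc] at hc; omega))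
    ⟨d, by rw [Finset.mem_Icc]; omega, hcon⟩
  rw [Finset.mem_Icc] at he
  simp only [← orient_lineMap] at htight hall
  set x : Pt := (1 - s) • p (m - 1) + s • p 0 with hx
  have hxk : x ∈ segment ℝ (p (m - 1)) (p (m - 1 + 1)) := by
    rw [show m - 1 + 1 = m by omega, hp0]
    exact ⟨1 - s, s, by linarith, hs0.le, by ring, rfl⟩
  have hall' : ∀ c, c < m - 1 → 0 ≤ orient (p c) (p (c + 1)) x := by
    intro c hc
    rcases Nat.eq_zero_or_pos c with h0 | h0
    · subst h0
      rw [hx, orient_lineMap, orient_self_mid]
      have h1 := hA (m - 1) (by omega) 0 (by omega)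
      have : 0 ≤ (1 - s) * orient (p 0) (p (0 + 1)) (p (m - 1)) :=
        mul_nonneg (by linarith) h1.le
      linarith
    rcases Nat.lt_or_ge c (m - 2) with h | h
    · exact hall c (by rw [Finset.mem_Icc]; omega)
    · obtain rfl : c = m - 2 := by omega
      rw [show m - 2 + 1 = m - 1 by omega, hx, orient_lineMap, orient_self_right]
      have : 0 ≤ s * orient (p (m - 2)) (p (m - 1)) (p 0) := mul_nonneg hs0.le hlast.le
      linarith
  have hxe : x ∈ segment ℝ (p e) (p (e + 1)) := by
    have h1 := hall' (e - 1) (by omega)
    have h2 := hall' (e + 1) (by omega)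
    have h3 := hturn (e - 1)
    have h4 := hturn e
    rw [show e - 1 + 1 = e by omega] at h1 h3
    rw [show e - 1 + 2 = e + 1 by omega] at h3
    exact tight_mem (p (e - 1)) (p e) (p (e + 1)) (p (e + 2)) x h3 h4 htight h1 h2
  have hd' := hsimple e (m - 1 - e) (by omega) (by omega)
  rw [show e + (m - 1 - e) = m - 1 by omega] at hd'
  exact Set.disjoint_left.mp hd' hxe hxk

include hm hper hturn hsimple in
/-- being to the left of all edges is inherited by the next vertex -/
lemma next_left (j : ℕ)
    (hj : ∀ d, 1 ≤ d → d + 2 ≤ m → 0 < orient (p (j + d)) (p (j + d + 1)) (p j)) :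
    ∀ d, 1 ≤ d → d + 2 ≤ m → 0 < orient (p (j + 1 + d)) (p (j + 1 + d + 1)) (p (j + 1)) := by
  -- the statement for the edges `j + d` with `2 ≤ d ≤ m - 2`
  have hlast : 0 < orient (p (j + (m - 1))) (p (j + (m - 1) + 1)) (p (j + 1)) := by
    have h := hturn (j + (m - 1))
    rw [show j + (m - 1) + 2 = j + 1 + m by omega, hper] at h
    exact h
  have hjm : p (j + (m - 1) + 1) = p j := by
    rw [show j + (m - 1) + 1 = j + m by omega, hper]
  have key : ∀ d, 2 ≤ d → d + 2 ≤ m → 0 < orient (p (j + d)) (p (j + d + 1)) (p (j + 1)) := by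
    intro d hd1 hd2
    by_contra hcon
    push Not at hcon
    obtain ⟨s, hs0, hs1, ⟨e, he, htight⟩, hall⟩ := exit_time (Finset.Icc 2 (m - 2))
      (fun c => orient (p (j + c)) (p (j + c + 1)) (p j))
      (fun c => orient (p (j + c)) (p (j + c + 1)) (p (j + 1)))
      (fun c hc => hj c (by rw [Finset.mem_Icc] at hc; omega)
        (by rw [Finset.mem_Icc] at hc; omega))
      ⟨d, by rw [Finset.mem_Icc]; omega, hcon⟩
    rw [Finset.mem_Icc] at he
    simp only [← orient_lineMap] at htight hall
    set x : Pt := (1 - s) • p j + s • p (j + 1) with hx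
    have hxk : x ∈ segment ℝ (p j) (p (j + 1)) :=
      ⟨1 - s, s, by linarith, hs0.le, by ring, rfl⟩
    have hall' : ∀ c, 1 ≤ c → c < m → 0 ≤ orient (p (j + c)) (p (j + c + 1)) x := by
      intro c hc hcm
      rcases Nat.lt_or_ge c 2 with h0 | h0
      · obtain rfl : c = 1 := by omega
        rw [hx, orient_lineMap, orient_self_mid]
        have h1 := hj 1 le_rfl (by omega)
        have : 0 ≤ (1 - s) * orient (p (j + 1)) (p (j + 1 + 1)) (p j) :=
          mul_nonneg (by linarith) h1.le
        linarith
      rcases Nat.lt_or_ge c (m - 1) with h | h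
      · exact hall c (by rw [Finset.mem_Icc]; omega)
      · obtain rfl : c = m - 1 := by omega
        rw [hx, orient_lineMap]
        have h3 : orient (p (j + (m - 1))) (p (j + (m - 1) + 1)) (p j) = 0 := by
          rw [hjm, orient_self_right]
        rw [h3]
        have : 0 ≤ s * orient (p (j + (m - 1))) (p (j + (m - 1) + 1)) (p (j + 1)) :=
          mul_nonneg hs0.le hlast.le
        linarith
    have hxe : x ∈ segment ℝ (p (j + e)) (p (j + e + 1)) := by
      have h1 := hall' (e - 1) (by omega) (by omega)
      have h2 := hall' (e + 1) (by omega) (by omega)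
      have h3 := hturn (j + (e - 1))
      have h4 := hturn (j + e)
      rw [show j + (e - 1) + 1 = j + e by omega] at h1 h3
      rw [show j + (e - 1) + 2 = j + e + 1 by omega] at h3
      rw [show j + (e + 1) = j + e + 1 by omega, show j + e + 1 + 1 = j + e + 2 by omega] at h2
      exact tight_mem (p (j + (e - 1))) (p (j + e)) (p (j + e + 1)) (p (j + e + 2)) x h3 h4
        htight h1 h2
    have hd' := hsimple j e (by omega) (by omega)
    exact Set.disjoint_left.mp hd' hxk hxe
  intro d hd1 hd2
  rcases Nat.lt_or_ge (d + 2) m with h | h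
  · have := key (d + 1) (by omega) (by omega)
    rw [show j + (d + 1) = j + 1 + d by omega] at this
    exact this
  · have h2 : j + 1 + d = j + (m - 1) := by omega
    rw [h2]
    exact hlast

end

/-- A simple closed polygon all of whose turns are left turns is convex. -/
theorem convex_polygon (m : ℕ) (hm : 3 ≤ m) (p : ℕ → Pt) (hper : ∀ l, p (l + m) = p l)
    (hturn : ∀ l, 0 < orient (p l) (p (l + 1)) (p (l + 2)))
    (hsimple : ∀ i j, i + 1 < j → j < m → (i = 0 → j + 1 < m) →
      Disjoint (segment ℝ (p i) (p (i + 1))) (segment ℝ (p j) (p (j + 1)))) :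
    ∀ l j, 0 ≤ orient (p l) (p (l + 1)) (p j) := by
  have hperk : ∀ k l, p (l + m * k) = p l := by
    intro k
    induction k with
    | zero => intro l; simp
    | succ k ih =>
      intro l
      rw [Nat.mul_succ, ← Nat.add_assoc, hper, ih]
  have hmod : ∀ l, p l = p (l % m) := by
    intro l
    conv_lhs => rw [← Nat.mod_add_div l m]
    rw [hperk]
  have hmod1 : ∀ l, p (l + 1) = p (l % m + 1) := by
    intro l
    conv_lhs => rw [← Nat.mod_add_div l m]
    rw [show l % m + m * (l / m) + 1 = l % m + 1 + m * (l / m) by ring, hperk]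
  -- cyclic form of simplicity
  have hcyc : ∀ a d, 2 ≤ d → d + 2 ≤ m →
      Disjoint (segment ℝ (p a) (p (a + 1))) (segment ℝ (p (a + d)) (p (a + d + 1))) := by
    intro a d hd1 hd2
    rw [hmod a, hmod1 a, hmod (a + d), hmod1 (a + d)]
    have ha : a % m < m := Nat.mod_lt _ (by omega)
    rcases Nat.lt_or_ge (a % m + d) m with h | h
    · have : (a + d) % m = a % m + d := by
        rw [Nat.add_mod, Nat.mod_eq_of_lt (show d < m by omega), Nat.mod_eq_of_lt h]
      rw [this]
      exact hsimple _ _ (by omega) h (by omega)
    · have : (a + d) % m = a % m + d - m := by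
        rw [Nat.add_mod, Nat.mod_eq_of_lt (show d < m by omega), Nat.mod_eq_sub_mod h,
          Nat.mod_eq_of_lt (by omega)]
      rw [this]
      exact (hsimple _ _ (by omega) ha (by omega)).symm
  obtain ⟨k, hk, hmin⟩ := exists_lexMin m (by omega) p
  -- rotate the polygon
  have hlexq : ∀ l, LexLe (p (0 + k)) (p (l + k)) := by
    intro l
    rw [Nat.zero_add, hmod (l + k)]
    exact hmin _ (Nat.mod_lt _ (by omega))
  have hq : ∀ j d, 1 ≤ d → d + 2 ≤ m →
      0 < orient (p (j + d + k)) (p (j + d + 1 + k)) (p (j + k)) := by
    have hperq : ∀ l, p (l + m + k) = p (l + k) := by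
      intro l
      rw [show l + m + k = l + k + m by ring, hper]
    have hturnq : ∀ l, 0 < orient (p (l + k)) (p (l + 1 + k)) (p (l + 2 + k)) := by
      intro l
      have := hturn (l + k)
      rw [show l + k + 1 = l + 1 + k by ring, show l + k + 2 = l + 2 + k by ring] at this
      exact this
    have hcycq : ∀ a d, 2 ≤ d → d + 2 ≤ m → Disjoint (segment ℝ (p (a + k)) (p (a + 1 + k)))
        (segment ℝ (p (a + d + k)) (p (a + d + 1 + k))) := by
      intro a d h1 h2
      have := hcyc (a + k) d h1 h2
      rw [show a + k + 1 = a + 1 + k by ring, show a + k + d = a + d + k by ring,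
        show a + d + k + 1 = a + d + 1 + k by ring] at this
      exact this
    intro j
    induction j with
    | zero =>
      intro d h1 h2
      have := lowest_left m hm (fun l => p (l + k)) hperq hturnq hcycq hlexq d h1 h2
      simpa using this
    | succ j ih =>
      exact next_left m hm (fun l => p (l + k)) hperq hturnq hcycq j ih
  -- conclude
  intro l j
  -- choose representatives beyond `k`
  have hjk : k ≤ m * k := Nat.le_mul_of_pos_left _ (by omega)
  have hj : p j = p ((j + (m * k - k)) + k) := by
    rw [show j + (m * k - k) + k = j + m * k by omega, hperk]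
  set j' := j + (m * k - k) with hj'
  -- the difference of `l` and `j' + k` modulo `m`
  obtain ⟨d, hd, hdl⟩ : ∃ d, d < m ∧ (j' + d + k) % m = l % m := by
    refine ⟨(l + m * (j' + k) - (j' + k)) % m, Nat.mod_lt _ (by omega), ?_⟩
    have hle : j' + k ≤ m * (j' + k) := Nat.le_mul_of_pos_left _ (by omega)
    rw [show j' + (l + m * (j' + k) - (j' + k)) % m + k
      = (l + m * (j' + k) - (j' + k)) % m + (j' + k) by ring, Nat.mod_add_mod,
      show l + m * (j' + k) - (j' + k) + (j' + k) = l + m * (j' + k) by omega]
    simp
  have hl1 : p l = p (j' + d + k) := by rw [hmod l, ← hdl, ← hmod]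
  have hl2 : p (l + 1) = p (j' + d + 1 + k) := by
    rw [hmod1 l, ← hdl, ← hmod1]
    congr 1
    ring
  rw [hl1, hl2, hj]
  rcases Nat.eq_zero_or_pos d with h0 | h0
  · subst h0
    rw [Nat.add_zero, orient_self_mid]
  rcases Nat.lt_or_ge (d + 1) m with h | h
  · exact (hq j' d h0 (by omega)).le
  · have : p (j' + d + 1 + k) = p (j' + k) := by
      rw [show j' + d + 1 + k = j' + k + m by omega, hper]
    rw [this, orient_self_right]

end SegGirth
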