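import Mathlib
import Pool.Agent.Lib.MP_beb3fe_lc.Convex
import Pool.Agent.Lib.MP_beb3fe_lc.Paths

/-!
# Convex polygonal regions
-/

namespace SegGirth

open Filter Topology Set

/-- reflection -/
def refl' (p : Pt) : Pt := (p.1, - p.2)

lemma orient_refl (p q r : Pt) : orient (refl' p) (refl' q) (refl' r) = - orient p q r := by
  simp only [orient, refl']; ring

lemma refl_refl (p : Pt) : refl' (refl' p) = p := by simp [refl']

lemma refl_mem_seg {p q x : Pt} (h : x ∈ segment ℝ (refl' p) (refl' q)) :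
    refl' x ∈ segment ℝ p q := by
  obtain ⟨t, h0, h1, rfl⟩ := mem_seg_iff.1 h
  refine mem_seg_iff.2 ⟨t, h0, h1, ?_⟩
  ext <;> simp [refl']
  ring

/-- a strictly turning closed polygon with all vertices on the correct side of all edges -/
structure Poly (m : ℕ) (σ : ℝ) (p : ℕ → Pt) : Prop where
  hm : 3 ≤ m
  hσ : σ = 1 ∨ σ = -1
  per : ∀ l, p (l + m) = p l
  turn : ∀ l, 0 < σ * orient (p l) (p (l + 1)) (p (l + 2))
  conv : ∀ l j, 0 ≤ σ * orient (p l) (p (l + 1)) (p j)

theorem poly_of_simple (m : ℕ) (hm : 3 ≤ m) (σ : ℝ) (hσ : σ = 1 ∨ σ = -1) (p : ℕ → Pt)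
    (hper : ∀ l, p (l + m) = p l)
    (hturn : ∀ l, 0 < σ * orient (p l) (p (l + 1)) (p (l + 2)))
    (hsimple : ∀ i j, i + 1 < j → j < m → (i = 0 → j + 1 < m) →
      Disjoint (segment ℝ (p i) (p (i + 1))) (segment ℝ (p j) (p (j + 1)))) : Poly m σ p := by
  refine ⟨hm, hσ, hper, hturn, ?_⟩
  rcases hσ with rfl | rfl
  · intro l j
    rw [one_mul]
    exact convex_polygon m hm p hper (fun l => by simpa using hturn l) hsimple l j
  · intro l j
    have := convex_polygon m hm (fun l => refl' (p l)) (fun l => by simp only [hper])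
      (fun l => by
        simp only [orient_refl]
        simpa using hturn l) ?_ l j
    · simp only [orient_refl] at this
      linarith
    · intro i j h1 h2 h3
      rw [Set.disjoint_left]
      intro x hx hx'
      exact Set.disjoint_left.1 (hsimple i j h1 h2 h3) (refl_mem_seg hx) (refl_mem_seg hx')

/-- the closed region of a polygon -/
def Reg (σ : ℝ) (p : ℕ → Pt) : Set Pt := {x | ∀ l, 0 ≤ σ * orient (p l) (p (l + 1)) x}

/-- the boundary polygon -/
def Bd (p : ℕ → Pt) : Set Pt := {x | ∃ l, x ∈ segment ℝ (p l) (p (l + 1))}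

namespace Poly

variable {m : ℕ} {σ : ℝ} {p : ℕ → Pt}

lemma per_mul (h : Poly m σ p) (k l : ℕ) : p (l + m * k) = p l := by
  induction k with
  | zero => simp
  | succ k ih => rw [Nat.mul_succ, ← Nat.add_assoc, h.per, ih]

lemma per_mod (h : Poly m σ p) (l : ℕ) : p (l % m) = p l := by
  have := h.per_mul (l / m) (l % m)
  rw [Nat.mod_add_div] at this
  exact this.symm

lemma per_mod1 (h : Poly m σ p) (l : ℕ) : p (l % m + 1) = p (l + 1) := by
  have := h.per_mul (l / m) (l % m + 1)
  rw [show l % m + 1 + m * (l / m) = (l % m + m * (l / m)) + 1 by ring, Nat.mod_add_div] at this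
  exact this.symm

lemma vertex_mem (h : Poly m σ p) (j : ℕ) : p j ∈ Reg σ p := fun l => h.conv l j

lemma convex (_h : Poly m σ p) : Convex ℝ (Reg σ p) := by
  rw [convex_iff_segment_subset]
  intro x hx y hy z hz l
  obtain ⟨t, h0, h1, rfl⟩ := mem_seg_iff.1 hz
  rw [orient_lineMap]
  have h2 := hx l
  have h3 := hy l
  have : σ * ((1 - t) * orient (p l) (p (l + 1)) x + t * orient (p l) (p (l + 1)) y) =
    (1 - t) * (σ * orient (p l) (p (l + 1)) x) + t * (σ * orient (p l) (p (l + 1)) y) := by ring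
  rw [this]
  have := mul_nonneg (by linarith : (0:ℝ) ≤ 1 - t) h2
  have := mul_nonneg h0 h3
  linarith

lemma mem_of_tight (h : Poly m σ p) {l : ℕ} {x : Pt} (hx : x ∈ Reg σ p)
    (h0 : orient (p l) (p (l + 1)) x = 0) : x ∈ Bd p := by
  have hm := h.hm
  obtain ⟨l', hl'⟩ : ∃ l', l + m = l' + 1 := ⟨l + m - 1, by omega⟩
  have e0 : p (l' + 1) = p l := by rw [← hl']; exact h.per l
  have e1 : p (l' + 2) = p (l + 1) := by
    rw [show l' + 2 = (l' + 1) + 1 by ring, ← hl', show l + m + 1 = l + 1 + m by ring]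
    exact h.per _
  have e2 : p (l' + 3) = p (l + 2) := by
    rw [show l' + 3 = (l' + 1) + 2 by ring, ← hl', show l + m + 2 = l + 2 + m by ring]
    exact h.per _
  have t1 := h.turn l'
  have t2 := h.turn l
  have c1 := hx l'
  have c2 := hx (l + 1)
  rw [e0] at c1
  rw [e0, e1] at t1
  refine ⟨l, ?_⟩
  rcases h.hσ with hs | hs
  · subst hs
    rw [one_mul] at t1 t2 c1 c2
    exact tight_mem (p l') (p l) (p (l + 1)) (p (l + 2)) x t1 t2 h0 c1 c2
  · subst hs
    rw [segment_symm]
    refine tight_mem (p (l + 2)) (p (l + 1)) (p l) (p l') x ?_ ?_ ?_ ?_ ?_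
    · simp only [orient] at *
      linarith
    · simp only [orient] at *
      linarith
    · simp only [orient] at *
      linarith
    · simp only [orient] at *
      linarith
    · simp only [orient] at *
      linarith

/-- a segment leaving the region meets the boundary -/
lemma exit (h : Poly m σ p) {x y : Pt} (hx : x ∈ Reg σ p) (hy : y ∉ Reg σ p) :
    ∃ z ∈ segment ℝ x y, z ∈ Bd p := by
  classical
  have hm := h.hm
  have hy' : ∃ l, l < m ∧ σ * orient (p l) (p (l + 1)) y < 0 := by
    by_contra hcon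
    push Not at hcon
    apply hy
    intro l
    have := hcon (l % m) (Nat.mod_lt _ (by omega))
    rwa [h.per_mod, h.per_mod1] at this
  set f : ℕ → ℝ := fun l => σ * orient (p l) (p (l + 1)) x with hf
  set g : ℕ → ℝ := fun l => σ * orient (p l) (p (l + 1)) y with hg
  obtain ⟨l0, hl0, hgl0⟩ := hy'
  have hne : ((Finset.range m).filter (fun c => g c < 0)).Nonempty :=
    ⟨l0, by simp [hl0]; exact hgl0⟩
  obtain ⟨c, hc, hmin⟩ := Finset.exists_min_image _ (fun c => f c / (f c - g c)) hne
  rw [Finset.mem_filter, Finset.mem_range] at hc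
  have hfc : 0 ≤ f c := hx c
  have hden : 0 < f c - g c := by linarith [hc.2]
  set s := f c / (f c - g c) with hs
  have hs0 : 0 ≤ s := by positivity
  have hs1 : s ≤ 1 := by rw [hs, div_le_one hden]; linarith [hc.2]
  refine ⟨(1 - s) • x + s • y, mem_seg_iff.2 ⟨s, hs0, hs1, rfl⟩, ?_⟩
  have hval : ∀ l, σ * orient (p l) (p (l + 1)) ((1 - s) • x + s • y) =
      (1 - s) * f l + s * g l := by
    intro l
    rw [orient_lineMap]
    simp only [hf, hg]
    ring
  have hmem : (1 - s) • x + s • y ∈ Reg σ p := by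
    intro l
    have key : ∀ l, l < m → 0 ≤ (1 - s) * f l + s * g l := by
      intro l hl
      have hfl : 0 ≤ f l := hx l
      by_cases hgl : g l < 0
      · have hden' : 0 < f l - g l := by linarith
        have h1 := hmin l (by simp [hl]; exact hgl)
        rw [le_div_iff₀ hden'] at h1
        linarith
      · push Not at hgl
        have h1 := mul_nonneg (by linarith : (0:ℝ) ≤ 1 - s) hfl
        have h2 := mul_nonneg hs0 hgl
        linarith
    have := key (l % m) (Nat.mod_lt _ (by omega))
    rw [← hval, h.per_mod, h.per_mod1] at this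
    exact this
  refine h.mem_of_tight (l := c) hmem ?_
  have h1 := hval c
  have h2 : (1 - s) * f c + s * g c = 0 := by
    rw [hs]
    field_simp
    ring
  rw [h2] at h1
  rcases mul_eq_zero.1 h1 with h3 | h3
  · rcases h.hσ with h4 | h4 <;> rw [h4] at h3 <;> norm_num at h3
  · exact h3

lemma conn_mem (h : Poly m σ p) {U : Set Pt} {a b : Pt} (hc : Conn U a b)
    (hd : Disjoint U (Bd p)) (ha : a ∈ Reg σ p) : b ∈ Reg σ p := by
  induction hc with
  | refl hx => exact ha
  | step y z hy hs ih =>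
    by_contra hz
    obtain ⟨w, hw1, hw2⟩ := h.exit ih hz
    exact Set.disjoint_left.1 hd (hs hw1) hw2

lemma conn_not_mem (h : Poly m σ p) {U : Set Pt} {a b : Pt} (hc : Conn U a b)
    (hd : Disjoint U (Bd p)) (ha : a ∉ Reg σ p) : b ∉ Reg σ p :=
  fun hb => ha (h.conn_mem hc.symm hd hb)

/-- the extension of an edge beyond its first vertex is outside -/
lemma beyond_left (h : Poly m σ p) {l : ℕ} {s : ℝ} (hs : s < 0) :
    (1 - s) • p l + s • p (l + 1) ∉ Reg σ p := by
  intro hmem
  have hm := h.hm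
  obtain ⟨l', hl'⟩ : ∃ l', l + m = l' + 1 := ⟨l + m - 1, by omega⟩
  have e0 : p (l' + 1) = p l := by rw [← hl']; exact h.per l
  have e1 : p (l' + 2) = p (l + 1) := by
    rw [show l' + 2 = (l' + 1) + 1 by ring, ← hl', show l + m + 1 = l + 1 + m by ring]
    exact h.per _
  have t1 := h.turn l'
  have c1 := hmem l'
  rw [e0] at c1
  rw [e0, e1] at t1
  rw [orient_lineMap, orient_self_right] at c1
  have : σ * ((1 - s) * 0 + s * orient (p l') (p l) (p (l + 1))) =
    s * (σ * orient (p l') (p l) (p (l + 1))) := by ring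
  rw [this] at c1
  have := mul_neg_of_neg_of_pos hs t1
  linarith

/-- the extension of an edge beyond its second vertex is outside -/
lemma beyond_right (h : Poly m σ p) {l : ℕ} {s : ℝ} (hs : 1 < s) :
    (1 - s) • p l + s • p (l + 1) ∉ Reg σ p := by
  intro hmem
  have t1 := h.turn l
  have c1 := hmem (l + 1)
  rw [orient_lineMap, orient_self_mid] at c1
  have e : orient (p (l + 1)) (p (l + 1 + 1)) (p l) = orient (p l) (p (l + 1)) (p (l + 2)) := by
    simp only [orient]; ring
  rw [e] at c1
  have : σ * ((1 - s) * orient (p l) (p (l + 1)) (p (l + 2)) + s * 0) =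
    (1 - s) * (σ * orient (p l) (p (l + 1)) (p (l + 2))) := by ring
  rw [this] at c1
  have := mul_neg_of_neg_of_pos (by linarith : 1 - s < 0) t1
  linarith

end Poly

end SegGirth
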