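import Mathlib
import Pool.Agent.Lib.MP_beb3fe_lc.Region

/-!
# The polygon formed by the rigid links of one tube
-/

namespace SegGirth

open Set

/-- what we know about the rigid links `U g b, V g b` of a tube -/
structure RingData (H : ℕ) (U V : Bool → ℕ → Pt) : Prop where
  hH : 2 ≤ H
  prop : ∀ g, ∀ b < H, Proper (U g b) (V g b) (U g (b + 1)) (V g (b + 1))
  propL : Proper (U false 0) (V false 0) (U true 0) (V true 0)
  propR : Proper (U false H) (V false H) (U true H) (V true H)
  ordM : ∀ g b, b + 2 ≤ H → par (U g (b + 1)) (V g (b + 1)) (U g b) (V g b) <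
    par (U g (b + 1)) (V g (b + 1)) (U g (b + 2)) (V g (b + 2))
  ord0 : ∀ g, par (U g 0) (V g 0) (U (!g) 0) (V (!g) 0) < par (U g 0) (V g 0) (U g 1) (V g 1)
  ordH : ∀ g, par (U g H) (V g H) (U g (H - 1)) (V g (H - 1)) <
    par (U g H) (V g H) (U (!g) H) (V (!g) H)
  sgnM : ∀ g b, b + 2 ≤ H → orient (U g (b + 1)) (V g (b + 1)) (U g b) *
    orient (U g (b + 1)) (V g (b + 1)) (U g (b + 2)) < 0
  sgn0 : ∀ g, 0 < orient (U g 0) (V g 0) (U (!g) 0) * orient (U g 0) (V g 0) (U g 1)
  sgnH : ∀ g, 0 < orient (U g H) (V g H) (U g (H - 1)) * orient (U g H) (V g H) (U (!g) H)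
  disj : ∀ g b b', b + 1 < b' → b' ≤ H →
    Disjoint (segment ℝ (U g b) (V g b)) (segment ℝ (U g b') (V g b'))
  disj' : ∀ b ≤ H, ∀ b' ≤ H, ¬ (b = 0 ∧ b' = 0) → ¬ (b = H ∧ b' = H) →
    Disjoint (segment ℝ (U false b) (V false b)) (segment ℝ (U true b') (V true b'))

/-- left end of the edge `(g,b)` -/
noncomputable def ptL (U V : Bool → ℕ → Pt) (g : Bool) (b : ℕ) : Pt :=
  if b = 0 then cpt (U false 0) (V false 0) (U true 0) (V true 0)
  else cpt (U g (b - 1)) (V g (b - 1)) (U g b) (V g b)

/-- right end of the edge `(g,b)` -/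
noncomputable def ptR (H : ℕ) (U V : Bool → ℕ → Pt) (g : Bool) (b : ℕ) : Pt :=
  if b < H then cpt (U g b) (V g b) (U g (b + 1)) (V g (b + 1))
  else cpt (U false H) (V false H) (U true H) (V true H)

/-- the vertices of the polygon -/
noncomputable def ringP (H : ℕ) (U V : Bool → ℕ → Pt) (l : ℕ) : Pt :=
  if l % (2 * H + 2) ≤ H then ptR H U V false (l % (2 * H + 2))
  else ptL U V true (2 * H + 1 - l % (2 * H + 2))

/-- the partner of `(g,b)` on the left -/
def nbL (g : Bool) (b : ℕ) : Bool × ℕ := if b = 0 then (!g, 0) else (g, b - 1)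
/-- the partner of `(g,b)` on the right -/
def nbR (H : ℕ) (g : Bool) (b : ℕ) : Bool × ℕ := if b < H then (g, b + 1) else (!g, H)

lemma ptR_eq_ptL {H : ℕ} {U V : Bool → ℕ → Pt} {g : Bool} {b : ℕ} (h : b < H) :
    ptR H U V g b = ptL U V g (b + 1) := by
  simp [ptR, ptL, h]

lemma ptL_zero {U V : Bool → ℕ → Pt} (g g' : Bool) : ptL U V g 0 = ptL U V g' 0 := by
  simp [ptL]

lemma ptR_last {H : ℕ} {U V : Bool → ℕ → Pt} (g g' : Bool) : ptR H U V g H = ptR H U V g' H := by
  simp [ptR]

/-- the turn formula -/
lemma turn_formula {u v r w : Pt} {s t s' t' : ℝ}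
    (hB : (1 - t) • u + t • v = (1 - t') • r + t' • w) :
    orient ((1 - s) • u + s • v) ((1 - t) • u + t • v) ((1 - s') • r + s' • w) =
      (t - s) * (s' - t') * (orient u v w - orient u v r) := by
  have h1 := congrArg Prod.fst hB
  have h2 := congrArg Prod.snd hB
  simp only [Prod.fst_add, Prod.snd_add, Prod.smul_fst, Prod.smul_snd, smul_eq_mul] at h1 h2
  simp only [orient, Prod.fst_add, Prod.snd_add, Prod.smul_fst, Prod.smul_snd, smul_eq_mul]
  linear_combination (-(t - s) * (v.2 - u.2)) * (-h1) + ((t - s) * (v.1 - u.1)) * (-h2)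

lemma diff_sign {u v r w : Pt} (h : Proper u v r w) {σ : ℝ} (hs : 0 < σ * orient u v r) :
    σ * (orient u v w - orient u v r) < 0 := by
  have h2 := h.2
  rcases lt_trichotomy σ 0 with h3 | h3 | h3
  · have h4 : orient u v r < 0 := by
      by_contra h5
      push Not at h5
      nlinarith [mul_nonneg (neg_pos.2 h3).le h5]
    have h5 : 0 < orient u v w := by
      by_contra h6
      push Not at h6
      nlinarith [mul_nonneg_of_nonpos_of_nonpos h4.le h6]
    exact mul_neg_of_neg_of_pos h3 (by linarith)
  · rw [h3] at hs; simp at hs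
  · have h4 : 0 < orient u v r := by
      by_contra h5
      push Not at h5
      nlinarith [mul_nonneg h3.le (neg_nonneg.2 h5)]
    have h5 : orient u v w < 0 := by
      by_contra h6
      push Not at h6
      nlinarith [mul_nonneg h4.le h6]
    exact mul_neg_of_pos_of_neg h3 (by linarith)

/-- `sL` is antisymmetric -/
lemma proper_anti {u v r w : Pt} (h : Proper u v r w) {σ : ℝ} (hs : 0 < σ * orient u v r) :
    0 < -σ * orient r w u := by
  have h1 := h.1
  have h2 := diff_sign h hs
  have e : orient u v w - orient u v r = orient r w u - orient r w v := by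
    simp only [orient]; ring
  rw [e] at h2
  -- orient r w u and orient r w v have opposite signs
  rcases lt_trichotomy (σ * orient r w u) 0 with h3 | h3 | h3
  · linarith
  · exfalso
    have hσ : σ ≠ 0 := by rintro rfl; simp at hs
    have : orient r w u = 0 := by
      rcases mul_eq_zero.1 h3 with h4 | h4
      · exact absurd h4 hσ
      · exact h4
    rw [this] at h1
    simp at h1
  · exfalso
    have h4 : σ * orient r w v > 0 := by linarith
    have h5 : 0 < (σ * orient r w u) * (σ * orient r w v) := mul_pos h3 h4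
    have h6 : (σ * orient r w u) * (σ * orient r w v) = σ ^ 2 * (orient r w u * orient r w v) := by
      ring
    rw [h6] at h5
    nlinarith [sq_nonneg σ]

lemma sign_flip {a b σ : ℝ} (h : a * b < 0) (hs : 0 < σ * a) : 0 < -σ * b := by
  have h5 : (σ * a) * (σ * b) = σ ^ 2 * (a * b) := by ring
  have hσ : σ ≠ 0 := by rintro rfl; simp at hs
  have h6 : (σ * a) * (σ * b) < 0 := by
    rw [h5]
    exact mul_neg_of_pos_of_neg (by positivity) h
  have : σ * b < 0 := by
    by_contra h7
    push Not at h7
    nlinarith [mul_nonneg hs.le h7]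
  linarith

lemma sign_keep {a b σ : ℝ} (h : 0 < a * b) (hs : 0 < σ * a) : 0 < σ * b := by
  have h5 : (σ * a) * (σ * b) = σ ^ 2 * (a * b) := by ring
  have hσ : σ ≠ 0 := by rintro rfl; simp at hs
  have h6 : 0 < (σ * a) * (σ * b) := by
    rw [h5]
    exact mul_pos (by positivity) h
  by_contra h7
  push Not at h7
  nlinarith [mul_nonneg hs.le (neg_nonneg.2 h7)]

namespace RingData

variable {H : ℕ} {U V : Bool → ℕ → Pt}

lemma properL (D : RingData H U V) (g : Bool) {b : ℕ} (hb : b ≤ H) :
    Proper (U g b) (V g b) (U (nbL g b).1 (nbL g b).2) (V (nbL g b).1 (nbL g b).2) := by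
  unfold nbL
  by_cases h : b = 0
  · subst h
    simp only [if_true]
    cases g
    · exact D.propL
    · exact D.propL.symm
  · simp only [h, if_false]
    have := D.prop g (b - 1) (by omega)
    rw [show b - 1 + 1 = b by omega] at this
    exact this.symm

lemma properR (D : RingData H U V) (g : Bool) {b : ℕ} (hb : b ≤ H) :
    Proper (U g b) (V g b) (U (nbR H g b).1 (nbR H g b).2) (V (nbR H g b).1 (nbR H g b).2) := by
  unfold nbR
  by_cases h : b < H
  · simp only [h, if_true]
    exact D.prop g b h
  · obtain rfl : b = H := by omega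
    simp only [lt_irrefl, if_false]
    cases g
    · exact D.propR
    · exact D.propR.symm

lemma ptL_eq (D : RingData H U V) (g : Bool) {b : ℕ} (hb : b ≤ H) :
    ptL U V g b = cpt (U g b) (V g b) (U (nbL g b).1 (nbL g b).2) (V (nbL g b).1 (nbL g b).2) := by
  unfold nbL ptL
  by_cases h : b = 0
  · subst h
    simp only [if_true]
    cases g
    · rfl
    · exact cpt_symm D.propL
  · simp only [h, if_false]
    have := D.prop g (b - 1) (by omega)
    rw [show b - 1 + 1 = b by omega] at this
    exact cpt_symm this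

lemma ptR_eq (D : RingData H U V) (g : Bool) {b : ℕ} (hb : b ≤ H) :
    ptR H U V g b =
      cpt (U g b) (V g b) (U (nbR H g b).1 (nbR H g b).2) (V (nbR H g b).1 (nbR H g b).2) := by
  unfold nbR ptR
  by_cases h : b < H
  · simp only [h, if_true]
  · obtain rfl : b = H := by omega
    simp only [lt_irrefl, if_false]
    cases g
    · rfl
    · exact cpt_symm D.propR

/-- parameter of the left end -/
noncomputable def pL (U V : Bool → ℕ → Pt) (g : Bool) (b : ℕ) : ℝ :=
  par (U g b) (V g b) (U (nbL g b).1 (nbL g b).2) (V (nbL g b).1 (nbL g b).2)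

/-- parameter of the right end -/
noncomputable def pR (H : ℕ) (U V : Bool → ℕ → Pt) (g : Bool) (b : ℕ) : ℝ :=
  par (U g b) (V g b) (U (nbR H g b).1 (nbR H g b).2) (V (nbR H g b).1 (nbR H g b).2)

lemma ptL_eq' (D : RingData H U V) (g : Bool) {b : ℕ} (hb : b ≤ H) :
    ptL U V g b = (1 - pL U V g b) • U g b + pL U V g b • V g b := D.ptL_eq g hb

lemma ptR_eq' (D : RingData H U V) (g : Bool) {b : ℕ} (hb : b ≤ H) :
    ptR H U V g b = (1 - pR H U V g b) • U g b + pR H U V g b • V g b := D.ptR_eq g hb

lemma par_lt (D : RingData H U V) (g : Bool) {b : ℕ} (hb : b ≤ H) :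
    pL U V g b < pR H U V g b := by
  have hH := D.hH
  unfold pL pR nbL nbR
  by_cases h0 : b = 0
  · subst h0
    simp only [if_true, show (0 < H) from by omega, Nat.zero_add]
    exact D.ord0 g
  · by_cases h1 : b < H
    · simp only [h0, h1, if_true, if_false]
      have := D.ordM g (b - 1) (by omega)
      rw [show b - 1 + 1 = b by omega, show b - 1 + 2 = b + 1 by omega] at this
      exact this
    · obtain rfl : b = H := by omega
      simp only [h0, lt_irrefl, if_false]
      exact D.ordH g

lemma parL_mem (D : RingData H U V) (g : Bool) {b : ℕ} (hb : b ≤ H) :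
    0 < pL U V g b ∧ pL U V g b < 1 := (D.properL g hb).par_mem

lemma parR_mem (D : RingData H U V) (g : Bool) {b : ℕ} (hb : b ≤ H) :
    0 < pR H U V g b ∧ pR H U V g b < 1 := (D.properR g hb).par_mem

lemma ptL_mem (D : RingData H U V) (g : Bool) {b : ℕ} (hb : b ≤ H) :
    ptL U V g b ∈ segment ℝ (U g b) (V g b) := by
  rw [D.ptL_eq g hb]
  exact (D.properL g hb).cpt_mem_left

lemma ptR_mem (D : RingData H U V) (g : Bool) {b : ℕ} (hb : b ≤ H) :
    ptR H U V g b ∈ segment ℝ (U g b) (V g b) := by
  rw [D.ptR_eq g hb]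
  exact (D.properR g hb).cpt_mem_left

lemma edge_subset (D : RingData H U V) (g : Bool) {b : ℕ} (hb : b ≤ H) :
    segment ℝ (ptL U V g b) (ptR H U V g b) ⊆ segment ℝ (U g b) (V g b) :=
  (convex_segment _ _).segment_subset (D.ptL_mem g hb) (D.ptR_mem g hb)

/-- signs -/
lemma signs (D : RingData H U V) : ∃ σ : ℝ, (σ = 1 ∨ σ = -1) ∧
    (∀ b < H, 0 < -σ * orient (U false b) (V false b) (U false (b + 1))) ∧
    (0 < σ * orient (U false H) (V false H) (U true H)) ∧
    (∀ b < H, 0 < -σ * orient (U true (b + 1)) (V true (b + 1)) (U true b)) ∧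
    (0 < σ * orient (U true 0) (V true 0) (U false 0)) := by
  have hH := D.hH
  -- the sign at the first vertex
  have h01 : orient (U false 0) (V false 0) (U false 1) ≠ 0 := by
    intro h
    have := (D.prop false 0 (by omega)).2
    rw [show 0 + 1 = 1 by rfl, h] at this
    simp at this
  obtain ⟨σ, hσ, hs⟩ : ∃ σ : ℝ, (σ = 1 ∨ σ = -1) ∧
      0 < -σ * orient (U false 0) (V false 0) (U false 1) := by
    rcases lt_or_gt_of_ne h01 with h | h
    · exact ⟨1, Or.inl rfl, by linarith⟩
    · exact ⟨-1, Or.inr rfl, by linarith⟩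
  have hA : ∀ b < H, 0 < -σ * orient (U false b) (V false b) (U false (b + 1)) := by
    intro b
    induction b with
    | zero => intro _; exact hs
    | succ b ih =>
      intro hb
      have h1 := ih (by omega)
      have h2 := proper_anti (D.prop false b (by omega)) h1
      rw [neg_neg] at h2
      have h3 := D.sgnM false b (by omega)
      exact sign_flip h3 h2
  have hB : 0 < σ * orient (U false H) (V false H) (U true H) := by
    have h1 := hA (H - 1) (by omega)
    have h0 := D.prop false (H - 1) (by omega)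
    rw [show H - 1 + 1 = H by omega] at h1 h0
    have h2 := proper_anti h0 h1
    rw [neg_neg] at h2
    exact sign_keep (D.sgnH false) h2
  have hC : ∀ c, ∀ b, b + c + 1 = H → 0 < -σ * orient (U true (b + 1)) (V true (b + 1)) (U true b) := by
    intro c
    induction c with
    | zero =>
      intro b hb
      have h1 := proper_anti D.propR hB
      have h2 := D.sgnH true
      have hb' : H - 1 = b := by omega
      have hb2 : b + 1 = H := by omega
      rw [hb2]
      rw [hb'] at h2
      rw [mul_comm] at h2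
      exact sign_keep h2 h1
    | succ c ih =>
      intro b hb
      have h1 := ih (b + 1) (by omega)
      -- sL (b+2) negative, so sR (b+1) positive, so sL (b+1) negative
      have h2 := proper_anti (D.prop true (b + 1) (by omega)).symm h1
      rw [neg_neg] at h2
      have h3 := D.sgnM true b (by omega)
      rw [mul_comm] at h3
      exact sign_flip h3 h2
  have hC' : ∀ b < H, 0 < -σ * orient (U true (b + 1)) (V true (b + 1)) (U true b) :=
    fun b hb => hC (H - b - 1) b (by omega)
  refine ⟨σ, hσ, hA, hB, hC', ?_⟩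
  have h1 := hC' 0 (by omega)
  have h2 := proper_anti (D.prop true 0 (by omega)).symm h1
  rw [neg_neg] at h2
  have h3 := D.sgn0 true
  rw [mul_comm] at h3
  exact sign_keep h3 h2

/-- a common value of the crossing point -/
lemma cpt_eq_param {u v r w : Pt} (h : Proper u v r w) :
    (1 - par u v r w) • u + par u v r w • v = (1 - par r w u v) • r + par r w u v • w := by
  have := cpt_symm h
  exact this

/-- general turn: from a point `A` of `uv` through the crossing point to a point of `rw` -/
lemma turn_gen {u v r w : Pt} (h : Proper u v r w) {s s' σ : ℝ} {A B D : Pt}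
    (hA : A = (1 - s) • u + s • v) (hB : B = cpt u v r w) (hD : D = (1 - s') • r + s' • w)
    (e1 e2 : ℝ) (h1 : 0 < e1 * (par u v r w - s)) (h2 : 0 < e2 * (s' - par r w u v))
    (he : 0 < -(σ * e1 * e2) * orient u v r) : 0 < σ * orient A B D := by
  rw [hA, hB, hD]
  unfold cpt
  rw [turn_formula (cpt_eq_param h)]
  have h3 := diff_sign h he
  have h4 : 0 < (e1 * (par u v r w - s)) * (e2 * (s' - par r w u v)) := mul_pos h1 h2
  have h5 : 0 < σ * e1 * e2 * (orient u v w - orient u v r) := by linarith
  have h6 := mul_pos h4 h5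
  have h7 : (e1 * (par u v r w - s)) * (e2 * (s' - par r w u v)) *
      (σ * e1 * e2 * (orient u v w - orient u v r)) =
      (e1 * e2) ^ 2 * (σ * ((par u v r w - s) * (s' - par r w u v) *
        (orient u v w - orient u v r))) := by ring
  rw [h7] at h6
  by_contra h8
  push Not at h8
  nlinarith [mul_nonneg (sq_nonneg (e1 * e2)) (neg_nonneg.2 h8)]

lemma turnA (D : RingData H U V) {σ : ℝ}
    (hA : ∀ b < H, 0 < -σ * orient (U false b) (V false b) (U false (b + 1))) {b : ℕ} (hb : b < H) :
    0 < σ * orient (ptL U V false b) (ptR H U V false b) (ptR H U V false (b + 1)) := by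
  have e1 := D.par_lt false (b := b) (by omega)
  have e2 := D.par_lt false (b := b + 1) (by omega)
  refine turn_gen (D.prop false b hb) (D.ptL_eq' false (by omega)) ?_
    (D.ptR_eq' false (b := b + 1) (by omega)) 1 1 ?_ ?_ ?_
  · simp [ptR, hb]
  · have : pR H U V false b = par (U false b) (V false b) (U false (b + 1)) (V false (b + 1)) := by
      simp [pR, nbR, hb]
    rw [← this]; linarith
  · have : pL U V false (b + 1) =
        par (U false (b + 1)) (V false (b + 1)) (U false b) (V false b) := by
      simp [pL, nbL]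
    rw [← this]; linarith
  · have := hA b hb
    linarith

lemma turnB (D : RingData H U V) {σ : ℝ}
    (hB : 0 < σ * orient (U false H) (V false H) (U true H)) :
    0 < σ * orient (ptL U V false H) (ptR H U V false H) (ptL U V true H) := by
  have e1 := D.par_lt false (b := H) (by omega)
  have e2 := D.par_lt true (b := H) (by omega)
  refine turn_gen D.propR (D.ptL_eq' false (by omega)) ?_
    (D.ptL_eq' true (b := H) (by omega)) 1 (-1) ?_ ?_ ?_
  · simp [ptR]
  · have : pR H U V false H = par (U false H) (V false H) (U true H) (V true H) := by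
      simp [pR, nbR]
    rw [← this]; linarith
  · have : pR H U V true H = par (U true H) (V true H) (U false H) (V false H) := by
      simp [pR, nbR]
    rw [← this]; linarith
  · linarith

lemma turnC (D : RingData H U V) {σ : ℝ}
    (hC : ∀ b < H, 0 < -σ * orient (U true (b + 1)) (V true (b + 1)) (U true b)) {b : ℕ}
    (hb : b < H) :
    0 < σ * orient (ptR H U V true (b + 1)) (ptL U V true (b + 1)) (ptL U V true b) := by
  have e1 := D.par_lt true (b := b + 1) (by omega)
  have e2 := D.par_lt true (b := b) (by omega)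
  refine turn_gen (D.prop true b hb).symm (D.ptR_eq' true (by omega)) ?_
    (D.ptL_eq' true (b := b) (by omega)) (-1) (-1) ?_ ?_ ?_
  · rw [← cpt_symm (D.prop true b hb)]
    simp [ptL]
  · have : pL U V true (b + 1) = par (U true (b + 1)) (V true (b + 1)) (U true b) (V true b) := by
      simp [pL, nbL]
    rw [← this]; linarith
  · have : pR H U V true b =
        par (U true b) (V true b) (U true (b + 1)) (V true (b + 1)) := by
      simp [pR, nbR, hb]
    rw [← this]; linarith
  · have := hC b hb
    linarith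

lemma turnD (D : RingData H U V) {σ : ℝ}
    (hD : 0 < σ * orient (U true 0) (V true 0) (U false 0)) :
    0 < σ * orient (ptR H U V true 0) (ptL U V true 0) (ptR H U V false 0) := by
  have e1 := D.par_lt true (b := 0) (by omega)
  have e2 := D.par_lt false (b := 0) (by omega)
  refine turn_gen D.propL.symm (D.ptR_eq' true (by omega)) ?_
    (D.ptR_eq' false (b := 0) (by omega)) (-1) 1 ?_ ?_ ?_
  · rw [← cpt_symm D.propL]
    simp [ptL]
  · have : pL U V true 0 = par (U true 0) (V true 0) (U false 0) (V false 0) := by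
      simp [pL, nbL]
    rw [← this]; linarith
  · have : pL U V false 0 =
        par (U false 0) (V false 0) (U true 0) (V true 0) := by
      simp [pL, nbL]
    rw [← this]; linarith
  · linarith

lemma ringP_add (l : ℕ) : ringP H U V (l + (2 * H + 2)) = ringP H U V l := by
  simp [ringP]

lemma ringP_mod (l : ℕ) : ringP H U V l = ringP H U V (l % (2 * H + 2)) := by
  simp [ringP]

lemma ringP_lo {l : ℕ} (h : l ≤ H) : ringP H U V l = ptR H U V false l := by
  unfold ringP
  rw [Nat.mod_eq_of_lt (by omega), if_pos h]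

lemma ringP_up {l : ℕ} (h : H < l) (h2 : l < 2 * H + 2) :
    ringP H U V l = ptL U V true (2 * H + 1 - l) := by
  unfold ringP
  rw [Nat.mod_eq_of_lt (by omega), if_neg (by omega)]

/-- the last edge -/
lemma ringP_last : ringP H U V (2 * H + 1) = ptL U V false 0 := by
  rw [ringP_up (by omega) (by omega), show 2 * H + 1 - (2 * H + 1) = 0 by omega]
  exact ptL_zero _ _

lemma ringP_period : ringP H U V (2 * H + 2) = ptR H U V false 0 := by
  have := ringP_add (H := H) (U := U) (V := V) 0
  rw [Nat.zero_add] at this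
  rw [this]
  exact ringP_lo (Nat.zero_le _)

/-- the edges of the polygon, lower group -/
lemma edge_lo {b : ℕ} (hb : b < H) : ringP H U V b = ptL U V false (b + 1) ∧
    ringP H U V (b + 1) = ptR H U V false (b + 1) := by
  constructor
  · rw [ringP_lo (by omega)]
    exact ptR_eq_ptL hb
  · exact ringP_lo (by omega)

/-- the edges of the polygon, upper group -/
lemma edge_up {b : ℕ} (hb : b ≤ H) : ringP H U V (2 * H - b) = ptR H U V true b ∧
    ringP H U V (2 * H - b + 1) = ptL U V true b := by
  constructor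
  · by_cases h : b = H
    · subst h
      rw [ringP_lo (by omega), show 2 * b - b = b by omega]
      exact ptR_last _ _
    · rw [ringP_up (by omega) (by omega), show 2 * H + 1 - (2 * H - b) = b + 1 by omega,
        ptR_eq_ptL (by omega)]
  · rw [ringP_up (by omega) (by omega), show 2 * H + 1 - (2 * H - b + 1) = b by omega]

/-- every edge of the polygon is one of the edges `(g,b)` -/
lemma edge_cases {l : ℕ} (hl : l < 2 * H + 2) :
    (∃ b, b < H ∧ l = b ∧ ringP H U V l = ptL U V false (b + 1) ∧
      ringP H U V (l + 1) = ptR H U V false (b + 1)) ∨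
    (∃ b, b ≤ H ∧ l = 2 * H - b ∧ ringP H U V l = ptR H U V true b ∧
      ringP H U V (l + 1) = ptL U V true b) ∨
    (l = 2 * H + 1 ∧ ringP H U V l = ptL U V false 0 ∧ ringP H U V (l + 1) = ptR H U V false 0) := by
  by_cases h1 : l < H
  · exact Or.inl ⟨l, h1, rfl, edge_lo h1⟩
  · by_cases h2 : l ≤ 2 * H
    · refine Or.inr (Or.inl ⟨2 * H - l, by omega, by omega, ?_⟩)
      have := edge_up (H := H) (U := U) (V := V) (b := 2 * H - l) (by omega)
      rw [show 2 * H - (2 * H - l) = l by omega] at this
      exact this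
    · obtain rfl : l = 2 * H + 1 := by omega
      exact Or.inr (Or.inr ⟨rfl, ringP_last, ringP_period⟩)

theorem turn (D : RingData H U V) {σ : ℝ}
    (hA : ∀ b < H, 0 < -σ * orient (U false b) (V false b) (U false (b + 1)))
    (hB : 0 < σ * orient (U false H) (V false H) (U true H))
    (hC : ∀ b < H, 0 < -σ * orient (U true (b + 1)) (V true (b + 1)) (U true b))
    (hD : 0 < σ * orient (U true 0) (V true 0) (U false 0)) (l : ℕ) :
    0 < σ * orient (ringP H U V l) (ringP H U V (l + 1)) (ringP H U V (l + 2)) := by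
  have hH := D.hH
  -- reduce to l < 2H+2
  have hred : ∀ l, l < 2 * H + 2 →
      0 < σ * orient (ringP H U V l) (ringP H U V (l + 1)) (ringP H U V (l + 2)) := by
    intro l hl
    by_cases h1 : l + 1 < H
    · rw [(edge_lo (H := H) (U := U) (V := V) (b := l) (by omega)).1,
        (edge_lo (H := H) (U := U) (V := V) (b := l) (by omega)).2,
        (edge_lo (H := H) (U := U) (V := V) (b := l + 1) (by omega)).2]
      exact D.turnA hA (b := l + 1) h1
    by_cases h2 : l + 1 = H
    · rw [(edge_lo (H := H) (U := U) (V := V) (b := l) (by omega)).1,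
        (edge_lo (H := H) (U := U) (V := V) (b := l) (by omega)).2]
      have := (edge_up (H := H) (U := U) (V := V) (b := H) (by omega)).2
      rw [show 2 * H - H + 1 = l + 2 by omega] at this
      rw [this, h2]
      exact D.turnB hB
    by_cases h3 : l < 2 * H
    · obtain ⟨b, hb⟩ : ∃ b, 2 * H - l = b + 1 := ⟨2 * H - l - 1, by omega⟩
      have e1 := edge_up (H := H) (U := U) (V := V) (b := b + 1) (by omega)
      have e2 := edge_up (H := H) (U := U) (V := V) (b := b) (by omega)
      rw [show 2 * H - (b + 1) = l by omega] at e1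
      rw [show 2 * H - b = l + 1 by omega] at e2
      rw [e1.1, e1.2, show l + 2 = l + 1 + 1 by ring, e2.2]
      exact D.turnC hC (b := b) (by omega)
    by_cases h4 : l = 2 * H
    · have e1 := edge_up (H := H) (U := U) (V := V) (b := 0) (by omega)
      rw [Nat.sub_zero] at e1
      rw [h4, e1.1, e1.2, ringP_period]
      exact D.turnD hD
    · obtain rfl : l = 2 * H + 1 := by omega
      have e : ringP H U V (2 * H + 1 + 2) = ptR H U V false 1 := by
        rw [show 2 * H + 1 + 2 = 1 + (2 * H + 2) by ring, ringP_add]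
        exact ringP_lo (by omega)
      rw [e, show 2 * H + 1 + 1 = 2 * H + 2 by ring, ringP_last, ringP_period]
      exact D.turnA hA (b := 0) (by omega)
  have h := hred (l % (2 * H + 2)) (Nat.mod_lt _ (by omega))
  have e0 : ringP H U V (l % (2 * H + 2)) = ringP H U V l := (ringP_mod l).symm
  have e1 : ringP H U V (l % (2 * H + 2) + 1) = ringP H U V (l + 1) := by
    rw [ringP_mod, ringP_mod (l + 1), Nat.mod_add_mod]
  have e2 : ringP H U V (l % (2 * H + 2) + 2) = ringP H U V (l + 2) := by
    rw [ringP_mod, ringP_mod (l + 2), Nat.mod_add_mod]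
  rw [e0, e1, e2] at h
  exact h

theorem poly (D : RingData H U V) : ∃ σ : ℝ, Poly (2 * H + 2) σ (ringP H U V) := by
  have hH := D.hH
  obtain ⟨σ, hσ, hA, hB, hC, hD⟩ := D.signs
  refine ⟨σ, poly_of_simple _ (by omega) σ hσ _ ringP_add (D.turn hA hB hC hD) ?_⟩
  intro i j h1 h2 h3
  have key : ∀ (g g' : Bool) (b b' : ℕ), b ≤ H → b' ≤ H → ∀ P Q P' Q' : Pt,
      (P = ptL U V g b ∧ Q = ptR H U V g b) ∨ (P = ptR H U V g b ∧ Q = ptL U V g b) →
      (P' = ptL U V g' b' ∧ Q' = ptR H U V g' b') ∨ (P' = ptR H U V g' b' ∧ Q' = ptL U V g' b') →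
      Disjoint (segment ℝ (U g b) (V g b)) (segment ℝ (U g' b') (V g' b')) →
      Disjoint (segment ℝ P Q) (segment ℝ P' Q') := by
    intro g g' b b' hb hb' P Q P' Q' h4 h5 h6
    have s1 : segment ℝ P Q ⊆ segment ℝ (U g b) (V g b) := by
      rcases h4 with ⟨rfl, rfl⟩ | ⟨rfl, rfl⟩
      · exact D.edge_subset g hb
      · rw [segment_symm]; exact D.edge_subset g hb
    have s2 : segment ℝ P' Q' ⊆ segment ℝ (U g' b') (V g' b') := by
      rcases h5 with ⟨rfl, rfl⟩ | ⟨rfl, rfl⟩
      · exact D.edge_subset g' hb'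
      · rw [segment_symm]; exact D.edge_subset g' hb'
    exact h6.mono s1 s2
  rcases edge_cases (H := H) (U := U) (V := V) (l := i) (by omega) with
    ⟨b, hb, hbl, e1, e2⟩ | ⟨b, hb, hbl, e1, e2⟩ | ⟨hbl, e1, e2⟩
  · rcases edge_cases (H := H) (U := U) (V := V) (l := j) (by omega) with
      ⟨b', hb', hbl', e1', e2'⟩ | ⟨b', hb', hbl', e1', e2'⟩ | ⟨hbl', e1', e2'⟩
    · exact key false false (b + 1) (b' + 1) (by omega) (by omega) _ _ _ _ (Or.inl ⟨e1, e2⟩)
        (Or.inl ⟨e1', e2'⟩) (D.disj false (b + 1) (b' + 1) (by omega) (by omega))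
    · exact key false true (b + 1) b' (by omega) (by omega) _ _ _ _ (Or.inl ⟨e1, e2⟩)
        (Or.inr ⟨e1', e2'⟩) (D.disj' (b + 1) (by omega) b' (by omega) (by omega) (by omega))
    · exact key false false (b + 1) 0 (by omega) (by omega) _ _ _ _ (Or.inl ⟨e1, e2⟩)
        (Or.inl ⟨e1', e2'⟩) (D.disj false 0 (b + 1) (by omega) (by omega)).symm
  · rcases edge_cases (H := H) (U := U) (V := V) (l := j) (by omega) with
      ⟨b', hb', hbl', e1', e2'⟩ | ⟨b', hb', hbl', e1', e2'⟩ | ⟨hbl', e1', e2'⟩
    · omega
    · exact key true true b b' (by omega) (by omega) _ _ _ _ (Or.inr ⟨e1, e2⟩)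
        (Or.inr ⟨e1', e2'⟩) (D.disj true b' b (by omega) (by omega)).symm
    · exact key true false b 0 (by omega) (by omega) _ _ _ _ (Or.inr ⟨e1, e2⟩)
        (Or.inl ⟨e1', e2'⟩) (D.disj' 0 (by omega) b (by omega) (by omega) (by omega)).symm
  · omega

end RingData

end SegGirth
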