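import Mathlib
import Pool.Agent.Lib.MP_beb3fe_lc.Chords

/-!
# Crossing signs of chords that cross the same link
-/

namespace SegGirth

open Filter Topology Set

namespace Rep

variable {C : ChordSys} {R : Rep C}

lemma whole_disj_left (hG : C.Good) {x y : C.X} (hxy : C.cross x y) {u v : Pt}
    (hx : R.Node x (C.pos x y) u v) {j : ℕ} (hj : j < C.pos y x) :
    Disjoint (R.CU y 0 j) (R.Whole x (C.pos x y) u v) := by
  have hxne := hG.cross_ne _ _ hxy
  have h1 := hx.hp1; have h2 := hx.hp2
  have h3 := hG.pos2 _ _ (hG.symm _ _ hxy)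
  rw [Set.disjoint_left]
  intro w hw hw2
  have : w ∈ R.CU x 0 (C.N - 1) := by
    rcases hw2 with (h | h) | h
    · exact R.CU_mono x (by omega) (by omega) h
    · exact R.subset_CU x (Nat.zero_le _) (by omega) (hx.seg_subset h)
    · exact R.CU_mono x (by omega) (by omega) h
  exact Set.disjoint_left.1 (R.disj_CU hG (Ne.symm hxne) (by omega) (by omega)
    (fun _ => by omega)) hw this

lemma whole_disj_right (hG : C.Good) {x y : C.X} (hxy : C.cross x y) {u v : Pt}
    (hx : R.Node x (C.pos x y) u v) {i : ℕ} (hi : C.pos y x < i) :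
    Disjoint (R.CU y i (C.N - 1)) (R.Whole x (C.pos x y) u v) := by
  have hxne := hG.cross_ne _ _ hxy
  have h1 := hx.hp1; have h2 := hx.hp2
  rw [Set.disjoint_left]
  intro w hw hw2
  have : w ∈ R.CU x 0 (C.N - 1) := by
    rcases hw2 with (h | h) | h
    · exact R.CU_mono x (by omega) (by omega) h
    · exact R.subset_CU x (Nat.zero_le _) (by omega) (hx.seg_subset h)
    · exact R.CU_mono x (by omega) (by omega) h
  exact Set.disjoint_left.1 (R.disj_CU hG (Ne.symm hxne) (by omega) (by omega)
    (fun _ => by omega)) hw this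

lemma Node.whole (hG : C.Good) {x : C.X} {p : ℕ} {u v : Pt} (hx : R.Node x p u v) :
    R.LP (C.la x) (R.CU x 0 (p - 1) ∪ segment ℝ u v) v ∧
      R.RP (C.ra x) (R.CU x (p + 1) (C.N - 1)) v :=
  ⟨(hx.lp hG).seg (hx.frame hG), hx.rp hG⟩

/-- A path inverted with respect to `x` meets `x`. -/
theorem meet_whole (hG : C.Good) {x : C.X} {p : ℕ} {u v : Pt} (hx : R.Node x p u v) {l r : ℕ}
    {U V : Set Pt} {w : Pt} (hL : R.LP l U w) (hR : R.RP r V w)
    (hI : C.Inv l r (C.la x) (C.ra x)) (h1 : Disjoint U (R.Whole x p u v))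
    (h2 : Disjoint V (R.Whole x p u v)) : False := by
  obtain ⟨q, hq1, hq2⟩ := meet hG hI hL hR (hx.whole hG).1 (hx.whole hG).2
  have hq2' : q ∈ R.Whole x p u v := hq2
  rcases hq1 with h | h
  · exact Set.disjoint_left.1 h1 h hq2'
  · exact Set.disjoint_left.1 h2 h hq2'

theorem sgn_same (hG : C.Good) {x y z : C.X} (hxy : C.cross x y) (hxz : C.cross x z)
    (hp : C.pos x y = C.pos x z)
    (hI : C.Inv (C.la y) (C.ra z) (C.la x) (C.ra x)) {u v r t r' t' : Pt}
    (hx : R.Node x (C.pos x y) u v) (hy : R.Node y (C.pos y x) r t)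
    (hz : R.Node z (C.pos z x) r' t') : 0 < orient u v r * orient u v r' := by
  have hx' : R.Node x (C.pos x z) u v := hp ▸ hx
  have Py := (pc hG hxy hx hy).2
  have Pz := (pc hG hxz hx' hz).2
  by_contra hle
  push Not at hle
  have h3 := hy.hp1; have h4 := hy.hp2
  have h5 := hz.hp1; have h6 := hz.hp2
  have hab : 0 < orient u v r * orient u v t' := by
    have hr : orient u v r ≠ 0 := fun h => by rw [h] at Py; simp at Py
    have hr' : orient u v r' ≠ 0 := fun h => by rw [h] at Pz; simp at Pz
    rcases lt_or_gt_of_ne hr with h | h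
    · have h7 : 0 < orient u v r' := by
        rcases lt_or_gt_of_ne hr' with h' | h'
        · nlinarith [mul_pos_of_neg_of_neg h h']
        · exact h'
      have h8 : orient u v t' < 0 := by
        by_contra h8; push Not at h8; nlinarith [mul_nonneg h7.le h8]
      exact mul_pos_of_neg_of_neg h h8
    · have h7 : orient u v r' < 0 := by
        rcases lt_or_gt_of_ne hr' with h' | h'
        · exact h'
        · nlinarith [mul_pos h h']
      have h8 : 0 < orient u v t' := by
        by_contra h8; push Not at h8; nlinarith [mul_nonneg_of_nonpos_of_nonpos h7.le h8]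
      exact mul_pos h h8
  obtain ⟨W, hW1, hW2, hW3, hW4⟩ := detour hG hxy hxz hp hx hy hz (Or.inl rfl) (Or.inr rfl) hab
  refine meet_whole hG hx ((hy.lp hG).extend hW2 hW1 hW3) (hz.rp hG) hI ?_ ?_
  · rw [Set.disjoint_union_left]
    exact ⟨whole_disj_left hG hxy hx (by omega), hW4⟩
  · have := whole_disj_right hG hxz hx' (i := C.pos z x + 1) (by omega)
    rw [hp]
    exact this

theorem sgn_mixed (hG : C.Good) {x y z : C.X} (hxy : C.cross x y) (hxz : C.cross x z)
    (hp : C.pos x y = C.pos x z) (hyz : C.cross y z) (h1 : C.pos y x < C.pos y z)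
    (h2 : C.pos z y < C.pos z x) {u v r t r' t' : Pt}
    (hx : R.Node x (C.pos x y) u v) (hy : R.Node y (C.pos y x) r t)
    (hz : R.Node z (C.pos z x) r' t') : orient u v r * orient u v r' < 0 := by
  have hx' : R.Node x (C.pos x z) u v := hp ▸ hx
  have Py := (pc hG hxy hx hy).2
  have Pz := (pc hG hxz hx' hz).2
  have hzy := hG.symm _ _ hyz
  have hyx := hG.symm _ _ hxy
  have h3 := hy.hp1; have h4 := hy.hp2
  have h5 := hz.hp1; have h6 := hz.hp2
  have a1 := hG.pos1 _ _ hyz; have a2 := hG.pos2 _ _ hyz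
  have a3 := hG.pos1 _ _ hzy; have a4 := hG.pos2 _ _ hzy
  have hab : 0 < orient u v r * orient u v r' ∨ orient u v r * orient u v r' < 0 := by
    have hr : orient u v r ≠ 0 := fun h => by rw [h] at Py; simp at Py
    have hr' : orient u v r' ≠ 0 := fun h => by rw [h] at Pz; simp at Pz
    rcases lt_trichotomy (orient u v r * orient u v r') 0 with h | h | h
    · exact Or.inr h
    · exact absurd h (mul_ne_zero hr hr')
    · exact Or.inl h
  rcases hab with hab | hab
  swap
  · exact hab
  exfalso
  obtain ⟨W, hW1, hW2, hW3, hW4⟩ := detour hG hxy hxz hp hx hy hz (Or.inl rfl) (Or.inl rfl) hab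
  obtain ⟨c, hc1, hc2⟩ := R.nonempty_inter (u := Vx.ch y (C.pos y z)) (v := Vx.ch z (C.pos z y))
    (show C.pos y z < C.N by omega) (show C.pos z y < C.N by omega)
    (by intro h; injection h with h' h''; exact hG.cross_ne _ _ hyz h')
    (Or.inl (Or.inr ⟨hG.cross_ne _ _ hyz, hyz, rfl, rfl⟩))
  have hV : R.RP (C.ra y) (R.CU z (C.pos z y) (C.pos z x - 1) ∪ R.CU y (C.pos y z) (C.N - 1)) r' := by
    refine (R.rp hG a1 (by omega) hc1).extend ?_ (R.isClosed_CU _ _ _) ?_
    · exact (R.conn_CU (x := z) (i := C.pos z y) (j := C.pos z x - 1) (by omega) (by omega) hc2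
        hz.u1).symm
    · exact R.CU_frame hG (by omega) (by omega)
  refine meet_whole hG hx ((hy.lp hG).extend hW2 hW1 hW3) hV (hG.Inv hyx) ?_ ?_
  · rw [Set.disjoint_union_left]
    exact ⟨whole_disj_left hG hxy hx (by omega), hW4⟩
  · rw [Set.disjoint_union_left]
    constructor
    · rw [hp]
      exact (whole_disj_left hG hxz hx' (j := C.pos z x - 1) (by omega)).mono_left
        (R.CU_mono z (by omega) (by omega))
    · exact whole_disj_right hG hxy hx h1

end Rep

end SegGirth
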