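import Mathlib
import Pool.Agent.Lib.MP_beb3fe_lc.Ring
import Pool.Agent.Lib.MP_beb3fe_lc.Signs
import Pool.Agent.Lib.MP_beb3fe_lc.Tubes

/-!
# The rigid links of a tube of a representation form a convex polygon
-/

namespace SegGirth

open Filter Topology Set

variable {C : ChordSys} {R : Rep C} {n H K : ℕ} {ord : ℕ → ℕ → ℕ}

/-- The part of a link between two crossing points avoids the other links of the chord. -/
theorem Rep.between_disj (hG : C.Good) {x y z : C.X} (hxy : C.cross x y) (hxz : C.cross x z)
    (hp : C.pos x y = C.pos x z) {u v r t r' t' : Pt}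
    (hx : R.Node x (C.pos x y) u v) (hy : R.Node y (C.pos y x) r t)
    (hz : R.Node z (C.pos z x) r' t') :
    Disjoint (segment ℝ (cpt u v r t) (cpt u v r' t'))
      (R.CU x 0 (C.pos x y - 1) ∪ R.CU x (C.pos x y + 1) (C.N - 1)) := by
  have Py := Rep.pc hG hxy hx hy
  have hx' : R.Node x (C.pos x z) u v := hp ▸ hx
  have Pz := Rep.pc hG hxz hx' hz
  have h1 := hx.hp1; have h2 := hx.hp2
  have mξ : cpt u v r t ∈ segment ℝ u v := Py.cpt_mem_left
  have mξ' : cpt u v r' t' ∈ segment ℝ u v := Pz.cpt_mem_left
  have hsub : segment ℝ (cpt u v r t) (cpt u v r' t') ⊆ R.S (Vx.ch x (C.pos x y)) :=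
    ((convex_segment u v).segment_subset mξ mξ').trans hx.seg_subset
  rw [Set.disjoint_left]
  intro w hw hwK
  obtain ⟨τ, hτ0, hτ1, hτ⟩ := seg_mid Py.par_mem.1.le Py.par_mem.2.le Pz.par_mem.1.le
    Pz.par_mem.2.le (rfl : cpt u v r t = _) (rfl : cpt u v r' t' = _) hw
  have hwx := hsub hw
  have fy : ∀ s : ℝ, orient r t ((1 - s) • u + s • v) =
      (s - par u v r t) * (orient r t v - orient r t u) := by
    intro s
    have h0 : orient r t ((1 - par u v r t) • u + par u v r t • v) = 0 := Py.orient_cpt
    rw [orient_lineMap] at h0 ⊢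
    linear_combination h0
  have fz : ∀ s : ℝ, orient r' t' ((1 - s) • u + s • v) =
      (s - par u v r' t') * (orient r' t' v - orient r' t' u) := by
    intro s
    have h0 : orient r' t' ((1 - par u v r' t') • u + par u v r' t' • v) = 0 := Pz.orient_cpt
    rw [orient_lineMap] at h0 ⊢
    linear_combination h0
  have ey0 : orient r t u = (0 - par u v r t) * (orient r t v - orient r t u) := by
    have := fy 0; simpa using this
  have ey1 : orient r t v = (1 - par u v r t) * (orient r t v - orient r t u) := by
    have := fy 1; simpa using this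
  have ez0 : orient r' t' u = (0 - par u v r' t') * (orient r' t' v - orient r' t' u) := by
    have := fz 0; simpa using this
  have ez1 : orient r' t' v = (1 - par u v r' t') * (orient r' t' v - orient r' t' u) := by
    have := fz 1; simpa using this
  have fyw := fy τ
  have fzw := fz τ
  rw [← hτ] at fyw fzw
  have py := Py.par_mem
  have pz := Pz.par_mem
  rcases hwK with ⟨q, hq1, hq2, hq⟩ | ⟨q, hq1, hq2, hq⟩
  · by_cases hqe : q = C.pos x y - 1
    · subst hqe
      have hn : R.Node x (C.pos x y) w v := ⟨h1, h2, hq, hwx, hx.v1, hx.v2⟩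
      have hn' : R.Node x (C.pos x z) w v := hp ▸ hn
      have q1 := (Rep.pc hG hxy hn hy).1
      have q2 := (Rep.pc hG hxz hn' hz).1
      have k1 : orient r t w * orient r t v = ((τ - par u v r t) *
        (orient r t v - orient r t u)) * ((1 - par u v r t) * (orient r t v - orient r t u)) :=
        congrArg₂ (· * ·) fyw ey1
      have k2 : orient r' t' w * orient r' t' v = ((τ - par u v r' t') *
        (orient r' t' v - orient r' t' u)) *
        ((1 - par u v r' t') * (orient r' t' v - orient r' t' u)) :=
        congrArg₂ (· * ·) fzw ez1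
      rw [k1] at q1
      rw [k2] at q2
      rcases le_total (par u v r t) τ with h | h
      · have : 0 ≤ (τ - par u v r t) * (1 - par u v r t) :=
          mul_nonneg (by linarith) (by linarith)
        nlinarith [mul_nonneg this (mul_self_nonneg (orient r t v - orient r t u))]
      · have h' : par u v r' t' ≤ τ := by
          rcases min_le_iff.1 hτ0 with h8 | h8
          · have : τ = par u v r t := le_antisymm h h8
            rw [this] at q1
            simp at q1
          · exact h8
        have : 0 ≤ (τ - par u v r' t') * (1 - par u v r' t') :=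
          mul_nonneg (by linarith) (by linarith)
        nlinarith [mul_nonneg this (mul_self_nonneg (orient r' t' v - orient r' t' u))]
    · exact Set.disjoint_left.1 (R.disj_ch_self (x := x) (t := q) (t' := C.pos x y) (by omega)
        (by omega)) hq hwx
  · by_cases hqe : q = C.pos x y + 1
    · subst hqe
      have hn : R.Node x (C.pos x y) u w := ⟨h1, h2, hx.u1, hx.u2, hwx, hq⟩
      have hn' : R.Node x (C.pos x z) u w := hp ▸ hn
      have q1 := (Rep.pc hG hxy hn hy).1
      have q2 := (Rep.pc hG hxz hn' hz).1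
      rw [mul_comm] at q1 q2
      have k1 : orient r t w * orient r t u = ((τ - par u v r t) *
        (orient r t v - orient r t u)) * ((0 - par u v r t) * (orient r t v - orient r t u)) :=
        congrArg₂ (· * ·) fyw ey0
      have k2 : orient r' t' w * orient r' t' u = ((τ - par u v r' t') *
        (orient r' t' v - orient r' t' u)) *
        ((0 - par u v r' t') * (orient r' t' v - orient r' t' u)) :=
        congrArg₂ (· * ·) fzw ez0
      rw [k1] at q1
      rw [k2] at q2
      rcases le_total τ (par u v r t) with h | h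
      · have : 0 ≤ (par u v r t - τ) * (par u v r t) :=
          mul_nonneg (by linarith) (by linarith)
        nlinarith [mul_nonneg this (mul_self_nonneg (orient r t v - orient r t u))]
      · have h' : τ ≤ par u v r' t' := by
          rcases le_max_iff.1 hτ1 with h8 | h8
          · have : τ = par u v r t := le_antisymm h8 h
            rw [this] at q1
            simp at q1
          · exact h8
        have : 0 ≤ (par u v r' t' - τ) * (par u v r' t') :=
          mul_nonneg (by linarith) (by linarith)
        nlinarith [mul_nonneg this (mul_self_nonneg (orient r' t' v - orient r' t' u))]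
    · exact Set.disjoint_left.1 (R.disj_ch_self (x := x) (t := C.pos x y) (t' := q) (by omega)
        (by omega)) hwx hq

theorem ringData (hG : C.Good) (T : Tubes C n H K ord) {U V : ℕ → Bool → ℕ → Pt}
    (hN : ∀ i < n, ∀ g, ∀ b ≤ H, R.Node (T.c i g b) (T.rho b) (U i g b) (V i g b))
    {i : ℕ} (hi : i < n) : RingData H (U i) (V i) := by
  have hH := T.hH2
  have nd : ∀ g, ∀ b ≤ H, ∀ q, q = T.rho b → R.Node (T.c i g b) q (U i g b) (V i g b) := by
    intro g b hb q hq
    rw [hq]; exact hN i hi g b hb
  have nbc := T.nb_cross i hi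
  have nbp := T.nb_pos i hi
  have tL := T.tipL_cross i hi
  have tLp := T.tipL_pos i hi
  have tR := T.tipR_cross i hi
  have tRp := T.tipR_pos i hi
  have tLp' : ∀ g, C.pos (T.c i (!g) 0) (T.c i g 0) = T.rho 0 := by
    intro g
    have := tLp (!g)
    rwa [Bool.not_not] at this
  have tRp' : ∀ g, C.pos (T.c i (!g) H) (T.c i g H) = T.rho H := by
    intro g
    have := tRp (!g)
    rwa [Bool.not_not] at this
  have hne : ∀ g g' b b', b ≤ H → b' ≤ H → (g ≠ g' ∨ b ≠ b') → T.c i g b ≠ T.c i g' b' := by
    intro g g' b b' hb hb' h heq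
    obtain ⟨_, h2, h3⟩ := T.inj i hi i hi g g' b b' hb hb' heq
    rcases h with h | h
    · exact h h2
    · exact h h3
  have bn : ∀ g : Bool, g ≠ !g := by decide
  refine ⟨hH, ?_, ?_, ?_, ?_, ?_, ?_, ?_, ?_, ?_, ?_, ?_⟩
  · intro g b hb
    exact Rep.pc hG (nbc g b hb) (nd g b (by omega) _ (nbp g b hb).1)
      (nd g (b + 1) (by omega) _ (nbp g b hb).2)
  · exact Rep.pc hG (tL false) (nd false 0 (by omega) _ (tLp false))
      (nd true 0 (by omega) _ (tLp' false))
  · exact Rep.pc hG (tR false) (nd false H (by omega) _ (tRp false))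
      (nd true H (by omega) _ (tRp' false))
  · intro g b hb
    have m := T.mixed i hi g b hb
    have e1 := nbp g b (by omega)
    have e2 := nbp g (b + 1) (by omega)
    refine Rep.ord1 hG (hG.symm _ _ (nbc g b (by omega))) (nbc g (b + 1) (by omega))
      (by rw [e1.2, e2.1]) (hne g g b (b + 2) (by omega) (by omega) (Or.inr (by omega)))
      (fun _ => m.2.2) (T.invA i hi g b hb)
      (nd g (b + 1) (by omega) _ e1.2) (nd g b (by omega) _ e1.1)
      (nd g (b + 2) (by omega) _ e2.2)
  · intro g
    have e1 := nbp g 0 (by omega)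
    refine Rep.ord1 hG (tL g) (nbc g 0 (by omega)) (by rw [tLp g, e1.1])
      (hne (!g) g 0 1 (by omega) (by omega) (Or.inr (by omega)))
      (fun h => absurd h (T.nonadj_opp i hi g 1 (by omega) 0 (by omega) (by omega) (by omega)))
      (T.inv0 i hi g) (nd g 0 (by omega) _ (tLp g)) (nd (!g) 0 (by omega) _ (tLp' g))
      (nd g 1 (by omega) _ e1.2)
  · intro g
    have e1 := nbp g (H - 1) (by omega)
    have c1 := nbc g (H - 1) (by omega)
    rw [show H - 1 + 1 = H by omega] at e1 c1
    refine Rep.ord1 hG (hG.symm _ _ c1) (tR g) (by rw [tRp g, e1.2])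
      (hne g (!g) (H - 1) H (by omega) (by omega) (Or.inr (by omega)))
      (fun h => absurd (hG.symm _ _ h)
        (T.nonadj_opp i hi g (H - 1) (by omega) H (by omega) (by omega) (by omega)))
      (T.invH i hi g) (nd g H (by omega) _ e1.2) (nd g (H - 1) (by omega) _ e1.1)
      (nd (!g) H (by omega) _ (tRp' g))
  · intro g b hb
    have m := T.mixed i hi g b hb
    have e1 := nbp g b (by omega)
    have e2 := nbp g (b + 1) (by omega)
    exact Rep.sgn_mixed hG (hG.symm _ _ (nbc g b (by omega))) (nbc g (b + 1) (by omega))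
      (by rw [e1.2, e2.1]) m.1 m.2.1 m.2.2
      (nd g (b + 1) (by omega) _ e1.2) (nd g b (by omega) _ e1.1)
      (nd g (b + 2) (by omega) _ e2.2)
  · intro g
    have e1 := nbp g 0 (by omega)
    exact Rep.sgn_same hG (tL g) (nbc g 0 (by omega)) (by rw [tLp g, e1.1])
      (T.same0 i hi g) (nd g 0 (by omega) _ (tLp g)) (nd (!g) 0 (by omega) _ (tLp' g))
      (nd g 1 (by omega) _ e1.2)
  · intro g
    have e1 := nbp g (H - 1) (by omega)
    have c1 := nbc g (H - 1) (by omega)
    rw [show H - 1 + 1 = H by omega] at e1 c1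
    exact Rep.sgn_same hG (hG.symm _ _ c1) (tR g) (by rw [tRp g, e1.2])
      (T.sameH i hi g) (nd g H (by omega) _ e1.2) (nd g (H - 1) (by omega) _ e1.1)
      (nd (!g) H (by omega) _ (tRp' g))
  · intro g b b' h1 h2
    have n1 := hN i hi g b (by omega)
    have n2 := hN i hi g b' (by omega)
    refine Disjoint.mono n1.seg_subset n2.seg_subset ?_
    have := n1.hp2; have := n2.hp2
    refine R.disj_ch hG (by omega) (by omega)
      (hne g g b b' (by omega) (by omega) (Or.inr (by omega))) ?_
    rintro _ ⟨h3, _⟩
    exact T.nonadj_same i hi g b b' h1 h2 h3.symm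
  · intro b hb b' hb' h1 h2
    have n1 := hN i hi false b (by omega)
    have n2 := hN i hi true b' (by omega)
    refine Disjoint.mono n1.seg_subset n2.seg_subset ?_
    have := n1.hp2; have := n2.hp2
    refine R.disj_ch hG (by omega) (by omega)
      (hne false true b b' (by omega) (by omega) (Or.inl (by simp))) ?_
    intro hc
    exact absurd hc (T.nonadj_opp i hi false b hb b' hb' h1 h2)

/-- node points of the rigid links, and the convexity of the polygons -/
structure Ctx (R : Rep C) (T : Tubes C n H K ord) where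
  U : ℕ → Bool → ℕ → Pt
  V : ℕ → Bool → ℕ → Pt
  node : ∀ i < n, ∀ g, ∀ b ≤ H, R.Node (T.c i g b) (T.rho b) (U i g b) (V i g b)
  σ : ℕ → ℝ
  ring : ∀ i < n, RingData H (U i) (V i)
  poly : ∀ i < n, Poly (2 * H + 2) (σ i) (ringP H (U i) (V i))

theorem exists_ctx (hG : C.Good) (R : Rep C) (T : Tubes C n H K ord) : Nonempty (Ctx R T) := by
  classical
  have h0 : ∀ i g b, ∃ u v : Pt, i < n → b ≤ H → R.Node (T.c i g b) (T.rho b) u v := by
    intro i g b
    by_cases h : i < n ∧ b ≤ H
    · obtain ⟨u, v, hn⟩ := R.exists_node (T.c i g b) (T.rho1 b h.2) (T.rho2 b h.2)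
      exact ⟨u, v, fun _ _ => hn⟩
    · exact ⟨0, 0, fun h1 h2 => absurd ⟨h1, h2⟩ h⟩
  choose U V hUV using h0
  have hN : ∀ i < n, ∀ g, ∀ b ≤ H, R.Node (T.c i g b) (T.rho b) (U i g b) (V i g b) :=
    fun i hi g b hb => hUV i g b hi hb
  have hr : ∀ i < n, RingData H (U i) (V i) := fun i hi => ringData hG T hN hi
  have h1 : ∀ i, ∃ σ : ℝ, i < n → Poly (2 * H + 2) σ (ringP H (U i) (V i)) := by
    intro i
    by_cases h : i < n
    · obtain ⟨σ, hσ⟩ := (hr i h).poly
      exact ⟨σ, fun _ => hσ⟩
    · exact ⟨0, fun h' => absurd h' h⟩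
  choose σ hσ using h1
  exact ⟨⟨U, V, hN, σ, hr, hσ⟩⟩

end SegGirth
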