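import Mathlib
import Pool.Agent.Lib.MP_beb3fe_lc.TubeRing
import Pool.Agent.Lib.MP_beb3fe_lc.LamDef

/-!
# From the tubes of a representation to the abstract situation `Lam`
-/

namespace SegGirth

open Filter Topology Set

variable {C : ChordSys} {R : Rep C} {n H K : ℕ} {ord : ℕ → ℕ → ℕ}

/-- every point of the frame is connected to the top segment inside the frame -/
lemma Rep.conn_top (hG : C.Good) (hQ : 1 ≤ C.Q) {p : Pt} (hp : p ∈ R.FrameSet) :
    ∃ q ∈ R.S Vx.T, Conn R.FrameSet p q := by
  have hW := hG.hW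
  have vT : C.Valid (Vx.T : Vx C.X) := trivial
  have vB : C.Valid (Vx.B : Vx C.X) := trivial
  obtain ⟨tp, htp1, htp2⟩ := R.nonempty_inter (u := Vx.T) (v := Vx.wl 0) vT
    (show 0 < C.Q by omega) (by simp) (Or.inl rfl)
  obtain ⟨tr, htr1, htr2⟩ := R.nonempty_inter (u := Vx.T) (v := Vx.wr 0) vT
    (show 0 < C.Q by omega) (by simp) (Or.inl rfl)
  obtain ⟨tq, htq1, htq2⟩ := R.nonempty_inter (u := Vx.T) (v := Vx.om 0) vT
    (show 0 < C.W by omega) (by simp) (Or.inl rfl)
  obtain ⟨bp, hbp1, hbp2⟩ := R.nonempty_inter (u := Vx.B) (v := Vx.wl (C.Q - 1)) vB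
    (show C.Q - 1 < C.Q by omega) (by simp) (Or.inl (show C.Q - 1 + 1 = C.Q by omega))
  have sl : R.Un Vx.wl 0 (C.Q - 1) ⊆ R.FrameSet := fun x hx => Or.inl (Or.inl (Or.inr hx))
  have sr : R.Un Vx.wr 0 (C.Q - 1) ⊆ R.FrameSet := fun x hx => Or.inl (Or.inr hx)
  have so : R.Un Vx.om 0 (C.W - 1) ⊆ R.FrameSet := fun x hx => Or.inr hx
  have sB : R.S Vx.B ⊆ R.FrameSet := fun x hx => Or.inl (Or.inl (Or.inl (Or.inr hx)))
  have cl : ∀ t, t < C.Q → ∀ x ∈ R.S (Vx.wl t), Conn R.FrameSet x tp := by
    intro t ht x hx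
    refine ((R.conn_chain Vx.wl 0 t (Nat.zero_le _) (fun s _ hs => show s < C.Q by omega)
      (fun s _ _ => by simp) (fun s _ _ => Or.inl rfl) htp2 hx).mono ?_).symm
    refine Subset.trans ?_ sl
    rintro y ⟨s, h1, h2, h3⟩; exact ⟨s, h1, by omega, h3⟩
  rcases hp with (((hp | hp) | ⟨t, h1, h2, hp⟩) | ⟨t, h1, h2, hp⟩) | ⟨t, h1, h2, hp⟩
  · exact ⟨p, hp, Conn.refl (Or.inl (Or.inl (Or.inl (Or.inl hp))))⟩
  · exact ⟨tp, htp1, ((Conn.of_convex (R.convex_S _) hp hbp1).mono sB).trans
      (cl (C.Q - 1) (by omega) bp hbp2)⟩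
  · exact ⟨tp, htp1, cl t (by omega) p hp⟩
  · refine ⟨tr, htr1, ?_⟩
    refine ((R.conn_chain Vx.wr 0 t (Nat.zero_le _) (fun s _ hs => show s < C.Q by omega)
      (fun s _ _ => by simp) (fun s _ _ => Or.inl rfl) htr2 hp).mono ?_).symm
    refine Subset.trans ?_ sr
    rintro y ⟨s, h1, h2, h3⟩; exact ⟨s, h1, by omega, h3⟩
  · refine ⟨tq, htq1, ?_⟩
    refine ((R.conn_chain Vx.om 0 t (Nat.zero_le _) (fun s _ hs => show s < C.W by omega)
      (fun s _ _ => by simp) (fun s _ _ => Or.inl rfl) htq2 hp).mono ?_).symm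
    refine Subset.trans ?_ so
    rintro y ⟨s, h1, h2, h3⟩; exact ⟨s, h1, by omega, h3⟩

lemma Rep.conn_frame (hG : C.Good) (hQ : 1 ≤ C.Q) {p q : Pt} (hp : p ∈ R.FrameSet)
    (hq : q ∈ R.FrameSet) : Conn R.FrameSet p q := by
  obtain ⟨p', hp', c1⟩ := R.conn_top hG hQ hp
  obtain ⟨q', hq', c2⟩ := R.conn_top hG hQ hq
  refine (c1.trans ((Conn.of_convex (R.convex_S _) hp' hq').mono ?_)).trans c2.symm
  exact fun x hx => Or.inl (Or.inl (Or.inl (Or.inl hx)))

namespace Ctx

variable {T : Tubes C n H K ord} (X : Ctx R T)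

/-- edges of the polygon of tube `i` -/
def E (i : ℕ) (g : Bool) (b : ℕ) : Set Pt :=
  segment ℝ (ptL (X.U i) (X.V i) g b) (ptR H (X.U i) (X.V i) g b)

/-- the region of tube `i` -/
def Kr (i : ℕ) : Set Pt := Reg (X.σ i) (ringP H (X.U i) (X.V i))

/-- boundary of the region -/
def Bdy (i : ℕ) : Set Pt := {w | ∃ g b, b ≤ H ∧ w ∈ X.E i g b}

/-- all links of tube `i` -/
def AT (R : Rep C) (T : Tubes C n H K ord) (i : ℕ) : Set Pt :=
  {x | ∃ g b t, b ≤ H ∧ t < C.N ∧ x ∈ R.S (Vx.ch (T.c i g b) t)}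

variable {X}

lemma rigid_subset {i : ℕ} (hi : i < n) (g : Bool) {b : ℕ} (hb : b ≤ H) :
    segment ℝ (X.U i g b) (X.V i g b) ⊆ R.S (Vx.ch (T.c i g b) (T.rho b)) :=
  (X.node i hi g b hb).seg_subset

lemma E_subset_rigid {i : ℕ} (hi : i < n) (g : Bool) {b : ℕ} (hb : b ≤ H) :
    X.E i g b ⊆ R.S (Vx.ch (T.c i g b) (T.rho b)) :=
  ((X.ring i hi).edge_subset g hb).trans (rigid_subset hi g hb)

lemma Bd_eq {i : ℕ} : Bd (ringP H (X.U i) (X.V i)) ⊆ X.Bdy i := by
  rintro w ⟨l, hl⟩
  have hl' : w ∈ segment ℝ (ringP H (X.U i) (X.V i) (l % (2 * H + 2)))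
      (ringP H (X.U i) (X.V i) (l % (2 * H + 2) + 1)) := by
    have e0 : ringP H (X.U i) (X.V i) (l % (2 * H + 2)) = ringP H (X.U i) (X.V i) l :=
      (RingData.ringP_mod l).symm
    have e1 : ringP H (X.U i) (X.V i) (l % (2 * H + 2) + 1) =
        ringP H (X.U i) (X.V i) (l + 1) := by
      rw [RingData.ringP_mod, RingData.ringP_mod (l + 1), Nat.mod_add_mod]
    rw [e0, e1]; exact hl
  rcases RingData.edge_cases (H := H) (U := X.U i) (V := X.V i) (l := l % (2 * H + 2))
    (Nat.mod_lt _ (by omega)) with ⟨b, hb, _, e1, e2⟩ | ⟨b, hb, _, e1, e2⟩ | ⟨_, e1, e2⟩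
  · rw [e1, e2] at hl'
    exact ⟨false, b + 1, by omega, hl'⟩
  · rw [e1, e2, segment_symm] at hl'
    exact ⟨true, b, hb, hl'⟩
  · rw [e1, e2] at hl'
    exact ⟨false, 0, by omega, hl'⟩

lemma Kr_convex {i : ℕ} (hi : i < n) : Convex ℝ (X.Kr i) := (X.poly i hi).convex

lemma exit' {i : ℕ} (hi : i < n) {x y : Pt} (hx : x ∈ X.Kr i) (hy : y ∉ X.Kr i) :
    ∃ z ∈ segment ℝ x y, z ∈ X.Bdy i := by
  obtain ⟨z, hz1, hz2⟩ := (X.poly i hi).exit hx hy
  exact ⟨z, hz1, Bd_eq hz2⟩

/-- connected sets avoiding the boundary stay outside -/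
lemma outside {i : ℕ} (hi : i < n) {W : Set Pt} {a b : Pt} (hc : Conn W a b)
    (hd : Disjoint W (X.Bdy i)) (ha : a ∉ X.Kr i) : b ∉ X.Kr i :=
  (X.poly i hi).conn_not_mem hc (hd.mono_right Bd_eq) ha

lemma ptL_mem_Kr {i : ℕ} (hi : i < n) (g : Bool) {b : ℕ} (hb : b ≤ H) :
    ptL (X.U i) (X.V i) g b ∈ X.Kr i := by
  by_cases h0 : b = 0
  · subst h0
    have := (X.poly i hi).vertex_mem (2 * H + 1)
    rw [RingData.ringP_last] at this
    rw [ptL_zero g false]
    exact this
  · cases g
    · have := (X.poly i hi).vertex_mem (b - 1)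
      rw [(RingData.edge_lo (H := H) (b := b - 1) (by omega)).1, show b - 1 + 1 = b by omega] at this
      exact this
    · have := (X.poly i hi).vertex_mem (2 * H - b + 1)
      rw [(RingData.edge_up (H := H) (b := b) (by omega)).2] at this
      exact this

lemma ptR_mem_Kr {i : ℕ} (hi : i < n) (g : Bool) {b : ℕ} (hb : b ≤ H) :
    ptR H (X.U i) (X.V i) g b ∈ X.Kr i := by
  by_cases h0 : b < H
  · rw [ptR_eq_ptL h0]
    exact ptL_mem_Kr hi g (by omega)
  · obtain rfl : b = H := by omega
    rw [ptR_last g true]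
    have := (X.poly i hi).vertex_mem (2 * b - b)
    rw [(RingData.edge_up (H := b) (b := b) (by omega)).1] at this
    exact this

lemma E_subset_Kr {i : ℕ} (hi : i < n) (g : Bool) {b : ℕ} (hb : b ≤ H) :
    X.E i g b ⊆ X.Kr i :=
  (Kr_convex hi).segment_subset (ptL_mem_Kr hi g hb) (ptR_mem_Kr hi g hb)

/-- points of the first rigid link left of the tip are outside the region -/
lemma left_beyond {i : ℕ} (hi : i < n) {s : ℝ} (hs : s < RingData.pL (X.U i) (X.V i) false 0) :
    (1 - s) • X.U i false 0 + s • X.V i false 0 ∉ X.Kr i := by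
  have hR := X.ring i hi
  have h1 := hR.par_lt false (b := 0) (by omega)
  have e1 := hR.ptL_eq' false (b := 0) (by omega)
  have e2 := hR.ptR_eq' false (b := 0) (by omega)
  set p := RingData.pL (X.U i) (X.V i) false 0 with hp
  set q := RingData.pR H (X.U i) (X.V i) false 0 with hq
  have hs' : (s - p) / (q - p) < 0 := div_neg_of_neg_of_pos (by linarith) (by linarith)
  have := (X.poly i hi).beyond_left (l := 2 * H + 1) hs'
  rw [RingData.ringP_last, show 2 * H + 1 + 1 = 2 * H + 2 by ring, RingData.ringP_period,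
    e1, e2] at this
  have e : (1 - (s - p) / (q - p)) • ((1 - p) • X.U i false 0 + p • X.V i false 0) +
      ((s - p) / (q - p)) • ((1 - q) • X.U i false 0 + q • X.V i false 0) =
      (1 - s) • X.U i false 0 + s • X.V i false 0 := by
    have hqp : q - p ≠ 0 := by linarith
    ext
    · simp only [Prod.fst_add, Prod.smul_fst, smul_eq_mul]
      field_simp
      ring
    · simp only [Prod.snd_add, Prod.smul_snd, smul_eq_mul]
      field_simp
      ring
  rw [e] at this
  exact this

/-- points of the last rigid link right of the tip are outside the region -/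
lemma right_beyond {i : ℕ} (hi : i < n) {s : ℝ}
    (hs : RingData.pR H (X.U i) (X.V i) false H < s) :
    (1 - s) • X.U i false H + s • X.V i false H ∉ X.Kr i := by
  have hR := X.ring i hi
  have hH := T.hH2
  have h1 := hR.par_lt false (b := H) (by omega)
  have e1 := hR.ptL_eq' false (b := H) (by omega)
  have e2 := hR.ptR_eq' false (b := H) (by omega)
  set p := RingData.pL (X.U i) (X.V i) false H with hp
  set q := RingData.pR H (X.U i) (X.V i) false H with hq
  have hs' : 1 < (s - p) / (q - p) := by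
    rw [lt_div_iff₀ (by linarith)]; linarith
  have := (X.poly i hi).beyond_right (l := H - 1) hs'
  rw [(RingData.edge_lo (H := H) (b := H - 1) (by omega)).1,
    (RingData.edge_lo (H := H) (b := H - 1) (by omega)).2, show H - 1 + 1 = H by omega,
    e1, e2] at this
  have e : (1 - (s - p) / (q - p)) • ((1 - p) • X.U i false H + p • X.V i false H) +
      ((s - p) / (q - p)) • ((1 - q) • X.U i false H + q • X.V i false H) =
      (1 - s) • X.U i false H + s • X.V i false H := by
    have hqp : q - p ≠ 0 := by linarith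
    ext
    · simp only [Prod.fst_add, Prod.smul_fst, smul_eq_mul]
      field_simp
      ring
    · simp only [Prod.snd_add, Prod.smul_snd, smul_eq_mul]
      field_simp
      ring
  rw [e] at this
  exact this

lemma U_not_mem {i : ℕ} (hi : i < n) : X.U i false 0 ∉ X.Kr i := by
  have h := ((X.ring i hi).parL_mem false (b := 0) (by omega)).1
  have := left_beyond (X := X) hi (s := 0) h
  simpa using this

lemma V_not_mem {i : ℕ} (hi : i < n) : X.V i false H ∉ X.Kr i := by
  have h := ((X.ring i hi).parR_mem false (b := H) (by omega)).2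
  have := right_beyond (X := X) hi (s := 1) h
  simpa using this

/-- the left part of the first chord avoids the boundary -/
lemma CL_Bdy (hG : C.Good) {i : ℕ} (hi : i < n) :
    Disjoint (R.CU (T.c i false 0) 0 (T.rho 0 - 1)) (X.Bdy i) := by
  have hH := T.hH2
  have r1 := T.rho1 0 (by omega)
  have r2 := T.rho2 0 (by omega)
  have e1 := T.nb_pos i hi false 0 (by omega)
  have e3 := T.tipL_pos i hi false
  rw [Set.disjoint_left]
  rintro w hw ⟨g, b, hb, hwb⟩
  by_cases h0 : g = false ∧ b = 0
  · obtain ⟨rfl, rfl⟩ := h0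
    have hbt := Rep.between_disj hG (T.tipL_cross i hi false)
      (T.nb_cross i hi false 0 (by omega)) (by rw [e3, e1.1])
      (by rw [e3]; exact X.node i hi false 0 (by omega))
      (r := X.U i true 0) (t := X.V i true 0) (by
        have := T.tipL_pos i hi true
        rw [Bool.not_true] at this
        rw [Bool.not_false, this]; exact X.node i hi true 0 (by omega))
      (r' := X.U i false 1) (t' := X.V i false 1) (by
        rw [Nat.zero_add, e1.2]
        exact X.node i hi false 1 (by omega))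
    have hwE : w ∈ segment ℝ
        (cpt (X.U i false 0) (X.V i false 0) (X.U i true 0) (X.V i true 0))
        (cpt (X.U i false 0) (X.V i false 0) (X.U i false 1) (X.V i false 1)) := by
      have h5 : ptL (X.U i) (X.V i) false 0 =
          cpt (X.U i false 0) (X.V i false 0) (X.U i true 0) (X.V i true 0) := by simp [ptL]
      have h6 : ptR H (X.U i) (X.V i) false 0 =
          cpt (X.U i false 0) (X.V i false 0) (X.U i false 1) (X.V i false 1) := by
        simp [ptR, show 0 < H by omega]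
      rw [← h5, ← h6]; exact hwb
    refine Set.disjoint_left.1 hbt hwE (Or.inl ?_)
    rw [e3]; exact hw
  · have hne : T.c i false 0 ≠ T.c i g b := by
      intro h
      obtain ⟨_, h2, h3⟩ := T.inj i hi i hi false g 0 b (by omega) hb h
      exact h0 ⟨h2.symm, h3.symm⟩
    have n2 := X.node i hi g b hb
    have := n2.hp2
    have hd := R.disj_CU hG hne (i := 0) (j := T.rho 0 - 1) (i' := T.rho b) (j' := T.rho b)
      (by omega) (by omega) (by
        intro hc
        have hpos : T.rho 0 ≤ C.pos (T.c i false 0) (T.c i g b) := by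
          cases g
          · exact T.start_own i hi false b hb (fun h => h0 ⟨rfl, h⟩)
          · by_cases hb0 : b = 0
            · subst hb0
              exact le_of_eq e3.symm
            · exact absurd hc (T.nonadj_opp i hi false 0 (by omega) b hb (by omega) (by omega))
        omega)
    exact Set.disjoint_left.1 hd hw (R.subset_CU _ (le_refl _) (le_refl _)
      (E_subset_rigid hi g hb hwb))

/-- the right part of the last chord avoids the boundary -/
lemma CR_Bdy (hG : C.Good) {i : ℕ} (hi : i < n) :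
    Disjoint (R.CU (T.c i false H) (T.rho H + 1) (C.N - 1)) (X.Bdy i) := by
  have hH := T.hH2
  have r1 := T.rho1 H (by omega)
  have r2 := T.rho2 H (by omega)
  have e1 := T.nb_pos i hi false (H - 1) (by omega)
  have c1 := T.nb_cross i hi false (H - 1) (by omega)
  rw [show H - 1 + 1 = H by omega] at e1 c1
  have e3 := T.tipR_pos i hi false
  rw [Set.disjoint_left]
  rintro w hw ⟨g, b, hb, hwb⟩
  by_cases h0 : g = false ∧ b = H
  · obtain ⟨rfl, rfl⟩ := h0
    have hbt := Rep.between_disj hG (hG.symm _ _ c1) (T.tipR_cross i hi false)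
      (by rw [e3, e1.2])
      (by rw [e1.2]; exact X.node i hi false b (by omega))
      (r := X.U i false (b - 1)) (t := X.V i false (b - 1)) (by
        rw [e1.1]; exact X.node i hi false (b - 1) (by omega))
      (r' := X.U i true b) (t' := X.V i true b) (by
        have := T.tipR_pos i hi true
        rw [Bool.not_true] at this
        rw [Bool.not_false, this]; exact X.node i hi true b (by omega))
    have hR := X.ring i hi
    have hwE : w ∈ segment ℝ
        (cpt (X.U i false b) (X.V i false b) (X.U i false (b - 1)) (X.V i false (b - 1)))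
        (cpt (X.U i false b) (X.V i false b) (X.U i true b) (X.V i true b)) := by
      have h5 := hR.ptL_eq false (b := b) (by omega)
      have h6 := hR.ptR_eq false (b := b) (by omega)
      simp only [nbL, show b ≠ 0 by omega, if_false] at h5
      simp only [nbR, lt_irrefl, if_false, Bool.not_false] at h6
      rw [← h5, ← h6]; exact hwb
    refine Set.disjoint_left.1 hbt hwE (Or.inr ?_)
    rw [e1.2]; exact hw
  · have hne : T.c i false H ≠ T.c i g b := by
      intro h
      obtain ⟨_, h2, h3⟩ := T.inj i hi i hi false g H b (by omega) hb h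
      exact h0 ⟨h2.symm, h3.symm⟩
    have n2 := X.node i hi g b hb
    have := n2.hp2
    have hd := R.disj_CU hG hne (i := T.rho H + 1) (j := C.N - 1) (i' := T.rho b) (j' := T.rho b)
      (by omega) (by omega) (by
        intro hc
        have hpos : C.pos (T.c i false H) (T.c i g b) ≤ T.rho H := by
          cases g
          · exact T.end_own i hi false b (by
              rcases Nat.lt_or_ge b H with h | h
              · exact h
              · exact absurd ⟨rfl, by omega⟩ h0)
          · by_cases hb0 : b = H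
            · subst hb0
              exact le_of_eq e3
            · exact absurd hc (T.nonadj_opp i hi false H (by omega) b hb (by omega) (by omega))
        omega)
    exact Set.disjoint_left.1 hd hw (R.subset_CU _ (le_refl _) (le_refl _)
      (E_subset_rigid hi g hb hwb))

lemma CL_Kr (hG : C.Good) {i : ℕ} (hi : i < n) :
    Disjoint (R.CU (T.c i false 0) 0 (T.rho 0 - 1)) (X.Kr i) := by
  have nd := X.node i hi false 0 (by omega)
  have h1 := nd.hp1; have h2 := nd.hp2
  rw [Set.disjoint_left]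
  rintro w hw hwK
  obtain ⟨t, ht1, ht2, ht⟩ := hw
  have hc : Conn (R.CU (T.c i false 0) 0 (T.rho 0 - 1)) w (X.U i false 0) :=
    (R.conn_CU (i := t) (j := T.rho 0 - 1) ht2 (by omega) ht nd.u1).mono
      (R.CU_mono _ (by omega) (by omega))
  exact outside hi hc.symm (CL_Bdy hG hi) (U_not_mem hi) hwK

lemma CR_Kr (hG : C.Good) {i : ℕ} (hi : i < n) :
    Disjoint (R.CU (T.c i false H) (T.rho H + 1) (C.N - 1)) (X.Kr i) := by
  have nd := X.node i hi false H (by omega)
  have h1 := nd.hp1; have h2 := nd.hp2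
  rw [Set.disjoint_left]
  rintro w hw hwK
  obtain ⟨t, ht1, ht2, ht⟩ := hw
  have hc : Conn (R.CU (T.c i false H) (T.rho H + 1) (C.N - 1)) (X.V i false H) w :=
    (R.conn_CU (i := T.rho H + 1) (j := t) ht1 (by omega) nd.v2 ht).mono
      (R.CU_mono _ (by omega) (by omega))
  exact outside hi hc (CR_Bdy hG hi) (V_not_mem hi) hwK

lemma frame_Bdy (hG : C.Good) {i : ℕ} (hi : i < n) : Disjoint R.FrameSet (X.Bdy i) := by
  rw [Set.disjoint_left]
  rintro w hw ⟨g, b, hb, hwb⟩
  have n2 := X.node i hi g b hb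
  exact Set.disjoint_left.1 (R.ch_frame hG n2.hp1 n2.hp2) (E_subset_rigid hi g hb hwb) hw

/-- the frame is outside all regions -/
lemma frame_Kr (hG : C.Good) {i : ℕ} (hi : i < n) : Disjoint (X.Kr i) R.FrameSet := by
  have hq := hG.la2 (T.c i false 0)
  have nd := X.node i hi false 0 (by omega)
  have h2 := nd.hp2
  obtain ⟨a, ha1, ha2⟩ := R.nonempty_inter (u := Vx.ch (T.c i false 0) 0)
    (v := Vx.wl (C.la (T.c i false 0)))
    (show 0 < C.N by omega) (show C.la (T.c i false 0) < C.Q by omega) (by simp)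
    (Or.inl ⟨rfl, rfl⟩)
  have hnd1 := nd.hp1
  have ha : a ∉ X.Kr i := by
    intro haK
    exact Set.disjoint_left.1 (CL_Kr hG hi)
      (R.subset_CU (T.c i false 0) (Nat.zero_le 0) (Nat.zero_le _) ha1) haK
  have haF : a ∈ R.FrameSet :=
    R.subset_FrameSet (v := Vx.wl (C.la (T.c i false 0))) (show C.la (T.c i false 0) < C.Q by omega)
      ha2
  rw [Set.disjoint_left]
  intro w hwK hwF
  exact outside hi (Rep.conn_frame hG (by omega) haF hwF) (frame_Bdy hG hi) ha hwK

/-- chord sets of another tube that avoid the rigid links -/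
lemma first_AT (hG : C.Good) {i j : ℕ} (hi : i < n) (hj : j < n) (hij : i ≠ j) (g : Bool) :
    Disjoint (R.CU (T.c i g 0) 0 (T.rho 0)) (AT R T j) := by
  have r2 := T.rho2 0 (by omega)
  rw [Set.disjoint_left]
  rintro w hw ⟨g', b, t, hb, ht, hwb⟩
  have hne : T.c i g 0 ≠ T.c j g' b := fun h =>
    hij (T.inj i hi j hj g g' 0 b (by omega) hb h).1
  have hd := R.disj_CU hG hne (i := 0) (j := T.rho 0) (i' := t) (j' := t)
      (by omega) (by omega) (by
        intro hc
        have := T.start_diff i hi j hj hij g g' b hb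
        omega)
  exact Set.disjoint_left.1 hd hw (R.subset_CU _ (le_refl _) (le_refl _) hwb)

lemma last_AT (hG : C.Good) {i j : ℕ} (hi : i < n) (hj : j < n) (hij : i ≠ j) (g : Bool) :
    Disjoint (R.CU (T.c i g H) (T.rho H) (C.N - 1)) (AT R T j) := by
  have r2 := T.rho2 H (by omega)
  rw [Set.disjoint_left]
  rintro w hw ⟨g', b, t, hb, ht, hwb⟩
  have hne : T.c i g H ≠ T.c j g' b := fun h =>
    hij (T.inj i hi j hj g g' H b (by omega) hb h).1
  have hd := R.disj_CU hG hne (i := T.rho H) (j := C.N - 1) (i' := t) (j' := t)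
      (by omega) (by omega) (by
        intro hc
        have := T.end_diff i hi j hj hij g g' b hb
        omega)
  exact Set.disjoint_left.1 hd hw (R.subset_CU _ (le_refl _) (le_refl _) hwb)

lemma Bdy_AT {i : ℕ} (hi : i < n) : X.Bdy i ⊆ AT R T i := by
  rintro w ⟨g, b, hb, hwb⟩
  have := (X.node i hi g b hb).hp2
  exact ⟨g, b, T.rho b, hb, by omega, E_subset_rigid hi g hb hwb⟩

lemma first_Kr (hG : C.Good) {i j : ℕ} (hi : i < n) (hj : j < n) (hij : i ≠ j) (g : Bool) :
    Disjoint (R.CU (T.c i g 0) 0 (T.rho 0)) (X.Kr j) := by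
  have hq := hG.la2 (T.c i g 0)
  have r2 := T.rho2 0 (by omega)
  obtain ⟨a, ha1, ha2⟩ := R.nonempty_inter (u := Vx.ch (T.c i g 0) 0)
    (v := Vx.wl (C.la (T.c i g 0)))
    (show 0 < C.N by omega) (show C.la (T.c i g 0) < C.Q by omega) (by simp)
    (Or.inl ⟨rfl, rfl⟩)
  have haF : a ∈ R.FrameSet :=
    R.subset_FrameSet (v := Vx.wl (C.la (T.c i g 0))) (show C.la (T.c i g 0) < C.Q by omega) ha2
  have ha : a ∉ X.Kr j := fun h => Set.disjoint_left.1 (frame_Kr hG hj) h haF
  rw [Set.disjoint_left]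
  rintro w ⟨t, h1, h2, h3⟩ hwK
  refine outside hj (R.conn_CU (i := 0) (j := t) (Nat.zero_le _) (by omega) ha1 h3) ?_ ha hwK
  exact (first_AT hG hi hj hij g).mono (R.CU_mono _ (by omega) (by omega)) (Bdy_AT hj)

lemma last_Kr (hG : C.Good) {i j : ℕ} (hi : i < n) (hj : j < n) (hij : i ≠ j) (g : Bool) :
    Disjoint (R.CU (T.c i g H) (T.rho H) (C.N - 1)) (X.Kr j) := by
  have hq := hG.ra2 (T.c i g H)
  have r2 := T.rho2 H (by omega)
  obtain ⟨a, ha1, ha2⟩ := R.nonempty_inter (u := Vx.ch (T.c i g H) (C.N - 1))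
    (v := Vx.wr (C.ra (T.c i g H)))
    (show C.N - 1 < C.N by omega) (show C.ra (T.c i g H) < C.Q by omega) (by simp)
    (Or.inl ⟨show C.N - 1 + 1 = C.N by omega, rfl⟩)
  have haF : a ∈ R.FrameSet :=
    R.subset_FrameSet (v := Vx.wr (C.ra (T.c i g H))) (show C.ra (T.c i g H) < C.Q by omega) ha2
  have ha : a ∉ X.Kr j := fun h => Set.disjoint_left.1 (frame_Kr hG hj) h haF
  rw [Set.disjoint_left]
  rintro w ⟨t, h1, h2, h3⟩ hwK
  refine outside hj (R.conn_CU (i := t) (j := C.N - 1) h2 (by omega) h3 ha1).symm ?_ ha hwK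
  exact (last_AT hG hi hj hij g).mono (R.CU_mono _ (by omega) (by omega)) (Bdy_AT hj)

/-! ### strings -/

variable (X)

/-- left string of tube `i` -/
def LSt (i : ℕ) : Set Pt :=
  R.CU (T.c i false 0) 0 (T.rho 0 - 1) ∪ segment ℝ (X.U i false 0) (ptL (X.U i) (X.V i) false 0)

/-- right string of tube `i` -/
def RSt (i : ℕ) : Set Pt :=
  segment ℝ (ptR H (X.U i) (X.V i) false H) (X.V i false H) ∪
    R.CU (T.c i false H) (T.rho H + 1) (C.N - 1)

variable {X}

lemma LSt_subset {i : ℕ} (hi : i < n) : X.LSt i ⊆ R.CU (T.c i false 0) 0 (T.rho 0) := by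
  have nd := X.node i hi false 0 (by omega)
  rintro w (hw | hw)
  · exact R.CU_mono _ (by omega) (by omega) hw
  · refine R.subset_CU _ (Nat.zero_le _) (le_refl _) (nd.seg_subset ?_)
    exact (convex_segment _ _).segment_subset (left_mem_segment ℝ _ _)
      ((X.ring i hi).ptL_mem false (by omega)) hw

lemma RSt_subset {i : ℕ} (hi : i < n) : X.RSt i ⊆ R.CU (T.c i false H) (T.rho H) (C.N - 1) := by
  have nd := X.node i hi false H (by omega)
  have := nd.hp2
  rintro w (hw | hw)
  · refine R.subset_CU _ (le_refl _) (by omega) (nd.seg_subset ?_)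
    exact (convex_segment _ _).segment_subset ((X.ring i hi).ptR_mem false (by omega))
      (right_mem_segment ℝ _ _) hw
  · exact R.CU_mono _ (by omega) (by omega) hw

lemma first_sub_AT {i : ℕ} (g : Bool) : R.CU (T.c i g 0) 0 (T.rho 0) ⊆ AT R T i := by
  have := T.rho2 0 (by omega)
  rintro w ⟨t, h1, h2, h3⟩
  exact ⟨g, 0, t, by omega, by omega, h3⟩

lemma last_sub_AT {i : ℕ} (g : Bool) : R.CU (T.c i g H) (T.rho H) (C.N - 1) ⊆ AT R T i := by
  have := T.rho2 H (by omega)
  rintro w ⟨t, h1, h2, h3⟩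
  exact ⟨g, H, t, by omega, by omega, h3⟩

/-- the strings of tube `k` avoid all chords of the other tubes -/
lemma AT_strings (hG : C.Good) {i k : ℕ} (hi : i < n) (hk : k < n) (hik : i ≠ k) :
    Disjoint (AT R T i) (X.LSt k ∪ X.RSt k) := by
  rw [Set.disjoint_union_right]
  exact ⟨((first_AT hG hk hi (Ne.symm hik) false).symm).mono_right (LSt_subset hk),
    ((last_AT hG hk hi (Ne.symm hik) false).symm).mono_right (RSt_subset hk)⟩

lemma strings_Kr (hG : C.Good) {i k : ℕ} (hi : i < n) (hk : k < n) (hik : i ≠ k) :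
    Disjoint (X.LSt i ∪ X.RSt i) (X.Kr k) := by
  rw [Set.disjoint_union_left]
  exact ⟨(first_Kr hG hi hk hik false).mono_left (LSt_subset hi),
    (last_Kr hG hi hk hik false).mono_left (RSt_subset hi)⟩

lemma seg_frame (X : Ctx R T) (hG : C.Good) {i : ℕ} (hi : i < n) (g : Bool) {b : ℕ} (hb : b ≤ H) {s : Set Pt}
    (hs : s ⊆ R.S (Vx.ch (T.c i g b) (T.rho b))) : Disjoint s R.FrameSet := by
  have n2 := X.node i hi g b hb
  exact (R.ch_frame hG n2.hp1 n2.hp2).mono_left hs

lemma hLSt (hG : C.Good) {i : ℕ} (hi : i < n) :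
    R.LP (C.la (T.c i false 0)) (X.LSt i) (ptL (X.U i) (X.V i) false 0) := by
  have nd := X.node i hi false 0 (by omega)
  refine (nd.lp hG).seg (seg_frame X hG hi false (Nat.zero_le H) ?_)
  exact (R.convex_S _).segment_subset nd.u2
    (nd.seg_subset ((X.ring i hi).ptL_mem false (by omega)))

lemma hRSt (hG : C.Good) {i : ℕ} (hi : i < n) :
    R.RP (C.ra (T.c i false H)) (X.RSt i) (ptR H (X.U i) (X.V i) false H) := by
  have nd := X.node i hi false H (by omega)
  refine (nd.rp hG).seg (seg_frame X hG hi false (le_refl H) ?_)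
  exact (R.convex_S _).segment_subset
    (nd.seg_subset ((X.ring i hi).ptR_mem false (by omega))) nd.v1

lemma own' (hG : C.Good) {i : ℕ} (hi : i < n) {x : Pt} (hx : x ∈ X.Kr i)
    (hs : x ∈ X.LSt i ∪ X.RSt i) :
    x = ptL (X.U i) (X.V i) false 0 ∨ x = ptR H (X.U i) (X.V i) false H := by
  have hR := X.ring i hi
  rcases hs with (hs | hs) | (hs | hs)
  · exact absurd hx (Set.disjoint_left.1 (CL_Kr hG hi) hs)
  · left
    have e1 := hR.ptL_eq' false (b := 0) (by omega)
    have m1 := hR.parL_mem false (b := 0) (by omega)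
    obtain ⟨t, h0, h1, h2⟩ := seg_left_iff m1.1.le m1.2.le e1 hs
    rcases eq_or_lt_of_le h1 with h3 | h3
    · rw [h2, h3, ← e1]
    · exact absurd (h2 ▸ hx) (left_beyond hi h3)
  · right
    have e1 := hR.ptR_eq' false (b := H) (by omega)
    have m1 := hR.parR_mem false (b := H) (by omega)
    obtain ⟨t, h0, h1, h2⟩ := seg_mid (s := RingData.pR H (X.U i) (X.V i) false H) (t := 1)
      m1.1.le m1.2.le zero_le_one (le_refl (1:ℝ)) e1
      (show X.V i false H = (1 - (1:ℝ)) • X.U i false H + (1:ℝ) • X.V i false H by simp) hs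
    rw [min_eq_left m1.2.le] at h0
    rcases eq_or_lt_of_le h0 with h3 | h3
    · rw [h2, ← h3, ← e1]
    · exact absurd (h2 ▸ hx) (right_beyond hi h3)
  · exact absurd hx (Set.disjoint_left.1 (CR_Kr hG hi) hs)

/-! ### chains of edges -/

/-- a rigid link that is no anchor for tube `k` avoids the boundary of tube `k` -/
lemma rigid_Bdy (hG : C.Good) {i k : ℕ} (hi : i < n) (hk : k < n) (hik : i ≠ k) (g : Bool)
    {b : ℕ} (hb : b ≤ H) (h1 : b ≠ K * (2 * ord i k + 1)) (h2 : b ≠ K * (2 * ord i k + 2)) :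
    Disjoint (R.S (Vx.ch (T.c i g b) (T.rho b))) (X.Bdy k) := by
  rw [Set.disjoint_left]
  rintro w hw ⟨g', b', hb', hwb⟩
  have n1 := X.node i hi g b hb
  have n2 := X.node k hk g' b' hb'
  have := n1.hp2; have := n2.hp2
  have hne : T.c i g b ≠ T.c k g' b' := fun h =>
    hik (T.inj i hi k hk g g' b b' hb hb' h).1
  refine Set.disjoint_left.1 (R.disj_ch hG (t := T.rho b) (t' := T.rho b') (by omega) (by omega)
    hne ?_) hw (E_subset_rigid hk g' hb' hwb)
  rintro _ ⟨h3, _⟩
  rcases T.rigid_diff i hi k hk hik g g' b b' hb hb' h3.symm with h | h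
  · exact h1 h
  · exact h2 h

lemma ordK (T : Tubes C n H K ord) {i k : ℕ} (hi : i < n) (hk : k < n) (hik : i ≠ k) :
    K * (2 * ord i k + 2) < H ∧ 1 ≤ K * (2 * ord i k + 1) ∧
      K * (2 * ord i k + 1) < K * (2 * ord i k + 2) := by
  have h1 := T.ordlt i hi k hk hik
  have h2 := T.hH
  have h3 := T.hK
  have h4 : K * (2 * ord i k + 2) ≤ K * (2 * n - 2) := Nat.mul_le_mul_left _ (by omega)
  refine ⟨by omega, Nat.one_le_iff_ne_zero.2 (Nat.mul_ne_zero (by omega) (by omega)), ?_⟩
  exact Nat.mul_lt_mul_of_pos_left (by omega) (by omega)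

lemma left_out (hG : C.Good) {i k : ℕ} (hi : i < n) (hk : k < n) (hik : i ≠ k) (g : Bool)
    {b : ℕ} (hb : b < K * (2 * ord i k + 1)) :
    ptR H (X.U i) (X.V i) g b ∉ X.Kr k ∧ Disjoint (X.E i g b) (X.Kr k) := by
  have hK := ordK T hi hk hik
  induction b with
  | zero =>
    have hf := first_Kr (X := X) hG hi hk hik g
    have hs : X.E i g 0 ⊆ R.CU (T.c i g 0) 0 (T.rho 0) :=
      (E_subset_rigid hi g (by omega)).trans (R.subset_CU _ (Nat.zero_le _) (le_refl _))
    refine ⟨fun h => Set.disjoint_left.1 hf (hs (right_mem_segment ℝ _ _)) h, hf.mono_left hs⟩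
  | succ b ih =>
    obtain ⟨h1, h2⟩ := ih (by omega)
    rw [ptR_eq_ptL (by omega)] at h1
    have hd := rigid_Bdy (X := X) hG hi hk hik g (b := b + 1) (by omega) (by omega) (by omega)
    have hd' : Disjoint (X.E i g (b + 1)) (X.Bdy k) :=
      hd.mono_left (E_subset_rigid hi g (by omega))
    have hout : ∀ w ∈ X.E i g (b + 1), w ∉ X.Kr k := by
      intro w hw
      refine outside hk (Conn.of_convex (convex_segment _ _) (left_mem_segment ℝ _ _) hw) hd' h1
    exact ⟨hout _ (right_mem_segment ℝ _ _), Set.disjoint_left.2 hout⟩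

lemma right_out (hG : C.Good) {i k : ℕ} (hi : i < n) (hk : k < n) (hik : i ≠ k) (g : Bool)
    {m : ℕ} (hm : m ≤ H) (hb : K * (2 * ord i k + 2) < H - m) :
    ptL (X.U i) (X.V i) g (H - m) ∉ X.Kr k ∧ Disjoint (X.E i g (H - m)) (X.Kr k) := by
  have hK := ordK T hi hk hik
  induction m with
  | zero =>
    rw [Nat.sub_zero]
    have hf := last_Kr (X := X) hG hi hk hik g
    have := T.rho2 H (by omega)
    have hs : X.E i g H ⊆ R.CU (T.c i g H) (T.rho H) (C.N - 1) :=
      (E_subset_rigid hi g (by omega)).trans (R.subset_CU _ (le_refl _) (by omega))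
    refine ⟨fun h => Set.disjoint_left.1 hf (hs (left_mem_segment ℝ _ _)) h, hf.mono_left hs⟩
  | succ m ih =>
    obtain ⟨h1, h2⟩ := ih (by omega) (by omega)
    have e : H - m = H - (m + 1) + 1 := by omega
    rw [e, ← ptR_eq_ptL (H := H) (b := H - (m + 1)) (by omega)] at h1
    have hd := rigid_Bdy (X := X) hG hi hk hik g (b := H - (m + 1)) (by omega) (by omega)
      (by omega)
    have hd' : Disjoint (X.E i g (H - (m + 1))) (X.Bdy k) :=
      hd.mono_left (E_subset_rigid hi g (by omega))
    have hout : ∀ w ∈ X.E i g (H - (m + 1)), w ∉ X.Kr k := by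
      intro w hw
      refine outside hk (Conn.of_convex (convex_segment _ _) (right_mem_segment ℝ _ _) hw) hd' h1
    exact ⟨hout _ (left_mem_segment ℝ _ _), Set.disjoint_left.2 hout⟩

/-- an edge of tube `i` meeting the region of tube `k` lies in the window -/
lemma window (hG : C.Good) {i k : ℕ} (hi : i < n) (hk : k < n) (hik : i ≠ k) {g : Bool}
    {b : ℕ} (hb : b ≤ H) {w : Pt} (hw : w ∈ X.E i g b) (hwK : w ∈ X.Kr k) :
    K * (2 * ord i k + 1) ≤ b ∧ b ≤ K * (2 * ord i k + 2) := by
  constructor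
  · by_contra h
    push Not at h
    exact Set.disjoint_left.1 (left_out hG hi hk hik g h).2 hw hwK
  · by_contra h
    push Not at h
    have := (right_out (X := X) hG hi hk hik g (m := H - b) (by omega) (by omega)).2
    rw [show H - (H - b) = b by omega] at this
    exact Set.disjoint_left.1 this hw hwK

variable (X)

/-- the chain of edges of group `g` up to edge `b`, from the left wall -/
def ChL (i : ℕ) (g : Bool) : ℕ → Set Pt
  | 0 => R.CU (T.c i g 0) 0 (T.rho 0 - 1) ∪ segment ℝ (X.U i g 0) (ptR H (X.U i) (X.V i) g 0)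
  | b + 1 => ChL i g b ∪ X.E i g (b + 1)

/-- the chain of edges of group `g` from edge `H - m` on, to the right wall -/
def ChR (i : ℕ) (g : Bool) : ℕ → Set Pt
  | 0 => segment ℝ (ptL (X.U i) (X.V i) g H) (X.V i g H) ∪
      R.CU (T.c i g H) (T.rho H + 1) (C.N - 1)
  | m + 1 => X.E i g (H - (m + 1)) ∪ ChR i g m

variable {X}

lemma ChL_lp (hG : C.Good) {i : ℕ} (hi : i < n) (g : Bool) {b : ℕ} (hb : b ≤ H) :
    R.LP (C.la (T.c i g 0)) (X.ChL i g b) (ptR H (X.U i) (X.V i) g b) := by
  induction b with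
  | zero =>
    have nd := X.node i hi g 0 (by omega)
    refine (nd.lp hG).seg (seg_frame X hG hi g (Nat.zero_le H) ?_)
    exact (R.convex_S _).segment_subset nd.u2
      (nd.seg_subset ((X.ring i hi).ptR_mem g (by omega)))
  | succ b ih =>
    have h := ih (by omega)
    rw [ptR_eq_ptL (by omega)] at h
    exact h.seg (seg_frame X hG hi g hb (E_subset_rigid hi g hb))

lemma ChR_rp (hG : C.Good) {i : ℕ} (hi : i < n) (g : Bool) {m : ℕ} (hm : m ≤ H) :
    R.RP (C.ra (T.c i g H)) (X.ChR i g m) (ptL (X.U i) (X.V i) g (H - m)) := by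
  induction m with
  | zero =>
    have nd := X.node i hi g H (by omega)
    refine (nd.rp hG).seg (seg_frame X hG hi g (le_refl H) ?_)
    exact (R.convex_S _).segment_subset
      (nd.seg_subset ((X.ring i hi).ptL_mem g (by omega))) nd.v1
  | succ m ih =>
    have h := ih (by omega)
    have e : H - m = H - (m + 1) + 1 := by omega
    rw [e, ← ptR_eq_ptL (H := H) (b := H - (m + 1)) (by omega)] at h
    exact h.seg (seg_frame X hG hi g (b := H - (m + 1)) (by omega)
      (E_subset_rigid hi g (by omega)))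

lemma ChL_props (hG : C.Good) {i k : ℕ} (hi : i < n) (hk : k < n) (hik : i ≠ k) (g : Bool)
    {b : ℕ} (hb : b < K * (2 * ord i k + 1)) :
    Disjoint (X.ChL i g b) (X.Kr k) ∧ X.ChL i g b ⊆ AT R T i := by
  have hK := ordK T hi hk hik
  induction b with
  | zero =>
    have nd := X.node i hi g 0 (by omega)
    have hs : X.ChL i g 0 ⊆ R.CU (T.c i g 0) 0 (T.rho 0) := by
      rintro w (hw | hw)
      · exact R.CU_mono _ (by omega) (by omega) hw
      · refine R.subset_CU _ (Nat.zero_le _) (le_refl _) (nd.seg_subset ?_)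
        exact (convex_segment _ _).segment_subset (left_mem_segment ℝ _ _)
          ((X.ring i hi).ptR_mem g (by omega)) hw
    exact ⟨(first_Kr (X := X) hG hi hk hik g).mono_left hs, hs.trans (first_sub_AT g)⟩
  | succ b ih =>
    obtain ⟨h1, h2⟩ := ih (by omega)
    refine ⟨?_, ?_⟩
    · show Disjoint (X.ChL i g b ∪ X.E i g (b + 1)) (X.Kr k)
      rw [Set.disjoint_union_left]
      exact ⟨h1, (left_out hG hi hk hik g hb).2⟩
    · rintro w (hw | hw)
      · exact h2 hw
      · have := (X.node i hi g (b + 1) (by omega)).hp2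
        exact ⟨g, b + 1, T.rho (b + 1), by omega, by omega, E_subset_rigid hi g (by omega) hw⟩

lemma ChR_props (hG : C.Good) {i k : ℕ} (hi : i < n) (hk : k < n) (hik : i ≠ k) (g : Bool)
    {m : ℕ} (hm : m ≤ H) (hb : K * (2 * ord i k + 2) < H - m) :
    Disjoint (X.ChR i g m) (X.Kr k) ∧ X.ChR i g m ⊆ AT R T i := by
  have hK := ordK T hi hk hik
  induction m with
  | zero =>
    have nd := X.node i hi g H (by omega)
    have := nd.hp2
    have hs : X.ChR i g 0 ⊆ R.CU (T.c i g H) (T.rho H) (C.N - 1) := by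
      rintro w (hw | hw)
      · refine R.subset_CU _ (le_refl _) (by omega) (nd.seg_subset ?_)
        exact (convex_segment _ _).segment_subset ((X.ring i hi).ptL_mem g (by omega))
          (right_mem_segment ℝ _ _) hw
      · exact R.CU_mono _ (by omega) (by omega) hw
    exact ⟨(last_Kr (X := X) hG hi hk hik g).mono_left hs, hs.trans (last_sub_AT g)⟩
  | succ m ih =>
    obtain ⟨h1, h2⟩ := ih (by omega) (by omega)
    refine ⟨?_, ?_⟩
    · show Disjoint (X.E i g (H - (m + 1)) ∪ X.ChR i g m) (X.Kr k)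
      rw [Set.disjoint_union_left]
      exact ⟨(right_out hG hi hk hik g hm hb).2, h1⟩
    · rintro w (hw | hw)
      · have := (X.node i hi g (H - (m + 1)) (by omega)).hp2
        exact ⟨g, H - (m + 1), T.rho (H - (m + 1)), by omega, by omega,
          E_subset_rigid hi g (by omega) hw⟩
      · exact h2 hw

end Ctx

open Ctx in
/-- The abstract situation at the end of the soundness proof. -/
theorem exists_lam (hG : C.Good) (R : Rep C) (T : Tubes C n H K ord) :
    Nonempty (Lam R n ord) := by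
  obtain ⟨X⟩ := exists_ctx hG R T
  have hH := T.hH2
  refine ⟨{
    K := X.Kr
    pL := fun i => ptL (X.U i) (X.V i) false 0
    pR := fun i => ptR H (X.U i) (X.V i) false H
    LS := X.LSt
    RS := X.RSt
    l0 := fun i => C.la (T.c i false 0)
    r0 := fun i => C.ra (T.c i false H)
    Hit := fun i w => w ∈ X.Bdy i
    hLS := fun i hi => hLSt hG hi
    hRS := fun i hi => hRSt hG hi
    conv := fun i hi => Kr_convex hi
    frame := fun i hi => frame_Kr hG hi
    pL_mem := fun i hi => ptL_mem_Kr hi false (Nat.zero_le _)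
    pR_mem := fun i hi => ptR_mem_Kr hi false (le_refl _)
    out := fun i hi j hj hij => strings_Kr hG hi hj hij
    dd := ?_
    own := fun i hi x hx hs => own' hG hi hx hs
    inv := fun i hi j hj k hk hE => T.inv_diff i hi j hj k hk hE false false false false 0 H 0 H
      (Nat.zero_le _) (le_refl _) (Nat.zero_le _) (le_refl _)
    exit := fun i hi x hx y hy => exit' hi hx hy
    chainL := ?_
    chainR := ?_ }⟩
  · intro i hi j hj hij
    refine (AT_strings (X := X) hG hi hj hij).mono_left ?_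
    rintro w (hw | hw)
    · exact first_sub_AT false (LSt_subset hi hw)
    · exact last_sub_AT false (RSt_subset hi hw)
  · rintro i hi j hj k hk hij hik hord w ⟨g, b, hb, hwb⟩ hwj
    have hjw := window hG hi hj hij hb hwb hwj
    have hlt : b < K * (2 * ord i k + 1) := by
      have h3 := T.hK
      have h4 : K * (2 * ord i j + 2) < K * (2 * ord i k + 1) :=
        Nat.mul_lt_mul_of_pos_left (by omega) (by omega)
      omega
    have hb1 : 1 ≤ b := by
      have := (ordK T hi hj hij).2.1
      omega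
    obtain ⟨b', rfl⟩ : ∃ b', b = b' + 1 := ⟨b - 1, by omega⟩
    have hlo := (left_out (X := X) hG hi hk hik g hlt).2
    have hsub : segment ℝ (ptL (X.U i) (X.V i) g (b' + 1)) w ⊆ X.E i g (b' + 1) :=
      (convex_segment _ _).segment_subset (left_mem_segment ℝ _ _) hwb
    have hlp := ChL_lp (X := X) hG hi g (b := b') (by omega)
    rw [ptR_eq_ptL (by omega)] at hlp
    obtain ⟨hc1, hc2⟩ := ChL_props (X := X) hG hi hk hik g (b := b') (by omega)
    refine ⟨fun h => Set.disjoint_left.1 hlo hwb h, C.la (T.c i g 0), _,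
      hlp.seg (seg_frame X hG hi g hb (hsub.trans (E_subset_rigid hi g hb))), ?_, ?_⟩
    · have hE : X.E i g (b' + 1) ⊆ AT R T i := by
        intro y hy
        exact Bdy_AT hi ⟨g, b' + 1, hb, hy⟩
      exact Set.disjoint_union_left.2 ⟨Set.disjoint_union_right.2
          ⟨hc1, (AT_strings (X := X) hG hi hk hik).mono_left hc2⟩,
        Set.disjoint_union_right.2
          ⟨hlo.mono_left hsub, (AT_strings (X := X) hG hi hk hik).mono_left (hsub.trans hE)⟩⟩
    · intro hE
      exact T.inv_diff i hi j hj k hk hE g false false false 0 H 0 H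
        (Nat.zero_le _) (le_refl _) (Nat.zero_le _) (le_refl _)
  · rintro i hi j hj k hk hij hik hord w ⟨g, b, hb, hwb⟩ hwk
    have hkw := window hG hi hk hik hb hwb hwk
    have hgt : K * (2 * ord i j + 2) < b := by
      have h3 := T.hK
      have h4 : K * (2 * ord i j + 2) < K * (2 * ord i k + 1) :=
        Nat.mul_lt_mul_of_pos_left (by omega) (by omega)
      omega
    have hbH : b < H := by
      have := (ordK T hi hk hik).1
      omega
    obtain ⟨m, hm⟩ : ∃ m, b = H - (m + 1) := ⟨H - b - 1, by omega⟩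
    subst hm
    have hro := (right_out (X := X) hG hi hj hij g (m := m + 1) (by omega) hgt).2
    have hsub : segment ℝ w (ptR H (X.U i) (X.V i) g (H - (m + 1))) ⊆ X.E i g (H - (m + 1)) :=
      (convex_segment _ _).segment_subset hwb (right_mem_segment ℝ _ _)
    have hrp := ChR_rp (X := X) hG hi g (m := m) (by omega)
    have e : H - m = H - (m + 1) + 1 := by omega
    rw [e, ← ptR_eq_ptL (H := H) (b := H - (m + 1)) (by omega)] at hrp
    obtain ⟨hc1, hc2⟩ := ChR_props (X := X) hG hi hj hij g (m := m) (by omega) (by omega)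
    refine ⟨fun h => Set.disjoint_left.1 hro hwb h, C.ra (T.c i g H), _,
      hrp.seg (seg_frame X hG hi g hb (hsub.trans (E_subset_rigid hi g hb))), ?_, ?_⟩
    · have hE : X.E i g (H - (m + 1)) ⊆ AT R T i := by
        intro y hy
        exact Bdy_AT hi ⟨g, H - (m + 1), hb, hy⟩
      exact Set.disjoint_union_left.2 ⟨Set.disjoint_union_right.2
          ⟨hro.mono_left hsub, (AT_strings (X := X) hG hi hj hij).mono_left (hsub.trans hE)⟩,
        Set.disjoint_union_right.2
          ⟨hc1, (AT_strings (X := X) hG hi hj hij).mono_left hc2⟩⟩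
    · intro hE
      refine T.inv_diff k hk i hi j hj ?_ false g false false 0 H 0 H
        (Nat.zero_le _) (le_refl _) (Nat.zero_le _) (le_refl _)
      unfold Ext at hE ⊢
      omega

end SegGirth
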