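import Mathlib
import Pool.Agent.Lib.MP_beb3fe_lc.TubeGeom
import Pool.Agent.Lib.MP_beb3fe_lc.Lam
import Pool.Agent.Lib.MP_beb3fe_lc.LinAlg

/-!
# Soundness: a representation of a chord system with tubes yields lines
-/

namespace SegGirth

theorem realOrd_of_tubes {C : ChordSys} (hG : C.Good) (R : Rep C) {n H K : ℕ}
    {ord : ℕ → ℕ → ℕ} (hn : 3 ≤ n) (T : Tubes C n H K ord) : RealOrd n ord := by
  obtain ⟨Λ⟩ := exists_lam hG R T
  exact realOrd_of_segments n hn ord Λ.pL Λ.pR (Λ.proper hG) (Λ.order hG) (Λ.sign hG)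

theorem realOrd_small {n : ℕ} (hn : n ≤ 2) (ord : ℕ → ℕ → ℕ) : RealOrd n ord := by
  refine ⟨fun i => (i : ℝ), fun _ => 0, fun i j hij _ => Nat.cast_lt.2 hij, ?_⟩
  intro i hi j hj k hk hij hik ho
  have : j = k := by omega
  subst this
  exact absurd ho (lt_irrefl _)

end SegGirth
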