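import Mathlib
import Pool.Agent.Lib.MP_beb3fe_lc.Tubes
import Pool.Agent.Lib.MP_beb3fe_lc.Good

/-!
# The concrete system consists of tubes
-/

namespace SegGirth
namespace TE

open Gir Gir.Cyc

variable {k n : ℕ} {ord : ℕ → ℕ → ℕ}

/-- chord `(i,g,b)` for arbitrary numbers -/
def cc (k n : ℕ) (hn : 1 ≤ n) (ord : ℕ → ℕ → ℕ) (i : ℕ) (g : Bool) (b : ℕ) :
    (csys k n ord).X :=
  (⟨i % n, Nat.mod_lt _ (by omega)⟩, g, ⟨min b (HH k n), by omega⟩)

lemma pos_cc (hn : 1 ≤ n) {i j b b' : ℕ} {g g' : Bool} (hi : i < n) (hj : j < n)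
    (hb : b ≤ HH k n) (hb' : b' ≤ HH k n) :
    (csys k n ord).pos (cc k n hn ord i g b) (cc k n hn ord j g' b') =
      LL k n * (code k n ord i g b j g' b' + 1) := by
  change LL k n * (code k n ord (i % n) g (min b (HH k n)) (j % n) g' (min b' (HH k n)) + 1) = _
  rw [Nat.mod_eq_of_lt hi, Nat.mod_eq_of_lt hj, min_eq_left hb, min_eq_left hb']

lemma la_cc (hn : 1 ≤ n) {i b : ℕ} {g : Bool} (hi : i < n) (hb : b ≤ HH k n) :
    (csys k n ord).la (cc k n hn ord i g b) = LL k n * (lrank k n i g b + 1) := by
  change LL k n * (lrank k n (i % n) g (min b (HH k n)) + 1) = _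
  rw [Nat.mod_eq_of_lt hi, min_eq_left hb]

lemma ra_cc (hn : 1 ≤ n) {i b : ℕ} {g : Bool} (hi : i < n) (hb : b ≤ HH k n) :
    (csys k n ord).ra (cc k n hn ord i g b) = LL k n * (rrank k n i g b + 1) := by
  change LL k n * (rrank k n (i % n) g (min b (HH k n)) + 1) = _
  rw [Nat.mod_eq_of_lt hi, min_eq_left hb]

lemma cross_cc (hn : 1 ≤ n) {i j b b' : ℕ} {g g' : Bool} (hi : i < n) (hj : j < n)
    (hb : b ≤ HH k n) (hb' : b' ≤ HH k n) :
    (csys k n ord).cross (cc k n hn ord i g b) (cc k n hn ord j g' b') ↔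
      (lrank k n i g b < lrank k n j g' b' ∧ rrank k n j g' b' < rrank k n i g b) ∨
      (lrank k n j g' b' < lrank k n i g b ∧ rrank k n i g b < rrank k n j g' b') := by
  change (lrank k n (i % n) g (min b (HH k n)) < lrank k n (j % n) g' (min b' (HH k n)) ∧
      rrank k n (j % n) g' (min b' (HH k n)) < rrank k n (i % n) g (min b (HH k n))) ∨
      (lrank k n (j % n) g' (min b' (HH k n)) < lrank k n (i % n) g (min b (HH k n)) ∧
      rrank k n (i % n) g (min b (HH k n)) < rrank k n (j % n) g' (min b' (HH k n))) ↔ _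
  rw [Nat.mod_eq_of_lt hi, Nat.mod_eq_of_lt hj, min_eq_left hb, min_eq_left hb']

lemma step_lt (k n : ℕ) {a b : ℕ} (hab : a < b) : LL k n * (a + 1) + 1 < LL k n * (b + 1) := by
  have hL : 20 ≤ LL k n := by unfold LL; omega
  have h1 : LL k n * (a + 1 + 1) ≤ LL k n * (b + 1) := Nat.mul_le_mul_left _ (by omega)
  have h2 : LL k n * (a + 1 + 1) = LL k n * (a + 1) + LL k n := by ring
  omega

/-- inversion from ranks -/
lemma inv_cc (hn : 1 ≤ n) {i1 i2 i3 i4 b1 b2 b3 b4 : ℕ} {g1 g2 g3 g4 : Bool}
    (h1 : i1 < n) (h2 : i2 < n) (h3 : i3 < n) (h4 : i4 < n)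
    (hb1 : b1 ≤ HH k n) (hb2 : b2 ≤ HH k n) (hb3 : b3 ≤ HH k n) (hb4 : b4 ≤ HH k n)
    (h : (lrank k n i1 g1 b1 < lrank k n i3 g3 b3 ∧ rrank k n i4 g4 b4 < rrank k n i2 g2 b2) ∨
      (lrank k n i3 g3 b3 < lrank k n i1 g1 b1 ∧ rrank k n i2 g2 b2 < rrank k n i4 g4 b4)) :
    (csys k n ord).Inv ((csys k n ord).la (cc k n hn ord i1 g1 b1))
      ((csys k n ord).ra (cc k n hn ord i2 g2 b2))
      ((csys k n ord).la (cc k n hn ord i3 g3 b3))
      ((csys k n ord).ra (cc k n hn ord i4 g4 b4)) := by
  have hQ : ∀ a, a < n * (2 * HH k n + 2) → LL k n * (a + 1) + 2 ≤ (csys k n ord).Q := by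
    intro a ha
    change _ ≤ LL k n * (n * (2 * HH k n + 2) + 1)
    have hL : 20 ≤ LL k n := by unfold LL; omega
    have e1 : LL k n * (a + 1 + 1) ≤ LL k n * (n * (2 * HH k n + 2) + 1) :=
      Nat.mul_le_mul_left _ (by omega)
    have e2 : LL k n * (a + 1 + 1) = LL k n * (a + 1) + LL k n := by ring
    omega
  have h1' : ∀ a, 1 ≤ LL k n * (a + 1) := fun a =>
    Nat.mul_pos (by unfold LL; omega) (by omega)
  have l1 := lrank_lt k n ⟨i1, h1⟩ g1 ⟨b1, by omega⟩
  have l3 := lrank_lt k n ⟨i3, h3⟩ g3 ⟨b3, by omega⟩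
  have r2 := rrank_lt k n ⟨i2, h2⟩ g2 ⟨b2, by omega⟩
  have r4 := rrank_lt k n ⟨i4, h4⟩ g4 ⟨b4, by omega⟩
  simp only at l1 l3 r2 r4
  rw [la_cc hn h1 hb1, ra_cc hn h2 hb2, la_cc hn h3 hb3, ra_cc hn h4 hb4]
  refine ⟨⟨h1' _, hQ _ l1, h1' _, hQ _ r2, h1' _, hQ _ l3, h1' _, hQ _ r4⟩, ?_⟩
  rcases h with h | h
  · exact Or.inl ⟨step_lt k n h.1, step_lt k n h.2⟩
  · exact Or.inr ⟨step_lt k n h.1, step_lt k n h.2⟩

lemma lrank_diff {i j b b' : ℕ} {g g' : Bool} (hij : i < j) (hb : b ≤ HH k n) :
    lrank k n i g b < lrank k n j g' b' := by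
  have h1 := lkey_le (HH k n) g b hb
  have h2 : (i + 1) * (2 * HH k n + 2) ≤ j * (2 * HH k n + 2) := Nat.mul_le_mul_right _ hij
  have h3 : (i + 1) * (2 * HH k n + 2) = i * (2 * HH k n + 2) + (2 * HH k n + 2) := by ring
  unfold lrank
  omega

lemma rrank_diff {i j b b' : ℕ} {g g' : Bool} (hij : i < j) (hj : j < n) (hb : b' ≤ HH k n) :
    rrank k n j g' b' < rrank k n i g b := by
  have h1 := rkey_le (HH k n) g' b' hb
  have h2 : ((n - 1 - j) + 1) * (2 * HH k n + 2) ≤ (n - 1 - i) * (2 * HH k n + 2) :=
    Nat.mul_le_mul_right _ (by omega)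
  have h3 : ((n - 1 - j) + 1) * (2 * HH k n + 2) =
    (n - 1 - j) * (2 * HH k n + 2) + (2 * HH k n + 2) := by ring
  unfold rrank
  omega

lemma lrank_same {i b b' : ℕ} {g g' : Bool} :
    lrank k n i g b < lrank k n i g' b' ↔ lkey (HH k n) g b < lkey (HH k n) g' b' := by
  unfold lrank; omega

lemma rrank_same {i b b' : ℕ} {g g' : Bool} :
    rrank k n i g b < rrank k n i g' b' ↔ rkey (HH k n) g b < rkey (HH k n) g' b' := by
  unfold rrank; omega

lemma LL_pos (k n : ℕ) : 20 ≤ LL k n := by unfold LL; omega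

lemma pos_lt {a b : ℕ} (h : a < b) : LL k n * (a + 1) < LL k n * (b + 1) := by
  have := step_lt k n h; omega

lemma pos_le {a b : ℕ} (h : a ≤ b) : LL k n * (a + 1) ≤ LL k n * (b + 1) :=
  Nat.mul_le_mul_left _ (by omega)

lemma pos_inj {a b : ℕ} (h : LL k n * (a + 1) = LL k n * (b + 1)) : a = b := by
  have := LL_pos k n
  exact Nat.add_right_cancel (Nat.eq_of_mul_eq_mul_left (by omega) h)

lemma code_next {i b : ℕ} {g : Bool} : code k n ord i g b i g (b + 1) = rig k n b := by
  unfold code
  have : ¬ (b + 1 < b) := by omega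
  simp [this]

lemma code_prev {i b : ℕ} {g : Bool} : code k n ord i g (b + 1) i g b = rig k n (b + 1) := by
  unfold code
  simp

lemma code_far {i b b' : ℕ} {g : Bool} (h : b + 1 < b') :
    code k n ord i g b i g b' = 2 * b' * MM k n := by
  unfold code
  have h1 : ¬ (b' < b) := by omega
  have h2 : b' ≠ b + 1 := by omega
  simp [h1, h2]

lemma code_far' {i b b' : ℕ} {g : Bool} (h : b' + 1 < b) :
    code k n ord i g b i g b' = 2 * b * MM k n + b' := by
  unfold code
  have h1 : b' < b := by omega
  have h2 : b' + 1 ≠ b := by omega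
  simp [h1, h2]

lemma code_opp {i b b' : ℕ} {g : Bool} : code k n ord i g b i (!g) b' = rig k n b := by
  unfold code
  cases g <;> simp

lemma mulM_lt {a b c : ℕ} (hc : c < MM k n) (h : a < b) : a * MM k n + c < b * MM k n := by
  have h1 : (a + 1) * MM k n ≤ b * MM k n := Nat.mul_le_mul_right _ h
  have h2 : (a + 1) * MM k n = a * MM k n + MM k n := by ring
  omega

end TE

open TE Gir Gir.Cyc

theorem csys_tubes (k n : ℕ) (hn : 1 ≤ n) (ord : ℕ → ℕ → ℕ) (h : OrdOK n ord) :
    Nonempty (Tubes (csys k n ord) n (HH k n) (KK k) ord) := by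
  have hK : 3 ≤ KK k := by unfold KK; omega
  have hHH : HH k n = KK k * (2 * n - 1) := rfl
  have hH' : KK k * (2 * n - 2) + KK k ≤ HH k n := by
    rw [hHH]
    calc KK k * (2 * n - 2) + KK k = KK k * (2 * n - 2 + 1) := by ring
      _ ≤ KK k * (2 * n - 1) := Nat.mul_le_mul_left _ (by omega)
  have hH2 : 3 ≤ HH k n := by omega
  have hM : HH k n < MM k n := by unfold MM; omega
  have hL := LL_pos k n
  refine ⟨{
    c := cc k n hn ord
    rho := fun b => LL k n * (rig k n b + 1)
    hK := by omega
    hH := by omega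
    hH2 := by omega
    ordlt := h.lt
    rho1 := fun b _ => Nat.mul_pos (by omega) (by omega)
    rho2 := ?_
    inj := ?_
    nb_cross := ?_
    nb_pos := ?_
    tipL_cross := ?_
    tipL_pos := ?_
    tipR_cross := ?_
    tipR_pos := ?_
    nonadj_same := ?_
    nonadj_opp := ?_
    mixed := ?_
    invA := ?_
    inv0 := ?_
    invH := ?_
    same0 := ?_
    sameH := ?_
    start_own := ?_
    start_diff := ?_
    end_own := ?_
    end_diff := ?_
    cross_diff := ?_
    rigid_diff := ?_
    inv_diff := ?_ }⟩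
  · -- rho2
    intro b hb
    have h1 : rig k n b ≤ (2 * HH k n + 1) * MM k n := by
      unfold rig; exact Nat.mul_le_mul_right _ (by omega)
    change _ ≤ LL k n * ((2 * HH k n + 1) * MM k n + 3)
    have h2 : LL k n * (rig k n b + 1) ≤ LL k n * ((2 * HH k n + 1) * MM k n + 1) :=
      Nat.mul_le_mul_left _ (by omega)
    have h3 : LL k n * ((2 * HH k n + 1) * MM k n + 3) =
      LL k n * ((2 * HH k n + 1) * MM k n + 1) + LL k n * 2 := by ring
    omega
  · -- inj
    intro i hi j hj g g' b b' hb hb' he
    have e1 := congrArg (fun x => (x.1 : ℕ)) he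
    have e2 := congrArg (fun x => x.2.1) he
    have e3 := congrArg (fun x => (x.2.2 : ℕ)) he
    simp only [cc, Nat.mod_eq_of_lt hi, Nat.mod_eq_of_lt hj, min_eq_left hb,
      min_eq_left hb'] at e1 e2 e3
    exact ⟨e1, e2, e3⟩
  · -- nb_cross
    intro i hi g b hb
    rw [cross_cc hn hi hi (by omega) (by omega)]
    simp only [lrank_same, rrank_same]
    cases g <;> simp only [lkey_false, lkey_true, rkey_false, rkey_true] <;> split_ifs <;>
      first
        | contradiction
        | omega
  · -- nb_pos
    intro i hi g b hb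
    rw [pos_cc hn hi hi (by omega) (by omega), pos_cc hn hi hi (by omega) (by omega),
      code_next, code_prev]
    exact ⟨rfl, rfl⟩
  · -- tipL_cross
    intro i hi g
    rw [cross_cc hn hi hi (by omega) (by omega)]
    simp only [lrank_same, rrank_same]
    cases g <;> simp only [Bool.not_false, Bool.not_true, lkey_false, lkey_true, rkey_false,
      rkey_true] <;> split_ifs <;>
      first
        | contradiction
        | omega
  · -- tipL_pos
    intro i hi g
    rw [pos_cc hn hi hi (by omega) (by omega), code_opp]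
  · -- tipR_cross
    intro i hi g
    rw [cross_cc hn hi hi (by omega) (by omega)]
    simp only [lrank_same, rrank_same]
    cases g <;> simp only [Bool.not_false, Bool.not_true, lkey_false, lkey_true, rkey_false,
      rkey_true] <;> split_ifs <;>
      first
        | contradiction
        | omega
  · -- tipR_pos
    intro i hi g
    rw [pos_cc hn hi hi (by omega) (by omega), code_opp]
  · -- nonadj_same
    intro i hi g b b' hbb hb' he
    rw [pos_cc hn hi hi (by omega) hb', code_far hbb] at he
    have h1 := pos_inj he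
    have h2 : (2 * b') * MM k n + 0 = (2 * b + 1) * MM k n + 0 := by
      simpa [rig] using h1
    obtain ⟨h3, -⟩ := divmod_eq (by omega) (by omega) h2
    omega
  · -- nonadj_opp
    intro i hi g b hb b' hb' h0 hH0 hc
    rw [cross_cc hn hi hi hb hb'] at hc
    simp only [lrank_same, rrank_same] at hc
    obtain ⟨h1, h2⟩ := cross_tips hb hb' (by cases g <;> simp) hc
    omega
  · -- mixed
    intro i hi g b hb
    refine ⟨?_, ?_, ?_⟩
    · rw [cross_cc hn hi hi (by omega) (by omega)]
      simp only [lrank_same, rrank_same]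
      cases g <;> simp only [lkey_false, lkey_true, rkey_false, rkey_true] <;> split_ifs <;>
      first
        | contradiction
        | omega
    · rw [pos_cc hn hi hi (by omega) (by omega), pos_cc hn hi hi (by omega) (by omega),
        code_next, code_far (by omega)]
      apply pos_lt
      unfold rig
      exact mulM_lt (c := 0) (by omega) (by omega)
    · rw [pos_cc hn hi hi (by omega) (by omega), pos_cc hn hi hi (by omega) (by omega),
        code_far' (by omega), show b + 2 = (b + 1) + 1 by ring, code_prev]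
      apply pos_lt
      unfold rig
      exact mulM_lt (by omega) (by omega)
  · -- invA
    intro i hi g b hb
    apply inv_cc hn hi hi hi hi (by omega) (by omega) (by omega) (by omega)
    simp only [lrank_same, rrank_same]
    cases g <;> simp only [lkey_false, lkey_true, rkey_false, rkey_true] <;> split_ifs <;>
      first
        | contradiction
        | omega
  · -- inv0
    intro i hi g
    apply inv_cc hn hi hi hi hi (by omega) (by omega) (by omega) (by omega)
    simp only [lrank_same, rrank_same]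
    cases g <;> simp only [Bool.not_false, Bool.not_true, lkey_false, lkey_true, rkey_false,
      rkey_true] <;> split_ifs <;>
      first
        | contradiction
        | omega
  · -- invH
    intro i hi g
    apply inv_cc hn hi hi hi hi (by omega) (by omega) (by omega) (by omega)
    simp only [lrank_same, rrank_same]
    cases g <;> simp only [Bool.not_false, Bool.not_true, lkey_false, lkey_true, rkey_false,
      rkey_true] <;> split_ifs <;>
      first
        | contradiction
        | omega
  · -- same0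
    intro i hi g
    apply inv_cc hn hi hi hi hi (by omega) (by omega) (by omega) (by omega)
    simp only [lrank_same, rrank_same]
    cases g <;> simp only [Bool.not_false, Bool.not_true, lkey_false, lkey_true, rkey_false,
      rkey_true] <;> split_ifs <;>
      first
        | contradiction
        | omega
  · -- sameH
    intro i hi g
    apply inv_cc hn hi hi hi hi (by omega) (by omega) (by omega) (by omega)
    simp only [lrank_same, rrank_same]
    cases g <;> simp only [Bool.not_false, Bool.not_true, lkey_false, lkey_true, rkey_false,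
      rkey_true] <;> split_ifs <;>
      first
        | contradiction
        | omega
  · -- start_own
    intro i hi g b hb hb0
    rw [pos_cc hn hi hi (by omega) hb]
    apply pos_le
    rcases Nat.lt_or_ge 1 b with h1 | h1
    · rw [code_far (by omega)]
      unfold rig
      have := mulM_lt (k := k) (n := n) (a := 1) (b := 2 * b) (c := 0) (by omega) (by omega)
      simpa using this.le
    · have : b = 0 + 1 := by omega
      rw [this, code_next]
  · -- start_diff
    intro i hi j hj hij g g' b hb
    rw [pos_cc hn hi hj (by omega) hb]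
    apply pos_lt
    have hanc := anc_pos (ord := ord) i j g'
    have hKa : KK k ≤ KK k * anc ord i j g' := Nat.le_mul_of_pos_right _ hanc
    rcases code_cases k n ord i g 0 j g' b (fun hh => hij hh.1) with ⟨-, h1⟩ | h1 | h1 | h1
    · rcases h1 with h1 | h1 | h1
      · exact absurd h1.1 hij
      · exact absurd h1.1 hij
      · omega
    · exact absurd h1.1 hij
    · exact absurd h1.1 hij
    · rw [h1.2.2]
      unfold rig
      have := mulM_lt (k := k) (n := n) (a := 2 * 0 + 1) (b := 2 * (KK k * anc ord i j g') + 1)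
        (c := 0) (by omega) (by omega)
      omega
  · -- end_own
    intro i hi g b hb
    rw [pos_cc hn hi hi (by omega) (by omega)]
    apply pos_le
    rcases Nat.lt_or_ge (b + 1) (HH k n) with h1 | h1
    · rw [code_far' h1]
      unfold rig
      exact (mulM_lt (by omega) (by omega)).le
    · have h2 : HH k n = b + 1 := by omega
      rw [h2]
      have : code k n ord i g (b + 1) i g b = rig k n (b + 1) := code_prev
      rw [this]
  · -- end_diff
    intro i hi j hj hij g g' b hb
    rw [pos_cc hn hi hj (by omega) hb]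
    apply pos_lt
    have hKa := KK_anc_le (k := k) h (g := g') hi hj hij
    rcases code_cases k n ord i g (HH k n) j g' b (fun hh => hij hh.1) with
      ⟨-, h1⟩ | h1 | h1 | h1
    · rcases h1 with h1 | h1 | h1
      · exact absurd h1.1 hij
      · exact absurd h1.1 hij
      · omega
    · exact absurd h1.1 hij
    · exact absurd h1.1 hij
    · rw [h1.2.2]
      unfold rig
      exact mulM_lt (anc_rho_lt h hb) (by omega)
  · -- cross_diff
    intro i hi j hj hij g g' b b' hb hb'
    rw [cross_cc hn hi hj hb hb']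
    rcases Nat.lt_or_gt_of_ne hij with h1 | h1
    · left; exact ⟨lrank_diff h1 hb, rrank_diff h1 hj hb'⟩
    · right; exact ⟨lrank_diff h1 hb', rrank_diff h1 hi hb⟩
  · -- rigid_diff
    intro i hi j hj hij g g' b b' hb hb' he
    rw [pos_cc hn hi hj hb hb'] at he
    have h1 := pos_inj he
    rcases rig_cases h hb hb' (fun hh => hij hh.1) h1 with h2 | h2 | h2
    · exact absurd h2.1 hij
    · exact absurd h2.1 hij
    · have h3 := h2.2
      unfold anc at h3
      split_ifs at h3
      · left; exact h3
      · right; exact h3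
  · -- inv_diff
    intro i hi j hj l hl hext g1 g2 g3 g4 b1 b2 b3 b4 hb1 hb2 hb3 hb4
    apply inv_cc hn hi hj hl hl hb1 hb2 hb3 hb4
    rcases hext with ⟨h1, h2⟩ | ⟨h1, h2⟩
    · right; exact ⟨lrank_diff h1 hb3, rrank_diff h2 hj hb2⟩
    · left; exact ⟨lrank_diff h1 hb1, rrank_diff h2 hl hb4⟩

end SegGirth
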