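import Mathlib
import Pool.Agent.Lib.MP_beb3fe_lc.RepCurves
import Pool.Agent.Lib.MP_beb3fe_lc.Girth
import Pool.Agent.Lib.MP_beb3fe_lc.Good
import Pool.Agent.Lib.MP_beb3fe_lc.Sound
import Pool.Agent.Lib.MP_beb3fe_lc.TubesExist
import Pool.Agent.Lib.MP_beb3fe_lc.PTMap
import Pool.Agent.Lib.MP_beb3fe_lc.CurvesExist2

/-!
# Assembly: the graph of the chord system is a segment graph iff the order function is realizable
-/

namespace SegGirth

open Pool.Agent.Lib.PolyTime

lemma isSegGraph_of_iso {V W : Type} {G : SimpleGraph V} {G' : SimpleGraph W} (e : G ≃g G')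
    (h : IsSegGraph G) : IsSegGraph G' := by
  obtain ⟨p, q, h1, h2⟩ := h
  refine ⟨fun w => p (e.symm w), fun w => q (e.symm w), fun u => h1 _, fun u v huv => ?_⟩
  rw [← h2 (e.symm u) (e.symm v) (fun h => huv (e.symm.injective h))]
  exact (e.symm.map_adj_iff).symm

theorem isSegGraph_congr {V W : Type} {G : SimpleGraph V} {G' : SimpleGraph W} (e : G ≃g G') :
    IsSegGraph G ↔ IsSegGraph G' :=
  ⟨isSegGraph_of_iso e, isSegGraph_of_iso e.symm⟩

lemma csys_finite (k n : ℕ) (ord : ℕ → ℕ → ℕ) : Finite (csys k n ord).X :=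
  inferInstanceAs (Finite (Fin n × Bool × Fin (HH k n + 1)))

/-- the graph of the concrete chord system is a segment graph iff the order is realizable -/
theorem isSeg_csys (k n : ℕ) (ord : ℕ → ℕ → ℕ) (h : OrdOK n ord) :
    IsSegGraph (csys k n ord).graph ↔ RealOrd n ord := by
  classical
  have hG := csys_good k n ord h
  constructor
  · rintro ⟨p, q, -, h2⟩
    rcases Nat.lt_or_ge n 3 with hn | hn
    · exact realOrd_small (by omega) ord
    · obtain ⟨T⟩ := csys_tubes k n (by omega) ord h
      have R : Rep (csys k n ord) :=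
        { p0 := fun v => if hv : (csys k n ord).Valid v then p ⟨v, hv⟩ else 0
          p1 := fun v => if hv : (csys k n ord).Valid v then q ⟨v, hv⟩ else 0
          inter := by
            intro u v hu hv huv
            rw [dif_pos hu, dif_pos hv, dif_pos hu, dif_pos hv,
              ← h2 ⟨u, hu⟩ ⟨v, hv⟩ (fun he => huv (Subtype.ext_iff.1 he))]
            constructor
            · intro ha
              exact ⟨fun he => huv (Subtype.ext_iff.1 he), ha⟩
            · intro ha
              exact ha.2 }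
      exact realOrd_of_tubes hG R hn T
  · intro hr
    obtain ⟨K⟩ := curves_exist k n ord h hr
    have : Finite (csys k n ord).X := csys_finite k n ord
    have hN : ∀ x y, (csys k n ord).cross x y →
        LL k n * (ccode k n ord x y + 3) ≤ (csys k n ord).N := by
      intro x y hc
      have hxy := hG.cross_ne x y hc
      have hne' : ¬ ((x.1 : ℕ) = y.1 ∧ x.2.1 = y.2.1 ∧ (x.2.2 : ℕ) = y.2.2) := by
        rintro ⟨h1, h2, h3⟩
        exact hxy (Prod.ext (Fin.ext h1) (Prod.ext h2 (Fin.ext h3)))
      have h1 := code_le (k := k) h x.1.2 y.1.2 (Nat.lt_succ_iff.1 x.2.2.2)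
        (Nat.lt_succ_iff.1 y.2.2.2) hne'
      exact Nat.mul_le_mul_left _ (Nat.add_le_add_right h1 3)
    obtain ⟨R, hR⟩ := rep_of_curves (csys k n ord) hG (LL k n) (ccode k n ord)
      (fun x y hxy => Gir.Cyc.la_inj hxy) (fun x y hxy => Gir.Cyc.ra_inj hxy)
      (fun x y _ => rfl) hN (Nat.mul_le_mul_left _ (by omega)) K
    refine ⟨fun v => R.p0 v.1, fun v => R.p1 v.1, fun v => hR v.1 v.2, fun u v huv => ?_⟩
    rw [← R.inter u.1 v.1 u.2 v.2 (fun he => huv (Subtype.ext he))]
    constructor
    · intro ha; exact ha.2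
    · intro ha; exact ⟨huv, ha⟩

/-- a graph isomorphism preserves the girth -/
lemma egirth_of_iso {V W : Type} {G : SimpleGraph V} {G' : SimpleGraph W} (e : G ≃g G') (k : ℕ∞)
    (h : k ≤ G'.egirth) : k ≤ G.egirth := by
  rw [SimpleGraph.le_egirth] at h ⊢
  intro v w hw
  have := h (e v) (w.map e.toHom) (hw.map e.injective)
  rwa [SimpleGraph.Walk.length_map] at this

/-- an inconsistent list of sequences -/
def badSeq : List (List ℕ) := [[1, 2], [2, 0], [0, 1]]

lemma badSeq_valid : ValidSeq badSeq := by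
  intro i hi
  have hi' : i < 3 := hi
  interval_cases i
  · refine ⟨by simp [badSeq], fun j => ?_⟩
    simp only [badSeq, List.getD_cons_zero, List.mem_cons, List.not_mem_nil, or_false,
      List.length_cons, List.length_nil]
    omega
  · refine ⟨by simp [badSeq], fun j => ?_⟩
    simp only [badSeq, List.getD_cons_succ, List.getD_cons_zero, List.mem_cons,
      List.not_mem_nil, or_false, List.length_cons, List.length_nil]
    omega
  · refine ⟨by simp [badSeq], fun j => ?_⟩
    simp only [badSeq, List.getD_cons_succ, List.getD_cons_zero, List.mem_cons,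
      List.not_mem_nil, or_false, List.length_cons, List.length_nil]
    omega

lemma badSeq_not : ¬ RealOrd badSeq.length (ordOf badSeq) := by
  rintro ⟨m, b, hm, h⟩
  have h01 := hm 0 1 (by omega) (by decide)
  have h12 := hm 1 2 (by omega) (by decide)
  have h02 := hm 0 2 (by omega) (by decide)
  have e0 := h 0 (by decide) 1 (by decide) 2 (by decide) (by omega) (by omega) (by decide)
  have e1 := h 1 (by decide) 2 (by decide) 0 (by decide) (by omega) (by omega) (by decide)
  have e2 := h 2 (by decide) 0 (by decide) 1 (by decide) (by omega) (by omega) (by decide)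
  have s : ∀ i j, (b j - b i) / (m i - m j) = (b i - b j) / (m j - m i) := by
    intro i j
    rw [← neg_sub (b i) (b j), ← neg_sub (m j) (m i), neg_div_neg_eq]
  rw [s 1 0] at e1
  rw [s 2 0, s 2 1] at e2
  linarith

/-- the reduction from simple stretchability -/
theorem main_pt (k : ℕ) : ∃ f : List (List ℕ) → ℕ × List (ℕ × ℕ), PT f ∧
    ∀ σ, (k : ℕ∞) ≤ (graphOf (f σ)).egirth ∧ (Stretchable σ ↔ IsSegGraph (graphOf (f σ))) := by
  obtain ⟨f0, -, hf0, -⟩ := exists_segMap k (0, [])
  obtain ⟨f, hf, hf1, hf2⟩ := exists_segMap k (f0 badSeq)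
  obtain ⟨e0⟩ := hf0 badSeq badSeq_valid
  have hb1 : (k : ℕ∞) ≤ (graphOf (f0 badSeq)).egirth :=
    egirth_of_iso e0 _ (csys_girth k _ _ (ordOK_of_valid _ badSeq_valid))
  have hb2 : ¬ IsSegGraph (graphOf (f0 badSeq)) := by
    rw [isSegGraph_congr e0, isSeg_csys k _ _ (ordOK_of_valid _ badSeq_valid)]
    exact badSeq_not
  refine ⟨f, hf, fun σ => ?_⟩
  by_cases hσ : ValidSeq σ
  · obtain ⟨e⟩ := hf1 σ hσ
    refine ⟨egirth_of_iso e _ (csys_girth k _ _ (ordOK_of_valid _ hσ)), ?_⟩
    rw [isSegGraph_congr e, isSeg_csys k _ _ (ordOK_of_valid _ hσ), stretchable_iff]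
    exact ⟨fun h => h.2, fun h => ⟨hσ, h⟩⟩
  · rw [hf2 σ hσ]
    refine ⟨hb1, ?_⟩
    rw [stretchable_iff]
    exact ⟨fun h => absurd h.1 hσ, fun h => absurd h hb2⟩

end SegGirth
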