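import Pool.Agent.Lib.MP_0f8b55_lc.Defs
import Mathlib.Combinatorics.SimpleGraph.Girth
import Mathlib.Analysis.Convex.Segment

/-!
# The recognition problem of segment intersection graphs of girth at least `k`

The definitions of decision problems (`Problem`), of polynomial time many-one reductions
(`Reduces`), of the existential theory of the reals (`ETR`) and of graph codes (`GraphCode`) are in
`Pool.Agent.Lib.MP_0f8b55_lc.Defs`.
-/

namespace SegGirth

open Pool.Agent.Lib.MP_0f8b55_lc

/-- `G` is a segment intersection graph: every vertex `v` has a segment `[p v, q v]` of the plane
(with two different end points) such that two distinct vertices are adjacent if and only if their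
segments meet. -/
def IsSegmentGraph {V : Type} (G : SimpleGraph V) : Prop :=
  ∃ p q : V → ℝ × ℝ, (∀ v, p v ≠ q v) ∧
    ∀ u v, u ≠ v → (G.Adj u v ↔ (segment ℝ (p u) (q u) ∩ segment ℝ (p v) (q v)).Nonempty)

/-- The problem `SEG_{≥ k}`: given a finite graph of girth at least `k`, is it a segment
intersection graph?  (`egirth` is the length of a shortest cycle, `⊤` for forests.) -/
def SEGgirth (k : ℕ) : Problem where
  Inst := {I : GraphCode // (k : ℕ∞) ≤ I.graph.egirth}
  Letter := Bool
  fin := inferInstance
  enc := fun I => codePair codeNat (codeList (codePair codeNat codeNat)) I.1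
  inj := fun _ _ h => Subtype.ext
    ((selfDelimiting_nat.pair (selfDelimiting_nat.pair selfDelimiting_nat).list).injective h)
  Yes := fun I => IsSegmentGraph I.1.graph

/-- A problem is hard for `∃ℝ` if the existential theory of the reals reduces to it by a polynomial
time many-one reduction. -/
def ERHard (P : Problem) : Prop := Reduces ETR P

end SegGirth
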