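import Mathlib
import Pool.Agent.Lib.MP_beb3fe_lc.Basic

namespace SegGirth

/-- Run lemma for the girth: `P` = path edges, `S` = special vertices.  A cycle shorter than `L`
contains no path edge. -/
theorem run_lemma {V : Type*} (G : SimpleGraph V) (P : V → V → Prop) (S : V → Prop) (L : ℕ)
    (hsymm : ∀ u v, P u v → P v u)
    (hS : ∀ u v, G.Adj u v → ¬ P u v → S u)
    (hrun : ∀ (r : ℕ) (c : ℕ → V), 1 ≤ r → r < L → (∀ i, i < r → P (c i) (c (i + 1))) →
      (∀ i j, i ≤ r → j ≤ r → c i = c j → i = j) → S (c 0) → S (c r) → False)
    (hcyc : ∀ (r : ℕ) (c : ℕ → V), 3 ≤ r → r < L → (∀ i, i < r → P (c i) (c (i + 1))) →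
      (∀ i j, i < r → j < r → c i = c j → i = j) → c r = c 0 → False)
    (v : V) (w : G.Walk v v) (hw : w.IsCycle) (hlt : w.length < L) :
    ∀ i, i < w.length → ¬ P (w.getVert i) (w.getVert (i + 1)) := by
  classical
  intro i hi hPi
  set n := w.length with hn
  have hn3 : 3 ≤ n := hw.three_le_length
  -- periodic extension
  set u : ℕ → V := fun t => w.getVert (t % n) with hu
  have hinj : ∀ a b, a < n → b < n → w.getVert a = w.getVert b → a = b := by
    intro a b ha hb hab
    have := hw.getVert_injOn' (by simp only [Set.mem_ofPred_eq]; omega)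
      (by simp only [Set.mem_ofPred_eq]; omega) hab
    exact this
  have hper : ∀ t, u (t + n) = u t := by
    intro t
    simp [hu]
  have hstep : ∀ t, ∃ a, a < n ∧ u t = w.getVert a ∧ u (t + 1) = w.getVert (a + 1) := by
    intro t
    refine ⟨t % n, Nat.mod_lt _ (by omega), rfl, ?_⟩
    simp only [hu]
    by_cases h : t % n + 1 < n
    · have : (t + 1) % n = t % n + 1 := by
        rw [Nat.add_mod, Nat.mod_eq_of_lt (show 1 < n by omega), Nat.mod_eq_of_lt h]
      rw [this]
    · have hlt' : t % n < n := Nat.mod_lt _ (by omega)
      have h2 : t % n + 1 = n := by omega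
      have : (t + 1) % n = 0 := by
        rw [Nat.add_mod, Nat.mod_eq_of_lt (show 1 < n by omega), h2, Nat.mod_self]
      rw [this, h2, w.getVert_zero, hn, w.getVert_length]
  have hadj : ∀ t, G.Adj (u t) (u (t + 1)) := by
    intro t
    obtain ⟨a, ha, h1, h2⟩ := hstep t
    rw [h1, h2]
    exact w.adj_getVert_succ ha
  have hinj' : ∀ s a b, a < n → b < n → u (s + a) = u (s + b) → a = b := by
    intro s a b ha hb hab
    have h := hinj _ _ (Nat.mod_lt _ (by omega)) (Nat.mod_lt _ (by omega)) hab
    have h2 : a ≡ b [MOD n] := Nat.ModEq.add_left_cancel' s h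
    rw [Nat.ModEq, Nat.mod_eq_of_lt ha, Nat.mod_eq_of_lt hb] at h2
    exact h2
  have hui : u i = w.getVert i := by simp [hu, Nat.mod_eq_of_lt hi]
  have hPu : P (u i) (u (i + 1)) := by
    obtain ⟨a, ha, h1, h2⟩ := hstep i
    have : a = i := hinj _ _ ha hi (by rw [← h1, hui])
    subst this
    rw [h1, h2]
    exact hPi
  by_cases hall : ∀ t, P (u t) (u (t + 1))
  · exact hcyc n u hn3 hlt (fun t _ => hall t)
      (fun a b ha hb hab => hinj' 0 a b ha hb (by simpa using hab))
      (by simpa using hper 0)
  · push Not at hall
    obtain ⟨j, hj⟩ := hall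
    -- the first path edge after `j`
    have hex : ∃ t, P (u (j + t)) (u (j + t + 1)) := by
      -- move `i` beyond `j`
      refine ⟨i + n * j - j, ?_⟩
      have h1 : j ≤ n * j := Nat.le_mul_of_pos_left _ (by omega)
      have h2 : j + (i + n * j - j) = i + n * j := by omega
      have h3 : ∀ k, u (k + n * j) = u k := by
        intro k
        simp [hu]
      rw [h2, h3, show i + n * j + 1 = (i + 1) + n * j by ring, h3]
      exact hPu
    set t := Nat.find hex with ht
    have htP : P (u (j + t)) (u (j + t + 1)) := Nat.find_spec hex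
    have htmin : ∀ k < t, ¬ P (u (j + k)) (u (j + k + 1)) := fun k hk => Nat.find_min hex hk
    have ht1 : 1 ≤ t := by
      rcases Nat.eq_zero_or_pos t with h | h
      · rw [h] at htP
        exact absurd htP hj
      · exact h
    have htn : t < n := by
      by_contra hcon
      have h1 : j + (t - n) + n = j + t := by omega
      have h2 : u (j + (t - n)) = u (j + t) := by rw [← hper, h1]
      have h3 : u (j + (t - n) + 1) = u (j + t + 1) := by
        rw [← hper, show j + (t - n) + 1 + n = j + t + 1 by omega]
      refine htmin (t - n) (by omega) ?_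
      rw [h2, h3]
      exact htP
    -- the first non-path edge after that
    have hex2 : ∃ r, ¬ P (u (j + t + r)) (u (j + t + r + 1)) := by
      refine ⟨n - t, ?_⟩
      have h1 : j + t + (n - t) = j + n := by omega
      rw [h1, hper, show j + n + 1 = j + 1 + n by ring, hper]
      exact hj
    set r := Nat.find hex2 with hr
    have hrP : ¬ P (u (j + t + r)) (u (j + t + r + 1)) := Nat.find_spec hex2
    have hrmin : ∀ k < r, P (u (j + t + k)) (u (j + t + k + 1)) := fun k hk => by
      have := Nat.find_min hex2 hk
      simpa using this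
    have hr1 : 1 ≤ r := by
      rcases Nat.eq_zero_or_pos r with h | h
      · rw [h] at hrP
        exact absurd htP hrP
      · exact h
    have hrn : r ≤ n - t := by
      by_contra hcon
      have := hrmin (n - t) (by omega)
      have h1 : j + t + (n - t) = j + n := by omega
      rw [h1, hper, show j + n + 1 = j + 1 + n by ring, hper] at this
      exact hj this
    refine hrun r (fun k => u (j + t + k)) hr1 (by omega) (fun k hk => hrmin k hk) ?_ ?_ ?_
    · intro a b ha hb hab
      exact hinj' (j + t) a b (by omega) (by omega) hab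
    · -- start vertex is special
      have hk := htmin (t - 1) (by omega)
      have h1 : j + (t - 1) + 1 = j + t := by omega
      rw [h1] at hk
      simp only [Nat.add_zero]
      refine hS (u (j + t)) (u (j + (t - 1))) ?_ (fun h => hk (hsymm _ _ h))
      have := hadj (j + (t - 1))
      rw [h1] at this
      exact this.symm
    · exact hS _ _ (hadj _) hrP

end SegGirth
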